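import Mathlib

set_option autoImplicit false
set_option maxSynthPendingDepth 3

namespace Pool.Agent.H23.Annul

lemma exists_align (A B : ℂ) : ∃ μ : ℂ, ‖μ‖ = 1 ∧ ‖A + μ * B‖ = ‖A‖ + ‖B‖ := by
  obtain ⟨u, hu, eu⟩ := Complex.exists_norm_mul_eq_self A
  obtain ⟨v, hv, ev⟩ := Complex.exists_norm_mul_eq_self B
  have hv0 : v ≠ 0 := by rintro rfl; simp at hv
  refine ⟨u / v, by simp [hu, hv], ?_⟩
  have : A + u / v * B = u * ((‖A‖ + ‖B‖ : ℝ) : ℂ) := by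
    conv_lhs => rw [← eu, ← ev]
    push_cast; field_simp
  rw [this, norm_mul, hu, one_mul, Complex.norm_real, Real.norm_of_nonneg (by positivity)]

lemma zero_of_pm {a b : ℂ} (ha : ‖a‖ = 1) (h1 : ‖a + b‖ ≤ 1) (h2 : ‖a - b‖ ≤ 1) : b = 0 := by
  have h := parallelogram_law_with_norm ℂ a b
  have : ‖b‖ * ‖b‖ ≤ 0 := by
    nlinarith [norm_nonneg (a + b), norm_nonneg (a - b)]
  exact norm_eq_zero.1 (by nlinarith [norm_nonneg b])

lemma lumer {X : Type} [NormedAddCommGroup X] [NormedSpace ℂ X] (T : X →L[ℂ] X) (v : ℝ)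
    (h : ∀ (x : X) (f : X →L[ℂ] ℂ), ‖x‖ = 1 → ‖f‖ = 1 → f x = 1 → ‖f (T x)‖ ≤ v) (ω : ℂ) (y : X) :
    (1 - ‖ω‖ * v) * ‖y‖ ≤ ‖y - ω • T y‖ := by
  by_cases hy : y = 0
  · simp [hy]
  have hy' : 0 < ‖y‖ := norm_pos_iff.2 hy
  obtain ⟨f, hf, e⟩ := exists_dual_vector ℂ y hy'.ne'
  have hc : (‖y‖ : ℂ) ≠ 0 := by exact_mod_cast hy'.ne'
  have h1 := h ((‖y‖ : ℂ)⁻¹ • y) f (by simp [norm_smul, hy'.ne']) hf (by
    rw [map_smul, e]; exact inv_mul_cancel₀ hc)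
  rw [map_smul, map_smul, norm_smul, norm_inv, Complex.norm_real, norm_norm,
    inv_mul_le_iff₀ hy'] at h1
  have h2 := f.le_opNorm (y - ω • T y)
  rw [hf, one_mul, map_sub, map_smul, e] at h2
  have h3 := norm_sub_norm_le ((‖y‖ : ℝ) : ℂ) (ω • f (T y))
  rw [Complex.norm_real, norm_norm, norm_smul] at h3
  have h4 := mul_le_mul_of_nonneg_left h1 (norm_nonneg ω)
  have h5 : ‖((‖y‖ : ℝ) : ℂ) - ω • f (T y)‖ ≤ ‖y - ω • T y‖ := h2
  nlinarith

section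
variable {K : Type} [TopologicalSpace K] [CompactSpace K] {X : Submodule ℂ C(K, ℂ)}

def Peak (X : Submodule ℂ C(K, ℂ)) (s : K) (p : C(K, ℂ)) : Prop :=
  p s = 1 ∧ (∀ t, t ≠ s → ‖p t‖ < 1) ∧ ∀ n : ℕ, p ^ n ∈ X

omit [CompactSpace K] in
lemma Peak.le {s : K} {p : C(K, ℂ)} (h : Peak X s p) (n : ℕ) (t : K) : ‖(p ^ n) t‖ ≤ 1 := by
  rw [ContinuousMap.pow_apply, norm_pow]
  refine pow_le_one₀ (norm_nonneg _) ?_
  by_cases e : t = s
  · rw [e, h.1, norm_one]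
  · exact (h.2.1 t e).le

lemma Peak.conc {s : K} {p : C(K, ℂ)} (h : Peak X s p) {U : Set K} (hU : IsOpen U) (hs : s ∈ U)
    {ε : ℝ} (hε : 0 < ε) : ∃ n : ℕ, ∀ t, t ∉ U → ‖(p ^ n) t‖ ≤ ε := by
  rcases (Uᶜ).eq_empty_or_nonempty with e | e
  · exact ⟨0, fun t ht => absurd (show t ∈ Uᶜ from ht) (by simp [e])⟩
  obtain ⟨t0, h0, hm⟩ := hU.isClosed_compl.isCompact.exists_isMaxOn e
    (f := fun t => ‖p t‖) p.continuous.norm.continuousOn
  obtain ⟨n, hn⟩ := exists_pow_lt_of_lt_one hε (h.2.1 t0 (fun e => h0 (e ▸ hs)))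
  refine ⟨n, fun t ht => ?_⟩
  rw [ContinuousMap.pow_apply, norm_pow]
  exact (pow_le_pow_left₀ (norm_nonneg _) (hm ht) n).trans hn.le

lemma Peak.bump {s : K} {p : C(K, ℂ)} (h : Peak X s p) {ε : ℝ} (hε : 0 < ε) (m : ℕ) :
    ∀ U : Set K, IsOpen U → s ∈ U → ∃ H ∈ X, H s = m ∧ (∀ t, t ∉ U → ‖H t‖ ≤ m * ε) ∧
      ∀ t, ∃ r : ℝ, 0 ≤ r ∧ r ≤ m ∧ ‖H t - r‖ ≤ 1 + m * ε := by
  induction m with
  | zero => exact fun U _ _ => ⟨0, X.zero_mem, by simp, by simp, fun t => ⟨0, by simp⟩⟩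
  | succ m ih =>
    intro U hU hs
    obtain ⟨n, hn⟩ := h.conc hU hs hε
    have hV : IsOpen (U ∩ {t | ‖(p ^ n) t - 1‖ < ε}) :=
      hU.inter (isOpen_lt (by fun_prop) continuous_const)
    obtain ⟨H, hH, h1, h2, h3⟩ := ih _ hV ⟨hs, by simpa [h.1] using hε⟩
    refine ⟨p ^ n + H, X.add_mem (h.2.2 n) hH, by simp [h.1, h1, add_comm], fun t ht => ?_,
      fun t => ?_⟩
    · have := norm_add_le ((p ^ n) t) (H t)
      have a := hn t ht
      have b := h2 t (fun e => ht e.1)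
      rw [ContinuousMap.add_apply, Nat.cast_succ]; linarith
    · by_cases e : t ∈ U ∩ {t | ‖(p ^ n) t - 1‖ < ε}
      · obtain ⟨r, r0, r1, r2⟩ := h3 t
        refine ⟨r + 1, by linarith, by push_cast; linarith, ?_⟩
        have a : ‖(p ^ n) t - 1‖ < ε := e.2
        have b := norm_add_le ((p ^ n) t - 1) (H t - r)
        rw [ContinuousMap.add_apply, Nat.cast_succ, Complex.ofReal_add, Complex.ofReal_one,
          show (p ^ n) t + H t - (r + 1) = (p ^ n) t - 1 + (H t - r) by ring]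
        linarith
      · refine ⟨0, le_rfl, by positivity, ?_⟩
        have a := h2 t e
        have b := h.le n t
        have c := norm_add_le ((p ^ n) t) (H t)
        rw [ContinuousMap.add_apply, Nat.cast_succ, Complex.ofReal_zero, sub_zero]; linarith

lemma Peak.bump' {s : K} {p : C(K, ℂ)} (h : Peak X s p) {ε : ℝ} (hε : 0 < ε)
    {U : Set K} (hU : IsOpen U) (hs : s ∈ U) : ∃ H ∈ X, H s = 1 ∧ (∀ t, t ∉ U → ‖H t‖ ≤ ε) ∧
      ∀ t, ∃ r : ℝ, 0 ≤ r ∧ r ≤ 1 ∧ ‖H t - r‖ ≤ 2 * ε := by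
  obtain ⟨k, hk⟩ := exists_nat_one_div_lt hε
  obtain ⟨H, hH, h1, h2, h3⟩ := h.bump hε (k + 1) U hU hs
  push_cast at h1 h2 h3
  have hm : (0 : ℝ) < k + 1 := by positivity
  have hm' : ((k + 1 : ℝ) : ℂ) ≠ 0 := by exact_mod_cast hm.ne'
  have hn : ∀ z : ℂ, ‖((k + 1 : ℝ) : ℂ)⁻¹ * z‖ = ‖z‖ / (k + 1) := by
    intro z
    rw [norm_mul, norm_inv, Complex.norm_real, Real.norm_of_nonneg hm.le, inv_mul_eq_div]
  refine ⟨((k + 1 : ℝ) : ℂ)⁻¹ • H, X.smul_mem _ hH, ?_, fun t ht => ?_, fun t => ?_⟩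
  · rw [ContinuousMap.smul_apply, h1, smul_eq_mul]
    push_cast at hm' ⊢
    exact inv_mul_cancel₀ hm'
  · rw [ContinuousMap.smul_apply, smul_eq_mul, hn, div_le_iff₀ hm]
    linarith [h2 t ht]
  · obtain ⟨r, r0, r1, r2⟩ := h3 t
    refine ⟨r / (k + 1), by positivity, by rwa [div_le_one hm], ?_⟩
    rw [ContinuousMap.smul_apply, smul_eq_mul, Complex.ofReal_div, div_eq_inv_mul, ← mul_sub, hn,
      div_le_iff₀ hm]
    rw [div_lt_iff₀ hm] at hk
    linarith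

lemma approx [Nonempty K] (hP : ∀ s, ∃ p, Peak X s p) (T : X →L[ℂ] X) {ε : ℝ} (hε : 0 < ε) :
    ∃ (x : X) (s : K), ‖x‖ ≤ 1 + 5 * ε ∧ ‖x.1 s‖ = 1 ∧ ‖T‖ - ε ≤ ‖(T x).1 s‖ := by
  obtain ⟨f, hf, hT⟩ := T.exists_lt_apply_of_lt_opNorm (r := ‖T‖ - ε) (by linarith)
  have hf' : ∀ t, ‖f.1 t‖ ≤ 1 := fun t => (f.1.norm_coe_le_norm t).trans hf.le
  obtain ⟨s, hs⟩ : ∃ s, ‖T‖ - ε ≤ ‖(T f).1 s‖ := by
    by_contra hc
    push Not at hc
    exact absurd hT (not_lt.2 ((T f).1.norm_le_of_nonempty.2 fun s => (hc s).le))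
  obtain ⟨p, hp⟩ := hP s
  obtain ⟨H, hH, h1, h2, h3⟩ := hp.bump' hε (U := {t | ‖f.1 t - f.1 s‖ < ε})
    (isOpen_lt (by fun_prop) continuous_const) (by simpa using hε)
  obtain ⟨μ, hμ, e⟩ := exists_align ((T f).1 s - f.1 s * (T ⟨H, hH⟩).1 s) ((T ⟨H, hH⟩).1 s)
  have hμ2 : ‖μ - f.1 s‖ ≤ 2 := by linarith [norm_sub_le μ (f.1 s), hf' s]
  refine ⟨f + (μ - f.1 s) • ⟨H, hH⟩, s, ?_, ?_, ?_⟩
  · refine (ContinuousMap.norm_le _ (by positivity)).2 fun t => ?_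
    change ‖f.1 t + (μ - f.1 s) * H t‖ ≤ _
    by_cases ht : ‖f.1 t - f.1 s‖ < ε
    · obtain ⟨r, r0, r1, r2⟩ := h3 t
      rw [show f.1 t + (μ - f.1 s) * H t = (f.1 t - f.1 s) + (((1 - r : ℝ) : ℂ) * f.1 s + r * μ) +
        (μ - f.1 s) * (H t - r) by push_cast; ring]
      have a : ‖((1 - r : ℝ) : ℂ) * f.1 s + r * μ‖ ≤ 1 := by
        refine (norm_add_le _ _).trans ?_
        rw [norm_mul, norm_mul, hμ, Complex.norm_real, Complex.norm_real,
          Real.norm_of_nonneg r0, Real.norm_of_nonneg (by linarith)]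
        nlinarith [hf' s]
      have b : ‖(μ - f.1 s) * (H t - r)‖ ≤ 2 * (2 * ε) := by
        rw [norm_mul]; exact mul_le_mul hμ2 r2 (norm_nonneg _) (by norm_num)
      refine (norm_add₃_le).trans ?_
      linarith
    · have b : ‖(μ - f.1 s) * H t‖ ≤ 2 * ε := by
        rw [norm_mul]; exact mul_le_mul hμ2 (h2 t ht) (norm_nonneg _) (by norm_num)
      refine (norm_add_le _ _).trans ?_
      linarith [hf' t]
  · change ‖f.1 s + (μ - f.1 s) * H s‖ = 1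
    rw [h1, mul_one, add_sub_cancel, hμ]
  · rw [map_add, map_smul]
    change _ ≤ ‖(T f).1 s + (μ - f.1 s) * (T ⟨H, hH⟩).1 s‖
    rw [show (T f).1 s + (μ - f.1 s) * (T ⟨H, hH⟩).1 s =
      (T f).1 s - f.1 s * (T ⟨H, hH⟩).1 s + μ * (T ⟨H, hH⟩).1 s by ring, e]
    have a := norm_add_le ((T f).1 s - f.1 s * (T ⟨H, hH⟩).1 s) (f.1 s * (T ⟨H, hH⟩).1 s)
    rw [sub_add_cancel, norm_mul] at a
    nlinarith [hf' s, norm_nonneg ((T ⟨H, hH⟩).1 s)]

theorem index_one [Nonempty K] (hP : ∀ s, ∃ p, Peak X s p) (T : X →L[ℂ] X) (e : ℝ) (he : 0 < e) :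
    ∃ (x : X) (f : X →L[ℂ] ℂ), ‖x‖ = 1 ∧ ‖f‖ = 1 ∧ f x = 1 ∧ ‖T‖ - e < ‖f (T x)‖ := by
  by_contra hc
  push Not at hc
  have hL := lumer T _ hc
  have hN := norm_nonneg T
  obtain ⟨α, hα, h1⟩ := exists_pos_mul_lt (a := min 1 e) (lt_min one_pos he)
    (2 * ‖T‖ * ‖T‖ + ‖T‖)
  have a1 : (2 * ‖T‖ * ‖T‖ + ‖T‖) * α < 1 := h1.trans_le (min_le_left _ _)
  have a2 : (2 * ‖T‖ * ‖T‖ + ‖T‖) * α < e := h1.trans_le (min_le_right _ _)
  have a3 : 0 ≤ 1 - α * (‖T‖ - e) := by nlinarith [mul_nonneg (mul_nonneg hN hN) hα.le]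
  have key : ∀ ε : ℝ, 0 < ε → (1 - α * (‖T‖ - e)) * (1 + α * (‖T‖ - ε)) ≤
      (1 + 5 * ε) * (1 + α * α * (‖T‖ * ‖T‖)) := by
    intro ε hε
    obtain ⟨x, s, hx, hs, hT⟩ := approx hP T hε
    obtain ⟨μ, hμ, e1⟩ := exists_align (x.1 s) (α * (T x).1 s)
    have hω : ‖μ * α‖ = α := by
      rw [norm_mul, hμ, one_mul, Complex.norm_real, Real.norm_of_nonneg hα.le]
    have b1 := hL (μ * α) (x + (μ * α) • T x)
    rw [hω] at b1
    have b2 : 1 + α * (‖T‖ - ε) ≤ ‖x + (μ * α) • T x‖ := by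
      refine le_trans ?_ ((x + (μ * α) • T x).1.norm_coe_le_norm s)
      change _ ≤ ‖x.1 s + μ * α * (T x).1 s‖
      rw [mul_assoc, e1, hs, norm_mul, Complex.norm_real, Real.norm_of_nonneg hα.le]
      nlinarith
    have b3 : ‖x + (μ * α) • T x - (μ * α) • T (x + (μ * α) • T x)‖ ≤
        (1 + 5 * ε) * (1 + α * α * (‖T‖ * ‖T‖)) := by
      rw [map_add, map_smul, smul_add, show ∀ a b c : X, a + b - (b + c) = a - c from
        fun a b c => by abel]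
      refine (norm_sub_le _ _).trans ?_
      rw [norm_smul, norm_smul, hω]
      have c1 : ‖T (T x)‖ ≤ ‖T‖ * (‖T‖ * (1 + 5 * ε)) :=
        (T.le_opNorm _).trans (mul_le_mul_of_nonneg_left ((T.le_opNorm _).trans
          (mul_le_mul_of_nonneg_left hx hN)) hN)
      nlinarith [mul_le_mul_of_nonneg_left c1 (mul_nonneg hα.le hα.le)]
    exact (mul_le_mul_of_nonneg_left b2 a3).trans (b1.trans b3)
  have lim : (1 - α * (‖T‖ - e)) * (1 + α * (‖T‖ - 0)) ≤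
      (1 + 5 * 0) * (1 + α * α * (‖T‖ * ‖T‖)) := by
    refine le_of_tendsto_of_tendsto (b := nhdsWithin (0 : ℝ) (Set.Ioi 0))
      (Continuous.tendsto (f := fun ε : ℝ => (1 - α * (‖T‖ - e)) * (1 + α * (‖T‖ - ε)))
        (by fun_prop) 0 |>.mono_left nhdsWithin_le_nhds)
      (Continuous.tendsto (f := fun ε : ℝ => (1 + 5 * ε) * (1 + α * α * (‖T‖ * ‖T‖)))
        (by fun_prop) 0 |>.mono_left nhdsWithin_le_nhds) ?_
    filter_upwards [self_mem_nhdsWithin] with ε hε using key ε hε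
  have a4 : α * ((2 * ‖T‖ * ‖T‖ + ‖T‖) * α) < α * e := mul_lt_mul_of_pos_left a2 hα
  nlinarith [mul_nonneg (mul_nonneg hα.le hα.le) hN, mul_nonneg (mul_nonneg (mul_nonneg hα.le hα.le) hN) he.le]

noncomputable def dl (X : Submodule ℂ C(K, ℂ)) (s : K) : X →L[ℂ] ℂ :=
  (ContinuousMap.evalCLM ℂ s).comp X.subtypeL

lemma dl_le (s : K) : ‖dl X s‖ ≤ 1 :=
  ContinuousLinearMap.opNorm_le_bound _ zero_le_one fun x => by
    rw [one_mul]; exact x.1.norm_coe_le_norm s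

theorem dl_ext {s : K} {p : C(K, ℂ)} (h : Peak X s p) (g : X →L[ℂ] ℂ) (h1 : ‖dl X s + g‖ ≤ 1)
    (h2 : ‖dl X s - g‖ ≤ 1) : g = 0 := by
  have k1 : ∀ n, g ⟨p ^ n, h.2.2 n⟩ = 0 := by
    intro n
    have hn : ‖(⟨p ^ n, h.2.2 n⟩ : X)‖ ≤ 1 := (ContinuousMap.norm_le _ zero_le_one).2 (h.le n)
    refine zero_of_pm (a := dl X s ⟨p ^ n, h.2.2 n⟩) ?_ ?_ ?_
    · change ‖(p ^ n) s‖ = 1
      simp [h.1]
    · exact ((dl X s + g).le_opNorm _).trans (mul_le_one₀ h1 (norm_nonneg _) hn)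
    · exact ((dl X s - g).le_opNorm _).trans (mul_le_one₀ h2 (norm_nonneg _) hn)
  have k2 : ∀ y : X, y.1 s = 0 → ‖y‖ ≤ 1 → g y = 0 := by
    intro y hy hy1
    refine norm_eq_zero.1 (le_antisymm (le_of_forall_pos_le_add fun ε hε => ?_) (norm_nonneg _))
    obtain ⟨n, hn⟩ := h.conc (U := {t | ‖y.1 t‖ < ε}) (isOpen_lt (by fun_prop) continuous_const)
      (by simpa [hy] using hε) hε
    obtain ⟨μ, hμ, e⟩ := exists_align 1 (g y)
    have a : ‖(⟨p ^ n, h.2.2 n⟩ : X) + μ • y‖ ≤ 1 + ε := by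
      refine (ContinuousMap.norm_le _ (by positivity)).2 fun t => ?_
      change ‖(p ^ n) t + μ * y.1 t‖ ≤ _
      refine (norm_add_le _ _).trans ?_
      rw [norm_mul, hμ, one_mul]
      by_cases ht : ‖y.1 t‖ < ε
      · linarith [h.le n t]
      · linarith [hn t ht, (y.1.norm_coe_le_norm t).trans hy1]
    have b := (dl X s + g).le_opNorm ((⟨p ^ n, h.2.2 n⟩ : X) + μ • y)
    have c : (dl X s + g) ((⟨p ^ n, h.2.2 n⟩ : X) + μ • y) = 1 + μ * g y := by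
      rw [add_apply, map_add g, map_smul, k1]
      change (p ^ n) s + μ * y.1 s + _ = _
      simp [h.1, hy]
    rw [c, e, norm_one] at b
    nlinarith [norm_nonneg ((⟨p ^ n, h.2.2 n⟩ : X) + μ • y), norm_nonneg (dl X s + g)]
  ext y
  have k3 : g (y - y.1 s • ⟨p ^ 0, h.2.2 0⟩) = 0 := by
    set z := y - y.1 s • (⟨p ^ 0, h.2.2 0⟩ : X) with hz
    have hz0 : z.1 s = 0 := by
      change y.1 s - y.1 s * (p ^ 0) s = 0
      simp
    have hm : (0 : ℝ) < ‖z‖ + 1 := by positivity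
    have := k2 (((‖z‖ + 1 : ℝ) : ℂ)⁻¹ • z) (by
      change _ * z.1 s = 0
      rw [hz0, mul_zero]) (by
      rw [norm_smul, norm_inv, Complex.norm_real, Real.norm_of_nonneg hm.le, inv_mul_le_iff₀ hm]
      linarith)
    rw [map_smul, smul_eq_zero] at this
    exact this.resolve_left (inv_ne_zero (by exact_mod_cast hm.ne'))
  rwa [map_sub, map_smul, k1, smul_zero, sub_zero] at k3

end

abbrev KK := AddCircle (1 : ℝ) × Bool

noncomputable def rho (b : Bool) : ℂ := if b then 1 / 2 else 1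

lemma rho_ne (b : Bool) : rho b ≠ 0 := by cases b <;> simp [rho]

noncomputable def ee (n : ℤ) : C(KK, ℂ) :=
  ⟨fun q => rho q.2 ^ n * fourier n q.1,
    ((continuous_of_discreteTopology (f := fun b => rho b ^ n)).comp continuous_snd).mul
      ((fourier n).continuous.comp continuous_fst)⟩

lemma ee_apply (n : ℤ) (q : KK) : ee n q = rho q.2 ^ n * fourier n q.1 := rfl

lemma ee_add (m n : ℤ) : ee (m + n) = ee m * ee n := by
  ext q
  rw [ContinuousMap.mul_apply, ee_apply, ee_apply, ee_apply, fourier_add, zpow_add₀ (rho_ne _)]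
  ring

lemma ee_zero : ee 0 = 1 := by
  ext q
  rw [ee_apply, fourier_zero]; simp

lemma norm_ee (n : ℤ) (q : KK) : ‖ee n q‖ = ‖rho q.2‖ ^ n := by
  rw [ee_apply, norm_mul, fourier_apply, Circle.norm_coe, mul_one, norm_zpow]

lemma ee_inj {t s : KK} (h : ee 1 t = ee 1 s) : t = s := by
  obtain ⟨a, b⟩ := t
  obtain ⟨c, d⟩ := s
  have h1 := congrArg norm h
  rw [norm_ee, norm_ee] at h1
  have h2 : b = d := by cases b <;> cases d <;> simp [rho] at h1 ⊢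
  subst h2
  rw [ee_apply, ee_apply, mul_right_inj' (zpow_ne_zero _ (rho_ne _)), fourier_one, fourier_one] at h
  exact Prod.ext (AddCircle.injective_toCircle one_ne_zero (Circle.coe_injective h)) rfl

noncomputable def res (b : Bool) (F : C(KK, ℂ)) : C(AddCircle (1 : ℝ), ℂ) :=
  ⟨fun θ => F (θ, b), by fun_prop⟩

noncomputable def cf (b : Bool) (n : ℤ) : C(KK, ℂ) →L[ℂ] ℂ :=
  LinearMap.mkContinuous
    { toFun := fun F => fourierCoeff (res b F) n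
      map_add' := fun F G => by
        have := fourierCoeff.add (f := res b F) (g := res b G)
          ((res b F).continuous.integrable_of_hasCompactSupport (HasCompactSupport.of_compactSpace _))
          ((res b G).continuous.integrable_of_hasCompactSupport (HasCompactSupport.of_compactSpace _))
        exact congrFun this n
      map_smul' := fun c F => fourierCoeff.const_smul (res b F) c n } 1 (fun F => by
    change ‖∫ t, _ ∂AddCircle.haarAddCircle‖ ≤ _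
    refine (MeasureTheory.norm_integral_le_of_norm_le_const (C := ‖F‖)
      (Filter.Eventually.of_forall fun t => ?_)).trans (by simp)
    rw [norm_smul, fourier_apply, Circle.norm_coe, one_mul]
    exact F.norm_coe_le_norm _)

lemma cf_ee (b : Bool) (n k : ℤ) : cf b n (ee k) = rho b ^ k * if n = k then 1 else 0 := by
  change fourierCoeff (fun θ => rho b ^ k * fourier k θ) n = _
  rw [fourierCoeff.const_mul, fourierCoeff_fourier, Pi.single_apply]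

noncomputable def XX : Submodule ℂ C(KK, ℂ) :=
  ⨅ n : ℤ, LinearMap.ker (cf true n - (1 / 2 : ℂ) ^ n • cf false n).toLinearMap

lemma mem_XX {F : C(KK, ℂ)} : F ∈ XX ↔ ∀ n, cf true n F = (1 / 2 : ℂ) ^ n * cf false n F := by
  simp [XX, sub_eq_zero]

lemma XX_closed : IsClosed (XX : Set C(KK, ℂ)) := by
  have : (XX : Set C(KK, ℂ)) = ⋂ n : ℤ, {F | cf true n F = (1 / 2 : ℂ) ^ n * cf false n F} := by
    ext F; simp [mem_XX]
  rw [this]
  exact isClosed_iInter fun n => isClosed_eq (by fun_prop) (by fun_prop)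

lemma ee_mem (k : ℤ) : ee k ∈ XX := by
  rw [mem_XX]
  intro n
  rw [cf_ee, cf_ee]
  split_ifs with h
  · simp [rho, h]
  · simp

lemma peak (s : KK) : ∃ p, Peak XX s p := by
  obtain ⟨σ, h1, h2⟩ : ∃ σ : ℤ, (∀ t, ‖ee σ t‖ ≤ ‖ee σ s‖) ∧ ∀ t, ee σ t = ee σ s → t = s := by
    obtain ⟨a, b⟩ := s
    cases b
    · refine ⟨1, fun t => ?_, fun t => ee_inj⟩
      rw [norm_ee, norm_ee]
      obtain ⟨c, d⟩ := t
      cases d <;> norm_num [rho]
    · refine ⟨-1, fun t => ?_, fun t h => ee_inj ?_⟩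
      · rw [norm_ee, norm_ee]
        obtain ⟨c, d⟩ := t
        cases d <;> norm_num [rho]
      · have e : ∀ q, ee 1 q * ee (-1) q = 1 := fun q => by
          rw [← ContinuousMap.mul_apply, ← ee_add]; simp [ee_zero]
        rw [eq_inv_of_mul_eq_one_left (e t), eq_inv_of_mul_eq_one_left (e _), h]
  have h0 : ee σ s ≠ 0 := by
    rw [← norm_ne_zero_iff, norm_ee]
    exact zpow_ne_zero _ (norm_ne_zero_iff.2 (rho_ne _))
  refine ⟨(1 / 2 : ℂ) • (1 + (ee σ s)⁻¹ • ee σ), ?_, fun t ht => ?_, fun n => ?_⟩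
  · change 1 / 2 * (1 + (ee σ s)⁻¹ * ee σ s) = 1
    rw [inv_mul_cancel₀ h0]; norm_num
  · change ‖1 / 2 * (1 + (ee σ s)⁻¹ * ee σ t)‖ < 1
    have a : ‖(ee σ s)⁻¹ * ee σ t‖ ≤ 1 := by
      rw [norm_mul, norm_inv, inv_mul_le_iff₀ (norm_pos_iff.2 h0), mul_one]; exact h1 t
    have b : (1 : ℂ) - (ee σ s)⁻¹ * ee σ t ≠ 0 := by
      intro e
      rw [sub_eq_zero, eq_comm, inv_mul_eq_one₀ h0] at e
      exact ht (h2 t e.symm)
    have c := parallelogram_law_with_norm ℂ (1 : ℂ) ((ee σ s)⁻¹ * ee σ t)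
    have d := norm_pos_iff.2 b
    rw [norm_mul]
    norm_num at c ⊢
    rw [← norm_inv, ← norm_mul] at c
    nlinarith [norm_nonneg (1 + (ee σ s)⁻¹ * ee σ t), norm_nonneg ((ee σ s)⁻¹ * ee σ t)]
  · have key : ∀ k, ((1 / 2 : ℂ) • (1 + (ee σ s)⁻¹ • ee σ)) ^ n * ee k ∈ XX := by
      induction n with
      | zero => intro k; rw [pow_zero, one_mul]; exact ee_mem k
      | succ n ih =>
        intro k
        rw [pow_succ, mul_assoc, smul_mul_assoc, add_mul, one_mul, smul_mul_assoc, ← ee_add,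
          mul_smul_comm, mul_add, mul_smul_comm]
        exact XX.smul_mem _ (XX.add_mem (ih k) (XX.smul_mem _ (ih _)))
    have := key 0
    rwa [ee_zero, mul_one] at this

lemma ee_le : ‖(⟨ee 1, ee_mem 1⟩ : XX)‖ ≤ 1 := by
  refine (ContinuousMap.norm_le _ zero_le_one).2 fun t => ?_
  change ‖ee 1 t‖ ≤ 1
  rw [norm_ee]
  obtain ⟨c, d⟩ := t
  cases d <;> norm_num [rho]

lemma ee_ext (y : XX) (h1 : ‖(⟨ee 1, ee_mem 1⟩ : XX) + y‖ ≤ 1)
    (h2 : ‖(⟨ee 1, ee_mem 1⟩ : XX) - y‖ ≤ 1) : y = 0 := by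
  have a : ∀ θ, y.1 (θ, false) = 0 := fun θ =>
    zero_of_pm (a := ee 1 (θ, false)) (by rw [norm_ee]; simp [rho])
      ((((⟨ee 1, ee_mem 1⟩ : XX) + y).1.norm_coe_le_norm (θ, false)).trans h1)
      ((((⟨ee 1, ee_mem 1⟩ : XX) - y).1.norm_coe_le_norm (θ, false)).trans h2)
  have b : fourierCoeff (res true y.1) = 0 := by
    funext n
    have := mem_XX.1 y.2 n
    have e : cf false n y.1 = 0 := by
      change ∫ t, _ • y.1 (t, false) ∂AddCircle.haarAddCircle = 0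
      simp [a]
    rw [e, mul_zero] at this
    exact this
  ext ⟨θ, d⟩
  cases d
  · exact a θ
  · have := has_pointwise_sum_fourier_series_of_summable (f := res true y.1)
      (by rw [b]; exact summable_zero) θ
    rw [b] at this
    simp only [Pi.zero_apply, zero_smul] at this
    exact this.unique hasSum_zero

end Pool.Agent.H23.Annul
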