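import Mathlib

set_option autoImplicit false
set_option maxSynthPendingDepth 3

open Finset

namespace Pool.Agent.H23.ChromRatio

variable {V C : Type} [Fintype V] [LinearOrder V] [Fintype C] [DecidableEq C]

open Classical in
/-- proper colourings of the relation `R` on `S` with colours in `T` (default colour `e` off `S`) -/
noncomputable def Col (e : C) (R : V → V → Prop) (S : Finset V) (T : Finset C) : Finset (V → C) :=
  univ.filter (fun φ => (∀ v ∈ S, φ v ∈ T) ∧ (∀ v, v ∉ S → φ v = e) ∧
    ∀ a ∈ S, ∀ b ∈ S, R a b → φ a ≠ φ b)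

lemma mem_Col {e : C} {R : V → V → Prop} {S : Finset V} {T : Finset C} {φ : V → C} :
    φ ∈ Col e R S T ↔ (∀ v ∈ S, φ v ∈ T) ∧ (∀ v, v ∉ S → φ v = e) ∧
    ∀ a ∈ S, ∀ b ∈ S, R a b → φ a ≠ φ b := by
  simp [Col]

lemma Col_loop {e : C} {R : V → V → Prop} {S : Finset V} {T : Finset C} {u : V} (hu : u ∈ S)
    (h : R u u) : Col e R S T = ∅ := by
  rw [Finset.eq_empty_iff_forall_notMem]
  intro φ hφ
  exact (mem_Col.1 hφ).2.2 u hu u hu h rfl

/-- deletion of a vertex -/
lemma card_delete (e : C) (R : V → V → Prop) (S : Finset V) (T : Finset C) (u : V) (hu : u ∈ S)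
    (hl : ¬ R u u) (N : Finset V) (hN : ∀ v, v ∈ N ↔ v ∈ S.erase u ∧ (R u v ∨ R v u)) :
    (Col e R S T).card = ∑ φ ∈ Col e R (S.erase u) T, (T \ N.image φ).card := by
  classical
  rw [← Finset.card_sigma]
  refine Finset.card_nbij' (fun ψ => ⟨Function.update ψ u e, ψ u⟩)
    (fun p => Function.update p.1 u p.2) ?_ ?_ ?_ ?_
  · intro ψ hψ
    obtain ⟨h1, h2, h3⟩ := mem_Col.1 (Finset.mem_coe.1 hψ)
    simp only [Finset.mem_coe, Finset.mem_sigma, Finset.mem_sdiff, Finset.mem_image]
    refine ⟨mem_Col.2 ⟨?_, ?_, ?_⟩, h1 u hu, ?_⟩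
    · intro v hv
      rw [Function.update_of_ne (Finset.ne_of_mem_erase hv)]
      exact h1 v (Finset.mem_of_mem_erase hv)
    · intro v hv
      by_cases h : v = u
      · subst h; simp
      · rw [Function.update_of_ne h]
        exact h2 v (fun hs => hv (Finset.mem_erase.2 ⟨h, hs⟩))
    · intro a ha b hb hab
      rw [Function.update_of_ne (Finset.ne_of_mem_erase ha),
        Function.update_of_ne (Finset.ne_of_mem_erase hb)]
      exact h3 a (Finset.mem_of_mem_erase ha) b (Finset.mem_of_mem_erase hb) hab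
    · rintro ⟨v, hv, hv'⟩
      obtain ⟨hv1, hv2⟩ := (hN v).1 hv
      rw [Function.update_of_ne (Finset.ne_of_mem_erase hv1)] at hv'
      rcases hv2 with h | h
      · exact h3 u hu v (Finset.mem_of_mem_erase hv1) h hv'.symm
      · exact h3 v (Finset.mem_of_mem_erase hv1) u hu h hv'
  · rintro ⟨φ, a⟩ hp
    simp only [Finset.mem_coe, Finset.mem_sigma, Finset.mem_sdiff, Finset.mem_image] at hp
    obtain ⟨hφ, ha, hna⟩ := hp
    obtain ⟨h1, h2, h3⟩ := mem_Col.1 hφ
    refine Finset.mem_coe.2 (mem_Col.2 ⟨?_, ?_, ?_⟩)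
    · intro v hv
      by_cases h : v = u
      · subst h; simpa using ha
      · simp only [Function.update_of_ne h]
        exact h1 v (Finset.mem_erase.2 ⟨h, hv⟩)
    · intro v hv
      have h : v ≠ u := fun h => hv (h ▸ hu)
      simp only [Function.update_of_ne h]
      exact h2 v (fun hs => hv (Finset.mem_of_mem_erase hs))
    · intro x hx y hy hxy
      by_cases h : x = u
      · by_cases h' : y = u
        · subst h; subst h'; exact absurd hxy hl
        · subst h
          simp only [Function.update_of_ne h', Function.update_self]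
          intro hh
          exact hna ⟨y, (hN y).2 ⟨Finset.mem_erase.2 ⟨h', hy⟩, Or.inl hxy⟩, hh.symm⟩
      · by_cases h' : y = u
        · subst h'
          simp only [Function.update_of_ne h, Function.update_self]
          intro hh
          exact hna ⟨x, (hN x).2 ⟨Finset.mem_erase.2 ⟨h, hx⟩, Or.inr hxy⟩, hh⟩
        · simp only [Function.update_of_ne h, Function.update_of_ne h']
          exact h3 x (Finset.mem_erase.2 ⟨h, hx⟩) y (Finset.mem_erase.2 ⟨h', hy⟩) hxy
  · intro ψ _
    simp
  · rintro ⟨φ, a⟩ hp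
    simp only [Finset.mem_coe, Finset.mem_sigma] at hp
    obtain ⟨h1, h2, h3⟩ := mem_Col.1 hp.1
    have : φ u = e := h2 u (by simp)
    simp only [Function.update_idem, Function.update_self]
    congr 1
    rw [← this]; simp

/-- vertices of `N` that are the first of their colour -/
def Fst (N : Finset V) (φ : V → C) : Finset V := N.filter (fun z => ∀ w ∈ N, w < z → φ w ≠ φ z)

/-- pairs (repeat, first vertex of that colour) -/
def Prs (N : Finset V) (φ : V → C) : Finset (V × V) :=
  (N ×ˢ N).filter (fun p => p.2 < p.1 ∧ φ p.1 = φ p.2 ∧ ∀ w ∈ N, w < p.2 → φ w ≠ φ p.2)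

omit [Fintype C] in
lemma exists_fst (N : Finset V) (φ : V → C) (y : V) (hy : y ∈ N) :
    ∃ z ∈ Fst N φ, z ≤ y ∧ φ z = φ y := by
  have hne : (N.filter (fun z => φ z = φ y)).Nonempty := ⟨y, by simp [hy]⟩
  have hm := Finset.min'_mem _ hne
  refine ⟨Finset.min' _ hne, ?_, Finset.min'_le _ _ (by simp [hy]), (Finset.mem_filter.1 hm).2⟩
  refine Finset.mem_filter.2 ⟨(Finset.mem_filter.1 hm).1, ?_⟩
  intro w hw hlt heq
  have : Finset.min' _ hne ≤ w := Finset.min'_le _ _
    (Finset.mem_filter.2 ⟨hw, heq.trans (Finset.mem_filter.1 hm).2⟩)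
  exact absurd hlt (not_lt.2 this)

omit [Fintype C] in
lemma fst_inj (N : Finset V) (φ : V → C) {a b : V} (ha : a ∈ Fst N φ) (hb : b ∈ Fst N φ)
    (h : φ a = φ b) : a = b := by
  obtain ⟨ha1, ha2⟩ := Finset.mem_filter.1 ha
  obtain ⟨hb1, hb2⟩ := Finset.mem_filter.1 hb
  rcases lt_trichotomy a b with h' | h' | h'
  · exact absurd h (hb2 a ha1 h')
  · exact h'
  · exact absurd h.symm (ha2 b hb1 h')

omit [Fintype C] in
lemma card_fst (N : Finset V) (φ : V → C) : (Fst N φ).card = (N.image φ).card := by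
  have : (Fst N φ).image φ = N.image φ := by
    apply Finset.Subset.antisymm (Finset.image_subset_image (Finset.filter_subset _ _))
    intro c hc
    obtain ⟨y, hy, rfl⟩ := Finset.mem_image.1 hc
    obtain ⟨z, hz, -, h⟩ := exists_fst N φ y hy
    exact Finset.mem_image.2 ⟨z, hz, h⟩
  rw [← this, Finset.card_image_of_injOn]
  intro a ha b hb h
  exact fst_inj N φ ha hb h

omit [Fintype C] in
lemma card_prs (N : Finset V) (φ : V → C) : (Prs N φ).card + (N.image φ).card = N.card := by
  rw [← card_fst]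
  have h1 : (Prs N φ).card = (N \ Fst N φ).card := by
    refine Finset.card_nbij (fun p => p.1) ?_ ?_ ?_
    · rintro ⟨y, z⟩ hp
      simp only [Prs, Finset.coe_filter, Finset.mem_product, Set.mem_ofPred_eq] at hp
      obtain ⟨⟨hy, hz⟩, hlt, heq, -⟩ := hp
      refine Finset.mem_coe.2 (Finset.mem_sdiff.2 ⟨hy, fun h => ?_⟩)
      exact (Finset.mem_filter.1 h).2 z hz hlt heq.symm
    · rintro ⟨y, z⟩ hp ⟨y', z'⟩ hp' h
      simp only [Prs, Finset.coe_filter, Finset.mem_product, Set.mem_ofPred_eq] at hp hp'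
      obtain ⟨⟨hy, hz⟩, hlt, heq, hf⟩ := hp
      obtain ⟨⟨hy', hz'⟩, hlt', heq', hf'⟩ := hp'
      simp only at h
      subst h
      have : z = z' := fst_inj N φ (Finset.mem_filter.2 ⟨hz, hf⟩) (Finset.mem_filter.2 ⟨hz', hf'⟩)
        (heq.symm.trans heq')
      rw [this]
    · intro y hy
      obtain ⟨hy1, hy2⟩ := Finset.mem_sdiff.1 (Finset.mem_coe.1 hy)
      obtain ⟨z, hz, hle, h⟩ := exists_fst N φ y hy1
      refine ⟨(y, z), ?_, rfl⟩
      simp only [Prs, Finset.coe_filter, Finset.mem_product, Set.mem_ofPred_eq]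
      refine ⟨⟨hy1, (Finset.mem_filter.1 hz).1⟩, lt_of_le_of_ne hle ?_, h.symm,
        (Finset.mem_filter.1 hz).2⟩
      rintro rfl
      exact hy2 hz
  rw [h1]
  exact Finset.card_sdiff_add_card_eq_card (Finset.filter_subset _ _)

/-- the relation obtained by contracting `y` onto `z` and forcing `z` to be first -/
def Ctr (R : V → V → Prop) (N : Finset V) (y z : V) : V → V → Prop :=
  fun a b => R a b ∨ (a = z ∧ (R y b ∨ R b y ∨ R y y ∨ (b ∈ N ∧ b < z)))

lemma card_contract (e : C) (R : V → V → Prop) (S : Finset V) (T : Finset C) (N : Finset V)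
    (hN : N ⊆ S) (y z : V) (hy : y ∈ N) (hz : z ∈ N) (hlt : z < y) :
    ((Col e R S T).filter (fun φ => (y, z) ∈ Prs N φ)).card
      = (Col e (Ctr R N y z) (S.erase y) T).card := by
  classical
  have hzy : z ≠ y := ne_of_lt hlt
  refine Finset.card_nbij' (fun φ => Function.update φ y e)
    (fun ψ => Function.update ψ y (ψ z)) ?_ ?_ ?_ ?_
  · intro φ hφ
    obtain ⟨hφ1, hφ2⟩ := Finset.mem_filter.1 (Finset.mem_coe.1 hφ)
    obtain ⟨h1, h2, h3⟩ := mem_Col.1 hφ1
    obtain ⟨-, -, heq, hf⟩ := Finset.mem_filter.1 hφ2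
    simp only at heq hf
    refine Finset.mem_coe.2 (mem_Col.2 ⟨?_, ?_, ?_⟩)
    · intro v hv
      simp only [Function.update_of_ne (Finset.ne_of_mem_erase hv)]
      exact h1 v (Finset.mem_of_mem_erase hv)
    · intro v hv
      by_cases h : v = y
      · subst h; simp
      · simp only [Function.update_of_ne h]
        exact h2 v (fun hs => hv (Finset.mem_erase.2 ⟨h, hs⟩))
    · intro a ha b hb hab
      simp only [Function.update_of_ne (Finset.ne_of_mem_erase ha),
        Function.update_of_ne (Finset.ne_of_mem_erase hb)]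
      have ha' := Finset.mem_of_mem_erase ha
      have hb' := Finset.mem_of_mem_erase hb
      rcases hab with h | ⟨rfl, h | h | h | ⟨h, h'⟩⟩
      · exact h3 a ha' b hb' h
      · rw [← heq]; exact h3 y (hN hy) b hb' h
      · rw [← heq]; exact (h3 b hb' y (hN hy) h).symm
      · exact absurd rfl (h3 y (hN hy) y (hN hy) h)
      · exact (hf b h h').symm
  · intro ψ hψ
    obtain ⟨h1, h2, h3⟩ := mem_Col.1 (Finset.mem_coe.1 hψ)
    have hz' : z ∈ S.erase y := Finset.mem_erase.2 ⟨hzy, hN hz⟩
    refine Finset.mem_coe.2 (Finset.mem_filter.2 ⟨mem_Col.2 ⟨?_, ?_, ?_⟩, ?_⟩)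
    · intro v hv
      by_cases h : v = y
      · subst h; simpa using h1 z hz'
      · simp only [Function.update_of_ne h]
        exact h1 v (Finset.mem_erase.2 ⟨h, hv⟩)
    · intro v hv
      have h : v ≠ y := fun h => hv (h ▸ hN hy)
      simp only [Function.update_of_ne h]
      exact h2 v (fun hs => hv (Finset.mem_of_mem_erase hs))
    · intro a ha b hb hab
      by_cases h : a = y
      · by_cases h' : b = y
        · subst h; subst h'
          exact absurd rfl (h3 z hz' z hz' (Or.inr ⟨rfl, Or.inr (Or.inr (Or.inl hab))⟩))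
        · subst h
          simp only [Function.update_of_ne h', Function.update_self]
          exact h3 z hz' b (Finset.mem_erase.2 ⟨h', hb⟩) (Or.inr ⟨rfl, Or.inl hab⟩)
      · by_cases h' : b = y
        · subst h'
          simp only [Function.update_of_ne h, Function.update_self]
          exact (h3 z hz' a (Finset.mem_erase.2 ⟨h, ha⟩) (Or.inr ⟨rfl, Or.inr (Or.inl hab)⟩)).symm
        · simp only [Function.update_of_ne h, Function.update_of_ne h']
          exact h3 a (Finset.mem_erase.2 ⟨h, ha⟩) b (Finset.mem_erase.2 ⟨h', hb⟩) (Or.inl hab)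
    · refine Finset.mem_filter.2 ⟨Finset.mem_product.2 ⟨hy, hz⟩, hlt, ?_, ?_⟩
      · simp [Function.update_of_ne hzy]
      · intro w hw hwz
        have hwy : w ≠ y := ne_of_lt (lt_trans hwz hlt)
        simp only [Function.update_of_ne hzy, Function.update_of_ne hwy]
        exact (h3 z hz' w (Finset.mem_erase.2 ⟨hwy, hN hw⟩)
          (Or.inr ⟨rfl, Or.inr (Or.inr (Or.inr ⟨hw, hwz⟩))⟩)).symm
  · intro φ hφ
    obtain ⟨hφ1, hφ2⟩ := Finset.mem_filter.1 (Finset.mem_coe.1 hφ)
    obtain ⟨-, -, heq, hf⟩ := Finset.mem_filter.1 hφ2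
    simp only at heq
    simp only [Function.update_idem, Function.update_of_ne hzy]
    rw [← heq]; simp
  · intro ψ hψ
    obtain ⟨h1, h2, h3⟩ := mem_Col.1 (Finset.mem_coe.1 hψ)
    have : ψ y = e := h2 y (by simp)
    simp only [Function.update_idem]
    rw [← this]; simp

/-- the switching inequality -/
lemma switching (e : C) (R : V → V → Prop) (S : Finset V) (N : Finset V) (hN : N ⊆ S)
    (hS : S.card + 1 ≤ Fintype.card C) :
    ∑ φ ∈ Col e R S univ, (Prs N φ).card * ((Prs N φ).card + 1)
      ≤ ∑ φ ∈ Col e R S univ, ((N.image φ).card).choose 2 := by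
  classical
  have h1 : ∑ φ ∈ Col e R S univ, (Prs N φ).card * ((Prs N φ).card + 1)
      ≤ ∑ φ ∈ Col e R S univ, (Prs N φ ×ˢ (univ \ S.image φ)).card := by
    apply Finset.sum_le_sum
    intro φ _
    rw [Finset.card_product]
    apply Nat.mul_le_mul_left
    have h2 := card_prs N φ
    have h3 : (S.image φ).card ≤ (N.image φ).card + (S \ N).card := by
      have : S.image φ ⊆ N.image φ ∪ (S \ N).image φ := by
        rw [← Finset.image_union, Finset.union_sdiff_of_subset hN]
      exact (Finset.card_le_card this).trans ((Finset.card_union_le _ _).trans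
        (Nat.add_le_add_left Finset.card_image_le _))
    have h4 := Finset.card_sdiff_add_card_eq_card hN
    have h5 := Finset.card_sdiff_add_card_eq_card (Finset.subset_univ (S.image φ))
    rw [Finset.card_univ] at h5
    omega
  refine h1.trans ?_
  have h2 : ∑ φ ∈ Col e R S univ, ((N.image φ).card).choose 2
      = ∑ φ ∈ Col e R S univ, ((Fst N φ ×ˢ Fst N φ).filter (fun p => p.1 < p.2)).card := by
    apply Finset.sum_congr rfl
    intro φ _
    rw [Finset.card_product_filter_lt, card_fst]
  rw [h2, ← Finset.card_sigma, ← Finset.card_sigma]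
  refine Finset.card_le_card_of_injOn
    (fun q => ⟨Function.update q.1 q.2.1.1 q.2.2, (q.2.1.2, q.2.1.1)⟩) ?_ ?_
  · rintro ⟨φ, ⟨y, z⟩, a⟩ hq
    simp only [Finset.mem_coe, Finset.mem_sigma, Finset.mem_product, Finset.mem_sdiff,
      Finset.mem_univ, true_and, Finset.mem_image, not_exists, not_and] at hq
    obtain ⟨hφ, hp, ha⟩ := hq
    obtain ⟨h1, h2, h3⟩ := mem_Col.1 hφ
    obtain ⟨hyz, hlt, heq, hf⟩ := Finset.mem_filter.1 hp
    obtain ⟨hy, hz⟩ := Finset.mem_product.1 hyz
    simp only at hy hz hlt heq hf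
    have hzy : z ≠ y := ne_of_lt hlt
    simp only [Finset.mem_coe, Finset.mem_sigma, Finset.mem_filter, Finset.mem_product]
    refine ⟨mem_Col.2 ⟨fun _ _ => Finset.mem_univ _, ?_, ?_⟩, ⟨?_, ?_⟩, hlt⟩
    · intro v hv
      have h : v ≠ y := fun h => hv (h ▸ hN hy)
      simp only [Function.update_of_ne h]
      exact h2 v hv
    · intro u hu v hv huv
      by_cases h : u = y
      · by_cases h' : v = y
        · subst h; subst h'; exact absurd rfl (h3 _ hu _ hu huv)
        · subst h
          simp only [Function.update_of_ne h', Function.update_self]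
          exact fun hh => ha v hv hh.symm
      · by_cases h' : v = y
        · subst h'
          simp only [Function.update_of_ne h, Function.update_self]
          exact ha u hu
        · simp only [Function.update_of_ne h, Function.update_of_ne h']
          exact h3 u hu v hv huv
    · refine Finset.mem_filter.2 ⟨hz, fun w hw hwz => ?_⟩
      have hwy : w ≠ y := ne_of_lt (lt_trans hwz hlt)
      simp only [Function.update_of_ne hzy, Function.update_of_ne hwy]
      exact hf w hw hwz
    · refine Finset.mem_filter.2 ⟨hy, fun w hw hwy => ?_⟩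
      simp only [Function.update_of_ne (ne_of_lt hwy), Function.update_self]
      exact ha w (hN hw)
  · rintro ⟨φ, ⟨y, z⟩, a⟩ hq ⟨φ', ⟨y', z'⟩, a'⟩ hq' h
    simp only [Finset.mem_coe, Finset.mem_sigma, Finset.mem_product] at hq hq'
    obtain ⟨-, hlt, heq, -⟩ := Finset.mem_filter.1 hq.2.1
    obtain ⟨-, hlt', heq', -⟩ := Finset.mem_filter.1 hq'.2.1
    simp only at hlt heq hlt' heq'
    simp only [Sigma.mk.injEq, heq_eq_eq, Prod.mk.injEq] at h
    obtain ⟨h1, rfl, rfl⟩ := h
    have hzy : z ≠ y := ne_of_lt hlt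
    have ha : a = a' := by simpa using congrFun h1 y
    have hz : φ z = φ' z := by simpa [Function.update_of_ne hzy] using congrFun h1 z
    have hφ : φ = φ' := by
      funext v
      by_cases hv : v = y
      · subst hv; rw [heq, heq', hz]
      · simpa [Function.update_of_ne hv] using congrFun h1 v
    subst hφ; subst ha; rfl

/-- the resulting bound on the mean number of repeats -/
lemma repeats_bound (e : C) (R : V → V → Prop) (S : Finset V) (N : Finset V) (hN : N ⊆ S)
    (hS : S.card + 1 ≤ Fintype.card C) :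
    (∑ φ ∈ Col e R S univ, ((Prs N φ).card : ℝ)) * (2 * (Fintype.card C : ℝ) - 1)
      ≤ ((Fintype.card C : ℝ) - 1) * N.card * (Col e R S univ).card := by
  have h1 : ((∑ φ ∈ Col e R S univ, (Prs N φ).card * ((Prs N φ).card + 1) : ℕ) : ℝ)
      ≤ ((∑ φ ∈ Col e R S univ, ((N.image φ).card).choose 2 : ℕ) : ℝ) :=
    Nat.cast_le.2 (switching e R S N hN hS)
  push_cast at h1
  have h2 : ∑ φ ∈ Col e R S univ, ((2 * (N.card : ℝ) + 1) * ((Prs N φ).card : ℝ)
      - (N.card : ℝ) * (N.card - 1)) ≤ 2 * (∑ φ ∈ Col e R S univ,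
        ((Prs N φ).card : ℝ) * ((Prs N φ).card + 1)
        - ∑ φ ∈ Col e R S univ, ((((N.image φ).card).choose 2 : ℕ) : ℝ)) := by
    rw [← Finset.sum_sub_distrib, Finset.mul_sum]
    apply Finset.sum_le_sum
    intro φ _
    have h3 : ((Prs N φ).card : ℝ) + (N.image φ).card = N.card := by
      exact_mod_cast card_prs N φ
    rw [Nat.cast_choose_two, ← h3]
    nlinarith [sq_nonneg ((Prs N φ).card : ℝ)]
  rw [Finset.sum_sub_distrib, ← Finset.mul_sum, Finset.sum_const, nsmul_eq_mul] at h2
  have hd : (N.card : ℝ) + 1 ≤ Fintype.card C := by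
    have := Finset.card_le_card hN
    exact_mod_cast (by omega : N.card + 1 ≤ Fintype.card C)
  have hB : 0 ≤ ∑ φ ∈ Col e R S univ, ((Prs N φ).card : ℝ) :=
    Finset.sum_nonneg (fun _ _ => Nat.cast_nonneg _)
  have hA : (0 : ℝ) ≤ (Col e R S univ).card := Nat.cast_nonneg _
  have hd0 : (0 : ℝ) ≤ N.card := Nat.cast_nonneg _
  generalize (∑ φ ∈ Col e R S univ, ((Prs N φ).card : ℝ)) = B at *
  generalize ((Col e R S univ).card : ℝ) = A at *
  generalize (N.card : ℝ) = d at *
  generalize (Fintype.card C : ℝ) = l at *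
  have h4 : (2 * d + 1) * B ≤ A * (d * (d - 1)) := by linarith
  have h5 : (2 * d + 1) * (B * (2 * l - 1)) ≤ (2 * d + 1) * ((l - 1) * d * A) := by
    have h6 : (2 * d + 1) * B * (2 * l - 1) ≤ A * (d * (d - 1)) * (2 * l - 1) :=
      mul_le_mul_of_nonneg_right h4 (by linarith)
    have h7 : 0 ≤ A * d * (3 * l - d - 2) := mul_nonneg (mul_nonneg hA hd0) (by linarith)
    nlinarith
  exact le_of_mul_le_mul_left h5 (by linarith)

/-- the deletion-contraction recursion -/
lemma recursion (e : C) (R : V → V → Prop) (S : Finset V) (T : Finset C) (u : V) (hu : u ∈ S)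
    (hl : ¬ R u u) (N : Finset V) (hN : ∀ v, v ∈ N ↔ v ∈ S.erase u ∧ (R u v ∨ R v u)) :
    ((Col e R S T).card : ℝ) = ((T.card : ℝ) - N.card) * (Col e R (S.erase u) T).card
      + ∑ φ ∈ Col e R (S.erase u) T, ((Prs N φ).card : ℝ) := by
  rw [card_delete e R S T u hu hl N hN]
  push_cast
  rw [mul_comm, ← nsmul_eq_mul, ← Finset.sum_const, ← Finset.sum_add_distrib]
  apply Finset.sum_congr rfl
  intro φ hφ
  have h1 : N.image φ ⊆ T := by
    intro c hc
    obtain ⟨v, hv, rfl⟩ := Finset.mem_image.1 hc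
    exact (mem_Col.1 hφ).1 v ((hN v).1 hv).1
  have h2 : (((T \ N.image φ).card : ℕ) : ℝ) + (N.image φ).card = T.card := by
    exact_mod_cast Finset.card_sdiff_add_card_eq_card h1
  have h3 : ((Prs N φ).card : ℝ) + (N.image φ).card = N.card := by
    exact_mod_cast card_prs N φ
  linarith

lemma sum_prs (e : C) (R : V → V → Prop) (S : Finset V) (T : Finset C) (N : Finset V)
    (hN : N ⊆ S) :
    ∑ φ ∈ Col e R S T, ((Prs N φ).card : ℝ) = ∑ p ∈ (N ×ˢ N).filter (fun p => p.2 < p.1),
      ((Col e (Ctr R N p.1 p.2) (S.erase p.1) T).card : ℝ) := by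
  classical
  have h1 : ∀ φ : V → C, (Prs N φ).card = ∑ p ∈ (N ×ˢ N).filter (fun p => p.2 < p.1),
      if p ∈ Prs N φ then 1 else 0 := by
    intro φ
    rw [← Finset.card_filter]
    congr 1
    ext p
    simp only [Prs, Finset.mem_filter]
    tauto
  have h2 : ∑ φ ∈ Col e R S T, (Prs N φ).card = ∑ p ∈ (N ×ˢ N).filter (fun p => p.2 < p.1),
      (Col e (Ctr R N p.1 p.2) (S.erase p.1) T).card := by
    simp only [h1]
    rw [Finset.sum_comm]
    apply Finset.sum_congr rfl
    rintro ⟨y, z⟩ hp
    obtain ⟨hp1, hp2⟩ := Finset.mem_filter.1 hp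
    obtain ⟨hy, hz⟩ := Finset.mem_product.1 hp1
    rw [← Finset.card_filter]
    exact card_contract e R S T N hN y z hy hz hp2
  exact_mod_cast h2

theorem main (e c0 : C) (hC : 2 ≤ Fintype.card C) (n : ℕ) : ∀ (R : V → V → Prop) (S K : Finset V),
    S.card = n → n ≤ Fintype.card C → K ⊆ S → (∀ a ∈ K, ∀ b ∈ K, a ≠ b → R a b ∨ R b a) →
    ((Col e R S (univ.erase c0)).card : ℝ) * (1 - 1 / (Fintype.card C : ℝ)) ^ K.card
      ≤ (1 - (K.card : ℝ) / Fintype.card C) * (1 - 1 / (Fintype.card C : ℝ)) ^ n
        * (Col e R S univ).card := by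
  classical
  have hl2 : (2 : ℝ) ≤ Fintype.card C := by exact_mod_cast hC
  have hT0 : (((univ : Finset C).erase c0).card : ℝ) = Fintype.card C - 1 := by
    rw [Finset.card_erase_of_mem (Finset.mem_univ _), Finset.card_univ, Nat.cast_sub (by omega)]
    simp
  have hT1 : ((univ : Finset C).card : ℝ) = Fintype.card C := by rw [Finset.card_univ]
  have hx : 0 < 1 - 1 / (Fintype.card C : ℝ) := by
    rw [sub_pos, div_lt_one (by linarith)]; linarith
  induction n using Nat.strong_induction_on with
  | _ n ih =>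
  intro R S K hS hn hK hcl
  rcases Nat.eq_zero_or_pos n with rfl | hpos
  · have hS0 : S = ∅ := Finset.card_eq_zero.1 hS
    subst hS0
    have hK0 : K = ∅ := Finset.subset_empty.1 hK
    subst hK0
    have : Col e R ∅ (univ.erase c0) = Col e R ∅ univ := by
      ext φ; simp [mem_Col]
    simp [this]
  obtain ⟨m, rfl⟩ : ∃ m, n = m + 1 := ⟨n - 1, by omega⟩
  by_cases hSK : K = S
  · subst hSK
    obtain ⟨u, hu⟩ : K.Nonempty := Finset.card_pos.1 (by omega)
    by_cases hl : R u u
    · simp [Col_loop hu hl]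
    have hN : ∀ v, v ∈ K.erase u ↔ v ∈ K.erase u ∧ (R u v ∨ R v u) := by
      intro v
      refine ⟨fun h => ⟨h, hcl u hu v (Finset.mem_of_mem_erase h)
        (Finset.ne_of_mem_erase h).symm⟩, fun h => h.1⟩
    have hc : (K.erase u).card = m := by rw [Finset.card_erase_of_mem hu]; omega
    have hz : ∀ T : Finset C, ∑ φ ∈ Col e R (K.erase u) T, ((Prs (K.erase u) φ).card : ℝ) = 0 := by
      intro T
      apply Finset.sum_eq_zero
      intro φ hφ
      have : Prs (K.erase u) φ = ∅ := by
        rw [Finset.eq_empty_iff_forall_notMem]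
        rintro ⟨y, z⟩ hp
        obtain ⟨hyz, hlt, heq, -⟩ := Finset.mem_filter.1 hp
        obtain ⟨hy, hz⟩ := Finset.mem_product.1 hyz
        rcases hcl y (Finset.mem_of_mem_erase hy) z (Finset.mem_of_mem_erase hz)
          (ne_of_gt hlt) with h | h
        · exact (mem_Col.1 hφ).2.2 y hy z hz h heq
        · exact (mem_Col.1 hφ).2.2 z hz y hy h heq.symm
      simp [this]
    have IH := ih m (by omega) R (K.erase u) (K.erase u) hc (by omega) (Finset.Subset.refl _)
      (fun a ha b hb => hcl a (Finset.mem_of_mem_erase ha) b (Finset.mem_of_mem_erase hb))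
    rw [recursion e R K _ u hu hl _ hN, recursion e R K _ u hu hl _ hN, hz, hz, hT0, hT1, hS, hc]
    rw [hc] at IH
    have hm : (m : ℝ) + 1 ≤ Fintype.card C := by exact_mod_cast hn
    push_cast
    generalize ((Col e R (K.erase u) (univ.erase c0)).card : ℝ) = P0 at *
    generalize ((Col e R (K.erase u) univ).card : ℝ) = P1 at *
    generalize (Fintype.card C : ℝ) = l at *
    have hl0 : l ≠ 0 := by linarith
    have h1 := mul_le_mul_of_nonneg_left IH (mul_nonneg (by linarith : 0 ≤ l - 1 - m) hx.le)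
    refine le_trans (le_of_eq ?_) (le_trans h1 (le_of_eq ?_))
    · ring
    · rw [pow_succ]
      generalize (1 - 1 / l) ^ m = xm
      field_simp
      ring
  · obtain ⟨u, hu, huK⟩ : ∃ u ∈ S, u ∉ K := by
      by_contra hcon
      push Not at hcon
      exact hSK (Finset.Subset.antisymm hK hcon)
    by_cases hl : R u u
    · simp [Col_loop hu hl]
    obtain ⟨N, hN⟩ : ∃ N : Finset V, ∀ v, v ∈ N ↔ v ∈ S.erase u ∧ (R u v ∨ R v u) :=
      ⟨(S.erase u).filter (fun v => R u v ∨ R v u), fun v => Finset.mem_filter⟩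
    have hNS : N ⊆ S.erase u := fun v hv => ((hN v).1 hv).1
    have hc : (S.erase u).card = m := by rw [Finset.card_erase_of_mem hu]; omega
    have hK' : K ⊆ S.erase u := fun v hv =>
      Finset.mem_erase.2 ⟨fun h => huK (h ▸ hv), hK hv⟩
    have IH := ih m (by omega) R (S.erase u) K hc (by omega) hK' hcl
    have hrep := repeats_bound e R (S.erase u) N hNS (by omega)
    have hkm : (K.card : ℝ) ≤ m := by
      have := Finset.card_le_card hK'
      exact_mod_cast (by omega : K.card ≤ m)
    have hdm : (N.card : ℝ) ≤ m := by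
      have := Finset.card_le_card hNS
      exact_mod_cast (by omega : N.card ≤ m)
    have hm : (m : ℝ) + 1 ≤ Fintype.card C := by exact_mod_cast hn
    have IH2 : (1 - 1 / (Fintype.card C : ℝ)) *
        (∑ φ ∈ Col e R (S.erase u) (univ.erase c0), ((Prs N φ).card : ℝ))
          * (1 - 1 / (Fintype.card C : ℝ)) ^ K.card
        ≤ (1 - (K.card : ℝ) / Fintype.card C) * (1 - 1 / (Fintype.card C : ℝ)) ^ m
          * ∑ φ ∈ Col e R (S.erase u) univ, ((Prs N φ).card : ℝ) := by
      rw [sum_prs e R _ _ N hNS, sum_prs e R _ _ N hNS, Finset.mul_sum, Finset.mul_sum,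
        Finset.sum_mul]
      apply Finset.sum_le_sum
      rintro ⟨y, z⟩ hp
      obtain ⟨hp1, hlt⟩ := Finset.mem_filter.1 hp
      obtain ⟨hy, hz⟩ := Finset.mem_product.1 hp1
      simp only at hlt hy hz ⊢
      have hzy : z ≠ y := ne_of_lt hlt
      have hz' : z ∈ (S.erase u).erase y := Finset.mem_erase.2 ⟨hzy, hNS hz⟩
      obtain ⟨i, rfl⟩ : ∃ i, m = i + 1 := ⟨m - 1, by
        have := Finset.card_pos.2 ⟨y, hNS hy⟩
        omega⟩
      have hc2 : ((S.erase u).erase y).card = i := by
        rw [Finset.card_erase_of_mem (hNS hy)]; omega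
      have key : ∀ K' : Finset V, K'.card = K.card → K' ⊆ (S.erase u).erase y →
          (∀ a ∈ K', ∀ b ∈ K', a ≠ b → Ctr R N y z a b ∨ Ctr R N y z b a) →
          (1 - 1 / (Fintype.card C : ℝ)) *
            ((Col e (Ctr R N y z) ((S.erase u).erase y) (univ.erase c0)).card : ℝ)
            * (1 - 1 / (Fintype.card C : ℝ)) ^ K.card
          ≤ (1 - (K.card : ℝ) / Fintype.card C) * (1 - 1 / (Fintype.card C : ℝ)) ^ (i + 1)
            * ((Col e (Ctr R N y z) ((S.erase u).erase y) univ).card : ℝ) := by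
        intro K' h1 h2 h3
        have h4 := ih i (by omega) (Ctr R N y z) _ K' hc2 (by omega) h2 h3
        rw [h1] at h4
        have h5 := mul_le_mul_of_nonneg_left h4 hx.le
        refine le_trans (le_of_eq ?_) (le_trans h5 (le_of_eq ?_)) <;> ring
      by_cases hyK : y ∈ K
      · by_cases hzK : z ∈ K
        · have hloop : Ctr R N y z z z := by
            rcases hcl y hyK z hzK hzy.symm with h | h
            · exact Or.inr ⟨rfl, Or.inl h⟩
            · exact Or.inr ⟨rfl, Or.inr (Or.inl h)⟩
          simp [Col_loop hz' hloop]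
        · apply key (insert z (K.erase y))
          · rw [Finset.card_insert_of_notMem (fun h => hzK (Finset.mem_of_mem_erase h)),
              Finset.card_erase_of_mem hyK]
            have := Finset.card_pos.2 ⟨y, hyK⟩
            omega
          · intro v hv
            rcases Finset.mem_insert.1 hv with rfl | hv
            · exact hz'
            · exact Finset.mem_erase.2 ⟨Finset.ne_of_mem_erase hv, hK' (Finset.mem_of_mem_erase hv)⟩
          · have hzb : ∀ b ∈ K.erase y, Ctr R N y z z b := by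
              intro b hb
              rcases hcl y hyK b (Finset.mem_of_mem_erase hb) (Finset.ne_of_mem_erase hb).symm
                with h | h
              · exact Or.inr ⟨rfl, Or.inl h⟩
              · exact Or.inr ⟨rfl, Or.inr (Or.inl h)⟩
            intro a ha b hb hab
            rcases Finset.mem_insert.1 ha with rfl | ha'
            · rcases Finset.mem_insert.1 hb with rfl | hb'
              · exact absurd rfl hab
              · exact Or.inl (hzb b hb')
            · rcases Finset.mem_insert.1 hb with rfl | hb'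
              · exact Or.inr (hzb a ha')
              · rcases hcl a (Finset.mem_of_mem_erase ha') b (Finset.mem_of_mem_erase hb') hab
                  with h | h
                · exact Or.inl (Or.inl h)
                · exact Or.inr (Or.inl h)
      · apply key K rfl
        · intro v hv
          exact Finset.mem_erase.2 ⟨fun h => hyK (h ▸ hv), hK' hv⟩
        · intro a ha b hb hab
          rcases hcl a ha b hb hab with h | h
          · exact Or.inl (Or.inl h)
          · exact Or.inr (Or.inl h)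
    rw [recursion e R S _ u hu hl _ hN, recursion e R S _ u hu hl _ hN, hT0, hT1]
    have hA : (0 : ℝ) ≤ (Col e R (S.erase u) univ).card := Nat.cast_nonneg _
    generalize (∑ φ ∈ Col e R (S.erase u) (univ.erase c0), ((Prs N φ).card : ℝ)) = B0 at *
    generalize (∑ φ ∈ Col e R (S.erase u) univ, ((Prs N φ).card : ℝ)) = B at *
    generalize ((Col e R (S.erase u) (univ.erase c0)).card : ℝ) = A0 at *
    generalize ((Col e R (S.erase u) univ).card : ℝ) = A at *
    generalize (N.card : ℝ) = d at *
    generalize (Fintype.card C : ℝ) = l at *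
    have hl0 : 0 < l := by linarith
    have hc0 : 0 ≤ (1 - (K.card : ℝ) / l) * (1 - 1 / l) ^ m := by
      apply mul_nonneg _ (pow_nonneg hx.le _)
      rw [sub_nonneg, div_le_one hl0]; linarith
    have h1 := mul_le_mul_of_nonneg_left IH (mul_nonneg (by linarith : 0 ≤ l - 1 - d) hx.le)
    have h2 : (l - 1 - d) * (1 - 1 / l) * A + B
        ≤ (1 - 1 / l) * (1 - 1 / l) * ((l - d) * A + B) := by
      have h3 : (1 - 1 / l) * (1 - 1 / l) * ((l - d) * A + B) - ((l - 1 - d) * (1 - 1 / l) * A + B)
          = ((l - 1) * d * A - B * (2 * l - 1)) / l ^ 2 := by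
        field_simp
        ring
      have h4 : 0 ≤ ((l - 1) * d * A - B * (2 * l - 1)) / l ^ 2 :=
        div_nonneg (by linarith) (by positivity)
      linarith
    have h5 := mul_le_mul_of_nonneg_left h2 hc0
    apply le_of_mul_le_mul_left _ hx
    rw [pow_succ]
    generalize (1 - (K.card : ℝ) / l) = c at *
    generalize (1 - 1 / l) ^ m = xm at *
    generalize (1 - 1 / l) ^ K.card = xk at *
    generalize (1 - 1 / l) = x at *
    nlinarith

end Pool.Agent.H23.ChromRatio
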