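import Mathlib

set_option autoImplicit false
set_option maxSynthPendingDepth 3
set_option linter.unusedSectionVars false

open Cardinal

namespace Pool.Agent.H23.Cliff

lemma closed_small {I J : Type} (c : Cardinal) (hc : ℵ₀ ≤ c) (hI : #I ≤ c)
    (F : I → Finset J → Finset J) :
    ∃ M : Set J, #M ≤ c ∧ ∀ i (u : Finset J), (↑u : Set J) ⊆ M → (↑(F i u) : Set J) ⊆ M := by
  classical
  let step : Set J → Set J := fun M =>
    M ∪ ⋃ p : I × List M, (↑(F p.1 (p.2.map Subtype.val).toFinset) : Set J)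
  have hcc : c * c = c := mul_eq_self hc
  have hstep : ∀ M : Set J, #M ≤ c → #(step M) ≤ c := by
    intro M hM
    refine (mk_union_le _ _).trans (add_le_of_le hc hM ?_)
    refine mk_iUnion_le_sum_mk.trans ((sum_le_sum _ (fun _ => c) fun p => ?_).trans ?_)
    · exact (Finset.finite_toSet _).lt_aleph0.le.trans hc
    · rw [sum_const', mk_prod, lift_id, lift_id]
      have h1 : #(List M) ≤ c := (mk_list_le_max _).trans (max_le hc hM)
      calc #I * #(List M) * c ≤ c * c * c := by gcongr
        _ = c := by rw [hcc, hcc]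
  let Mn : ℕ → Set J := fun n => step^[n] ∅
  have hs : ∀ n, Mn (n + 1) = step (Mn n) := fun n => Function.iterate_succ_apply' _ _ _
  have hn : ∀ n, #(Mn n) ≤ c := by
    intro n
    induction n with
    | zero => simp [Mn]
    | succ n ih => rw [hs]; exact hstep _ ih
  have hmono : Monotone Mn := monotone_nat_of_le_succ fun n => by
    rw [hs]; exact Set.subset_union_left
  refine ⟨⋃ n, Mn n, ?_, ?_⟩
  · refine mk_iUnion_le_sum_mk.trans ((sum_le_sum _ (fun _ => c) hn).trans ?_)
    rw [sum_const', mk_nat]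
    calc ℵ₀ * c ≤ c * c := by gcongr
      _ = c := hcc
  · intro i u hu
    obtain ⟨n, hn⟩ : ∃ n, (↑u : Set J) ⊆ Mn n := by
      induction u using Finset.induction_on with
      | empty => exact ⟨0, by simp⟩
      | insert a u _ ih =>
        rw [Finset.coe_insert, Set.insert_subset_iff] at hu
        obtain ⟨n, hn⟩ := ih hu.2
        obtain ⟨m, hm⟩ := Set.mem_iUnion.1 hu.1
        refine ⟨max n m, ?_⟩
        rw [Finset.coe_insert, Set.insert_subset_iff]
        exact ⟨hmono (le_max_right _ _) hm, hn.trans (hmono (le_max_left _ _))⟩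
    refine Set.Subset.trans ?_ (Set.subset_iUnion Mn (n + 1))
    rw [hs]
    refine Set.Subset.trans ?_ Set.subset_union_right
    refine Set.Subset.trans ?_ (Set.subset_iUnion _
      (i, u.toList.pmap (fun a ha => (⟨a, ha⟩ : Mn n)) (fun a ha => hn (by simpa using ha))))
    simp [List.map_pmap]

variable {J : Type} [LinearOrder J]

abbrev VV (J : Type) := J →₀ ZMod 2

noncomputable def be : VV J →ₗ[ZMod 2] VV J →ₗ[ZMod 2] ZMod 2 :=
  Finsupp.linearCombination (ZMod 2) fun a =>
    Finsupp.linearCombination (ZMod 2) fun b => if a < b then 1 else 0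

noncomputable def BB (x y : VV J) : ZMod 2 := be x y + be y x

noncomputable def lam (J : Type) : VV J →ₗ[ZMod 2] ZMod 2 :=
  Finsupp.linearCombination (ZMod 2) fun _ => 1

lemma BB_self (x : VV J) : BB x x = 0 := CharTwo.add_self_eq_zero _
lemma BB_add_left (x y z : VV J) : BB (x + y) z = BB x z + BB y z := by
  simp only [BB, map_add, LinearMap.add_apply]; ring
lemma BB_add_right (x y z : VV J) : BB x (y + z) = BB x y + BB x z := by
  simp only [BB, map_add, LinearMap.add_apply]; ring

lemma be_eq (x y : VV J) :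
    be x y = ∑ a ∈ x.support, ∑ b ∈ y.support, x a * y b * if a < b then 1 else 0 := by
  simp only [be, Finsupp.linearCombination_apply, Finsupp.sum, LinearMap.coe_sum,
    Finset.sum_apply, LinearMap.smul_apply, smul_eq_mul, Finset.mul_sum, mul_assoc]

lemma BB_disj (x y : VV J) (h : Disjoint x.support y.support) : BB x y = lam J x * lam J y := by
  rw [BB, be_eq, be_eq, Finset.sum_comm (s := y.support), ← Finset.sum_add_distrib]
  simp only [lam, Finsupp.linearCombination_apply, Finsupp.sum, smul_eq_mul, mul_one,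
    Finset.sum_mul_sum]
  refine Finset.sum_congr rfl fun a ha => ?_
  rw [← Finset.sum_add_distrib]
  refine Finset.sum_congr rfl fun b hb => ?_
  have hab : a ≠ b := fun e => Finset.disjoint_left.1 h ha (e ▸ hb)
  rcases lt_or_gt_of_ne hab with h1 | h1
  · simp [h1, h1.le]
  · simp [h1, h1.le, mul_comm]

lemma supp_inj {x y : VV J} (h : x.support = y.support) : x = y := by
  ext a
  have h1 : x a ≠ 0 ↔ y a ≠ 0 := by
    rw [← Finsupp.mem_support_iff, ← Finsupp.mem_support_iff, h]
  revert h1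
  generalize x a = s
  generalize y a = t
  revert s t
  decide

lemma span_ne_top {I : Type} (c : Cardinal) (hc : ℵ₀ ≤ c) (hI : #I ≤ c) (hJ : c < #J)
    (T : I → Set (VV J)) (hT : ∀ i, ∀ x ∈ T i, ∀ y ∈ T i, BB x y = 0) :
    Submodule.span (ZMod 2) (⋃ i, T i) ≠ ⊤ := by
  classical
  intro htop
  let P : I → Finset J → VV J × VV J → Prop := fun i u p =>
    p.1.support = u ∧ Disjoint u p.2.support ∧ lam J p.2 = 1 ∧ p.1 + p.2 ∈ T i
  obtain ⟨M, hM, hcl⟩ := closed_small c hc hI
    (fun i u => if h : ∃ p, P i u p then h.choose.2.support else ∅)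
  obtain ⟨δ, hδ⟩ : ∃ δ, δ ∉ M := by
    by_contra hn
    have : M = Set.univ := Set.eq_univ_of_forall fun x => by
      by_contra hx; exact hn ⟨x, hx⟩
    rw [this, mk_univ] at hM
    exact absurd hJ (not_lt.2 hM)
  let L : VV J →ₗ[ZMod 2] ZMod 2 :=
    lam J ∘ₗ (Finsupp.filterAddHom (fun a => a ∉ M)).toZModLinearMap 2
  have hL : ∀ x, L x = lam J (x.filter (fun a => a ∉ M)) := fun _ => rfl
  obtain ⟨i, b, hb, hb1⟩ : ∃ i, ∃ b ∈ T i, L b ≠ 0 := by
    by_contra hn
    have h1 : Submodule.span (ZMod 2) (⋃ i, T i) ≤ LinearMap.ker L := by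
      rw [Submodule.span_le]
      intro x hx
      obtain ⟨i, hi⟩ := Set.mem_iUnion.1 hx
      by_contra h0
      exact hn ⟨i, x, hi, h0⟩
    rw [htop] at h1
    have := h1 (Submodule.mem_top (x := Finsupp.single δ 1))
    rw [LinearMap.mem_ker, hL, Finsupp.filter_single_of_pos (fun a => a ∉ M) hδ] at this
    simp [lam] at this
  let u := b.filter (fun a => a ∈ M)
  let t := b.filter (fun a => a ∉ M)
  have hut : u + t = b := Finsupp.filter_add_filter_not b _
  have ht1 : lam J t = 1 := by
    rw [hL] at hb1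
    revert hb1
    change lam J t ≠ 0 → _
    generalize lam J t = s
    revert s; decide
  have huM : ∀ a ∈ u.support, a ∈ M := fun a ha => by
    rw [Finsupp.support_filter, Finset.mem_filter] at ha; exact ha.2
  have htM : ∀ a ∈ t.support, a ∉ M := fun a ha => by
    rw [Finsupp.support_filter, Finset.mem_filter] at ha; exact ha.2
  have d1 : Disjoint u.support t.support :=
    Finset.disjoint_left.2 fun a h1 h2 => htM a h2 (huM a h1)
  have hex : ∃ p, P i u.support p := ⟨(u, t), rfl, d1, ht1, hut ▸ hb⟩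
  have h2 := hcl i u.support huM
  simp only [dif_pos hex] at h2
  obtain ⟨e1, e2, e3, e4⟩ := hex.choose_spec
  rw [supp_inj e1] at e4
  have d2 : Disjoint t.support hex.choose.2.support :=
    Finset.disjoint_left.2 fun a h1 h3 => htM a h1 (h2 h3)
  have := hT i _ hb _ e4
  rw [← hut, BB_add_left, BB_add_right, BB_add_right, BB_self, BB_disj _ _ e2, BB_disj _ _ d1.symm,
    BB_disj _ _ d2, ht1, e3] at this
  revert this
  generalize lam J u = s
  revert s; decide

lemma three {I : Type} (c : Cardinal) (hc : ℵ₀ ≤ c) (hI : #I ≤ c) (hJ : c < #J)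
    (T : I → Set (VV J)) (hT : ∀ i, ∀ x ∈ T i, ∀ y ∈ T i, BB x y = 0) :
    ∃ U : Submodule (ZMod 2) (VV J), (∀ i, T i ⊆ U) ∧ ∃ g g', g ∉ U ∧ g' ∉ U ∧ g + g' ∉ U := by
  have h1 := span_ne_top c hc hI hJ T hT
  obtain ⟨g, hg⟩ : ∃ g, g ∉ Submodule.span (ZMod 2) (⋃ i, T i) := by
    by_contra hn
    exact h1 (eq_top_iff.2 fun x _ => by by_contra hx; exact hn ⟨x, hx⟩)
  have h2 := span_ne_top (I := Option I) c hc
    (by rw [mk_option]; exact add_le_of_le hc hI (one_le_aleph0.trans hc)) hJ
    (fun o => o.elim {g} T) (by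
      rintro (_ | i) x hx y hy
      · rw [Set.mem_singleton_iff.1 hx, Set.mem_singleton_iff.1 hy, BB_self]
      · exact hT i x hx y hy)
  obtain ⟨g', hg'⟩ : ∃ g', g' ∉ Submodule.span (ZMod 2) (⋃ o : Option I, o.elim {g} T) := by
    by_contra hn
    exact h2 (eq_top_iff.2 fun x _ => by by_contra hx; exact hn ⟨x, hx⟩)
  have hle : Submodule.span (ZMod 2) (⋃ i, T i) ≤
      Submodule.span (ZMod 2) (⋃ o : Option I, o.elim {g} T) :=
    Submodule.span_mono (Set.iUnion_subset fun i =>
      Set.subset_iUnion (fun o : Option I => o.elim {g} T) (some i))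
  refine ⟨_, fun i => (Set.subset_iUnion T i).trans Submodule.subset_span, g, g', hg,
    fun h => hg' (hle h), fun h => hg' ?_⟩
  have h3 : g ∈ Submodule.span (ZMod 2) (⋃ o : Option I, o.elim {g} T) :=
    Submodule.subset_span (Set.mem_iUnion.2 ⟨none, rfl⟩)
  have := Submodule.sub_mem _ (hle h) h3
  simpa using this

/-- the extraspecial group -/
@[ext] structure GG (J : Type) where
  v : VV J
  c : ZMod 2

noncomputable instance : Mul (GG J) := ⟨fun x y => ⟨x.v + y.v, x.c + y.c + be x.v y.v⟩⟩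
noncomputable instance : One (GG J) := ⟨⟨0, 0⟩⟩
noncomputable instance : Inv (GG J) := ⟨fun x => ⟨-x.v, -x.c + be x.v x.v⟩⟩

@[simp] lemma mul_v (x y : GG J) : (x * y).v = x.v + y.v := rfl
@[simp] lemma mul_c (x y : GG J) : (x * y).c = x.c + y.c + be x.v y.v := rfl
@[simp] lemma one_v : (1 : GG J).v = 0 := rfl
@[simp] lemma one_c : (1 : GG J).c = 0 := rfl
@[simp] lemma inv_v (x : GG J) : (x⁻¹).v = -x.v := rfl
@[simp] lemma inv_c (x : GG J) : (x⁻¹).c = -x.c + be x.v x.v := rfl

noncomputable instance : Group (GG J) := Group.ofLeftAxioms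
  (fun x y z => by
    ext1
    · simp [add_assoc]
    · simp; ring)
  (fun x => by ext1 <;> simp)
  (fun x => by
    ext1
    · simp
    · simp only [mul_c, inv_c, inv_v, map_neg, LinearMap.neg_apply, one_c]; ring)

noncomputable def zz : GG J := ⟨0, 1⟩

lemma zz_comm (g : GG J) : zz * g = g * zz := by ext1 <;> simp [zz]; ring
lemma zz_sq : (zz : GG J) * zz = 1 := by ext1 <;> simp [zz]; decide
lemma zz_ne : (zz : GG J) ≠ 1 := fun h => by simpa [zz] using congrArg GG.c h

lemma comm_cases (x y : GG J) : (BB x.v y.v = 0 ∧ x * y = y * x) ∨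
    (BB x.v y.v = 1 ∧ x * y = y * x * zz) := by
  have : ∀ s : ZMod 2, s = 0 ∨ s = 1 := by decide
  have h2 : ∀ s t : ZMod 2, (s + t = 0 → s = t) ∧ (s + t = 1 → s = t + 1) := by decide
  rcases this (BB x.v y.v) with h | h
  · refine Or.inl ⟨h, ?_⟩
    ext1
    · simp [add_comm]
    · simp only [mul_c]; rw [(h2 _ _).1 h]; ring
  · refine Or.inr ⟨h, ?_⟩
    ext1
    · simp [add_comm, zz]
    · simp only [mul_c, zz, map_zero]; rw [(h2 _ _).2 h]; ring

end Pool.Agent.H23.Cliff
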