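import Mathlib

set_option autoImplicit false
set_option maxSynthPendingDepth 3

namespace Pool.Agent.H23.Vdc
open Complex intervalIntegral

/-- van der Corput second derivative test -/
lemma vdc (E : ℝ → ℂ) (p q : ℝ → ℝ) (a b δ : ℝ) (hab : a ≤ b) (hδ : 0 < δ)
    (hE : ∀ s, HasDerivAt E (I * p s * E s) s) (hp : ∀ s, HasDerivAt p (q s) s)
    (hq : Continuous q) (h1 : ∀ s, ‖E s‖ = 1) (h2 : ∀ s ∈ Set.Icc a b, δ ^ 2 ≤ q s) :
    ‖∫ s in a..b, E s‖ ≤ 8 / δ := by
  have cE : Continuous E := continuous_iff_continuousAt.mpr fun s => (hE s).continuousAt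
  have cp : Continuous p := continuous_iff_continuousAt.mpr fun s => (hp s).continuousAt
  have hD : ∀ s, 0 < p s ^ 2 + δ ^ 2 := fun s => by positivity
  let u : ℝ → ℝ := fun s => p s / (p s ^ 2 + δ ^ 2)
  let u' : ℝ → ℝ := fun s => q s * (δ ^ 2 - p s ^ 2) / (p s ^ 2 + δ ^ 2) ^ 2
  have hu : ∀ s, HasDerivAt u (u' s) s := fun s => by
    have := (hp s).div (((hp s).pow 2).add_const (δ ^ 2)) (hD s).ne'
    refine this.congr_deriv ?_
    simp only [u', Pi.pow_apply]
    push_cast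
    ring
  have cu : Continuous u := continuous_iff_continuousAt.mpr fun s => (hu s).continuousAt
  have cu' : Continuous u' :=
    (hq.mul (continuous_const.sub (cp.pow 2))).div (((cp.pow 2).add continuous_const).pow 2)
      fun s => (pow_pos (hD s) 2).ne'
  let R : ℝ → ℂ := fun s => (I * u' s + (δ ^ 2 / (p s ^ 2 + δ ^ 2) : ℝ)) * E s
  have cR : Continuous R := by
    refine Continuous.mul (Continuous.add (continuous_const.mul (continuous_ofReal.comp cu'))
      (continuous_ofReal.comp (continuous_const.div ((cp.pow 2).add continuous_const)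
        fun s => (hD s).ne'))) cE
  have hV : ∀ s, HasDerivAt (fun s => -I * (u s * E s)) (E s - R s) s := fun s => by
    refine (((hu s).ofReal_comp.mul (hE s)).const_mul (-I)).congr_deriv ?_
    have h3 : ((p s : ℂ) ^ 2 + δ ^ 2) ≠ 0 := by exact_mod_cast (hD s).ne'
    have h4 : (u s : ℂ) * p s = 1 - (δ ^ 2 / (p s ^ 2 + δ ^ 2) : ℝ) := by
      simp only [u]
      push_cast
      field_simp
      ring
    simp only [R]
    linear_combination (-(u s : ℂ) * p s * E s) * I_mul_I + E s * h4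
  have e1 := integral_eq_sub_of_hasDerivAt (a := a) (b := b) (fun s _ => hV s)
    ((cE.sub cR).intervalIntegrable _ _)
  rw [integral_sub (cE.intervalIntegrable _ _) (cR.intervalIntegrable _ _)] at e1
  have bV : ∀ s, ‖-I * (u s * E s)‖ ≤ 1 / (2 * δ) := fun s => by
    rw [norm_mul, norm_mul, norm_neg, norm_I, h1, one_mul, mul_one, norm_real, Real.norm_eq_abs]
    simp only [u]
    rw [abs_div, abs_of_pos (hD s), div_le_div_iff₀ (hD s) (by positivity)]
    nlinarith [sq_nonneg (|p s| - δ), sq_abs (p s)]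
  have hA : ∀ s, HasDerivAt (fun s => 2 / δ * Real.arctan (p s / δ))
      (2 * (q s / (p s ^ 2 + δ ^ 2))) s := fun s => by
    refine (((hp s).div_const δ).arctan.const_mul (2 / δ)).congr_deriv ?_
    field_simp
    ring
  have cA : Continuous fun s => 2 * (q s / (p s ^ 2 + δ ^ 2)) :=
    continuous_const.mul (hq.div ((cp.pow 2).add continuous_const) fun s => (hD s).ne')
  have e2 := integral_eq_sub_of_hasDerivAt (a := a) (b := b) (fun s _ => hA s)
    (cA.intervalIntegrable _ _)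
  have bR : ‖∫ s in a..b, R s‖ ≤ ∫ s in a..b, 2 * (q s / (p s ^ 2 + δ ^ 2)) := by
    refine norm_integral_le_of_norm_le hab (Filter.Eventually.of_forall fun s hs => ?_)
      (cA.intervalIntegrable _ _)
    have h3 := h2 s (Set.Ioc_subset_Icc_self hs)
    have h4 : 0 < q s := lt_of_lt_of_le (by positivity) h3
    simp only [R]
    rw [norm_mul, h1, mul_one]
    refine (norm_add_le _ _).trans ?_
    rw [norm_mul, norm_I, one_mul, norm_real, norm_real, Real.norm_eq_abs, Real.norm_eq_abs,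
      abs_of_nonneg (a := δ ^ 2 / _) (by positivity), two_mul]
    refine add_le_add ?_ (div_le_div_of_nonneg_right h3 (hD s).le)
    simp only [u']
    rw [abs_div, abs_mul, abs_of_pos h4, abs_of_pos (pow_pos (hD s) 2),
      div_le_div_iff₀ (pow_pos (hD s) 2) (hD s)]
    have h5 : |δ ^ 2 - p s ^ 2| ≤ p s ^ 2 + δ ^ 2 :=
      abs_le.mpr ⟨by nlinarith [sq_nonneg δ], by nlinarith [sq_nonneg (p s)]⟩
    have := mul_le_mul_of_nonneg_right (mul_le_mul_of_nonneg_left h5 h4.le) (hD s).le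
    nlinarith
  rw [e2, ← mul_sub] at bR
  have b3 : Real.arctan (p b / δ) - Real.arctan (p a / δ) ≤ 7 / 2 := by
    have := Real.arctan_lt_pi_div_two (p b / δ)
    have := Real.neg_pi_div_two_lt_arctan (p a / δ)
    have := Real.pi_lt_d2
    linarith
  have b4 := mul_le_mul_of_nonneg_left b3 (by positivity : 0 ≤ 2 / δ)
  rw [sub_eq_iff_eq_add.mp e1]
  refine (norm_add_le _ _).trans ((add_le_add ((norm_sub_le _ _).trans
    (add_le_add (bV b) (bV a))) (bR.trans b4)).trans (le_of_eq ?_))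
  field_simp
  norm_num

noncomputable def ez (s : ℝ) : ℂ := exp (s * I)

lemma ez_norm (s : ℝ) : ‖ez s‖ = 1 := norm_exp_ofReal_mul_I s

lemma ez_ne (s : ℝ) : ez s ≠ 0 := exp_ne_zero _

lemma ez_deriv (s : ℝ) : HasDerivAt ez (I * ez s) s := by
  have := ((hasDerivAt_id s).ofReal_comp.mul_const I).cexp
  refine this.congr_deriv ?_
  simp [ez, mul_comm]

lemma ez_cont : Continuous ez := continuous_iff_continuousAt.mpr fun s => (ez_deriv s).continuousAt

lemma ez_cos (s : ℝ) : ez s ^ 2 + 1 = 2 * (Real.cos s : ℂ) * ez s := by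
  have h : exp (-(s : ℂ) * I) * exp (s * I) = 1 := by rw [← exp_add]; simp
  rw [ofReal_cos, two_cos]
  simp only [ez]
  linear_combination -h

lemma den1 (s : ℝ) : 2 * ez s - 1 ≠ 0 := fun h => by
  have : ‖2 * ez s‖ = ‖(1 : ℂ)‖ := by rw [sub_eq_zero.mp h]
  simp [ez_norm] at this

lemma den2 (s : ℝ) : 2 - ez s ≠ 0 := fun h => by
  have : ‖(2 : ℂ)‖ = ‖ez s‖ := by rw [sub_eq_zero.mp h]
  simp [ez_norm] at this

lemma norm_bl (z : ℂ) : ‖2 - z‖ ^ 2 - ‖2 * z - 1‖ ^ 2 = 3 * (1 - ‖z‖ ^ 2) := by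
  simp only [Complex.sq_norm, normSq_apply]
  simp
  ring

noncomputable def EE (N : ℤ) (k : ℕ) (s : ℝ) : ℂ := ez s ^ N * ((2 - ez s) / (2 * ez s - 1)) ^ k

lemma EE_norm (N : ℤ) (k : ℕ) (s : ℝ) : ‖EE N k s‖ = 1 := by
  have h := norm_bl (ez s)
  rw [ez_norm] at h
  have h2 : ‖2 - ez s‖ = ‖2 * ez s - 1‖ :=
    (pow_left_inj₀ (norm_nonneg _) (norm_nonneg _) two_ne_zero).mp (by linarith)
  rw [EE, norm_mul, norm_zpow, norm_pow, norm_div, ez_norm, h2,
    div_self (norm_ne_zero_iff.mpr (den1 s))]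
  simp

lemma cos_pos (s : ℝ) : 0 < 5 - 4 * Real.cos s := by linarith [Real.cos_le_one s]

lemma EE_deriv (N : ℤ) (k : ℕ) (s : ℝ) :
    HasDerivAt (EE N k) (I * ((N - 3 * k / (5 - 4 * Real.cos s) : ℝ) : ℂ) * EE N k s) s := by
  have h1 : HasDerivAt (fun s => ez s ^ N) (I * N * ez s ^ N) s := by
    refine ((hasDerivAt_zpow N (ez s) (Or.inl (ez_ne s))).comp s (ez_deriv s)).congr_deriv ?_
    rw [zpow_sub_one₀ (ez_ne s)]
    have := ez_ne s
    field_simp
  have hc : ((5 - 4 * Real.cos s : ℝ) : ℂ) ≠ 0 := by exact_mod_cast (cos_pos s).ne'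
  have h2 : HasDerivAt (fun s => (2 - ez s) / (2 * ez s - 1))
      (-(I * 3 / ((5 - 4 * Real.cos s : ℝ) : ℂ)) * ((2 - ez s) / (2 * ez s - 1))) s := by
    refine (((ez_deriv s).const_sub 2).div (((ez_deriv s).const_mul 2).sub_const 1)
      (den1 s)).congr_deriv ?_
    have d0 := ez_ne s
    have d1 := den1 s
    have d2 := den2 s
    have h : ((5 - 4 * Real.cos s : ℝ) : ℂ) = (2 * ez s - 1) * (2 - ez s) / ez s := by
      rw [eq_div_iff d0]
      simp only [ofReal_sub, ofReal_mul, ofReal_ofNat]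
      linear_combination 2 * ez_cos s
    have e : -(I * ez s) * (2 * ez s - 1) - (2 - ez s) * (2 * (I * ez s)) = -(3 * I * ez s) := by
      ring
    rw [h, e]
    generalize 2 * ez s - 1 = y at *
    generalize 2 - ez s = x at *
    field_simp
  have h3 : HasDerivAt (fun s => ((2 - ez s) / (2 * ez s - 1)) ^ k)
      (-(I * 3 * k / ((5 - 4 * Real.cos s : ℝ) : ℂ)) * ((2 - ez s) / (2 * ez s - 1)) ^ k) s := by
    refine (h2.pow k).congr_deriv ?_
    cases k with
    | zero => simp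
    | succ k => simp only [Nat.add_sub_cancel, pow_succ]; ring
  refine (h1.mul h3).congr_deriv ?_
  simp only [EE, ofReal_sub _ (_ / _), ofReal_div, ofReal_mul 3, ofReal_intCast, ofReal_natCast,
    ofReal_ofNat]
  ring

lemma EE_cont (N : ℤ) (k : ℕ) : Continuous (EE N k) :=
  continuous_iff_continuousAt.mpr fun s => (EE_deriv N k s).continuousAt

lemma EE_bound (N : ℤ) (k : ℕ) (ε : ℝ) (h0 : 0 < ε) (h1 : ε ≤ 1 / 2) (h2 : 2 * k * ε ^ 8 = 1) :
    ‖∫ s in ε..2 * ε, EE N k s‖ ≤ 32 * ε ^ 3 := by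
  have := vdc (EE N k) (fun s => N - 3 * k / (5 - 4 * Real.cos s))
    (fun s => 12 * k * Real.sin s / (5 - 4 * Real.cos s) ^ 2) ε (2 * ε) (1 / (4 * ε ^ 3))
    (by linarith) (by positivity) (EE_deriv N k) (fun s => ?_) ?_ (EE_norm N k) (fun s hs => ?_)
  · refine this.trans (le_of_eq ?_)
    field_simp
    norm_num
  · refine (((hasDerivAt_const s (3 * k : ℝ)).div (((Real.hasDerivAt_cos s).const_mul 4).const_sub
      5) (cos_pos s).ne').const_sub (N : ℝ)).congr_deriv ?_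
    ring
  · exact (continuous_const.mul Real.continuous_sin).div
      ((continuous_const.sub (continuous_const.mul Real.continuous_cos)).pow 2)
      fun s => (pow_pos (cos_pos s) 2).ne'
  · have a1 : ε / 2 ≤ Real.sin s := by
      have := Real.sin_gt_sub_cube (x := s) (by linarith [hs.1])
      have b1 : s ^ 2 ≤ 1 := by nlinarith [hs.1, hs.2]
      nlinarith [hs.1]
    have a2 : (5 - 4 * Real.cos s) ^ 2 ≤ 81 := by
      nlinarith [cos_pos s, Real.neg_one_le_cos s]
    rw [le_div_iff₀ (pow_pos (cos_pos s) 2)]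
    have a3 : (1 / (4 * ε ^ 3)) ^ 2 = k * ε ^ 2 / 8 := by
      field_simp
      linarith
    rw [a3]
    have k0 : (0 : ℝ) ≤ k := Nat.cast_nonneg k
    have a4 := mul_le_mul_of_nonneg_left a2 (by positivity : 0 ≤ k * ε ^ 2 / 8)
    have a5 := mul_le_mul_of_nonneg_left a1 k0
    have a6 := mul_le_mul_of_nonneg_left h1 (mul_nonneg k0 h0.le)
    nlinarith

/-- the rows have large norm -/
lemma row_lower (k : ℕ) (hk : 128 ≤ k) (c : ℕ → ℝ) (hc : Summable fun n => |c n|)
    (hs : ∀ s, HasSum (fun n => (c n : ℂ) * ez s ^ n) ((1 - ez s) ^ 10 / (256 * (2 - ez s)) *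
      ((2 * ez s - 1) * (256 * ez s ^ 4 - (1 - ez s) ^ 8) / (256 * (2 - ez s))) ^ k)) :
    1 / (10 ^ 9 * (k : ℝ)) ≤ ∑' n, |c n| := by
  have k0 : (128 : ℝ) ≤ k := by exact_mod_cast hk
  obtain ⟨ε, h0, h2⟩ : ∃ ε : ℝ, 0 < ε ∧ 2 * k * ε ^ 8 = 1 := by
    refine ⟨(1 / (2 * k)) ^ ((8 : ℕ) : ℝ)⁻¹, by positivity, ?_⟩
    rw [Real.rpow_inv_natCast_pow (by positivity) (by norm_num)]
    field_simp
  have h1 : ε ≤ 1 / 2 := by
    by_contra h
    have := pow_le_pow_left₀ (by norm_num) (not_le.mp h).le 8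
    have h3 : (1 / 2 : ℝ) ^ 8 < ε ^ 8 := pow_lt_pow_left₀ (not_le.mp h) (by norm_num) (by norm_num)
    nlinarith
  let M : ℤ := -(4 * k + 5)
  let G : ℕ → ℝ → ℂ := fun n s => c n * (2 * EE (n + M) k s - EE (n + 1 + M) k s)
  let t : ℝ → ℝ := fun s => 2 - 2 * Real.cos s
  let J : ℝ → ℝ := fun s => t s ^ 5 * (1 - t s ^ 4 / 256) ^ k
  have cG : ∀ n, Continuous (G n) := fun n =>
    continuous_const.mul ((continuous_const.mul (EE_cont _ _)).sub (EE_cont _ _))
  have hG : ∀ s, HasSum (fun n => G n s) (-(J s : ℂ) / 256) := fun s => by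
    have z0 := ez_ne s
    have d1 := den1 s
    have d2 := den2 s
    have ht : (1 - ez s) ^ 2 = -(ez s * (t s : ℂ)) := by
      simp only [t, ofReal_sub, ofReal_mul, ofReal_ofNat]
      linear_combination ez_cos s
    have := (hs s).mul_right ((2 - ez s) * EE M k s)
    have e1 : (fun n => G n s) = fun n => (c n : ℂ) * ez s ^ n * ((2 - ez s) * EE M k s) := by
      funext n
      simp only [G, EE, zpow_add₀ z0, zpow_natCast, zpow_one]
      ring
    rw [e1]
    refine (congrArg (fun v => HasSum _ v) ?_).mp this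
    have e2 : (1 - ez s) ^ 10 = -(ez s ^ 5 * (t s : ℂ) ^ 5) := by
      rw [show (1 - ez s) ^ 10 = ((1 - ez s) ^ 2) ^ 5 by ring, ht]; ring
    have e3 : (1 - ez s) ^ 8 = ez s ^ 4 * (t s : ℂ) ^ 4 := by
      rw [show (1 - ez s) ^ 8 = ((1 - ez s) ^ 2) ^ 4 by ring, ht]; ring
    have e4 : ez s ^ M = ((ez s ^ 4) ^ k * ez s ^ 5)⁻¹ := by
      rw [← pow_mul, ← pow_add, ← zpow_natCast, ← zpow_neg]
      simp [M]
    have e5 : (2 * ez s - 1) * (256 * ez s ^ 4 - ez s ^ 4 * (t s : ℂ) ^ 4) / (256 * (2 - ez s)) =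
        ((2 - ez s) / (2 * ez s - 1))⁻¹ * (ez s ^ 4 * (1 - (t s : ℂ) ^ 4 / 256)) := by
      field_simp
    have d3 : ((2 - ez s) / (2 * ez s - 1)) ^ k ≠ 0 := pow_ne_zero _ (div_ne_zero d2 d1)
    rw [e2, e3, e5, EE, e4, mul_pow, mul_pow, inv_pow]
    simp only [J]
    push_cast
    generalize ((2 - ez s) / (2 * ez s - 1)) ^ k = A at d3
    field_simp
  have bG : ∀ n s, ‖G n s‖ ≤ |c n| * 3 := fun n s => by
    simp only [G]
    rw [norm_mul, norm_real, Real.norm_eq_abs]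
    refine mul_le_mul_of_nonneg_left ((norm_sub_le _ _).trans ?_) (abs_nonneg _)
    rw [norm_mul, EE_norm, EE_norm]
    norm_num
  have hI := hasSum_integral_of_dominated_convergence (μ := MeasureTheory.volume) (a := ε)
    (b := 2 * ε) (F := G) (f := fun s => -(J s : ℂ) / 256) (fun n _ => |c n| * 3)
    (fun n => (cG n).aestronglyMeasurable)
    (fun n => Filter.Eventually.of_forall fun s _ => bG n s)
    (Filter.Eventually.of_forall fun s _ => hc.mul_right 3) intervalIntegrable_const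
    (Filter.Eventually.of_forall fun s _ => hG s)
  have bI : ∀ n, ‖∫ s in ε..2 * ε, G n s‖ ≤ |c n| * (96 * ε ^ 3) := fun n => by
    simp only [G]
    rw [integral_const_mul, integral_sub (((EE_cont _ _).intervalIntegrable _ _).const_mul _)
      ((EE_cont _ _).intervalIntegrable _ _), integral_const_mul, norm_mul, norm_real,
      Real.norm_eq_abs]
    refine mul_le_mul_of_nonneg_left ((norm_sub_le _ _).trans ?_) (abs_nonneg _)
    rw [norm_mul]
    have a1 := EE_bound (n + M) k ε h0 h1 h2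
    have a2 := EE_bound (n + 1 + M) k ε h0 h1 h2
    simp only [Complex.norm_ofNat]
    linarith
  have b1 := hI.norm_le_of_bounded (hc.hasSum.mul_right (96 * ε ^ 3)) bI
  rw [integral_div, integral_neg, intervalIntegral.integral_ofReal, norm_div, norm_neg, norm_real,
    Real.norm_eq_abs] at b1
  simp only [Complex.norm_ofNat] at b1
  have cJ : Continuous J := by
    simp only [J, t]
    fun_prop
  have b2 : ∫ _s in ε..2 * ε, ε ^ 10 / 2048 ≤ ∫ s in ε..2 * ε, J s := by
    refine integral_mono_on (by linarith) intervalIntegrable_const (cJ.intervalIntegrable _ _)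
      fun s hs => ?_
    have a1 : ε ^ 2 / 4 ≤ t s := by
      have := Real.cos_le_one_sub_mul_cos_sq (x := s) (by
        rw [abs_of_nonneg (by linarith [hs.1])]; linarith [hs.2, Real.pi_gt_three])
      have p1 : 1 / 8 ≤ 2 / Real.pi ^ 2 := by
        rw [div_le_div_iff₀ (by norm_num) (by positivity)]
        nlinarith [Real.pi_lt_four, Real.pi_pos]
      have p2 : ε ^ 2 ≤ s ^ 2 := by nlinarith [hs.1]
      simp only [t]
      nlinarith [sq_nonneg s]
    have a2 : t s ≤ 4 * ε ^ 2 := by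
      have := Real.one_sub_sq_div_two_le_cos (x := s)
      simp only [t]
      nlinarith [hs.1, hs.2]
    have a0 : 0 ≤ t s := le_trans (by positivity) a1
    have a3 : t s ^ 4 / 256 ≤ ε ^ 8 := by
      have := pow_le_pow_left₀ a0 a2 4
      linarith [show (4 * ε ^ 2) ^ 4 = 256 * ε ^ 8 by ring]
    have a4 : ε ^ 8 ≤ 1 := pow_le_one₀ h0.le (by linarith)
    have a5 := one_add_mul_le_pow (a := -(t s ^ 4 / 256)) (by linarith) k
    have a6 : 1 / 2 ≤ (1 - t s ^ 4 / 256) ^ k := by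
      rw [← sub_eq_add_neg] at a5
      nlinarith
    have a7 := pow_le_pow_left₀ (by positivity) a1 5
    have := mul_le_mul a7 a6 (by norm_num) (by positivity)
    simp only [J]
    linarith [show (ε ^ 2 / 4) ^ 5 * (1 / 2) = ε ^ 10 / 2048 by ring]
  rw [integral_const, smul_eq_mul] at b2
  have b3 := le_abs_self (∫ s in ε..2 * ε, J s)
  have b4 : ε ^ 3 * (ε ^ 8 / (2048 * 256 * 96)) ≤ ε ^ 3 * ∑' n, |c n| := by nlinarith
  have b5 := le_of_mul_le_mul_left b4 (by positivity)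
  refine le_trans ?_ b5
  rw [div_le_div_iff₀ (by positivity) (by norm_num)]
  nlinarith

lemma maxmod (z : ℂ) (hz : ‖z‖ ≤ 1) : ‖256 * z ^ 4 - (1 - z) ^ 8‖ + ‖1 - z‖ ^ 8 ≤ 256 := by
  obtain ⟨a, a1, a2⟩ := Complex.exists_norm_eq_mul_self (256 * z ^ 4 - (1 - z) ^ 8)
  obtain ⟨b, b1, b2⟩ := Complex.exists_norm_eq_mul_self ((1 - z) ^ 8)
  have := Complex.norm_le_of_forall_mem_frontier_norm_le (U := Metric.ball (0 : ℂ) 1)
    (f := fun w : ℂ => a * (256 * w ^ 4 - (1 - w) ^ 8) + b * (1 - w) ^ 8) (C := 256) (z := z)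
    Metric.isBounded_ball (Differentiable.diffContOnCl (by fun_prop)) (fun w hw => ?_)
    (by rw [closure_ball _ one_ne_zero]; simpa using hz)
  · rw [← a2, ← b2, ← ofReal_add, norm_real, norm_pow] at this
    exact (le_abs_self _).trans this
  · rw [frontier_ball _ one_ne_zero, mem_sphere_zero_iff_norm] at hw
    obtain ⟨s, rfl⟩ : ∃ s, w = ez s := ⟨arg w, by
      have := norm_mul_exp_arg_mul_I w
      rw [hw] at this
      simpa [ez] using this.symm⟩
    have ht : (1 - ez s) ^ 2 = -(ez s * ((2 - 2 * Real.cos s : ℝ) : ℂ)) := by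
      simp only [ofReal_sub, ofReal_mul, ofReal_ofNat]
      linear_combination ez_cos s
    have t0 : 0 ≤ 2 - 2 * Real.cos s := by linarith [Real.cos_le_one s]
    have t1 : 2 - 2 * Real.cos s ≤ 4 := by linarith [Real.neg_one_le_cos s]
    generalize 2 - 2 * Real.cos s = t at ht t0 t1
    have t2 : t ^ 4 ≤ 256 := (pow_le_pow_left₀ t0 t1 4).trans (by norm_num)
    have e3 : (1 - ez s) ^ 8 = ez s ^ 4 * ((t ^ 4 : ℝ) : ℂ) := by
      rw [show (1 - ez s) ^ 8 = ((1 - ez s) ^ 2) ^ 4 by ring, ht]; push_cast; ring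
    have e4 : 256 * ez s ^ 4 - ez s ^ 4 * ((t ^ 4 : ℝ) : ℂ) =
        ez s ^ 4 * ((256 - t ^ 4 : ℝ) : ℂ) := by push_cast; ring
    refine (norm_add_le _ _).trans ?_
    rw [e3, e4]
    simp only [norm_mul, a1, b1, norm_pow, ez_norm, one_pow, one_mul, norm_real, Real.norm_eq_abs]
    rw [abs_of_nonneg (by linarith), abs_of_nonneg (by positivity)]
    linarith

lemma Q_lower (z w : ℂ) (hz : ‖z‖ ≤ 1) (hw : ‖w‖ ≤ 1) :
    ‖1 - z‖ ^ 8 ≤ ‖256 * (2 - z) - w * ((2 * z - 1) * (256 * z ^ 4 - (1 - z) ^ 8))‖ := by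
  have h1 := maxmod z hz
  have h2 : ‖2 * z - 1‖ ≤ ‖2 - z‖ := by
    have := norm_bl z
    refine (pow_le_pow_iff_left₀ (norm_nonneg _) (norm_nonneg _) two_ne_zero).mp ?_
    nlinarith [norm_nonneg z]
  have h3 : 1 ≤ ‖2 - z‖ := by
    have := norm_sub_norm_le (2 : ℂ) z
    simp only [Complex.norm_ofNat] at this
    linarith
  refine le_trans ?_ (norm_sub_norm_le _ _)
  rw [norm_mul, norm_mul, norm_mul]
  simp only [Complex.norm_ofNat]
  have h4 : ‖w‖ * (‖2 * z - 1‖ * ‖256 * z ^ 4 - (1 - z) ^ 8‖) ≤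
      1 * (‖2 - z‖ * ‖256 * z ^ 4 - (1 - z) ^ 8‖) := by gcongr
  have h5 : 0 ≤ ‖1 - z‖ ^ 8 := by positivity
  nlinarith

end Pool.Agent.H23.Vdc
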