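import Mathlib
import Pool.Agent.H23.Vdc

set_option autoImplicit false
set_option maxSynthPendingDepth 3

open Complex intervalIntegral Filter Topology

namespace Pool.Agent.H23.Cog
open Pool.Agent.H23.Vdc

noncomputable def BB (s : ℝ) : ℂ := (I * s + 1) / (I * s - 1)

lemma den_ne (s : ℝ) : I * s - 1 ≠ 0 := fun h => by
  have := congrArg Complex.re h
  simp at this

lemma num_ne (s : ℝ) : I * s + 1 ≠ 0 := fun h => by
  have := congrArg Complex.re h
  simp at this

lemma BB_norm (s : ℝ) : ‖BB s‖ = 1 := by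
  rw [BB, norm_div, div_eq_one_iff_eq (norm_ne_zero_iff.2 (den_ne s))]
  rw [Complex.norm_eq_sqrt_sq_add_sq, Complex.norm_eq_sqrt_sq_add_sq]
  simp

lemma BB_deriv (s : ℝ) : HasDerivAt BB (I * (2 / (1 + s ^ 2) : ℝ) * BB s) s := by
  have h0 : HasDerivAt (fun s : ℝ => I * (s : ℂ)) (I * 1) s :=
    (hasDerivAt_id s).ofReal_comp.const_mul I
  have := (h0.add_const 1).div (h0.sub_const 1) (den_ne s)
  refine this.congr_deriv ?_
  have h1 : ((1 + s ^ 2 : ℝ) : ℂ) = -((I * s + 1) * (I * s - 1)) := by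
    push_cast
    linear_combination (s : ℂ) ^ 2 * I_mul_I
  rw [BB, ofReal_div, h1]
  have := den_ne s
  have := num_ne s
  field_simp
  push_cast
  ring

lemma BB_cont : Continuous BB := continuous_iff_continuousAt.mpr fun s => (BB_deriv s).continuousAt

noncomputable def EE' (m : ℤ) (n : ℕ) (s : ℝ) : ℂ := ez (m * s) * BB s ^ n

lemma EE'_norm (m : ℤ) (n : ℕ) (s : ℝ) : ‖EE' m n s‖ = 1 := by
  rw [EE', norm_mul, norm_pow, ez_norm, BB_norm]; simp

lemma EE'_deriv (m : ℤ) (n : ℕ) (s : ℝ) :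
    HasDerivAt (EE' m n) (I * ((m : ℝ) + n * (2 / (1 + s ^ 2)) : ℝ) * EE' m n s) s := by
  have h1 : HasDerivAt (fun s : ℝ => ez (m * s)) ((m : ℝ) • (I * ez (m * s))) s := by
    have := (ez_deriv (m * s)).scomp s ((hasDerivAt_id s).const_mul (m : ℝ))
    simpa [Function.comp_def] using this
  have h2 := (BB_deriv s).pow n
  refine (h1.mul h2).congr_deriv ?_
  simp only [EE', Pi.pow_apply, real_smul]
  cases n with
  | zero => simp; ring
  | succ n => simp only [Nat.add_sub_cancel]; push_cast; ring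

lemma EE'_cont (m : ℤ) (n : ℕ) : Continuous (EE' m n) :=
  continuous_iff_continuousAt.mpr fun s => (EE'_deriv m n s).continuousAt

noncomputable def aa : ℝ := -1 - 2 * Real.pi
def bb : ℝ := -1

lemma aa_le : aa ≤ bb := by unfold aa bb; linarith [Real.pi_pos]

lemma bound2 (m : ℤ) (n : ℕ) (hn : 0 < n) : ‖∫ s in aa..bb, EE' m n s‖ ≤ 260 / √n := by
  have hs : 0 < √(n : ℝ) := Real.sqrt_pos.2 (by exact_mod_cast hn)
  have hp : ∀ s : ℝ, HasDerivAt (fun s : ℝ => (m : ℝ) + n * (2 / (1 + s ^ 2)))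
      (n * (-4 * s / (1 + s ^ 2) ^ 2)) s := by
    intro s
    have h0 : (1 + s ^ 2) ≠ 0 := by positivity
    have := (((hasDerivAt_const s (2 : ℝ)).div (((hasDerivAt_id s).pow 2).const_add 1)
      h0).const_mul (n : ℝ)).const_add (m : ℝ)
    refine this.congr_deriv ?_
    simp only [Pi.pow_apply, id]
    push_cast
    ring
  have := vdc (EE' m n) _ _ aa bb (2 * √n / 65) aa_le (by positivity) (EE'_deriv m n) hp
    (by
      refine continuous_const.mul (Continuous.div (by fun_prop) (by fun_prop) fun s => ?_)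
      positivity) (EE'_norm m n) (by
      intro s hs
      have h1 : s ≤ -1 := hs.2
      have h2 : -8 ≤ s := by
        have := hs.1; unfold aa at this; linarith [Real.pi_lt_d2]
      rw [div_pow, mul_pow, Real.sq_sqrt (by positivity)]
      have h3 : (2 : ℝ) ^ 2 / 65 ^ 2 ≤ -4 * s / (1 + s ^ 2) ^ 2 := by
        rw [div_le_div_iff₀ (by positivity) (by positivity)]
        have h4 : 1 + s ^ 2 ≤ 65 := by nlinarith
        have h5 : (1 + s ^ 2) ^ 2 ≤ 65 ^ 2 := by gcongr
        nlinarith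
      calc (2 : ℝ) ^ 2 * n / 65 ^ 2 = n * (2 ^ 2 / 65 ^ 2) := by ring
        _ ≤ _ := by gcongr)
  refine this.trans (le_of_eq ?_)
  field_simp
  norm_num

lemma bound1 (m : ℤ) (n : ℕ) : |(m : ℝ)| * ‖∫ s in aa..bb, EE' m n s‖ ≤ 2 + 13 * n := by
  have hc : Continuous (fun s : ℝ => ((2 / (1 + s ^ 2) : ℝ) : ℂ)) :=
    continuous_ofReal.comp (Continuous.div (by fun_prop) (by fun_prop) fun s => by positivity)
  have h1 := integral_eq_sub_of_hasDerivAt (a := aa) (b := bb) (fun s _ => EE'_deriv m n s)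
    (Continuous.intervalIntegrable (by
      refine (continuous_const.mul (continuous_ofReal.comp ?_)).mul (EE'_cont m n)
      exact continuous_const.add (continuous_const.mul
        (Continuous.div (by fun_prop) (by fun_prop) fun s => by positivity))) _ _)
  have h2 : (fun s : ℝ => I * ((m : ℝ) + n * (2 / (1 + s ^ 2)) : ℝ) * EE' m n s) =
      fun s => (I * (m : ℝ)) * EE' m n s + (I * n) * (((2 / (1 + s ^ 2) : ℝ) : ℂ) * EE' m n s) := by
    funext s; push_cast; ring
  have c1 : Continuous fun s : ℝ => (I * (m : ℝ)) * EE' m n s :=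
    continuous_const.mul (EE'_cont m n)
  have c2 : Continuous fun s : ℝ => (I * n) * (((2 / (1 + s ^ 2) : ℝ) : ℂ) * EE' m n s) :=
    continuous_const.mul (hc.mul (EE'_cont m n))
  rw [h2, integral_add (c1.intervalIntegrable _ _) (c2.intervalIntegrable _ _),
    integral_const_mul, integral_const_mul] at h1
  have h3 : ‖∫ s in aa..bb, ((2 / (1 + s ^ 2) : ℝ) : ℂ) * EE' m n s‖ ≤ 2 * |bb - aa| := by
    apply norm_integral_le_of_norm_le_const
    intro s _
    rw [norm_mul, EE'_norm, mul_one, norm_real, Real.norm_of_nonneg (by positivity),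
      div_le_iff₀ (by positivity)]
    nlinarith [sq_nonneg s]
  have h4 : |bb - aa| ≤ 13 / 2 := by
    unfold aa bb
    rw [abs_le]; constructor <;> linarith [Real.pi_pos, Real.pi_lt_d2]
  have h5 : (I * (m : ℝ)) * ∫ s in aa..bb, EE' m n s = EE' m n bb - EE' m n aa -
      (I * n) * ∫ s in aa..bb, ((2 / (1 + s ^ 2) : ℝ) : ℂ) * EE' m n s := by
    rw [← h1]; ring
  have h6 := congrArg norm h5
  rw [norm_mul, norm_mul, norm_I, one_mul, norm_real, Real.norm_eq_abs] at h6
  rw [h6]
  refine (norm_sub_le _ _).trans (add_le_add ((norm_sub_le _ _).trans ?_) ?_)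
  · rw [EE'_norm, EE'_norm]; norm_num
  · rw [norm_mul, norm_mul, norm_I, one_mul, Complex.norm_natCast]
    nlinarith [Nat.cast_nonneg (α := ℝ) n]

lemma exact0 (m : ℤ) (hm : m ≠ 0) : ∫ s in aa..bb, EE' m 0 s = 0 := by
  have h1 := integral_eq_sub_of_hasDerivAt (a := aa) (b := bb) (fun s _ => EE'_deriv m 0 s)
    (Continuous.intervalIntegrable (by
      refine (continuous_const.mul (continuous_ofReal.comp ?_)).mul (EE'_cont m 0)
      exact continuous_const.add (continuous_const.mul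
        (Continuous.div (by fun_prop) (by fun_prop) fun s => by positivity))) _ _)
  simp only [Nat.cast_zero, zero_mul, add_zero] at h1
  rw [integral_const_mul] at h1
  have h2 : EE' m 0 bb = EE' m 0 aa := by
    simp only [EE', pow_zero, mul_one, ez, aa, bb]
    rw [Complex.exp_eq_exp_iff_exists_int]
    exact ⟨m, by push_cast; ring⟩
  rw [h2, sub_self] at h1
  refine (mul_eq_zero.1 h1).resolve_left (mul_ne_zero I_ne_zero ?_)
  exact_mod_cast hm

def NN (j : ℕ) : ℤ := 64 ^ (j + 1)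

lemma NN_pos (j : ℕ) : 0 < NN j := by unfold NN; positivity
lemma NN_succ (j : ℕ) : NN (j + 1) = 64 * NN j := by unfold NN; ring
lemma NN_lt {j k : ℕ} (h : j < k) : 64 * NN j ≤ NN k := by
  rw [← NN_succ]
  unfold NN
  exact pow_le_pow_right₀ (by norm_num) (by omega)

noncomputable def PK (K : ℕ) (s : ℝ) : ℝ := ∏ j ∈ Finset.range K, (1 + Real.cos (NN j * s))

lemma PK_nonneg (K : ℕ) (s : ℝ) : 0 ≤ PK K s :=
  Finset.prod_nonneg fun j _ => by linarith [Real.neg_one_le_cos (NN j * s)]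

lemma PK_cont (K : ℕ) : Continuous (PK K) := by unfold PK; fun_prop

noncomputable def JJ (K : ℕ) (m : ℤ) (n : ℕ) : ℂ := ∫ s in aa..bb, EE' m n s * PK K s

lemma JJ_zero (m : ℤ) (n : ℕ) : JJ 0 m n = ∫ s in aa..bb, EE' m n s := by simp [JJ, PK]

lemma JJ_succ (K : ℕ) (m : ℤ) (n : ℕ) :
    JJ (K + 1) m n = JJ K m n + (1 / 2) * JJ K (m + NN K) n + (1 / 2) * JJ K (m - NN K) n := by
  have hc : ∀ m, Continuous fun s => EE' m n s * PK K s :=
    fun m => (EE'_cont m n).mul (continuous_ofReal.comp (PK_cont K))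
  have hc2 : ∀ m, Continuous fun s => (1 / 2 : ℂ) * (EE' m n s * PK K s) :=
    fun m => continuous_const.mul (hc m)
  have hc3 : Continuous fun s => EE' m n s * PK K s +
      (1 / 2 : ℂ) * (EE' (m + NN K) n s * PK K s) := (hc _).add (hc2 _)
  unfold JJ
  rw [← integral_const_mul, ← integral_const_mul,
    ← integral_add ((hc _).intervalIntegrable _ _) ((hc2 _).intervalIntegrable _ _),
    ← integral_add (hc3.intervalIntegrable _ _) ((hc2 _).intervalIntegrable _ _)]
  congr 1
  funext s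
  simp only [PK, Finset.prod_range_succ, EE', ez]
  push_cast
  rw [Complex.cos, show ((m : ℂ) + NN K) * s * I = m * s * I + NN K * s * I by ring,
    show ((m : ℂ) - NN K) * s * I = m * s * I + -(NN K * s) * I by ring, exp_add, exp_add]
  ring

lemma JJ_bnd (n : ℕ) (ε : ℝ) (K : ℕ) : ∀ m : ℤ,
    (∀ m' : ℤ, 2 * |m' - m| ≤ NN K → ‖JJ 0 m' n‖ ≤ ε) → ‖JJ K m n‖ ≤ 2 ^ K * ε := by
  induction K with
  | zero => intro m h; simpa using h m (by simpa using (NN_pos 0).le)
  | succ K ih =>
    intro m h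
    have hN := NN_pos K
    rw [NN_succ] at h
    have h1 := ih m (fun m' hm => h m' (by omega))
    have h2 := ih (m + NN K) (fun m' hm => h m' (by
      rcases abs_cases (m' - m) <;> rcases abs_cases (m' - (m + NN K)) <;> omega))
    have h3 := ih (m - NN K) (fun m' hm => h m' (by
      rcases abs_cases (m' - m) <;> rcases abs_cases (m' - (m - NN K)) <;> omega))
    rw [JJ_succ]
    refine (norm_add₃_le).trans ?_
    rw [norm_mul, norm_mul]
    have : ‖(1 / 2 : ℂ)‖ = 1 / 2 := by simp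
    rw [this, pow_succ]
    linarith

lemma JJ_van (K : ℕ) (m : ℤ) (h : NN K < 2 * |m|) : JJ K m 0 = 0 := by
  have := JJ_bnd 0 0 K m (fun m' hm => by
    rw [JJ_zero, exact0 m' (by rintro rfl; simp at hm; omega), norm_zero])
  simpa using this

lemma JJ_mass (K : ℕ) : JJ K 0 0 = 2 * Real.pi := by
  induction K with
  | zero => simp [JJ_zero, EE', ez, aa, bb]
  | succ K ih =>
    have hN := NN_pos K
    rw [JJ_succ, ih, JJ_van K _ (by rw [zero_add, abs_of_pos hN]; omega),
      JJ_van K _ (by rw [zero_sub, abs_neg, abs_of_pos hN]; omega)]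
    simp

lemma JJ_half (k K : ℕ) (h : k + 1 ≤ K) : JJ K (-NN k) 0 = Real.pi := by
  have hN := NN_pos k
  induction K, h using Nat.le_induction with
  | base =>
    rw [JJ_succ, neg_add_cancel, JJ_mass, JJ_van k _ (by rw [abs_neg, abs_of_pos hN]; omega),
      JJ_van k _ (by rw [abs_of_neg (by omega)]; omega)]
    ring
  | succ K hK ih =>
    have := NN_lt (show k < K by omega)
    rw [JJ_succ, ih, JJ_van K _ (by rw [abs_of_pos (by omega)]; omega),
      JJ_van K _ (by rw [abs_of_neg (by omega)]; omega)]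
    simp

lemma far (j n : ℕ) (m : ℤ) (h : NN j ≤ 2 * |m|) : ‖JJ 0 m n‖ ≤ 260 / 4 ^ j := by
  rw [JJ_zero]
  by_cases hn : 16 ^ j ≤ n
  · refine (bound2 m n (lt_of_lt_of_le (by positivity) hn)).trans ?_
    have : (4 : ℝ) ^ j ≤ √n := by
      apply Real.le_sqrt_of_sq_le
      rw [← pow_mul, mul_comm, pow_mul]
      norm_num
      exact_mod_cast hn
    gcongr
  · have h1 := bound1 m n
    have h2 : (n : ℝ) ≤ 16 ^ j := by exact_mod_cast (not_le.1 hn).le
    have h3 : (64 : ℝ) ^ (j + 1) ≤ 2 * |(m : ℝ)| := by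
      unfold NN at h; exact_mod_cast h
    have h4 : (64 : ℝ) ^ (j + 1) = 64 * (16 ^ j * 4 ^ j) := by
      rw [← mul_pow, pow_succ]; norm_num; ring
    have h5 : (1 : ℝ) ≤ 16 ^ j := one_le_pow₀ (by norm_num)
    have h6 : (0 : ℝ) < 4 ^ j := by positivity
    rw [le_div_iff₀ h6]
    set x := ‖∫ s in aa..bb, EE' m n s‖
    have hx : 0 ≤ x := norm_nonneg _
    have h7 : 32 * (16 ^ j * 4 ^ j) * x ≤ 15 * 16 ^ j := by nlinarith
    nlinarith

lemma decay (k n : ℕ) (hn : 0 < n) (K : ℕ) (h : k ≤ K) :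
    ‖JJ K 0 n‖ ≤ 2 ^ k * (260 / √n) + 520 / 2 ^ k - 520 / 2 ^ K := by
  induction K, h using Nat.le_induction with
  | base =>
    have := JJ_bnd n (260 / √n) k 0 (fun m' _ => by rw [JJ_zero]; exact bound2 m' n hn)
    linarith
  | succ K hK ih =>
    have hN := NN_pos K
    have h2 := JJ_bnd n _ K (0 + NN K) (fun m' hm => far K n m' (by
      rcases abs_cases m' <;> rcases abs_cases (m' - (0 + NN K)) <;> omega))
    have h3 := JJ_bnd n _ K (0 - NN K) (fun m' hm => far K n m' (by
      rcases abs_cases m' <;> rcases abs_cases (m' - (0 - NN K)) <;> omega))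
    rw [JJ_succ]
    refine (norm_add₃_le).trans ?_
    rw [norm_mul, norm_mul]
    have : ‖(1 / 2 : ℂ)‖ = 1 / 2 := by simp
    rw [this]
    have e : (2 : ℝ) ^ K * (260 / 4 ^ K) = 520 / 2 ^ (K + 1) := by
      rw [show (4 : ℝ) = 2 * 2 by norm_num, mul_pow, pow_succ]; field_simp; norm_num
    have e2 : (520 : ℝ) / 2 ^ K = 2 * (520 / 2 ^ (K + 1)) := by
      rw [pow_succ]; field_simp
    linarith

end Pool.Agent.H23.Cog
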