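import Mathlib
import Pool.Agent.H23.Cog1

set_option autoImplicit false
set_option maxSynthPendingDepth 3

open Complex Filter Topology MeasureTheory
open scoped ENNReal

namespace Pool.Agent.H23.Cog
open Pool.Agent.H23.Vdc

abbrev XX := Set.Icc aa bb

noncomputable def mu0 (K : ℕ) : Measure XX :=
  (Measure.comap Subtype.val volume).withDensity
    (fun x => ENNReal.ofReal (PK K x.1 / (2 * Real.pi)))

lemma int_mu0 (K : ℕ) (g : ℝ → ℂ) :
    ∫ x, g x.1 ∂mu0 K = (1 / (2 * Real.pi)) * ∫ s in aa..bb, g s * PK K s := by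
  have hm : Measurable fun x : XX => ENNReal.ofReal (PK K x.1 / (2 * Real.pi)) :=
    ENNReal.measurable_ofReal.comp
      (((PK_cont K).comp continuous_subtype_val).div_const _).measurable
  rw [mu0, integral_withDensity_eq_integral_toReal_smul hm (by simp),
    integral_subtype_comap measurableSet_Icc
      (fun s => (ENNReal.ofReal (PK K s / (2 * Real.pi))).toReal • g s),
    intervalIntegral.integral_of_le aa_le, ← integral_Icc_eq_integral_Ioc, ← integral_const_mul]
  congr 1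
  funext s
  rw [ENNReal.toReal_ofReal (div_nonneg (PK_nonneg K s) (by positivity)), real_smul]
  push_cast
  ring

lemma int_mu0_E (K : ℕ) (m : ℤ) (n : ℕ) :
    ∫ x, EE' m n x.1 ∂mu0 K = (1 / (2 * Real.pi)) * JJ K m n := int_mu0 K _

instance (K : ℕ) : IsProbabilityMeasure (mu0 K) := by
  have h := int_mu0_E K 0 0
  have hpi : (Real.pi : ℂ) ≠ 0 := ofReal_ne_zero.2 Real.pi_ne_zero
  rw [JJ_mass, show (1 / (2 * (Real.pi : ℂ))) * (2 * Real.pi) = 1 by field_simp] at h
  simp only [EE', ez, Int.cast_zero, zero_mul, ofReal_zero, exp_zero, pow_zero, mul_one,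
    integral_const, real_smul] at h
  exact isProbabilityMeasure_iff_real.2 (by exact_mod_cast h)

noncomputable def muP (K : ℕ) : ProbabilityMeasure XX := ⟨mu0 K, inferInstance⟩

lemma exists_mu : ∃ μ : Measure XX, IsProbabilityMeasure μ ∧
    (∀ k, ∫ x, EE' (-NN k) 0 x.1 ∂μ = 1 / 2) ∧
    Tendsto (fun n : ℕ => ∫ x, BB x.1 ^ n ∂μ) atTop (𝓝 0) := by
  obtain ⟨μ, -, hμ⟩ := isCompact_univ.ultrafilter_le_nhds ((hyperfilter ℕ).map muP) (by simp)
  have hμ' : Tendsto muP (hyperfilter ℕ) (𝓝 μ) := hμ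
  rw [ProbabilityMeasure.tendsto_iff_forall_integral_rclike_tendsto ℂ] at hμ'
  have hle : (hyperfilter ℕ : Filter ℕ) ≤ atTop := by
    rw [← Nat.cofinite_eq_atTop]; exact hyperfilter_le_cofinite
  have key : ∀ m n, Tendsto (fun K => (1 / (2 * (Real.pi : ℂ))) * JJ K m n) (hyperfilter ℕ)
      (𝓝 (∫ x, EE' m n x.1 ∂(μ : Measure XX))) := by
    intro m n
    have := hμ' (BoundedContinuousFunction.mkOfCompact
      ⟨fun x : XX => EE' m n x.1, (EE'_cont m n).comp continuous_subtype_val⟩)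
    refine this.congr fun K => ?_
    exact int_mu0_E K m n
  have hpi : (Real.pi : ℂ) ≠ 0 := ofReal_ne_zero.2 Real.pi_ne_zero
  refine ⟨μ, inferInstance, fun k => ?_, ?_⟩
  · refine tendsto_nhds_unique (key (-NN k) 0) (tendsto_const_nhds.congr' ?_)
    filter_upwards [hle (eventually_ge_atTop (k + 1))] with K hK
    rw [JJ_half k K hK]; field_simp
  · have hb : ∀ k n : ℕ, 0 < n →
        ‖∫ x, BB x.1 ^ n ∂(μ : Measure XX)‖ ≤ 2 ^ k * (260 / √n) + 520 / 2 ^ k := by
      intro k n hn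
      have h1 := (key 0 n).norm
      have e : ∀ s, EE' 0 n s = BB s ^ n := fun s => by simp [EE', ez]
      simp only [e] at h1
      refine le_of_tendsto h1 ?_
      filter_upwards [hle (eventually_ge_atTop k)] with K hK
      have h2 := decay k n hn K hK
      have h3 : ‖1 / (2 * (Real.pi : ℂ))‖ ≤ 1 := by
        rw [norm_div, norm_one, norm_mul, norm_real, Real.norm_of_nonneg Real.pi_pos.le,
          div_le_one (by simp [Real.pi_pos])]
        simp; linarith [Real.pi_gt_three]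
      have h4 : (0 : ℝ) ≤ 520 / 2 ^ K := by positivity
      rw [norm_mul]
      nlinarith [norm_nonneg (JJ K 0 n), norm_nonneg (1 / (2 * (Real.pi : ℂ)))]
    rw [Metric.tendsto_nhds]
    intro ε hε
    have t1 : Tendsto (fun k : ℕ => (520 : ℝ) / 2 ^ k) atTop (𝓝 0) :=
      tendsto_const_nhds.div_atTop (tendsto_pow_atTop_atTop_of_one_lt (by norm_num))
    obtain ⟨k, hk⟩ := (t1.eventually (gt_mem_nhds (half_pos hε))).exists
    have t2 : Tendsto (fun n : ℕ => (2 : ℝ) ^ k * (260 / √n)) atTop (𝓝 (2 ^ k * 0)) :=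
      (tendsto_const_nhds.div_atTop
        (Real.tendsto_sqrt_atTop.comp tendsto_natCast_atTop_atTop)).const_mul _
    rw [mul_zero] at t2
    filter_upwards [t2.eventually (gt_mem_nhds (half_pos hε)), eventually_gt_atTop 0] with n h1 h2
    rw [dist_zero_right]
    linarith [hb k n h2]

section gen
variable {X : Type} [MetricSpace X] [CompactSpace X] [MeasurableSpace X] [BorelSpace X]
  (μ : Measure X) [IsProbabilityMeasure μ]

lemma cint (g : C(X, ℂ)) : Integrable g μ :=
  (BoundedContinuousFunction.mkOfCompact g).integrable μ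

lemma approx (B : C(X, ℂ)) (hB : ∀ x, ‖B x‖ = 1) (h : X → ℂ) (hh : Integrable h μ)
    (H : ∀ ε > 0, ∃ g : C(X, ℂ), Tendsto (fun n : ℕ => ∫ x, B x ^ n * g x ∂μ) atTop (𝓝 0) ∧
      ∫ x, ‖h x - g x‖ ∂μ ≤ ε) :
    Tendsto (fun n : ℕ => ∫ x, B x ^ n * h x ∂μ) atTop (𝓝 0) := by
  rw [Metric.tendsto_nhds]
  intro ε hε
  obtain ⟨g, h1, h2⟩ := H (ε / 2) (half_pos hε)
  filter_upwards [Metric.tendsto_nhds.1 h1 (ε / 2) (half_pos hε)] with n hn
  rw [dist_zero_right] at hn ⊢
  have i1 : ∀ f : X → ℂ, Integrable f μ → Integrable (fun x => B x ^ n * f x) μ := fun f hf =>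
    hf.bdd_mul (c := 1) (B ^ n).continuous.aestronglyMeasurable
      (.of_forall fun x => by simp [hB])
  have e : ∫ x, B x ^ n * h x ∂μ =
      ∫ x, B x ^ n * g x ∂μ + ∫ x, B x ^ n * (h x - g x) ∂μ := by
    rw [← integral_add (i1 _ (cint μ g)) (i1 (fun x => h x - g x) (hh.sub (cint μ g)))]
    congr 1; funext x; ring
  have h3 : ‖∫ x, B x ^ n * (h x - g x) ∂μ‖ ≤ ε / 2 := by
    refine (norm_integral_le_integral_norm _).trans (le_trans (le_of_eq ?_) h2)
    congr 1; funext x; simp [hB]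
  rw [e]
  linarith [norm_add_le (∫ x, B x ^ n * g x ∂μ) (∫ x, B x ^ n * (h x - g x) ∂μ)]

lemma hered (B : C(X, ℂ)) (hB : ∀ x, ‖B x‖ = 1) (hi : Function.Injective B)
    (h0 : Tendsto (fun n : ℕ => ∫ x, B x ^ n ∂μ) atTop (𝓝 0)) (h : X → ℂ) (hh : Integrable h μ) :
    Tendsto (fun n : ℕ => ∫ x, B x ^ n * h x ∂μ) atTop (𝓝 0) := by
  let p : C(X, ℂ) → Prop := fun g =>
    Tendsto (fun n : ℕ => ∫ x, B x ^ n * g x ∂μ) atTop (𝓝 0)
  have i1 : ∀ (n : ℕ) (g : C(X, ℂ)), Integrable (fun x => B x ^ n * g x) μ :=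
    fun n g => cint μ (B ^ n * g)
  have hq : ∀ f ∈ Algebra.adjoin ℂ (({B} : Set C(X, ℂ)) ∪ star {B}), ∀ g, p g → p (f * g) := by
    intro f hf
    induction hf using Algebra.adjoin_induction with
    | mem f hf =>
      intro g hg
      rcases hf with hf | hf
      · rw [Set.mem_singleton_iff.1 hf]
        have := (tendsto_add_atTop_iff_nat 1).2 hg
        refine this.congr fun n => ?_
        congr 1; funext x; simp [pow_succ, mul_assoc]
      · rw [Set.star_singleton, Set.mem_singleton_iff] at hf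
        rw [hf]
        refine (tendsto_add_atTop_iff_nat 1).1 (Tendsto.congr (fun n => ?_) hg)
        congr 1; funext x
        have : B x * (starRingEnd ℂ) (B x) = 1 := by rw [mul_conj', hB]; simp
        simp only [ContinuousMap.mul_apply, ContinuousMap.star_apply, RCLike.star_def, pow_succ]
        linear_combination (-(B x ^ n * g x)) * this
    | algebraMap c =>
      intro g hg
      have := hg.const_mul c
      rw [mul_zero] at this
      refine this.congr fun n => ?_
      rw [← integral_const_mul]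
      congr 1; funext x; simp; ring
    | add f f' _ _ h1 h2 =>
      intro g hg
      have := (h1 g hg).add (h2 g hg)
      rw [add_zero] at this
      refine this.congr fun n => ?_
      rw [← integral_add (i1 _ _) (i1 _ _)]
      congr 1; funext x; simp; ring
    | mul f f' _ _ h1 h2 =>
      intro g hg
      rw [mul_assoc]
      exact h1 _ (h2 g hg)
  have hc : ∀ g : C(X, ℂ), p g := by
    intro g
    refine approx μ B hB g (cint μ g) fun ε hε => ?_
    have hsep : (StarAlgebra.adjoin ℂ ({B} : Set C(X, ℂ))).SeparatesPoints := by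
      intro x y hxy
      exact ⟨B, ⟨B, StarAlgebra.subset_adjoin ℂ _ rfl, rfl⟩, fun e => hxy (hi e)⟩
    have hcl := ContinuousMap.starSubalgebra_topologicalClosure_eq_top_of_separatesPoints _ hsep
    have hg : g ∈ closure (StarAlgebra.adjoin ℂ ({B} : Set C(X, ℂ)) : Set C(X, ℂ)) := by
      rw [← StarSubalgebra.topologicalClosure_coe, hcl]; trivial
    obtain ⟨f, hf, hd⟩ := Metric.mem_closure_iff.1 hg ε hε
    refine ⟨f, ?_, ?_⟩
    · have := hq f hf 1 (by simpa [p] using h0)
      rwa [mul_one] at this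
    · have : ∫ x, ‖g x - f x‖ ∂μ ≤ ∫ _, ε ∂μ := by
        refine integral_mono (cint μ (g - f)).norm (integrable_const _) fun x => ?_
        have := (g - f).norm_coe_le_norm x
        rw [dist_eq_norm] at hd
        simp only [ContinuousMap.sub_apply] at this
        exact this.trans hd.le
      simpa using this
  refine approx μ B hB h hh fun ε hε => ?_
  obtain ⟨g, hg, -⟩ := hh.exists_boundedContinuous_integral_sub_le hε
  exact ⟨g.toContinuousMap, hc _, hg⟩

noncomputable def MM : C(X, ℂ) →L[ℂ] (Lp ℂ 2 μ →L[ℂ] Lp ℂ 2 μ) :=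
  ((ContinuousLinearMap.mul ℂ ℂ).holderL μ ∞ 2 2).comp (ContinuousMap.toLp ∞ μ ℂ)

lemma MM_coe (f : C(X, ℂ)) (z : Lp ℂ 2 μ) : MM μ f z =ᵐ[μ] fun x => f x * z x := by
  have h1 := (ContinuousLinearMap.mul ℂ ℂ).coeFn_holder (r := 2) (ContinuousMap.toLp ∞ μ ℂ f) z
  filter_upwards [h1, ContinuousMap.coeFn_toLp (p := ∞) μ (𝕜 := ℂ) f] with x h1 h2
  rw [← h2]; exact h1

lemma MM_one : MM μ 1 = 1 := by
  ext1 z
  apply Lp.ext
  filter_upwards [MM_coe μ 1 z] with x h
  simpa using h

lemma MM_mul (f g : C(X, ℂ)) : MM μ (f * g) = MM μ f * MM μ g := by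
  ext1 z
  apply Lp.ext
  filter_upwards [MM_coe μ (f * g) z, MM_coe μ f (MM μ g z), MM_coe μ g z] with x h1 h2 h3
  rw [h1, mul_apply_eq_comp, h2, h3]; simp [mul_assoc]

lemma MM_norm (f : C(X, ℂ)) (hf : ∀ x, ‖f x‖ = 1) : ‖MM μ f‖ ≤ 1 := by
  refine ContinuousLinearMap.opNorm_le_bound _ zero_le_one fun z => ?_
  rw [one_mul]
  apply Lp.norm_le_norm_of_ae_le
  filter_upwards [MM_coe μ f z] with x h
  rw [h, norm_mul, hf, one_mul]

lemma MM_inner (f : C(X, ℂ)) (z w : Lp ℂ 2 μ) :
    inner ℂ (MM μ f z) w = (starRingEnd ℂ) (∫ x, f x * inner ℂ (w x) (z x) ∂μ) := by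
  rw [L2.inner_def, ← integral_conj]
  refine integral_congr_ae ?_
  filter_upwards [MM_coe μ f z] with x h
  rw [h]; simp; ring

end gen

end Pool.Agent.H23.Cog
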