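import Mathlib

set_option autoImplicit false
set_option maxSynthPendingDepth 3
set_option linter.unusedSectionVars false
set_option linter.unusedSimpArgs false
set_option linter.unnecessarySeqFocus false

namespace Pool.Agent.H23.Cut

open Finset

variable {V E : Type*} [Fintype E] [DecidableEq E] [DecidableEq V]

lemma z2 (x : ZMod 2) : x = 0 ∨ x = 1 := by revert x; decide

def p (a : V) : V → ZMod 2 := Pi.single a 1

lemma add_self (φ : V → ZMod 2) : φ + φ = 0 := by
  funext v
  rcases z2 (φ v) with h | h <;> simp [h] <;> decide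

def bd (s t : E → V) (F : E → ZMod 2) : V → ZMod 2 := ∑ e, F e • (p (s e) + p (t e))

lemma bd_add (s t : E → V) (F G : E → ZMod 2) : bd s t (F + G) = bd s t F + bd s t G := by
  simp only [bd, Pi.add_apply, add_smul, sum_add_distrib]

lemma bd_single (s t : E → V) (e : E) : bd s t (Pi.single e 1) = p (s e) + p (t e) := by
  unfold bd
  rw [sum_eq_single e] <;> simp +contextual [Pi.single_apply]

lemma bd_zero (s t : E → V) : bd s t (0 : E → ZMod 2) = 0 := by simp [bd]

noncomputable def W (w : E → ℝ) (F : E → ZMod 2) : ℝ := ∑ e, if F e = 1 then w e else 0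

lemma W_add_sub (w : E → ℝ) (F G : E → ZMod 2) (h : ∀ e, G e = 1 → F e = 1) :
    W w (F + G) = W w F - W w G := by
  unfold W
  rw [← sum_sub_distrib]
  refine sum_congr rfl (fun e _ => ?_)
  have h11 : (1 : ZMod 2) + 1 ≠ 1 := by decide
  have h01 : (0 : ZMod 2) ≠ 1 := by decide
  rcases z2 (G e) with hG | hG
  · simp [hG]
  · simp [hG, h e hG]

lemma W_add_zero (w : E → ℝ) (F Z : E → ZMod 2) (h : ∀ e, Z e = 1 → w e = 0) :
    W w (F + Z) = W w F := by
  unfold W
  refine sum_congr rfl (fun e _ => ?_)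
  rcases z2 (Z e) with hG | hG
  · simp [hG]
  · simp [h e hG]

lemma W_single (w : E → ℝ) (e : E) : W w (Pi.single e 1) = w e := by
  unfold W
  rw [sum_eq_single e] <;> simp +contextual [Pi.single_apply]

lemma W_add_single0 (w : E → ℝ) (F : E → ZMod 2) (e : E) (h : F e = 0) :
    W w (F + Pi.single e 1) = W w F + w e := by
  have h1 := W_add_sub w (F + Pi.single e 1) (Pi.single e 1) (by
    intro e' he'
    by_cases hh : e' = e
    · subst hh; simp [h]
    · simp [hh] at he')
  rw [add_assoc, add_self, add_zero, W_single] at h1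
  linarith

lemma W_add_single1 (w : E → ℝ) (F : E → ZMod 2) (e : E) (h : F e = 1) :
    W w (F + Pi.single e 1) = W w F - w e := by
  rw [W_add_sub w F (Pi.single e 1), W_single]
  intro e' he'
  by_cases hh : e' = e
  · subst hh; exact h
  · simp [hh] at he'

def sw (w : E → ℝ) (C : E → ZMod 2) : E → ℝ := fun e => if C e = 1 then -w e else w e

lemma W_sw (w : E → ℝ) (C F : E → ZMod 2) : W (sw w C) (F + C) = W w F - W w C := by
  unfold W sw
  rw [← sum_sub_distrib]
  refine sum_congr rfl (fun e _ => ?_)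
  rcases z2 (C e) with hC | hC <;> rcases z2 (F e) with hF | hF <;> simp [hC, hF]

def sz (F : E → ZMod 2) : ℕ := (univ.filter (fun e => F e = 1)).card

lemma sz_lt (F : E → ZMod 2) (e : E) (h : F e = 1) : sz (F + Pi.single e 1) < sz F := by
  apply card_lt_card
  rw [ssubset_iff_of_subset]
  · exact ⟨e, by simp [h], by simp [h]⟩
  · intro e' he'
    by_cases hh : e' = e
    · subst hh; simp [h]
    · simpa [hh] using he'

lemma edge_at (s t : E → V) (F : E → ZMod 2) (a b : V) (hab : a ≠ b)
    (h : bd s t F = p a + p b) :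
    ∃ e a', F e = 1 ∧ ((s e = a ∧ t e = a') ∨ (t e = a ∧ s e = a')) ∧
      bd s t (F + Pi.single e 1) = p a' + p b := by
  have h1 : bd s t F a ≠ 0 := by
    rw [h]; simp [p, hab]
  unfold bd at h1
  rw [Finset.sum_apply] at h1
  obtain ⟨e, -, he⟩ := exists_ne_zero_of_sum_ne_zero h1
  have hF : F e = 1 := by
    rcases z2 (F e) with h0 | h0
    · simp [h0] at he
    · exact h0
  by_cases hs : s e = a
  · refine ⟨e, t e, hF, Or.inl ⟨hs, rfl⟩, ?_⟩
    rw [bd_add, bd_single, h, hs]
    have := add_self (p a)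
    calc p a + p b + (p a + p (t e)) = (p a + p a) + (p (t e) + p b) := by abel
      _ = _ := by rw [this, zero_add]
  · by_cases ht : t e = a
    · refine ⟨e, s e, hF, Or.inr ⟨ht, rfl⟩, ?_⟩
      rw [bd_add, bd_single, h, ht]
      have := add_self (p a)
      calc p a + p b + (p (s e) + p a) = (p a + p a) + (p (s e) + p b) := by abel
        _ = _ := by rw [this, zero_add]
    · exfalso
      apply he
      simp [p, Pi.single_apply, Ne.symm hs, Ne.symm ht]

lemma L1 (s t : E → V) (S : Set V) (b : V) (hb : b ∈ S) (n : ℕ) :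
    ∀ (F : E → ZMod 2) (a : V), sz F ≤ n → a ∉ S → bd s t F = p a + p b →
      ∃ (F0 : E → ZMod 2) (b0 c : V) (e0 : E), (∀ e, F0 e = 1 → F e = 1) ∧ b0 ∈ S ∧ c ∉ S ∧
        bd s t F0 = p a + p b0 ∧ F0 e0 = 1 ∧ ((s e0 = c ∧ t e0 = b0) ∨ (t e0 = c ∧ s e0 = b0)) ∧
        ∀ e, F0 e = 1 → e ≠ e0 → s e ∉ S ∧ t e ∉ S := by
  induction n with
  | zero =>
    intro F a hn ha h
    obtain ⟨e, a', hF, -, -⟩ := edge_at s t F a b (fun hh => ha (hh ▸ hb)) h
    have := sz_lt F e hF
    omega
  | succ n ih =>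
    intro F a hn ha h
    obtain ⟨e, a', hF, hends, h'⟩ := edge_at s t F a b (fun hh => ha (hh ▸ hb)) h
    have hbe : p (s e) + p (t e) = p a + p a' := by
      rcases hends with ⟨h1, h2⟩ | ⟨h1, h2⟩
      · rw [h1, h2]
      · rw [h1, h2, add_comm]
    by_cases ha' : a' ∈ S
    · refine ⟨Pi.single e 1, a', a, e, ?_, ha', ha, by rw [bd_single, hbe], by simp, hends, ?_⟩
      · intro e' he'
        by_cases hh : e' = e
        · subst hh; exact hF
        · simp [hh] at he'
      · intro e' he' hh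
        simp [hh] at he'
    · obtain ⟨F0, b0, c, e0, h1, h2, h2', h3, h4, h5, h6⟩ :=
        ih (F + Pi.single e 1) a' (by have := sz_lt F e hF; omega) ha' h'
      have hF0 : F0 e = 0 := by
        rcases z2 (F0 e) with h0 | h0
        · exact h0
        · have := h1 e h0
          simp [hF] at this
      have hne : e0 ≠ e := by
        rintro rfl
        rw [hF0] at h4
        exact absurd h4 (by decide)
      refine ⟨F0 + Pi.single e 1, b0, c, e0, ?_, h2, h2', ?_, by simp [hne, h4], h5, ?_⟩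
      · intro e' he'
        by_cases hh : e' = e
        · subst hh; exact hF
        · have h7 : F0 e' = 1 := by simpa [hh] using he'
          simpa [hh] using h1 e' h7
      · rw [bd_add, bd_single, h3, hbe]
        have := add_self (p a')
        calc p a' + p b0 + (p a + p a') = (p a' + p a') + (p a + p b0) := by abel
          _ = _ := by rw [this, zero_add]
      · intro e' he' hh0
        by_cases hh : e' = e
        · subst hh
          rcases hends with ⟨h1, h2⟩ | ⟨h1, h2⟩
          · rw [h1, h2]; exact ⟨ha, ha'⟩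
          · rw [h1, h2]; exact ⟨ha', ha⟩
        · exact h6 e' (by simpa [hh] using he') hh0

lemma L2 (s t : E → V) (n : ℕ) :
    ∀ (F : E → ZMod 2) (a b : V), sz F ≤ n → bd s t F = p a + p b →
      ∃ σ : E → ℝ, (∀ e, σ e = 1 ∨ σ e = -1) ∧
        ∀ g : V → ℝ, W (fun e => σ e * (g (s e) - g (t e))) F = g a - g b := by
  have key : ∀ (F : E → ZMod 2) (e : E) (σ : E → ℝ) (r : ℝ) (g : V → ℝ), F e = 1 →
      W (fun e' => Function.update σ e r e' * (g (s e') - g (t e'))) F =
        W (fun e' => σ e' * (g (s e') - g (t e'))) (F + Pi.single e 1) + r * (g (s e) - g (t e)) := by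
    intro F e σ r g hF
    have h1 := W_add_single1 (fun e' => Function.update σ e r e' * (g (s e') - g (t e'))) F e hF
    have h2 : W (fun e' => Function.update σ e r e' * (g (s e') - g (t e'))) (F + Pi.single e 1)
        = W (fun e' => σ e' * (g (s e') - g (t e'))) (F + Pi.single e 1) := by
      unfold W
      refine sum_congr rfl (fun e' _ => ?_)
      by_cases hh : e' = e
      · subst hh; simp [hF]
      · simp [hh]
    simp only [Function.update_self] at h1
    linarith
  have upd : ∀ (σ : E → ℝ) (e : E) (r : ℝ), (∀ e, σ e = 1 ∨ σ e = -1) → (r = 1 ∨ r = -1) →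
      ∀ e', Function.update σ e r e' = 1 ∨ Function.update σ e r e' = -1 := by
    intro σ e r h1 h2 e'
    by_cases hh : e' = e
    · subst hh; simpa using h2
    · simpa [hh] using h1 e'
  induction n with
  | zero =>
    intro F a b hn h
    by_cases hab : a = b
    · refine ⟨fun _ => 1, fun _ => Or.inl rfl, fun g => ?_⟩
      have h0 : ∀ e, F e ≠ 1 := by
        intro e he
        have := sz_lt F e he
        omega
      simp [W, h0, hab]
    · obtain ⟨e, a', hF, -, -⟩ := edge_at s t F a b hab h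
      have := sz_lt F e hF
      omega
  | succ n ih =>
    intro F a b hn h
    by_cases hab : a = b
    · by_cases h0 : ∀ e, F e ≠ 1
      · exact ⟨fun _ => 1, fun _ => Or.inl rfl, fun g => by simp [W, h0, hab]⟩
      · push Not at h0
        obtain ⟨e, hF⟩ := h0
        obtain ⟨σ, hσ, hg⟩ := ih (F + Pi.single e 1) (s e) (t e) (by have := sz_lt F e hF; omega)
          (by rw [bd_add, bd_single, h, hab, add_self, zero_add])
        refine ⟨Function.update σ e (-1), upd σ e _ hσ (Or.inr rfl), fun g => ?_⟩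
        rw [key F e σ _ g hF, hg, hab]; ring
    · obtain ⟨e, a', hF, hends, h'⟩ := edge_at s t F a b hab h
      obtain ⟨σ, hσ, hg⟩ := ih (F + Pi.single e 1) a' b (by have := sz_lt F e hF; omega) h'
      rcases hends with ⟨h1, h2⟩ | ⟨h1, h2⟩
      · refine ⟨Function.update σ e 1, upd σ e _ hσ (Or.inl rfl), fun g => ?_⟩
        rw [key F e σ _ g hF, hg, h1, h2]; ring
      · refine ⟨Function.update σ e (-1), upd σ e _ hσ (Or.inr rfl), fun g => ?_⟩
        rw [key F e σ _ g hF, hg, h1, h2]; ring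

def Cons (s t : E → V) (w : E → ℝ) : Prop := ∀ Z, bd s t Z = 0 → 0 ≤ W w Z

def cross (s t : E → V) (S : Set V) (e : E) : Prop := ¬ (s e ∈ S ↔ t e ∈ S)

lemma pp (a b c : V) : p a + p b + (p b + p c) = p a + p c := by
  calc p a + p b + (p b + p c) = (p b + p b) + (p a + p c) := by abel
    _ = _ := by rw [add_self, zero_add]

lemma LA (s t : E → V) (w : E → ℝ) (hw : Cons s t w) (F : E → ZMod 2) (a b : V)
    (hF : bd s t F = p a + p b)
    (hmin : ∀ F' a' b', bd s t F' = p a' + p b' → W w F ≤ W w F') (hneg : W w F < 0)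
    (S : Set V) (hS : ∀ v, v ∈ S ↔ ∃ Z, (∀ e, Z e = 1 → w e = 0) ∧ bd s t Z = p b + p v) :
    (∀ e, cross s t S e → w e ≠ 0) ∧
      ∃ e0, cross s t S e0 ∧ w e0 < 0 ∧ ∀ e, cross s t S e → w e < 0 → e = e0 := by
  have hz : ∀ (Z Z' : E → ZMod 2), (∀ e, Z e = 1 → w e = 0) → (∀ e, Z' e = 1 → w e = 0) →
      ∀ e, (Z + Z') e = 1 → w e = 0 := by
    intro Z Z' h1 h2 e he
    rcases z2 (Z e) with h | h
    · exact h2 e (by simpa [h] using he)
    · exact h1 e h
  have hstep : ∀ e, w e = 0 → ∀ u v, p (s e) + p (t e) = p u + p v → u ∈ S → v ∈ S := by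
    intro e he u v huv hu
    obtain ⟨Z, hZ, hb⟩ := (hS u).1 hu
    refine (hS v).2 ⟨Z + Pi.single e 1, hz _ _ hZ ?_, by rw [bd_add, bd_single, hb, huv, pp]⟩
    intro e' he'
    by_cases hh : e' = e
    · subst hh; exact he
    · simp [hh] at he'
  have hc0 : ∀ e, cross s t S e → w e ≠ 0 := fun e hc he =>
    hc ⟨hstep e he _ _ rfl, hstep e he _ _ (add_comm _ _)⟩
  refine ⟨hc0, ?_⟩
  have hb : b ∈ S := (hS b).2 ⟨0, by simp, by rw [bd_zero, add_self]⟩
  have ha : a ∉ S := by
    intro ha
    obtain ⟨Z, hZ, hbd⟩ := (hS a).1 ha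
    have := hw (F + Z) (by rw [bd_add, hF, hbd, pp, add_self])
    rw [W_add_zero w F Z hZ] at this
    linarith
  obtain ⟨F0, b0, c, e0, h1, h2, h2', h3, h4, h5, h6⟩ := L1 s t S b hb _ F a le_rfl ha hF
  obtain ⟨Z0, hZ0, hbd0⟩ := (hS b0).1 h2
  have hF0 : W w F0 ≤ W w F := by
    have := hw (F + F0 + Z0) (by
      rw [bd_add, bd_add, hF, h3, hbd0, add_comm (p a) (p b), pp, add_self])
    rw [W_add_zero w _ Z0 hZ0, W_add_sub w F F0 h1] at this
    linarith
  have hbe0 : p (s e0) + p (t e0) = p b0 + p c := by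
    rcases h5 with ⟨h7, h8⟩ | ⟨h7, h8⟩
    · rw [h7, h8, add_comm]
    · rw [h7, h8]
  have hcr : cross s t S e0 := by
    rcases h5 with ⟨h7, h8⟩ | ⟨h7, h8⟩ <;> simp [cross, h7, h8, h2, h2']
  refine ⟨e0, hcr, ?_, ?_⟩
  · have := hmin (F0 + Pi.single e0 1) a c (by rw [bd_add, bd_single, h3, hbe0, pp])
    rw [W_add_single1 w F0 e0 h4] at this
    exact lt_of_le_of_ne (by linarith) (hc0 e0 hcr)
  · intro e hc he
    by_contra hne
    have hF0e : F0 e = 0 := by
      rcases z2 (F0 e) with h | h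
      · exact h
      · have := h6 e h hne
        exact absurd (by simp [this.1, this.2]) hc
    obtain ⟨u, v, hu, huv⟩ : ∃ u v, u ∈ S ∧ p (s e) + p (t e) = p u + p v := by
      by_cases hs : s e ∈ S
      · exact ⟨_, _, hs, rfl⟩
      · refine ⟨t e, s e, ?_, add_comm _ _⟩
        by_contra ht
        exact hc (by simp [hs, ht])
    obtain ⟨Z, hZ, hbd⟩ := (hS u).1 hu
    have := hmin (F0 + Pi.single e 1 + (Z0 + Z)) a v (by
      rw [bd_add, bd_add, bd_add, bd_single, h3, huv, hbd0, hbd, add_comm (p b) (p b0), pp,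
        add_right_comm, pp, pp])
    rw [W_add_zero w _ _ (hz _ _ hZ0 hZ), W_add_single0 w F0 e hF0e] at this
    linarith

end Pool.Agent.H23.Cut
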