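import Pool.Agent.H23.Cut1

set_option autoImplicit false
set_option maxSynthPendingDepth 3
set_option linter.unusedSectionVars false
set_option linter.unusedSimpArgs false

namespace Pool.Agent.H23.Cut

open Finset Filter Topology

variable {V E : Type*} [Fintype E] [DecidableEq E] [DecidableEq V]

open Classical in
noncomputable def dec (s t : E → V) (S : Set V) (w : E → ℝ) : E → ℝ :=
  fun e => if cross s t S e then (if w e < 0 then 1 else -1) else 0

lemma W_lin (w u : E → ℝ) (η : ℝ) (F : E → ZMod 2) :
    W (fun e => w e + η * u e) F = W w F + η * W u F := by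
  unfold W
  rw [mul_sum, ← sum_add_distrib]
  refine sum_congr rfl (fun e _ => ?_)
  split_ifs <;> simp

lemma LB (s t : E → V) (w : E → ℝ) (hw : Cons s t w) (e1 : E) (he1 : w e1 < 0) :
    ∃ (S : Set V) (e0 : E) (η : ℝ), 0 < η ∧ cross s t S e0 ∧ w e0 < 0 ∧
      (∀ e, cross s t S e → w e < 0 → e = e0) ∧ (∀ e, cross s t S e → η ≤ |w e|) ∧
      Cons s t (fun e => w e + η * dec s t S w e) := by
  classical
  obtain ⟨F, ⟨a, b, hF⟩, hmin⟩ := Set.exists_min_image
    {F : E → ZMod 2 | ∃ a b, bd s t F = p a + p b} (W w) (Set.toFinite _)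
    ⟨Pi.single e1 1, s e1, t e1, bd_single s t e1⟩
  have hmin' : ∀ F' a' b', bd s t F' = p a' + p b' → W w F ≤ W w F' :=
    fun F' a' b' h => hmin F' ⟨a', b', h⟩
  have hneg : W w F < 0 := by
    have := hmin' _ _ _ (bd_single s t e1)
    rw [W_single] at this
    linarith
  let S : Set V := {v | ∃ Z, (∀ e, Z e = 1 → w e = 0) ∧ bd s t Z = p b + p v}
  obtain ⟨hc0, e0, hcr, hn0, huniq⟩ := LA s t w hw F a b hF hmin' hneg S (fun v => Iff.rfl)
  have hzero : ∀ Z, bd s t Z = 0 → W w Z = 0 → 0 ≤ W (dec s t S w) Z := by
    intro Z hZ h0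
    have hback : ∀ F', W (sw w Z) F' = W w (F' + Z) := by
      intro F'
      have := W_sw w Z (F' + Z)
      rwa [add_assoc, add_self, add_zero, h0, sub_zero] at this
    have hsw0 : ∀ e, sw w Z e = 0 ↔ w e = 0 := by
      intro e; unfold sw; split_ifs <;> simp
    obtain ⟨-, e2, hcr2, hn2, huniq2⟩ := LA s t (sw w Z)
      (fun Z' hZ' => by rw [hback]; exact hw _ (by rw [bd_add, hZ, hZ', add_zero]))
      (F + Z) a b (by rw [bd_add, hZ, hF, add_zero])
      (fun F' a' b' h => by
        rw [hback, hback, add_assoc, add_self, add_zero]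
        exact hmin' _ a' b' (by rw [bd_add, hZ, h, add_zero]))
      (by rw [hback, add_assoc, add_self, add_zero]; exact hneg) S
      (fun v => by simp only [hsw0]; exact Iff.rfl)
    have hpos : ∀ e, cross s t S e → ¬ w e < 0 → Z e = 1 → e = e2 := by
      intro e hc hn hZe
      refine huniq2 e hc ?_
      have := lt_of_le_of_ne (not_lt.1 hn) (hc0 e hc).symm
      simp [sw, hZe, this]
    rcases z2 (Z e0) with hZ0 | hZ0
    · have h02 : e0 = e2 := huniq2 e0 hcr (by simp [sw, hZ0, hn0])
      refine sum_nonneg (fun e _ => ?_)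
      unfold dec
      split_ifs with h1 h2 h3
      · norm_num
      · have := hpos e h2 h3 h1
        rw [← h02] at this
        subst this
        exact absurd hn0 h3
      · exact le_rfl
      · exact le_rfl
    · have hne : e2 ≠ e0 := by
        rintro rfl
        simp [sw, hZ0] at hn2
        linarith
      have : ∑ e, ((if e = e0 then (1 : ℝ) else 0) - (if e = e2 then 1 else 0))
          ≤ W (dec s t S w) Z := by
        refine sum_le_sum (fun e _ => ?_)
        unfold dec
        by_cases h0 : e = e0
        · subst h0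
          simp [hZ0, hcr, hn0, hne.symm]
        · by_cases h2 : e = e2
          · simp only [h0, if_pos h2, if_false]
            split_ifs <;> norm_num
          · simp only [h0, h2, if_false, sub_zero]
            split_ifs with h1 h3 h4
            · norm_num
            · exact absurd (hpos e h3 h4 h1) h2
            · exact le_rfl
            · exact le_rfl
      simpa [sum_sub_distrib] using this
  have ev1 : ∀ᶠ η in 𝓝[>] (0 : ℝ), ∀ e, cross s t S e → η ≤ |w e| := by
    rw [eventually_all]
    intro e
    by_cases hc : cross s t S e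
    · have : ∀ᶠ η in 𝓝 (0 : ℝ), η ≤ |w e| := eventually_le_nhds (abs_pos.2 (hc0 e hc))
      exact (this.filter_mono nhdsWithin_le_nhds).mono (fun η h _ => h)
    · exact Eventually.of_forall (fun η h => absurd h hc)
  have ev2 : ∀ᶠ η in 𝓝[>] (0 : ℝ), ∀ Z, bd s t Z = 0 →
      0 ≤ W (fun e => w e + η * dec s t S w e) Z := by
    rw [eventually_all]
    intro Z
    by_cases hZ : bd s t Z = 0
    · rcases (hw Z hZ).eq_or_lt with h0 | h0
      · filter_upwards [self_mem_nhdsWithin] with η hη _
        rw [W_lin, ← h0, zero_add]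
        exact mul_nonneg (le_of_lt hη) (hzero Z hZ h0.symm)
      · have hc : Continuous (fun η : ℝ => W w Z + η * W (dec s t S w) Z) := by fun_prop
        have : ∀ᶠ η in 𝓝 (0 : ℝ), 0 < W w Z + η * W (dec s t S w) Z :=
          (hc.tendsto 0).eventually (lt_mem_nhds (by simpa using h0))
        filter_upwards [this.filter_mono nhdsWithin_le_nhds] with η hη _
        rw [W_lin]; exact hη.le
    · exact Eventually.of_forall (fun η h => absurd h hZ)
  obtain ⟨η, h1, h2, h3⟩ := (ev1.and (ev2.and self_mem_nhdsWithin)).exists
  exact ⟨S, e0, η, h3, hcr, hn0, huniq, h1, h2⟩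

def St (s t : E → V) (w0 : E → ℝ) : Set ((E → V → ℝ) × (E → ℝ)) :=
  {q | (∀ e, 0 ≤ w0 e → 0 ≤ q.2 e ∧ ∑ i, |q.1 i (s e) - q.1 i (t e)| + q.2 e ≤ w0 e) ∧
    (∀ e, w0 e < 0 → q.2 e ≤ 0 ∧ ∀ i, q.1 i (s e) - q.1 i (t e) = if i = e then q.2 e - w0 e else 0) ∧
    (∀ i v, |q.1 i v| ≤ if w0 i < 0 then q.2 i - w0 i else 0) ∧
    (∀ e, |q.2 e| ≤ |w0 e|) ∧ ∀ Z, bd s t Z = 0 → 0 ≤ W q.2 Z}

lemma St_closed (s t : E → V) (w0 : E → ℝ) : IsClosed (St s t w0) := by
  unfold St
  simp only [Set.ofPred_and, Set.ofPred_forall]
  refine IsClosed.inter ?_ (IsClosed.inter ?_ (IsClosed.inter ?_ (IsClosed.inter ?_ ?_)))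
  · exact isClosed_iInter fun e => isClosed_iInter fun _ =>
      (isClosed_le (by fun_prop) (by fun_prop)).inter (isClosed_le (by fun_prop) (by fun_prop))
  · refine isClosed_iInter fun e => isClosed_iInter fun _ =>
      (isClosed_le (by fun_prop) (by fun_prop)).inter (isClosed_iInter fun i => ?_)
    refine isClosed_eq (by fun_prop) ?_
    split_ifs <;> fun_prop
  · refine isClosed_iInter fun i => isClosed_iInter fun v => isClosed_le (by fun_prop) ?_
    split_ifs <;> fun_prop
  · exact isClosed_iInter fun e => isClosed_le (by fun_prop) (by fun_prop)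
  · refine isClosed_iInter fun Z => isClosed_iInter fun _ => isClosed_le (by fun_prop) ?_
    unfold W
    refine continuous_finsetSum _ (fun e _ => ?_)
    split_ifs <;> fun_prop

lemma St_compact (s t : E → V) (w0 : E → ℝ) : IsCompact (St s t w0) := by
  have hK : IsCompact ((Set.pi Set.univ fun i : E => Set.pi Set.univ fun _ : V =>
      Set.Icc (-|w0 i|) |w0 i|) ×ˢ (Set.pi Set.univ fun e : E => Set.Icc (-|w0 e|) |w0 e|)) :=
    (isCompact_univ_pi fun i => isCompact_univ_pi fun _ => isCompact_Icc).prod
      (isCompact_univ_pi fun _ => isCompact_Icc)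
  refine hK.of_isClosed_subset (St_closed s t w0) ?_
  rintro q ⟨-, h2, h3, h4, -⟩
  refine ⟨fun i _ v _ => abs_le.1 ((h3 i v).trans ?_), fun e _ => abs_le.1 (h4 e)⟩
  split_ifs with h
  · have := (h2 i h).1
    rw [abs_of_neg h]; linarith
  · exact abs_nonneg _

theorem packing (s t : E → V) (w0 : E → ℝ) (hw : Cons s t w0) :
    ∃ f : E → V → ℝ, (∀ e, 0 ≤ w0 e → ∑ i, |f i (s e) - f i (t e)| ≤ w0 e) ∧
      (∀ e, w0 e < 0 → ∀ i, f i (s e) - f i (t e) = if i = e then -w0 e else 0) ∧
      ∀ i v, |f i v| ≤ |w0 i| := by
  classical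
  have hne : (St s t w0).Nonempty := by
    refine ⟨(0, w0), fun e he => ⟨he, by simp⟩, fun e he => ⟨he.le, by simp⟩, by simp, by simp, hw⟩
  obtain ⟨⟨f, w⟩, hq, hmax⟩ := (St_compact s t w0).exists_isMaxOn hne
    (f := fun q => ∑ e, if w0 e < 0 then q.2 e else 0) (by
      refine Continuous.continuousOn (continuous_finsetSum _ (fun e _ => ?_))
      split_ifs <;> fun_prop)
  obtain ⟨h1, h2, h3, h4, h5⟩ := hq
  simp only at h1 h2 h3 h4 h5
  have hall : ∀ e, 0 ≤ w e := by
    by_contra hc
    push Not at hc
    obtain ⟨e1, he1⟩ := hc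
    obtain ⟨S, e0, η, hη, hcr, hn0, huniq, hle, hcons⟩ := LB s t w h5 e1 he1
    have hw0 : w0 e0 < 0 := by
      by_contra hh
      exact absurd (h1 e0 (not_lt.1 hh)).1 (not_le.2 hn0)
    let χ : V → ℝ := fun v => if v ∈ S then (if s e0 ∈ S then η else -η) else 0
    have hχ0 : ∀ e, ¬ cross s t S e → χ (s e) - χ (t e) = 0 := by
      intro e he
      have := not_not.1 he
      simp only [χ, this, sub_self]
    have hχ1 : ∀ e, cross s t S e → |χ (s e) - χ (t e)| = η := by
      intro e he
      unfold cross at he
      by_cases hs : s e ∈ S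
      · have ht : t e ∉ S := fun ht => he ⟨fun _ => ht, fun _ => hs⟩
        simp only [χ, hs, ht, if_true, if_false]
        split_ifs <;> simp [abs_of_pos hη]
      · have ht : t e ∈ S := by
          by_contra ht
          exact he ⟨fun h => absurd h hs, fun h => absurd h ht⟩
        simp only [χ, hs, ht, if_true, if_false]
        split_ifs <;> simp [abs_of_pos hη]
    have hχ2 : χ (s e0) - χ (t e0) = η := by
      unfold cross at hcr
      by_cases hs : s e0 ∈ S
      · have ht : t e0 ∉ S := fun ht => hcr ⟨fun _ => ht, fun _ => hs⟩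
        simp [χ, hs, ht]
      · have ht : t e0 ∈ S := by
          by_contra ht
          exact hcr ⟨fun h => absurd h hs, fun h => absurd h ht⟩
        simp [χ, hs, ht]
    have hχ3 : ∀ v, |χ v| ≤ η := by
      intro v
      simp only [χ]
      split_ifs <;> simp [abs_of_pos hη, hη.le]
    have hncr : ∀ e, w0 e < 0 → e ≠ e0 → ¬ cross s t S e := by
      intro e he hne hc
      have h6 := hle e hc
      have h7 := (h2 e he).1
      refine hne (huniq e hc (lt_of_le_of_ne h7 ?_))
      intro h8
      rw [h8, abs_zero] at h6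
      linarith
    have hd0 : dec s t S w e0 = 1 := by simp [dec, hcr, hn0]
    have hdn : ∀ e, ¬ cross s t S e → dec s t S w e = 0 := fun e he => by simp [dec, he]
    have hmem : ((fun i v => f i v + if i = e0 then χ v else 0),
        (fun e => w e + η * dec s t S w e)) ∈ St s t w0 := by
      refine ⟨fun e he => ?_, fun e he => ?_, fun i v => ?_, fun e => ?_, hcons⟩
      · obtain ⟨h6, h7⟩ := h1 e he
        have hsum : ∑ i, |(f i (s e) + if i = e0 then χ (s e) else 0) -
            (f i (t e) + if i = e0 then χ (t e) else 0)|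
            ≤ ∑ i, |f i (s e) - f i (t e)| + |χ (s e) - χ (t e)| := by
          have : |χ (s e) - χ (t e)| = ∑ i, if i = e0 then |χ (s e) - χ (t e)| else 0 := by simp
          rw [this, ← sum_add_distrib]
          refine sum_le_sum (fun i _ => ?_)
          split_ifs
          · refine le_trans (le_of_eq ?_) (abs_add_le _ _)
            congr 1; ring
          · simp
        by_cases hc : cross s t S e
        · have h8 := hle e hc
          rw [abs_of_nonneg h6] at h8
          have hd : dec s t S w e = -1 := by simp [dec, hc, not_lt.2 h6]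
          rw [hχ1 e hc] at hsum
          simp only [hd]
          constructor <;> linarith
        · rw [hχ0 e hc] at hsum
          simp only [hdn e hc]
          simp only [abs_zero] at hsum
          constructor <;> linarith
      · obtain ⟨h6, h7⟩ := h2 e he
        by_cases h0 : e = e0
        · subst h0
          have h8 := hle e hcr
          rw [abs_of_neg hn0] at h8
          simp only [hd0]
          refine ⟨by linarith, fun i => ?_⟩
          have := h7 i
          split_ifs at this ⊢ <;> linarith
        · have hc := hncr e he h0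
          simp only [hdn e hc]
          refine ⟨by linarith, fun i => ?_⟩
          have h8 := h7 i
          have h9 := hχ0 e hc
          split_ifs at h8 ⊢ <;> linarith
      · have h6 := h3 i v
        by_cases h0 : i = e0
        · subst h0
          simp only [hd0, if_true, hw0] at h6 ⊢
          have := abs_add_le (f i v) (χ v)
          have := hχ3 v
          linarith
        · simp only [h0, if_false, add_zero]
          split_ifs at h6 ⊢ with h7
          · rw [hdn i (hncr i h7 h0)]; linarith
          · exact h6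
      · refine le_trans ?_ (h4 e)
        by_cases hc : cross s t S e
        · have h8 := hle e hc
          by_cases hn : w e < 0
          · have hd : dec s t S w e = 1 := by simp [dec, hc, hn]
            rw [abs_of_neg hn] at h8
            simp only [hd]
            rw [abs_of_neg hn, abs_le]; constructor <;> linarith
          · have hd : dec s t S w e = -1 := by simp [dec, hc, hn]
            rw [abs_of_nonneg (not_lt.1 hn)] at h8
            simp only [hd]
            rw [abs_of_nonneg (not_lt.1 hn), abs_le]; constructor <;> linarith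
        · simp [hdn e hc]
    have hlt : (∑ e, if w0 e < 0 then w e else 0) <
        ∑ e, if w0 e < 0 then w e + η * dec s t S w e else 0 := by
      refine sum_lt_sum (fun e _ => ?_) ⟨e0, mem_univ _, by simp [hw0, hd0, hη]⟩
      split_ifs with he
      · by_cases h0 : e = e0
        · subst h0; rw [hd0]; linarith
        · rw [hdn e (hncr e he h0)]; linarith
      · exact le_rfl
    exact absurd (hmax hmem) (not_le.2 hlt)
  refine ⟨f, fun e he => by have := (h1 e he).2; have := hall e; linarith, fun e he i => ?_,
    fun i v => ?_⟩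
  · have h6 : w e = 0 := le_antisymm (h2 e he).1 (hall e)
    rw [(h2 e he).2 i, h6, zero_sub]
  · refine (h3 i v).trans ?_
    split_ifs with h
    · have := (h2 i h).1
      rw [abs_of_neg h]; linarith
    · exact abs_nonneg _

end Pool.Agent.H23.Cut
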