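import Mathlib

set_option autoImplicit false
set_option maxSynthPendingDepth 3

namespace Pool.Agent.H23.Cyc
open Finset

variable {W V : Type} [Fintype W] [DecidableEq W]

def at' {k : ℕ} (P : Fin (k + 1) → W) (i : ℕ) : W := P (Fin.ofNat (k + 1) i)

def mk (k : ℕ) (x : ℕ → W) : Fin (k + 1) → W := fun i => x i.val

omit [Fintype W] [DecidableEq W] in
lemma at_mk (k : ℕ) (x : ℕ → W) {i : ℕ} (h : i ≤ k) : at' (mk k x) i = x i := by
  simp [at', mk, Nat.mod_eq_of_lt (Nat.lt_succ_of_le h)]

omit [Fintype W] [DecidableEq W] in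
lemma ext_at {k : ℕ} {P Q : Fin (k + 1) → W} (h : ∀ i ≤ k, at' P i = at' Q i) : P = Q := by
  funext i
  have := h i.val (Nat.le_of_lt_succ i.isLt)
  simpa [at'] using this

variable (adj : W → W → Prop) [DecidableRel adj]

def walks (k : ℕ) : Finset (Fin (k + 1) → W) :=
  univ.filter fun P => ∀ i < k, adj (at' P i) (at' P (i + 1))

def wk (k : ℕ) (u v : W) : Finset (Fin (k + 1) → W) :=
  (walks adj k).filter fun P => (at' P 0, at' P k) = (u, v)

def h (k : ℕ) : ℕ := ∑ e : W × W, (wk adj k e.1 e.2).card ^ 2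

omit [DecidableEq W] in
lemma mem_walks {k : ℕ} {P : Fin (k + 1) → W} :
    P ∈ walks adj k ↔ ∀ i < k, adj (at' P i) (at' P (i + 1)) := by simp [walks]

lemma mem_wk {k : ℕ} {u v : W} {P : Fin (k + 1) → W} :
    P ∈ wk adj k u v ↔ P ∈ walks adj k ∧ at' P 0 = u ∧ at' P k = v := by simp [wk]

lemma walks_card (N : ℕ) (hN : ∀ w, N ≤ (univ.filter (adj w)).card) (k : ℕ) :
    Fintype.card W * N ^ k ≤ (walks adj k).card := by
  induction k with
  | zero =>
    simp [walks]
  | succ k ih =>
    have h1 : ((walks adj k).sigma fun P => univ.filter (adj (at' P k))).card ≤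
        (walks adj (k + 1)).card := by
      refine card_le_card_of_injOn
        (fun e => mk (k + 1) fun i => if i ≤ k then at' e.1 i else e.2) ?_ ?_
      · rintro ⟨P, w⟩ he
        simp only [coe_sigma, Set.mem_sigma_iff, mem_coe, mem_filter, mem_univ, true_and] at he
        rw [mem_coe, mem_walks]
        intro i hi
        rw [at_mk _ _ (by omega), at_mk _ _ (by omega), if_pos (by omega)]
        by_cases e : i = k
        · rw [if_neg (by omega), e]; exact he.2
        · rw [if_pos (by omega)]; exact (mem_walks adj).mp he.1 i (by omega)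
      · rintro ⟨P, w⟩ _ ⟨Q, v⟩ _ he
        have he' : ∀ i ≤ k + 1, (if i ≤ k then at' P i else w) = if i ≤ k then at' Q i else v :=
          fun i hi => by
            have := congrArg (fun R => at' R i) he
            simpa only [at_mk _ _ hi] using this
        have e1 : P = Q := ext_at fun i hi => by simpa [hi] using he' i (by omega)
        have e2 : w = v := by simpa using he' (k + 1) le_rfl
        rw [e1, e2]
    rw [card_sigma] at h1
    have h2 : (walks adj k).card * N ≤ ∑ P ∈ walks adj k, (univ.filter (adj (at' P k))).card := by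
      rw [← smul_eq_mul]
      exact card_nsmul_le_sum _ _ _ fun P _ => hN _
    calc Fintype.card W * N ^ (k + 1) = Fintype.card W * N ^ k * N := by ring
      _ ≤ (walks adj k).card * N := Nat.mul_le_mul_right _ ih
      _ ≤ _ := h2.trans h1

lemma h_lower [Nonempty W] (N : ℕ) (hN : ∀ w, N ≤ (univ.filter (adj w)).card) (k : ℕ) :
    N ^ (2 * k) ≤ h adj k := by
  have h1 : (walks adj k).card = ∑ e : W × W, (wk adj k e.1 e.2).card :=
    card_eq_sum_card_fiberwise (f := fun P => (at' P 0, at' P k)) fun _ _ => mem_coe.mpr (mem_univ _)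
  have h2 := sq_sum_le_card_mul_sum_sq (s := (univ : Finset (W × W)))
    (f := fun e => (wk adj k e.1 e.2).card)
  rw [← h1, card_univ, Fintype.card_prod] at h2
  have h3 := Nat.pow_le_pow_left (walks_card adj N hN k) 2
  have h4 : Fintype.card W * Fintype.card W * N ^ (2 * k) ≤
      Fintype.card W * Fintype.card W * h adj k := by
    calc _ = (Fintype.card W * N ^ k) ^ 2 := by ring
      _ ≤ _ := h3.trans h2
  exact Nat.le_of_mul_le_mul_left h4 (Nat.mul_pos Fintype.card_pos Fintype.card_pos)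

lemma h_one (N : ℕ) (hN : ∀ w, (univ.filter (adj w)).card ≤ N) :
    h adj 1 ≤ Fintype.card W * N := by
  have h1 : ∀ u v, (wk adj 1 u v).card ^ 2 ≤ if adj u v then 1 else 0 := by
    intro u v
    split_ifs with e
    · have : (wk adj 1 u v).card ≤ 1 := card_le_one.mpr fun P hP Q hQ => by
        rw [mem_wk] at hP hQ
        refine ext_at fun i hi => ?_
        interval_cases i
        · rw [hP.2.1, hQ.2.1]
        · rw [hP.2.2, hQ.2.2]
      nlinarith
    · have : wk adj 1 u v = ∅ := eq_empty_of_forall_notMem fun P hP => by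
        rw [mem_wk, mem_walks] at hP
        have := hP.1 0 (by norm_num)
        rw [hP.2.1, zero_add, hP.2.2] at this
        exact e this
      simp [this]
  calc h adj 1 ≤ ∑ e : W × W, if adj e.1 e.2 then 1 else 0 := sum_le_sum fun e _ => h1 _ _
    _ = ∑ u : W, (univ.filter (adj u)).card := by
      rw [Fintype.sum_prod_type]
      exact sum_congr rfl fun u _ => by rw [card_filter]
    _ ≤ _ := by
      rw [← smul_eq_mul, ← card_univ]
      exact sum_le_card_nsmul _ _ _ fun u _ => hN u

variable [DecidableEq V] (π : W → V)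

/-- degenerate closed walks, cut into two pieces -/
def T (l : ℕ) : Finset ((Fin (l + 1 + 1) → W) × (Fin (l + 1) → W)) :=
  (walks adj (l + 1) ×ˢ walks adj l).filter fun e => at' e.1 (l + 1) = at' e.2 0 ∧
    adj (at' e.1 0) (at' e.2 l) ∧ ∃ j < l + 1, π (at' e.2 l) = π (at' e.1 j)

lemma T_bound (N : ℕ) (hN : ∀ w, (univ.filter (adj w)).card ≤ N) (hs : ∀ u v, adj u v → adj v u)
    (hπ : ∀ w u v, adj w u → adj w v → π u = π v → u = v) (l : ℕ) :
    (T adj π l).card ^ 2 ≤ (N * h adj l) * ((l + 1) * h adj (l + 1)) := by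
  let S : Finset (W × W × W) := univ.filter fun e => adj e.2.1 e.1
  let q : W × W × W → ℕ := fun e =>
    ((wk adj (l + 1) e.2.1 e.2.2).filter fun Q => ∃ j < l + 1, π e.1 = π (at' Q j)).card
  have h1 : (T adj π l).card ≤ ∑ e ∈ S, (wk adj l e.2.2 e.1).card * q e := by
    rw [card_eq_sum_card_fiberwise (f := fun e => (at' e.2 l, at' e.1 0, at' e.2 0)) (t := S)]
    · refine sum_le_sum fun e _ => ?_
      rw [mul_comm, ← card_product]
      refine card_le_card fun p hp => ?_
      simp only [T, mem_filter, mem_product] at hp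
      obtain ⟨⟨⟨a1, a2⟩, a3, a4, a5⟩, rfl⟩ := hp
      simp only [mem_product, mem_filter, mem_wk]
      exact ⟨⟨⟨a1, trivial, a3⟩, a5⟩, a2, trivial, trivial⟩
    · intro p hp
      simp only [T, coe_filter, Set.mem_ofPred_eq] at hp
      simp only [S, coe_filter, mem_univ, true_and, Set.mem_ofPred_eq]
      exact hp.2.2.1
  have h2 := sum_mul_sq_le_sq_mul_sq S (fun e => (wk adj l e.2.2 e.1).card) q
  have h3 : ∑ e ∈ S, (wk adj l e.2.2 e.1).card ^ 2 ≤ N * h adj l := by
    simp only [S, sum_filter, h, Fintype.sum_prod_type, mul_sum]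
    rw [sum_comm (f := fun a b => N * (wk adj l a b).card ^ 2)]
    refine sum_le_sum fun a _ => ?_
    rw [sum_comm]
    refine sum_le_sum fun z _ => ?_
    rw [← sum_filter, sum_const, smul_eq_mul]
    refine Nat.mul_le_mul_right _ ((card_le_card fun b hb => ?_).trans (hN a))
    simp only [mem_filter, mem_univ, true_and] at hb ⊢
    exact hs _ _ hb
  have h4 : ∑ e ∈ S, q e ^ 2 ≤ (l + 1) * h adj (l + 1) := by
    simp only [S, sum_filter, h, Fintype.sum_prod_type, mul_sum]
    rw [sum_comm]
    refine sum_le_sum fun b _ => ?_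
    rw [sum_comm]
    refine sum_le_sum fun z _ => ?_
    rw [← sum_filter]
    have b1 : ∀ a, q (a, b, z) ≤ (wk adj (l + 1) b z).card := fun a => card_filter_le _ _
    have b2 : ∑ a ∈ univ.filter (adj b), q (a, b, z) ≤ (wk adj (l + 1) b z).card * (l + 1) := by
      simp only [q, card_filter]
      rw [sum_comm, ← smul_eq_mul]
      refine sum_le_card_nsmul _ _ _ fun Q _ => ?_
      rw [← card_filter]
      refine (card_le_card_of_injOn π (t := (range (l + 1)).image fun j => π (at' Q j))
        (fun a ha => ?_) fun a ha a' ha' e => ?_).trans (card_image_le.trans (card_range _).le)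
      · simp only [coe_filter, Set.mem_ofPred_eq] at ha
        obtain ⟨j, hj, e⟩ := ha.2
        exact mem_coe.mpr (mem_image.mpr ⟨j, mem_range.mpr hj, e.symm⟩)
      · simp only [coe_filter, mem_filter, mem_univ, true_and, Set.mem_ofPred_eq] at ha ha'
        exact hπ b a a' ha.1 ha'.1 e
    calc ∑ a ∈ univ.filter (adj b), q (a, b, z) ^ 2
        ≤ ∑ a ∈ univ.filter (adj b), (wk adj (l + 1) b z).card * q (a, b, z) :=
          sum_le_sum fun a _ => by rw [sq]; exact Nat.mul_le_mul_right _ (b1 a)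
      _ ≤ (wk adj (l + 1) b z).card * ((wk adj (l + 1) b z).card * (l + 1)) := by
          rw [← mul_sum]; exact Nat.mul_le_mul_left _ b2
      _ = _ := by ring
  exact (Nat.pow_le_pow_left h1 2).trans (h2.trans (Nat.mul_le_mul h3 h4))

/-- the closed walk made of two walks -/
def cyc {k : ℕ} (P Q : Fin (k + 1) → W) (i : ℕ) : W :=
  if i % (2 * k) ≤ k then at' P (i % (2 * k)) else at' Q (2 * k - i % (2 * k))

omit [Fintype W] [DecidableEq W] in
lemma cyc_per {k : ℕ} (P Q : Fin (k + 1) → W) (i : ℕ) : cyc P Q (i + 2 * k) = cyc P Q i := by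
  simp [cyc]

lemma cyc_adj (hs : ∀ u v, adj u v → adj v u) {k : ℕ} (hk : 1 ≤ k) {P Q : Fin (k + 1) → W}
    (hP : P ∈ walks adj k) (hQ : Q ∈ walks adj k) (h0 : at' P 0 = at' Q 0)
    (h1 : at' P k = at' Q k) (i : ℕ) : adj (cyc P Q i) (cyc P Q (i + 1)) := by
  rw [mem_walks] at hP hQ
  have a1 : i % (2 * k) < 2 * k := Nat.mod_lt _ (by omega)
  have a2 : (i + 1) % (2 * k) = (i % (2 * k) + 1) % (2 * k) := by simp
  unfold cyc
  rw [a2]
  generalize i % (2 * k) = r at a1
  by_cases e : r + 1 = 2 * k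
  · rw [e, Nat.mod_self, if_pos (Nat.zero_le _), h0]
    split_ifs with e2
    · have : r = k := by omega
      have k1 : k = 1 := by omega
      rw [this, h1]
      have := hs _ _ (hQ 0 (by omega))
      rw [zero_add] at this
      subst k1
      exact this
    · rw [show 2 * k - r = 0 + 1 by omega]
      exact hs _ _ (hQ 0 (by omega))
  · rw [Nat.mod_eq_of_lt (show r + 1 < 2 * k by omega)]
    rcases lt_trichotomy r k with l | l | l
    · rw [if_pos l.le, if_pos (by omega)]; exact hP r l
    · rw [if_pos l.le, if_neg (by omega), l, h1]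
      have := hs _ _ (hQ (k - 1) (by omega))
      rw [show k - 1 + 1 = k by omega] at this
      rw [show 2 * k - (k + 1) = k - 1 by omega]
      exact this
    · rw [if_neg (by omega), if_neg (by omega)]
      have := hs _ _ (hQ (2 * k - (r + 1)) (by omega))
      rw [show 2 * k - (r + 1) + 1 = 2 * k - r by omega] at this
      exact this

omit [Fintype W] [DecidableEq W] in
lemma per_ext {n s : ℕ} (hn : 1 ≤ n) {x y : ℕ → W} (hx : ∀ i, x (i + n) = x i)
    (hy : ∀ i, y (i + n) = y i) (h : ∀ i < n, x (s + i) = y (s + i)) (i : ℕ) : x i = y i := by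
  have px : Function.Periodic x n := hx
  have py : Function.Periodic y n := hy
  have a : ∀ z : ℕ → W, Function.Periodic z n → z i = z (s + (i + n * s - s) % n) := by
    intro z pz
    have b : s ≤ n * s := Nat.le_mul_of_pos_left _ hn
    have c := Nat.mod_add_div (i + n * s - s) n
    have d1 := pz.nat_mul s i
    have d2 := pz.nat_mul ((i + n * s - s) / n) (s + (i + n * s - s) % n)
    simp only [Nat.cast_id] at d1 d2
    rw [← d1, ← d2]
    congr 1
    rw [mul_comm s n, mul_comm _ n]
    omega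
  rw [a x px, a y py]
  exact h _ (Nat.mod_lt _ hn)

lemma h_le_T (hs : ∀ u v, adj u v → adj v u) (l : ℕ)
    (hbad : ∀ x : ℕ → W, (∀ i, x (i + 2 * (l + 1)) = x i) → (∀ i, adj (x i) (x (i + 1))) →
      ∃ i j, i < j ∧ j < 2 * (l + 1) ∧ π (x i) = π (x j)) :
    h adj (l + 1) ≤ 2 * (l + 1) * (T adj π l).card := by
  let D : Finset (Σ _ : W × W, (Fin (l + 1 + 1) → W) × (Fin (l + 1 + 1) → W)) :=
    univ.sigma fun e => wk adj (l + 1) e.1 e.2 ×ˢ wk adj (l + 1) e.1 e.2
  have hD : h adj (l + 1) = D.card := by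
    simp only [D, card_sigma, card_product, h, sq]
  have A : ∀ e ∈ D, ∀ i, adj (cyc e.2.1 e.2.2 i) (cyc e.2.1 e.2.2 (i + 1)) := by
    intro e he
    simp only [D, mem_sigma, mem_univ, true_and, mem_product, mem_wk] at he
    exact cyc_adj adj hs (by omega) he.1.1 he.2.1 (he.1.2.1.trans he.2.2.1.symm)
      (he.1.2.2.trans he.2.2.2.symm)
  have B : ∀ e : (Σ _ : W × W, (Fin (l + 1 + 1) → W) × (Fin (l + 1 + 1) → W)), ∃ s, e ∈ D →
      s < 2 * (l + 1) ∧ ∃ j < l + 1,
        π (cyc e.2.1 e.2.2 s) = π (cyc e.2.1 e.2.2 (s + 1 + j)) := by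
    intro e
    by_cases he : e ∈ D
    · obtain ⟨i, j, a1, a2, a3⟩ := hbad _ (cyc_per e.2.1 e.2.2) (A e he)
      by_cases c : j ≤ i + (l + 1)
      · exact ⟨i, fun _ => ⟨by omega, j - i - 1, by omega, by
          rw [show i + 1 + (j - i - 1) = j by omega]; exact a3⟩⟩
      · exact ⟨j, fun _ => ⟨a2, i + 2 * (l + 1) - j - 1, by omega, by
          rw [show j + 1 + (i + 2 * (l + 1) - j - 1) = i + 2 * (l + 1) by omega, cyc_per]
          exact a3.symm⟩⟩
    · exact ⟨0, fun h => absurd h he⟩
  choose s hs' using B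
  rw [hD, ← card_range (2 * (l + 1)), ← card_product]
  refine card_le_card_of_injOn (fun e => (s e,
    mk (l + 1) fun i => cyc e.2.1 e.2.2 (s e + 1 + i),
    mk l fun i => cyc e.2.1 e.2.2 (s e + 1 + (l + 1) + i))) (fun e he => ?_) ?_
  · obtain ⟨a1, j, a2, a3⟩ := hs' e he
    have a4 : cyc e.2.1 e.2.2 (s e + 1 + (l + 1) + l) = cyc e.2.1 e.2.2 (s e) := by
      rw [← cyc_per e.2.1 e.2.2 (s e)]
      congr 1
      omega
    simp only [coe_product, Set.mem_prod, mem_coe, mem_range, T, mem_filter, mem_product,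
      mem_walks]
    refine ⟨a1, ⟨fun i hi => ?_, fun i hi => ?_⟩, ?_, ?_, j, a2, ?_⟩
    · rw [at_mk _ _ (by omega), at_mk _ _ (by omega)]
      exact A e he _
    · rw [at_mk _ _ (by omega), at_mk _ _ (by omega)]
      exact A e he _
    · rw [at_mk _ _ (by omega), at_mk _ _ (by omega), add_zero]
    · rw [at_mk _ _ (by omega), at_mk _ _ (by omega), a4, add_zero]
      exact hs _ _ (A e he _)
    · rw [at_mk _ _ (by omega), at_mk _ _ (by omega), a4, a3]
  · rintro ⟨⟨u, v⟩, P, Q⟩ he ⟨⟨u', v'⟩, P', Q'⟩ he' e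
    simp only [Prod.mk.injEq] at e
    obtain ⟨e1, e2, e3⟩ := e
    rw [← e1] at e2 e3
    generalize s ⟨(u, v), P, Q⟩ = r at e2 e3
    have e4 : ∀ i, cyc P Q i = cyc P' Q' i := by
      refine per_ext (n := 2 * (l + 1)) (s := r + 1) (by omega) (cyc_per P Q) (cyc_per P' Q')
        fun i hi => ?_
      by_cases c : i ≤ l + 1
      · have := congrArg (fun R => at' R i) e2
        simpa only [at_mk _ _ c] using this
      · have := congrArg (fun R => at' R (i - (l + 1))) e3
        simp only [at_mk _ _ (show i - (l + 1) ≤ l by omega)] at this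
        rw [show r + 1 + (l + 1) + (i - (l + 1)) = r + 1 + i by omega] at this
        exact this
    simp only [D, mem_coe, mem_sigma, mem_univ, true_and, mem_product, mem_wk] at he he'
    have eP : P = P' := ext_at fun i hi => by
      have := e4 i
      simp only [cyc, Nat.mod_eq_of_lt (show i < 2 * (l + 1) by omega), if_pos hi] at this
      exact this
    have eu : u = u' := by rw [← he.1.2.1, ← he'.1.2.1, eP]
    have ev : v = v' := by rw [← he.1.2.2, ← he'.1.2.2, eP]
    have eQ : Q = Q' := ext_at fun i hi => by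
      by_cases c0 : i = 0
      · rw [c0, he.2.2.1, he'.2.2.1, eu]
      by_cases c1 : i = l + 1
      · rw [c1, he.2.2.2, he'.2.2.2, ev]
      have := e4 (2 * (l + 1) - i)
      simp only [cyc, Nat.mod_eq_of_lt (show 2 * (l + 1) - i < 2 * (l + 1) by omega),
        if_neg (show ¬ 2 * (l + 1) - i ≤ l + 1 by omega),
        show 2 * (l + 1) - (2 * (l + 1) - i) = i by omega] at this
      exact this
    rw [eu, ev, eP, eQ]

/-- main counting bound -/
theorem main [Nonempty W] (N m : ℕ) (hN : ∀ w, (univ.filter (adj w)).card = N)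
    (hs : ∀ u v, adj u v → adj v u) (hπ : ∀ w u v, adj w u → adj w v → π u = π v → u = v)
    (hbad : ∀ k, 2 ≤ k → k ≤ m + 1 → ∀ x : ℕ → W, (∀ i, x (i + 2 * k) = x i) →
      (∀ i, adj (x i) (x (i + 1))) → ∃ i j, i < j ∧ j < 2 * k ∧ π (x i) = π (x j)) :
    N ^ (2 * (m + 1)) ≤ (4 * (m + 1) ^ 3) ^ m * N ^ (m + 1) * Fintype.card W := by
  have step : ∀ l, 1 ≤ l → l ≤ m → h adj (l + 1) ≤ 4 * (m + 1) ^ 3 * N * h adj l := by
    intro l l1 l2
    have a1 := h_le_T adj π hs l (hbad (l + 1) (by omega) (by omega))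
    have a2 := T_bound adj π N (fun w => (hN w).le) hs hπ l
    rcases Nat.eq_zero_or_pos (h adj (l + 1)) with e | e
    · rw [e]; exact Nat.zero_le _
    refine Nat.le_of_mul_le_mul_right ?_ e
    have a3 : (l + 1) ^ 3 ≤ (m + 1) ^ 3 := Nat.pow_le_pow_left (by omega) 3
    calc h adj (l + 1) * h adj (l + 1) = h adj (l + 1) ^ 2 := by ring
      _ ≤ (2 * (l + 1) * (T adj π l).card) ^ 2 := Nat.pow_le_pow_left a1 2
      _ = 4 * (l + 1) ^ 2 * (T adj π l).card ^ 2 := by ring
      _ ≤ 4 * (l + 1) ^ 2 * ((N * h adj l) * ((l + 1) * h adj (l + 1))) :=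
          Nat.mul_le_mul_left _ a2
      _ = 4 * (l + 1) ^ 3 * (N * h adj l * h adj (l + 1)) := by ring
      _ ≤ 4 * (m + 1) ^ 3 * (N * h adj l * h adj (l + 1)) :=
          Nat.mul_le_mul_right _ (Nat.mul_le_mul_left _ a3)
      _ = _ := by ring
  have ind : ∀ l, l ≤ m → h adj (l + 1) ≤
      (4 * (m + 1) ^ 3) ^ l * N ^ (l + 1) * Fintype.card W := by
    intro l
    induction l with
    | zero =>
      intro _
      have := h_one adj N fun w => (hN w).le
      simpa [mul_comm] using this
    | succ l ih =>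
      intro hl
      calc h adj (l + 1 + 1) ≤ 4 * (m + 1) ^ 3 * N * h adj (l + 1) := step _ (by omega) hl
        _ ≤ 4 * (m + 1) ^ 3 * N * ((4 * (m + 1) ^ 3) ^ l * N ^ (l + 1) * Fintype.card W) :=
            Nat.mul_le_mul_left _ (ih (by omega))
        _ = _ := by ring
  exact (h_lower adj N (fun w => (hN w).ge) (m + 1)).trans (ind m le_rfl)

end Pool.Agent.H23.Cyc
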