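import Mathlib

set_option autoImplicit false
set_option maxSynthPendingDepth 3

namespace Pool.Agent.H23.DeltaSet

/-- `ρ` is a sum of exactly `h` members of `R` -/
def C (R : ℤ → Prop) (h : ℕ) (ρ : ℤ) : Prop :=
  ∃ s : Multiset ℤ, (∀ r ∈ s, R r) ∧ Multiset.card s = h ∧ s.sum = ρ

variable {R : ℤ → Prop}

lemma C.add {h h' : ℕ} {ρ ρ' : ℤ} (a : C R h ρ) (b : C R h' ρ') : C R (h + h') (ρ + ρ') := by
  obtain ⟨s, s1, s2, s3⟩ := a
  obtain ⟨t, t1, t2, t3⟩ := b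
  refine ⟨s + t, fun r hr => ?_, by simp [s2, t2], by simp [s3, t3]⟩
  rcases Multiset.mem_add.mp hr with h | h
  exacts [s1 r h, t1 r h]

lemma C.rep {r : ℤ} (hr : R r) (h : ℕ) : C R h (h * r) :=
  ⟨Multiset.replicate h r, fun x hx => by rw [Multiset.eq_of_mem_replicate hx]; exact hr,
    by simp, by simp⟩

lemma C.one {r : ℤ} (hr : R r) : C R 1 r := by simpa using C.rep hr 1

lemma C.zero : C R 0 0 := ⟨0, by simp, rfl, rfl⟩

lemma C.eq_zero {ρ : ℤ} (h : C R 0 ρ) : ρ = 0 := by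
  obtain ⟨s, -, s2, s3⟩ := h
  rw [Multiset.card_eq_zero.mp s2] at s3
  exact s3.symm

lemma C.of_one {ρ : ℤ} (h : C R 1 ρ) : R ρ := by
  obtain ⟨s, s1, s2, s3⟩ := h
  obtain ⟨a, rfl⟩ := Multiset.card_eq_one.mp s2
  rw [← s3]
  simpa using s1

lemma C.succ {h : ℕ} {ρ : ℤ} (a : C R (h + 1) ρ) : ∃ r, R r ∧ C R h (ρ - r) := by
  obtain ⟨s, s1, s2, s3⟩ := a
  obtain ⟨r, hr⟩ := Multiset.card_pos_iff_exists_mem.mp (by omega : 0 < Multiset.card s)
  obtain ⟨t, rfl⟩ := Multiset.exists_cons_of_mem hr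
  refine ⟨r, s1 r hr, t, fun x hx => s1 x (Multiset.mem_cons_of_mem hx), by simpa using s2, ?_⟩
  rw [← s3]; simp

lemma C.bounds {P Q : ℤ} (hb : ∀ r, R r → -P ≤ r ∧ r ≤ Q) {h : ℕ} :
    ∀ {ρ : ℤ}, C R h ρ → -(h * P) ≤ ρ ∧ ρ ≤ h * Q := by
  induction h with
  | zero => intro ρ a; rw [a.eq_zero]; simp
  | succ h ih =>
    intro ρ a
    obtain ⟨r, h1, h2⟩ := a.succ
    have := ih h2
    have := hb r h1
    push_cast
    constructor <;> nlinarith

/-- the data used to build the semigroup -/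
structure Data (R : ℤ → Prop) (D : Finset ℕ) (m : ℕ) (P Q : ℤ) : Prop where
  neg : R (-1)
  hP : R (-P)
  hQ : R Q
  Qpos : 0 < Q
  bd : ∀ r, R r → -P ≤ r ∧ r ≤ Q
  up : ∀ h ρ, 2 ≤ h → C R h ρ → C R (h + 1) ρ
  one : ∀ ρ, R ρ → ∃ d ∈ D, C R (1 + d) ρ ∧ ∀ h, 1 < h → h < 1 + d → ¬ C R h ρ
  zm : C R m 0
  girth : ∀ h, 0 < h → h < m → ¬ C R h 0
  mD : m ∈ D
  m2 : 2 ≤ m
  le : ∀ d ∈ D, d ≤ m
  pos : ∀ d ∈ D, 0 < d
  oneD : 1 ∈ D
  att : ∀ d ∈ D, ∃ ρ, R ρ ∧ C R (1 + d) ρ ∧ ∀ h, 1 < h → h < 1 + d → ¬ C R h ρ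

variable {D : Finset ℕ} {m : ℕ} {P Q : ℤ}

lemma Data.Ppos (H : Data R D m P Q) : 0 < P := by have := (H.bd _ H.neg).1; omega

lemma Data.up' (H : Data R D m P Q) {h h' : ℕ} {ρ : ℤ} (a : C R h ρ) (hh : h + m ≤ h') :
    C R h' ρ := by
  have b : C R (h + m) ρ := by simpa using a.add H.zm
  induction h', hh using Nat.le_induction with
  | base => exact b
  | succ k hk ih => exact H.up k ρ (by have := H.m2; omega) ih

lemma Data.upPos (H : Data R D m P Q) {h : ℕ} {ρ : ℤ} (h0 : 0 ≤ ρ)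
    (hh : ρ + (Q + m + 1) * Q ≤ h * Q) : C R h ρ := by
  have hQ := H.Qpos
  have e1 := Int.mul_ediv_add_emod ρ Q
  have e2 := Int.emod_nonneg ρ hQ.ne'
  have e3 := Int.emod_lt_of_pos ρ hQ
  have e4 := Int.ediv_nonneg h0 hQ.le
  obtain ⟨q, hq⟩ := Int.eq_ofNat_of_zero_le e4
  obtain ⟨t, ht⟩ := Int.eq_ofNat_of_zero_le (show 0 ≤ Q - ρ % Q by omega)
  have a := (C.rep H.hQ (q + 1)).add (C.rep H.neg t)
  have e5 : ((q + 1 : ℕ) : ℤ) * Q + (t : ℤ) * (-1) = ρ := by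
    push_cast; rw [← hq, ← ht]; linear_combination e1
  rw [e5] at a
  refine H.up' a ?_
  have : ((q : ℤ) + 1 + t + m) * Q ≤ h * Q := by rw [hq] at e1; nlinarith
  have := le_of_mul_le_mul_right this hQ
  omega

lemma Data.upNeg (H : Data R D m P Q) {h : ℕ} {ρ : ℤ} (h0 : ρ ≤ 0)
    (hh : -ρ + (P + m) * P ≤ h * P) : C R h ρ := by
  have hP := H.Ppos
  have e1 := Int.mul_ediv_add_emod (-ρ) P
  have e2 := Int.emod_nonneg (-ρ) hP.ne'
  have e3 := Int.emod_lt_of_pos (-ρ) hP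
  have e4 := Int.ediv_nonneg (show 0 ≤ -ρ by omega) hP.le
  obtain ⟨q, hq⟩ := Int.eq_ofNat_of_zero_le e4
  obtain ⟨t, ht⟩ := Int.eq_ofNat_of_zero_le e2
  have a := (C.rep H.hP q).add (C.rep H.neg t)
  have e5 : (q : ℤ) * (-P) + (t : ℤ) * (-1) = ρ := by
    rw [← hq, ← ht]; linear_combination -e1
  rw [e5] at a
  refine H.up' a ?_
  have : ((q : ℤ) + t + m) * P ≤ h * P := by rw [hq] at e1; nlinarith
  have := le_of_mul_le_mul_right this hP
  omega

lemma Data.far (H : Data R D m P Q) {n : ℤ} (hn : (P + Q + m + 5) * (P + Q) ≤ n) {ρ c : ℤ}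
    {l : ℕ} (h1 : -P ≤ ρ) (h2 : ρ ≤ Q) (hc : c ≠ 0) (a : C R l (ρ + c * n)) :
    (m : ℤ) + 3 ≤ l ∧ (m : ℤ) + 3 ≤ c + l := by
  have hP := H.Ppos
  have hQ := H.Qpos
  have hm : (0 : ℤ) ≤ m := by positivity
  obtain ⟨b1, b2⟩ := a.bounds H.bd
  have hn0 : 0 < n := by nlinarith
  rcases lt_or_gt_of_ne hc with h | h
  · have e1 : (-c) * ((m + 4) * P) ≤ l * P := by
      have : (-c) * ((m + 4) * P + Q) ≤ (-c) * n := by
        apply mul_le_mul_of_nonneg_left _ (by omega)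
        nlinarith
      nlinarith
    have e2 : (-c) * (m + 4) ≤ l := le_of_mul_le_mul_right (by linarith) hP
    constructor <;> nlinarith
  · have e1 : ((m : ℤ) + 3) * Q ≤ l * Q := by
      have : n ≤ c * n := by nlinarith
      nlinarith
    have e2 := le_of_mul_le_mul_right e1 hQ
    constructor <;> omega

/-- lengths of factorizations -/
def Len (R : ℤ → Prop) (n : ℤ) (x : ℤ) (j : ℕ) : Prop :=
  ∃ (k l : ℕ) (ρ : ℤ), C R l ρ ∧ x = k * n + 2 * n * l + ρ ∧ j = k + l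

lemma Data.gap_mem (H : Data R D m P Q) {n : ℤ} (hn : (P + Q + m + 5) * (P + Q) ≤ n) {x : ℤ}
    {j d : ℕ} (hd : 0 < d) (a : Len R n x j) (b : Len R n x (j + d))
    (hno : ∀ i, j < i → i < j + d → ¬ Len R n x i) : d ∈ D := by
  have hP := H.Ppos
  have hQ := H.Qpos
  have hm : (0 : ℤ) ≤ m := by positivity
  have hn0 : 0 < n := by nlinarith
  obtain ⟨k', l', ρ', a1, a2, a3⟩ := a
  obtain ⟨k, l, ρ, b1, b2, b3⟩ := b
  by_cases hd1 : d = 1
  · rw [hd1]; exact H.oneD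
  have hno1 : ¬ Len R n x (j + d - 1) := hno _ (by omega) (by omega)
  set c : ℤ := k + 2 * l - k' - 2 * l' with hc
  have hρ : ρ' = ρ + c * n := by rw [hc]; linear_combination b2 - a2
  by_cases hA : C R (l + 1) ρ
  · exfalso
    have hk : k ≤ 1 := by
      by_contra hk
      obtain ⟨k0, rfl⟩ : ∃ k0, k = k0 + 2 := ⟨k - 2, by omega⟩
      exact hno1 ⟨k0, l + 1, ρ, hA, by rw [b2]; push_cast; ring, by omega⟩
    obtain ⟨l0, rfl⟩ : ∃ l0, l = l0 + 1 := ⟨l - 1, by omega⟩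
    refine hno1 ⟨k, l0, ρ + 2 * n, ?_, by rw [b2]; push_cast; ring, by omega⟩
    rcases le_total (ρ + 2 * n) 0 with h | h
    · refine H.upNeg h ?_
      have := (b1.bounds H.bd).1
      push_cast at this
      nlinarith
    · refine H.upPos h ?_
      have h1 := (a1.bounds H.bd).2
      have h2 : (3 : ℤ) ≤ c := by omega
      have h3 : (l' : ℤ) ≤ l0 := by omega
      have h4 : 3 * n ≤ c * n := by nlinarith
      have h5 : (l' : ℤ) * Q ≤ l0 * Q := by nlinarith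
      nlinarith
  · have hl : l ≤ 1 := by
      by_contra hl
      exact hA (H.up l ρ (by omega) b1)
    obtain ⟨e, he, e1, e2⟩ : ∃ e ∈ D, C R (l + e) ρ ∧ ∀ h, l < h → h < l + e → ¬ C R h ρ := by
      interval_cases l
      · rw [b1.eq_zero]
        exact ⟨m, H.mD, by simpa using H.zm, fun h h1 h2 => H.girth h h1 (by omega)⟩
      · exact H.one ρ b1.of_one
    have hem := H.le e he
    have he0 := H.pos e he
    have hb : -P ≤ ρ ∧ ρ ≤ Q := by
      have := b1.bounds H.bd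
      interval_cases l
      · rw [b1.eq_zero]; omega
      · simpa using this
    have key : 2 * e ≤ k → d ≤ e := by
      intro hk
      obtain ⟨k0, rfl⟩ : ∃ k0, k = k0 + 2 * e := ⟨k - 2 * e, by omega⟩
      by_contra hlt
      exact hno (j + d - e) (by omega) (by omega)
        ⟨k0, l + e, ρ, e1, by rw [b2]; push_cast; ring, by omega⟩
    by_cases hc0 : c = 0
    · rw [hc0, zero_mul, add_zero] at hρ
      rw [hρ] at a1
      have h1 : e ≤ d := by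
        by_contra hlt
        exact e2 l' (by omega) (by omega) a1
      have h2 := key (by omega)
      rw [le_antisymm h2 h1]; exact he
    · rw [hρ] at a1
      obtain ⟨f1, f2⟩ := H.far hn hb.1 hb.2 hc0 a1
      have h2 := key (by omega)
      omega

lemma Data.gap_att (H : Data R D m P Q) {n : ℤ} (hn : (P + Q + m + 5) * (P + Q) ≤ n) {d : ℕ}
    (hd : d ∈ D) : ∃ (x j : ℕ), Len R n x j ∧ Len R n x (j + d) ∧
      ∀ i, j < i → i < j + d → ¬ Len R n x i := by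
  have hP := H.Ppos
  have hQ := H.Qpos
  have hm : (0 : ℤ) ≤ m := by positivity
  obtain ⟨ρ, h1, h2, h3⟩ := H.att d hd
  have hb := H.bd ρ h1
  have hdm := H.le d hd
  have hn0 : P ≤ n := by nlinarith
  obtain ⟨x, hx⟩ := Int.eq_ofNat_of_zero_le (show 0 ≤ 2 * n * (1 + d) + ρ by
    have : (0 : ℤ) ≤ d := by positivity
    nlinarith)
  refine ⟨x, 1 + d, ⟨0, 1 + d, ρ, h2, by rw [← hx]; push_cast; ring, by omega⟩,
    ⟨2 * d, 1, ρ, C.one h1, by rw [← hx]; push_cast; ring, by omega⟩, ?_⟩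
  rintro i i1 i2 ⟨k', l', ρ', a1, a2, a3⟩
  set c : ℤ := 2 * (1 + d) - k' - 2 * l' with hc
  have hρ : ρ' = ρ + c * n := by rw [hc]; linear_combination -hx - a2
  rw [hρ] at a1
  by_cases hc0 : c = 0
  · rw [hc0, zero_mul, add_zero] at a1
    exact h3 l' (by omega) (by omega) a1
  · obtain ⟨f1, f2⟩ := H.far hn hb.1 hb.2 hc0 a1
    omega

end Pool.Agent.H23.DeltaSet
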