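import Mathlib

set_option autoImplicit false
set_option maxSynthPendingDepth 3

namespace Pool.Agent.H23.Eppa3
open Finset
open Classical

section
variable {V : Type} [DecidableEq V]

def cls (t : V → Bool) (τ : Bool) (e : Finset V) : Finset V := e.filter fun v => t v = τ

def Sh (t : V → Bool) (e : Finset V) : Prop := (cls t true e).card = 2 ∧ (cls t false e).card = 2

def par (t : V → Bool) (ed : V → V → ZMod 2) (e : Finset V) : ZMod 2 :=
  ∑ u ∈ cls t true e, ∑ v ∈ cls t false e, ed u v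

omit [DecidableEq V] in
lemma cls_add (t : V → Bool) (e : Finset V) :
    (cls t true e).card + (cls t false e).card = e.card := by
  rw [← card_filter_add_card_filter_not (s := e) (fun v => t v = true)]
  simp [cls]

omit [DecidableEq V] in
lemma filt {r : V → V → Prop} {t : V → Bool} (hr : ∀ x y, r x y ↔ t x = t y) (e : Finset V)
    (v : V) : e.filter (fun w => r v w) = cls t (t v) e := by
  ext w; simp [cls, hr, eq_comm]

omit [DecidableEq V] in
lemma sh_iff {r : V → V → Prop} {t : V → Bool} (hr : ∀ x y, r x y ↔ t x = t y) (e : Finset V) :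
    (e.card = 4 ∧ ∀ v ∈ e, (e.filter (fun w => r v w)).card = 2) ↔ Sh t e := by
  simp only [filt hr]
  have := cls_add t e
  constructor
  · rintro ⟨h1, h2⟩
    obtain ⟨v, hv⟩ : e.Nonempty := card_pos.mp (by omega)
    have := h2 v hv
    unfold Sh
    cases h : t v <;> rw [h] at this <;> omega
  · rintro ⟨h1, h2⟩
    refine ⟨by omega, fun v _ => ?_⟩
    cases t v <;> assumption

omit [DecidableEq V] in
lemma Sh.both {t : V → Bool} {e : Finset V} (h : Sh t e) (τ : Bool) : (cls t τ e).card = 2 := by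
  cases τ
  · exact h.2
  · exact h.1

lemma five (t : V → Bool) (H : Finset (Finset V)) (hH : ∀ e ∈ H, Sh t e) (S : Finset V) (τ : Bool)
    (h5 : S.card = 5) (h2 : (cls t (!τ) S).card = 2) :
    ((H.filter (fun e => e ⊆ S)).card : ZMod 2) =
      ∑ x ∈ cls t τ S, if S.erase x ∈ H then 1 else 0 := by
  rw [sum_boole]
  congr 1
  symm
  refine card_bij (fun x _ => S.erase x) (fun x hx => ?_) (fun x hx y hy h => ?_) fun e he => ?_
  · exact mem_filter.mpr ⟨(mem_filter.mp hx).2, erase_subset _ _⟩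
  · exact erase_injOn S (mem_filter.mp (mem_filter.mp hx).1).1
      (mem_filter.mp (mem_filter.mp hy).1).1 h
  · obtain ⟨he, hS⟩ := mem_filter.mp he
    have h4 := cls_add t e
    have hs := hH e he
    obtain ⟨x, hx⟩ := card_eq_one.mp (show (S \ e).card = 1 by
      rw [card_sdiff_of_subset hS]; unfold Sh at hs; omega)
    have hxm : x ∈ S \ e := hx ▸ mem_singleton_self x
    have e1 : S.erase x = e := by
      rw [erase_eq, ← hx, Finset.sdiff_sdiff_eq_self hS]
    have e2 : cls t (!τ) e = cls t (!τ) S :=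
      eq_of_subset_of_card_le (filter_subset_filter _ hS) (by rw [hs.both, h2])
    refine ⟨x, mem_filter.mpr ⟨mem_filter.mpr ⟨(mem_sdiff.mp hxm).1, ?_⟩, e1 ▸ he⟩, e1⟩
    by_contra hc
    have : x ∈ cls t (!τ) S := mem_filter.mpr ⟨(mem_sdiff.mp hxm).1, by
      revert hc; cases t x <;> cases τ <;> simp⟩
    rw [← e2] at this
    exact (mem_sdiff.mp hxm).2 (mem_filter.mp this).1

lemma ind_eq (x : ZMod 2) : (if x = 1 then (1 : ZMod 2) else 0) = x := by revert x; decide
lemma two0 (x : ZMod 2) : x + x = 0 := by revert x; decide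

omit [DecidableEq V] in
lemma par_eq (t : V → Bool) (ed : V → V → ZMod 2) (hs : ∀ u v, ed u v = ed v u) (e : Finset V)
    (τ : Bool) : par t ed e = ∑ u ∈ cls t τ e, ∑ v ∈ cls t (!τ) e, ed u v := by
  cases τ
  · rw [par, sum_comm]; simp only [hs, Bool.not_false]
  · rfl

lemma even_five (t : V → Bool) (ed : V → V → ZMod 2) (hs : ∀ u v, ed u v = ed v u)
    (H : Finset (Finset V)) (hH : ∀ e, e ∈ H ↔ Sh t e ∧ par t ed e = 1) (S : Finset V)
    (h5 : S.card = 5) (h3 : ∀ v ∈ S, (cls t (t v) S).card ≤ 3) :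
    Even (H.filter (fun e => e ⊆ S)).card := by
  have h3' : ∀ τ, (cls t τ S).card ≤ 3 := fun τ => by
    rcases (cls t τ S).eq_empty_or_nonempty with h | ⟨v, hv⟩
    · simp [h]
    · exact (mem_filter.mp hv).2 ▸ h3 v (mem_filter.mp hv).1
  have ha := cls_add t S
  obtain ⟨τ, c3, c2⟩ : ∃ τ, (cls t τ S).card = 3 ∧ (cls t (!τ) S).card = 2 := by
    have := h3' true
    have := h3' false
    by_cases h : (cls t true S).card = 3
    · exact ⟨true, h, by simp only [Bool.not_true]; omega⟩
    · exact ⟨false, by omega, by simp only [Bool.not_false]; omega⟩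
  rw [← ZMod.natCast_eq_zero_iff_even, five t H (fun e he => ((hH e).mp he).1) S τ h5 c2]
  have : ∀ x ∈ cls t τ S, (if S.erase x ∈ H then (1 : ZMod 2) else 0) =
      ∑ u ∈ (cls t τ S).erase x, ∑ v ∈ cls t (!τ) S, ed u v := by
    intro x hx
    have e1 : cls t τ (S.erase x) = (cls t τ S).erase x := filter_erase _ _ _
    have e2 : cls t (!τ) (S.erase x) = cls t (!τ) S := by
      rw [cls, filter_erase, erase_eq_of_notMem]
      · rfl
      · simp [(mem_filter.mp hx).2]
    have sh : Sh t (S.erase x) := by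
      have h1 : (cls t τ (S.erase x)).card = 2 := by rw [e1, card_erase_of_mem hx, c3]
      have h2 : (cls t (!τ) (S.erase x)).card = 2 := by rw [e2, c2]
      cases τ
      · exact ⟨h2, h1⟩
      · exact ⟨h1, h2⟩
    simp only [hH, sh, true_and]
    rw [ind_eq, par_eq t ed hs _ τ, e1, e2]
  rw [sum_congr rfl this]
  simp only [sum_congr rfl fun x hx => sum_erase_eq_sub
    (f := fun u => ∑ v ∈ cls t (!τ) S, ed u v) (s := cls t τ S) hx, sum_sub_distrib, sum_const, c3]
  generalize ∑ u ∈ cls t τ S, ∑ v ∈ cls t (!τ) S, ed u v = z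
  revert z; decide

omit [DecidableEq V] in
lemma transfer {W : Type} [DecidableEq W] (t : V → Bool) (ed : V → V → ZMod 2)
    (t' : W → Bool) (ed' : W → W → ZMod 2) (hs : ∀ u v, ed u v = ed v u)
    (e : Finset V) (φ : V → W) (hφ : Set.InjOn φ e) (ε : Bool) (s : V → ZMod 2)
    (h1 : ∀ u ∈ e, t' (φ u) = xor (t u) ε)
    (h2 : ∀ u ∈ e, ∀ v ∈ e, t u ≠ t v → ed' (φ u) (φ v) = ed u v + s u + s v) :
    (Sh t e ∧ par t ed e = 1) ↔ (Sh t' (e.image φ) ∧ par t' ed' (e.image φ) = 1) := by
  have c : ∀ τ, cls t' τ (e.image φ) = (cls t (xor τ ε) e).image φ := by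
    intro τ
    rw [cls, filter_image]
    congr 1
    refine filter_congr fun u hu => ?_
    rw [h1 u hu]
    cases t u <;> cases τ <;> cases ε <;> simp
  have inj : ∀ τ, Set.InjOn φ (cls t τ e) := fun τ => hφ.mono (coe_subset.mpr (filter_subset _ _))
  have sh : Sh t e ↔ Sh t' (e.image φ) := by
    simp only [Sh, c, card_image_of_injOn (inj _)]
    cases ε <;> simp [and_comm]
  rw [← sh]
  refine and_congr_right fun h => ?_
  have : par t' ed' (e.image φ) = par t ed e := by
    rw [par, c, c, sum_image (inj _), par_eq t ed hs e (xor true ε)]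
    have : xor false ε = !(xor true ε) := by cases ε <;> rfl
    rw [this]
    simp only [sum_image (inj _)]
    have k : ∀ u ∈ cls t (xor true ε) e, ∀ v ∈ cls t (!(xor true ε)) e,
        ed' (φ u) (φ v) = ed u v + s u + s v := fun u hu v hv => by
      obtain ⟨u1, u2⟩ := mem_filter.mp hu
      obtain ⟨v1, v2⟩ := mem_filter.mp hv
      exact h2 u u1 v v1 (by rw [u2, v2]; simp)
    rw [sum_congr rfl fun u hu => sum_congr rfl (k u hu)]
    simp only [sum_add_distrib, sum_const, h.both, two_nsmul, two0, add_zero, add_assoc]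
  rw [this]

lemma cls4 (t : V → Bool) (a a' b b' : V) (τ : Bool) (ha : t a = τ) (ha' : t a' = τ)
    (hb : t b = !τ) (hb' : t b' = !τ) :
    cls t τ {a, a', b, b'} = {a, a'} ∧ cls t (!τ) {a, a', b, b'} = {b, b'} := by
  constructor <;> simp [cls, filter_insert, filter_singleton, ha, ha', hb, hb']

lemma cocycle (t : V → Bool) (H : Finset (Finset V)) (hH : ∀ e ∈ H, Sh t e)
    (h5 : ∀ S : Finset V, S.card = 5 → (∀ v ∈ S, (cls t (t v) S).card ≤ 3) →
      Even (H.filter (fun e => e ⊆ S)).card) (τ : Bool) (a a' a'' b b' : V)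
    (ha : t a = τ) (ha' : t a' = τ) (ha'' : t a'' = τ) (hb : t b = !τ) (hb' : t b' = !τ) :
    (if ({a, a', b, b'} : Finset V) ∈ H then (1 : ZMod 2) else 0) +
      (if ({a, a'', b, b'} : Finset V) ∈ H then 1 else 0) =
      if ({a', a'', b, b'} : Finset V) ∈ H then 1 else 0 := by
  have deg : ∀ x y, t x = τ → t y = τ → (x = y ∨ b = b') → ({x, y, b, b'} : Finset V) ∉ H := by
    intro x y hx hy h hm
    have c := cls4 t x y b b' τ hx hy hb hb'
    have h1 := (hH _ hm).both τ
    have h2 := (hH _ hm).both (!τ)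
    rw [c.1] at h1
    rw [c.2] at h2
    rcases h with rfl | rfl
    · simp at h1
    · simp at h2
  by_cases hbb : b = b'
  · simp [deg _ _ ha ha' (Or.inr hbb), deg _ _ ha ha'' (Or.inr hbb), deg _ _ ha' ha'' (Or.inr hbb)]
  by_cases h1 : a = a'
  · subst h1; simp only [deg _ _ ha ha (Or.inl rfl), if_false, zero_add]
  by_cases h2 : a = a''
  · subst h2
    simp only [deg _ _ ha ha (Or.inl rfl), if_false, add_zero, insert_comm a a']
  by_cases h3 : a' = a''
  · subst h3; simp only [deg _ _ ha' ha' (Or.inl rfl), if_false, two0]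
  have nab : ∀ x y, t x = τ → t y = !τ → x ≠ y := fun x y hx hy e => by
    rw [e, hy] at hx; simp at hx
  have c1 : cls t τ {a, a', a'', b, b'} = {a, a', a''} := by
    simp [cls, filter_insert, filter_singleton, ha, ha', ha'', hb, hb']
  have c2 : cls t (!τ) {a, a', a'', b, b'} = {b, b'} := by
    simp [cls, filter_insert, filter_singleton, ha, ha', ha'', hb, hb']
  have k1 : (cls t τ {a, a', a'', b, b'}).card = 3 := by
    rw [c1]; exact card_eq_three.mpr ⟨a, a', a'', h1, h2, h3, rfl⟩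
  have k2 : (cls t (!τ) {a, a', a'', b, b'}).card = 2 := by rw [c2, card_pair hbb]
  have k5 : ({a, a', a'', b, b'} : Finset V).card = 5 := by
    have := cls_add t {a, a', a'', b, b'}
    cases τ <;> simp only [Bool.not_true, Bool.not_false] at k2 <;> omega
  have ev := h5 _ k5 (fun v _ => by
    cases h : t v <;> cases τ <;> simp only [Bool.not_true, Bool.not_false] at k2 <;> omega)
  rw [← ZMod.natCast_eq_zero_iff_even, five t H hH _ τ k5 k2, c1, sum_insert (by simp [h1, h2]),
    sum_pair h3] at ev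
  have e1 : ({a, a', a'', b, b'} : Finset V).erase a = {a', a'', b, b'} :=
    erase_insert (by simp [h1, h2, nab a b ha hb, nab a b' ha hb'])
  have e2 : ({a, a', a'', b, b'} : Finset V).erase a' = {a, a'', b, b'} := by
    rw [insert_comm]
    exact erase_insert (by simp [Ne.symm h1, h3, nab a' b ha' hb, nab a' b' ha' hb'])
  have e3 : ({a, a', a'', b, b'} : Finset V).erase a'' = {a, a', b, b'} := by
    rw [insert_comm a' a'', insert_comm a a'']
    exact erase_insert (by simp [Ne.symm h2, Ne.symm h3, nab a'' b ha'' hb, nab a'' b' ha'' hb'])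
  rw [e1, e2, e3] at ev
  revert ev
  generalize (if ({a, a', b, b'} : Finset V) ∈ H then (1 : ZMod 2) else 0) = x
  generalize (if ({a, a'', b, b'} : Finset V) ∈ H then (1 : ZMod 2) else 0) = y
  generalize (if ({a', a'', b, b'} : Finset V) ∈ H then (1 : ZMod 2) else 0) = z
  revert x y z; decide

lemma par4 (t : V → Bool) (ed : V → V → ZMod 2) (a a' b b' : V) (ha : t a = true)
    (ha' : t a' = true) (hb : t b = false) (hb' : t b' = false) (h1 : a ≠ a') (h2 : b ≠ b') :
    Sh t {a, a', b, b'} ∧ par t ed {a, a', b, b'} = ed a b + ed a b' + (ed a' b + ed a' b') := by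
  have c := cls4 t a a' b b' true ha ha' hb hb'
  simp only [Bool.not_true] at c
  simp only [Sh, par, c.1, c.2, card_pair h1, card_pair h2, sum_pair h1, sum_pair h2, true_and]

lemma exists_ed (t : V → Bool) (H : Finset (Finset V)) (hH : ∀ e ∈ H, Sh t e)
    (h5 : ∀ S : Finset V, S.card = 5 → (∀ v ∈ S, (cls t (t v) S).card ≤ 3) →
      Even (H.filter (fun e => e ⊆ S)).card) :
    ∃ E : V → V → ZMod 2, ∀ e, e ∈ H ↔ Sh t e ∧ par t E e = 1 := by
  by_cases h0 : ∃ a0 b0, t a0 = true ∧ t b0 = false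
  · obtain ⟨a0, b0, ha0, hb0⟩ := h0
    refine ⟨fun a b => if ({a0, a, b0, b} : Finset V) ∈ H then 1 else 0, fun e => ?_⟩
    by_cases sh : Sh t e
    · obtain ⟨a, a', h1, c1⟩ := card_eq_two.mp sh.1
      obtain ⟨b, b', h2, c2⟩ := card_eq_two.mp sh.2
      have m1 : ∀ x, x ∈ ({a, a'} : Finset V) ↔ x ∈ e ∧ t x = true := fun x => by
        rw [← c1]; exact mem_filter
      have m2 : ∀ x, x ∈ ({b, b'} : Finset V) ↔ x ∈ e ∧ t x = false := fun x => by
        rw [← c2]; exact mem_filter
      have he : e = {a, a', b, b'} := by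
        ext x
        have k1 := m1 x
        have k2 := m2 x
        simp only [mem_insert, mem_singleton] at k1 k2 ⊢
        cases h : t x <;> simp only [h] at k1 k2 <;> tauto
      have ha := ((m1 a).mp (by simp)).2
      have ha' := ((m1 a').mp (by simp)).2
      have hb := ((m2 b).mp (by simp)).2
      have hb' := ((m2 b').mp (by simp)).2
      have sw : ∀ x y z w : V, ({x, y, z, w} : Finset V) = {z, w, x, y} := fun x y z w => by
        ext u; simp only [mem_insert, mem_singleton]; tauto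
      rw [he, (par4 t _ a a' b b' ha ha' hb hb' h1 h2).2, sw a0 a b0 b, sw a0 a b0 b',
        sw a0 a' b0 b, sw a0 a' b0 b', cocycle t H hH h5 false b0 b b' a0 a hb0 hb hb' ha0 ha,
        cocycle t H hH h5 false b0 b b' a0 a' hb0 hb hb' ha0 ha', sw b b' a0 a, sw b b' a0 a',
        cocycle t H hH h5 true a0 a a' b b' ha0 ha ha' hb hb']
      simp [he ▸ sh]
    · exact ⟨fun h => absurd (hH e h) sh, fun h => absurd h.1 sh⟩
  · refine ⟨0, fun e => ?_⟩
    have : ¬ Sh t e := fun sh => by
      obtain ⟨a, ha⟩ : (cls t true e).Nonempty := card_pos.mp (by rw [sh.1]; norm_num)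
      obtain ⟨b, hb⟩ : (cls t false e).Nonempty := card_pos.mp (by rw [sh.2]; norm_num)
      exact h0 ⟨a, b, (mem_filter.mp ha).2, (mem_filter.mp hb).2⟩
    exact ⟨fun h => absurd (hH e h) this, fun h => absurd h.1 this⟩

omit [DecidableEq V] in
lemma exists_s (t : V → Bool) (S : Finset V) (Δ : V → V → ZMod 2) (hs : ∀ u v, Δ u v = Δ v u)
    (h : ∀ a ∈ S, ∀ a' ∈ S, ∀ b ∈ S, ∀ b' ∈ S, t a = true → t a' = true → t b = false →
      t b' = false → a ≠ a' → b ≠ b' → Δ a b + Δ a b' + (Δ a' b + Δ a' b') = 0) :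
    ∃ s : V → ZMod 2, ∀ x ∈ S, ∀ y ∈ S, t x ≠ t y → Δ x y = s x + s y := by
  by_cases h0 : ∃ a0 ∈ S, ∃ b0 ∈ S, t a0 = true ∧ t b0 = false
  · obtain ⟨a0, a1, b0, b1, ha0, hb0⟩ := h0
    have key : ∀ x ∈ S, ∀ y ∈ S, t x = true → t y = false →
        Δ x y = Δ x b0 + (Δ a0 y + Δ a0 b0) := by
      intro x hx y hy tx ty
      by_cases e1 : x = a0
      · subst e1
        generalize Δ x y = p; generalize Δ x b0 = q; revert p q; decide
      by_cases e2 : y = b0
      · subst e2; rw [two0, add_zero]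
      have := h x hx a0 a1 y hy b0 b1 tx ha0 ty hb0 e1 e2
      revert this
      generalize Δ x y = p; generalize Δ x b0 = q; generalize Δ a0 y + Δ a0 b0 = r
      revert p q r; decide
    refine ⟨fun x => if t x = true then Δ x b0 else Δ a0 x + Δ a0 b0, fun x hx y hy hne => ?_⟩
    cases tx : t x <;> cases ty : t y <;> simp only [tx, ty] at hne ⊢
    · exact absurd rfl hne
    · rw [hs, key y hy x hx ty tx]; simp [add_comm]
    · rw [key x hx y hy tx ty]; simp
    · exact absurd rfl hne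
  · refine ⟨0, fun x hx y hy hne => ?_⟩
    exfalso
    cases tx : t x <;> cases ty : t y <;> simp only [tx, ty] at hne
    · exact hne rfl
    · exact h0 ⟨y, hy, x, hx, ty, tx⟩
    · exact h0 ⟨x, hx, y, hy, tx, ty⟩
    · exact hne rfl

end

lemma exists_cl {n : ℕ} (r : Fin n → Fin n → Prop) (h1 : Equivalence r)
    (h2 : ∀ a b c, r a b ∨ r b c ∨ r a c) : ∃ t : Fin n → Bool, ∀ x y, r x y ↔ t x = t y := by
  rcases isEmpty_or_nonempty (Fin n) with h | ⟨⟨a⟩⟩
  · exact ⟨fun _ => true, fun x => h.elim x⟩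
  · refine ⟨fun x => decide (r a x), fun x y => ?_⟩
    rw [decide_eq_decide]
    constructor
    · exact fun h => ⟨fun h' => h1.trans h' h, fun h' => h1.trans h' (h1.symm h)⟩
    · intro h
      rcases h2 a x y with h' | h' | h'
      · exact h1.trans (h1.symm h') (h.mp h')
      · exact h'
      · exact h1.trans (h1.symm (h.mpr h')) h'

abbrev VB (n : ℕ) := Bool × Fin n × (Fin n → ZMod 2)

def edB {n : ℕ} (u v : VB n) : ZMod 2 := u.2.2 v.2.1 + v.2.2 u.2.1

def aut {n : ℕ} (ε : Bool) (π : Equiv.Perm (Fin n)) (F : Bool → Fin n → Fin n → ZMod 2) :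
    VB n ≃ VB n where
  toFun u := (xor u.1 ε, π u.2.1, fun y => u.2.2 (π.symm y) + F u.1 u.2.1 (π.symm y))
  invFun u := (xor u.1 ε, π.symm u.2.1, fun y => u.2.2 (π y) - F (xor u.1 ε) (π.symm u.2.1) y)
  left_inv u := by simp
  right_inv u := by simp

lemma extend {n : ℕ} (t : Fin n → Bool) (χ : Fin n → Fin n → ZMod 2) (S : Finset (Fin n))
    (p : Fin n → Fin n) (hp : Set.InjOn p S) (ε : Bool) (hε : ∀ x ∈ S, t (p x) = xor (t x) ε)
    (s : Fin n → ZMod 2) (hs : ∀ x ∈ S, ∀ y ∈ S, t x ≠ t y →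
      (χ x y + χ y x) + (χ (p x) (p y) + χ (p y) (p x)) = s x + s y) :
    ∃ (σ : VB n ≃ VB n) (s' : VB n → ZMod 2), (∀ u, (σ u).1 = xor u.1 ε) ∧
      (∀ u v, u.1 ≠ v.1 → edB (σ u) (σ v) = edB u v + s' u + s' v) ∧
      ∀ x ∈ S, σ (t x, x, χ x) = (t (p x), p x, χ (p x)) := by
  obtain ⟨π, hπ⟩ := Equiv.Perm.exists_extending_pair (f := fun x : S => (x : Fin n))
    (g := fun x : S => p x) Subtype.val_injective
    (fun x y e => Subtype.ext (hp x.2 y.2 e))
  have hπ' : ∀ x ∈ S, π x = p x := fun x hx => hπ ⟨x, hx⟩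
  let G : Fin n → Fin n → ZMod 2 := fun x y => χ x y + χ (p x) (π y)
  let s0 : Bool → Fin n → ZMod 2 := fun τ x => if x ∈ S ∧ τ = t x then s x else 0
  let F : Bool → Fin n → Fin n → ZMod 2 := fun τ x y =>
    if x ∈ S ∧ τ = t x then G x y else if y ∈ S ∧ (!τ) = t y then s y + G y x else 0
  refine ⟨aut ε π F, fun u => s0 u.1 u.2.1, fun u => rfl, ?_, fun x hx => ?_⟩
  · rintro ⟨τ, x, c⟩ ⟨τ', y, d⟩ hne
    have e1 : τ' = !τ := by revert hne; cases τ <;> cases τ' <;> simp
    subst e1
    have : F τ x y + F (!τ) y x = s0 τ x + s0 (!τ) y := by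
      simp only [F, s0, Bool.not_not]
      by_cases h1 : x ∈ S ∧ τ = t x <;> by_cases h2 : y ∈ S ∧ (!τ) = t y
      · simp only [if_pos h1, if_pos h2, G, hπ' x h1.1, hπ' y h2.1]
        rw [← hs x h1.1 y h2.1 (by rw [← h1.2, ← h2.2]; simp)]
        ring
      · simp only [if_pos h1, if_neg h2]
        rw [add_left_comm, two0]
      · simp only [if_neg h1, if_pos h2]
        rw [add_assoc, two0, add_zero, zero_add]
      · simp only [if_neg h1, if_neg h2]
    simp only [edB, aut, Equiv.coe_fn_mk, Equiv.symm_apply_apply]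
    linear_combination this
  · simp only [aut, Equiv.coe_fn_mk, hε x hx, hπ' x hx, F, hx, true_and, if_true, G,
      Equiv.apply_symm_apply, ← add_assoc, two0, zero_add]

end Pool.Agent.H23.Eppa3
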