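import Mathlib

set_option autoImplicit false
set_option maxSynthPendingDepth 3

namespace Pool.Agent.H23.Ext

open Filter Topology Metric
open scoped InnerProductSpace BoundedContinuousFunction

/-- Unique norming functionals give Gateaux smoothness. -/
lemma gateaux {X : Type*} [NormedAddCommGroup X] [NormedSpace ℝ X] (x : X)
    (huniq : ∀ φ ψ : X →L[ℝ] ℝ, ‖φ‖ ≤ 1 → ‖ψ‖ ≤ 1 → φ x = ‖x‖ → ψ x = ‖x‖ → φ = ψ) :
    ∃ f : X →L[ℝ] ℝ, ∀ v : X, HasLineDerivAt ℝ (fun y : X => ‖y‖) (f v) x v := by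
  choose g hg1 hg2 using fun y : X => exists_dual_vector'' ℝ y
  simp only [RCLike.ofReal_real_eq_id, id] at hg2
  have hgle : ∀ y z, g y z ≤ ‖z‖ := fun y z =>
    (le_abs_self _).trans (((g y).le_opNorm z).trans (mul_le_of_le_one_left (norm_nonneg _) (hg1 y)))
  refine ⟨g x, fun v => ?_⟩
  have hlim : Tendsto (fun t : ℝ => g (x + t • v) v) (𝓝 0) (𝓝 (g x v)) := by
    rw [Filter.tendsto_iff_ultrafilter]
    intro U hU
    obtain ⟨ψ, hψ, hψ'⟩ := (WeakDual.isCompact_closedBall (0 : StrongDual ℝ X) 1).ultrafilter_le_nhds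
      (U.map fun t : ℝ => StrongDual.toWeakDual (g (x + t • v))) (by
        rw [le_principal_iff]
        exact Ultrafilter.mem_map.2 (Filter.univ_mem' fun t => by simpa using hg1 (x + t • v)))
    have hev : ∀ y, Tendsto (fun t : ℝ => g (x + t • v) y) U (𝓝 (ψ y)) := fun y =>
      ((WeakDual.eval_continuous y).tendsto ψ).comp hψ'
    have h0 : Tendsto (fun t : ℝ => t) U (𝓝 0) := hU
    have h1 : Tendsto (fun t : ℝ => ‖x + t • v‖ - t * g (x + t • v) v) U
        (𝓝 (‖x + (0 : ℝ) • v‖ - 0 * ψ v)) :=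
      ((tendsto_const_nhds.add (h0.smul_const v)).norm).sub (h0.mul (hev v))
    have h2 : ψ x = ‖x‖ := by
      refine tendsto_nhds_unique (hev x) ?_
      simp only [zero_smul, add_zero, zero_mul, sub_zero] at h1
      refine h1.congr fun t => ?_
      rw [← hg2 (x + t • v), map_add, map_smul, smul_eq_mul]; ring
    have h3 : WeakDual.toStrongDual ψ = g x :=
      huniq _ _ (by simpa using hψ) (hg1 x) h2 (hg2 x)
    rw [← h3]
    exact hev v
  unfold HasLineDerivAt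
  rw [hasDerivAt_iff_isLittleO_nhds_zero, Asymptotics.isLittleO_iff]
  intro c hc
  filter_upwards [Metric.tendsto_nhds.1 hlim c hc] with t ht
  simp only [zero_add, zero_smul, add_zero, smul_eq_mul]
  have a1 := hgle x (x + t • v)
  rw [map_add, map_smul, hg2, smul_eq_mul] at a1
  have a2 := hgle (x + t • v) x
  have a3 := hg2 (x + t • v)
  rw [map_add, map_smul, smul_eq_mul] at a3
  rw [Real.dist_eq] at ht
  rw [Real.norm_eq_abs, Real.norm_eq_abs, abs_of_nonneg (by linarith)]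
  calc ‖x + t • v‖ - ‖x‖ - t * g x v ≤ t * (g (x + t • v) v - g x v) := by linarith
    _ ≤ |t * (g (x + t • v) v - g x v)| := le_abs_self _
    _ ≤ c * |t| := by rw [abs_mul, mul_comm]; gcongr

variable {H : Type} [NormedAddCommGroup H] [InnerProductSpace ℝ H] [CompleteSpace H]

/-- A renorming of a Hilbert space whose dual ball is a given convex body. -/
lemma exists_polar (B : Set H) (hc : Convex ℝ B) (hcl : IsClosed B) (hsym : ∀ y ∈ B, -y ∈ B)
    (hb : ∀ y ∈ B, ‖y‖ ≤ 2) (hin : ∀ y : H, ‖y‖ ≤ 1 / 4 → y ∈ B) :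
    ∃ (X : Type) (_ : NormedAddCommGroup X) (_ : NormedSpace ℝ X) (_ : CompleteSpace X)
      (e : H ≃L[ℝ] X), (∀ y ∈ B, ∀ x, |⟪y, x⟫_ℝ| ≤ ‖e x‖) ∧
      (∀ φ : X →L[ℝ] ℝ, ‖φ‖ ≤ 1 → ∃ y ∈ B, ∀ x, φ (e x) = ⟪y, x⟫_ℝ) ∧
      Function.Surjective (NormedSpace.inclusionInDoubleDual ℝ X) := by
  have hbd : ∀ (x : H) (y : B), ‖⟪(y : H), x⟫_ℝ‖ ≤ 2 * ‖x‖ := fun x y =>
    (norm_inner_le_norm _ _).trans (by gcongr; exact hb _ y.2)
  let J0 : H →ₗ[ℝ] (B →ᵇ ℝ) :=
    { toFun := fun x => BoundedContinuousFunction.ofNormedAddCommGroup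
        (fun y : B => ⟪(y : H), x⟫_ℝ) (by fun_prop) (2 * ‖x‖) (hbd x)
      map_add' := fun a b => by ext y; simp [inner_add_right]
      map_smul' := fun a b => by ext y; simp [inner_smul_right] }
  let J : H →L[ℝ] (B →ᵇ ℝ) := J0.mkContinuous 2 fun x =>
    (BoundedContinuousFunction.norm_le (by positivity)).2 (hbd x)
  have hJ : ∀ x (y : B), J x y = ⟪(y : H), x⟫_ℝ := fun x y => rfl
  have hJ1 : ∀ y ∈ B, ∀ x, |⟪y, x⟫_ℝ| ≤ ‖J x‖ := fun y hy x =>
    (J x).norm_coe_le_norm ⟨y, hy⟩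
  have hanti : AntilipschitzWith 4 J := by
    refine J.antilipschitz_of_bound fun x => ?_
    rcases eq_or_ne x 0 with rfl | hx
    · simp
    have hx' : 0 < ‖x‖ := norm_pos_iff.2 hx
    have h1 := hJ1 ((4 * ‖x‖)⁻¹ • x) (hin _ (by
      rw [norm_smul, Real.norm_of_nonneg (by positivity)]; field_simp; rfl)) x
    rw [real_inner_smul_left, real_inner_self_eq_norm_sq, abs_of_nonneg (by positivity)] at h1
    have e : (4 * ‖x‖)⁻¹ * ‖x‖ ^ 2 = ‖x‖ / 4 := by field_simp
    rw [e] at h1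
    push_cast; linarith
  have hclo : IsClosed (Set.range J) := hanti.isClosed_range J.uniformContinuous
  have hcomp : CompleteSpace J.range := hclo.completeSpace_coe
  let e := J.equivRange hanti.injective hclo
  have he : ∀ x, ‖e x‖ = ‖J x‖ := fun x => rfl
  have hriesz : ∀ φ : J.range →L[ℝ] ℝ, ∃ y : H, ∀ x, φ (e x) = ⟪y, x⟫_ℝ := fun φ =>
    ⟨(InnerProductSpace.toDual ℝ H).symm (φ.comp (e : H →L[ℝ] J.range)), fun x => by simp⟩
  refine ⟨J.range, inferInstance, inferInstance, hcomp, e, fun y hy x => hJ1 y hy x, ?_, ?_⟩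
  · intro φ hφ
    obtain ⟨y, hy⟩ := hriesz φ
    refine ⟨y, ?_, hy⟩
    by_contra hyB
    obtain ⟨f, u, hf1, hf2⟩ := geometric_hahn_banach_closed_point hc hcl hyB
    set x := (InnerProductSpace.toDual ℝ H).symm f with hx
    have hfx : ∀ z, f z = ⟪z, x⟫_ℝ := fun z => by rw [real_inner_comm, hx]; simp
    have hu : 0 < u := by simpa using hf1 0 (hin 0 (by simp))
    have h1 : ‖J x‖ ≤ u := by
      refine (BoundedContinuousFunction.norm_le hu.le).2 fun z => ?_
      rw [hJ, Real.norm_eq_abs, abs_le, ← hfx]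
      have a1 := hf1 z z.2
      have a2 := hf1 (-z) (hsym z z.2)
      rw [map_neg] at a2
      constructor <;> linarith
    have h2 : φ (e x) ≤ ‖e x‖ := (le_abs_self _).trans ((φ.le_opNorm _).trans
      (mul_le_of_le_one_left (norm_nonneg _) hφ))
    rw [hy, ← hfx, he] at h2
    linarith
  · intro Φ
    let L0 : H →ₗ[ℝ] (J.range →L[ℝ] ℝ) :=
      { toFun := fun y => (innerSL ℝ y).comp (e.symm : J.range →L[ℝ] H)
        map_add' := fun a b => by ext z; simp
        map_smul' := fun a b => by ext z; simp }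
    let L : H →L[ℝ] (J.range →L[ℝ] ℝ) := L0.mkContinuous ‖(e.symm : J.range →L[ℝ] H)‖ fun y => by
      refine (ContinuousLinearMap.opNorm_comp_le _ _).trans ?_
      rw [innerSL_apply_norm, mul_comm]
    have hL : ∀ y x, L y (e x) = ⟪y, x⟫_ℝ := fun y x => by
      change ⟪y, e.symm (e x)⟫_ℝ = _
      rw [e.symm_apply_apply]
    refine ⟨e ((InnerProductSpace.toDual ℝ H).symm (Φ.comp L)), ?_⟩
    ext φ
    obtain ⟨y, hy⟩ := hriesz φ
    have : φ = L y := by
      ext z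
      obtain ⟨x, rfl⟩ := e.surjective z
      rw [hy, hL]
    rw [NormedSpace.dual_def, hy, real_inner_comm, this]
    simp

lemma squeeze_sel {K : Type*} [TopologicalSpace K] (t : K → ℝ) (ht : ∀ k, |t k| ≤ 2)
    (a b : ℕ → K → ℝ) (ha : ∀ n, Continuous (a n)) (hb : ∀ n, Continuous (b n))
    (hat : ∀ n k, a n k ≤ t k) (hbt : ∀ n k, t k ≤ b n k) (N : ℕ) :
    ∃ φ : K → ℝ, Continuous φ ∧ (∀ k, |φ k| ≤ |t k|) ∧
      ∀ n < N, ∀ k, a n k ≤ φ k ∧ φ k ≤ b n k := by
  have : ∃ A Bb : K → ℝ, Continuous A ∧ Continuous Bb ∧ (∀ k, A k ≤ t k ∧ t k ≤ Bb k) ∧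
      ∀ n < N, ∀ k, a n k ≤ A k ∧ Bb k ≤ b n k := by
    induction N with
    | zero => exact ⟨fun _ => -2, fun _ => 2, continuous_const, continuous_const,
        fun k => abs_le.1 (ht k), fun n hn => absurd hn (by omega)⟩
    | succ N ih =>
      obtain ⟨A, Bb, h1, h2, h3, h4⟩ := ih
      refine ⟨fun k => max (A k) (a N k), fun k => min (Bb k) (b N k), h1.max (ha N),
        h2.min (hb N), fun k => ⟨max_le (h3 k).1 (hat N k), le_min (h3 k).2 (hbt N k)⟩, ?_⟩
      intro n hn k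
      rcases Nat.lt_succ_iff_lt_or_eq.1 hn with h | rfl
      · exact ⟨le_max_of_le_left (h4 n h k).1, min_le_of_left_le (h4 n h k).2⟩
      · exact ⟨le_max_right _ _, min_le_right _ _⟩
  obtain ⟨A, Bb, h1, h2, h3, h4⟩ := this
  refine ⟨fun k => max (A k) (min 0 (Bb k)), h1.max (continuous_const.min h2), fun k => ?_,
    fun n hn k => ?_⟩
  · have := h3 k
    have a1 := le_abs_self (t k)
    have a2 := neg_abs_le (t k)
    have a3 := abs_nonneg (t k)
    rw [abs_le]
    simp only [max_def, min_def]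
    split_ifs <;> constructor <;> linarith [this.1, this.2]
  · have a1 := h3 k
    have a2 := h4 n hn k
    exact ⟨a2.1.trans (le_max_left _ _),
      (max_le (a1.1.trans a1.2) (min_le_right _ _)).trans a2.2⟩

end Pool.Agent.H23.Ext
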