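import Pool.Agent.H23.Ext1

set_option autoImplicit false
set_option maxSynthPendingDepth 3

namespace Pool.Agent.H23.Ext

open Filter Topology Metric
open scoped InnerProductSpace

abbrev H : Type := lp (fun _ : ℕ => ℝ) 2

noncomputable def u (j : ℕ) : H := lp.single 2 j 1

lemma inner_u (j : ℕ) (y : H) : ⟪y, u j⟫_ℝ = y j := by
  simp [u, lp.inner_single_right]

lemma u_apply (i j : ℕ) : u i j = if j = i then 1 else 0 := by
  simp [u, lp.single_apply, Pi.single_apply]

lemma norm_u (j : ℕ) : ‖u j‖ = 1 := by simp [u]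

lemma coord_le (y : H) (j : ℕ) : |y j| ≤ ‖y‖ := lp.norm_apply_le_norm (by norm_num) y j

lemma coord_cont (j : ℕ) : Continuous fun y : H => (y j : ℝ) := by
  simp only [← inner_u]; fun_prop

lemma coord_tendsto (y : H) : Tendsto (fun j => y j) atTop (𝓝 0) := by
  have h := (lp.memℓp y).summable (by norm_num)
  have h2 := h.tendsto_atTop_zero
  simp only [ENNReal.toReal_ofNat, Real.rpow_ofNat, Real.norm_eq_abs, sq_abs] at h2
  have h3 := (Real.continuous_sqrt.tendsto 0).comp h2
  rw [Real.sqrt_zero] at h3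
  refine squeeze_zero_norm (fun j => ?_) h3
  simp [Real.sqrt_sq_eq_abs]

noncomputable def q (y : H) : ℝ := ∑' k, (1 / 2 : ℝ) ^ k * (y (k + 1)) ^ 2

lemma q_term_le (y : H) (C : ℝ) (h : ‖y‖ ≤ C) (k : ℕ) :
    ‖(1 / 2 : ℝ) ^ k * (y (k + 1)) ^ 2‖ ≤ (1 / 2 : ℝ) ^ k * C ^ 2 := by
  rw [Real.norm_of_nonneg (by positivity), ← sq_abs]
  have := (coord_le y (k + 1)).trans h
  gcongr

lemma q_summable (y : H) : Summable fun k => (1 / 2 : ℝ) ^ k * (y (k + 1)) ^ 2 :=
  Summable.of_norm_bounded (summable_geometric_two.mul_right _) (q_term_le y _ le_rfl)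

lemma q_nonneg (y : H) : 0 ≤ q y := tsum_nonneg fun k => by positivity

lemma q_le (y : H) : q y ≤ 2 * ‖y‖ ^ 2 := by
  have := (q_summable y).hasSum.norm_le_of_bounded (hasSum_geometric_two.mul_right (‖y‖ ^ 2))
    (q_term_le y _ le_rfl)
  exact (le_abs_self _).trans this

lemma q_comb (y z : H) (a b : ℝ) (hab : a + b = 1) :
    q (a • y + b • z) = a * q y + b * q z - a * b * q (y - z) := by
  have h := (((q_summable y).hasSum.mul_left a).add ((q_summable z).hasSum.mul_left b)).sub
    ((q_summable (y - z)).hasSum.mul_left (a * b))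
  refine (q_summable _).hasSum.unique (h.congr_fun fun k => ?_)
  obtain rfl : b = 1 - a := by linarith
  simp only [lp.coeFn_add, lp.coeFn_smul, lp.coeFn_sub, Pi.add_apply, Pi.smul_apply, Pi.sub_apply,
    smul_eq_mul]
  ring

lemma q_smul (y : H) (a : ℝ) : q (a • y) = a ^ 2 * q y := by
  unfold q
  rw [← tsum_mul_left]
  refine tsum_congr fun k => ?_
  simp only [lp.coeFn_smul, Pi.smul_apply, smul_eq_mul]; ring

lemma q_eq_zero (y : H) (h : q y = 0) (k : ℕ) : y (k + 1) = 0 := by
  have h1 := (q_summable y).le_tsum k fun j _ => by positivity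
  have h2 : (1 / 2 : ℝ) ^ k * (y (k + 1)) ^ 2 = 0 :=
    le_antisymm (h1.trans h.le) (by positivity)
  simpa using h2

noncomputable def w (n : ℕ) : ℝ := 1 / ((n : ℝ) + 1)

lemma w_pos (n : ℕ) : 0 < w n := by unfold w; positivity

lemma w_le (n : ℕ) : w n ≤ 1 := by
  unfold w; rw [div_le_one (by positivity)]; linarith [Nat.cast_nonneg (α := ℝ) n]

lemma w_tendsto : Tendsto w atTop (𝓝 0) := tendsto_one_div_add_atTop_nhds_zero_nat

noncomputable def M (n : ℕ) (y : H) : ℝ := (y (n + 1) - w n * y 0) ^ 2 + w n / 4 * q y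

lemma M_smul (n : ℕ) (y : H) (a : ℝ) : M n (a • y) = a ^ 2 * M n y := by
  simp only [M, q_smul, lp.coeFn_smul, Pi.smul_apply, smul_eq_mul]; ring

lemma M_comb (n : ℕ) (y z : H) (a b : ℝ) (hab : a + b = 1) :
    M n (a • y + b • z) = a * M n y + b * M n z - a * b * M n (y - z) := by
  simp only [M, q_comb y z a b hab]
  obtain rfl : b = 1 - a := by linarith
  simp only [lp.coeFn_add, lp.coeFn_smul, lp.coeFn_sub, Pi.add_apply, Pi.smul_apply, Pi.sub_apply,
    smul_eq_mul]
  ring

lemma M_nonneg (n : ℕ) (y : H) : 0 ≤ M n y := by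
  have := w_pos n
  have := q_nonneg y
  unfold M; positivity

lemma M_pos (n : ℕ) (y : H) (hy : y ≠ 0) : 0 < M n y := by
  refine lt_of_le_of_ne (M_nonneg n y) fun h => hy ?_
  have h1 := w_pos n
  have h2 := q_nonneg y
  have h3 : 0 ≤ w n / 4 * q y := by positivity
  unfold M at h
  have h4 : w n / 4 * q y = 0 := by nlinarith [sq_nonneg (y (n + 1) - w n * y 0)]
  have h5 : q y = 0 := by
    rcases mul_eq_zero.1 h4 with h | h
    · linarith
    · exact h
  rw [h4, add_zero, q_eq_zero y h5 n] at h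
  have h6 : y 0 = 0 := by
    have := pow_eq_zero_iff (two_ne_zero) |>.1 h.symm
    rw [zero_sub, neg_eq_zero] at this
    exact (mul_eq_zero.1 this).resolve_left h1.ne'
  ext j
  cases j with
  | zero => simpa using h6
  | succ j => simpa using q_eq_zero y h5 j

lemma norm_comb (y z : H) (a b : ℝ) (hab : a + b = 1) :
    ‖a • y + b • z‖ ^ 2 = a * ‖y‖ ^ 2 + b * ‖z‖ ^ 2 - a * b * ‖y - z‖ ^ 2 := by
  obtain rfl : b = 1 - a := by linarith
  rw [@norm_add_sq_real, @norm_sub_sq_real, norm_smul, norm_smul, real_inner_smul_left,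
    real_inner_smul_right, mul_pow, mul_pow, Real.norm_eq_abs, Real.norm_eq_abs, sq_abs, sq_abs]
  ring

def B : Set H := {y | ‖y‖ ^ 2 ≤ 2 ∧ ∀ n, M n y ≤ 1}

lemma B_norm {y : H} (hy : y ∈ B) : ‖y‖ ≤ 2 := by nlinarith [hy.1, norm_nonneg y]

lemma B_convex : Convex ℝ B := by
  intro y hy z hz a b ha hb hab
  refine ⟨?_, fun n => ?_⟩
  · rw [norm_comb y z a b hab]
    have : 0 ≤ a * b * ‖y - z‖ ^ 2 := by positivity
    nlinarith [mul_le_mul_of_nonneg_left hy.1 ha, mul_le_mul_of_nonneg_left hz.1 hb]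
  · rw [M_comb n y z a b hab]
    have := M_nonneg n (y - z)
    have : 0 ≤ a * b * M n (y - z) := by positivity
    nlinarith [mul_le_mul_of_nonneg_left (hy.2 n) ha, mul_le_mul_of_nonneg_left (hz.2 n) hb]

lemma B_closed : IsClosed B := by
  have hq : ContinuousOn q {y : H | ‖y‖ ^ 2 ≤ 2} :=
    continuousOn_tsum (u := fun k => (1 / 2 : ℝ) ^ k * 2 ^ 2)
      (fun k => (continuous_const.mul ((coord_cont (k + 1)).pow 2)).continuousOn)
      (summable_geometric_two.mul_right _) fun k y hy => q_term_le y 2 (by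
        have : ‖y‖ ^ 2 ≤ 2 := hy
        nlinarith [norm_nonneg y]) k
  have h0 : IsClosed {y : H | ‖y‖ ^ 2 ≤ 2} := isClosed_le (by fun_prop) continuous_const
  have : B = ⋂ n, {y : H | ‖y‖ ^ 2 ≤ 2} ∩ M n ⁻¹' Set.Iic 1 := by
    ext y
    simp only [B, Set.mem_setOf_eq, Set.mem_iInter, Set.mem_inter_iff, Set.mem_preimage,
      Set.mem_Iic]
    exact ⟨fun h n => ⟨h.1, h.2 n⟩, fun h => ⟨(h 0).1, fun n => (h n).2⟩⟩
  rw [this]
  refine isClosed_iInter fun n => ContinuousOn.preimage_isClosed_of_isClosed ?_ h0 isClosed_Iic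
  have c1 : Continuous fun y : H => ((y (n + 1) : ℝ) - w n * y 0) ^ 2 :=
    (Continuous.sub (G := ℝ) (coord_cont (n + 1)) (continuous_const.mul (coord_cont 0))).pow 2
  exact c1.continuousOn.add (continuousOn_const.mul hq)

lemma B_smul {y : H} {a : ℝ} (h1 : a ^ 2 * ‖y‖ ^ 2 ≤ 2) (h2 : ∀ n, a ^ 2 * M n y ≤ 1) :
    a • y ∈ B :=
  ⟨by rwa [norm_smul, mul_pow, Real.norm_eq_abs, sq_abs], fun n => by rw [M_smul]; exact h2 n⟩

lemma B_neg (y : H) (hy : y ∈ B) : -y ∈ B := by
  have := B_smul (y := y) (a := -1) (by simpa using hy.1) (by simpa using hy.2)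
  simpa using this

lemma B_small (y : H) (hy : ‖y‖ ≤ 1 / 4) : y ∈ B := by
  have h0 := norm_nonneg y
  refine ⟨by nlinarith, fun n => ?_⟩
  have a1 := abs_le.1 ((coord_le y (n + 1)).trans hy)
  have a2 := abs_le.1 ((coord_le y 0).trans hy)
  have a3 := q_le y
  have a4 := w_pos n
  have a5 := w_le n
  have a6 := q_nonneg y
  have a7 : |w n * y 0| ≤ 1 / 4 := by
    rw [abs_mul, abs_of_pos a4]
    have := (coord_le y 0).trans hy
    nlinarith [abs_nonneg (y 0)]
  have a8 := abs_le.1 a7
  have a9 : (y (n + 1) - w n * y 0) ^ 2 ≤ (1 / 2) ^ 2 := sq_le_sq' (by linarith) (by linarith)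
  have a10 : q y ≤ 1 := by nlinarith
  unfold M
  nlinarith

lemma B_strict {x y z : H} (hy : y ∈ B) (hz : z ∈ B) (m : ℝ) (hm : 0 < m)
    (hmax : ∀ v ∈ B, ⟪v, x⟫_ℝ ≤ m) (h1 : ⟪y, x⟫_ℝ = m) (h2 : ⟪z, x⟫_ℝ = m) : y = z := by
  by_contra hne
  have hne' : y - z ≠ 0 := sub_ne_zero.2 hne
  set c := (1 / 2 : ℝ) • y + (1 / 2 : ℝ) • z with hc
  have c0 : ‖c‖ ^ 2 < 2 := by
    rw [hc, norm_comb y z _ _ (by norm_num)]
    have := norm_pos_iff.2 hne'
    nlinarith [hy.1, hz.1]
  have c1 : ∀ n, M n c < 1 := fun n => by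
    rw [hc, M_comb n y z _ _ (by norm_num)]
    nlinarith [hy.2 n, hz.2 n, M_pos n _ hne']
  have c2 : Tendsto (fun n => M n c) atTop (𝓝 0) := by
    have := ((((coord_tendsto c).comp (tendsto_add_atTop_nat 1)).sub
      (w_tendsto.mul_const (c 0))).pow 2).add ((w_tendsto.div_const 4).mul_const (q c))
    simpa [M] using this
  obtain ⟨N, hN⟩ := eventually_atTop.1 (c2.eventually (gt_mem_nhds (show (0 : ℝ) < 1 / 4 by norm_num)))
  have hcont : ∀ r s : ℝ, r < s → ∀ᶠ a : ℝ in 𝓝[>] 1, a ^ 2 * r < s := by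
    intro r s hrs
    have : Tendsto (fun a : ℝ => a ^ 2 * r) (𝓝 1) (𝓝 (1 ^ 2 * r)) :=
      (Continuous.tendsto (by fun_prop) 1)
    exact (this.mono_left nhdsWithin_le_nhds).eventually (gt_mem_nhds (by linarith))
  have e1 : ∀ᶠ a : ℝ in 𝓝[>] 1, ∀ n ∈ Finset.range N, a ^ 2 * M n c < 1 :=
    (Filter.eventually_all_finset _).2 fun n _ => hcont _ _ (c1 n)
  obtain ⟨a, ⟨⟨a1, a2⟩, a3⟩, a4⟩ := (((e1.and (hcont _ _ c0)).and
    (hcont (1 / 4) 1 (by norm_num))).and self_mem_nhdsWithin).exists
  have hB : a • c ∈ B := B_smul a2.le fun n => by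
    by_cases hn : n < N
    · exact (a1 n (Finset.mem_range.2 hn)).le
    · have := hN n (by omega)
      nlinarith [sq_nonneg a]
  have h3 := hmax _ hB
  rw [real_inner_smul_left, hc, inner_add_left, real_inner_smul_left, real_inner_smul_left, h1,
    h2] at h3
  have a5 : 1 < a := a4
  nlinarith

lemma B_pt (n : ℕ) : (1 + w n / 4) • u (n + 1) + (1 / 2 : ℝ) • u 0 ∈ B := by
  have a4 := w_pos n
  have a5 := w_le n
  set y := (1 + w n / 4) • u (n + 1) + (1 / 2 : ℝ) • u 0 with hy
  have h0 : y 0 = 1 / 2 := by simp [hy, u_apply]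
  have h1 : ∀ j, y (j + 1) = if j = n then 1 + w n / 4 else 0 := fun j => by
    simp [hy, u_apply]
  have hq : q y ≤ (1 + w n / 4) ^ 2 := by
    unfold q
    rw [tsum_eq_single n fun j hj => by rw [h1, if_neg hj]; simp, h1, if_pos rfl]
    exact mul_le_of_le_one_left (by positivity) (pow_le_one₀ (by norm_num) (by norm_num))
  have hq' : q y ≤ 25 / 16 := by nlinarith
  refine ⟨?_, fun m => ?_⟩
  · rw [hy, @norm_add_sq_real, norm_smul, norm_smul, norm_u, norm_u, real_inner_smul_left,
      real_inner_smul_right, inner_u, u_apply, Real.norm_of_nonneg (by positivity)]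
    norm_num
    nlinarith
  · have b4 := w_pos m
    have b5 := w_le m
    have b6 := mul_le_mul_of_nonneg_left hq' (show 0 ≤ w m / 4 by positivity)
    unfold M
    rw [h0, h1]
    split_ifs with h
    · subst h; nlinarith
    · nlinarith

theorem counter : ∃ (X : Type) (_ : NormedAddCommGroup X) (_ : NormedSpace ℝ X)
    (_ : CompleteSpace X), Function.Surjective (NormedSpace.inclusionInDoubleDual ℝ X) ∧
      (∀ x : X, x ≠ 0 → ∃ f : X →L[ℝ] ℝ,
          ∀ v : X, HasLineDerivAt ℝ (fun y : X => ‖y‖) (f v) x v) ∧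
      ∃ E : Subspace ℝ X, IsClosed (E : Set X) ∧
        (∀ ε : ℝ, 0 < ε →
          ∀ (K : Type) [TopologicalSpace K] [CompactSpace K] [T2Space K]
            (T : ↥E →L[ℝ] C(K, ℝ)),
            ∃ S : X →L[ℝ] C(K, ℝ), (∀ e : ↥E, S (e : X) = T e) ∧ ‖S‖ ≤ (1 + ε) * ‖T‖) ∧
        ∃ T : ↥E →L[ℝ] C(OnePoint ℕ, ℝ),
          ¬ ∃ S : X →L[ℝ] C(OnePoint ℕ, ℝ), (∀ e : ↥E, S (e : X) = T e) ∧ ‖S‖ ≤ ‖T‖ := by
  obtain ⟨X, i1, i2, i3, e, h1, h2, h3⟩ := exists_polar B B_convex B_closed B_neg
    (fun y hy => B_norm hy) B_small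
  let c : ℕ → X →L[ℝ] ℝ := fun j => (innerSL ℝ (u j)).comp (e.symm : X →L[ℝ] H)
  have hc : ∀ j x, c j (e x) = x j := fun j x => by
    change ⟪u j, e.symm (e x)⟫_ℝ = _
    rw [e.symm_apply_apply, real_inner_comm, inner_u]
  let E : Subspace ℝ X := (c 0).ker
  have hE : ∀ x, x ∈ E ↔ c 0 x = 0 := fun x => Iff.rfl
  have hu : ∀ j, e (u (j + 1)) ∈ E := fun j => by rw [hE, hc, u_apply]; simp
  refine ⟨X, i1, i2, i3, h3, fun x hx => gateaux x fun φ ψ hφ hψ a1 a2 => ?_, E,
    (c 0).isClosed_ker, ?_, ?_⟩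
  · obtain ⟨y, hy, hy'⟩ := h2 φ hφ
    obtain ⟨z, hz, hz'⟩ := h2 ψ hψ
    obtain ⟨x, rfl⟩ := e.surjective x
    have := B_strict (x := x) hy hz ‖e x‖ (norm_pos_iff.2 hx)
      (fun v hv => (le_abs_self _).trans (h1 v hv x)) (by rw [← hy', a1]) (by rw [← hz', a2])
    ext v
    obtain ⟨v, rfl⟩ := e.surjective v
    rw [hy', hz', this]
  · intro ε hε K _ _ _ T
    rcases eq_or_ne T 0 with rfl | hT
    · exact ⟨0, fun _ => rfl, by simp⟩
    have hT0 : 0 < ‖T‖ := norm_pos_iff.2 hT
    have hy : ∀ k : K, ∃ y ∈ B, ∀ x (hx : e x ∈ E), T ⟨e x, hx⟩ k = ‖T‖ * ⟪y, x⟫_ℝ := by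
      intro k
      obtain ⟨g, hg1, hg2⟩ := exists_extension_norm_eq E
        (‖T‖⁻¹ • (ContinuousMap.evalCLM ℝ k).comp T)
      obtain ⟨y, hy, hy'⟩ := h2 g (by
        rw [hg2]
        refine ContinuousLinearMap.opNorm_le_bound _ zero_le_one fun x => ?_
        change ‖‖T‖⁻¹ * T x k‖ ≤ _
        rw [norm_mul, norm_inv, norm_norm, inv_mul_le_iff₀ hT0, one_mul]
        exact ((T x).norm_coe_le_norm k).trans (T.le_opNorm x))
      refine ⟨y, hy, fun x hx => ?_⟩
      have := hg1 ⟨e x, hx⟩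
      rw [← hy']
      change g (e x) = ‖T‖⁻¹ * T ⟨e x, hx⟩ k at this
      rw [this]; field_simp
    choose y hyB hy using hy
    have hco : ∀ j, Continuous fun k => (y k (j + 1) : ℝ) := fun j => by
      have : (fun k => (y k (j + 1) : ℝ)) = fun k => ‖T‖⁻¹ * T ⟨e (u (j + 1)), hu j⟩ k := by
        funext k; rw [hy, inner_u]; field_simp
      rw [this]; fun_prop
    have hq : Continuous fun k => q (y k) :=
      continuous_tsum (u := fun j => (1 / 2 : ℝ) ^ j * 2 ^ 2)
        (fun j => continuous_const.mul ((hco j).pow 2))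
        (summable_geometric_two.mul_right _) fun j k => q_term_le (y k) 2 (B_norm (hyB k)) j
    let r : ℕ → K → ℝ := fun n k => √(1 - w n / 4 * q (y k))
    have hr : ∀ n, Continuous (r n) := fun n =>
      Real.continuous_sqrt.comp (continuous_const.sub (continuous_const.mul hq))
    have hr2 : ∀ n k, |y k (n + 1) - w n * y k 0| ≤ r n k := fun n k =>
      Real.abs_le_sqrt (by have := (hyB k).2 n; unfold M at this; linarith)
    have ht : ∀ k, |y k 0| ≤ 2 := fun k => (coord_le _ _).trans (B_norm (hyB k))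
    obtain ⟨N, hN⟩ := eventually_atTop.1
      (w_tendsto.eventually (gt_mem_nhds (show (0 : ℝ) < ε / 12 by positivity)))
    obtain ⟨φ, hφ, hφ1, hφ2⟩ := squeeze_sel (fun k => (y k 0 : ℝ)) ht
      (fun n k => (y k (n + 1) - r n k) / w n) (fun n k => (y k (n + 1) + r n k) / w n)
      (fun n => (Continuous.sub (G := ℝ) (hco n) (hr n)).div_const _)
      (fun n => (Continuous.add (M := ℝ) (hco n) (hr n)).div_const _)
      (fun n k => by
        rw [div_le_iff₀ (w_pos n)]; linarith [(abs_le.1 (hr2 n k)).2])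
      (fun n k => by
        rw [le_div_iff₀ (w_pos n)]; linarith [(abs_le.1 (hr2 n k)).1]) N
    let y' : K → H := fun k => y k + (φ k - y k 0) • u 0
    have y0 : ∀ k, y' k 0 = φ k := fun k => by simp [y', u_apply]
    have y1 : ∀ k j, y' k (j + 1) = y k (j + 1) := fun k j => by simp [y', u_apply]
    have yq : ∀ k, q (y' k) = q (y k) := fun k => by simp only [q, y1]
    have hε1 : (1 + ε)⁻¹ ^ 2 * (1 + ε) ^ 2 = 1 := by field_simp
    have hε2 : 1 ≤ (1 + ε) ^ 2 := by nlinarith
    have hε3 : 0 ≤ (1 + ε)⁻¹ ^ 2 := by positivity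
    have hB' : ∀ k, (1 + ε)⁻¹ • y' k ∈ B := by
      intro k
      apply B_smul
      · have : ‖y' k‖ ^ 2 ≤ 2 * (1 + ε) ^ 2 := by
          simp only [y']
          rw [@norm_add_sq_real, real_inner_smul_right, inner_u, norm_smul, norm_u, mul_one,
            Real.norm_eq_abs, sq_abs]
          have := sq_le_sq.2 (hφ1 k)
          nlinarith [(hyB k).1]
        nlinarith [mul_le_mul_of_nonneg_left this hε3]
      · intro n
        have : M n (y' k) ≤ (1 + ε) ^ 2 := by
          have b1 := (hyB k).2 n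
          unfold M at b1 ⊢
          rw [y0, y1, yq]
          have b0 : 0 ≤ w n / 4 * q (y k) := by
            have := w_pos n
            have := q_nonneg (y k)
            positivity
          by_cases hn : n < N
          · obtain ⟨b2, b3⟩ := hφ2 n hn k
            rw [div_le_iff₀ (w_pos n)] at b2
            rw [le_div_iff₀ (w_pos n)] at b3
            have b4 : (y k (n + 1) - w n * φ k) ^ 2 ≤ r n k ^ 2 :=
              sq_le_sq' (by linarith) (by linarith)
            have b5 : r n k ^ 2 = 1 - w n / 4 * q (y k) :=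
              Real.sq_sqrt (by nlinarith [sq_nonneg (y k (n + 1) - w n * y k 0)])
            linarith
          · have b2 := hN n (by omega)
            have b3 := w_pos n
            have b3' := w_le n
            have b4 := abs_le.1 (ht k)
            have b5 := abs_le.1 ((hφ1 k).trans (ht k))
            set A := y k (n + 1) - w n * y k 0 with hA
            set D := w n * (y k 0 - φ k) with hD
            have b6 : y k (n + 1) - w n * φ k = A + D := by rw [hA, hD]; ring
            have b7 : |D| ≤ 4 * w n := by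
              rw [hD, abs_mul, abs_of_pos b3, mul_comm]
              gcongr
              rw [abs_le]; constructor <;> linarith
            have b8 : |A| ≤ 1 := by
              rw [← sq_le_one_iff_abs_le_one]; linarith
            have b9 : A * D ≤ 4 * w n := by
              refine (le_abs_self _).trans ?_
              rw [abs_mul]; nlinarith [abs_nonneg A, abs_nonneg D]
            have b10 : D ^ 2 ≤ 16 * w n := by
              rw [← sq_abs]; nlinarith [abs_nonneg D]
            rw [b6]; nlinarith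
        nlinarith [mul_le_mul_of_nonneg_left this hε3]
    let P : X →L[ℝ] E := (ContinuousLinearMap.id ℝ X - (c 0).smulRight (e (u 0))).codRestrict E
      fun x => by
        rw [hE]
        simp [hc, u_apply]
    let Φ : C(K, ℝ) := ⟨fun k => ‖T‖ * φ k, continuous_const.mul hφ⟩
    refine ⟨T.comp P + (c 0).smulRight Φ, fun x => ?_, ?_⟩
    · have a1 : c 0 (x : X) = 0 := x.2
      have a2 : P x = x := by ext; simp [P, a1]
      simp [a1, a2]
    · refine ContinuousLinearMap.opNorm_le_bound _ (by positivity) fun x => ?_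
      obtain ⟨x, rfl⟩ := e.surjective x
      refine (ContinuousMap.norm_le _ (by positivity)).2 fun k => ?_
      have a1 : e (x - x 0 • u 0) ∈ E := by rw [hE, hc]; simp [u_apply]
      have a2 : P (e x) = ⟨e (x - x 0 • u 0), a1⟩ := by ext; simp [P, hc]
      have a3 : (T.comp P + (c 0).smulRight Φ) (e x) k
          = (1 + ε) * ‖T‖ * ⟪(1 + ε)⁻¹ • y' k, x⟫_ℝ := by
        change T (P (e x)) k + c 0 (e x) * (‖T‖ * φ k) = _
        rw [a2, hy, hc]
        simp only [y', inner_sub_right, real_inner_smul_right, real_inner_smul_left,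
          inner_add_left, inner_u]
        rw [real_inner_comm x (u 0), inner_u]
        field_simp; ring
      rw [a3, Real.norm_eq_abs, abs_mul, abs_of_pos (by positivity)]
      gcongr
      exact h1 _ (hB' k) x
  · have hl : ∀ x : E, Tendsto (fun n : ℕ => (-1 : ℝ) ^ n * ((1 + w n / 4) * c (n + 1) x)) atTop
        (𝓝 0) := by
      intro x
      obtain ⟨z, hz⟩ := e.surjective x
      have := ((w_tendsto.div_const 4).const_add 1).mul
        ((coord_tendsto z).comp (tendsto_add_atTop_nat 1))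
      rw [mul_zero] at this
      refine squeeze_zero_norm (fun n => ?_) (tendsto_zero_iff_norm_tendsto_zero.1 this)
      simp [← hz, hc]
    let T0 : E →ₗ[ℝ] C(OnePoint ℕ, ℝ) :=
      { toFun := fun x => OnePoint.continuousMapMkNat _ 0 (hl x)
        map_add' := fun a b => by
          ext k
          induction k using OnePoint.rec with
          | infty => change (0 : ℝ) = 0 + 0; simp
          | coe n =>
            change _ * (_ * c (n + 1) (a + b : E)) = _ * (_ * c (n + 1) a) + _ * (_ * c (n + 1) b)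
            simp; ring
        map_smul' := fun a b => by
          ext k
          induction k using OnePoint.rec with
          | infty => change (0 : ℝ) = a * 0; simp
          | coe n =>
            change _ * (_ * c (n + 1) (a • b : E)) = a * (_ * (_ * c (n + 1) b))
            simp; ring }
    have hb : ∀ x : E, ‖T0 x‖ ≤ 1 * ‖x‖ := by
      intro x
      refine (ContinuousMap.norm_le _ (by positivity)).2 fun k => ?_
      induction k using OnePoint.rec with
      | infty => change ‖(0 : ℝ)‖ ≤ _; simp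
      | coe n =>
        change ‖(-1 : ℝ) ^ n * ((1 + w n / 4) * c (n + 1) x)‖ ≤ 1 * ‖(x : X)‖
        obtain ⟨z, hz⟩ := e.surjective x
        have a1 : z 0 = 0 := by rw [← hc, hz]; exact x.2
        have a2 := h1 _ (B_pt n) z
        rw [inner_add_left, real_inner_smul_left, real_inner_smul_left, real_inner_comm z,
          real_inner_comm z, inner_u, inner_u, a1, mul_zero, add_zero] at a2
        rw [norm_mul, ← hz, hc]
        simpa using a2
    refine ⟨T0.mkContinuous 1 hb, ?_⟩
    rintro ⟨S, hS1, hS2⟩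
    have hS3 : ‖S‖ ≤ 1 := hS2.trans (T0.mkContinuous_norm_le zero_le_one hb)
    set g := S (e (u 0)) with hg
    have key : ∀ n : ℕ, 1 / 4 ≤ (-1 : ℝ) ^ n * g n := by
      intro n
      obtain ⟨y, hy, hy'⟩ := h2 ((ContinuousMap.evalCLM ℝ (n : OnePoint ℕ)).comp S) (by
        refine ContinuousLinearMap.opNorm_le_bound _ zero_le_one fun x => ?_
        exact ((S x).norm_coe_le_norm n).trans ((S.le_opNorm x).trans (by gcongr)))
      have a1 : g n = y 0 := by rw [← inner_u, ← hy']; rfl
      have a2 : y (n + 1) = (-1 : ℝ) ^ n * (1 + w n / 4) := by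
        rw [← inner_u, ← hy']
        change S ((⟨e (u (n + 1)), hu n⟩ : E) : X) n = _
        rw [hS1]
        change (-1 : ℝ) ^ n * ((1 + w n / 4) * c (n + 1) (e (u (n + 1)))) = _
        rw [hc, u_apply]; simp
      have a3 := hy.2 n
      have b0 : 0 ≤ w n / 4 * q y := by
        have := w_pos n
        have := q_nonneg y
        positivity
      unfold M at a3
      have a4 : |y (n + 1) - w n * y 0| ≤ 1 := by
        rw [← sq_le_one_iff_abs_le_one]; linarith
      rw [a2, ← a1, abs_le] at a4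
      have a5 := w_pos n
      rcases neg_one_pow_eq_or ℝ n with h | h <;> rw [h] at a4 ⊢ <;> nlinarith [a4.1, a4.2]
    have hl2 : Tendsto (fun n : ℕ => g n) atTop (𝓝 (g OnePoint.infty)) :=
      (OnePoint.continuous_iff_from_nat g).1 g.continuous
    have e1 : 1 / 4 ≤ g OnePoint.infty :=
      ge_of_tendsto' (hl2.comp (tendsto_id.const_mul_atTop' (show 0 < 2 by norm_num))) fun n => by
        simpa using key (2 * n)
    have e2 : g OnePoint.infty ≤ -(1 / 4) :=
      le_of_tendsto' (hl2.comp ((tendsto_add_atTop_nat 1).comp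
        (tendsto_id.const_mul_atTop' (show 0 < 2 by norm_num)))) fun n => by
        have := key (2 * n + 1)
        rw [pow_succ, pow_mul] at this
        simp only [Function.comp, id]
        norm_num at this ⊢
        linarith
    linarith

end Pool.Agent.H23.Ext
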