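import Mathlib

set_option autoImplicit false
set_option maxSynthPendingDepth 3

namespace Pool.Agent.H23.FracHelly
open Finset Module

variable {E : Type} [NormedAddCommGroup E] [InnerProductSpace ℝ E] [FiniteDimensional ℝ E]
  {ι : Type} [DecidableEq ι] (C : ι → Set E)

omit [DecidableEq ι] in
lemma exists_min (hc : ∀ i, IsClosed (C i)) : ∃ X : Finset ι → E, ∀ S : Finset ι,
    (⋂ i ∈ S, C i).Nonempty → (∀ i ∈ S, X S ∈ C i) ∧ ∀ y, (∀ i ∈ S, y ∈ C i) → ‖X S‖ ≤ ‖y‖ := by
  have : ∀ S : Finset ι, ∃ x : E, (⋂ i ∈ S, C i).Nonempty →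
      (∀ i ∈ S, x ∈ C i) ∧ ∀ y, (∀ i ∈ S, y ∈ C i) → ‖x‖ ≤ ‖y‖ := by
    intro S
    by_cases h : (⋂ i ∈ S, C i).Nonempty
    · have hcl : IsClosed (⋂ i ∈ S, C i) := isClosed_iInter fun i => isClosed_iInter fun _ => hc i
      obtain ⟨x, hx, e⟩ := hcl.exists_infDist_eq_dist h 0
      refine ⟨x, fun _ => ⟨by simpa using hx, fun y hy => ?_⟩⟩
      have := Metric.infDist_le_dist_of_mem (x := (0 : E))
        (show y ∈ ⋂ i ∈ S, C i by simpa using hy)
      rwa [e, dist_zero_left, dist_zero_left] at this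
    · exact ⟨0, fun h' => absurd h' h⟩
  exact ⟨fun S => (this S).choose, fun S => (this S).choose_spec⟩

omit [DecidableEq ι] in
lemma basis (hv : ∀ i, Convex ℝ (C i)) (X : Finset ι → E) (hX : ∀ S : Finset ι,
    (⋂ i ∈ S, C i).Nonempty → (∀ i ∈ S, X S ∈ C i) ∧ ∀ y, (∀ i ∈ S, y ∈ C i) → ‖X S‖ ≤ ‖y‖)
    (S : Finset ι) (hS : (⋂ i ∈ S, C i).Nonempty) (hD : finrank ℝ E ≤ #S) :
    ∃ T ⊆ S, #T = finrank ℝ E ∧ ∀ i ∈ S, X T ∈ C i := by
  by_contra hn
  push Not at hn
  obtain ⟨s1, s2⟩ := hX S hS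
  have h1 : ∀ T ⊆ S, #T = finrank ℝ E → (∀ i ∈ T, X T ∈ C i) ∧ ‖X T‖ < ‖X S‖ := by
    intro T hT hc
    obtain ⟨t1, t2⟩ := hX T ⟨X S, by simpa using fun i hi => s1 i (hT hi)⟩
    refine ⟨t1, lt_of_le_of_ne (t2 _ fun i hi => s1 i (hT hi)) fun e => ?_⟩
    obtain ⟨i, hi, hi'⟩ := hn T hT hc
    have hne : X T ≠ X S := fun e' => hi' (e' ▸ s1 i hi)
    refine absurd ((norm_midpoint_lt_iff e).mpr hne) (not_lt.mpr (t2 _ fun j hj => ?_))
    rw [smul_add]
    exact hv j (t1 j hj) (s1 j (hT hj)) (by norm_num) (by norm_num) (by norm_num)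
  let F : Option ι → Set E := fun o => o.elim (Metric.ball 0 ‖X S‖) C
  obtain ⟨y, hy⟩ := Convex.helly_theorem' (𝕜 := ℝ) (F := F) (s := insertNone S) (by
    rintro (_ | i) _
    exacts [convex_ball _ _, hv i]) (by
    intro I hI hc
    have hsub : eraseNone I ⊆ S := fun i hi => by simpa using hI (mem_eraseNone.mp hi)
    by_cases h0 : none ∈ I
    · obtain ⟨T, a1, a2, a3⟩ := exists_subsuperset_card_eq hsub
        (show #(eraseNone I) ≤ finrank ℝ E by rw [card_eraseNone_of_mem h0]; omega) hD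
      refine ⟨X T, Set.mem_iInter₂.mpr ?_⟩
      rintro (_ | i) hi
      · simpa [F] using (h1 T a2 a3).2
      · exact (h1 T a2 a3).1 i (a1 (mem_eraseNone.mpr hi))
    · refine ⟨X S, Set.mem_iInter₂.mpr ?_⟩
      rintro (_ | i) hi
      · exact absurd hi h0
      · exact s1 i (hsub (mem_eraseNone.mpr hi)))
  have h2 := Set.mem_iInter₂.mp hy
  have h3 : ‖y‖ < ‖X S‖ := by simpa [F] using h2 none (by simp)
  exact absurd h3 (not_lt.mpr (s2 y fun i hi => h2 (some i) (by simpa using hi)))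

open Classical in
lemma count (hc : ∀ i, IsClosed (C i)) (hv : ∀ i, Convex ℝ (C i)) (P : Finset ι) (k M D : ℕ)
    (hD : finrank ℝ E = D) (hk : D + 1 ≤ k) (hM : ∀ x : E, #(P.filter fun i => x ∈ C i) ≤ M) :
    (#P).choose k ≤
      #((P.powersetCard (D + 1)).filter fun B => ¬ (⋂ i ∈ B, C i).Nonempty) *
        (#P - (D + 1)).choose (k - (D + 1)) + (#P).choose D * (M - D).choose (k - D) := by
  obtain ⟨X, hX⟩ := exists_min C hc
  have h1 : P.powersetCard k ⊆
      ((P.powersetCard (D + 1)).filter fun B => ¬ (⋂ i ∈ B, C i).Nonempty).biUnion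
        (fun B => (P.powersetCard k).filter (B ⊆ ·)) ∪
      (P.powersetCard D).biUnion
        (fun T => ((P.filter fun i => X T ∈ C i).powersetCard k).filter (T ⊆ ·)) := by
    intro S hS
    obtain ⟨a1, a2⟩ := mem_powersetCard.mp hS
    by_cases h : (⋂ i ∈ S, C i).Nonempty
    · obtain ⟨T, b1, b2, b3⟩ := basis C hv X hX S h (by omega)
      exact mem_union_right _ (mem_biUnion.mpr ⟨T, mem_powersetCard.mpr ⟨b1.trans a1, by omega⟩,
        mem_filter.mpr ⟨mem_powersetCard.mpr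
          ⟨fun i hi => mem_filter.mpr ⟨a1 hi, b3 i hi⟩, a2⟩, b1⟩⟩)
    · by_contra hn
      refine h (Convex.helly_theorem (𝕜 := ℝ) (by omega) (fun i _ => hv i) fun I hI hI' => ?_)
      by_contra hb
      exact hn (mem_union_left _ (mem_biUnion.mpr ⟨I, mem_filter.mpr
        ⟨mem_powersetCard.mpr ⟨hI.trans a1, by omega⟩, hb⟩, mem_filter.mpr ⟨hS, hI⟩⟩))
  rw [← card_powersetCard k P, ← card_powersetCard D P]
  refine (card_le_card h1).trans ((card_union_le _ _).trans (add_le_add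
    (card_biUnion_le_card_mul _ _ _ fun B hB => ?_) (card_biUnion_le_card_mul _ _ _ fun T hT => ?_)))
  · obtain ⟨a1, a2⟩ := mem_powersetCard.mp (mem_filter.mp hB).1
    rw [card_filter_powersetCard_subset B P k a1 (by omega), a2]
  · obtain ⟨a1, a2⟩ := mem_powersetCard.mp hT
    by_cases h : T ⊆ P.filter fun i => X T ∈ C i
    · rw [card_filter_powersetCard_subset T _ k h (by omega), a2]
      exact Nat.choose_le_choose _ (Nat.sub_le_sub_right (hM _) _)
    · rw [filter_eq_empty_iff.mpr fun S hS hTS => h (hTS.trans (mem_powersetCard.mp hS).1)]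
      simp

lemma choose_le (a b : ℕ) (β : ℝ) (h0 : 0 ≤ β) (h1 : β ≤ 1) (h : (a : ℝ) ≤ β * b) (j : ℕ) :
    (a.choose j : ℝ) ≤ β ^ j * b.choose j := by
  have : (a.descFactorial j : ℝ) ≤ β ^ j * b.descFactorial j := by
    induction j with
    | zero => simp
    | succ j ih =>
      rw [Nat.descFactorial_succ, Nat.descFactorial_succ, Nat.cast_mul, Nat.cast_mul]
      have h2 : ((a - j : ℕ) : ℝ) ≤ β * (b - j : ℕ) := by
        rcases le_total a j with l | l
        · rw [Nat.sub_eq_zero_of_le l, Nat.cast_zero]; positivity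
        · have hb : (j : ℝ) ≤ b := by
            have : (j : ℝ) ≤ a := by exact_mod_cast l
            nlinarith [(Nat.cast_nonneg b : (0 : ℝ) ≤ b)]
          rw [Nat.cast_sub l, Nat.cast_sub (by exact_mod_cast hb)]
          nlinarith [(Nat.cast_nonneg j : (0 : ℝ) ≤ j)]
      calc _ ≤ (β * (b - j : ℕ)) * (β ^ j * b.descFactorial j) := by gcongr
        _ = _ := by ring
  rw [Nat.descFactorial_eq_factorial_mul_choose, Nat.descFactorial_eq_factorial_mul_choose,
    Nat.cast_mul, Nat.cast_mul, mul_left_comm] at this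
  exact le_of_mul_le_mul_left this (by exact_mod_cast j.factorial_pos)

lemma exists_k (D : ℕ) (β : ℝ) (h0 : 0 < β) (h1 : β < 1) :
    ∃ k, D + 1 ≤ k ∧ β ^ (k - D) * k.choose D < 1 / 2 := by
  have h := (tendsto_pow_const_mul_const_pow_of_abs_lt_one D
    (show |β| < 1 by rwa [abs_of_pos h0])).eventually
    (gt_mem_nhds (show (0 : ℝ) < 1 / 2 * β ^ D by positivity))
  obtain ⟨k, a1, a2⟩ := (h.and (Filter.eventually_ge_atTop (D + 1))).exists
  refine ⟨k, a2, lt_of_mul_lt_mul_right ?_ (show 0 ≤ β ^ D by positivity)⟩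
  have h3 : (k.choose D : ℝ) ≤ k ^ D := by exact_mod_cast Nat.choose_le_pow k D
  calc β ^ (k - D) * k.choose D * β ^ D = k.choose D * β ^ k := by
        rw [mul_right_comm, ← pow_add, Nat.sub_add_cancel (by omega), mul_comm]
    _ ≤ k ^ D * β ^ k := by gcongr
    _ < _ := a1

open Classical in
/-- fractional Helly theorem, in the form with both fractions close to one -/
theorem frac (D : ℕ) (β : ℝ) (h0 : 0 < β) (h1 : β < 1) : ∃ ε : ℝ, 0 < ε ∧
    ∀ (E : Type) [NormedAddCommGroup E] [InnerProductSpace ℝ E] [FiniteDimensional ℝ E]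
      (ι : Type) (C : ι → Set E), finrank ℝ E = D → (∀ i, IsClosed (C i)) →
      (∀ i, Convex ℝ (C i)) → ∀ P : Finset ι, D + 1 ≤ #P →
      (#((P.powersetCard (D + 1)).filter fun B => ¬ (⋂ i ∈ B, C i).Nonempty) : ℝ) ≤
        ε * (#P).choose (D + 1) →
      ∃ x : E, β * #P ≤ #(P.filter fun i => x ∈ C i) := by
  obtain ⟨k, hk, hβ⟩ := exists_k D β h0 h1
  have hpos : (0 : ℝ) < k.choose (D + 1) := by exact_mod_cast Nat.choose_pos hk
  refine ⟨1 / (2 * k.choose (D + 1)), by positivity, fun E _ _ _ ι C hD hc hv P hP hb => ?_⟩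
  rcases le_total #P k with l | l
  · have h2 : ((#P).choose (D + 1) : ℝ) ≤ k.choose (D + 1) := by
      exact_mod_cast Nat.choose_le_choose _ l
    have h3 : (#((P.powersetCard (D + 1)).filter fun B => ¬ (⋂ i ∈ B, C i).Nonempty) : ℝ) < 1 := by
      refine hb.trans_lt ?_
      rw [div_mul_eq_mul_div, div_lt_one (by positivity)]
      linarith
    have h4 := filter_eq_empty_iff.mp (card_eq_zero.mp (Nat.lt_one_iff.mp (by exact_mod_cast h3)))
    obtain ⟨x, hx⟩ := Convex.helly_theorem (𝕜 := ℝ) (s := P) (by omega) (fun i _ => hv i)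
      fun I hI hI' => not_not.mp (h4 (mem_powersetCard.mpr ⟨hI, by omega⟩))
    refine ⟨x, ?_⟩
    rw [filter_true_of_mem fun i hi => Set.mem_iInter₂.mp hx i hi]
    nlinarith [(Nat.cast_nonneg #P : (0 : ℝ) ≤ #P)]
  · by_contra hn
    push Not at hn
    have h2 := count C hc hv P k ⌊β * #P⌋₊ D hD hk fun x => Nat.le_floor (hn x).le
    have h3 : ((⌊β * #P⌋₊ - D : ℕ) : ℝ) ≤ β * (#P - D : ℕ) := by
      rcases le_total ⌊β * #P⌋₊ D with l' | l'
      · rw [Nat.sub_eq_zero_of_le l', Nat.cast_zero]; positivity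
      · rw [Nat.cast_sub l', Nat.cast_sub (by omega)]
        nlinarith [Nat.floor_le (show 0 ≤ β * #P by positivity), (Nat.cast_nonneg D : (0 : ℝ) ≤ D)]
    have h4 := choose_le _ _ β h0.le h1.le h3 (k - D)
    have h5 : ((#P).choose k : ℝ) * k.choose D = (#P).choose D * (#P - D).choose (k - D) := by
      exact_mod_cast Nat.choose_mul (by omega)
    have h6 : ((#P).choose k : ℝ) * k.choose (D + 1) =
        (#P).choose (D + 1) * (#P - (D + 1)).choose (k - (D + 1)) := by
      exact_mod_cast Nat.choose_mul hk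
    have h7 : (0 : ℝ) < (#P).choose k := by exact_mod_cast Nat.choose_pos l
    have h8 : ((#P).choose k : ℝ) ≤ 1 / (2 * k.choose (D + 1)) * (#P).choose (D + 1) *
        (#P - (D + 1)).choose (k - (D + 1)) +
        (#P).choose D * (β ^ (k - D) * (#P - D).choose (k - D)) := by
      refine (Nat.cast_le.mpr h2).trans ?_
      push_cast
      gcongr
    rw [mul_assoc, ← h6, mul_left_comm ((#P).choose D : ℝ), ← h5] at h8
    have h9 : 1 / (2 * (k.choose (D + 1) : ℝ)) * ((#P).choose k * k.choose (D + 1)) =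
        (#P).choose k / 2 := by field_simp
    rw [h9] at h8
    nlinarith

end Pool.Agent.H23.FracHelly
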