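import Mathlib

set_option autoImplicit false
set_option maxSynthPendingDepth 3

open Polynomial

namespace Pool.Agent.H23.FreeSub

variable {k : Type} [Field k]

/-- `k + L` for a left ideal `L`. -/
def kadd {F : Type} [Ring F] [Algebra k F] (L : Ideal F) : Subalgebra k F where
  carrier := {f | ∃ c : k, f - algebraMap k F c ∈ L}
  mul_mem' := by
    rintro a b ⟨c, hc⟩ ⟨d, hd⟩
    refine ⟨c * d, ?_⟩
    have : a * b - algebraMap k F (c * d) =
        a * (b - algebraMap k F d) + algebraMap k F d * (a - algebraMap k F c) := by
      rw [mul_sub, mul_sub, Algebra.commutes d a, ← map_mul, mul_comm d c]; abel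
    rw [this]
    exact L.add_mem (L.mul_mem_left _ hd) (L.mul_mem_left _ hc)
  add_mem' := by
    rintro a b ⟨c, hc⟩ ⟨d, hd⟩
    refine ⟨c + d, ?_⟩
    have : a + b - algebraMap k F (c + d) = (a - algebraMap k F c) + (b - algebraMap k F d) := by
      rw [map_add]; abel
    rw [this]
    exact L.add_mem hc hd
  algebraMap_mem' := fun c => ⟨c, by simp⟩

lemma mem_kadd {F : Type} [Ring F] [Algebra k F] {L : Ideal F} {f : F} :
    f ∈ kadd (k := k) L ↔ ∃ c : k, f - algebraMap k F c ∈ L := Iff.rfl

lemma mem_kadd_of_mem {F : Type} [Ring F] [Algebra k F] {L : Ideal F} {f : F} (h : f ∈ L) :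
    f ∈ kadd (k := k) L := ⟨0, by simpa using h⟩

section words
variable {X : Type} (W : X → Prop)

def blk (y : List {c // ¬ W c} × {w // W w}) : List X := y.1.map Subtype.val ++ [y.2.1]

def glue (l : List (List {c // ¬ W c} × {w // W w})) : List X := l.flatMap (blk W)

open Classical in
noncomputable def parse : List X → List (List {c // ¬ W c} × {w // W w})
  | [] => []
  | a :: t => if h : W a then ([], ⟨a, h⟩) :: parse t else
      match parse t with
      | [] => []
      | (u, w) :: l => (⟨a, h⟩ :: u, w) :: l

lemma parse_blk (u : List {c // ¬ W c}) (w : {w // W w}) (t : List X) :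
    parse W (blk W (u, w) ++ t) = (u, w) :: parse W t := by
  induction u with
  | nil => simp [blk, parse, w.2]
  | cons a u ih =>
    have : blk W (a :: u, w) ++ t = a.1 :: (blk W (u, w) ++ t) := by simp [blk]
    rw [this, parse, dif_neg a.2, ih]

lemma parse_glue (l : List (List {c // ¬ W c} × {w // W w})) : parse W (glue W l) = l := by
  induction l with
  | nil => simp [glue, parse]
  | cons y l ih =>
    obtain ⟨u, w⟩ := y
    have : glue W ((u, w) :: l) = blk W (u, w) ++ glue W l := by simp [glue]
    rw [this, parse_blk, ih]

lemma glue_inj : Function.Injective (glue W) :=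
  Function.LeftInverse.injective (parse_glue W)

/-- word of a list -/
noncomputable def wd (k : Type) [Field k] {X : Type} (l : List X) : FreeAlgebra k X :=
  (l.map (FreeAlgebra.ι k)).prod

lemma wd_append (l l' : List X) : wd k (l ++ l') = wd k l * wd k l' := by simp [wd]

lemma wd_cons (a : X) (l : List X) : wd k (a :: l) = FreeAlgebra.ι k a * wd k l := by simp [wd]

lemma basis_eq (w : FreeMonoid X) :
    FreeAlgebra.basisFreeMonoid k X w = wd k (FreeMonoid.toList w) := by
  have h : ∀ l : List X, FreeAlgebra.equivMonoidAlgebraFreeMonoid (R := k) (wd k l) =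
      MonoidAlgebra.single (FreeMonoid.ofList l) 1 := by
    intro l
    induction l with
    | nil => simp [wd, MonoidAlgebra.one_def]
    | cons a l ih =>
      rw [wd_cons, map_mul, ih, FreeMonoid.ofList_cons]
      simp [FreeAlgebra.equivMonoidAlgebraFreeMonoid, MonoidAlgebra.single_mul_single]
  apply (FreeAlgebra.equivMonoidAlgebraFreeMonoid (R := k) (X := X)).injective
  rw [h]
  simp [FreeAlgebra.basisFreeMonoid]

/-- the left ideal generated by the letters in `W` -/
def L0 (k : Type) [Field k] {X : Type} (W : X → Prop) : Ideal (FreeAlgebra k X) :=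
  Ideal.span (FreeAlgebra.ι k '' {w | W w})

noncomputable def phi (k : Type) [Field k] {X : Type} (W : X → Prop) :
    FreeAlgebra k (List {c // ¬ W c} × {w // W w}) →ₐ[k] FreeAlgebra k X :=
  FreeAlgebra.lift k (fun y => wd k (blk W y))

lemma phi_wd (l : List (List {c // ¬ W c} × {w // W w})) :
    phi k W (wd k l) = wd k (glue W l) := by
  induction l with
  | nil => simp [wd, glue]
  | cons y l ih =>
    have : glue W (y :: l) = blk W y ++ glue W l := by simp [glue]
    rw [wd_cons, map_mul, ih, this, wd_append]
    simp [phi]

lemma phi_inj : Function.Injective (phi k W) := by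
  let g : FreeMonoid (List {c // ¬ W c} × {w // W w}) → FreeMonoid X :=
    fun w => FreeMonoid.ofList (glue W (FreeMonoid.toList w))
  have hg : Function.Injective g := fun a b h =>
    FreeMonoid.toList.injective (glue_inj W (FreeMonoid.ofList.injective h))
  have hli := (FreeAlgebra.basisFreeMonoid k X).linearIndependent.comp g hg
  have h2 : (phi k W).toLinearMap = (Finsupp.linearCombination k
      (FreeAlgebra.basisFreeMonoid k X ∘ g)) ∘ₗ
        (FreeAlgebra.basisFreeMonoid k _).repr.toLinearMap := by
    apply (FreeAlgebra.basisFreeMonoid k _).ext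
    intro w
    simp only [AlgHom.toLinearMap_apply, LinearMap.comp_apply, LinearEquiv.coe_coe,
      Module.Basis.repr_self, Finsupp.linearCombination_single, one_smul, Function.comp]
    rw [basis_eq, basis_eq, phi_wd]
    rfl
  have h3 : Function.Injective (phi k W).toLinearMap := by
    rw [h2]
    exact (linearIndependent_iff_injective_finsuppLinearCombination.1 hli).comp
      (FreeAlgebra.basisFreeMonoid k _).repr.injective
  exact h3

lemma phi_range : (phi k W).range = kadd (L0 k W) := by
  apply le_antisymm
  · rintro _ ⟨a, rfl⟩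
    induction a using FreeAlgebra.induction with
    | grade0 c => simp
    | grade1 y =>
      apply mem_kadd_of_mem
      have : phi k W (FreeAlgebra.ι k y) = wd k (y.1.map Subtype.val) * FreeAlgebra.ι k y.2.1 := by
        simp [phi, blk, wd]
      change phi k W (FreeAlgebra.ι k y) ∈ _
      rw [this]
      exact Ideal.mul_mem_left _ _ (Ideal.subset_span ⟨y.2.1, y.2.2, rfl⟩)
    | mul a b ha hb =>
      change phi k W (a * b) ∈ _
      rw [map_mul]; exact mul_mem ha hb
    | add a b ha hb =>
      change phi k W (a + b) ∈ _
      rw [map_add]; exact add_mem ha hb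
  · have key : ∀ (t : List X) (y : List {c // ¬ W c} × {w // W w}),
        wd k t * wd k (blk W y) ∈ (phi k W).range := by
      intro t
      induction t using List.reverseRecOn with
      | nil =>
        intro y
        exact ⟨FreeAlgebra.ι k y, by simp [phi, wd]⟩
      | append_singleton t a ih =>
        intro y
        by_cases ha : W a
        · have h1 := ih ([], ⟨a, ha⟩)
          have h2 : wd k (t ++ [a]) = wd k t * wd k (blk W ([], ⟨a, ha⟩)) := by
            rw [wd_append]; rfl
          rw [h2]
          exact mul_mem h1 ⟨FreeAlgebra.ι k y, by simp [phi]⟩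
        · have h1 := ih (⟨a, ha⟩ :: y.1, y.2)
          have h2 : wd k (t ++ [a]) * wd k (blk W y) =
              wd k t * wd k (blk W (⟨a, ha⟩ :: y.1, y.2)) := by
            rw [← wd_append, ← wd_append]
            simp [blk]
          rw [h2]; exact h1
    have key2 : ∀ (f : FreeAlgebra k X) (w : X), W w →
        f * FreeAlgebra.ι k w ∈ (phi k W).range := by
      intro f w hw
      have hf : f ∈ Submodule.span k (Set.range (FreeAlgebra.basisFreeMonoid k X)) := by
        rw [Module.Basis.span_eq]; trivial
      induction hf using Submodule.span_induction with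
      | mem x hx =>
        obtain ⟨t, rfl⟩ := hx
        rw [basis_eq]
        have := key (FreeMonoid.toList t) ([], ⟨w, hw⟩)
        simpa [blk, wd] using this
      | zero => simp
      | add x y _ _ hx hy => rw [add_mul]; exact add_mem hx hy
      | smul c x _ hx => rw [smul_mul_assoc]; exact Subalgebra.smul_mem _ hx c
    have key3 : ∀ l ∈ L0 k W, ∀ f : FreeAlgebra k X, f * l ∈ (phi k W).range := by
      intro l hl
      induction hl using Submodule.span_induction with
      | mem x hx =>
        obtain ⟨w, hw, rfl⟩ := hx
        exact fun f => key2 f w hw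
      | zero => simp
      | add x y _ _ hx hy => intro f; rw [mul_add]; exact add_mem (hx f) (hy f)
      | smul c x _ hx => intro f; rw [smul_eq_mul, ← mul_assoc]; exact hx _
    rintro f ⟨c, hc⟩
    have h1 := key3 _ hc 1
    rw [one_mul] at h1
    have := add_mem h1 (Subalgebra.algebraMap_mem (phi k W).range c)
    simpa using this

lemma free_L0 : ∃ Y : Type, Nonempty (kadd (k := k) (L0 k W) ≃ₐ[k] FreeAlgebra k Y) :=
  ⟨_, ⟨((AlgEquiv.ofInjective (phi k W) (phi_inj W)).trans
    (Subalgebra.equivOfEq _ _ (phi_range W))).symm⟩⟩

end words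

end Pool.Agent.H23.FreeSub
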