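import Mathlib
import Pool.Agent.H23.FreeSub1

set_option autoImplicit false
set_option maxSynthPendingDepth 3

open Polynomial

namespace Pool.Agent.H23.FreeSub

variable {k : Type} [Field k]

section mods
variable {M M' : Type} [AddCommGroup M] [Module k[X] M] [AddCommGroup M'] [Module k[X] M']

abbrev FF (k : Type) [Field k] (M : Type) := FreeAlgebra k (Option M)

noncomputable def yy (k : Type) [Field k] (M : Type) : FF k M := FreeAlgebra.ι k none
noncomputable def ee (k : Type) [Field k] {M : Type} (p : M) : FF k M := FreeAlgebra.ι k (some p)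

def Gens (k : Type) [Field k] (M : Type) [AddCommGroup M] [Module k[X] M] : Set (FF k M) :=
  {g | g = yy k M ∨ (∃ p q : M, g = ee k (p + q) - ee k p - ee k q) ∨
    ∃ (r : k[X]) (p : M), g = ee k (r • p) - aeval (yy k M) r * ee k p}

def LL (k : Type) [Field k] (M : Type) [AddCommGroup M] [Module k[X] M] : Ideal (FF k M) :=
  Ideal.span (Gens k M)

lemma y_mem : yy k M ∈ LL k M := Ideal.subset_span (Or.inl rfl)
lemma add_mem_L (p q : M) : ee k (p + q) - ee k p - ee k q ∈ LL k M :=
  Ideal.subset_span (Or.inr (Or.inl ⟨p, q, rfl⟩))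
lemma smul_mem_L (r : k[X]) (p : M) : ee k (r • p) - aeval (yy k M) r * ee k p ∈ LL k M :=
  Ideal.subset_span (Or.inr (Or.inr ⟨r, p, rfl⟩))

noncomputable def Fmap (k : Type) [Field k] {M M' : Type} (f : M → M') : FF k M →ₐ[k] FF k M' :=
  FreeAlgebra.lift k (fun x => FreeAlgebra.ι k (Option.map f x))

@[simp] lemma Fmap_y {N N' : Type} (f : N → N') : Fmap k f (yy k N) = yy k N' := by
  simp [Fmap, yy]
@[simp] lemma Fmap_e {N N' : Type} (f : N → N') (p : N) : Fmap k f (ee k p) = ee k (f p) := by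
  simp [Fmap, ee]
lemma Fmap_aeval {N N' : Type} (f : N → N') (r : k[X]) :
    Fmap k f (aeval (yy k N) r) = aeval (yy k N') r := by
  rw [← Polynomial.aeval_algHom_apply, Fmap_y]

lemma hom_ext' {N B : Type} [Ring B] [Algebra k B] {φ ψ : FF k N →ₐ[k] B}
    (h1 : φ (yy k N) = ψ (yy k N)) (h2 : ∀ p, φ (ee k p) = ψ (ee k p)) : φ = ψ := by
  apply FreeAlgebra.hom_ext
  funext x
  cases x with
  | none => exact h1
  | some p => exact h2 p

lemma Fmap_comp {N N' N'' : Type} (f : N → N') (g : N' → N'') (a : FF k N) :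
    Fmap k g (Fmap k f a) = Fmap k (g ∘ f) a := by
  have : (Fmap k g).comp (Fmap k f) = Fmap k (g ∘ f) := hom_ext' (by simp) (by simp)
  exact DFunLike.congr_fun this a

lemma Fmap_id {N : Type} (a : FF k N) : Fmap k id a = a := by
  have : Fmap k (id : N → N) = AlgHom.id k _ := hom_ext' (by simp) (by simp)
  exact DFunLike.congr_fun this a

lemma Fmap_inj {N N' : Type} [Nonempty N] (f : N → N') (hf : Function.Injective f) :
    Function.Injective (Fmap k f) := by
  obtain ⟨g, hg⟩ := hf.hasLeftInverse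
  apply Function.LeftInverse.injective (g := Fmap k g)
  intro a
  rw [Fmap_comp, hg.comp_eq_id, Fmap_id]

lemma Fmap_L (f : M →ₗ[k[X]] M') (l : FF k M) (hl : l ∈ LL k M) : Fmap k f l ∈ LL k M' := by
  induction hl using Submodule.span_induction with
  | mem x hx =>
    rcases hx with rfl | ⟨p, q, rfl⟩ | ⟨r, p, rfl⟩
    · rw [Fmap_y]; exact y_mem
    · simp only [map_sub, Fmap_e, map_add]; exact add_mem_L _ _
    · simp only [map_sub, map_mul, Fmap_e, map_smul, Fmap_aeval]; exact smul_mem_L _ _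
  | zero => simp
  | add x y _ _ hx hy => rw [map_add]; exact add_mem hx hy
  | smul c x _ hx => rw [smul_eq_mul, map_mul]; exact Ideal.mul_mem_left _ _ hx

lemma Fmap_A (f : M →ₗ[k[X]] M') (a : FF k M) (ha : a ∈ kadd (k := k) (LL k M)) :
    Fmap k f a ∈ kadd (k := k) (LL k M') := by
  obtain ⟨c, hc⟩ := ha
  refine ⟨c, ?_⟩
  have := Fmap_L f _ hc
  rwa [map_sub, AlgHom.commutes] at this

lemma fin_agree {N N' : Type} (a : FF k N) : ∃ T : Set N, T.Finite ∧
    ∀ f g : N → N', (∀ t ∈ T, f t = g t) → Fmap k f a = Fmap k g a := by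
  induction a using FreeAlgebra.induction with
  | grade0 c => exact ⟨∅, Set.finite_empty, fun f g _ => by simp⟩
  | grade1 x =>
    cases x with
    | none => exact ⟨∅, Set.finite_empty, fun f g _ => by
        change Fmap k f (yy k N) = Fmap k g (yy k N); simp⟩
    | some p => exact ⟨{p}, Set.finite_singleton p, fun f g h => by
        change Fmap k f (ee k p) = Fmap k g (ee k p); simp [h p rfl]⟩
  | mul a b ha hb =>
    obtain ⟨T, hT, h⟩ := ha
    obtain ⟨T', hT', h'⟩ := hb
    exact ⟨T ∪ T', hT.union hT', fun f g hfg => by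
      rw [map_mul, map_mul, h f g (fun t ht => hfg t (Or.inl ht)),
        h' f g (fun t ht => hfg t (Or.inr ht))]⟩
  | add a b ha hb =>
    obtain ⟨T, hT, h⟩ := ha
    obtain ⟨T', hT', h'⟩ := hb
    exact ⟨T ∪ T', hT.union hT', fun f g hfg => by
      rw [map_add, map_add, h f g (fun t ht => hfg t (Or.inl ht)),
        h' f g (fun t ht => hfg t (Or.inr ht))]⟩

lemma fin_range {N N' : Type} [Nonempty N] (i : N → N') (a : FF k N') : ∃ T : Set N', T.Finite ∧
    ∀ σ : N' → N', (∀ t ∈ T, σ t ∈ Set.range i) → ∃ b, Fmap k i b = Fmap k σ a := by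
  obtain ⟨T, hT, h⟩ := fin_agree (N' := N') a
  refine ⟨T, hT, fun σ hσ => ⟨Fmap k (Function.invFun i ∘ σ) a, ?_⟩⟩
  rw [Fmap_comp]
  exact h _ _ (fun t ht => Function.invFun_eq (hσ t ht))

lemma fin_range_L (i : M →ₗ[k[X]] M') (l : FF k M') (hl : l ∈ LL k M') :
    ∃ T : Set M', T.Finite ∧ ∀ σ : M' →ₗ[k[X]] M', (∀ t ∈ T, σ t ∈ Set.range i) →
      ∃ b ∈ LL k M, Fmap k i b = Fmap k σ l := by
  induction hl using Submodule.span_induction with
  | mem x hx =>
    rcases hx with rfl | ⟨p, q, rfl⟩ | ⟨r, p, rfl⟩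
    · exact ⟨∅, Set.finite_empty, fun σ _ => ⟨yy k M, y_mem, by simp⟩⟩
    · refine ⟨{p, q}, Set.toFinite _, fun σ h => ?_⟩
      obtain ⟨p', hp⟩ := h p (by simp)
      obtain ⟨q', hq⟩ := h q (by simp)
      exact ⟨_, add_mem_L p' q', by simp [hp, hq]⟩
    · refine ⟨{p}, Set.toFinite _, fun σ h => ?_⟩
      obtain ⟨p', hp⟩ := h p (by simp)
      exact ⟨_, smul_mem_L r p', by simp [hp, Fmap_aeval]⟩
  | zero => exact ⟨∅, Set.finite_empty, fun σ _ => ⟨0, zero_mem _, by simp⟩⟩
  | add x y _ _ hx hy =>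
    obtain ⟨T, hT, h⟩ := hx
    obtain ⟨T', hT', h'⟩ := hy
    refine ⟨T ∪ T', hT.union hT', fun σ hσ => ?_⟩
    obtain ⟨b, hb, e⟩ := h σ (fun t ht => hσ t (Or.inl ht))
    obtain ⟨b', hb', e'⟩ := h' σ (fun t ht => hσ t (Or.inr ht))
    exact ⟨b + b', add_mem hb hb', by rw [map_add, map_add, e, e']⟩
  | smul c x _ hx =>
    obtain ⟨T, hT, h⟩ := hx
    have : Nonempty M := ⟨0⟩
    obtain ⟨T', hT', h'⟩ := fin_range (k := k) i c
    refine ⟨T ∪ T', hT.union hT', fun σ hσ => ?_⟩
    obtain ⟨b, hb, e⟩ := h σ (fun t ht => hσ t (Or.inl ht))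
    obtain ⟨b', e'⟩ := h' σ (fun t ht => hσ t (Or.inr ht))
    exact ⟨b' * b, Ideal.mul_mem_left _ _ hb, by rw [smul_eq_mul, map_mul, map_mul, e, e']⟩

end mods

/-! ### the free module -/

abbrev SS (k : Type) [Field k] := ℕ →₀ k[X]
abbrev PP (k : Type) [Field k] := ℕ → k[X]

noncomputable def lft (s : SS k) : FF k (SS k) :=
  s.sum fun n r => aeval (yy k (SS k)) r * ee k (Finsupp.single n (1 : k[X]))

lemma lft_zero : lft (0 : SS k) = 0 := by simp [lft]
lemma lft_add (s t : SS k) : lft (s + t) = lft s + lft t := by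
  unfold lft
  rw [Finsupp.sum_add_index'] <;> simp [add_mul]
lemma lft_single (n : ℕ) (r : k[X]) :
    lft (Finsupp.single n r) = aeval (yy k (SS k)) r * ee k (Finsupp.single n (1 : k[X])) := by
  unfold lft
  rw [Finsupp.sum_single_index]; simp
lemma lft_smul (r : k[X]) (s : SS k) : lft (r • s) = aeval (yy k (SS k)) r * lft s := by
  induction s using Finsupp.induction_linear with
  | zero => simp [lft_zero]
  | add s t hs ht => rw [smul_add, lft_add, lft_add, hs, ht, mul_add]
  | single n c => rw [Finsupp.smul_single, lft_single, lft_single, smul_eq_mul, map_mul, mul_assoc]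

def IsB (s : SS k) : Prop := ∃ n, s = Finsupp.single n 1

open Classical in
noncomputable def tau (c : k) : FF k (SS k) →ₐ[k] FF k (SS k) :=
  FreeAlgebra.lift k (fun x => match x with
    | none => yy k (SS k)
    | some s => if IsB s then ee k s else ee k s + c • lft s)

lemma tau_y (c : k) : tau c (yy k (SS k)) = yy k (SS k) := by simp [tau, yy]
lemma tau_eB (c : k) (s : SS k) (h : IsB s) : tau c (ee k s) = ee k s := by
  simp [tau, ee, h]
lemma tau_eN (c : k) (s : SS k) (h : ¬ IsB s) : tau c (ee k s) = ee k s + c • lft s := by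
  simp [tau, ee, h]
lemma tau_aeval (c : k) (r : k[X]) : tau c (aeval (yy k (SS k)) r) = aeval (yy k (SS k)) r := by
  rw [← Polynomial.aeval_algHom_apply, tau_y]
lemma tau_lft (c : k) (s : SS k) : tau c (lft s) = lft s := by
  induction s using Finsupp.induction_linear with
  | zero => simp [lft_zero]
  | add s t hs ht => rw [lft_add, map_add, hs, ht]
  | single n r => rw [lft_single, map_mul, tau_aeval, tau_eB c _ ⟨n, rfl⟩]

lemma tau_tau (c : k) (a : FF k (SS k)) : tau c (tau (-c) a) = a := by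
  have : (tau c).comp (tau (-c)) = AlgHom.id k _ := by
    apply hom_ext'
    · simp [tau_y]
    · intro p
      by_cases h : IsB p
      · simp [tau_eB _ _ h]
      · simp [tau_eN _ _ h, tau_lft]
  exact DFunLike.congr_fun this a

def WW (x : Option (SS k)) : Prop := ∀ s, x = some s → ¬ IsB s

lemma e_lft_L (s : SS k) : ee k s - lft s ∈ LL k (SS k) := by
  induction s using Finsupp.induction_linear with
  | zero =>
    have := neg_mem (add_mem_L (k := k) (0 : SS k) 0)
    simpa [lft_zero] using this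
  | add s t hs ht =>
    have := add_mem (add_mem_L (k := k) s t) (add_mem hs ht)
    rw [lft_add]
    have e : ee k (s + t) - (lft s + lft t) =
      ee k (s + t) - ee k s - ee k t + (ee k s - lft s + (ee k t - lft t)) := by abel
    rw [e]; exact this
  | single n r =>
    have := smul_mem_L (k := k) r (Finsupp.single n (1 : k[X]))
    rw [lft_single]
    simpa using this

lemma tau_L0 (l : FF k (SS k)) (hl : l ∈ L0 k (WW (k := k))) : tau (-1) l ∈ LL k (SS k) := by
  induction hl using Submodule.span_induction with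
  | mem x hx =>
    obtain ⟨w, hw, rfl⟩ := hx
    cases w with
    | none =>
      change tau (-1) (yy k (SS k)) ∈ _
      rw [tau_y]; exact y_mem
    | some s =>
      change tau (-1) (ee k s) ∈ _
      rw [tau_eN _ _ (hw s rfl)]
      have := e_lft_L s
      rwa [neg_one_smul, ← sub_eq_add_neg]
  | zero => simp
  | add x y _ _ hx hy => rw [map_add]; exact add_mem hx hy
  | smul c x _ hx => rw [smul_eq_mul, map_mul]; exact Ideal.mul_mem_left _ _ hx

lemma tau_e_lft (s : SS k) : tau 1 (ee k s) - lft s ∈ L0 k (WW (k := k)) := by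
  by_cases h : IsB s
  · rw [tau_eB _ _ h]
    obtain ⟨n, rfl⟩ := h
    rw [lft_single]; simp
  · rw [tau_eN _ _ h, one_smul, add_sub_cancel_right]
    refine Ideal.subset_span ⟨some s, ?_, rfl⟩
    intro t ht
    cases ht
    exact h

lemma tau_LL (l : FF k (SS k)) (hl : l ∈ LL k (SS k)) : tau 1 l ∈ L0 k (WW (k := k)) := by
  induction hl using Submodule.span_induction with
  | mem x hx =>
    rcases hx with rfl | ⟨p, q, rfl⟩ | ⟨r, p, rfl⟩
    · rw [tau_y]
      exact Ideal.subset_span ⟨none, fun s hs => (by cases hs), rfl⟩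
    · have := sub_mem (sub_mem (tau_e_lft (p + q)) (tau_e_lft p)) (tau_e_lft q)
      rw [lft_add] at this
      rw [map_sub, map_sub]
      have e : tau 1 (ee k (p + q)) - tau 1 (ee k p) - tau 1 (ee k q) =
        tau 1 (ee k (p + q)) - (lft p + lft q) - (tau 1 (ee k p) - lft p) -
          (tau 1 (ee k q) - lft q) := by abel
      rw [e]; exact this
    · have := sub_mem (tau_e_lft (r • p))
        (Ideal.mul_mem_left _ (aeval (yy k (SS k)) r) (tau_e_lft p))
      rw [lft_smul, mul_sub] at this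
      rw [map_sub, map_mul, tau_aeval]
      have e : tau 1 (ee k (r • p)) - aeval (yy k (SS k)) r * tau 1 (ee k p) =
        tau 1 (ee k (r • p)) - aeval (yy k (SS k)) r * lft p -
          (aeval (yy k (SS k)) r * tau 1 (ee k p) - aeval (yy k (SS k)) r * lft p) := by abel
      rw [e]; exact this
  | zero => simp
  | add x y _ _ hx hy => rw [map_add]; exact add_mem hx hy
  | smul c x _ hx => rw [smul_eq_mul, map_mul]; exact Ideal.mul_mem_left _ _ hx

lemma free_S : ∃ Y : Type,
    Nonempty (kadd (k := k) (LL k (SS k)) ≃ₐ[k] FreeAlgebra k Y) := by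
  obtain ⟨Y, ⟨e⟩⟩ := free_L0 (k := k) (WW (k := k))
  have h2 : ∀ a : FF k (SS k), tau (-1) (tau 1 a) = a := by
    intro a
    have := tau_tau (-1 : k) a
    rwa [neg_neg] at this
  let t : FF k (SS k) ≃ₐ[k] FF k (SS k) :=
    AlgEquiv.ofAlgHom (tau 1) (tau (-1)) (AlgHom.ext (tau_tau 1)) (AlgHom.ext h2)
  have hm : (kadd (k := k) (LL k (SS k))).map (t : FF k (SS k) →ₐ[k] FF k (SS k)) =
      kadd (L0 k (WW (k := k))) := by
    apply le_antisymm
    · rintro _ ⟨a, ⟨c, hc⟩, rfl⟩
      refine ⟨c, ?_⟩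
      have := tau_LL _ hc
      rw [map_sub, AlgHom.commutes] at this
      exact this
    · rintro a ⟨c, hc⟩
      refine ⟨tau (-1) a, ⟨c, ?_⟩, tau_tau 1 a⟩
      have := tau_L0 _ hc
      rwa [map_sub, AlgHom.commutes] at this
  exact ⟨Y, ⟨((t.subalgebraMap _).trans (Subalgebra.equivOfEq _ _ hm)).trans e⟩⟩

end Pool.Agent.H23.FreeSub
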