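import Mathlib
import Pool.Agent.H23.FreeSub2

set_option autoImplicit false
set_option maxSynthPendingDepth 3

open Polynomial

namespace Pool.Agent.H23.FreeSub

variable {k : Type} [Field k]

/-! ### homogeneity of the product module -/

lemma step (n : ℕ) (p : PP k) : ∃ (σ : PP k ≃ₗ[k[X]] PP k) (m : ℕ),
    (∀ x : PP k, (∀ j, n ≤ j → x j = 0) → σ x = x) ∧ ∀ j, m ≤ j → σ p j = 0 := by
  let I : ℕ →o Submodule k[X] k[X] :=
    ⟨fun m => Submodule.span k[X] (p '' (Finset.Ico n m : Set ℕ)), fun a b hab =>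
      Submodule.span_mono (Set.image_mono (by
        intro x hx
        simp only [Finset.coe_Ico, Set.mem_Ico] at hx ⊢
        omega))⟩
  obtain ⟨m0, hm0⟩ := monotone_stabilizes_iff_noetherian.2
    (inferInstance : IsNoetherian k[X] k[X]) I
  let m := max n m0
  have hc : ∀ j, m ≤ j → ∃ c : ℕ → k[X], ∑ i ∈ Finset.Ico n m, c i • p i = p j := by
    intro j hj
    have h1 : p j ∈ I (j + 1) := Submodule.subset_span ⟨j, by
      simp only [Finset.coe_Ico, Set.mem_Ico]; omega, rfl⟩
    rw [← hm0 (j + 1) (by omega), hm0 m (by omega)] at h1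
    exact (Submodule.mem_span_image_finset_iff_exists_fun' k[X]).1 h1
  choose! c hc using hc
  let N : PP k →ₗ[k[X]] PP k :=
    { toFun := fun x j => if m ≤ j then ∑ i ∈ Finset.Ico n m, c j i • x i else 0
      map_add' := by
        intro x y; funext j
        by_cases h : m ≤ j <;> simp [h, mul_add, Finset.sum_add_distrib]
      map_smul' := by
        intro r x; funext j
        by_cases h : m ≤ j <;> simp [h, Finset.mul_sum, mul_left_comm] }
  have hN : ∀ x j, N x j = if m ≤ j then ∑ i ∈ Finset.Ico n m, c j i • x i else 0 :=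
    fun _ _ => rfl
  have hNN : ∀ x, N (N x) = 0 := by
    intro x; funext j
    rw [hN]
    split_ifs with h
    · apply Finset.sum_eq_zero
      intro i hi
      rw [hN, if_neg (by simp only [Finset.mem_Ico] at hi; omega), smul_zero]
    · rfl
  refine ⟨LinearEquiv.ofLinearMap (LinearMap.id - N) (LinearMap.id + N) ?_ ?_, m, ?_, ?_⟩
  · ext1 x; simp [hNN]
  · ext1 x; simp [hNN]
  · intro x hx
    have : N x = 0 := by
      funext j
      rw [hN]
      split_ifs with h
      · apply Finset.sum_eq_zero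
        intro i hi
        rw [hx i (by simp only [Finset.mem_Ico] at hi; omega), smul_zero]
      · rfl
    simp [this]
  · intro j hj
    have : N p j = p j := by rw [hN, if_pos hj, hc j hj]
    simp [this]

lemma homog_fin (T : Set (PP k)) (hT : T.Finite) : ∀ n : ℕ, ∃ (σ : PP k ≃ₗ[k[X]] PP k) (m : ℕ),
    (∀ x : PP k, (∀ j, n ≤ j → x j = 0) → σ x = x) ∧ ∀ p ∈ T, ∀ j, m ≤ j → σ p j = 0 := by
  induction T, hT using Set.Finite.induction_on with
  | empty => intro n; exact ⟨LinearEquiv.refl _ _, 0, fun _ _ => rfl, by simp⟩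
  | @insert p T _ _ ih =>
    intro n
    obtain ⟨σ, m, h1, h2⟩ := ih n
    obtain ⟨σ', m', h1', h2'⟩ := step (max n m) (σ p)
    refine ⟨σ.trans σ', max m m', ?_, ?_⟩
    · intro x hx
      rw [LinearEquiv.trans_apply, h1 x hx, h1' x (fun j hj => hx j (by omega))]
    · intro q hq j hj
      rcases hq with rfl | hq
      · exact h2' j (by omega)
      · rw [LinearEquiv.trans_apply, h1' _ (fun j hj => h2 q hq j (by omega))]
        exact h2 q hq j (by omega)

noncomputable def inc (k : Type) [Field k] : SS k →ₗ[k[X]] PP k := Finsupp.lcoeFun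

lemma inc_inj : Function.Injective (inc k) := fun _ _ h => DFunLike.coe_injective h

lemma homog (T0 : Set (SS k)) (h0 : T0.Finite) (T : Set (PP k)) (hT : T.Finite) :
    ∃ σ : PP k ≃ₗ[k[X]] PP k, (∀ s ∈ T0, σ (inc k s) = inc k s) ∧
      ∀ p ∈ T, σ p ∈ Set.range (inc k) := by
  obtain ⟨n, hn⟩ : ∃ n : ℕ, ∀ s ∈ T0, ∀ j, n ≤ j → s j = 0 := by
    induction T0, h0 using Set.Finite.induction_on with
    | empty => exact ⟨0, by simp⟩
    | @insert s T _ _ ih =>
      obtain ⟨n, hn⟩ := ih
      refine ⟨max n (s.support.sup id + 1), ?_⟩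
      intro t ht j hj
      rcases ht with rfl | ht
      · by_contra hne
        have := Finset.le_sup (f := id) (Finsupp.mem_support_iff.2 hne)
        simp only [id] at this
        omega
      · exact hn t ht j (by omega)
  obtain ⟨σ, m, h1, h2⟩ := homog_fin T hT n
  refine ⟨σ, fun s hs => h1 _ (hn s hs), fun p hp => ?_⟩
  refine ⟨Finsupp.ofSupportFinite (σ p) ((Set.finite_lt_nat m).subset ?_), rfl⟩
  intro j hj
  by_contra hlt
  exact hj (h2 p hp j (by simpa using hlt))

lemma reflect (a : FF k (SS k)) (h : Fmap k (inc k) a ∈ kadd (k := k) (LL k (PP k))) :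
    a ∈ kadd (k := k) (LL k (SS k)) := by
  obtain ⟨c, hc⟩ := h
  refine ⟨c, ?_⟩
  rw [← AlgHom.commutes (Fmap k (inc k)), ← map_sub] at hc
  obtain ⟨T, hT, h⟩ := fin_range_L (inc k) _ hc
  obtain ⟨T0, h0, h'⟩ := fin_agree (k := k) (N' := PP k) (a - algebraMap k _ c)
  obtain ⟨σ, h1, h2⟩ := homog T0 h0 T hT
  obtain ⟨b, hb, e⟩ := h σ.toLinearMap h2
  rw [Fmap_comp, h' (σ.toLinearMap ∘ inc k) (inc k) h1] at e
  rwa [← Fmap_inj _ inc_inj e]

lemma homogF {n : ℕ} (x : Fin n → FF k (SS k)) (a : FF k (PP k)) :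
    ∃ σ : PP k ≃ₗ[k[X]] PP k, (∀ j, Fmap k σ (Fmap k (inc k) (x j)) = Fmap k (inc k) (x j)) ∧
      ∃ b, Fmap k (inc k) b = Fmap k σ a := by
  choose T0 h0 h' using fun j => fin_agree (k := k) (N' := PP k) (x j)
  obtain ⟨T, hT, h⟩ := fin_range (k := k) (inc k) a
  obtain ⟨σ, h1, h2⟩ := homog (⋃ j, T0 j) (Set.finite_iUnion h0) T hT
  refine ⟨σ, fun j => ?_, h σ h2⟩
  rw [Fmap_comp]
  exact h' j _ _ (fun t ht => h1 t (Set.mem_iUnion.2 ⟨j, ht⟩))

/-! ### the product module is not a summand of a free module -/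

lemma not_summand {Y : Type} (ψ : PP k →ₗ[k[X]] (Y →₀ k[X])) (v : Y → PP k)
    (h : ∀ p, Finsupp.linearCombination k[X] v (ψ p) = p) : False := by
  classical
  let I0 : Set Y := ⋃ n, ((ψ (Pi.single n 1)).support : Set Y)
  have hI0 : I0.Countable := Set.countable_iUnion fun n => (Finset.finite_toSet _).countable
  let pd : (ℕ → k) → PP k := fun δ n => C (δ n) * X ^ n
  have hsupp : ∀ δ, ∀ j, j ∉ I0 → ψ (pd δ) j = 0 := by
    intro δ j hj
    have hdiv : ∀ N, X ^ N ∣ ψ (pd δ) j := by
      intro N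
      have e : pd δ = ∑ n ∈ Finset.range N, (C (δ n) * X ^ n : k[X]) • (Pi.single n 1 : PP k) +
          (X ^ N : k[X]) • (fun n => if N ≤ n then C (δ n) * X ^ (n - N) else 0 : PP k) := by
        funext n
        simp only [pd, Pi.add_apply, Finset.sum_apply, Pi.smul_apply, smul_eq_mul,
          Pi.single_apply, mul_ite, mul_one, mul_zero, Finset.sum_ite_eq, Finset.mem_range]
        by_cases hn : n < N
        · rw [if_pos hn, if_neg (by omega), add_zero]
        · rw [if_neg hn, if_pos (by omega), zero_add, mul_left_comm, ← pow_add]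
          congr 2; omega
      rw [e, map_add, map_sum, map_smul, Finsupp.add_apply, Finsupp.finsetSum_apply,
        Finset.sum_eq_zero, zero_add, Finsupp.smul_apply, smul_eq_mul]
      · exact Dvd.intro _ rfl
      · intro n _
        have : ψ (Pi.single n 1) j = 0 := by
          by_contra hne
          exact hj (Set.mem_iUnion.2 ⟨n, Finsupp.mem_support_iff.2 hne⟩)
        rw [map_smul, Finsupp.smul_apply, this, smul_zero]
    by_contra hne
    have := Polynomial.natDegree_le_of_dvd (hdiv ((ψ (pd δ) j).natDegree + 1)) hne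
    rw [Polynomial.natDegree_X_pow] at this
    omega
  let dg : PP k →ₗ[k] (ℕ → k) :=
    { toFun := fun p n => (p n).coeff n
      map_add' := by intro x y; funext n; simp
      map_smul' := by intro r x; funext n; simp }
  let G : Set (ℕ → k) := (fun q : Y × ℕ => dg ((X ^ q.2 : k[X]) • v q.1)) '' (I0 ×ˢ Set.univ)
  have hG : G.Countable := (hI0.prod Set.countable_univ).image _
  have hspan : Submodule.span k G = ⊤ := by
    rw [eq_top_iff]
    intro δ _
    have e1 : δ = dg (pd δ) := by funext n; simp [dg, pd]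
    rw [e1, ← h (pd δ), Finsupp.linearCombination_apply, Finsupp.sum, map_sum]
    apply Submodule.sum_mem
    intro j hj
    have hj0 : j ∈ I0 := by
      by_contra hn
      exact Finsupp.mem_support_iff.1 hj (hsupp δ j hn)
    generalize ψ (pd δ) j = r
    induction r using Polynomial.induction_on' with
    | add a b ha hb => rw [add_smul, map_add]; exact add_mem ha hb
    | monomial m c =>
      rw [← Polynomial.smul_X_eq_monomial, smul_assoc, map_smul]
      exact Submodule.smul_mem _ _ (Submodule.subset_span ⟨(j, m), ⟨hj0, trivial⟩, rfl⟩)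
  have h1 : Module.rank k (ℕ → k) ≤ Cardinal.aleph0 := by
    rw [← rank_top, ← hspan]
    exact (rank_span_le G).trans (Cardinal.le_aleph0_iff_set_countable.2 hG)
  rw [rank_fun_infinite] at h1
  have h2 : Cardinal.aleph0 < Cardinal.mk (ℕ → k) := by
    have : Uncountable (ℕ → k) := by
      rw [← not_countable_iff]
      intro hc
      obtain ⟨f, hf⟩ := exists_surjective_nat (ℕ → k)
      obtain ⟨n, hn⟩ := hf (fun n => f n n + 1)
      have := congrFun hn n
      simp at this
    exact Cardinal.aleph0_lt_mk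
  exact absurd h1 (not_le.2 h2)

end Pool.Agent.H23.FreeSub
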