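import Mathlib
import Pool.Agent.H23.FreeSub3

set_option autoImplicit false
set_option maxSynthPendingDepth 3

open Polynomial

namespace Pool.Agent.H23.FreeSub

variable {k : Type} [Field k]

lemma exists_der {Y : Type} (ε : FreeAlgebra k Y →ₐ[k] k) (π : FreeAlgebra k Y →ₐ[k] k[X]) :
    ∃ D : FreeAlgebra k Y →ₗ[k] (Y →₀ k[X]),
      (∀ a b, D (a * b) = ε b • D a + π a • D b) ∧
      ∀ j, D (FreeAlgebra.ι k j) = Finsupp.single j 1 := by
  let T : Y → Module.End k (k × (Y →₀ k[X])) := fun j =>
    { toFun := fun v => (ε (FreeAlgebra.ι k j) * v.1,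
        π (FreeAlgebra.ι k j) • v.2 + v.1 • Finsupp.single j 1)
      map_add' := by
        intro v w
        refine Prod.ext (by simp [mul_add]) ?_
        simp only [Prod.snd_add, Prod.fst_add, smul_add, add_smul]; abel
      map_smul' := by
        intro c v
        refine Prod.ext (by simp [mul_left_comm]) ?_
        simp only [Prod.smul_snd, Prod.smul_fst, smul_add, RingHom.id_apply, smul_eq_mul,
          mul_smul, smul_comm c (π (FreeAlgebra.ι k j))] }
  let ρ : FreeAlgebra k Y →ₐ[k] Module.End k (k × (Y →₀ k[X])) := FreeAlgebra.lift k T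
  have hρ : ∀ j v, ρ (FreeAlgebra.ι k j) v = (ε (FreeAlgebra.ι k j) * v.1,
        π (FreeAlgebra.ι k j) • v.2 + v.1 • Finsupp.single j 1) := by
    intro j v
    simp only [ρ, FreeAlgebra.lift_ι_apply]; rfl
  have h1 : ∀ a v, (ρ a v).1 = ε a * v.1 := by
    intro a
    induction a using FreeAlgebra.induction with
    | grade0 c => intro v; simp
    | grade1 j => intro v; rw [hρ]
    | mul a b ha hb => intro v; rw [map_mul, Module.End.mul_apply, ha, hb, map_mul, mul_assoc]
    | add a b ha hb =>
      intro v; rw [map_add, LinearMap.add_apply, Prod.fst_add, ha, hb, map_add, add_mul]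
  have h2 : ∀ a m, ρ a (0, m) = (0, π a • m) := by
    intro a
    induction a using FreeAlgebra.induction with
    | grade0 c => intro m; rw [AlgHom.commutes, AlgHom.commutes, algebraMap_smul]; simp
    | grade1 j => intro m; rw [hρ]; simp
    | mul a b ha hb => intro m; rw [map_mul, Module.End.mul_apply, hb, ha, map_mul, mul_smul]
    | add a b ha hb =>
      intro m; rw [map_add, LinearMap.add_apply, ha, hb, map_add, add_smul]; simp
  let D : FreeAlgebra k Y →ₗ[k] (Y →₀ k[X]) :=
    { toFun := fun a => (ρ a (1, 0)).2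
      map_add' := by intro a b; simp
      map_smul' := by intro c a; simp }
  refine ⟨D, fun a b => ?_, fun j => ?_⟩
  · change (ρ (a * b) (1, 0)).2 = ε b • (ρ a (1, 0)).2 + π a • (ρ b (1, 0)).2
    have e : ρ b (1, 0) = ε b • ((1 : k), (0 : Y →₀ k[X])) + (0, (ρ b (1, 0)).2) := by
      refine Prod.ext ?_ (by simp)
      rw [h1]; simp
    rw [map_mul, Module.End.mul_apply, e, map_add, map_smul, h2]
    simp
  · change (ρ (FreeAlgebra.ι k j) (1, 0)).2 = _
    rw [hρ]; simp

lemma der_unique {Y N : Type} [AddCommGroup N] [Module k[X] N] [Module k N]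
    [IsScalarTower k k[X] N]
    (ε : FreeAlgebra k Y →ₐ[k] k) (π : FreeAlgebra k Y →ₐ[k] k[X])
    (D D' : FreeAlgebra k Y →ₗ[k] N)
    (h : ∀ a b, D (a * b) = ε b • D a + π a • D b)
    (h' : ∀ a b, D' (a * b) = ε b • D' a + π a • D' b)
    (e : ∀ j, D (FreeAlgebra.ι k j) = D' (FreeAlgebra.ι k j)) (a : FreeAlgebra k Y) :
    D a = D' a := by
  induction a using FreeAlgebra.induction with
  | grade0 c =>
    have h1 := h 1 1
    have h2 := h' 1 1
    simp only [mul_one, map_one, one_smul, left_eq_add] at h1 h2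
    rw [Algebra.algebraMap_eq_smul_one, map_smul, map_smul, h1, h2]
  | grade1 j => exact e j
  | mul a b ha hb => rw [h, h', ha, hb]
  | add a b ha hb => rw [map_add, map_add, ha, hb]

noncomputable def eps (k : Type) [Field k] (M : Type) : FF k M →ₐ[k] k :=
  FreeAlgebra.lift k (fun _ => 0)

noncomputable def pii (k : Type) [Field k] (M : Type) : FF k M →ₐ[k] k[X] :=
  FreeAlgebra.lift k (fun x => match x with
    | none => X
    | some _ => 0)

lemma eps_y {M : Type} : eps k M (yy k M) = 0 := by simp [eps, yy]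
lemma eps_e {M : Type} (p : M) : eps k M (ee k p) = 0 := by simp [eps, ee]
lemma pii_y {M : Type} : pii k M (yy k M) = X := by simp [pii, yy]
lemma pii_e {M : Type} (p : M) : pii k M (ee k p) = 0 := by simp [pii, ee]
lemma pii_aeval {M : Type} (r : k[X]) : pii k M (aeval (yy k M) r) = r := by
  rw [← Polynomial.aeval_algHom_apply, pii_y, Polynomial.aeval_X_left_apply]

noncomputable def act (x : Option (PP k)) : Module.End k (k × k × PP k) :=
  match x with
  | none =>
    { toFun := fun v => (0, v.1, (X : k[X]) • v.2.2)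
      map_add' := by intro v w; simp [smul_add]
      map_smul' := by intro c v; simp [smul_comm c (X : k[X])] }
  | some p =>
    { toFun := fun v => (0, 0, v.2.1 • p)
      map_add' := by intro v w; simp [add_smul]
      map_smul' := by intro c v; simp [mul_smul] }

noncomputable def rho (k : Type) [Field k] : FF k (PP k) →ₐ[k] Module.End k (k × k × PP k) :=
  FreeAlgebra.lift k act

lemma rho_y (v : k × k × PP k) : rho k (yy k (PP k)) v = (0, v.1, (X : k[X]) • v.2.2) := by
  simp only [rho, yy, FreeAlgebra.lift_ι_apply]; rfl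
lemma rho_e (p : PP k) (v : k × k × PP k) : rho k (ee k p) v = (0, 0, v.2.1 • p) := by
  simp only [rho, ee, FreeAlgebra.lift_ι_apply]; rfl

lemma rho_fst (a : FF k (PP k)) : ∀ v, (rho k a v).1 = eps k _ a * v.1 := by
  induction a using FreeAlgebra.induction with
  | grade0 c => intro v; simp
  | grade1 x =>
    intro v
    cases x with
    | none => change (rho k (yy k _) v).1 = eps k _ (yy k _) * _; rw [rho_y, eps_y]; simp
    | some p => change (rho k (ee k p) v).1 = eps k _ (ee k p) * _; rw [rho_e, eps_e]; simp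
  | mul a b ha hb => intro v; rw [map_mul, Module.End.mul_apply, ha, hb, map_mul, mul_assoc]
  | add a b ha hb =>
    intro v; rw [map_add, LinearMap.add_apply, Prod.fst_add, ha, hb, map_add, add_mul]

lemma rho_thd (a : FF k (PP k)) : ∀ m : PP k, rho k a (0, 0, m) = (0, 0, pii k _ a • m) := by
  induction a using FreeAlgebra.induction with
  | grade0 c => intro m; rw [AlgHom.commutes, AlgHom.commutes, algebraMap_smul]; simp
  | grade1 x =>
    intro m
    cases x with
    | none => change rho k (yy k _) _ = (0, 0, pii k _ (yy k _) • m); rw [rho_y, pii_y]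
    | some p => change rho k (ee k p) _ = (0, 0, pii k _ (ee k p) • m); rw [rho_e, pii_e]; simp
  | mul a b ha hb => intro m; rw [map_mul, Module.End.mul_apply, hb, ha, map_mul, mul_smul]
  | add a b ha hb =>
    intro m; rw [map_add, LinearMap.add_apply, ha, hb, map_add, add_smul]; simp

lemma rho_L (l : FF k (PP k)) (hl : l ∈ LL k (PP k)) (b : k) : rho k l (0, b, 0) = 0 := by
  induction hl using Submodule.span_induction with
  | mem x hx =>
    rcases hx with rfl | ⟨p, q, rfl⟩ | ⟨r, p, rfl⟩
    · rw [rho_y]; simp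
    · simp only [map_sub, LinearMap.sub_apply, rho_e]; simp [smul_add]
    · simp only [map_sub, map_mul, LinearMap.sub_apply, Module.End.mul_apply, rho_e, rho_thd,
        pii_aeval]
      simp [smul_comm b r]
  | zero => simp
  | add x y _ _ hx hy => rw [map_add, LinearMap.add_apply, hx, hy, add_zero]
  | smul c x _ hx => rw [smul_eq_mul, map_mul, Module.End.mul_apply, hx, map_zero]

noncomputable def th (k : Type) [Field k] : FF k (PP k) →ₗ[k] PP k where
  toFun := fun a => (rho k a (1, 0, 0)).2.2
  map_add' := by intro a b; simp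
  map_smul' := by intro c a; simp

lemma th_mul (a b : FF k (PP k)) (ha : a ∈ kadd (k := k) (LL k (PP k))) :
    th k (a * b) = eps k _ b • th k a + pii k _ a • th k b := by
  obtain ⟨c, hc⟩ := ha
  change (rho k (a * b) (1, 0, 0)).2.2 =
    eps k _ b • (rho k a (1, 0, 0)).2.2 + pii k _ a • (rho k b (1, 0, 0)).2.2
  have e : rho k b (1, 0, 0) = eps k _ b • ((1 : k), (0 : k), (0 : PP k)) +
      (0, (rho k b (1, 0, 0)).2.1, 0) + (0, 0, (rho k b (1, 0, 0)).2.2) := by
    refine Prod.ext ?_ (Prod.ext (by simp) (by simp))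
    rw [rho_fst]; simp
  have e2 : ∀ β : k, (rho k a (0, β, 0)).2.2 = 0 := by
    intro β
    have := rho_L _ hc β
    rw [map_sub, LinearMap.sub_apply, sub_eq_zero] at this
    rw [this]; simp
  rw [map_mul, Module.End.mul_apply, e, map_add, map_add, map_smul, rho_thd]
  simp [e2]

lemma th_ey (p : PP k) : th k (ee k p * yy k _) = p := by
  change (rho k (ee k p * yy k _) (1, 0, 0)).2.2 = p
  rw [map_mul, Module.End.mul_apply, rho_y, rho_e]; simp

lemma not_free : ¬ ∃ Y : Type,
    Nonempty (kadd (k := k) (LL k (PP k)) ≃ₐ[k] FreeAlgebra k Y) := by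
  rintro ⟨Y, ⟨Φ⟩⟩
  let A := kadd (k := k) (LL k (PP k))
  let u : FreeAlgebra k Y →ₐ[k] FF k (PP k) := A.val.comp Φ.symm.toAlgHom
  have hu : ∀ a : A, u (Φ a) = a := by intro a; simp [u]
  have huA : ∀ z, u z ∈ A := fun z => (Φ.symm z).2
  obtain ⟨D, hD, hDj⟩ := exists_der ((eps k _).comp u) ((pii k _).comp u)
  let v : Y → PP k := fun j => th k (u (FreeAlgebra.ι k j))
  have hth : ∀ z, Finsupp.linearCombination k[X] v (D z) = th k (u z) := by
    intro z
    refine der_unique ((eps k _).comp u) ((pii k _).comp u)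
      (((Finsupp.linearCombination k[X] v).restrictScalars k) ∘ₗ D) (th k ∘ₗ u.toLinearMap)
      ?_ ?_ ?_ z
    · intro a b
      simp only [LinearMap.comp_apply, LinearMap.restrictScalars_apply, hD, map_add, map_smul]
    · intro a b
      simp only [LinearMap.comp_apply, AlgHom.toLinearMap_apply, map_mul, AlgHom.comp_apply]
      exact th_mul _ _ (huA a)
    · intro j
      simp [hDj, v]
  let yA : A := ⟨yy k _, mem_kadd_of_mem y_mem⟩
  let eA : PP k → A := fun p => ⟨ee k p * yy k _, mem_kadd_of_mem (Ideal.mul_mem_left _ _ y_mem)⟩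
  let D' : A →ₗ[k] (Y →₀ k[X]) := D ∘ₗ Φ.toLinearMap
  have hD' : ∀ a b : A, D' (a * b) =
      eps k (PP k) (b : FF k (PP k)) • D' a + pii k (PP k) (a : FF k (PP k)) • D' b := by
    intro a b
    simp only [D', LinearMap.comp_apply, AlgEquiv.toLinearMap_apply, map_mul, hD,
      AlgHom.comp_apply, hu]
  have hz : ∀ (l : FF k (PP k)) (hl : l ∈ LL k (PP k)), pii k _ l = 0 →
      D' (⟨l, mem_kadd_of_mem hl⟩ * yA) = 0 := by
    intro l hl h0
    rw [hD']
    simp [yA, eps_y, h0]
  have haev : ∀ r : k[X], aeval (yy k (PP k)) r ∈ A := by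
    intro r
    have : aeval (yy k (PP k)) r = A.val (aeval yA r) := by
      rw [← Polynomial.aeval_algHom_apply]; rfl
    rw [this]; exact (aeval yA r).2
  let ψ : PP k →ₗ[k[X]] (Y →₀ k[X]) :=
    { toFun := fun p => D' (eA p)
      map_add' := by
        intro p q
        have h1 := hz _ (add_mem_L p q) (by simp [pii_e])
        have e : (⟨_, mem_kadd_of_mem (add_mem_L (k := k) p q)⟩ * yA : A) =
            eA (p + q) - eA p - eA q := by
          apply Subtype.ext
          simp [yA, eA, sub_mul]
        rw [e, map_sub, map_sub, sub_sub, sub_eq_zero] at h1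
        exact h1
      map_smul' := by
        intro r p
        have h1 := hz _ (smul_mem_L r p) (by simp [pii_e])
        have e : (⟨_, mem_kadd_of_mem (smul_mem_L (k := k) r p)⟩ * yA : A) =
            eA (r • p) - ⟨_, haev r⟩ * eA p := by
          apply Subtype.ext
          simp [yA, eA, sub_mul, mul_assoc]
        rw [e, map_sub, sub_eq_zero, hD'] at h1
        rw [h1]
        simp [eA, eps_y, pii_aeval] }
  refine not_summand ψ v fun p => ?_
  change Finsupp.linearCombination k[X] v (D (Φ (eA p))) = p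
  rw [hth, hu]
  exact th_ey p

end Pool.Agent.H23.FreeSub
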