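import Mathlib

set_option autoImplicit false
set_option maxSynthPendingDepth 3

namespace Pool.Agent.H23.GS
open Finset Module SimpleGraph

lemma greedy {β : Type} [LinearOrder β] (K : ℕ) (M : β → Finset β) (hM : ∀ x, (M x).card ≤ K)
    (L : Finset β) : ∃ ψ : β → Fin (K + 1), ∀ x ∈ L, ∀ y ∈ L, y ∈ M x → y < x → ψ x ≠ ψ y := by
  induction L using Finset.induction_on_max with
  | empty => exact ⟨fun _ => 0, by simp⟩
  | insert a s ha ih =>
    obtain ⟨ψ, hψ⟩ := ih
    obtain ⟨c, hc⟩ : ∃ c : Fin (K + 1), c ∉ (M a).image ψ := by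
      by_contra h
      push Not at h
      have h1 := card_le_card (fun c _ => h c : (univ : Finset (Fin (K + 1))) ⊆ (M a).image ψ)
      have h2 := card_image_le (s := M a) (f := ψ)
      have := hM a
      simp at h1
      omega
    refine ⟨Function.update ψ a c, fun x hx y hy hxy hlt => ?_⟩
    have hya : y ≠ a := by
      rcases mem_insert.mp hx with rfl | hx
      · exact hlt.ne
      · exact (hlt.trans (ha x hx)).ne
    have hys : y ∈ s := (mem_insert.mp hy).resolve_left hya
    rw [Function.update_of_ne hya]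
    rcases mem_insert.mp hx with rfl | hx
    · rw [Function.update_self]
      exact fun e => hc (e ▸ mem_image_of_mem _ hxy)
    · rw [Function.update_of_ne (ha x hx).ne]
      exact hψ x hx y hys hxy hlt

lemma digraph_col {β : Type} (K : ℕ) (M : β → Finset β) (hM : ∀ x, (M x).card ≤ K)
    (L : Finset β) : ∃ ψ : β → Fin (K + 1) × Fin (K + 1),
      ∀ x ∈ L, ∀ y ∈ L, y ∈ M x → y ≠ x → ψ x ≠ ψ y := by
  obtain ⟨o, -⟩ := exists_wellFoundedLT β
  obtain ⟨ψ1, h1⟩ := greedy K M hM L
  obtain ⟨ψ2, h2⟩ := greedy (β := βᵒᵈ) K M hM L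
  refine ⟨fun x => (ψ1 x, ψ2 x), fun x hx y hy hxy hne e => ?_⟩
  rcases lt_or_gt_of_ne hne with h | h
  · exact h1 x hx y hy hxy h (Prod.ext_iff.mp e).1
  · exact h2 x hx y hy hxy h (Prod.ext_iff.mp e).2

lemma parent_unique {α : Type} {T : SimpleGraph α} (hT : T.IsTree) (r x y z : α) (hy : T.Adj x y)
    (hz : T.Adj x z) (h1 : T.dist r x = T.dist r y + 1) (h2 : T.dist r x = T.dist r z + 1) :
    y = z := by
  obtain ⟨p, hp⟩ := hT.connected.exists_walk_length_eq_dist r y
  obtain ⟨q, hq⟩ := hT.connected.exists_walk_length_eq_dist r z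
  have hp' : (p.concat hy.symm).IsPath :=
    Walk.isPath_of_length_eq_dist _ (by rw [Walk.length_concat, hp, h1])
  have hq' : (q.concat hz.symm).IsPath :=
    Walk.isPath_of_length_eq_dist _ (by rw [Walk.length_concat, hq, h2])
  have := (hT.existsUnique_path r x).unique hp' hq'
  have h3 := congrArg Walk.penultimate this
  simpa using h3

lemma parent_exists {α : Type} {T : SimpleGraph α} (hT : T.IsTree) (r x : α) (k : ℕ)
    (h : T.dist r x = k + 1) : ∃ y, T.Adj x y ∧ T.dist r y = k := by
  obtain ⟨p, hp⟩ := hT.connected.exists_walk_length_eq_dist x r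
  rw [SimpleGraph.dist_comm, h] at hp
  cases p with
  | nil => simp at hp
  | cons hadj q =>
    rename_i y
    refine ⟨y, hadj, ?_⟩
    have h1 : T.dist r y ≤ k := by
      have := T.dist_le q
      rw [SimpleGraph.dist_comm] at this
      simp only [Walk.length_cons] at hp
      omega
    rcases hT.dist_eq_dist_add_one_of_adj r hadj with h2 | h2 <;> omega

lemma tree_step {m : ℕ} {T : SimpleGraph (Fin m)} (hT : T.IsTree) (r : Fin m) (S : Finset (Fin m))
    (hr : r ∈ S) (hS : S.card < m) (hc : ∀ v ∈ S, ∀ u, T.dist r u < T.dist r v → u ∈ S) :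
    ∃ v, v ∉ S ∧ ∃ p ∈ S, (∀ u ∈ S, T.Adj v u ↔ u = p) ∧
      ∀ v' ∈ insert v S, ∀ u, T.dist r u < T.dist r v' → u ∈ insert v S := by
  have hne : (Sᶜ).Nonempty := card_pos.mp (by rw [card_compl]; simp; omega)
  obtain ⟨v, hv, hmin⟩ := exists_min_image Sᶜ (T.dist r) hne
  have hv' := mem_compl.mp hv
  have low : ∀ u, T.dist r u < T.dist r v → u ∈ S := fun u hu => by
    by_contra h
    exact absurd (hmin u (mem_compl.mpr h)) (not_le.mpr hu)
  have pos : T.dist r v ≠ 0 := fun h => hv' (hT.connected.dist_eq_zero_iff.mp h ▸ hr)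
  obtain ⟨p, hp, hd⟩ := parent_exists hT r v (T.dist r v - 1) (by omega)
  refine ⟨v, hv', p, low p (by omega), fun u hu => ⟨fun h => ?_, fun h => h ▸ hp⟩, ?_⟩
  · refine parent_unique hT r v u p h hp ?_ (by omega)
    rcases hT.dist_eq_dist_add_one_of_adj r h with h2 | h2
    · exact h2
    · exact absurd (hc u hu v (by omega)) hv'
  · intro v' hv'' u hu
    rcases mem_insert.mp hv'' with rfl | h
    · exact mem_insert_of_mem (low u hu)
    · exact mem_insert_of_mem (hc v' h u hu)

variable {E : Type} [AddCommGroup E] [Module ℝ E] [FiniteDimensional ℝ E]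
  (B : E →ₗ[ℝ] E →ₗ[ℝ] ℝ)

def orth (U : Submodule ℝ E) : Submodule ℝ E where
  carrier := {v | ∀ u ∈ U, B u v = 0}
  add_mem' ha hb u hu := by rw [map_add, ha u hu, hb u hu, add_zero]
  zero_mem' u _ := by simp
  smul_mem' c v hv u hu := by rw [map_smul, hv u hu, smul_zero]

structure Rep {n : ℕ} (G : SimpleGraph (Fin n)) (vec : Fin n → E) : Prop where
  symm : ∀ u v, B u v = B v u
  aniso : ∀ x, B (vec x) (vec x) ≠ 0
  np : ∀ x y, vec x ∈ Submodule.span ℝ {vec y} → x = y
  adj : ∀ x y, G.Adj x y ↔ B (vec x) (vec y) = 0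

variable {n : ℕ} (vec : Fin n → E) (V : Finset (Fin n)) (a K : ℕ)

def Small (F : Finset (Submodule ℝ E)) : Prop := F.card ≤ K ∧ ∀ S ∈ F, finrank ℝ S < a

def Good : ℕ → Submodule ℝ E → Prop
  | 0, U => finrank ℝ U ≤ a ∧ ∀ F, Small a K F → ∃ w ∈ V, vec w ∈ U ∧ ∀ S ∈ F, vec w ∉ S
  | r + 1, U => finrank ℝ U ≤ a ∧ ∀ F, Small a K F → ∀ Y ⊆ V, Y.card ≤ K →
      ∃ w ∈ V, vec w ∈ U ∧ (∀ S ∈ F, vec w ∉ S) ∧
        ∃ U', Good r U' ∧ vec w ∈ orth B U' ∧ ∀ y ∈ Y, vec y ∉ orth B U'

variable {B vec V a K}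

omit [FiniteDimensional ℝ E] in
lemma Good.pred {r : ℕ} : ∀ {U : Submodule ℝ E}, Good B vec V a K (r + 1) U →
    Good B vec V a K r U := by
  induction r with
  | zero =>
    intro U h
    refine ⟨h.1, fun F hF => ?_⟩
    obtain ⟨w, h1, h2, h3, -⟩ := h.2 F hF ∅ (empty_subset _) (by simp)
    exact ⟨w, h1, h2, h3⟩
  | succ r ih =>
    intro U h
    refine ⟨h.1, fun F hF Y hY hY' => ?_⟩
    obtain ⟨w, h1, h2, h3, U', h4, h5⟩ := h.2 F hF Y hY hY'
    exact ⟨w, h1, h2, h3, U', ih h4, h5⟩

omit [FiniteDimensional ℝ E] in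
lemma Good.zero {r : ℕ} {U : Submodule ℝ E} (h : Good B vec V a K r U) : Good B vec V a K 0 U := by
  induction r with
  | zero => exact h
  | succ r ih => exact ih h.pred

lemma inf_lt {U W : Submodule ℝ E} (hU : finrank ℝ U ≤ a) (h : ¬ U ≤ W) :
    finrank ℝ ↥(U ⊓ W) < a :=
  lt_of_lt_of_le (Submodule.finrank_lt_finrank_of_lt
    (lt_of_le_of_ne inf_le_left fun e => h (e ▸ inf_le_right))) hU

lemma embed {G : SimpleGraph (Fin n)} (R : Rep B G vec) {m : ℕ} {T : SimpleGraph (Fin m)}
    (hT : T.IsTree) (ha : 2 ≤ a) (hK : 3 * m ≤ K) (u : Fin n) (hu : u ∈ V) (U : Submodule ℝ E)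
    (hU : Good B vec V a K m U) (hU' : vec u ∈ orth B U) : Nonempty (T ↪g G) := by
  classical
  obtain ⟨r⟩ := hT.connected.nonempty
  have key : ∀ s, s + 1 ≤ m → ∃ S : Finset (Fin m), S.card = s + 1 ∧ r ∈ S ∧
      (∀ v ∈ S, ∀ u, T.dist r u < T.dist r v → u ∈ S) ∧
      ∃ (x : Fin m → Fin n) (W : Fin m → Submodule ℝ E),
        (∀ i ∈ S, x i ∈ V ∧ vec (x i) ∈ orth B (W i) ∧ Good B vec V a K (m - s) (W i)) ∧
        ∀ i ∈ S, ∀ j ∈ S, i ≠ j → vec (x j) ∉ orth B (W i) ∧ ¬ W j ≤ orth B (W i) ∧
          x i ≠ x j ∧ (G.Adj (x i) (x j) ↔ T.Adj i j) := by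
    intro s
    induction s with
    | zero =>
      intro _
      refine ⟨{r}, by simp, by simp, by simp, fun _ => u, fun _ => U, ?_, ?_⟩
      · intro i _; exact ⟨hu, hU', hU⟩
      · simp only [mem_singleton]
        rintro i rfl j rfl h
        exact absurd rfl h
    | succ s ih =>
      intro hs
      obtain ⟨S, cS, rS, clS, x, W, h1, h2⟩ := ih (by omega)
      obtain ⟨v, hv, p, hp, hadj, hcl⟩ := tree_step hT r S rS (by omega) clS
      have e : m - s = (m - (s + 1)) + 1 := by omega
      rw [e] at h1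
      have hc : ∀ i ∈ S, ∃ c ∈ V, vec c ∈ W i := fun i hi => by
        obtain ⟨c, h3, h4, -⟩ := (h1 i hi).2.2.zero.2 ∅ ⟨by simp, by simp⟩
        exact ⟨c, h3, h4⟩
      have : Nonempty (Fin n) := ⟨u⟩
      choose! c c1 c2 using hc
      have gp := (h1 p hp).2.2
      have symmle : ∀ {A A' : Submodule ℝ E}, A ≤ orth B A' → A' ≤ orth B A :=
        fun h y hy z hz => by rw [R.symm]; exact h hz y hy
      obtain ⟨w, wV, wW, wF, U', g', wU', hY⟩ := gp.2
        (S.image (fun l => Submodule.span ℝ {vec (x l)}) ∪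
          (S.erase p).image (fun l => W p ⊓ orth B (Submodule.span ℝ {vec (x l)})) ∪
          S.image (fun l => W p ⊓ orth B (W l)))
        ⟨by
          refine (card_union_le _ _).trans ?_
          refine (Nat.add_le_add (card_union_le _ _) card_image_le).trans ?_
          have := card_image_le (s := S) (f := fun l => Submodule.span ℝ {vec (x l)})
          have := card_image_le (s := S.erase p)
            (f := fun l => W p ⊓ orth B (Submodule.span ℝ {vec (x l)}))
          have := card_erase_le (s := S) (a := p)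
          omega, by
          intro S' hS'
          simp only [mem_union, mem_image] at hS'
          rcases hS' with (⟨l, -, rfl⟩ | ⟨l, hl, rfl⟩) | ⟨l, hl, rfl⟩
          · have := finrank_span_le_card (R := ℝ) ({vec (x l)} : Set E)
            simp at this
            omega
          · refine inf_lt gp.1 fun h => (h2 p hp l (mem_erase.mp hl).2 (mem_erase.mp hl).1.symm).1
              (symmle h (Submodule.mem_span_singleton_self _))
          · refine inf_lt gp.1 fun h => ?_
            by_cases hlp : l = p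
            · subst hlp
              exact R.aniso (c l) (h (c2 l hl) _ (c2 l hl))
            · exact (h2 l hl p hp hlp).2.1 h⟩
        (S.image x ∪ S.image c)
        (by
          intro y hy
          simp only [mem_union, mem_image] at hy
          rcases hy with ⟨l, hl, rfl⟩ | ⟨l, hl, rfl⟩
          · exact (h1 l hl).1
          · exact c1 l hl)
        (by
          refine (card_union_le _ _).trans ?_
          have := card_image_le (s := S) (f := x)
          have := card_image_le (s := S) (f := c)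
          omega)
      have f1 : ∀ l ∈ S, w ≠ x l := fun l hl e =>
        wF (Submodule.span ℝ {vec (x l)})
          (mem_union_left _ (mem_union_left _ (mem_image_of_mem _ hl)))
          (e ▸ Submodule.mem_span_singleton_self _)
      have f2 : ∀ l ∈ S, (G.Adj w (x l) ↔ l = p) := fun l hl => by
        constructor
        · intro h
          by_contra hlp
          refine wF (W p ⊓ orth B (Submodule.span ℝ {vec (x l)}))
            (mem_union_left _ (mem_union_right _ (mem_image_of_mem _ (mem_erase.mpr ⟨hlp, hl⟩))))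
            ⟨wW, fun z hz => ?_⟩
          obtain ⟨t, rfl⟩ := Submodule.mem_span_singleton.mp hz
          rw [map_smul, LinearMap.smul_apply, (R.adj _ _).mp h.symm, smul_zero]
        · rintro rfl
          exact (R.adj _ _).mpr ((h1 l hl).2.1 _ wW)
      have f3 : ∀ l ∈ S, vec w ∉ orth B (W l) := fun l hl h =>
        wF (W p ⊓ orth B (W l)) (mem_union_right _ (mem_image_of_mem _ hl)) ⟨wW, h⟩
      have f4 : ∀ l ∈ S, vec (x l) ∉ orth B U' := fun l hl =>
        hY _ (mem_union_left _ (mem_image_of_mem _ hl))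
      have f5 : ∀ l ∈ S, ¬ W l ≤ orth B U' := fun l hl h =>
        hY _ (mem_union_right _ (mem_image_of_mem _ hl)) (h (c2 l hl))
      have ne : ∀ l ∈ S, l ≠ v := fun l hl e => hv (e ▸ hl)
      refine ⟨insert v S, by rw [card_insert_of_notMem hv, cS], mem_insert_of_mem rS, hcl,
        Function.update x v w, Function.update W v U', ?_, ?_⟩
      · intro i hi
        rcases mem_insert.mp hi with rfl | hi
        · simp only [Function.update_self]
          exact ⟨wV, wU', g'⟩
        · simp only [Function.update_of_ne (ne i hi)]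
          exact ⟨(h1 i hi).1, (h1 i hi).2.1, (h1 i hi).2.2.pred⟩
      · intro i hi j hj hij
        have hi' := mem_insert.mp hi
        have hj' := mem_insert.mp hj
        clear hi hj
        rcases hi' with rfl | hi <;> rcases hj' with rfl | hj
        · exact absurd rfl hij
        · simp only [Function.update_self, Function.update_of_ne (ne j hj)]
          exact ⟨f4 j hj, f5 j hj, f1 j hj, (f2 j hj).trans (hadj j hj).symm⟩
        · simp only [Function.update_self, Function.update_of_ne (ne i hi)]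
          refine ⟨f3 i hi, fun h => f5 i hi (symmle h), (f1 i hi).symm, ?_⟩
          rw [G.adj_comm, T.adj_comm]
          exact (f2 i hi).trans (hadj i hi).symm
        · simp only [Function.update_of_ne (ne i hi), Function.update_of_ne (ne j hj)]
          exact h2 i hi j hj hij
  have mpos : 0 < m := r.pos
  obtain ⟨S, cS, -, -, x, W, -, h2⟩ := key (m - 1) (by omega)
  have hS : S = univ := eq_univ_of_card _ (by simp; omega)
  subst hS
  refine ⟨⟨⟨x, fun i j e => ?_⟩, fun {i j} => ?_⟩⟩
  · by_contra h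
    exact (h2 i (mem_univ _) j (mem_univ _) h).2.2.1 e
  · by_cases h : i = j
    · subst h; simp
    · exact (h2 i (mem_univ _) j (mem_univ _) h).2.2.2

def Cov (G : SimpleGraph (Fin n)) (vec : Fin n → E) (V : Finset (Fin n)) (a k : ℕ) : Prop :=
  ∀ u ∈ V, ∃ F : Finset (Submodule ℝ E), Small a k F ∧ ∀ w ∈ V, G.Adj u w → ∃ S ∈ F, vec w ∈ S

omit [FiniteDimensional ℝ E] in
lemma levels (m : ℕ) (U : Submodule ℝ E) (h1 : finrank ℝ U ≤ a) (h2 : ¬ Good B vec V a K m U) :
    ∃ (l : Option (Fin m)) (F : Finset (Submodule ℝ E)) (Y : Finset (Fin n)), Small a K F ∧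
      Y ⊆ V ∧ Y.card ≤ K ∧ (∀ r : Fin m, l = some r → Good B vec V a K r U) ∧
      ∀ w ∈ V, vec w ∈ U → (∃ S ∈ F, vec w ∈ S) ∨ ∃ r : Fin m, l = some r ∧
        ∀ U', Good B vec V a K r U' → vec w ∈ orth B U' → ∃ y ∈ Y, vec y ∈ orth B U' := by
  induction m with
  | zero =>
    simp only [Good, h1, true_and] at h2
    push Not at h2
    obtain ⟨F, hF, h⟩ := h2
    exact ⟨none, F, ∅, hF, by simp, by simp, by simp, fun w hw hw' => Or.inl (h w hw hw')⟩
  | succ m ih =>
    by_cases h : Good B vec V a K m U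
    · simp only [Good, h1, true_and] at h2
      push Not at h2
      obtain ⟨F, hF, Y, hY, hY', h'⟩ := h2
      refine ⟨some (Fin.last m), F, Y, hF, hY, hY', ?_, fun w hw hw' => ?_⟩
      · intro r hr
        rw [← Option.some.inj hr]
        exact h
      · by_cases hs : ∃ S ∈ F, vec w ∈ S
        · exact Or.inl hs
        · push Not at hs
          exact Or.inr ⟨_, rfl, h' w hw hw' hs⟩
    · obtain ⟨l, F, Y, hF, hY, hY', h3, h4⟩ := ih h
      refine ⟨l.map Fin.castSucc, F, Y, hF, hY, hY', ?_, fun w hw hw' => ?_⟩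
      · intro r hr
        obtain ⟨r', h5, rfl⟩ := Option.map_eq_some_iff.mp hr
        exact h3 r' h5
      · rcases h4 w hw hw' with h5 | ⟨r, h5, h6⟩
        · exact Or.inl h5
        · exact Or.inr ⟨r.castSucc, by simp [h5], h6⟩

variable (B) in
theorem colour {m : ℕ} {T : SimpleGraph (Fin m)} (hT : T.IsTree) (a : ℕ) : ∀ k : ℕ, ∃ c : ℕ,
    ∀ (n : ℕ) (G : SimpleGraph (Fin n)) (vec : Fin n → E) (V : Finset (Fin n)), Rep B G vec →
      ¬ Nonempty (T ↪g G) → Cov G vec V (a + 2) k →
      ∃ col : Fin n → Fin c, ∀ u ∈ V, ∀ w ∈ V, G.Adj u w → col u ≠ col w := by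
  classical
  induction a with
  | zero =>
    intro k
    refine ⟨Fintype.card (Fin (k + 1) × Fin (k + 1)), fun n G vec V R _ hc => ?_⟩
    obtain ⟨ψ, hψ⟩ := digraph_col k (fun u => if u ∈ V then V.filter (G.Adj u) else ∅)
      (fun u => by
        split_ifs with hu
        · obtain ⟨F, hF, h⟩ := hc u hu
          choose! S S1 S2 using h
          refine le_trans (card_le_card_of_injOn S
            (fun w hw => S1 w (mem_filter.mp hw).1 (mem_filter.mp hw).2) ?_) hF.1
          intro w hw w' hw' e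
          have hw1 := mem_filter.mp hw
          have hw2 := mem_filter.mp hw'
          have h0 : vec w' ≠ 0 := fun h => R.aniso w' (by simp [h])
          have h3 : Submodule.span ℝ {vec w'} = S w' := by
            refine Submodule.eq_of_le_of_finrank_le
              ((Submodule.span_singleton_le_iff_mem _ _).mpr (S2 w' hw2.1 hw2.2)) ?_
            rw [finrank_span_singleton h0]
            have := hF.2 _ (S1 w' hw2.1 hw2.2)
            omega
          exact R.np w w' (h3 ▸ e ▸ S2 w hw1.1 hw1.2)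
        · simp) V
    refine ⟨fun u => Fintype.equivFin _ (ψ u), fun u hu w hw h e => ?_⟩
    exact hψ u hu w hw (by simp [hu, hw, h]) h.ne' ((Fintype.equivFin _).injective e)
  | succ a ih =>
    intro k
    let K := 3 * m + k
    obtain ⟨c, hc⟩ := ih (k * K)
    refine ⟨Fintype.card ((Fin k → Option (Fin m) × (Fin (K * k + 1) × Fin (K * k + 1))) × Fin c),
      fun n G vec V R hT' hcov => ?_⟩
    have hS : ∀ u ∈ V, ∃ S : Fin k → Submodule ℝ E,
        (∀ j, finrank ℝ (S j) ≤ a + 2 ∧ vec u ∈ orth B (S j)) ∧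
        ∀ w ∈ V, G.Adj u w → ∃ j, vec w ∈ S j := by
      intro u hu
      obtain ⟨F, hF, h⟩ := hcov u hu
      refine ⟨fun j => if h : j.val < F.card then
        (F.equivFin.symm ⟨j, h⟩ : Submodule ℝ E) ⊓ LinearMap.ker (B (vec u)) else ⊥,
        fun j => ?_, fun w hw hadj => ?_⟩
      · beta_reduce
        by_cases h : j.val < F.card
        · rw [dif_pos h]
          refine ⟨?_, fun z hz => by rw [R.symm]; exact hz.2⟩
          have h1 := hF.2 _ (F.equivFin.symm ⟨j, h⟩).2
          have h2 := Submodule.finrank_mono (inf_le_left :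
            (F.equivFin.symm ⟨j, h⟩ : Submodule ℝ E) ⊓ LinearMap.ker (B (vec u)) ≤ _)
          omega
        · rw [dif_neg h]
          exact ⟨by simp, fun z hz => by simp [(Submodule.mem_bot ℝ).mp hz]⟩
      · obtain ⟨S, h1, h2⟩ := h w hw hadj
        refine ⟨⟨F.equivFin ⟨S, h1⟩, lt_of_lt_of_le (Fin.is_lt _) hF.1⟩, ?_⟩
        simp only [Fin.is_lt, dif_pos, Fin.eta, Equiv.symm_apply_apply]
        exact ⟨h2, (R.adj _ _).mp hadj⟩
    choose! S S1 S2 using hS
    have star : ∀ y ∈ V, ∀ U, Good B vec V (a + 2) K 0 U → vec y ∈ orth B U → ∃ j, U = S y j := by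
      intro y hy U hU hyU
      by_contra hne
      push Not at hne
      obtain ⟨w, w1, w2, w3⟩ := hU.2 (univ.image fun j => U ⊓ S y j)
        ⟨card_image_le.trans (by simp [K]), by
          intro S' hS'
          obtain ⟨j, -, rfl⟩ := mem_image.mp hS'
          by_contra hlt
          have e1 : U ⊓ S y j = U := Submodule.eq_of_le_of_finrank_le inf_le_left
            (by have := hU.1; omega)
          have e2 : U ⊓ S y j = S y j := Submodule.eq_of_le_of_finrank_le inf_le_right
            (by have := (S1 y hy j).1; omega)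
          exact hne j (e1.symm.trans e2)⟩
      obtain ⟨j, hj⟩ := S2 y hy w w1 ((R.adj _ _).mpr (by rw [R.symm]; exact hyU _ w2))
      exact w3 _ (mem_image_of_mem _ (mem_univ j)) ⟨w2, hj⟩
    choose! l F Y l1 l2 l3 l4 l5 using levels (B := B) (vec := vec) (V := V) (a := a + 2) (K := K) m
    have ng : ∀ u ∈ V, ∀ j, ¬ Good B vec V (a + 2) K m (S u j) := fun u hu j h =>
      hT' (embed R hT (by omega) (by simp [K]) u hu _ h (S1 u hu j).2)
    let L := V.biUnion fun u => univ.image (S u)
    obtain ⟨ψ, hψ⟩ := digraph_col (K * k)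
      (fun U => if U ∈ L then (Y U).biUnion fun y => univ.image (S y) else ∅)
      (fun U => by
        split_ifs with hU
        · obtain ⟨u, hu, h⟩ := mem_biUnion.mp hU
          obtain ⟨j, -, rfl⟩ := mem_image.mp h
          refine card_biUnion_le_card_mul _ _ k (fun y _ => card_image_le.trans (by simp)) |>.trans ?_
          exact Nat.mul_le_mul_right _ (l3 _ (S1 u hu j).1 (ng u hu j))
        · simp) L
    let φ : Fin n → Fin k → Option (Fin m) × (Fin (K * k + 1) × Fin (K * k + 1)) :=
      fun u j => (l (S u j), ψ (S u j))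
    have sub : ∀ t, ∃ col : Fin n → Fin c, ∀ u ∈ V.filter (φ · = t), ∀ w ∈ V.filter (φ · = t),
        G.Adj u w → col u ≠ col w := by
      intro t
      refine hc n G vec _ R hT' fun u hu => ?_
      obtain ⟨hu, hut⟩ := mem_filter.mp hu
      refine ⟨univ.biUnion fun j => F (S u j), ⟨?_, ?_⟩, fun w hw hadj => ?_⟩
      · refine card_biUnion_le_card_mul _ _ K
          (fun j _ => (l1 _ (S1 u hu j).1 (ng u hu j)).1) |>.trans (by simp)
      · intro S' hS'
        obtain ⟨j, -, h⟩ := mem_biUnion.mp hS'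
        exact (l1 _ (S1 u hu j).1 (ng u hu j)).2 _ h
      · obtain ⟨hw, hwt⟩ := mem_filter.mp hw
        obtain ⟨j, hj⟩ := S2 u hu w hw hadj
        rcases l5 _ (S1 u hu j).1 (ng u hu j) w hw hj with ⟨S', h1, h2⟩ | ⟨r, h1, h2⟩
        · exact ⟨S', mem_biUnion.mpr ⟨j, mem_univ _, h1⟩, h2⟩
        · exfalso
          have e := Prod.ext_iff.mp (congrFun (hut.trans hwt.symm) j)
          have g := l4 _ (S1 w hw j).1 (ng w hw j) r (e.1.symm.trans h1)
          obtain ⟨y, y1, y2⟩ := h2 _ g (S1 w hw j).2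
          obtain ⟨j', hj'⟩ := star y (l2 _ (S1 u hu j).1 (ng u hu j) y1) _ g.zero y2
          have m1 : S u j ∈ L := mem_biUnion.mpr ⟨u, hu, mem_image_of_mem _ (mem_univ _)⟩
          have m2 : S w j ∈ L := mem_biUnion.mpr ⟨w, hw, mem_image_of_mem _ (mem_univ _)⟩
          refine hψ _ m1 _ m2 ?_ (fun h => ?_) e.2
          · rw [if_pos m1]
            exact mem_biUnion.mpr ⟨y, y1, hj' ▸ mem_image_of_mem _ (mem_univ _)⟩
          · exact R.aniso w ((S1 w hw j).2 _ (h ▸ hj))
    choose col hcol using sub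
    refine ⟨fun u => Fintype.equivFin _ (φ u, col (φ u) u), fun u hu w hw hadj e => ?_⟩
    have e' := Prod.ext_iff.mp ((Fintype.equivFin _).injective e)
    have e1 : φ u = φ w := e'.1
    have e2 : col (φ u) u = col (φ w) w := e'.2
    rw [← e1] at e2
    exact hcol (φ u) u (mem_filter.mpr ⟨hu, rfl⟩) w (mem_filter.mpr ⟨hw, e1.symm⟩) hadj e2

end Pool.Agent.H23.GS
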