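import Mathlib
import Pool.Agent.H23.GS

set_option autoImplicit false
set_option maxSynthPendingDepth 3

namespace Pool.Agent.H23.GS2
open Finset Module SimpleGraph
open Pool.Agent.H23.GS (digraph_col tree_step inf_lt Small Cov)

variable {E : Type} [AddCommGroup E] [Module ℝ E] [FiniteDimensional ℝ E]
  (O1 O2 : Submodule ℝ E → Submodule ℝ E)

def A (U W : Submodule ℝ E) : Prop := U ≤ O1 W ∧ ¬ U ≤ O2 W

structure Rep {n : ℕ} (G : SimpleGraph (Fin n)) (vec : Fin n → E) : Prop where
  s1 : ∀ U W, U ≤ O1 W → W ≤ O1 U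
  s2 : ∀ U W, U ≤ O2 W → W ≤ O2 U
  ne0 : ∀ x, vec x ≠ 0
  np : ∀ x y, vec x ∈ Submodule.span ℝ {vec y} → x = y
  adj : ∀ x y, G.Adj x y ↔ A O1 O2 (Submodule.span ℝ {vec x}) (Submodule.span ℝ {vec y})

open Classical in
noncomputable def X (U W : Submodule ℝ E) : Submodule ℝ E :=
  if U ≤ O1 W then (if U ≤ O2 W then ⊥ else U ⊓ O2 W) else U ⊓ O1 W

variable {O1 O2}

lemma X_lt {a : ℕ} (ha : 1 ≤ a) {U : Submodule ℝ E} (hU : finrank ℝ U ≤ a) (W : Submodule ℝ E) :
    finrank ℝ (X O1 O2 U W) < a := by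
  unfold X
  by_cases h1 : U ≤ O1 W
  · by_cases h2 : U ≤ O2 W
    · rw [if_pos h1, if_pos h2]; simp; omega
    · rw [if_pos h1, if_neg h2]; exact inf_lt hU h2
  · rw [if_neg h1]; exact inf_lt hU h1

omit [FiniteDimensional ℝ E] in
lemma X_gen {U W : Submodule ℝ E} {w : E} (hw : w ∈ U) (h : w ∉ X O1 O2 U W) :
    A O1 O2 (Submodule.span ℝ {w}) W ↔ A O1 O2 U W := by
  unfold X at h
  unfold A
  simp only [Submodule.span_singleton_le_iff_mem]
  split_ifs at h with h1 h2
  · simp [h1, h2, h2 hw]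
  · have : w ∉ O2 W := fun h' => h ⟨hw, h'⟩
    simp [h1, h2, h1 hw, this]
  · have : w ∉ O1 W := fun h' => h ⟨hw, h'⟩
    simp [h1, this]

omit [FiniteDimensional ℝ E] in
lemma Rep.symm {n : ℕ} {G : SimpleGraph (Fin n)} {vec : Fin n → E} (R : Rep O1 O2 G vec)
    {U W : Submodule ℝ E} (h : A O1 O2 U W) : A O1 O2 W U :=
  ⟨R.s1 _ _ h.1, fun h' => h.2 (R.s2 _ _ h')⟩

variable (O1 O2)
variable {n : ℕ} (vec : Fin n → E) (V : Finset (Fin n)) (a K : ℕ)

def Good : ℕ → Submodule ℝ E → Prop
  | 0, U => finrank ℝ U ≤ a ∧ ∀ F, Small a K F → ∃ w ∈ V, vec w ∈ U ∧ ∀ S ∈ F, vec w ∉ S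
  | r + 1, U => finrank ℝ U ≤ a ∧ ∀ F, Small a K F → ∀ Y ⊆ V, Y.card ≤ K →
      ∃ w ∈ V, vec w ∈ U ∧ (∀ S ∈ F, vec w ∉ S) ∧
        ∃ U', Good r U' ∧ A O1 O2 (Submodule.span ℝ {vec w}) U' ∧
          ∀ y ∈ Y, ¬ A O1 O2 (Submodule.span ℝ {vec y}) U'

variable {O1 O2 vec V a K}

omit [FiniteDimensional ℝ E] in
lemma Good.pred {r : ℕ} : ∀ {U : Submodule ℝ E}, Good O1 O2 vec V a K (r + 1) U →
    Good O1 O2 vec V a K r U := by
  induction r with
  | zero =>
    intro U h
    refine ⟨h.1, fun F hF => ?_⟩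
    obtain ⟨w, h1, h2, h3, -⟩ := h.2 F hF ∅ (empty_subset _) (by simp)
    exact ⟨w, h1, h2, h3⟩
  | succ r ih =>
    intro U h
    refine ⟨h.1, fun F hF Y hY hY' => ?_⟩
    obtain ⟨w, h1, h2, h3, U', h4, h5⟩ := h.2 F hF Y hY hY'
    exact ⟨w, h1, h2, h3, U', ih h4, h5⟩

omit [FiniteDimensional ℝ E] in
lemma Good.zero {r : ℕ} {U : Submodule ℝ E} (h : Good O1 O2 vec V a K r U) :
    Good O1 O2 vec V a K 0 U := by
  induction r with
  | zero => exact h
  | succ r ih => exact ih h.pred

lemma witnesses (hK : 1 ≤ K) {U : Submodule ℝ E} (h : Good O1 O2 vec V a K 0 U) :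
    ∃ Y : Finset (Fin n), Y ⊆ V ∧ Y.card ≤ a ∧ ∀ W, (∀ y ∈ Y,
      ¬ A O1 O2 (Submodule.span ℝ {vec y}) W) → ¬ A O1 O2 U W := by
  classical
  let s : Set E := vec '' {w | w ∈ V ∧ vec w ∈ U}
  have hle : Submodule.span ℝ s ≤ U := Submodule.span_le.2 (by rintro _ ⟨w, hw, rfl⟩; exact hw.2)
  have heq : Submodule.span ℝ s = U := by
    by_contra hne
    have hlt : finrank ℝ (Submodule.span ℝ s) < a :=
      lt_of_lt_of_le (Submodule.finrank_lt_finrank_of_lt (lt_of_le_of_ne hle hne)) h.1
    obtain ⟨w, w1, w2, w3⟩ := h.2 {Submodule.span ℝ s} ⟨by simpa using hK, by simpa using hlt⟩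
    exact w3 _ (mem_singleton_self _) (Submodule.subset_span ⟨w, ⟨w1, w2⟩, rfl⟩)
  obtain ⟨t, t1, t2, t3, -⟩ := Submodule.exists_finset_span_eq_linearIndepOn ℝ s
  obtain ⟨Y, Y1, Y2, Y3⟩ : ∃ Y : Finset (Fin n), (∀ y ∈ Y, y ∈ V ∧ vec y ∈ U) ∧ Y.card ≤ t.card ∧
      ∀ z ∈ t, ∃ y ∈ Y, vec y = z := by
    have : ∀ z : t, ∃ y, (y ∈ V ∧ vec y ∈ U) ∧ vec y = z := fun z => t1 z.2
    choose f f1 f2 using this
    refine ⟨univ.image f, ?_, card_image_le.trans (by simp), fun z hz =>
      ⟨f ⟨z, hz⟩, mem_image_of_mem _ (mem_univ _), f2 _⟩⟩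
    intro y hy
    obtain ⟨z, -, rfl⟩ := mem_image.1 hy
    exact f1 z
  refine ⟨Y, fun y hy => (Y1 y hy).1, ?_, fun W hW hA => hA.2 ?_⟩
  · rw [heq] at t2
    have := h.1
    omega
  · rw [← heq, ← t3]
    refine Submodule.span_le.2 fun z hz => ?_
    obtain ⟨y, hy, rfl⟩ := Y3 z hz
    by_contra hn
    exact hW y hy ⟨(Submodule.span_singleton_le_iff_mem _ _).2 (hA.1 (Y1 y hy).2),
      fun h' => hn ((Submodule.span_singleton_le_iff_mem _ _).1 h')⟩

lemma not_self {G : SimpleGraph (Fin n)} (R : Rep O1 O2 G vec) {q : ℕ} (hq : G.CliqueFree q)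
    (ha : 1 ≤ a) (hK : q ≤ K) {U : Submodule ℝ E} (h : Good O1 O2 vec V a K 0 U) :
    ¬ A O1 O2 U U := by
  classical
  intro hA
  have key : ∀ s, s ≤ q → ∃ S : Finset (Fin n), G.IsNClique s S ∧
      ∀ x ∈ S, A O1 O2 (Submodule.span ℝ {vec x}) U := by
    intro s
    induction s with
    | zero => intro _; exact ⟨∅, by simp, by simp⟩
    | succ s ih =>
      intro hs
      obtain ⟨S, S1, S2⟩ := ih (by omega)
      obtain ⟨w, -, w2, w3⟩ := h.2 (insert (X O1 O2 U U)
        (S.image fun x => X O1 O2 U (Submodule.span ℝ {vec x})))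
        ⟨(card_insert_le _ _).trans (by
          have := card_image_le (s := S) (f := fun x => X O1 O2 U (Submodule.span ℝ {vec x}))
          have := S1.card_eq
          omega), by
          intro S' hS'
          rcases mem_insert.1 hS' with rfl | hS'
          · exact X_lt ha h.1 _
          · obtain ⟨x, -, rfl⟩ := mem_image.1 hS'
            exact X_lt ha h.1 _⟩
      refine ⟨insert w S, S1.insert (fun x hx => ?_), fun x hx => ?_⟩
      · exact (R.adj _ _).2 ((X_gen w2 (w3 _ (mem_insert_of_mem (mem_image_of_mem _ hx)))).2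
          (R.symm (S2 x hx)))
      · rcases mem_insert.1 hx with rfl | hx
        · exact (X_gen w2 (w3 _ (mem_insert_self _ _))).2 hA
        · exact S2 x hx
  obtain ⟨S, hS, -⟩ := key q le_rfl
  exact hq S hS

lemma embed {G : SimpleGraph (Fin n)} (R : Rep O1 O2 G vec) {q : ℕ} (hq : G.CliqueFree q)
    {m : ℕ} {T : SimpleGraph (Fin m)}
    (hT : T.IsTree) (ha : 2 ≤ a) (hK : (a + 3) * m ≤ K) (hK' : q + 1 ≤ K) (u : Fin n) (hu : u ∈ V)
    (U : Submodule ℝ E) (hU : Good O1 O2 vec V a K m U)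
    (hU' : A O1 O2 (Submodule.span ℝ {vec u}) U) : Nonempty (T ↪g G) := by
  classical
  obtain ⟨r⟩ := hT.connected.nonempty
  have key : ∀ s, s + 1 ≤ m → ∃ S : Finset (Fin m), S.card = s + 1 ∧ r ∈ S ∧
      (∀ v ∈ S, ∀ u, T.dist r u < T.dist r v → u ∈ S) ∧
      ∃ (x : Fin m → Fin n) (W : Fin m → Submodule ℝ E),
        (∀ i ∈ S, x i ∈ V ∧ A O1 O2 (Submodule.span ℝ {vec (x i)}) (W i) ∧
          Good O1 O2 vec V a K (m - s) (W i)) ∧
        ∀ i ∈ S, ∀ j ∈ S, i ≠ j → ¬ A O1 O2 (Submodule.span ℝ {vec (x j)}) (W i) ∧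
          ¬ A O1 O2 (W j) (W i) ∧ x i ≠ x j ∧ (G.Adj (x i) (x j) ↔ T.Adj i j) := by
    intro s
    induction s with
    | zero =>
      intro _
      refine ⟨{r}, by simp, by simp, by simp, fun _ => u, fun _ => U, ?_, ?_⟩
      · intro i _; exact ⟨hu, hU', hU⟩
      · simp only [mem_singleton]
        rintro i rfl j rfl h
        exact absurd rfl h
    | succ s ih =>
      intro hs
      obtain ⟨S, cS, rS, clS, x, W, h1, h2⟩ := ih (by omega)
      obtain ⟨v, hv, p, hp, hadj, hcl⟩ := tree_step hT r S rS (by omega) clS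
      have e : m - s = (m - (s + 1)) + 1 := by omega
      rw [e] at h1
      have hc := fun i (hi : i ∈ S) => witnesses (by omega) (h1 i hi).2.2.zero
      choose! c c1 c2 c3 using hc
      have gp := (h1 p hp).2.2
      have hsm : S.card ≤ m := by omega
      have hK3 : 3 * m + a * m ≤ K := by linarith
      obtain ⟨w, wV, wW, wF, U', g', wU', hY⟩ := gp.2
        (S.image (fun l => Submodule.span ℝ {vec (x l)}) ∪
          S.image (fun l => X O1 O2 (W p) (Submodule.span ℝ {vec (x l)})) ∪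
          S.image (fun l => X O1 O2 (W p) (W l)))
        ⟨by
          refine (card_union_le _ _).trans ?_
          refine (Nat.add_le_add (card_union_le _ _) card_image_le).trans ?_
          have := card_image_le (s := S) (f := fun l => Submodule.span ℝ {vec (x l)})
          have := card_image_le (s := S)
            (f := fun l => X O1 O2 (W p) (Submodule.span ℝ {vec (x l)}))
          generalize a * m = z at hK3
          omega, by
          intro S' hS'
          simp only [mem_union, mem_image] at hS'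
          rcases hS' with (⟨l, -, rfl⟩ | ⟨l, hl, rfl⟩) | ⟨l, hl, rfl⟩
          · have := finrank_span_le_card (R := ℝ) ({vec (x l)} : Set E)
            simp at this
            omega
          · exact X_lt (by omega) gp.1 _
          · exact X_lt (by omega) gp.1 _⟩
        (S.image x ∪ S.biUnion c)
        (by
          intro y hy
          simp only [mem_union, mem_image, mem_biUnion] at hy
          rcases hy with ⟨l, hl, rfl⟩ | ⟨l, hl, h⟩
          · exact (h1 l hl).1
          · exact c1 l hl h)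
        (by
          refine (card_union_le _ _).trans ?_
          have := card_image_le (s := S) (f := x)
          have h3 := card_biUnion_le_card_mul S c a c2
          have h4 : S.card * a ≤ a * m := by rw [mul_comm]; exact Nat.mul_le_mul_left _ hsm
          generalize a * m = z at hK3 h4
          omega)
      have f1 : ∀ l ∈ S, w ≠ x l := fun l hl e =>
        wF (Submodule.span ℝ {vec (x l)})
          (mem_union_left _ (mem_union_left _ (mem_image_of_mem _ hl)))
          (e ▸ Submodule.mem_span_singleton_self _)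
      have f2 : ∀ l ∈ S, (G.Adj w (x l) ↔ l = p) := fun l hl => by
        rw [R.adj, X_gen wW (wF _ (mem_union_left _ (mem_union_right _ (mem_image_of_mem _ hl))))]
        constructor
        · intro h
          by_contra hlp
          exact (h2 p hp l hl (Ne.symm hlp)).1 (R.symm h)
        · rintro rfl
          exact R.symm (h1 l hl).2.1
      have f3 : ∀ l ∈ S, ¬ A O1 O2 (Submodule.span ℝ {vec w}) (W l) := fun l hl => by
        rw [X_gen wW (wF _ (mem_union_right _ (mem_image_of_mem _ hl)))]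
        by_cases hlp : l = p
        · subst hlp
          exact not_self R hq (by omega) (by omega) gp.zero
        · exact (h2 l hl p hp hlp).2.1
      have f4 : ∀ l ∈ S, ¬ A O1 O2 (Submodule.span ℝ {vec (x l)}) U' := fun l hl =>
        hY _ (mem_union_left _ (mem_image_of_mem _ hl))
      have f5 : ∀ l ∈ S, ¬ A O1 O2 (W l) U' := fun l hl =>
        c3 l hl U' (fun y hy => hY _ (mem_union_right _ (mem_biUnion.2 ⟨l, hl, hy⟩)))
      have ne : ∀ l ∈ S, l ≠ v := fun l hl e => hv (e ▸ hl)
      refine ⟨insert v S, by rw [card_insert_of_notMem hv, cS], mem_insert_of_mem rS, hcl,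
        Function.update x v w, Function.update W v U', ?_, ?_⟩
      · intro i hi
        rcases mem_insert.mp hi with rfl | hi
        · simp only [Function.update_self]
          exact ⟨wV, wU', g'⟩
        · simp only [Function.update_of_ne (ne i hi)]
          exact ⟨(h1 i hi).1, (h1 i hi).2.1, (h1 i hi).2.2.pred⟩
      · intro i hi j hj hij
        have hi' := mem_insert.mp hi
        have hj' := mem_insert.mp hj
        clear hi hj
        rcases hi' with rfl | hi <;> rcases hj' with rfl | hj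
        · exact absurd rfl hij
        · simp only [Function.update_self, Function.update_of_ne (ne j hj)]
          exact ⟨f4 j hj, f5 j hj, f1 j hj, (f2 j hj).trans (hadj j hj).symm⟩
        · simp only [Function.update_self, Function.update_of_ne (ne i hi)]
          refine ⟨f3 i hi, fun h => f5 i hi (R.symm h), (f1 i hi).symm, ?_⟩
          rw [G.adj_comm, T.adj_comm]
          exact (f2 i hi).trans (hadj i hi).symm
        · simp only [Function.update_of_ne (ne i hi), Function.update_of_ne (ne j hj)]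
          exact h2 i hi j hj hij
  have mpos : 0 < m := r.pos
  obtain ⟨S, cS, -, -, x, W, -, h2⟩ := key (m - 1) (by omega)
  have hS : S = univ := eq_univ_of_card _ (by simp; omega)
  subst hS
  refine ⟨⟨⟨x, fun i j e => ?_⟩, fun {i j} => ?_⟩⟩
  · by_contra h
    exact (h2 i (mem_univ _) j (mem_univ _) h).2.2.1 e
  · by_cases h : i = j
    · subst h; simp
    · exact (h2 i (mem_univ _) j (mem_univ _) h).2.2.2

omit [FiniteDimensional ℝ E] in
lemma levels (m : ℕ) (U : Submodule ℝ E) (h1 : finrank ℝ U ≤ a)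
    (h2 : ¬ Good O1 O2 vec V a K m U) :
    ∃ (l : Option (Fin m)) (F : Finset (Submodule ℝ E)) (Y : Finset (Fin n)), Small a K F ∧
      Y ⊆ V ∧ Y.card ≤ K ∧ (∀ r : Fin m, l = some r → Good O1 O2 vec V a K r U) ∧
      ∀ w ∈ V, vec w ∈ U → (∃ S ∈ F, vec w ∈ S) ∨ ∃ r : Fin m, l = some r ∧
        ∀ U', Good O1 O2 vec V a K r U' → A O1 O2 (Submodule.span ℝ {vec w}) U' →
          ∃ y ∈ Y, A O1 O2 (Submodule.span ℝ {vec y}) U' := by
  induction m with
  | zero =>
    simp only [Good, h1, true_and] at h2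
    push Not at h2
    obtain ⟨F, hF, h⟩ := h2
    exact ⟨none, F, ∅, hF, by simp, by simp, by simp, fun w hw hw' => Or.inl (h w hw hw')⟩
  | succ m ih =>
    by_cases h : Good O1 O2 vec V a K m U
    · simp only [Good, h1, true_and] at h2
      push Not at h2
      obtain ⟨F, hF, Y, hY, hY', h'⟩ := h2
      refine ⟨some (Fin.last m), F, Y, hF, hY, hY', ?_, fun w hw hw' => ?_⟩
      · intro r hr
        rw [← Option.some.inj hr]
        exact h
      · by_cases hs : ∃ S ∈ F, vec w ∈ S
        · exact Or.inl hs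
        · push Not at hs
          exact Or.inr ⟨_, rfl, h' w hw hw' hs⟩
    · obtain ⟨l, F, Y, hF, hY, hY', h3, h4⟩ := ih h
      refine ⟨l.map Fin.castSucc, F, Y, hF, hY, hY', ?_, fun w hw hw' => ?_⟩
      · intro r hr
        obtain ⟨r', h5, rfl⟩ := Option.map_eq_some_iff.mp hr
        exact h3 r' h5
      · rcases h4 w hw hw' with h5 | ⟨r, h5, h6⟩
        · exact Or.inl h5
        · exact Or.inr ⟨r.castSucc, by simp [h5], h6⟩

omit [FiniteDimensional ℝ E] in
lemma not_good_bot (ha : 1 ≤ a) (hK : 1 ≤ K) {r : ℕ} : ¬ Good O1 O2 vec V a K r ⊥ := by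
  intro h
  obtain ⟨w, -, w2, w3⟩ := h.zero.2 {⊥} ⟨by simpa using hK, by simp; omega⟩
  exact w3 _ (mem_singleton_self _) w2

variable (O1 O2) in
theorem colour {m : ℕ} {T : SimpleGraph (Fin m)} (hT : T.IsTree) (q a : ℕ) : ∀ k : ℕ, ∃ c : ℕ,
    ∀ (n : ℕ) (G : SimpleGraph (Fin n)) (vec : Fin n → E) (V : Finset (Fin n)), Rep O1 O2 G vec →
      G.CliqueFree q → ¬ Nonempty (T ↪g G) → Cov G vec V (a + 2) k →
      ∃ col : Fin n → Fin c, ∀ u ∈ V, ∀ w ∈ V, G.Adj u w → col u ≠ col w := by
  classical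
  induction a with
  | zero =>
    intro k
    refine ⟨Fintype.card (Fin (k + 1) × Fin (k + 1)), fun n G vec V R _ _ hc => ?_⟩
    obtain ⟨ψ, hψ⟩ := digraph_col k (fun u => if u ∈ V then V.filter (G.Adj u) else ∅)
      (fun u => by
        split_ifs with hu
        · obtain ⟨F, hF, h⟩ := hc u hu
          choose! S S1 S2 using h
          refine le_trans (card_le_card_of_injOn S
            (fun w hw => S1 w (mem_filter.mp hw).1 (mem_filter.mp hw).2) ?_) hF.1
          intro w hw w' hw' e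
          have hw1 := mem_filter.mp hw
          have hw2 := mem_filter.mp hw'
          have h0 : vec w' ≠ 0 := R.ne0 w'
          have h3 : Submodule.span ℝ {vec w'} = S w' := by
            refine Submodule.eq_of_le_of_finrank_le
              ((Submodule.span_singleton_le_iff_mem _ _).mpr (S2 w' hw2.1 hw2.2)) ?_
            rw [finrank_span_singleton h0]
            have := hF.2 _ (S1 w' hw2.1 hw2.2)
            omega
          exact R.np w w' (h3 ▸ e ▸ S2 w hw1.1 hw1.2)
        · simp) V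
    refine ⟨fun u => Fintype.equivFin _ (ψ u), fun u hu w hw h e => ?_⟩
    exact hψ u hu w hw (by simp [hu, hw, h]) h.ne' ((Fintype.equivFin _).injective e)
  | succ a ih =>
    intro k
    obtain ⟨K, hK1, hK2, hK3⟩ : ∃ K, (a + 2 + 3) * m ≤ K ∧ q + 1 ≤ K ∧ k + 1 ≤ K :=
      ⟨(a + 2 + 3) * m + q + k + 1, by omega, by omega, by omega⟩
    obtain ⟨c, hc⟩ := ih (k * K + k)
    refine ⟨Fintype.card ((Fin k → Option (Fin m) × (Fin (K * k + 1) × Fin (K * k + 1))) × Fin c),
      fun n G vec V R hq hT' hcov => ?_⟩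
    have hS : ∀ u ∈ V, ∃ S : Fin k → Submodule ℝ E,
        (∀ j, finrank ℝ (S j) ≤ a + 2 ∧ (A O1 O2 (Submodule.span ℝ {vec u}) (S j) ∨ S j = ⊥)) ∧
        ∀ w ∈ V, G.Adj u w → ∃ j, vec w ∈ S j := by
      intro u hu
      obtain ⟨F, hF, h⟩ := hcov u hu
      have hZ : ∀ Z : Submodule ℝ E, ∃ Z' : Submodule ℝ E, Z' ≤ Z ∧
          (A O1 O2 (Submodule.span ℝ {vec u}) Z' ∨ Z' = ⊥) ∧
          ∀ w, vec w ∈ Z → G.Adj u w → vec w ∈ Z' := by
        intro Z
        by_cases hz : Z ⊓ O1 (Submodule.span ℝ {vec u}) ≤ O2 (Submodule.span ℝ {vec u})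
        · refine ⟨⊥, bot_le, Or.inr rfl, fun w hw hadj => ?_⟩
          have h3 := (R.adj _ _).1 hadj.symm
          exact absurd ((Submodule.span_singleton_le_iff_mem _ _).2
            (hz ⟨hw, h3.1 (Submodule.mem_span_singleton_self _)⟩)) h3.2
        · refine ⟨Z ⊓ O1 (Submodule.span ℝ {vec u}), inf_le_left,
            Or.inl (R.symm ⟨inf_le_right, hz⟩), fun w hw hadj => ⟨hw, ?_⟩⟩
          exact ((R.adj _ _).1 hadj.symm).1 (Submodule.mem_span_singleton_self _)
      choose Z Z1 Z2 Z3 using hZ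
      refine ⟨fun j => if h : j.val < F.card then Z (F.equivFin.symm ⟨j, h⟩ : Submodule ℝ E) else ⊥,
        fun j => ?_, fun w hw hadj => ?_⟩
      · beta_reduce
        by_cases h : j.val < F.card
        · rw [dif_pos h]
          refine ⟨?_, Z2 _⟩
          have h1 := hF.2 _ (F.equivFin.symm ⟨j, h⟩).2
          have h2 := Submodule.finrank_mono (Z1 (F.equivFin.symm ⟨j, h⟩ : Submodule ℝ E))
          omega
        · rw [dif_neg h]
          exact ⟨by simp, Or.inr rfl⟩
      · obtain ⟨S, h1, h2⟩ := h w hw hadj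
        refine ⟨⟨F.equivFin ⟨S, h1⟩, lt_of_lt_of_le (Fin.is_lt _) hF.1⟩, ?_⟩
        simp only [Fin.is_lt, dif_pos, Fin.eta, Equiv.symm_apply_apply]
        exact Z3 _ w h2 hadj
    choose! S S1 S2 using hS
    have star : ∀ y ∈ V, ∀ U, Good O1 O2 vec V (a + 2) K 0 U →
        A O1 O2 (Submodule.span ℝ {vec y}) U → ∃ j, U = S y j := by
      intro y hy U hU hyU
      by_contra hne
      push Not at hne
      obtain ⟨w, w1, w2, w3⟩ := hU.2 (insert (X O1 O2 U (Submodule.span ℝ {vec y}))
          (univ.image fun j => U ⊓ S y j))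
        ⟨(card_insert_le _ _).trans ((Nat.add_le_add_right card_image_le 1).trans (by simpa)), by
          intro S' hS'
          rcases mem_insert.1 hS' with rfl | hS'
          · exact X_lt (by omega) hU.1 _
          obtain ⟨j, -, rfl⟩ := mem_image.mp hS'
          by_contra hlt
          have e1 : U ⊓ S y j = U := Submodule.eq_of_le_of_finrank_le inf_le_left
            (by have := hU.1; omega)
          have e2 : U ⊓ S y j = S y j := Submodule.eq_of_le_of_finrank_le inf_le_right
            (by have := (S1 y hy j).1; omega)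
          exact hne j (e1.symm.trans e2)⟩
      obtain ⟨j, hj⟩ := S2 y hy w w1 ((R.adj _ _).mpr
        ((X_gen w2 (w3 _ (mem_insert_self _ _))).2 (R.symm hyU))).symm
      exact w3 _ (mem_insert_of_mem (mem_image_of_mem _ (mem_univ j))) ⟨w2, hj⟩
    choose! l F Y l1 l2 l3 l4 l5 using
      levels (O1 := O1) (O2 := O2) (vec := vec) (V := V) (a := a + 2) (K := K) m
    have ng : ∀ u ∈ V, ∀ j, ¬ Good O1 O2 vec V (a + 2) K m (S u j) := fun u hu j h => by
      rcases (S1 u hu j).2 with h' | h'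
      · exact hT' (embed R hq hT (by omega) hK1 hK2 u hu _ h h')
      · rw [h'] at h
        exact not_good_bot (by omega) (by omega) h
    let L := V.biUnion fun u => univ.image (S u)
    obtain ⟨ψ, hψ⟩ := digraph_col (K * k)
      (fun U => if U ∈ L then (Y U).biUnion fun y => univ.image (S y) else ∅)
      (fun U => by
        split_ifs with hU
        · obtain ⟨u, hu, h⟩ := mem_biUnion.mp hU
          obtain ⟨j, -, rfl⟩ := mem_image.mp h
          refine card_biUnion_le_card_mul _ _ k (fun y _ => card_image_le.trans (by simp)) |>.trans ?_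
          exact Nat.mul_le_mul_right _ (l3 _ (S1 u hu j).1 (ng u hu j))
        · simp) L
    let φ : Fin n → Fin k → Option (Fin m) × (Fin (K * k + 1) × Fin (K * k + 1)) :=
      fun u j => (l (S u j), ψ (S u j))
    have sub : ∀ t, ∃ col : Fin n → Fin c, ∀ u ∈ V.filter (φ · = t), ∀ w ∈ V.filter (φ · = t),
        G.Adj u w → col u ≠ col w := by
      intro t
      refine hc n G vec _ R hq hT' fun u hu => ?_
      obtain ⟨hu, hut⟩ := mem_filter.mp hu
      refine ⟨(univ.biUnion fun j => F (S u j)) ∪ univ.image (fun j => X O1 O2 (S u j) (S u j)),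
        ⟨?_, ?_⟩, fun w hw hadj => ?_⟩
      · refine (card_union_le _ _).trans (Nat.add_le_add ?_ (card_image_le.trans (by simp)))
        exact card_biUnion_le_card_mul _ _ K
          (fun j _ => (l1 _ (S1 u hu j).1 (ng u hu j)).1) |>.trans (by simp)
      · intro S' hS'
        rcases mem_union.1 hS' with hS' | hS'
        · obtain ⟨j, -, h⟩ := mem_biUnion.mp hS'
          exact (l1 _ (S1 u hu j).1 (ng u hu j)).2 _ h
        · obtain ⟨j, -, rfl⟩ := mem_image.1 hS'
          exact X_lt (by omega) (S1 u hu j).1 _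
      · obtain ⟨hw, hwt⟩ := mem_filter.mp hw
        obtain ⟨j, hj⟩ := S2 u hu w hw hadj
        by_cases hX : vec w ∈ X O1 O2 (S u j) (S u j)
        · exact ⟨_, mem_union_right _ (mem_image_of_mem _ (mem_univ j)), hX⟩
        rcases l5 _ (S1 u hu j).1 (ng u hu j) w hw hj with ⟨S', h1, h2⟩ | ⟨r, h1, h2⟩
        · exact ⟨S', mem_union_left _ (mem_biUnion.mpr ⟨j, mem_univ _, h1⟩), h2⟩
        · exfalso
          have e := Prod.ext_iff.mp (congrFun (hut.trans hwt.symm) j)
          have g := l4 _ (S1 w hw j).1 (ng w hw j) r (e.1.symm.trans h1)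
          have hA : A O1 O2 (Submodule.span ℝ {vec w}) (S w j) := by
            rcases (S1 w hw j).2 with h' | h'
            · exact h'
            · rw [h'] at g
              exact absurd g (not_good_bot (by omega) (by omega))
          obtain ⟨y, y1, y2⟩ := h2 _ g hA
          obtain ⟨j', hj'⟩ := star y (l2 _ (S1 u hu j).1 (ng u hu j) y1) _ g.zero y2
          have m1 : S u j ∈ L := mem_biUnion.mpr ⟨u, hu, mem_image_of_mem _ (mem_univ _)⟩
          have m2 : S w j ∈ L := mem_biUnion.mpr ⟨w, hw, mem_image_of_mem _ (mem_univ _)⟩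
          refine hψ _ m1 _ m2 ?_ (fun h => ?_) e.2
          · rw [if_pos m1]
            exact mem_biUnion.mpr ⟨y, y1, hj' ▸ mem_image_of_mem _ (mem_univ _)⟩
          · rw [h] at hA g
            exact not_self R hq (by omega) (by omega) g.zero ((X_gen hj hX).1 hA)
    choose col hcol using sub
    refine ⟨fun u => Fintype.equivFin _ (φ u, col (φ u) u), fun u hu w hw hadj e => ?_⟩
    have e' := Prod.ext_iff.mp ((Fintype.equivFin _).injective e)
    have e1 : φ u = φ w := e'.1
    have e2 : col (φ u) u = col (φ w) w := e'.2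
    rw [← e1] at e2
    exact hcol (φ u) u (mem_filter.mpr ⟨hu, rfl⟩) w (mem_filter.mpr ⟨hw, e1.symm⟩) hadj e2

lemma acyclic_map {α β : Type} (F : SimpleGraph α) (f : α ↪ β) (hF : F.IsAcyclic) :
    (F.map f).IsAcyclic := by
  have lift : ∀ {a b : β} (p : (F.map f).Walk a b) (i : α) (hi : f i = a), ∃ (j : α) (hj : f j = b)
      (q : F.Walk i j), (q.map (Embedding.map f F).toHom).copy hi hj = p := by
    intro a b p
    induction p with
    | nil => intro i hi; subst hi; exact ⟨i, rfl, Walk.nil, rfl⟩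
    | cons h p ih =>
      intro i hi
      obtain ⟨u, v, huv, hu, hv⟩ := (map_adj _ _ _ _).1 h
      have : u = i := f.injective (hu.trans hi.symm)
      subst this
      obtain ⟨j, hj, q, hq⟩ := ih v hv
      subst hi; subst hv; subst hj
      refine ⟨j, rfl, Walk.cons huv q, ?_⟩
      rw [← hq]; rfl
  intro v c hc
  obtain ⟨i, hi⟩ : ∃ i, f i = v := by
    cases c with
    | nil => exact absurd rfl hc.ne_nil
    | cons h p =>
      obtain ⟨u, -, -, hu, -⟩ := (map_adj _ _ _ _).1 h
      exact ⟨u, hu⟩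
  obtain ⟨j, hj, q, hq⟩ := lift c i hi
  have : j = i := f.injective (hj.trans hi.symm)
  subst this
  subst hi
  rw [← hq] at hc
  exact hF q (Walk.IsCycle.of_map hc)

/-- every finite forest is an induced subgraph of a finite tree -/
lemma forest_in_tree {m : ℕ} (F : SimpleGraph (Fin m)) (hF : F.IsAcyclic) :
    ∃ T : SimpleGraph (Fin (m + 1)), T.IsTree ∧ Nonempty (F ↪g T) := by
  let H : SimpleGraph (Fin (m + 1)) := F.map (Fin.succEmb m)
  let G : SimpleGraph (Fin (m + 1)) := H ⊔ SimpleGraph.fromRel (fun i _ => i = 0)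
  have hG : G.Connected := by
    have h0 : ∀ i, G.Reachable 0 i := by
      intro i
      by_cases h : i = 0
      · rw [h]
      · exact Adj.reachable (Or.inr ((fromRel_adj _ _ _).2 ⟨Ne.symm h, Or.inl rfl⟩))
    exact (connected_iff_exists_forall_reachable _).2 ⟨0, h0⟩
  have hH : H.IsAcyclic := acyclic_map F _ hF
  obtain ⟨T, h1, h2, h3⟩ := hG.exists_isTree_le_of_le_of_isAcyclic le_sup_left hH
  refine ⟨T, h3, ⟨⟨(Fin.succEmb m), fun {i j} => ⟨fun h => ?_, fun h => ?_⟩⟩⟩⟩
  · rcases h2 h with h | h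
    · exact (map_adj_apply).1 h
    · rcases ((fromRel_adj _ _ _).1 h).2 with h | h <;> exact absurd h (Fin.succ_ne_zero _)
  · exact h1 ((map_adj_apply).2 h)

end Pool.Agent.H23.GS2
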