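import Mathlib

set_option autoImplicit false
set_option maxSynthPendingDepth 3

open Cardinal Set

namespace Pool.Agent.H23.Harz

lemma mk_Iio_lt' {c : Cardinal.{0}} (i : c.ord.ToType) : #(Iio i) < c := by
  simpa using mk_Iio_lt i

/-- injective choice function for at most `ν` sets of size at least `ν` -/
lemma inj_choice {ι X : Type} (A : ι → Set X) (ν : Cardinal.{0}) (hι : #ι ≤ ν)
    (hA : ∀ i, ν ≤ #(A i)) : ∃ φ : ι → X, Function.Injective φ ∧ ∀ i, φ i ∈ A i := by
  classical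
  rw [← mk_ord_toType ν] at hι
  obtain ⟨e⟩ := (Cardinal.le_def _ _).1 hι
  let r : ι → ι → Prop := fun i j => e i < e j
  have hr : WellFounded r := InvImage.wf e wellFounded_lt
  have hstep : ∀ j (g : ∀ i, r i j → X), ∃ x ∈ A j, ∀ i (h : r i j), g i h ≠ x := by
    intro j g
    by_contra hc
    push Not at hc
    have h1 : #(A j) ≤ #{i // r i j} := by
      choose F hF using hc
      choose hF1 hF2 using hF
      refine mk_le_of_injective (f := fun x : A j => (⟨F x.1 x.2, hF1 x.1 x.2⟩ : {i // r i j})) ?_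
      intro x y hxy
      have h2 : F x.1 x.2 = F y.1 y.2 := congrArg Subtype.val hxy
      apply Subtype.ext
      rw [← hF2 x.1 x.2, ← hF2 y.1 y.2]
      congr 1
    have h2 : #{i // r i j} ≤ #(Iio (e j)) :=
      mk_le_of_injective (f := fun i : {i // r i j} => (⟨e i.1, i.2⟩ : Iio (e j)))
        (fun x y hxy => Subtype.ext (e.injective (congrArg Subtype.val hxy)))
    exact absurd ((hA j).trans (h1.trans h2)) (not_le.2 (mk_Iio_lt' _))
  choose F hF1 hF2 using hstep
  let φ : ι → X := hr.fix F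
  have hφ : ∀ j, φ j = F j (fun i _ => φ i) := fun j => hr.fix_eq F j
  refine ⟨φ, fun i j hij => ?_, fun j => by rw [hφ]; exact hF1 _ _⟩
  rcases lt_trichotomy (e i) (e j) with h | h | h
  · exact absurd (hij.trans (hφ j)) (hF2 j (fun i _ => φ i) i h)
  · exact e.injective h
  · exact absurd (hij.symm.trans (hφ i)) (hF2 i (fun i _ => φ i) j h)

/-- Bernstein colouring -/
lemma bernstein {ι X : Type} (A : ι → Set X) (ν : Cardinal.{0}) (hν : ℵ₀ ≤ ν) (hι : #ι ≤ ν)
    (hA : ∀ i, ν ≤ #(A i)) : ∃ h : X → Bool, ∀ i β, ∃ x ∈ A i, h x = β := by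
  classical
  obtain ⟨φ, h1, h2⟩ := inj_choice (fun p : ι × Bool => A p.1) ν (by
    rw [mk_prod, lift_id, lift_id, mk_bool]
    exact (mul_le_mul' hι ((natCast_lt_aleph0 (n := 2)).le.trans hν)).trans
      (mul_eq_self hν).le) (fun p => hA p.1)
  refine ⟨fun x => decide (∃ i, φ (i, true) = x), fun i β => ⟨φ (i, β), h2 (i, β), ?_⟩⟩
  cases β
  · simp only [decide_eq_false_iff_not, not_exists]
    intro j hj
    simpa using congrArg Prod.snd (h1 hj)
  · simp only [decide_eq_true_eq]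
    exact ⟨i, rfl⟩

lemma exists_Iio_eq {c t : Cardinal.{0}} (h : c < t) : ∃ i : t.ord.ToType, #(Iio i) = c := by
  have h1 : c.ord < Ordinal.type (α := t.ord.ToType) (· < ·) := by
    rw [Ordinal.type_toType]; exact ord_lt_ord.2 h
  refine ⟨Ordinal.enum (α := t.ord.ToType) (· < ·) ⟨c.ord, h1⟩, ?_⟩
  have := Ordinal.card_typein (r := ((· < ·) : t.ord.ToType → t.ord.ToType → Prop))
    (Ordinal.enum (α := t.ord.ToType) (· < ·) ⟨c.ord, h1⟩)
  rw [Ordinal.typein_enum, card_ord] at this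
  exact this.symm

lemma card_small (t c : Cardinal.{0}) (hc : c < t) :
    #{y : t.ord.ToType | #(Iio y) < c} ≤ c := by
  obtain ⟨i, hi⟩ := exists_Iio_eq hc
  rw [← hi]
  refine mk_le_mk_of_subset fun y hy => ?_
  by_contra hn
  have : #(Iio i) ≤ #(Iio y) := mk_le_mk_of_subset (Iio_subset_Iio (not_lt.1 hn))
  exact absurd hy (not_lt.2 this)

section Namba

variable {M : Type} (m0 : M)

def trunc (k : ℕ) (w : ℕ → M) : ℕ → M := fun i => if i < k then w i else m0

lemma trunc_trunc {k l : ℕ} (h : k ≤ l) (w : ℕ → M) :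
    trunc m0 k (trunc m0 l w) = trunc m0 k w := by
  funext i
  unfold trunc
  by_cases hi : i < k
  · simp [hi, lt_of_lt_of_le hi h]
  · simp [hi]

lemma update_trunc (k : ℕ) (w : ℕ → M) :
    Function.update (trunc m0 k w) k (w k) = trunc m0 (k + 1) w := by
  funext i
  by_cases hi : i = k
  · subst hi; simp [trunc]
  · rw [Function.update_of_ne hi]
    unfold trunc
    by_cases h2 : i < k
    · simp [h2, Nat.lt_succ_of_lt h2]
    · have : ¬ i < k + 1 := by omega
      simp [h2, this]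

lemma namba {Γ : Type} [LinearOrder Γ] [Nonempty Γ] (b : Γ → Cardinal.{0}) (hb : Monotone b)
    (hinf : ∀ γ, ℵ₀ ≤ b γ) (hnx : ∀ γ, ∃ γ', 2 ^ b γ ≤ b γ') (hΓ : ∀ γ, #(ℕ → Γ) ≤ b γ)
    (hM : ∀ γ, b γ < #M) (r : ℕ → (ℕ → M) → Γ) :
    ∃ g : ℕ → Γ, (∀ n, 2 ^ b (g n) ≤ b (g (n + 1))) ∧ ∃ Good : ℕ → (ℕ → M) → Prop,
      Good 0 (fun _ => m0) ∧ ∀ n s, Good n s →
        b (g n) ≤ #{ξ | r n (Function.update s n ξ) ≤ g (n + 1) ∧
          Good (n + 1) (Function.update s n ξ)} := by
  classical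
  let Win : (ℕ → Γ) → ℕ → (ℕ → M) → Prop := fun g n s =>
    ∃ S : ℕ → (ℕ → M) → Set M, (∀ k t, #(S k t) ≤ b (g k)) ∧
      ¬ ∃ w : ℕ → M, trunc m0 n w = s ∧ ∀ k, n ≤ k →
        w k ∉ S k (trunc m0 k w) ∧ r k (trunc m0 (k + 1) w) ≤ g (k + 1)
  by_cases hall : ∀ g : ℕ → Γ, (∀ n, 2 ^ b (g n) ≤ b (g (n + 1))) → Win g 0 (fun _ => m0)
  · exfalso
    choose! S hS1 hS2 using hall
    choose nx hnx using hnx
    -- one step
    have hstep : ∀ (k : ℕ) (t : ℕ → M) (γ : Γ), ∃ ξ : M, ∀ g : ℕ → Γ,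
        (∀ n, 2 ^ b (g n) ≤ b (g (n + 1))) → g k = γ → ξ ∉ S g k t := by
      intro k t γ
      by_contra hc
      push Not at hc
      let T : (ℕ → Γ) → Set M := fun g =>
        if (∀ n, 2 ^ b (g n) ≤ b (g (n + 1))) ∧ g k = γ then S g k t else ∅
      have hT : ∀ g, #(T g) ≤ b γ := by
        intro g
        by_cases hg : (∀ n, 2 ^ b (g n) ≤ b (g (n + 1))) ∧ g k = γ
        · simp only [T, if_pos hg]
          rw [← hg.2]; exact hS1 g hg.1 k t
        · simp [T, if_neg hg]
      have h1 : (univ : Set M) ⊆ ⋃ g, T g := by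
        intro ξ _
        obtain ⟨g, h1, h2, h3⟩ := hc ξ
        refine mem_iUnion.2 ⟨g, ?_⟩
        simp only [T, if_pos (And.intro h1 h2)]
        exact h3
      have h2 : #M ≤ b γ := by
        rw [← mk_univ]
        refine (mk_le_mk_of_subset h1).trans ((mk_iUnion_le T).trans ?_)
        exact (mul_le_mul' (hΓ γ) (ciSup_le' hT)).trans (mul_eq_self (hinf γ)).le
      exact absurd h2 (not_le.2 (hM γ))
    choose X hX using hstep
    let st : ℕ → (ℕ → M) × Γ := fun n => Nat.rec ((fun _ => m0), Classical.arbitrary Γ)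
      (fun k p => (Function.update p.1 k (X k p.1 p.2),
        max (nx p.2) (r k (Function.update p.1 k (X k p.1 p.2))))) n
    have hst : ∀ k, st (k + 1) = (Function.update (st k).1 k (X k (st k).1 (st k).2),
        max (nx (st k).2) (r k (Function.update (st k).1 k (X k (st k).1 (st k).2)))) :=
      fun k => rfl
    let g : ℕ → Γ := fun n => (st n).2
    let w : ℕ → M := fun n => X n (st n).1 (st n).2
    have hg : ∀ n, 2 ^ b (g n) ≤ b (g (n + 1)) := fun n =>
      (hnx _).trans (hb (by simp only [g]; rw [hst]; exact le_max_left _ _))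
    have hw : ∀ k, trunc m0 k w = (st k).1 := by
      intro k
      induction k with
      | zero => funext i; simp [trunc, st]
      | succ k ih => rw [← update_trunc, ih, hst]
    refine hS2 g hg ⟨w, hw 0, fun k _ => ⟨?_, ?_⟩⟩
    · rw [hw]; exact hX k _ _ g hg rfl
    · rw [hw]
      simp only [g]
      rw [hst]
      exact le_max_right _ _
  · push Not at hall
    obtain ⟨g, hg, hW⟩ := hall
    refine ⟨g, hg, fun n s => ¬ Win g n s, hW, fun n s hs => ?_⟩
    by_contra hc
    apply hs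
    have hch : ∀ t : ℕ → M, ∃ S : ℕ → (ℕ → M) → Set M, (∀ k t, #(S k t) ≤ b (g k)) ∧
        (Win g (n + 1) t → ¬ ∃ w : ℕ → M, trunc m0 (n + 1) w = t ∧ ∀ k, n + 1 ≤ k →
          w k ∉ S k (trunc m0 k w) ∧ r k (trunc m0 (k + 1) w) ≤ g (k + 1)) := by
      intro t
      by_cases ht : Win g (n + 1) t
      · obtain ⟨S, h1, h2⟩ := ht
        exact ⟨S, h1, fun _ => h2⟩
      · exact ⟨fun _ _ => ∅, fun _ _ => by simp, fun h => absurd h ht⟩
    choose Sg hSg1 hSg2 using hch
    refine ⟨fun k t => if k = n then {ξ | r n (Function.update s n ξ) ≤ g (n + 1) ∧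
      ¬ Win g (n + 1) (Function.update s n ξ)} else Sg (trunc m0 (n + 1) t) k t, ?_, ?_⟩
    · intro k t
      by_cases hk : k = n
      · subst hk
        simp only [if_true]
        exact (not_le.1 hc).le
      · simp only [if_neg hk]
        exact hSg1 _ _ _
    · rintro ⟨w, hw, hpath⟩
      have h1 := hpath n le_rfl
      simp only [if_true, mem_setOf_eq] at h1
      rw [← hw, update_trunc] at h1
      have h2 : Win g (n + 1) (trunc m0 (n + 1) w) := by
        by_contra h3
        exact h1.1 ⟨h1.2, h3⟩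
      refine hSg2 _ h2 ⟨w, rfl, fun k hk => ?_⟩
      have h4 := hpath k (by omega)
      have hk' : k ≠ n := by omega
      simp only [if_neg hk'] at h4
      rw [trunc_trunc m0 hk] at h4
      exact h4

end Namba

end Pool.Agent.H23.Harz
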