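import Mathlib
import Pool.Agent.H23.Harz1

set_option autoImplicit false
set_option maxSynthPendingDepth 3

open Cardinal Set

namespace Pool.Agent.H23.Harz

/-- initial segments of a branch, as lists -/
def stem {I : ℕ → Type} (u : ∀ n, I n) : ℕ → List (Σ n, I n)
  | 0 => []
  | n + 1 => ⟨n, u n⟩ :: stem u n

/-- the limit value of a system along a branch -/
def lim {I : ℕ → Type} {N : Type} (ψ : ℕ × List (Σ n, I n) → Set N) (u : ∀ n, I n) : Set N :=
  ⋃ n, ψ (n, stem u n)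

lemma kill (c : ℕ → Cardinal.{0}) (hinf : ∀ n, ℵ₀ ≤ c n) (hc : ∀ n, 2 ^ c n ≤ c (n + 1))
    (N : Type) (hN : #N ≤ sum c) : ∃ h : Set N → Bool,
      ∀ (ψ : ℕ × List (Σ n, (c n).out) → Set N) (ε : N → ∀ n, (c n).out),
        Function.Injective (lim ψ) → ∀ β, ∃ u, u ∉ range ε ∧ h (lim ψ u) = β := by
  set l := sum c with hl
  have hl0 : ℵ₀ ≤ l := (hinf 0).trans (le_sum c 0)
  have hU1 : #(∀ n, (c n).out) ≤ 2 ^ l := by
    rw [mk_pi, hl, power_sum]
    exact prod_le_prod _ _ fun n => by rw [mk_out]; exact (cantor _).le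
  have hne : ∀ n, Nonempty (c n).out := fun n => by
    rw [← mk_ne_zero_iff, mk_out]; exact (aleph0_pos.trans_le (hinf n)).ne'
  have hU2 : 2 ^ l ≤ #(∀ n, (c n).out) := by
    have h1 : 2 ^ l ≤ #(∀ n, (c (n + 1)).out) := by
      rw [mk_pi, hl, power_sum]
      exact prod_le_prod _ _ fun n => by rw [mk_out]; exact hc n
    refine h1.trans (mk_le_of_surjective (f := fun (u : ∀ n, (c n).out) n => u (n + 1)) ?_)
    intro v
    exact ⟨fun n => Nat.casesOn n (Classical.choice (hne 0)) v, rfl⟩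
  have h2l : ℵ₀ ≤ 2 ^ l := hl0.trans (cantor _).le
  have hV : #(ℕ × List (Σ n, (c n).out)) ≤ l := by
    rw [mk_prod, lift_id, lift_id, mk_nat]
    have : #(List (Σ n, (c n).out)) ≤ l := by
      refine (mk_list_le_max _).trans (max_le hl0 ?_)
      rw [mk_sigma]
      simp only [mk_out]
      exact le_rfl
    exact (mul_le_mul' hl0 this).trans (mul_eq_self hl0).le
  have hpow : ((2 : Cardinal.{0}) ^ l) ^ l = (2 : Cardinal.{0}) ^ l := by rw [← power_mul, mul_eq_self hl0]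
  have hSN : #(Set N) ≤ 2 ^ l := by
    rw [mk_set]; exact power_le_power_left two_ne_zero hN
  let Sys := {p : (ℕ × List (Σ n, (c n).out) → Set N) × (N → ∀ n, (c n).out) //
    Function.Injective (lim p.1)}
  have hSys : #Sys ≤ 2 ^ l := by
    refine (mk_subtype_le _).trans ?_
    rw [mk_prod, lift_id, lift_id]
    have a1 : #(ℕ × List (Σ n, (c n).out) → Set N) ≤ 2 ^ l := by
      rw [← power_def, ← hpow]
      exact (power_le_power_right hSN).trans (power_le_power_left (aleph0_pos.trans_le h2l).ne' hV)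
    have a2 : #(N → ∀ n, (c n).out) ≤ 2 ^ l := by
      rw [← power_def, ← hpow]
      exact (power_le_power_right hU1).trans (power_le_power_left (aleph0_pos.trans_le h2l).ne' hN)
    exact (mul_le_mul' a1 a2).trans (mul_eq_self h2l).le
  obtain ⟨h, hh⟩ := bernstein (fun p : Sys => lim p.1.1 '' (range p.1.2)ᶜ) (2 ^ l) h2l hSys (by
    intro p
    rw [mk_image_eq p.2]
    haveI : Infinite (∀ n, (c n).out) := infinite_iff.2 (h2l.trans hU2)
    rw [mk_compl_of_infinite]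
    · exact hU2
    · exact (mk_range_le.trans hN).trans_lt ((cantor l).trans_le hU2))
  refine ⟨h, fun ψ ε hψ β => ?_⟩
  obtain ⟨x, ⟨u, hu, rfl⟩, hx⟩ := hh ⟨(ψ, ε), hψ⟩ β
  exact ⟨u, hu, hx⟩

section Core

variable {M : Type} [LinearOrder M] (m0 : M)

abbrev PP (M : Type) : Type := Lex (ℕ → M ×ₗ Bool)

def hiN (n : ℕ) (s : ℕ → M) : PP M :=
  toLex fun i => if i < n then toLex (s i, true) else toLex (m0, false)

def lo (k : ℕ) (t : ℕ → M) : PP M :=
  toLex fun i => if i < k then toLex (t i, true) else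
    if i = k then toLex (t k, false) else toLex (m0, false)

def zz (w : ℕ → M) : PP M := toLex fun i => toLex (w i, true)

lemma lo_lt_hi (k : ℕ) (t : ℕ → M) : lo m0 k t < hiN m0 (k + 1) t := by
  refine ⟨k, fun j hj => ?_, ?_⟩
  · have hj' : j < k := hj
    simp [lo, hiN, hj', hj'.le]
  · simp [lo, hiN, Prod.Lex.toLex_lt_toLex]

lemma hi_lt_z (h0 : ∀ m, m0 ≤ m) (n : ℕ) (w : ℕ → M) : hiN m0 n (trunc m0 n w) < zz w := by
  refine ⟨n, fun j hj => ?_, ?_⟩
  · simp [zz, hiN, hj, trunc]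
  · simp only [zz, hiN, lt_irrefl, if_false, Pi.toLex_apply, Prod.Lex.toLex_lt_toLex]
    rcases (h0 (w n)).lt_or_eq with h | h
    · exact Or.inl h
    · exact Or.inr ⟨h, by simp⟩

lemma z_lt_lo (k : ℕ) (w w' : ℕ → M) (h : ∀ j < k, w j = w' j) (hk : w k < w' k) :
    zz w < lo m0 k (trunc m0 (k + 1) w') := by
  refine ⟨k, fun j hj => ?_, ?_⟩
  · have hj' : j < k := hj
    simp [zz, lo, hj', trunc, hj'.le, h j hj']
  · simp [zz, lo, trunc, Prod.Lex.toLex_lt_toLex, hk]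

theorem core (h0 : ∀ m, m0 ≤ m) {Γ : Type} [LinearOrder Γ] [Nonempty Γ] (b : Γ → Cardinal.{0})
    (hb : Monotone b)
    (hinf : ∀ γ, ℵ₀ ≤ b γ) (hnx : ∀ γ, ∃ γ', 2 ^ b γ ≤ b γ') (hΓ : ∀ γ, #(ℕ → Γ) ≤ b γ)
    (hM : ∀ γ, b γ < #M) (ρ : M → Γ) (hρ : ∀ γ, #{m | ρ m ≤ γ} ≤ b γ) :
    ∃ c : Set M → ((ℕ → Γ) → Bool), ∀ f : PP M → Set M, (∀ x y, f x ≤ f y ↔ x ≤ y) →
      ∃ x y, c (f x) ≠ c (f y) := by
  classical
  let N : (ℕ → Γ) → Set M := fun g => ⋃ n, {m | ρ m ≤ g n}
  have hN : ∀ g, #(N g) ≤ sum fun n => b (g n) := fun g =>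
    mk_iUnion_le_sum_mk.trans (sum_le_sum _ _ fun n => hρ _)
  have hk : ∀ g : ℕ → Γ, ∃ h : Set (N g) → Bool, (∀ n, 2 ^ b (g n) ≤ b (g (n + 1))) →
      ∀ (ψ : ℕ × List (Σ n, (b (g n)).out) → Set (N g)) (ε : N g → ∀ n, (b (g n)).out),
        Function.Injective (lim ψ) → ∀ β, ∃ u, u ∉ range ε ∧ h (lim ψ u) = β := by
    intro g
    by_cases hg : ∀ n, 2 ^ b (g n) ≤ b (g (n + 1))
    · obtain ⟨h, hh⟩ := kill (fun n => b (g n)) (fun n => hinf _) hg (N g) (hN g)
      exact ⟨h, fun _ => hh⟩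
    · exact ⟨fun _ => true, fun h => absurd h hg⟩
  choose h hh using hk
  refine ⟨fun x g => h g (Subtype.val ⁻¹' x), fun f hf => ?_⟩
  have hmono : ∀ x y, x ≤ y → f x ⊆ f y := fun x y hxy => (hf x y).2 hxy
  have hmk : ∀ k (t : ℕ → M), ∃ m, m ∈ f (hiN m0 (k + 1) t) ∧ m ∉ f (lo m0 k t) := by
    intro k t
    by_contra hc
    push Not at hc
    exact absurd ((hf _ _).1 hc) (not_le.2 (lo_lt_hi m0 k t))
  choose mk hmk1 hmk2 using hmk
  obtain ⟨g, hg, Good, hG0, hG⟩ := namba m0 b hb hinf hnx hΓ hM (fun k t => ρ (mk k t))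
  have he : ∀ n (s : ℕ → M), ∃ e : (b (g n)).out → M, Good n s → Function.Injective e ∧
      ∀ j, ρ (mk n (Function.update s n (e j))) ≤ g (n + 1) ∧
        Good (n + 1) (Function.update s n (e j)) := by
    intro n s
    by_cases hs : Good n s
    · have := hG n s hs
      rw [← mk_out (b (g n))] at this
      obtain ⟨e⟩ := (Cardinal.le_def _ _).1 this
      exact ⟨fun j => (e j).1, fun _ => ⟨Subtype.val_injective.comp e.injective,
        fun j => (e j).2⟩⟩
    · exact ⟨fun _ => m0, fun h => absurd h hs⟩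
  choose e he using he
  let stL : List (Σ n, (b (g n)).out) → (ℕ → M) := fun l => List.rec (fun _ => m0)
    (fun p _ s => Function.update s p.1 (e p.1 s p.2)) l
  let st : (∀ n, (b (g n)).out) → ℕ → (ℕ → M) := fun u n => stL (stem u n)
  have hst : ∀ u n, st u (n + 1) = Function.update (st u n) n (e n (st u n) (u n)) :=
    fun u n => rfl
  let w : (∀ n, (b (g n)).out) → ℕ → M := fun u n => e n (st u n) (u n)
  have hw : ∀ u k, trunc m0 k (w u) = st u k := by
    intro u k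
    induction k with
    | zero => funext i; simp [trunc, st, stL, stem]
    | succ k ih => rw [← update_trunc, ih, hst]
  have hgood : ∀ u n, Good n (st u n) := by
    intro u n
    induction n with
    | zero => exact hG0
    | succ n ih => rw [hst]; exact ((he n _ ih).2 _).2
  have hmN : ∀ u k, mk k (st u (k + 1)) ∈ N g := fun u k =>
    mem_iUnion.2 ⟨k + 1, by rw [hst]; exact ((he k _ (hgood u k)).2 _).1⟩
  let ψ : ℕ × List (Σ n, (b (g n)).out) → Set (N g) :=
    fun p => Subtype.val ⁻¹' f (hiN m0 p.1 (stL p.2))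
  have hlim : ∀ u, lim ψ u ⊆ Subtype.val ⁻¹' f (zz (w u)) := by
    intro u m hm
    obtain ⟨n, hn⟩ := mem_iUnion.1 hm
    refine hmono _ _ (hi_lt_z m0 h0 n (w u)).le ?_
    rw [hw]; exact hn
  let R : (∀ n, (b (g n)).out) → (∀ n, (b (g n)).out) → Prop := fun u u' =>
    ∃ k, zz (w u) < lo m0 k (st u' (k + 1))
  have hcmp : ∀ u u', u ≠ u' → R u u' ∨ R u' u := by
    intro u u' hne
    have hex : ∃ k, u k ≠ u' k := by
      by_contra hc
      push Not at hc
      exact hne (funext hc)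
    let k := Nat.find hex
    have hk1 : u k ≠ u' k := Nat.find_spec hex
    have hk2 : ∀ j < k, u j = u' j := fun j hj => by
      have := Nat.find_min hex hj
      push Not at this
      exact this
    have hs : ∀ j ≤ k, st u j = st u' j := by
      intro j hj
      induction j with
      | zero => rfl
      | succ j ih => rw [hst, hst, ih (by omega), hk2 j (by omega)]
    have hwj : ∀ j < k, w u j = w u' j := fun j hj => by
      simp only [w]; rw [hs j hj.le, hk2 j hj]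
    have hwk : w u k ≠ w u' k := by
      simp only [w]; rw [hs k le_rfl]
      exact fun h => hk1 ((he k _ (hgood u' k)).1 h)
    rcases lt_or_gt_of_ne hwk with h | h
    · exact Or.inl ⟨k, by rw [← hw]; exact z_lt_lo m0 k _ _ hwj h⟩
    · exact Or.inr ⟨k, by rw [← hw]; exact z_lt_lo m0 k _ _ (fun j hj => (hwj j hj).symm) h⟩
  have hR1 : ∀ u u', R u u' → lim ψ u ≠ lim ψ u' := by
    rintro u u' ⟨k, hk⟩ heq
    have h1 : (⟨_, hmN u' k⟩ : N g) ∈ lim ψ u' := mem_iUnion.2 ⟨k + 1, hmk1 k _⟩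
    rw [← heq] at h1
    exact hmk2 k _ (hmono _ _ hk.le (hlim u h1))
  have hR2 : ∀ u u', R u u' → Subtype.val ⁻¹' f (zz (w u)) ⊆ lim ψ u' := by
    rintro u u' ⟨k, hk⟩ m hm
    exact mem_iUnion.2 ⟨k + 1, hmono _ _ (hk.trans (lo_lt_hi m0 k _)).le hm⟩
  have hinj : Function.Injective (lim ψ) := by
    intro u u' heq
    by_contra hne
    rcases hcmp u u' hne with h | h
    · exact hR1 _ _ h heq
    · exact hR1 _ _ h heq.symm
  have hne : Nonempty (∀ n, (b (g n)).out) := ⟨fun n => Classical.choice (by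
    rw [← mk_ne_zero_iff, mk_out]; exact (aleph0_pos.trans_le (hinf _)).ne')⟩
  let ε : N g → ∀ n, (b (g n)).out := fun m =>
    Classical.epsilon fun u => m ∈ Subtype.val ⁻¹' f (zz (w u)) ∧ m ∉ lim ψ u
  have hε : ∀ u, u ∉ range ε → Subtype.val ⁻¹' f (zz (w u)) = lim ψ u := by
    intro u hu
    refine Subset.antisymm (fun m hm => ?_) (hlim u)
    by_contra hc
    have h1 : m ∈ Subtype.val ⁻¹' f (zz (w (ε m))) ∧ m ∉ lim ψ (ε m) :=
      Classical.epsilon_spec (p := fun u => m ∈ Subtype.val ⁻¹' f (zz (w u)) ∧ m ∉ lim ψ u)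
        ⟨u, hm, hc⟩
    have h2 : u ≠ ε m := fun h => hu ⟨m, h.symm⟩
    rcases hcmp _ _ h2 with h | h
    · exact h1.2 (hR2 _ _ h hm)
    · exact hc (hR2 _ _ h h1.1)
  obtain ⟨u1, hu1, e1⟩ := hh g hg ψ ε hinj true
  obtain ⟨u2, hu2, e2⟩ := hh g hg ψ ε hinj false
  refine ⟨zz (w u1), zz (w u2), fun heq => ?_⟩
  have := congrFun heq g
  simp only at this
  rw [hε u1 hu1, hε u2 hu2, e1, e2] at this
  exact absurd this (by simp)

end Core

end Pool.Agent.H23.Harz
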