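import Mathlib

set_option autoImplicit false
set_option maxSynthPendingDepth 3

namespace Pool.Agent.H23.Hyperoval

variable {K : Type} [Field K] [CharZero K]

def Good (P : Finset (K × ℚ)) : Prop :=
  (∀ p ∈ P, ∀ q ∈ P, p ≠ q → p.1 ≠ q.1 ∧ p.2 ≠ q.2) ∧
  ∀ p ∈ P, ∀ q ∈ P, ∀ r ∈ P, p ≠ q → p ≠ r → q ≠ r →
    (q.1 - p.1) * ((r.2 : K) - p.2) ≠ (r.1 - p.1) * ((q.2 : K) - p.2)

lemma avoid (E : Finset (K × K)) (hE : ∀ e ∈ E, e.1 = 0 → e.2 ≠ 0) :
    ∃ f : ℚ, ∀ e ∈ E, e.1 * f + e.2 ≠ 0 := by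
  classical
  obtain ⟨z, ⟨f, rfl⟩, hz⟩ := (Set.infinite_range_of_injective
    (Rat.cast_injective (α := K))).exists_notMem_finset (E.image (fun e => -e.2 / e.1))
  refine ⟨f, fun e he h => ?_⟩
  by_cases h1 : e.1 = 0
  · rw [h1] at h
    exact hE e he h1 (by simpa using h)
  · apply hz
    refine Finset.mem_image.2 ⟨e, he, ?_⟩
    field_simp
    linear_combination -h

lemma extend (P : Finset (K × ℚ)) (hP : Good P) (a b : K)
    (h1 : ∀ p ∈ P, ∀ q ∈ P, p.1 = a + b * p.2 → q.1 = a + b * q.2 → p = q)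
    (h2 : b = 0 → ∀ p ∈ P, p.1 ≠ a) :
    ∃ (f : ℚ) (P' : Finset (K × ℚ)), Good P' ∧ P ⊆ P' ∧ (a + b * f, f) ∈ P' ∧
      ∀ p ∈ P, p.1 ≠ a + b * f := by
  classical
  obtain ⟨f, hf⟩ := avoid (P.image (fun p => ((1 : K), -(p.2 : K))) ∪
    P.image (fun p => (b, a - p.1)) ∪ (P.offDiag).image (fun pq =>
      ((pq.2.1 - pq.1.1) - b * ((pq.2.2 : K) - pq.1.2),
        -(pq.2.1 - pq.1.1) * pq.1.2 - (a - pq.1.1) * ((pq.2.2 : K) - pq.1.2)))) (by
    intro e he h
    simp only [Finset.mem_union, Finset.mem_image] at he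
    rcases he with (⟨p, hp, rfl⟩ | ⟨p, hp, rfl⟩) | ⟨⟨p, q⟩, hpq, rfl⟩
    · simp at h
    · exact sub_ne_zero.2 (h2 h p hp).symm
    · obtain ⟨hp, hq, hne⟩ := Finset.mem_offDiag.1 hpq
      simp only at h hp hq hne ⊢
      intro h'
      have h3 : ((q.2 : K) - p.2) ≠ 0 := sub_ne_zero.2
        (fun h => (hP.1 p hp q hq hne).2 (Rat.cast_injective h).symm)
      have h4 : p.1 = a + b * p.2 := by
        apply mul_left_cancel₀ h3
        linear_combination h' + (p.2 : K) * h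
      exact hne (h1 p hp q hq h4 (by linear_combination h + h4)))
  have f1 : ∀ p ∈ P, p.2 ≠ f := by
    intro p hp h
    apply hf (1, -(p.2 : K)) (by
      simp only [Finset.mem_union, Finset.mem_image]; exact Or.inl (Or.inl ⟨p, hp, rfl⟩))
    simp [h]
  have f2 : ∀ p ∈ P, p.1 ≠ a + b * f := by
    intro p hp h
    apply hf (b, a - p.1) (by
      simp only [Finset.mem_union, Finset.mem_image]; exact Or.inl (Or.inr ⟨p, hp, rfl⟩))
    simp only
    linear_combination -h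
  have f3 : ∀ p ∈ P, ∀ q ∈ P, p ≠ q →
      (q.1 - p.1) * ((f : K) - p.2) ≠ (a + b * f - p.1) * ((q.2 : K) - p.2) := by
    intro p hp q hq hne h
    apply hf _ (by
      simp only [Finset.mem_union, Finset.mem_image]
      exact Or.inr ⟨(p, q), Finset.mem_offDiag.2 ⟨hp, hq, hne⟩, rfl⟩)
    simp only
    linear_combination h
  refine ⟨f, insert (a + b * f, f) P, ⟨?_, ?_⟩, Finset.subset_insert _ _,
    Finset.mem_insert_self _ _, f2⟩
  · intro p hp q hq hne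
    rcases Finset.mem_insert.1 hp with rfl | hp' <;> rcases Finset.mem_insert.1 hq with rfl | hq'
    · exact absurd rfl hne
    · exact ⟨(f2 q hq').symm, (f1 q hq').symm⟩
    · exact ⟨f2 p hp', f1 p hp'⟩
    · exact hP.1 p hp' q hq' hne
  · intro p hp q hq r hr hpq hpr hqr
    rcases Finset.mem_insert.1 hp with rfl | hp' <;> rcases Finset.mem_insert.1 hq with rfl | hq' <;>
      rcases Finset.mem_insert.1 hr with rfl | hr'
    · exact absurd rfl hpq
    · exact absurd rfl hpq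
    · exact absurd rfl hpr
    · intro h
      apply f3 q hq' r hr' hqr
      simp only at h
      linear_combination h
    · exact absurd rfl hqr
    · intro h
      apply f3 p hp' r hr' hpr
      simp only at h
      linear_combination -h
    · exact f3 p hp' q hq' hpq
    · exact hP.2 p hp' q hq' r hr' hpq hpr hqr

def Done (P : Finset (K × ℚ)) (t : K × K) : Prop :=
  ∃ y : ℚ, (t.1, y) ∈ P ∧ (t.2 ≠ 0 → ∃ q ∈ P, q.1 ≠ t.1 ∧ (q.2 : K) - y = t.2 * (q.1 - t.1))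

lemma step (P : Finset (K × ℚ)) (hP : Good P) (t : K × K) :
    ∃ P' : Finset (K × ℚ), Good P' ∧ P ⊆ P' ∧ Done P' t := by
  obtain ⟨c, s⟩ := t
  obtain ⟨P1, hP1, hsub, y, hy⟩ : ∃ P1 : Finset (K × ℚ), Good P1 ∧ P ⊆ P1 ∧ ∃ y, (c, y) ∈ P1 := by
    by_cases h : ∃ y, (c, y) ∈ P
    · exact ⟨P, hP, Finset.Subset.refl _, h⟩
    · have h0 : ∀ p ∈ P, p.1 ≠ c := fun p hp hc => h ⟨p.2, hc ▸ hp⟩
      obtain ⟨f, P', h1, h2, h3, -⟩ := extend P hP c 0
        (fun p hp q _ h1 _ => absurd (by simpa using h1) (h0 p hp)) (fun _ => h0)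
      exact ⟨P', h1, h2, f, by simpa using h3⟩
  by_cases h : s ≠ 0 → ∃ q ∈ P1, q.1 ≠ c ∧ (q.2 : K) - y = s * (q.1 - c)
  · exact ⟨P1, hP1, hsub, y, hy, h⟩
  · push Not at h
    obtain ⟨hs, h⟩ := h
    have h0 : ∀ p ∈ P1, p.1 = (c - y / s) + s⁻¹ * p.2 → p = (c, y) := by
      intro p hp h1
      by_contra hne
      refine h p hp (hP1.1 p hp _ hy hne).1 ?_
      rw [h1]; field_simp; ring
    obtain ⟨f, P', h1, h2, h3, h4⟩ := extend P1 hP1 (c - y / s) s⁻¹
      (fun p hp q hq h1 h2 => (h0 p hp h1).trans (h0 q hq h2).symm)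
      (fun h => absurd h (inv_ne_zero hs))
    refine ⟨P', h1, hsub.trans h2, y, h2 hy, fun _ => ⟨_, h3, (h4 _ hy).symm, ?_⟩⟩
    simp only
    field_simp; ring

theorem exists_theta [Countable K] : ∃ θ : K → ℚ, Function.Injective θ ∧
    ∀ c s : K, s ≠ 0 → ∃! m, m ≠ c ∧ (θ m : K) - θ c = s * (m - c) := by
  obtain ⟨e, he⟩ := exists_surjective_nat (K × K)
  choose τ hτ using step (K := K)
  have h0 : Good (∅ : Finset (K × ℚ)) := ⟨by simp, by simp⟩
  let A : ℕ → {P : Finset (K × ℚ) // Good P} := fun n => Nat.rec ⟨∅, h0⟩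
    (fun k a => ⟨τ a.1 a.2 (e k), (hτ a.1 a.2 (e k)).1⟩) n
  have hmono : Monotone (fun n => (A n).1) :=
    monotone_nat_of_le_succ (fun n => (hτ (A n).1 (A n).2 (e n)).2.1)
  have hdone : ∀ t, ∃ n, Done (A n).1 t := by
    intro t
    obtain ⟨n, rfl⟩ := he t
    exact ⟨n + 1, (hτ (A n).1 (A n).2 (e n)).2.2⟩
  have h1 : ∀ c : K, ∃ (y : ℚ) (n : ℕ), (c, y) ∈ (A n).1 := by
    intro c
    obtain ⟨n, y, hy, -⟩ := hdone (c, 0)
    exact ⟨y, n, hy⟩
  choose θ N hθ using h1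
  have huniq : ∀ n, ∀ p ∈ (A n).1, p.2 = θ p.1 := by
    intro n p hp
    by_contra hne
    exact ((A (max n (N p.1))).2.1 p (hmono (le_max_left _ _) hp) _
      (hmono (le_max_right _ _) (hθ p.1)) (fun h => hne (congrArg Prod.snd h))).1 rfl
  refine ⟨θ, ?_, ?_⟩
  · intro m m' h
    by_contra hne
    exact ((A (max (N m) (N m'))).2.1 _ (hmono (le_max_left _ _) (hθ m)) _
      (hmono (le_max_right _ _) (hθ m')) (fun h => hne (congrArg Prod.fst h))).2 h
  · intro c s hs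
    obtain ⟨n, y, hy, h⟩ := hdone (c, s)
    obtain ⟨q, hq, hq1, hq2⟩ := h hs
    have hy' : y = θ c := huniq n _ hy
    rw [huniq n q hq, hy'] at hq2
    refine ⟨q.1, ⟨hq1, hq2⟩, ?_⟩
    rintro m ⟨hm1, hm2⟩
    by_contra hne
    have k := (A (max (N c) (max (N m) (N q.1)))).2.2 _ (hmono (le_max_left _ _) (hθ c)) _
      (hmono ((le_max_left _ _).trans (le_max_right _ _)) (hθ m)) _
      (hmono ((le_max_right _ _).trans (le_max_right _ _)) (hθ q.1))
      (fun h => hm1 (congrArg Prod.fst h).symm) (fun h => hq1 (congrArg Prod.fst h).symm)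
      (fun h => hne (congrArg Prod.fst h))
    apply k
    simp only at hq2 ⊢
    rw [hq2, hm2]; ring

end Pool.Agent.H23.Hyperoval
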