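import Mathlib

set_option autoImplicit false
set_option maxSynthPendingDepth 3

namespace Pool.Agent.H23.Iso

open Polynomial Filter Topology

lemma const_of_no_root (q : ℂ[X]) (h : ∀ x, q.eval x ≠ 0) : ∃ κ : ℂ, κ ≠ 0 ∧ q = C κ := by
  have h0 : q.degree = 0 := by
    by_contra hne
    obtain ⟨x, hx⟩ := IsAlgClosed.exists_root q hne
    exact h x hx
  refine ⟨q.coeff 0, ?_, eq_C_of_degree_eq_zero h0⟩
  have := h 0
  rwa [← coeff_zero_eq_eval_zero] at this

lemma one_var (q : ℂ[X]) (h : ∀ x, x ≠ 0 → x ≠ 1 → q.eval x ≠ 0) :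
    ∃ (κ : ℂ) (a e : ℕ), κ ≠ 0 ∧ ∀ x, q.eval x = κ * x ^ a * (x - 1) ^ e := by
  have hq : q ≠ 0 := by
    rintro rfl
    exact h 2 (by norm_num) (by norm_num) (by simp)
  obtain ⟨q1, h1, n1⟩ := exists_eq_pow_rootMultiplicity_mul_and_not_dvd q hq 0
  have hq1 : q1 ≠ 0 := by rintro rfl; simp at n1
  obtain ⟨q2, h2, n2⟩ := exists_eq_pow_rootMultiplicity_mul_and_not_dvd q1 hq1 1
  rw [dvd_iff_isRoot] at n1 n2
  obtain ⟨κ, hκ, hq2⟩ := const_of_no_root q2 (by
    intro x hx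
    by_cases hx0 : x = 0
    · subst hx0
      apply n1
      rw [h2]; simp [hx]
    · by_cases hx1 : x = 1
      · subst hx1; exact n2 hx
      · apply h x hx0 hx1
        rw [h1, h2]; simp [hx])
  refine ⟨κ, q.rootMultiplicity 0, q1.rootMultiplicity 1, hκ, fun x => ?_⟩
  conv_lhs => rw [h1, h2, hq2]
  simp; ring

lemma unit_form (A : ℂ[X][X]) (h : ∀ x y, x ≠ 0 → x ≠ 1 → y ≠ 0 → A.evalEval x y ≠ 0) :
    ∃ (κ : ℂ) (a e b : ℕ), κ ≠ 0 ∧ ∀ x y, A.evalEval x y = κ * x ^ a * (x - 1) ^ e * y ^ b := by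
  have hA : A ≠ 0 := by
    rintro rfl
    exact h 2 1 (by norm_num) (by norm_num) (by norm_num) (by simp)
  obtain ⟨B, h1, n1⟩ := exists_eq_pow_rootMultiplicity_mul_and_not_dvd A hA 0
  rw [dvd_iff_isRoot, IsRoot, ← coeff_zero_eq_eval_zero] at n1
  have hB : B ≠ 0 := by rintro rfl; simp at n1
  have hAB : ∀ x y, A.evalEval x y = y ^ A.rootMultiplicity 0 * B.evalEval x y := by
    intro x y
    conv_lhs => rw [h1]
    simp [evalEval_pow]
  have hdeg : B.natDegree = 0 := by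
    by_contra hne
    have hp : (X * (X - 1) * B.coeff 0 * B.leadingCoeff : ℂ[X]) ≠ 0 :=
      mul_ne_zero (mul_ne_zero (mul_ne_zero X_ne_zero (X_sub_C_ne_zero 1)) n1)
        (leadingCoeff_ne_zero.2 hB)
    obtain ⟨x, hx⟩ : ∃ x, (X * (X - 1) * B.coeff 0 * B.leadingCoeff : ℂ[X]).eval x ≠ 0 := by
      by_contra hc
      push Not at hc
      exact hp (Polynomial.funext (by simpa using hc))
    simp only [eval_mul, eval_X, eval_sub, eval_one, mul_ne_zero_iff] at hx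
    obtain ⟨⟨⟨hx0, hx1⟩, hc0⟩, hl⟩ := hx
    have hd : (B.map (evalRingHom x)).degree ≠ 0 := by
      rw [degree_map_eq_of_leadingCoeff_ne_zero _ (by simpa using hl)]
      intro h0
      exact hne (natDegree_eq_zero_iff_degree_le_zero.2 h0.le)
    obtain ⟨y, hy⟩ := IsAlgClosed.exists_root _ hd
    have hy0 : y ≠ 0 := by
      rintro rfl
      rw [IsRoot, ← coeff_zero_eq_eval_zero, coeff_map] at hy
      exact hc0 hy
    apply h x y hx0 (sub_ne_zero.1 hx1) hy0
    rw [hAB, ← map_evalRingHom_eval, hy.eq_zero, mul_zero]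
  have hBC := eq_C_of_natDegree_eq_zero hdeg
  obtain ⟨κ, a, e, hκ, hq⟩ := one_var (B.coeff 0) (by
    intro x hx0 hx1 hx
    apply h x 1 hx0 hx1 one_ne_zero
    rw [hAB, hBC, evalEval_C, hx, mul_zero])
  refine ⟨κ, a, e, A.rootMultiplicity 0, hκ, fun x y => ?_⟩
  rw [hAB, hBC, evalEval_C, hq]; ring

noncomputable def zf (c x y : ℂ) : ℂ := (c + x * y + (x - 1) * x * y ^ 2) / (x * y * (x - 1) ^ 2)

lemma clear (c : ℂ) (h : MvPolynomial (Fin 3) ℂ) :
    ∃ (N : ℕ) (A : ℂ[X][X]), ∀ x y, x ≠ 0 → x ≠ 1 → y ≠ 0 →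
      (x * y * (x - 1) ^ 2) ^ N * MvPolynomial.eval ![x, y, zf c x y] h = A.evalEval x y := by
  induction h using MvPolynomial.induction_on with
  | C a => exact ⟨0, C (C a), fun x y _ _ _ => by simp [evalEval_C]⟩
  | add p q hp hq =>
    obtain ⟨N, A, hA⟩ := hp
    obtain ⟨M, B, hB⟩ := hq
    refine ⟨N + M, (C X * X * (C X - 1) ^ 2) ^ M * A + (C X * X * (C X - 1) ^ 2) ^ N * B,
      fun x y h0 h1 h2 => ?_⟩
    simp only [evalEval_add, evalEval_mul, evalEval_pow, evalEval_sub, evalEval_C, evalEval_X,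
      evalEval_one, eval_X, ← hA x y h0 h1 h2, ← hB x y h0 h1 h2, map_add]
    ring
  | mul_X p i hp =>
    obtain ⟨N, A, hA⟩ := hp
    fin_cases i
    · refine ⟨N, A * C X, fun x y h0 h1 h2 => ?_⟩
      simp [evalEval_mul, evalEval_C, ← hA x y h0 h1 h2]; ring
    · refine ⟨N, A * X, fun x y h0 h1 h2 => ?_⟩
      simp [evalEval_mul, ← hA x y h0 h1 h2]; ring
    · refine ⟨N + 1, A * (C (C c) + C X * X + (C X - 1) * C X * X ^ 2), fun x y h0 h1 h2 => ?_⟩
      have h3 : x * y * (x - 1) ^ 2 ≠ 0 :=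
        mul_ne_zero (mul_ne_zero h0 h2) (pow_ne_zero _ (sub_ne_zero.2 h1))
      have h4 : (x * y * (x - 1) ^ 2) * zf c x y = c + x * y + (x - 1) * x * y ^ 2 :=
        mul_div_cancel₀ _ h3
      simp only [evalEval_add, evalEval_mul, evalEval_pow, evalEval_sub, evalEval_C, evalEval_X,
        evalEval_one, eval_X, eval_C, ← hA x y h0 h1 h2, ← h4, map_mul, MvPolynomial.eval_X]
      simp; ring

def pp (v : Fin 3 → ℂ) : ℂ := v 0 * v 1 * ((v 0 - 1) ^ 2 * v 2 - 1 - (v 0 - 1) * v 1)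

noncomputable def yy (c t u : ℂ) : ℂ := -c + u * (c * (1 - c) + t * u)
noncomputable def RR (c t u : ℂ) : ℂ :=
  t + (c * (1 - c) + t * u) + c ^ 2 +
    (1 + u) * (-2 * c * (c * (1 - c) + t * u) + u * (c * (1 - c) + t * u) ^ 2)
noncomputable def γ (c t u : ℂ) : Fin 3 → ℂ := ![1 + u, yy c t u, RR c t u / ((1 + u) * yy c t u)]

lemma γ_mem (c t u : ℂ) (h : (1 + u) * yy c t u ≠ 0) : pp (γ c t u) = c := by
  have h1 : (1 + u) * yy c t u * (RR c t u / ((1 + u) * yy c t u)) = RR c t u :=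
    mul_div_cancel₀ _ h
  have h2 : u ^ 2 * RR c t u = c + (1 + u) * yy c t u + u * (1 + u) * yy c t u ^ 2 := by
    unfold RR yy; ring
  simp only [pp, γ, Matrix.cons_val_zero, Matrix.cons_val_one, Matrix.cons_val]
  linear_combination u ^ 2 * h1 + h2

lemma open_part (c : ℂ) (v : Fin 3 → ℂ) (hv : pp v = c) (hc : c ≠ 0) (h1 : v 0 ≠ 1) :
    v 0 ≠ 0 ∧ v 1 ≠ 0 ∧ v = ![v 0, v 1, zf c (v 0) (v 1)] := by
  have h0 : v 0 ≠ 0 := by intro h; apply hc; rw [← hv, pp, h]; ring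
  have h2 : v 1 ≠ 0 := by intro h; apply hc; rw [← hv, pp, h]; ring
  refine ⟨h0, h2, ?_⟩
  have h3 : v 0 * v 1 * (v 0 - 1) ^ 2 ≠ 0 :=
    mul_ne_zero (mul_ne_zero h0 h2) (pow_ne_zero _ (sub_ne_zero.2 h1))
  have h4 : v 2 = zf c (v 0) (v 1) := by
    rw [zf, eq_div_iff h3, ← hv, pp]; ring
  funext i
  fin_cases i <;> simp [h4]

lemma zf_mem (c x y : ℂ) (h0 : x ≠ 0) (h1 : x ≠ 1) (h2 : y ≠ 0) : pp ![x, y, zf c x y] = c := by
  have h3 : x * y * (x - 1) ^ 2 ≠ 0 :=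
    mul_ne_zero (mul_ne_zero h0 h2) (pow_ne_zero _ (sub_ne_zero.2 h1))
  have h4 : (x * y * (x - 1) ^ 2) * zf c x y = c + x * y + (x - 1) * x * y ^ 2 :=
    mul_div_cancel₀ _ h3
  simp only [pp, Matrix.cons_val_zero, Matrix.cons_val_one, Matrix.cons_val]
  linear_combination h4

lemma yy_deriv (c t : ℂ) : HasDerivAt (yy c t) (c * (1 - c)) 0 := by
  have h1 : HasDerivAt (fun u : ℂ => c * (1 - c) + t * u) t 0 := by
    simpa using ((hasDerivAt_id (0 : ℂ)).const_mul t).const_add (c * (1 - c))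
  have h2 := ((hasDerivAt_id (0 : ℂ)).mul h1).const_add (-c)
  exact h2.congr_deriv (by simp)

lemma ev_ne (c t : ℂ) (hc : c ≠ 0) : ∀ᶠ u in 𝓝 (0 : ℂ), (1 + u) * yy c t u ≠ 0 := by
  have h : ContinuousAt (fun u => (1 + u) * yy c t u) 0 := by unfold yy; fun_prop
  exact h.eventually_ne (by simpa [yy] using hc)

lemma γ_diff (c t : ℂ) (hc : c ≠ 0) (h : MvPolynomial (Fin 3) ℂ) :
    DifferentiableAt ℂ (fun u => MvPolynomial.eval (γ c t u) h) 0 := by
  induction h using MvPolynomial.induction_on with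
  | C a => simp
  | add p q hp hq => simp only [map_add]; exact hp.add hq
  | mul_X p i hp =>
    simp only [map_mul, MvPolynomial.eval_X]
    refine hp.mul ?_
    fin_cases i
    · simp only [γ]; simp only [Fin.zero_eta, Matrix.cons_val_zero]; fun_prop
    · simpa [γ] using (yy_deriv c t).differentiableAt
    · simp only [γ]
      simp only [Fin.reduceFinMk, Matrix.cons_val]
      refine DifferentiableAt.div (by unfold RR; fun_prop) (by unfold yy; fun_prop)
        (by simpa [yy] using hc)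

lemma key (c : ℂ) (hc : c ≠ 0) (h : MvPolynomial (Fin 3) ℂ)
    (hh : ∀ v, pp v = c → MvPolynomial.eval v h ≠ 0) :
    ∃ (κ : ℂ) (α β : ℤ),
      (∀ t, MvPolynomial.eval (γ c t 0) h = κ ∧
        HasDerivAt (fun u => MvPolynomial.eval (γ c t u) h) (κ * (α + β * (c - 1))) 0) ∧
      (α = 0 → β = 0 → ∀ v, pp v = c → v 0 ≠ 1 → MvPolynomial.eval v h = κ) := by
  obtain ⟨N, A, hA⟩ := clear c h
  obtain ⟨κ, a, e, b, hκ, hf⟩ := unit_form A (by
    intro x y h0 h1 h2
    rw [← hA x y h0 h1 h2]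
    exact mul_ne_zero (pow_ne_zero _ (mul_ne_zero (mul_ne_zero h0 h2)
      (pow_ne_zero _ (sub_ne_zero.2 h1)))) (hh _ (zf_mem c x y h0 h1 h2)))
  have hid : ∀ v, pp v = c → v 0 ≠ 1 → (v 0 * v 1 * (v 0 - 1) ^ 2) ^ N * MvPolynomial.eval v h
      = κ * v 0 ^ a * (v 0 - 1) ^ e * v 1 ^ b := by
    intro v hv h1
    obtain ⟨h0, h2, h3⟩ := open_part c v hv hc h1
    rw [← hf, ← hA _ _ h0 h1 h2, ← h3]
  have hy0 : ∀ t, yy c t 0 = -c := fun t => by simp [yy]
  have hne0 : ∀ t, MvPolynomial.eval (γ c t 0) h ≠ 0 := fun t =>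
    hh _ (γ_mem c t 0 (by simpa [hy0] using hc))
  let L : ℂ → ℂ → ℂ := fun t u => ((1 + u) * yy c t u) ^ N * MvPolynomial.eval (γ c t u) h
  let R : ℂ → ℂ → ℂ := fun t u => κ * (1 + u) ^ a * yy c t u ^ b
  have hLc : ∀ t, ContinuousAt (L t) 0 := fun t =>
    ContinuousAt.mul (by unfold yy; fun_prop) (γ_diff c t hc h).continuousAt
  have hRc : ∀ t, ContinuousAt (R t) 0 := fun t => by simp only [R]; unfold yy; fun_prop
  have hev : ∀ t, ∀ᶠ u in 𝓝[≠] (0 : ℂ), u ≠ 0 ∧ u ^ (2 * N) * L t u = u ^ e * R t u := by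
    intro t
    filter_upwards [(ev_ne c t hc).filter_mono nhdsWithin_le_nhds, self_mem_nhdsWithin]
      with u hu hu0
    have hu0' : u ≠ 0 := hu0
    refine ⟨hu0', ?_⟩
    have := hid _ (γ_mem c t u hu) (by simpa [γ] using hu0')
    simp only [γ, Matrix.cons_val_zero, Matrix.cons_val_one, add_sub_cancel_left] at this
    simp only [L, R, γ]
    rw [mul_pow _ (u ^ 2), ← pow_mul] at this
    linear_combination this
  have lim : ∀ (F G : ℂ → ℂ), ContinuousAt F 0 → ContinuousAt G 0 →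
      (∀ᶠ u in 𝓝[≠] (0 : ℂ), F u = G u) → F 0 = G 0 := by
    intro F G hF hG hFG
    exact tendsto_nhds_unique_of_eventuallyEq (hF.tendsto.mono_left nhdsWithin_le_nhds)
      (hG.tendsto.mono_left nhdsWithin_le_nhds) hFG
  have hL0 : ∀ t, L t 0 ≠ 0 := fun t =>
    mul_ne_zero (pow_ne_zero _ (by simpa [hy0] using hc)) (hne0 t)
  have hR0 : ∀ t, R t 0 ≠ 0 := fun t =>
    mul_ne_zero (mul_ne_zero hκ (by simp)) (pow_ne_zero _ (by simpa [hy0] using hc))
  have he : e = 2 * N := by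
    rcases lt_trichotomy e (2 * N) with hlt | heq | hlt
    · obtain ⟨k, hk⟩ := Nat.exists_eq_add_of_lt hlt
      have := lim (fun u => u ^ (k + 1) * L 0 u) (R 0) (ContinuousAt.mul (by fun_prop) (hLc 0))
        (hRc 0) ((hev 0).mono (fun u hu => by
          apply mul_left_cancel₀ (pow_ne_zero e hu.1)
          rw [← hu.2, hk]; ring))
      exact absurd this.symm (by simpa using hR0 0)
    · exact heq
    · obtain ⟨k, hk⟩ := Nat.exists_eq_add_of_lt hlt
      have := lim (L 0) (fun u => u ^ (k + 1) * R 0 u) (hLc 0)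
        (ContinuousAt.mul (by fun_prop) (hRc 0)) ((hev 0).mono (fun u hu => by
          apply mul_left_cancel₀ (pow_ne_zero (2 * N) hu.1)
          rw [hu.2, hk]; ring))
      exact absurd this (by simpa using hL0 0)
  subst he
  have hLR : ∀ t, L t =ᶠ[𝓝 0] R t := by
    intro t
    have h1 : ∀ᶠ u in 𝓝[≠] (0 : ℂ), L t u = R t u :=
      (hev t).mono (fun u hu => mul_left_cancel₀ (pow_ne_zero _ hu.1) hu.2)
    have h2 := lim _ _ (hLc t) (hRc t) h1
    rw [eventually_nhdsWithin_iff] at h1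
    filter_upwards [h1] with u hu
    by_cases hu0 : u = 0
    · rw [hu0]; exact h2
    · exact hu hu0
  have hmc : (-c) ≠ 0 := neg_ne_zero.2 hc
  refine ⟨κ * (-c) ^ b / (-c) ^ N, (a : ℤ) - N, (b : ℤ) - N, fun t => ?_, fun h1 h2 v hv hv1 => ?_⟩
  · have hval : MvPolynomial.eval (γ c t 0) h = κ * (-c) ^ b / (-c) ^ N := by
      have := (hLR t).self_of_nhds
      simp only [L, R, hy0, add_zero, one_mul, one_pow, mul_one] at this
      rw [eq_div_iff (pow_ne_zero _ hmc), ← this]; ring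
    refine ⟨hval, ?_⟩
    have hd := (γ_diff c t hc h).hasDerivAt
    set D := deriv (fun u => MvPolynomial.eval (γ c t u) h) 0
    have h1 : HasDerivAt (fun u : ℂ => 1 + u) 1 0 := by
      simpa using (hasDerivAt_id (0 : ℂ)).const_add 1
    have hL := ((h1.mul (yy_deriv c t)).pow N).mul hd
    have hR := ((h1.pow a).const_mul κ).mul ((yy_deriv c t).pow b)
    have hLR' := (hL.congr_of_eventuallyEq (hLR t).symm).unique hR
    simp only [Pi.pow_apply, Pi.mul_apply, hy0, add_zero, one_mul, one_pow, mul_one, hval] at hLR'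
    have e1 : ∀ n : ℕ, (n : ℂ) * (-c) ^ (n - 1) * c = - n * (-c) ^ n := by
      intro n
      cases n with
      | zero => simp
      | succ n => simp [pow_succ]; ring
    have : D = κ * (-c) ^ b / (-c) ^ N * ((((a : ℤ) - N : ℤ) : ℂ) + (((b : ℤ) - N : ℤ) : ℂ) * (c - 1)) := by
      have hN := pow_ne_zero N hmc
      obtain ⟨w, hw⟩ : ∃ w, w = κ * (-c) ^ b / (-c) ^ N := ⟨_, rfl⟩
      have hw' : w * (-c) ^ N = κ * (-c) ^ b := by rw [hw]; exact div_mul_cancel₀ _ hN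
      rw [← hw] at hLR' ⊢
      apply mul_left_cancel₀ hN
      push_cast
      linear_combination hLR' + c * w * e1 N + κ * (1 - c) * e1 b + ((a : ℂ) + b * (c - 1)) * hw'.symm
    rw [← this]; exact hd
  · have ha : a = N := by omega
    have hb : b = N := by omega
    subst ha; subst hb
    obtain ⟨h0, h2', -⟩ := open_part c v hv hc hv1
    have := hid v hv hv1
    rw [mul_div_assoc, div_self (pow_ne_zero _ hmc), mul_one]
    apply mul_left_cancel₀ (pow_ne_zero b (mul_ne_zero (mul_ne_zero h0 h2')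
      (pow_ne_zero 2 (sub_ne_zero.2 hv1))))
    rw [this, mul_pow, mul_pow, ← pow_mul]; ring

end Pool.Agent.H23.Iso
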