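import Mathlib

set_option autoImplicit false
set_option maxSynthPendingDepth 3

namespace Pool.Agent.H23.Kerd
open Finset

def l (z : ZMod 2) : ZMod 4 := (z.val : ZMod 4)
def two : ZMod 2 →+ ZMod 4 := ⟨⟨fun z => 2 * l z, by decide⟩, by decide⟩
def re4 : ZMod 4 → ℤ := ![1, 0, -1, 0]
def im4 : ZMod 4 → ℤ := ![0, 1, 0, -1]
def EE (xi xj yi yj B : ZMod 2) : ZMod 4 :=
  l xi * l yj * l B - 2 * (l xi * l yi) * (l xj + l yj) * l B

lemma ptw : ∀ xi xj yi yj B : ZMod 2, l (xi + yi) * l (xj + yj) * l B =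
    l xi * l xj * l B + l yi * l yj * l B + two (xi * yj * B) +
      (EE xj xi yj yi B - EE xi xj yi yj B) := by decide

lemma re_sub : ∀ z w : ZMod 4, re4 (z - w) = re4 z * re4 w + im4 z * im4 w := by decide
lemma re_two : ∀ (z : ZMod 4) (w : ZMod 2), re4 (z + two w) = re4 z * re4 (two w) := by decide
lemma re_flip : ∀ w : ZMod 2, re4 (two (w + 1)) = - re4 (two w) := by decide

lemma sq_sum : ∀ (t : ℕ) (a b : ℤ), a ^ 2 + b ^ 2 = 2 ^ (2 * t + 1) → a = 2 ^ t ∨ a = -2 ^ t
  | 0, a, b, h => by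
    norm_num at h
    have h1 : a ≤ 1 := by nlinarith [sq_nonneg b]
    have h2 : -1 ≤ a := by nlinarith [sq_nonneg b]
    have h3 : b ≤ 1 := by nlinarith [sq_nonneg a]
    have h4 : -1 ≤ b := by nlinarith [sq_nonneg a]
    interval_cases a <;> interval_cases b <;> simp_all
  | t + 1, a, b, h => by
    rw [show 2 * (t + 1) + 1 = 2 * t + 1 + 2 by ring, pow_add] at h
    obtain ⟨a', ha | ha⟩ := Int.even_or_odd' a <;> obtain ⟨b', hb | hb⟩ := Int.even_or_odd' b <;>
      subst ha hb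
    · rcases sq_sum t a' b' (by linarith) with e | e
      · left; rw [e]; ring
      · right; rw [e]; ring
    all_goals
      exfalso
      generalize (2 : ℤ) ^ (2 * t + 1) = M at h
      ring_nf at h
      omega

variable {F : Type} [Field F] [Fintype F] [Algebra (ZMod 2) F] (τ : F →ₗ[ZMod 2] ZMod 2)

lemma exists_q (a : F) : ∃ q : F → ZMod 4, q 0 = 0 ∧
    ∀ x y, q (x + y) = q x + q y + two (τ (a * x * y)) := by
  let b := Module.finBasis (ZMod 2) F
  refine ⟨fun x => ∑ i, ∑ j, l (b.repr x i) * l (b.repr x j) * l (τ (a * b i * b j)),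
    by simp [l], fun x y => ?_⟩
  have h1 : τ (a * x * y) = ∑ i, ∑ j, b.repr x i * b.repr y j * τ (a * b i * b j) := by
    conv_lhs => rw [← b.sum_repr x, ← b.sum_repr y]
    simp only [mul_sum, sum_mul, map_sum, mul_smul_comm, smul_mul_assoc, map_smul, smul_eq_mul]
    rw [sum_comm]
    exact sum_congr rfl fun i _ => sum_congr rfl fun j _ => by ring
  have h2 : ∑ i, ∑ j, EE (b.repr x j) (b.repr x i) (b.repr y j) (b.repr y i) (τ (a * b i * b j)) =
      ∑ i, ∑ j, EE (b.repr x i) (b.repr x j) (b.repr y i) (b.repr y j) (τ (a * b i * b j)) := by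
    rw [sum_comm]
    exact sum_congr rfl fun i _ => sum_congr rfl fun j _ => by rw [mul_right_comm]
  simp only [map_add, Finsupp.add_apply, ptw, sum_add_distrib, sum_sub_distrib, h1, map_sum, h2,
    sub_self, add_zero]

variable {τ} {z0 : F} (hz : τ z0 = 1)
include hz

lemma sum_zero {c : F} (hc : c ≠ 0) : ∑ y, re4 (two (τ (c * y))) = 0 := by
  have h := Equiv.sum_comp (Equiv.addRight (c⁻¹ * z0)) fun y => re4 (two (τ (c * y)))
  simp only [Equiv.coe_addRight, mul_add, mul_inv_cancel_left₀ hc, map_add τ, hz, re_flip,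
    sum_neg_distrib] at h
  linarith

lemma gauss {ψ : F → ZMod 4} {e : F} (he : e ≠ 0) (h0 : ψ 0 = 0)
    (h : ∀ x y, ψ (x + y) = ψ x + ψ y + two (τ (e * x * y))) :
    (∑ x, re4 (ψ x)) ^ 2 + (∑ x, im4 (ψ x)) ^ 2 = Fintype.card F := by
  classical
  have h1 : (∑ x, re4 (ψ x)) ^ 2 + (∑ x, im4 (ψ x)) ^ 2 = ∑ y, ∑ x, re4 (ψ x - ψ y) := by
    simp only [re_sub, sum_add_distrib, sq, sum_mul_sum]
    rw [sum_comm, sum_comm (f := fun x y => im4 (ψ x) * im4 (ψ y))]
  have h2 : ∀ y, ∑ x, re4 (ψ x - ψ y) = ∑ x, re4 (ψ x) * re4 (two (τ (e * x * y))) := by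
    intro y
    rw [← Equiv.sum_comp (Equiv.addRight y)]
    refine sum_congr rfl fun x _ => ?_
    rw [Equiv.coe_addRight, h, ← re_two]; congr 1; ring
  rw [h1, sum_congr rfl fun y _ => h2 y, sum_comm]
  simp only [← mul_sum]
  rw [sum_eq_single 0]
  · simp [h0, re4]
  · intro x _ hx
    rw [sum_zero hz (mul_ne_zero he hx), mul_zero]
  · simp

omit hz in
theorem kerd (r : ℕ) : ∃ (I J : Type) (_ : Fintype I) (_ : Fintype J) (w : I → J → ℤ),
    Fintype.card I = 2 ^ (4 * r + 1) * 2 ^ (4 * r + 1) ∧ Fintype.card J = 2 ^ (4 * r + 1) * 3 ∧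
    (∀ p, ∑ k, w p k * w p k = 2 ^ (4 * r + 1) + 2 ^ (2 * r)) ∧
    ∀ p p', p ≠ p' → ∑ k, w p k * w p' k = 2 ^ (2 * r) ∨ ∑ k, w p k * w p' k = -2 ^ (2 * r) := by
  classical
  let F := GaloisField 2 (4 * r + 1)
  let _ : Fintype F := Fintype.ofFinite F
  have hc : Fintype.card F = 2 ^ (4 * r + 1) := by
    rw [← Nat.card_eq_fintype_card]; exact GaloisField.card 2 _ (by omega)
  obtain ⟨τ, hz⟩ := Module.Projective.exists_dual_eq_one (ZMod 2) (one_ne_zero (α := F))
  choose q q0 hq using exists_q τ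
  let P : F × F → F → ZMod 4 := fun p x => q p.1 x + two (τ (p.2 * x))
  let w : F × F → F × Fin 3 → ℤ := fun p k =>
    ![re4 (P p k.1), im4 (P p k.1), if k.1 = p.1 then 2 ^ r else 0] k.2
  have ip : ∀ p p', ∑ k, w p k * w p' k =
      ∑ x, re4 (P p x - P p' x) + if p.1 = p'.1 then 2 ^ (2 * r) else 0 := by
    intro p p'
    rw [Fintype.sum_prod_type]
    simp only [Fin.sum_univ_three, w, sum_add_distrib, re_sub]
    congr 1
    simp only [Matrix.cons_val, ite_mul, zero_mul, sum_ite_eq', mem_univ, if_true]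
    split_ifs
    · ring
    · simp
  refine ⟨F × F, F × Fin 3, inferInstance, inferInstance, w, by simp [hc], by simp [hc],
    fun p => ?_, fun p p' hp => ?_⟩
  · rw [ip]; simp [re4, hc]
  · rw [ip]
    by_cases e : p.1 = p'.1
    · left
      have h2 : p.2 - p'.2 ≠ 0 := sub_ne_zero.2 fun h => hp (Prod.ext e h)
      rw [if_pos e, add_eq_right, ← sum_zero hz h2]
      refine sum_congr rfl fun x _ => ?_
      simp only [P, e, sub_mul, map_sub]; congr 1; ring
    · rw [if_neg e, add_zero]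
      refine sq_sum (2 * r) _ (∑ x, im4 (P p x - P p' x)) ?_
      rw [gauss hz (e := p.1 - p'.1) (sub_ne_zero.2 e) (by simp [P, q0]), hc]
      · push_cast; congr 1; ring
      · intro x y
        simp only [P, hq, mul_add, sub_mul, map_add, map_sub]; ring

end Pool.Agent.H23.Kerd
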