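import Mathlib

set_option autoImplicit false
set_option maxSynthPendingDepth 3

/-! Golod–Shafarevich: an infinite-dimensional cyclic nil module over a countable field. -/

namespace Pool.Agent.H23.Nil

open Module

variable (F : Type) [Field F]

abbrev T := FreeAlgebra F (Fin 3)

noncomputable def ep : T F →ₐ[F] F := FreeAlgebra.lift F fun _ => 0

noncomputable def ph : T F →ₐ[F] End F (T F × (Fin 3 → T F)) :=
  FreeAlgebra.lift F fun i => ((LinearMap.mulLeft F (FreeAlgebra.ι F i)).prod
    (LinearMap.single F (fun _ => T F) i)) ∘ₗ LinearMap.fst F _ _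

noncomputable def D : T F →ₗ[F] (Fin 3 → T F) :=
  LinearMap.snd F _ _ ∘ₗ LinearMap.applyₗ (1, 0) ∘ₗ (ph F).toLinearMap

variable {F}

lemma D_def (f : T F) : D F f = (ph F f (1, 0)).2 := rfl

lemma ph_apply (f : T F) : ∀ a v, ph F f (a, v) = (f * a, ep F f • v + fun i => D F f i * a) := by
  induction f using FreeAlgebra.induction with
  | grade0 r =>
    intro a v
    simp only [D_def, AlgHom.commutes, algebraMap_end_apply]
    ext i <;> simp [Algebra.smul_def]
  | grade1 j =>
    intro a v
    ext i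
    · simp [ph]
    · by_cases h : i = j <;> simp [ph, ep, D_def, h]
  | mul f g hf hg =>
    intro a v
    rw [D_def, map_mul, End.mul_apply, End.mul_apply, hg, hg, hf, hf]
    ext i
    · simp [mul_assoc]
    · simp [add_mul, mul_assoc, mul_smul, add_assoc]
  | add f g hf hg =>
    intro a v
    rw [map_add, LinearMap.add_apply, hf, hg, map_add, map_add]
    ext i
    · simp [add_mul]
    · simp only [Prod.snd_add, Pi.add_apply, add_smul, add_mul]; abel

lemma D_mul (f g : T F) : D F (f * g) = ep F f • D F g + fun i => D F f i * g := by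
  rw [D_def, map_mul, End.mul_apply, ph_apply g, ph_apply f]
  simp

lemma D_surj : Function.Surjective (D F) := fun c => by
  refine ⟨∑ j, FreeAlgebra.ι F j * c j, funext fun i => ?_⟩
  have h : ∀ j, D F (FreeAlgebra.ι F j) = Pi.single j 1 := fun j => by simp [D_def, ph]
  simp [map_sum, D_mul, h, ep, Pi.single_apply]

variable (F) in
noncomputable def P : ℕ → Submodule F (T F)
  | 0 => ⊤
  | m + 1 => LinearMap.ker (ep F).toLinearMap ⊓ (Submodule.pi Set.univ fun _ => P m).comap (D F)

lemma mem_P {m : ℕ} {f : T F} : f ∈ P F (m + 1) ↔ ep F f = 0 ∧ ∀ i, D F f i ∈ P F m := by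
  simp [P, Submodule.mem_pi]

lemma P_anti : Antitone (P F) := antitone_nat_of_succ_le fun m => by
  induction m with
  | zero => exact le_top
  | succ m ih => exact fun f hf => mem_P.2 ⟨(mem_P.1 hf).1, fun i => ih ((mem_P.1 hf).2 i)⟩

lemma P_left (b : ℕ) : ∀ f g : T F, g ∈ P F b → f * g ∈ P F b := by
  induction b with
  | zero => exact fun _ _ _ => Submodule.mem_top
  | succ b ih =>
    intro f g hg
    refine mem_P.2 ⟨by rw [map_mul, (mem_P.1 hg).1, mul_zero], fun i => ?_⟩
    rw [D_mul]
    exact add_mem (Submodule.smul_mem _ _ ((mem_P.1 hg).2 i)) (ih _ _ (P_anti b.le_succ hg))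

lemma P_mul (a b : ℕ) : ∀ f g : T F, f ∈ P F a → g ∈ P F b → f * g ∈ P F (b + a) := by
  induction a with
  | zero => exact fun f g _ hg => P_left b f g hg
  | succ a ih =>
    intro f g hf hg
    refine mem_P.2 ⟨by rw [map_mul, (mem_P.1 hf).1, zero_mul], fun i => ?_⟩
    rw [D_mul, (mem_P.1 hf).1, zero_smul, zero_add]
    exact ih _ _ ((mem_P.1 hf).2 i) hg

lemma P_pow {f : T F} (hf : ep F f = 0) (n : ℕ) : f ^ n ∈ P F n := by
  induction n with
  | zero => exact Submodule.mem_top
  | succ n ih =>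
    rw [pow_succ']
    exact P_mul 1 n _ _ (mem_P.2 ⟨hf, fun _ => Submodule.mem_top⟩) ih

theorem gs (r : ℕ → T F) (hr : ∀ j, r j ∈ P F (j + 2)) :
    ¬ Module.Finite F (T F ⧸ Ideal.span {u | ∃ j b, u = r j * b}) := by
  intro hfin
  set I := Ideal.span {u | ∃ j b, u = r j * b} with hI
  let K : ℕ → Submodule F (T F) := fun m => I.restrictScalars F ⊔ P F m
  have hs : ∀ m, Function.Surjective (Submodule.factor (show I.restrictScalars F ≤ K m from
    le_sup_left)) := fun m => Submodule.factor_surjective _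
  have hfin' : Module.Finite F (T F ⧸ I.restrictScalars F) :=
    Module.Finite.equiv (Submodule.Quotient.restrictScalarsEquiv F I).symm
  have hf : ∀ m, Module.Finite F (T F ⧸ K m) := fun m => Module.Finite.of_surjective _ (hs m)
  let c : ℕ → ℕ := fun m => finrank F (T F ⧸ K m)
  have hb : ∀ m, c m ≤ finrank F (T F ⧸ I.restrictScalars F) := fun m =>
    LinearMap.finrank_le_finrank_of_surjective (hs m)
  choose s hs' using fun m => (K m).mkQ.exists_rightInverse_of_surjective (Submodule.range_mkQ _)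
  have hd : ∀ m f, f - s m ((K m).mkQ f) ∈ K m := fun m f => by
    rw [← Submodule.Quotient.eq]
    exact (LinearMap.congr_fun (hs' m) ((K m).mkQ f)).symm
  have hr0 : ∀ j, ep F (r j) = 0 := fun j => (mem_P.1 (hr j)).1
  have step : ∀ m, 3 * c m ≤ c (m + 1) + ∑ i ∈ Finset.range m, c i := by
    intro m
    let q : (Fin 3 → T F) →ₗ[F] (Fin 3 → T F ⧸ K m) := (K m).mkQ.compLeft (Fin 3)
    let Φ : ((T F ⧸ K (m + 1)) × ∀ j : Fin m, T F ⧸ K (m - 1 - j)) →ₗ[F] (Fin 3 → T F ⧸ K m) :=
      q ∘ₗ ((D F ∘ₗ s (m + 1)).coprod (∑ j : Fin m, (LinearMap.pi fun i =>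
        LinearMap.mulLeft F (D F (r j) i)) ∘ₗ s _ ∘ₗ LinearMap.proj j))
    let N := (LinearMap.range Φ).comap q
    have h1 : ∀ v : Fin 3 → T F, (∀ i, v i ∈ K m) → v ∈ N := fun v hv =>
      ⟨0, funext fun i => by
        simpa [q] using ((Submodule.Quotient.mk_eq_zero _).2 (hv i)).symm⟩
    have h2 : ∀ j b, (fun i => D F (r j) i * b) ∈ N := by
      intro j b
      have h3 := (mem_P.1 (hr j)).2
      by_cases hj : j < m
      · have h4 : (fun i => D F (r j) i * s _ ((K (m - 1 - j)).mkQ b)) ∈ N := by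
          refine ⟨(0, Pi.single ⟨j, hj⟩ ((K (m - 1 - j)).mkQ b)), congrArg q ?_⟩
          rw [LinearMap.coprod_apply, map_zero, zero_add, LinearMap.sum_apply,
            Finset.sum_eq_single ⟨j, hj⟩ (fun k _ hk => by simp [Pi.single_eq_of_ne hk]) (by simp)]
          ext i
          simp
        obtain ⟨u, hu, p, hp, h5⟩ := Submodule.mem_sup.1 (hd (m - 1 - j) b)
        have h6 := add_mem h4 (h1 (fun i => D F (r j) i * u + D F (r j) i * p) fun i =>
          Submodule.add_mem_sup (I.mul_mem_left _ hu) (P_anti (by omega) (P_mul _ _ _ _ (h3 i) hp)))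
        refine Eq.mp (congrArg (· ∈ N) (funext fun i => ?_)) h6
        rw [Pi.add_apply, ← mul_add, ← mul_add, h5, add_sub_cancel]
      · exact h1 _ fun i => Submodule.mem_sup_right (P_anti (by omega)
          (P_mul _ 0 _ _ (h3 i) Submodule.mem_top))
    have h3 : ∀ k ∈ I, D F k ∈ N := by
      intro k hk
      induction hk using Submodule.span_induction with
      | mem x hx =>
        obtain ⟨j, b, rfl⟩ := hx
        rw [D_mul, hr0, zero_smul, zero_add]
        exact h2 j b
      | zero => simp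
      | add x y _ _ hx hy => rw [map_add]; exact add_mem hx hy
      | smul a x hx ih =>
        rw [smul_eq_mul, D_mul]
        exact add_mem (N.smul_mem _ ih) (h1 _ fun i => Submodule.mem_sup_left (I.mul_mem_left _ hx))
    have h4 : Function.Surjective Φ := by
      intro w
      choose v hv using fun i => (K m).mkQ_surjective (w i)
      obtain ⟨f, hf⟩ := D_surj v
      obtain ⟨u, hu, p, hp, h5⟩ := Submodule.mem_sup.1 (hd (m + 1) f)
      have h6 : D F (s _ ((K (m + 1)).mkQ f)) ∈ N := ⟨((K (m + 1)).mkQ f, 0), by simp [Φ]⟩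
      have h7 := add_mem h6 (add_mem (h3 u hu)
        (h1 _ fun i => Submodule.mem_sup_right ((mem_P.1 hp).2 i)))
      rw [← map_add, ← map_add, h5, add_sub_cancel, hf] at h7
      exact (funext hv : q v = w) ▸ h7
    have h5 := LinearMap.finrank_le_finrank_of_surjective h4
    rw [finrank_prod, finrank_pi_fintype, finrank_pi_fintype, Finset.sum_const, Finset.card_univ,
      Fintype.card_fin, Fin.sum_univ_eq_sum_range (fun j => c (m - 1 - j)),
      Finset.sum_range_reflect] at h5
    exact h5
  have h1 : ∀ m, ∑ i ∈ Finset.range m, c i ≤ c m := by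
    intro m
    induction m with
    | zero => simp
    | succ m ih => have := step m; rw [Finset.sum_range_succ]; omega
  have h2 : ∀ m, m + 1 ≤ c (m + 1) := by
    intro m
    induction m with
    | zero =>
      have : K 1 ≤ LinearMap.ker (ep F).toLinearMap := by
        refine sup_le (fun k hk => ?_) inf_le_left
        refine (Ideal.span_le (I := RingHom.ker (ep F))).2 ?_ hk
        rintro _ ⟨j, b, rfl⟩
        simp [hr0]
      have : Nontrivial (T F ⧸ K 1) := Submodule.Quotient.nontrivial_iff.2 fun h => by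
        simpa using this (h ▸ Submodule.mem_top : (1 : T F) ∈ K 1)
      exact finrank_pos
    | succ m ih => have := step (m + 1); have := h1 (m + 1); omega
  have := h2 (finrank F (T F ⧸ I.restrictScalars F))
  have := hb (finrank F (T F ⧸ I.restrictScalars F) + 1)
  omega

theorem nil_module [Countable F] : ∃ (I : Ideal (T F)), ¬ Module.Finite F (T F ⧸ I) ∧
    ∀ f, ep F f = 0 → IsNilpotent (Algebra.lsmul F F (T F ⧸ I) f) := by
  have : Countable (T F) := Cardinal.mk_le_aleph0_iff.1
    ((FreeAlgebra.cardinalMk_le_max F (Fin 3)).trans (by simp))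
  have : Nonempty {f : T F // ep F f = 0} := ⟨⟨0, map_zero _⟩⟩
  obtain ⟨f, hf⟩ := exists_surjective_nat {f : T F // ep F f = 0}
  refine ⟨_, gs (fun j => (f j).1 ^ (j + 2)) (fun j => P_pow (f j).2 _), fun g hg => ?_⟩
  obtain ⟨j, hj⟩ := hf ⟨g, hg⟩
  refine ⟨j + 2, LinearMap.ext fun m => ?_⟩
  obtain ⟨b, rfl⟩ := Submodule.Quotient.mk_surjective _ m
  rw [← map_pow]
  exact (Submodule.Quotient.mk_eq_zero _).2 (Ideal.subset_span ⟨j, b, by rw [hj]; rfl⟩)

open Polynomial in
lemma nil_of_range {C W : Type*} [CommRing C] [AddCommGroup W] [Module C W] (y : End C W)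
    (Q : Submodule C W) (hQ : Q.FG) (h : LinearMap.range y ≤ nilradical C • Q) : IsNilpotent y := by
  have : Module.Finite C Q := Module.Finite.iff_fg.2 hQ
  have h1 : ∀ w, y w ∈ Q := fun w => Submodule.smul_le_right (h ⟨w, rfl⟩)
  let y' : End C Q := y.restrict fun w _ => h1 w
  obtain ⟨p, p1, -, p2, p3⟩ := LinearMap.exists_monic_and_natDegree_eq_and_coeff_mem_pow_and_aeval_eq_zero
    C y' (nilradical C) (by
      rintro _ ⟨w, rfl⟩
      exact (Submodule.mem_smul_top_iff _ _ _).2 (h ⟨w, rfl⟩))
  have h2 : IsNilpotent (X ^ p.natDegree - p) := Polynomial.isNilpotent_iff.2 fun k => by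
    rcases lt_trichotomy k p.natDegree with hk | rfl | hk
    · rw [coeff_sub, coeff_X_pow, if_neg hk.ne, zero_sub]
      exact IsNilpotent.neg (Ideal.pow_le_self (by omega) (p2 k))
    · simp [p1]
    · simp [coeff_X_pow, hk.ne', coeff_eq_zero_of_natDegree_lt hk]
  have h3 := h2.map (aeval y')
  rw [map_sub, p3, sub_zero, map_pow, aeval_X] at h3
  obtain ⟨n, hn⟩ := h3.of_pow
  refine ⟨n + 1, LinearMap.ext fun w => ?_⟩
  have h4 := congrArg Subtype.val (LinearMap.congr_fun hn ⟨y w, h1 w⟩)
  rw [Module.End.pow_restrict] at h4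
  exact h4

end Pool.Agent.H23.Nil
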