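import Mathlib

set_option autoImplicit false
set_option maxSynthPendingDepth 3

namespace Pool.Agent.H23.Null

open Filter Topology Real

lemma dep_choice {σ : Type*} (I : ℕ → σ → Prop) (R : ℕ → σ → σ → Prop) (s0 : σ) (h0 : I 0 s0)
    (hstep : ∀ r s, I r s → ∃ s', I (r + 1) s' ∧ R r s s') :
    ∃ f : ℕ → σ, f 0 = s0 ∧ ∀ r, I r (f r) ∧ R r (f r) (f (r + 1)) := by
  choose g hg using hstep
  let F : (r : ℕ) → {s // I r s} := fun r =>
    Nat.rec (motive := fun r => {s // I r s}) ⟨s0, h0⟩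
      (fun r s => ⟨g r s.1 s.2, (hg r s.1 s.2).1⟩) r
  exact ⟨fun r => (F r).1, rfl, fun r => ⟨(F r).2, (hg r (F r).1 (F r).2).2⟩⟩

lemma point_step (S : ℝ → ℝ) (L : ℝ) (hL : 0 ≤ L) (hS : ∀ x y, |S x - S y| ≤ L * |x - y|)
    (p v a : ℝ) (n : ℕ) (hn : 0 < n) (h : |v - S p| + L * (10 / n) ≤ |a|) :
    ∃ q, S q + a * cos (n * q) = v ∧ |q - p| ≤ 10 / n := by
  have hn' : (0 : ℝ) < n := by exact_mod_cast hn
  have hpi := pi_pos
  have hpi3 : π < 3.15 := pi_lt_d2
  have hcont : Continuous S := by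
    have : LipschitzWith (Real.toNNReal L) S := by
      refine LipschitzWith.of_dist_le_mul fun x y => ?_
      rw [Real.dist_eq, Real.dist_eq, Real.coe_toNNReal _ hL]; exact hS x y
    exact this.continuous
  set k : ℤ := ⌈n * p / (2 * π)⌉ with hk
  set x1 : ℝ := k * (2 * π) / n with hx1
  set x2 : ℝ := x1 + π / n with hx2
  have hk1 : n * p ≤ k * (2 * π) := by
    have := Int.le_ceil (n * p / (2 * π))
    rwa [div_le_iff₀ (by positivity)] at this
  have hk2 : k * (2 * π) ≤ n * p + 2 * π := by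
    have := (Int.ceil_lt_add_one (n * p / (2 * π))).le
    have h2 : (k : ℝ) * (2 * π) ≤ (n * p / (2 * π) + 1) * (2 * π) := by gcongr
    have h3 : (n * p / (2 * π) + 1) * (2 * π) = n * p + 2 * π := by field_simp
    linarith
  have h1 : p ≤ x1 := by rw [hx1, le_div_iff₀ hn']; linarith
  have h12 : x1 ≤ x2 := by rw [hx2]; have : 0 ≤ π / n := by positivity
                           linarith
  have h2 : x2 ≤ p + 10 / n := by
    have : x2 = (k * (2 * π) + π) / n := by rw [hx2, hx1]; ring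
    rw [this, div_le_iff₀ hn']
    have : (p + 10 / n) * n = n * p + 10 := by field_simp
    linarith
  have c1 : cos (n * x1) = 1 := by
    have : n * x1 = k * (2 * π) := by rw [hx1]; field_simp
    rw [this, cos_int_mul_two_pi]
  have c2 : cos (n * x2) = -1 := by
    have : n * x2 = k * (2 * π) + π := by rw [hx2, hx1]; field_simp
    rw [this, cos_int_mul_two_pi_add_pi]
  have hb : ∀ x, p ≤ x → x ≤ p + 10 / n → |S x - S p| ≤ L * (10 / n) := by
    intro x hx hx'
    refine (hS x p).trans ?_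
    gcongr
    rw [abs_of_nonneg (by linarith)]; linarith
  have b1 := abs_le.1 (hb x1 h1 (h12.trans h2))
  have b2 := abs_le.1 (hb x2 (h1.trans h12) h2)
  have hg : ContinuousOn (fun x => S x + a * cos (n * x)) (Set.uIcc x1 x2) := by fun_prop
  have hv : v ∈ Set.uIcc (S x1 + a * cos (n * x1)) (S x2 + a * cos (n * x2)) := by
    rw [c1, c2, Set.mem_uIcc]
    have := le_abs_self (v - S p)
    have := neg_abs_le (v - S p)
    rcases le_total 0 a with ha | ha
    · rw [abs_of_nonneg ha] at h; right; constructor <;> linarith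
    · rw [abs_of_nonpos ha] at h; left; constructor <;> linarith
  obtain ⟨q, hq, hq'⟩ := intermediate_value_uIcc hg hv
  rw [Set.uIcc_of_le h12] at hq
  refine ⟨q, hq', ?_⟩
  rw [abs_of_nonneg (by linarith [hq.1])]; linarith [hq.2]

lemma all_step (S : ℝ → ℝ) (L : ℝ) (hL : 0 ≤ L) (hS : ∀ x y, |S x - S y| ≤ L * |x - y|)
    (p v : ℕ → ℝ) (a : ℝ) (K : ℕ) (h1 : ∀ i < K, |v i - S (p i)| < |a|)
    (h2 : ∀ i, K ≤ i → p i = 0 ∧ v i = S (p i) + a) (M : ℕ) :
    ∃ n : ℕ, M < n ∧ ∃ q : ℕ → ℝ, (∀ i, S (q i) + a * cos (n * q i) = v i) ∧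
      (∀ i, |q i - p i| ≤ 10 / n) ∧ ∀ i, K ≤ i → q i = 0 := by
  have hlim : Tendsto (fun n : ℕ => L * (10 / (n : ℝ))) atTop (𝓝 0) := by
    simpa using (tendsto_const_div_atTop_nhds_zero_nat (10 : ℝ)).const_mul L
  have hev : ∀ᶠ n : ℕ in atTop, ∀ i ∈ Finset.range K,
      L * (10 / (n : ℝ)) < |a| - |v i - S (p i)| := by
    rw [Filter.eventually_all_finset]
    intro i hi
    exact hlim.eventually (gt_mem_nhds (by linarith [h1 i (Finset.mem_range.1 hi)]))
  obtain ⟨n, hn1, hn2⟩ := (hev.and (eventually_gt_atTop M)).exists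
  have hn : 0 < n := by omega
  have : ∀ i, ∃ q, (S q + a * cos (n * q) = v i ∧ |q - p i| ≤ 10 / n) ∧ (K ≤ i → q = 0) := by
    intro i
    by_cases hi : i < K
    · obtain ⟨q, hq⟩ := point_step S L hL hS (p i) (v i) a n hn
        (by linarith [hn1 i (Finset.mem_range.2 hi)])
      exact ⟨q, hq, fun h => absurd hi (by omega)⟩
    · obtain ⟨h3, h4⟩ := h2 i (by omega)
      refine ⟨0, ⟨by rw [h4, h3]; simp, by rw [h3]; simp; positivity⟩, fun _ => rfl⟩
  choose q hq using this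
  exact ⟨n, hn2, q, fun i => (hq i).1.1, fun i => (hq i).1.2, fun i => (hq i).2⟩

/-- Lacunary cosine sums tracking a prescribed array along a null sequence of points. -/
theorem track (β : ℕ → ℝ) (w : ℕ → ℕ → ℝ) (K : ℕ → ℕ) (hK : Monotone K) (hw0 : ∀ i, w 0 i = 0)
    (h1 : ∀ r i, i < K r → |w (r + 1) i - w r i| < |β r|)
    (h2 : ∀ r i, K r ≤ i → w (r + 1) i = w r i + β r) :
    ∃ (n : ℕ → ℕ) (t : ℕ → ℝ), StrictMono n ∧ (∀ r, 0 < n r) ∧ Tendsto t atTop (𝓝 0) ∧
      ∀ r i, |∑ j ∈ Finset.range r, β j * cos (n j * t i) - w r i| ≤ 20 * (1 / 2) ^ r := by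
  let σ := (ℝ → ℝ) × ℝ × ℕ × (ℕ → ℝ)
  let I : ℕ → σ → Prop := fun r s => 0 ≤ s.2.1 ∧ (∀ x y, |s.1 x - s.1 y| ≤ s.2.1 * |x - y|) ∧
    (∀ i, s.1 (s.2.2.2 i) = w r i) ∧ ∀ i, K r ≤ i → s.2.2.2 i = 0
  let R : ℕ → σ → σ → Prop := fun r s s' =>
    (∀ x, s'.1 x = s.1 x + β r * cos (s'.2.2.1 * x)) ∧ s.2.1 ≤ s'.2.1 ∧ s.2.2.1 < s'.2.2.1 ∧
    (2 : ℝ) ^ r * (s.2.1 + 1) ≤ s'.2.2.1 ∧ ∀ i, |s'.2.2.2 i - s.2.2.2 i| ≤ 10 / s'.2.2.1
  obtain ⟨f, hf0, hf⟩ := dep_choice I R ((fun _ => 0), 0, 0, fun _ => 0)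
    ⟨le_rfl, by simp, fun i => (hw0 i).symm, fun _ _ => rfl⟩ (by
      rintro r ⟨S, L, m, p⟩ ⟨hL, hS, hp, hp0⟩
      simp only at hL hS hp hp0
      obtain ⟨n, hn, q, hq1, hq2, hq3⟩ := all_step S L hL hS p (w (r + 1)) (β r) (K r)
        (fun i hi => by rw [hp]; exact h1 r i hi)
        (fun i hi => ⟨hp0 i hi, by rw [hp]; exact h2 r i hi⟩) (m + ⌈(2 : ℝ) ^ r * (L + 1)⌉₊)
      refine ⟨((fun x => S x + β r * cos (n * x)), L + |β r| * n, n, q),
        ⟨by positivity, ?_, hq1, fun i hi => hq3 i ((hK (Nat.le_succ r)).trans hi)⟩,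
        fun _ => rfl, ?_, by simp only; omega, ?_, hq2⟩
      · intro x y
        simp only
        have e : S x + β r * cos (n * x) - (S y + β r * cos (n * y))
            = (S x - S y) + β r * (cos (n * x) - cos (n * y)) := by ring
        rw [e]
        refine (abs_add_le _ _).trans ?_
        rw [abs_mul]
        have h3 := abs_cos_sub_cos_le (n * x) (n * y)
        rw [← mul_sub, abs_mul, Nat.abs_cast] at h3
        have := hS x y
        have h4 : |β r| * |cos (n * x) - cos (n * y)| ≤ |β r| * (n * |x - y|) := by gcongr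
        linarith
      · have : 0 ≤ |β r| * n := by positivity
        simp only; linarith
      · simp only
        have h3 := Nat.le_ceil ((2 : ℝ) ^ r * (L + 1))
        have h4 : ((⌈(2 : ℝ) ^ r * (L + 1)⌉₊ : ℕ) : ℝ) ≤ n := Nat.cast_le.2 (by omega)
        linarith)
  let n : ℕ → ℕ := fun r => (f (r + 1)).2.2.1
  let L : ℕ → ℝ := fun r => (f r).2.1
  let p : ℕ → ℕ → ℝ := fun r => (f r).2.2.2
  have hL0 : ∀ r, 0 ≤ L r := fun r => (hf r).1.1
  have hLm : Monotone L := monotone_nat_of_le_succ fun r => (hf r).2.2.1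
  have hnm : StrictMono n := strictMono_nat_of_lt_succ fun r => (hf (r + 1)).2.2.2.1
  have hn0 : ∀ r, 0 < n r := fun r => lt_of_le_of_lt (Nat.zero_le _) (hf r).2.2.2.1
  have hS : ∀ r x, (f r).1 x = ∑ j ∈ Finset.range r, β j * cos (n j * x) := by
    intro r
    induction r with
    | zero => intro x; rw [hf0]; simp
    | succ r ih => intro x; rw [(hf r).2.1, ih, Finset.sum_range_succ]
  have hd : ∀ r j i, r ≤ j → |p (j + 1) i - p j i| ≤ 10 / (L r + 1) * (1 / 2) ^ j := by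
    intro r j i hj
    refine ((hf j).2.2.2.2.2 i).trans ?_
    have h3 : (2 : ℝ) ^ j * (L j + 1) ≤ n j := (hf j).2.2.2.2.1
    have h4 := hLm hj
    have h5 := hL0 r
    have h6 : (2 : ℝ) ^ j * (L r + 1) ≤ n j := le_trans (by gcongr) h3
    calc (10 : ℝ) / (n j : ℝ) ≤ 10 / ((2 : ℝ) ^ j * (L r + 1)) := by gcongr
      _ = _ := by rw [one_div, inv_pow]; field_simp
  have hcau : ∀ i, CauchySeq fun j => p j i := fun i =>
    cauchySeq_of_le_geometric (1 / 2) (10 / (L 0 + 1)) (by norm_num) fun j => by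
      rw [dist_comm, Real.dist_eq]; exact hd 0 j i (Nat.zero_le _)
  choose t ht using fun i => cauchySeq_tendsto_of_complete (hcau i)
  have hdist : ∀ r i, |p r i - t i| ≤ 20 / (L r + 1) * (1 / 2) ^ r := by
    intro r i
    have h3 : Tendsto (fun j => p (r + j) i) atTop (𝓝 (t i)) := by
      have := (ht i).comp (tendsto_add_atTop_nat r)
      simpa [Function.comp_def, add_comm] using this
    have := dist_le_of_le_geometric_of_tendsto₀ (1 / 2) (10 / (L r + 1) * (1 / 2) ^ r)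
      (by norm_num) (f := fun j => p (r + j) i) (fun j => by
        rw [dist_comm, Real.dist_eq, ← add_assoc, mul_assoc, ← pow_add]
        exact hd r (r + j) i (by omega)) h3
    rw [Real.dist_eq, add_zero] at this
    refine this.trans (le_of_eq ?_)
    ring
  refine ⟨n, t, hnm, hn0, ?_, ?_⟩
  · rw [Metric.tendsto_atTop]
    intro ε hε
    obtain ⟨r, hr⟩ := exists_pow_lt_of_lt_one (show 0 < ε / 20 by positivity)
      (show (1 / 2 : ℝ) < 1 by norm_num)
    refine ⟨K r, fun i hi => ?_⟩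
    have h3 := hdist r i
    have h4 : p r i = 0 := (hf r).1.2.2.2 i hi
    rw [h4, zero_sub, abs_neg] at h3
    rw [Real.dist_eq, sub_zero]
    have h5 : 20 / (L r + 1) ≤ 20 := div_le_self (by norm_num) (by linarith [hL0 r])
    have h6 : 20 / (L r + 1) * (1 / 2 : ℝ) ^ r ≤ 20 * (1 / 2) ^ r := by gcongr
    linarith
  · intro r i
    rw [← hS, ← (hf r).1.2.2.1 i]
    refine ((hf r).1.2.1 _ _).trans ?_
    have h3 := hdist r i
    rw [abs_sub_comm] at h3
    have h5 := hL0 r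
    calc L r * |t i - p r i| ≤ L r * (20 / (L r + 1) * (1 / 2) ^ r) := by gcongr
      _ = (L r / (L r + 1)) * (20 * (1 / 2) ^ r) := by ring
      _ ≤ 1 * (20 * (1 / 2) ^ r) := by
          gcongr; rw [div_le_one (by positivity)]; linarith
      _ = _ := one_mul _

end Pool.Agent.H23.Null
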