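import Pool.Agent.H23.Null1

set_option autoImplicit false
set_option maxSynthPendingDepth 3

namespace Pool.Agent.H23.Null

open Filter Topology Real

noncomputable def ramp (x : ℝ) : ℝ := max 0 (min x 1)

lemma ramp_of_le {x : ℝ} (h : x ≤ 0) : ramp x = 0 := by
  unfold ramp; rw [min_eq_left (by linarith), max_eq_left h]

lemma ramp_of_ge {x : ℝ} (h : 1 ≤ x) : ramp x = 1 := by
  unfold ramp; rw [min_eq_right h, max_eq_right (by norm_num)]

lemma ramp_lip (x y : ℝ) : |ramp x - ramp y| ≤ |x - y| := by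
  unfold ramp
  have := le_abs_self (x - y)
  have := neg_abs_le (x - y)
  rw [abs_le]
  simp only [max_def, min_def]
  split_ifs <;> constructor <;> linarith

noncomputable def sg (m : ℕ) : ℝ := √(√m)

lemma sg_pow (m : ℕ) : sg m ^ 4 = m := by
  have : sg m ^ 2 = √m := Real.sq_sqrt (Real.sqrt_nonneg _)
  calc sg m ^ 4 = (sg m ^ 2) ^ 2 := by ring
    _ = (m : ℝ) := by rw [this, Real.sq_sqrt (Nat.cast_nonneg m)]

lemma sg_nonneg (m : ℕ) : 0 ≤ sg m := Real.sqrt_nonneg _

lemma sg_mono {a b : ℕ} (h : a ≤ b) : sg a ≤ sg b :=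
  Real.sqrt_le_sqrt (Real.sqrt_le_sqrt (by exact_mod_cast h))

lemma one_le_sg {m : ℕ} (h : 1 ≤ m) : 1 ≤ sg m := by
  have := sg_mono h
  simpa [sg] using this

lemma sg_le (m : ℕ) : sg m ≤ m := by
  rcases Nat.eq_zero_or_pos m with rfl | h
  · simp [sg]
  · have h1 := one_le_sg h
    calc sg m = sg m ^ 1 := (pow_one _).symm
      _ ≤ sg m ^ 4 := pow_le_pow_right₀ h1 (by norm_num)
      _ = m := sg_pow m

lemma sg_tendsto : Tendsto sg atTop atTop :=
  Real.tendsto_sqrt_atTop.comp (Real.tendsto_sqrt_atTop.comp tendsto_natCast_atTop_atTop)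

lemma sg_diff (m : ℕ) : (sg (m + 1) - sg m) * sg (m + 1) ^ 3 ≤ 1 := by
  have h1 := sg_pow m
  have h2 := sg_pow (m + 1)
  push_cast at h2
  have h3 := sg_nonneg m
  have h4 := sg_mono (Nat.le_succ m)
  have h5 : sg m ^ 3 ≤ sg (m + 1) ^ 3 := by gcongr
  nlinarith [mul_le_mul_of_nonneg_left h5 h3]

noncomputable def tent (m i : ℕ) : ℝ := ramp (sg m - i) - ramp (sg m - (i + 1 : ℕ))

lemma tent_zero {m i : ℕ} (h : sg m ≤ i) : tent m i = 0 := by
  unfold tent
  rw [ramp_of_le (by linarith), ramp_of_le (by push_cast; linarith), sub_zero]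

lemma tent_zero' {m i : ℕ} (h : (i : ℝ) + 2 ≤ sg m) : tent m i = 0 := by
  unfold tent
  rw [ramp_of_ge (by linarith), ramp_of_ge (by push_cast; linarith), sub_self]

lemma tent_sum {m : ℕ} (h : 1 ≤ m) : HasSum (tent m) 1 := by
  have h1 : ∑ i ∈ Finset.range m, tent m i = 1 := by
    unfold tent
    rw [Finset.sum_range_sub' (fun i : ℕ => ramp (sg m - i))]
    rw [ramp_of_ge (by simpa using one_le_sg h), ramp_of_le (by linarith [sg_le m]), sub_zero]
  rw [← h1]
  apply hasSum_sum_of_ne_finset_zero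
  intro i hi
  have : (m : ℝ) ≤ i := by exact_mod_cast (by simpa using hi)
  exact tent_zero ((sg_le m).trans this)

noncomputable def u (m i : ℕ) : ℝ := ((i : ℝ) + 1) ^ 2 * tent m i

noncomputable def al (m : ℕ) : ℝ := 17 / sg (m + 1)

lemma al_pos (m : ℕ) : 0 < al m := by
  have := one_le_sg (show 1 ≤ m + 1 by omega)
  unfold al; positivity

lemma al_tendsto : Tendsto al atTop (𝓝 0) :=
  (sg_tendsto.comp (tendsto_add_atTop_nat 1)).const_div_atTop 17

lemma u_diff (m i : ℕ) : |u (m + 1) i - u m i| < al m := by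
  have h1 := one_le_sg (show 1 ≤ m + 1 by omega)
  have h4 := sg_mono (Nat.le_succ m)
  by_cases hi : sg (m + 1) ≤ i
  · unfold u
    rw [tent_zero hi, tent_zero (h4.trans hi)]
    simpa using al_pos m
  · push Not at hi
    have e : u (m + 1) i - u m i = ((i : ℝ) + 1) ^ 2 *
        ((ramp (sg (m + 1) - i) - ramp (sg m - i)) -
          (ramp (sg (m + 1) - (i + 1 : ℕ)) - ramp (sg m - (i + 1 : ℕ)))) := by
      unfold u tent; ring
    have a1 := ramp_lip (sg (m + 1) - i) (sg m - i)
    have a2 := ramp_lip (sg (m + 1) - (i + 1 : ℕ)) (sg m - (i + 1 : ℕ))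
    rw [sub_sub_sub_cancel_right, abs_of_nonneg (sub_nonneg.2 h4)] at a1 a2
    have a3 := (abs_sub _ _).trans (add_le_add a1 a2)
    rw [e, abs_mul, abs_of_nonneg (by positivity)]
    have a4 : ((i : ℝ) + 1) ^ 2 ≤ (2 * sg (m + 1)) ^ 2 := by gcongr; linarith
    have a5 := sg_diff m
    unfold al
    rw [lt_div_iff₀ (by positivity)]
    calc _ ≤ (2 * sg (m + 1)) ^ 2 * (sg (m + 1) - sg m + (sg (m + 1) - sg m)) * sg (m + 1) := by
          gcongr
      _ = 8 * ((sg (m + 1) - sg m) * sg (m + 1) ^ 3) := by ring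
      _ < 17 := by linarith

noncomputable def q (i : ℕ) : ℝ := 1 / ((i : ℝ) + 1) ^ 2

lemma q_pos (i : ℕ) : 0 < q i := by unfold q; positivity

lemma q_summable : Summable q := by
  have := (summable_nat_add_iff 1).2 (Real.summable_one_div_nat_pow.2 (show 1 < 2 by norm_num))
  unfold q
  simpa using this

noncomputable def tl (K : ℕ) : ℝ := ∑' i, if K ≤ i then q i else 0

lemma tl_summable (K : ℕ) : Summable fun i => if K ≤ i then q i else 0 :=
  Summable.of_nonneg_of_le (fun i => by split_ifs; exacts [(q_pos i).le, le_rfl])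
    (fun i => by split_ifs; exacts [le_rfl, (q_pos i).le]) q_summable

lemma tl_nonneg (K : ℕ) : 0 ≤ tl K :=
  tsum_nonneg fun i => by split_ifs; exacts [(q_pos i).le, le_rfl]

lemma tl_le (K : ℕ) : tl K ≤ ∑' i, q i :=
  (tl_summable K).tsum_le_tsum (fun i => by split_ifs; exacts [le_rfl, (q_pos i).le]) q_summable

lemma T_pos : 0 < ∑' i, q i := q_summable.tsum_pos (fun i => (q_pos i).le) 0 (q_pos 0)

noncomputable def cc : ℕ → ℝ
  | 0 => 2 * ∑' i, q i
  | i + 1 => q i

lemma cc_pos (i : ℕ) : 0 < cc i := by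
  cases i with
  | zero => have := T_pos; simp only [cc]; positivity
  | succ i => exact q_pos i

lemma cc_summable : Summable cc := (summable_nat_add_iff 1).1 q_summable

noncomputable def we (m : ℕ) : ℕ → ℝ
  | 0 => 0
  | i + 1 => u m i

noncomputable def wo (m : ℕ) : ℕ → ℝ
  | 0 => -(al m * tl (m + 1) / cc 0)
  | i + 1 => u m i + if m + 1 ≤ i then al m else 0

lemma we_sum {m : ℕ} (h : 1 ≤ m) : HasSum (fun i => cc i * we m i) 1 := by
  rw [← hasSum_nat_add_iff' 1]
  simp only [Finset.range_one, Finset.sum_singleton, we, mul_zero, sub_zero, cc]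
  have e : (fun i => q i * u m i) = tent m := by
    funext i; unfold q u; field_simp
  rw [e]; exact tent_sum h

lemma wo_sum {m : ℕ} (h : 1 ≤ m) : HasSum (fun i => cc i * wo m i) 1 := by
  rw [← hasSum_nat_add_iff' 1]
  have h0 := (cc_pos 0).ne'
  have e : 1 - ∑ i ∈ Finset.range 1, cc i * wo m i = 1 + al m * tl (m + 1) := by
    simp only [Finset.range_one, Finset.sum_singleton, wo]; field_simp; ring
  rw [e]
  have e2 := (tent_sum h).add ((tl_summable (m + 1)).hasSum.mul_left (al m))
  refine e2.congr_fun ?_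
  intro i
  simp only [cc, wo]
  unfold q u
  split_ifs
  · field_simp
  · field_simp; ring

lemma u_zero {m i : ℕ} (h : m ≤ i) : u m i = 0 := by
  unfold u
  rw [tent_zero ((sg_le m).trans (by exact_mod_cast h)), mul_zero]

lemma wo_zero_lt (m : ℕ) : |wo m 0| < al m := by
  have h0 := cc_pos 0
  have h1 := al_pos m
  have h2 := tl_nonneg (m + 1)
  have h3 := tl_le (m + 1)
  have h4 := T_pos
  simp only [wo]
  rw [abs_neg, abs_of_nonneg (by positivity), div_lt_iff₀ h0]
  simp only [cc]
  nlinarith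

/-- The planned array. -/
theorem plan : ∃ (β : ℕ → ℝ) (w : ℕ → ℕ → ℝ) (K : ℕ → ℕ), Monotone K ∧ (∀ i, w 0 i = 0) ∧
    (∀ r i, i < K r → |w (r + 1) i - w r i| < |β r|) ∧
    (∀ r i, K r ≤ i → w (r + 1) i = w r i + β r) ∧
    Tendsto β atTop (𝓝 0) ∧ Tendsto (fun R => ∑ j ∈ Finset.range R, β j) atTop (𝓝 0) ∧
    (∀ i, Tendsto (fun r => w r i) atTop (𝓝 0)) ∧
    ∀ r, 2 ≤ r → HasSum (fun i => cc i * w r i) 1 := by
  let β : ℕ → ℝ := fun r => if r % 2 = 0 then al (r / 2) else -al (r / 2)
  let w : ℕ → ℕ → ℝ := fun r => if r % 2 = 0 then we (r / 2) else wo (r / 2)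
  have hβe : ∀ m, β (2 * m) = al m := fun m => by simp [β]
  have hβo : ∀ m, β (2 * m + 1) = -al m := fun m => by
    have : (2 * m + 1) / 2 = m := by omega
    simp [β, this]
  have hwe : ∀ m, w (2 * m) = we m := fun m => by simp [w]
  have hwo : ∀ m, w (2 * m + 1) = wo m := fun m => by
    have : (2 * m + 1) / 2 = m := by omega
    simp [w, this]
  have hwe' : ∀ m, w (2 * m + 1 + 1) = we (m + 1) := fun m => hwe (m + 1)
  have hhalf : Tendsto (fun r : ℕ => r / 2) atTop atTop :=
    Nat.tendsto_div_const_atTop (by norm_num)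
  have hal : Tendsto (fun r : ℕ => al (r / 2)) atTop (𝓝 0) := al_tendsto.comp hhalf
  refine ⟨β, w, fun r => r / 2 + 2, fun a b h => by simp only; omega, ?_, ?_, ?_, ?_, ?_, ?_, ?_⟩
  · intro i
    have := hwe 0
    rw [mul_zero] at this
    rw [this]
    cases i with
    | zero => rfl
    | succ i => exact u_zero (Nat.zero_le _)
  · intro r i hi
    obtain ⟨m, rfl | rfl⟩ := Nat.even_or_odd' r
    · rw [hβe, hwe, hwo, abs_of_pos (al_pos m)]
      cases i with
      | zero => simpa [we] using wo_zero_lt m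
      | succ i =>
        simp only at hi
        simp only [we, wo]
        rw [if_neg (by omega)]
        simpa using al_pos m
    · rw [hβo, hwe', hwo, abs_neg, abs_of_pos (al_pos m)]
      cases i with
      | zero => simpa [we] using wo_zero_lt m
      | succ i =>
        simp only at hi
        simp only [we, wo]
        rw [if_neg (by omega), add_zero]
        exact u_diff m i
  · intro r i hi
    simp only at hi
    obtain ⟨i, rfl⟩ : ∃ j, i = j + 1 := ⟨i - 1, by omega⟩
    obtain ⟨m, rfl | rfl⟩ := Nat.even_or_odd' r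
    · rw [hβe, hwe, hwo]
      simp only [we, wo]
      rw [if_pos (by omega)]
    · rw [hβo, hwe', hwo]
      simp only [we, wo]
      rw [if_pos (by omega), u_zero (by omega), u_zero (by omega)]
      ring
  · refine squeeze_zero_norm (fun r => ?_) hal
    simp only [β]
    split_ifs <;> simp [abs_of_pos (al_pos _)]
  · have hs : ∀ m, ∑ j ∈ Finset.range (2 * m), β j = 0 := by
      intro m
      induction m with
      | zero => simp
      | succ m ih =>
        rw [show 2 * (m + 1) = 2 * m + 1 + 1 by ring, Finset.sum_range_succ, Finset.sum_range_succ,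
          ih, hβe, hβo]; ring
    refine squeeze_zero_norm (fun r => ?_) hal
    obtain ⟨m, rfl | rfl⟩ := Nat.even_or_odd' r
    · rw [hs, norm_zero]; exact (al_pos _).le
    · rw [Finset.sum_range_succ, hs, hβe, show (2 * m + 1) / 2 = m by omega]
      simp [abs_of_pos (al_pos _)]
  · intro i
    refine squeeze_zero_norm' ?_ hal
    cases i with
    | zero =>
      refine Eventually.of_forall fun r => ?_
      simp only [w]
      split_ifs
      · simpa [we] using (al_pos _).le
      · exact (wo_zero_lt _).le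
    | succ i =>
      filter_upwards [(sg_tendsto.comp hhalf).eventually_ge_atTop ((i : ℝ) + 2),
        hhalf.eventually_ge_atTop i] with r hr hr'
      have hu : u (r / 2) i = 0 := by unfold u; rw [tent_zero' hr, mul_zero]
      simp only [w]
      split_ifs
      · simpa [we, hu] using (al_pos _).le
      · simp only [wo]
        rw [if_neg (by omega), hu]
        simpa using (al_pos _).le
  · intro r hr
    obtain ⟨m, rfl | rfl⟩ := Nat.even_or_odd' r
    · rw [hwe]; exact we_sum (by omega)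
    · rw [hwo]; exact wo_sum (by omega)

end Pool.Agent.H23.Null
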