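import Pool.Agent.H23.Null2

set_option autoImplicit false
set_option maxSynthPendingDepth 3

namespace Pool.Agent.H23.Null

open Filter Topology Real MeasureTheory

lemma fourier_real (m : ℤ) (x : ℝ) :
    fourier m (x : AddCircle (2 * π)) = Complex.exp (((m * x : ℝ) : ℂ) * Complex.I) := by
  rw [fourier_coe_apply]
  congr 1
  have : (π : ℂ) ≠ 0 := by exact_mod_cast pi_pos.ne'
  push_cast
  field_simp

lemma fourier_pair (m : ℤ) (x : ℝ) :
    fourier m (x : AddCircle (2 * π)) + fourier (-m) (x : AddCircle (2 * π))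
      = ((2 * cos (m * x) : ℝ) : ℂ) := by
  rw [fourier_real, fourier_real]
  push_cast
  rw [Complex.two_cos]
  congr 2; ring

lemma fourier_pair' (m : ℤ) (x : ℝ) :
    fourier m (x : AddCircle (2 * π)) + fourier m ((-x : ℝ) : AddCircle (2 * π))
      = ((2 * cos (m * x) : ℝ) : ℂ) := by
  rw [fourier_real, fourier_real]
  push_cast
  rw [Complex.two_cos]
  congr 2; ring

lemma sym_sum (b : ℕ → ℝ) (hb : b 0 = 0) (x : ℝ) (N : ℕ) :
    ∑ m ∈ Finset.Icc (-(N : ℤ)) (N : ℤ), ((b m.natAbs / 2 : ℝ) : ℂ) *
      fourier m (x : AddCircle (2 * π))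
      = ((∑ k ∈ Finset.range (N + 1), b k * cos (k * x) : ℝ) : ℂ) := by
  induction N with
  | zero => simp [hb]
  | succ N ih =>
    have e : Finset.Icc (-((N + 1 : ℕ) : ℤ)) ((N + 1 : ℕ) : ℤ)
        = insert ((N + 1 : ℕ) : ℤ) (insert (-((N + 1 : ℕ) : ℤ)) (Finset.Icc (-(N : ℤ)) N)) := by
      ext z; simp only [Finset.mem_Icc, Finset.mem_insert]; omega
    rw [e, Finset.sum_insert (by simp only [Finset.mem_Icc, Finset.mem_insert]; omega),
      Finset.sum_insert (by simp only [Finset.mem_Icc]; omega), ih, Finset.sum_range_succ _ (N + 1),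
      Int.natAbs_neg, Int.natAbs_natCast, ← add_assoc, ← mul_add, fourier_pair]
    push_cast; ring

lemma extend_sum (n : ℕ → ℕ) (hn : StrictMono n) (β g : ℕ → ℝ) :
    ∃ R : ℕ → ℕ, Tendsto R atTop atTop ∧ ∀ N, ∑ k ∈ Finset.range (N + 1),
      Function.extend n β 0 k * g k = ∑ r ∈ Finset.range (R N), β r * g (n r) := by
  have hex : ∀ N, ∃ r, N < n r := fun N => ⟨N + 1, hn.le_apply⟩
  have hlt : ∀ N r, r < Nat.find (hex N) ↔ n r ≤ N := by
    intro N r
    constructor
    · intro h; exact not_lt.1 (Nat.find_min (hex N) h)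
    · intro h
      by_contra h'
      have := hn.monotone (not_lt.1 h')
      have := Nat.find_spec (hex N)
      omega
  refine ⟨fun N => Nat.find (hex N), ?_, fun N => ?_⟩
  · rw [tendsto_atTop_atTop]
    intro b
    exact ⟨n b, fun N hN => ((hlt N b).2 hN).le⟩
  · symm
    apply Finset.sum_of_injOn n hn.injective.injOn
    · intro r hr
      have := (hlt N r).1 (by simpa using hr)
      simp only [Finset.coe_range, Set.mem_Iio]; omega
    · intro k hk hk'
      rw [Function.extend_apply', Pi.zero_apply, zero_mul]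
      rintro ⟨r, rfl⟩
      apply hk'
      refine ⟨r, ?_, rfl⟩
      simp only [Finset.coe_range, Set.mem_Iio]
      rw [hlt]
      have := Finset.mem_range.1 hk
      omega
    · intro r _
      rw [hn.injective.extend_apply]

theorem counter : ∃ (a : ℤ → ℂ) (F : Set (AddCircle (2 * π))) (μ : Measure (AddCircle (2 * π))),
      Tendsto a cofinite (𝓝 0) ∧ IsClosed F ∧
      (∀ t ∈ F, Tendsto
        (fun N : ℕ => ∑ n ∈ Finset.Icc (-(N : ℤ)) (N : ℤ), a n * fourier n t) atTop (𝓝 0)) ∧
      IsFiniteMeasure μ ∧ μ Fᶜ = 0 ∧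
      Summable (fun n : ℤ => ‖∫ t, fourier (-n) t ∂μ‖ * ‖a (-n)‖) ∧
      ∑' n : ℤ, (∫ t, fourier (-n) t ∂μ) * a (-n) ≠ 0 := by
  have : Fact (0 < 2 * π) := ⟨by positivity⟩
  obtain ⟨β, w, K, hK, hw0, h1, h2, hβ, hβs, hw, hsum⟩ := plan
  obtain ⟨n, t, hn, hn0, ht, hS⟩ := track β w K hK hw0 h1 h2
  set S : ℕ → ℝ → ℝ := fun r x => ∑ j ∈ Finset.range r, β j * cos (n j * x) with hSdef
  let b : ℕ → ℝ := Function.extend n β 0
  have hbn : ∀ r, b (n r) = β r := fun r => hn.injective.extend_apply _ _ _
  have hb0' : ∀ k, k ∉ Set.range n → b k = 0 := fun k hk => by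
    simp only [b]; rw [Function.extend_apply' _ _ _ hk]; rfl
  have hb0 : b 0 = 0 := hb0' 0 (by rintro ⟨r, hr⟩; exact (hn0 r).ne' hr)
  let a : ℤ → ℂ := fun m => ((b m.natAbs / 2 : ℝ) : ℂ)
  let c : ℕ → ENNReal := fun i => ENNReal.ofReal (cc i)
  let x1 : ℕ → AddCircle (2 * π) := fun i => (t i : ℝ)
  let x2 : ℕ → AddCircle (2 * π) := fun i => (-t i : ℝ)
  let μ1 : Measure (AddCircle (2 * π)) := Measure.sum fun i => c i • Measure.dirac (x1 i)
  let μ2 : Measure (AddCircle (2 * π)) := Measure.sum fun i => c i • Measure.dirac (x2 i)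
  have hfin : ∀ x : ℕ → AddCircle (2 * π),
      IsFiniteMeasure (Measure.sum fun i => c i • Measure.dirac (x i)) := by
    intro x
    constructor
    rw [Measure.sum_apply _ MeasurableSet.univ]
    simp only [Measure.smul_apply, measure_univ, smul_eq_mul, mul_one, c]
    rw [← ENNReal.ofReal_tsum_of_nonneg (fun i => (cc_pos i).le) cc_summable]
    exact ENNReal.ofReal_lt_top
  have := hfin x1
  have := hfin x2
  have hgeo : Tendsto (fun r : ℕ => 20 * (1 / 2 : ℝ) ^ r) atTop (𝓝 0) := by
    simpa using (tendsto_pow_atTop_nhds_zero_of_lt_one (r := (1 / 2 : ℝ)) (by norm_num)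
      (by norm_num)).const_mul 20
  have hSt : ∀ i, Tendsto (fun r => S r (t i)) atTop (𝓝 0) := by
    intro i
    have h3 : Tendsto (fun r => S r (t i) - w r i) atTop (𝓝 0) :=
      squeeze_zero_norm (fun r => hS r i) hgeo
    simpa using h3.add (hw i)
  have hconv : ∀ x : ℝ, Tendsto (fun r => S r x) atTop (𝓝 0) → Tendsto
      (fun N : ℕ => ∑ m ∈ Finset.Icc (-(N : ℤ)) (N : ℤ), a m * fourier m (x : AddCircle (2 * π)))
      atTop (𝓝 0) := by
    intro x hx
    obtain ⟨R, hR, hR'⟩ := extend_sum n hn β (fun k => cos (k * x))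
    simp only [a, sym_sum b hb0 x]
    have h3 := (Complex.continuous_ofReal.tendsto 0).comp (hx.comp hR)
    rw [Complex.ofReal_zero] at h3
    refine h3.congr fun N => ?_
    simp only [Function.comp, hSdef, b]
    rw [hR']
  let h : ℕ → ℝ := fun k => ∑' i, cc i * (2 * cos (k * t i))
  have hcs : ∀ y : ℝ, Summable fun i => cc i * (2 * cos (y * t i)) := fun y =>
    Summable.of_norm_bounded (cc_summable.mul_right 2) fun i => by
      rw [Real.norm_eq_abs, abs_mul, abs_of_pos (cc_pos i), abs_mul, abs_two]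
      have := cc_pos i
      have := abs_cos_le_one (y * t i)
      nlinarith
  have hint : ∀ m : ℤ, ∫ y, fourier m y ∂(μ1 + μ2) = ((h m.natAbs : ℝ) : ℂ) := by
    intro m
    have hi : ∀ ν : Measure (AddCircle (2 * π)), IsFiniteMeasure ν → Integrable (fourier m) ν :=
      fun ν _ => (fourier m).continuous.integrable_of_hasCompactSupport
        (HasCompactSupport.of_compactSpace _)
    have hs : ∀ x : ℕ → AddCircle (2 * π), HasSum (fun i => cc i • fourier m (x i))
        (∫ y, fourier m y ∂(Measure.sum fun i => c i • Measure.dirac (x i))) := by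
      intro x
      have := hasSum_integral_sum_dirac (c := c) (x := x) (f := fourier m)
        (fun i => ENNReal.ofReal_ne_top) (by
          simp only [c, ENNReal.toReal_ofReal (cc_pos _).le, fourier_apply, Circle.norm_coe,
            mul_one]
          exact cc_summable)
      simpa only [c, ENNReal.toReal_ofReal (cc_pos _).le] using this
    rw [integral_add_measure (hi _ (hfin x1)) (hi _ (hfin x2))]
    have h3 := (hs x1).add (hs x2)
    have h4 := Complex.hasSum_ofReal.2 (hcs (m.natAbs : ℕ)).hasSum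
    refine h3.unique (h4.congr_fun fun i => ?_)
    simp only [x1, x2]
    rw [← smul_add, fourier_pair']
    have : cos ((m : ℝ) * t i) = cos ((m.natAbs : ℕ) * t i) := by
      rw [Nat.cast_natAbs, Int.cast_abs]
      rcases abs_choice (m : ℝ) with h5 | h5 <;> rw [h5]
      rw [neg_mul, cos_neg]
    rw [this]; simp
  let T : ℝ := ∑' i, cc i
  let Sg : ℕ → ℝ := fun R => ∑ r ∈ Finset.range R, β r * h (n r)
  have hSg : ∀ R, HasSum (fun i => cc i * (2 * S R (t i))) (Sg R) := by
    intro R
    have := hasSum_sum (s := Finset.range R) fun r _ => ((hcs (n r)).hasSum.mul_left (β r))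
    refine this.congr_fun fun i => ?_
    simp only [hSdef, Finset.mul_sum]
    exact Finset.sum_congr rfl fun r _ => by ring
  have hSg2 : ∀ R, 2 ≤ R → |Sg R - 2| ≤ T * 40 * (1 / 2) ^ R := by
    intro R hR
    have h3 := (hSg R).sub ((hsum R hR).mul_left 2)
    have h4 := cc_summable.hasSum.mul_right (40 * (1 / 2 : ℝ) ^ R)
    rw [mul_one] at h3
    rw [← Real.norm_eq_abs, mul_assoc]
    refine h3.norm_le_of_bounded h4 fun i => ?_
    have h5 := hS R i
    have h6 := cc_pos i
    have e : cc i * (2 * S R (t i)) - 2 * (cc i * w R i) = cc i * 2 * (S R (t i) - w R i) := by ring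
    rw [e, Real.norm_eq_abs, abs_mul, abs_of_pos (by positivity)]
    calc cc i * 2 * |S R (t i) - w R i| ≤ cc i * 2 * (20 * (1 / 2) ^ R) := by gcongr
      _ = _ := by ring
  have hT : 0 ≤ T := tsum_nonneg fun i => (cc_pos i).le
  have hsb : Summable fun r => β r * h (n r) := by
    rw [← summable_nat_add_iff 2]
    refine Summable.of_norm_bounded (summable_geometric_two.mul_left (T * 80)) fun r => ?_
    have h3 := abs_le.1 (hSg2 (r + 2) (by omega))
    have h4 := abs_le.1 (hSg2 (r + 2 + 1) (by omega))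
    have e : β (r + 2) * h (n (r + 2)) = Sg (r + 2 + 1) - Sg (r + 2) := by
      simp only [Sg]; rw [Finset.sum_range_succ _ (r + 2)]; ring
    have h5 : 0 ≤ T * (1 / 2 : ℝ) ^ r := by positivity
    rw [e, Real.norm_eq_abs, abs_le]
    simp only [pow_succ] at h3 h4
    constructor <;> nlinarith
  have hsb' : Summable fun k => b k * h k := by
    rw [← hn.injective.summable_iff (fun k hk => by rw [hb0' k hk, zero_mul])]
    refine hsb.congr fun r => ?_
    simp [hbn]
  have hφ : ∀ m : ℤ, (∫ y, fourier (-m) y ∂(μ1 + μ2)) * a (-m)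
      = ((b m.natAbs * h m.natAbs / 2 : ℝ) : ℂ) := by
    intro m
    rw [hint]
    simp only [a, Int.natAbs_neg]
    push_cast; ring
  have hsZ : Summable fun m : ℤ => b m.natAbs * h m.natAbs / 2 := by
    apply Summable.of_nat_of_neg
    · simpa using hsb'.div_const 2
    · simpa using hsb'.div_const 2
  refine ⟨a, insert ((0 : ℝ) : AddCircle (2 * π)) (Set.range x1) ∪
    insert ((0 : ℝ) : AddCircle (2 * π)) (Set.range x2), μ1 + μ2, ?_, ?_, ?_, inferInstance,
    ?_, ?_, ?_⟩
  · have hbt : Tendsto b cofinite (𝓝 0) := by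
      rw [Metric.tendsto_nhds]
      intro ε hε
      have h3 := Metric.tendsto_nhds.1 (Nat.cofinite_eq_atTop ▸ hβ) ε hε
      rw [eventually_cofinite] at h3 ⊢
      refine (h3.image n).subset fun k hk => ?_
      by_cases hk' : k ∈ Set.range n
      · obtain ⟨r, rfl⟩ := hk'
        exact ⟨r, by simpa [hbn] using hk, rfl⟩
      · simp [hb0' k hk'] at hk
        exact absurd hε (not_lt.2 hk)
    have hna : Tendsto Int.natAbs cofinite cofinite := by
      apply Tendsto.cofinite_of_finite_preimage_singleton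
      intro k
      refine ((Set.finite_singleton (k : ℤ)).insert (-(k : ℤ))).subset fun z hz => ?_
      simp only [Set.mem_preimage, Set.mem_singleton_iff, Set.mem_insert_iff] at hz ⊢
      omega
    have h3 := (Complex.continuous_ofReal.tendsto _).comp ((hbt.comp hna).div_const 2)
    rw [zero_div, Complex.ofReal_zero] at h3
    exact h3
  · have hc : Continuous (fun y : ℝ => (y : AddCircle (2 * π))) := continuous_quotient_mk'
    have ht' : Tendsto (fun i => -t i) atTop (𝓝 0) := by simpa using ht.neg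
    exact (((hc.tendsto 0).comp ht).isCompact_insert_range.union
      ((hc.tendsto 0).comp ht').isCompact_insert_range).isClosed
  · have h0 : Tendsto (fun r => S r 0) atTop (𝓝 0) := by simpa [hSdef] using hβs
    rintro y ((rfl | ⟨i, rfl⟩) | (rfl | ⟨i, rfl⟩))
    · exact hconv 0 h0
    · exact hconv _ (hSt i)
    · exact hconv 0 h0
    · exact hconv _ (by simpa [hSdef] using hSt i)
  · rw [Measure.add_apply, add_eq_zero]
    constructor
    · refine Measure.sum_apply_eq_zero.2 fun i => ?_
      simp [Measure.dirac_apply]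
    · refine Measure.sum_apply_eq_zero.2 fun i => ?_
      simp [Measure.dirac_apply]
  · simp only [← norm_mul, hφ, Complex.norm_real]
    exact hsZ.norm
  · simp only [hφ]
    rw [← Complex.ofReal_tsum]
    intro h0
    have h3 : HasSum (fun m : ℤ => b m.natAbs * h m.natAbs / 2) 0 := by
      have := hsZ.hasSum
      rwa [Complex.ofReal_eq_zero.1 h0] at this
    have h4 : HasSum (fun k : ℕ => b k * h k) 0 := by
      simpa [hb0] using h3.nat_add_neg
    rw [← hn.injective.hasSum_iff (fun k hk => by rw [hb0' k hk, zero_mul])] at h4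
    have h5 : Tendsto Sg atTop (𝓝 0) := by
      have := h4.tendsto_sum_nat
      simpa [hbn] using this
    have h6 : Tendsto (fun R => Sg R - 2) atTop (𝓝 0) := by
      refine squeeze_zero_norm' (a := fun R : ℕ => T * 2 * (20 * (1 / 2 : ℝ) ^ R)) ?_
        (by simpa using hgeo.const_mul (T * 2))
      filter_upwards [eventually_ge_atTop 2] with R hR
      exact (hSg2 R hR).trans (le_of_eq (by ring))
    have := tendsto_nhds_unique (h5.sub_const 2) h6
    norm_num at this

end Pool.Agent.H23.Null
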