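import Mathlib

set_option autoImplicit false
set_option maxSynthPendingDepth 3
open scoped Classical
open Finset

namespace Pool.Agent.H23.PHad

/-- there is an `r × s` sign matrix with pairwise orthogonal rows -/
def PH (r s : ℕ) : Prop :=
  ∃ M : Fin r → Fin s → ℤ, (∀ a c, M a c = 1 ∨ M a c = -1) ∧
    ∀ a b, a ≠ b → ∑ c, M a c * M b c = 0

theorem PH_of {α β : Type} [Fintype α] [Fintype β] (M : α → β → ℤ)
    (h1 : ∀ a c, M a c = 1 ∨ M a c = -1) (h2 : ∀ a b, a ≠ b → ∑ c, M a c * M b c = 0)
    (r s : ℕ) (hr : r ≤ Fintype.card α) (hs : s = Fintype.card β) : PH r s := by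
  obtain ⟨e⟩ : Nonempty (Fin r ↪ α) := Function.Embedding.nonempty_of_card_le (by simpa using hr)
  let f : Fin s ≃ β := (Fintype.equivFinOfCardEq hs.symm).symm
  refine ⟨fun a c => M (e a) (f c), fun a c => h1 _ _, fun a b hab => ?_⟩
  rw [← h2 (e a) (e b) (fun h => hab (e.injective h))]
  exact f.sum_comp (fun c => M (e a) c * M (e b) c)

theorem PH_mono {r r' s : ℕ} (h : PH r s) (hr : r' ≤ r) : PH r' s := by
  obtain ⟨M, h1, h2⟩ := h
  exact PH_of M h1 h2 r' s (by simpa using hr) (by simp)

theorem PH_zero (r : ℕ) : PH r 0 := ⟨fun _ _ => 1, by simp, by simp⟩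

theorem PH_add {r s s' : ℕ} (h : PH r s) (h' : PH r s') : PH r (s + s') := by
  obtain ⟨M, h1, h2⟩ := h
  obtain ⟨M', h1', h2'⟩ := h'
  refine PH_of (fun a (c : Fin s ⊕ Fin s') => Sum.elim (M a) (M' a) c) ?_ ?_ r _
    (by simp) (by simp)
  · rintro a (c | c)
    · exact h1 a c
    · exact h1' a c
  · intro a b hab
    simp [Fintype.sum_sum_type, h2 a b hab, h2' a b hab]

theorem PH_mul {r s : ℕ} (h : PH r s) (k : ℕ) : PH r (k * s) := by
  induction k with
  | zero => simpa using PH_zero r
  | succ k ih => rw [Nat.succ_mul]; exact PH_add ih h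

theorem PH_dbl {r s : ℕ} (h : PH r s) : PH (2 * r) (2 * s) := by
  obtain ⟨M, h1, h2⟩ := h
  refine PH_of (fun (a : Bool × Fin r) (c : Bool × Fin s) =>
    (if a.1 && c.1 then -1 else 1) * M a.2 c.2) ?_ ?_ _ _ (by simp) (by simp)
  · rintro ⟨a, a'⟩ ⟨c, c'⟩
    rcases h1 a' c' with h | h <;> cases a <;> cases c <;> simp [h]
  · rintro ⟨a, a'⟩ ⟨b, b'⟩ hab
    rw [Fintype.sum_prod_type]
    cases a <;> cases b
    · have : a' ≠ b' := fun e => hab (by rw [e])
      simp [h2 a' b' this]
    · simp
    · simp
    · have : a' ≠ b' := fun e => hab (by rw [e])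
      simp [h2 a' b' this]

theorem PH_pow {r s : ℕ} (h : PH r s) (k : ℕ) : PH (2 ^ k * r) (2 ^ k * s) := by
  induction k with
  | zero => simpa using h
  | succ k ih =>
    have := PH_dbl ih
    rw [pow_succ, mul_comm (2 ^ k) 2, mul_assoc, mul_assoc]
    exact this

theorem PH_one : PH 1 1 := ⟨fun _ _ => 1, by simp, fun a b h => absurd (Subsingleton.elim a b) h⟩

theorem paley (F : Type) [Field F] [Fintype F] (hF : Fintype.card F % 4 = 3) :
    PH (Fintype.card F) (Fintype.card F + 1) := by
  have hc : ringChar F ≠ 2 := by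
    intro h
    have := FiniteField.even_card_of_char_two h
    omega
  have hm : quadraticChar F (-1) = -1 := by
    rw [quadraticChar_neg_one_iff_not_isSquare, FiniteField.isSquare_neg_one_iff]
    simpa using hF
  have hj : ∑ x : F, quadraticChar F x * quadraticChar F (1 - x) = 1 := by
    have := jacobiSum_nontrivial_inv (quadraticChar_ne_one hc)
    rw [(quadraticChar_isQuadratic F).inv, hm, jacobiSum] at this
    simpa using this
  have hs : ∀ a b : F, a ≠ b →
      ∑ x : F, quadraticChar F (x - a) * quadraticChar F (x - b) = -1 := by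
    intro a b hab
    have hd : b - a ≠ 0 := sub_ne_zero.2 hab.symm
    have h1 := ((Equiv.mulLeft₀ (b - a) hd).trans (Equiv.addRight a)).sum_comp
      (fun x => quadraticChar F (x - a) * quadraticChar F (x - b))
    rw [← h1, ← hj, ← sum_neg_distrib]
    refine sum_congr rfl (fun u _ => ?_)
    simp only [Equiv.trans_apply, Equiv.mulLeft₀_apply, Equiv.coe_addRight]
    have e1 : (b - a) * u + a - a = (b - a) * u := by ring
    have e2 : (b - a) * u + a - b = (-1) * ((b - a) * (1 - u)) := by ring
    have h2 := quadraticChar_sq_one hd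
    rw [e1, e2, map_mul, map_mul, map_mul, hm]
    linear_combination (-(quadraticChar F u * quadraticChar F (1 - u))) * h2
  refine PH_of (fun (a : F) (c : Option F) => match c with
    | none => 1
    | some x => quadraticChar F (x - a) - (if x = a then 1 else 0)) ?_ ?_ _ _ le_rfl (by simp)
  · rintro a (_ | x)
    · exact Or.inl rfl
    · by_cases h : x = a
      · simp [h]
      · simpa [h] using quadraticChar_dichotomy (sub_ne_zero.2 h)
  · intro a b hab
    rw [Fintype.sum_option]
    simp only [mul_sub, sub_mul, sum_sub_distrib, hs a b hab, mul_ite, ite_mul, mul_one, mul_zero,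
      one_mul, zero_mul, sum_ite_eq', mem_univ, if_true]
    have e : b - a = (-1) * (a - b) := by ring
    rw [e, map_mul, hm]
    simp [hab.symm]

theorem PH_prime (p : ℕ) (hp : p.Prime) (h4 : p % 4 = 3) : PH p (p + 1) := by
  have : Fact p.Prime := ⟨hp⟩
  have := paley (ZMod p) (by simpa using h4)
  simpa using this

theorem PH_three (a : ℕ) : PH (3 ^ (2 * a + 1)) (3 ^ (2 * a + 1) + 1) := by
  have : Fact (Nat.Prime 3) := ⟨by norm_num⟩
  let _ : Fintype (GaloisField 3 (2 * a + 1)) := Fintype.ofFinite _
  have hc : Fintype.card (GaloisField 3 (2 * a + 1)) = 3 ^ (2 * a + 1) := by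
    rw [← Nat.card_eq_fintype_card, GaloisField.card 3 _ (by omega)]
  have := paley (GaloisField 3 (2 * a + 1)) (by
    rw [hc, pow_succ, pow_mul, Nat.mul_mod, Nat.pow_mod]; norm_num)
  rwa [hc] at this

theorem three_mod (a : ℕ) : 3 ^ (2 * a + 1) % 8 = 3 := by
  rw [pow_succ, pow_mul, Nat.mul_mod, Nat.pow_mod]; norm_num

/-- a block with `≡ 2^(i+2) mod 2^(i+3)` columns and at most `12 v` columns -/
theorem digit (v i : ℕ) (hi : 2 ^ i * 2 ≤ v) :
    ∃ u, PH v (2 ^ (i + 2) * (2 * u + 1)) ∧ 2 ^ (i + 2) * (2 * u + 1) ≤ 10 * v := by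
  have hex : ∃ a, v ≤ 2 ^ i * 3 ^ (2 * a + 1) := by
    refine ⟨v, ?_⟩
    have h1 : v < 3 ^ v := Nat.lt_pow_self (by norm_num)
    have h2 : 3 ^ v ≤ 3 ^ (2 * v + 1) := Nat.pow_le_pow_right (by norm_num) (by omega)
    have h3 : 1 ≤ 2 ^ i := Nat.one_le_two_pow
    nlinarith
  have h1 := Nat.find_spec hex
  have h2 : 2 ^ i * 3 ^ (2 * Nat.find hex + 1) ≤ 9 * v := by
    rcases Nat.eq_zero_or_pos (Nat.find hex) with h | h
    · rw [h]; norm_num; omega
    · have h3 := Nat.find_min hex (show Nat.find hex - 1 < Nat.find hex by omega)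
      have e : 2 * Nat.find hex + 1 = 2 * (Nat.find hex - 1) + 1 + 2 := by omega
      rw [e, pow_add]
      push Not at h3
      nlinarith
  have h3 := three_mod (Nat.find hex)
  obtain ⟨u, hu⟩ : ∃ u, 3 ^ (2 * Nat.find hex + 1) + 1 = 4 * (2 * u + 1) :=
    ⟨3 ^ (2 * Nat.find hex + 1) / 8, by omega⟩
  have h4 := PH_mono (PH_pow (PH_three (Nat.find hex)) i) h1
  have e : 2 ^ (i + 2) * (2 * u + 1) = 2 ^ i * (3 ^ (2 * Nat.find hex + 1) + 1) := by
    rw [hu]; ring
  refine ⟨u, by rw [e]; exact h4, ?_⟩
  rw [e, mul_add]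
  omega

theorem PH_big (v k : ℕ) (hk1 : v ≤ 2 ^ (k + 2)) (hk2 : 2 ^ k ≤ v) :
    ∀ j, j ≤ k → ∀ s, 10 * v * j ≤ 2 ^ (k - j + 2) * s → PH v (2 ^ (k - j + 2) * s) := by
  intro j
  induction j with
  | zero =>
    intro _ s _
    have := PH_mul (PH_mono (PH_pow PH_one (k + 2)) (by simpa using hk1)) s
    simpa [mul_comm] using this
  | succ j ih =>
    intro hj s hs
    have e : k - j + 2 = k - (j + 1) + 2 + 1 := by omega
    rcases Nat.even_or_odd' s with ⟨s', rfl | rfl⟩
    · have := ih (by omega) s' (by rw [e, pow_succ]; nlinarith)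
      rw [e, pow_succ, mul_assoc] at this
      exact this
    · obtain ⟨u, h1, h2⟩ := digit v (k - (j + 1)) (by
        have : 2 ^ (k - (j + 1)) * 2 ≤ 2 ^ k := by
          rw [← pow_succ]
          exact Nat.pow_le_pow_right (by norm_num) (by omega)
        omega)
      have hp : 0 < 2 ^ (k - (j + 1) + 2) := by positivity
      have h3 : u ≤ s' := by
        by_contra h
        have : 2 ^ (k - (j + 1) + 2) * (2 * s' + 1) < 2 ^ (k - (j + 1) + 2) * (2 * u + 1) :=
          Nat.mul_lt_mul_of_pos_left (by omega) hp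
        nlinarith
      obtain ⟨w, rfl⟩ := Nat.exists_eq_add_of_le h3
      have h4 := ih (by omega) w (by rw [e, pow_succ]; nlinarith)
      have h5 := PH_add h1 h4
      rw [e, pow_succ] at h5
      have e2 : 2 ^ (k - (j + 1) + 2) * (2 * (u + w) + 1)
          = 2 ^ (k - (j + 1) + 2) * (2 * u + 1) + 2 ^ (k - (j + 1) + 2) * 2 * w := by ring
      rw [e2]
      exact h5

theorem PH_two {v a i p b j q : ℕ} (hp : p.Prime) (hq : q.Prime) (hp4 : p % 4 = 3)
    (hq4 : q % 4 = 3) (h1 : v ≤ 2 ^ i * p) (h2 : v ≤ 2 ^ j * q)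
    (h : v * v = a * (2 ^ i * (p + 1)) + b * (2 ^ j * (q + 1))) : PH v (v * v) := by
  rw [h]
  exact PH_add (PH_mul (PH_mono (PH_pow (PH_prime p hp hp4) i) h1) a)
    (PH_mul (PH_mono (PH_pow (PH_prime q hq hq4) j) h2) b)

theorem ten_le (k : ℕ) (hk : 5 ≤ k) : 10 * k ≤ 2 ^ (k + 1) := by
  induction k, hk using Nat.le_induction with
  | base => norm_num
  | succ k hk ih => rw [pow_succ]; omega

theorem PH_sq (t : ℕ) (ht : 1 ≤ t) : PH (2 * t) (2 * t * (2 * t)) := by
  by_cases h : 33 ≤ t
  · obtain ⟨k, hk1, hk2⟩ : ∃ k, 2 ^ (k + 1) ≤ 2 * t ∧ 2 * t < 2 ^ (k + 2) := by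
      refine ⟨Nat.log 2 t, ?_, ?_⟩
      · have := Nat.pow_log_le_self 2 (show t ≠ 0 by omega)
        rw [pow_succ]; omega
      · have := Nat.lt_pow_succ_log_self (show 1 < 2 by norm_num) t
        rw [pow_succ]; omega
    have hk5 : 5 ≤ k := by
      by_contra h5
      have : 2 ^ (k + 2) ≤ 2 ^ 6 := Nat.pow_le_pow_right (by norm_num) (by omega)
      omega
    have h1 := ten_le k hk5
    have h2 := PH_big (2 * t) k hk2.le (by rw [pow_succ] at hk1; omega) k le_rfl (t * t) (by
      simp only [Nat.sub_self, zero_add]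
      nlinarith)
    simp only [Nat.sub_self, zero_add] at h2
    have e : 2 * t * (2 * t) = 2 ^ 2 * (t * t) := by ring
    rw [e]
    exact h2
  · have h' : t ≤ 32 := by omega
    interval_cases t
    · exact PH_two (a := 0) (i := 0) (p := 3) (b := 1) (j := 0) (q := 3) (by norm_num)
        (by norm_num) (by norm_num) (by norm_num) (by norm_num) (by norm_num) (by norm_num)
    · exact PH_two (a := 0) (i := 0) (p := 7) (b := 2) (j := 0) (q := 7) (by norm_num)
        (by norm_num) (by norm_num) (by norm_num) (by norm_num) (by norm_num) (by norm_num)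
    · exact PH_two (a := 0) (i := 0) (p := 7) (b := 3) (j := 0) (q := 11) (by norm_num)
        (by norm_num) (by norm_num) (by norm_num) (by norm_num) (by norm_num) (by norm_num)
    · exact PH_two (a := 0) (i := 0) (p := 11) (b := 4) (j := 1) (q := 7) (by norm_num)
        (by norm_num) (by norm_num) (by norm_num) (by norm_num) (by norm_num) (by norm_num)
    · exact PH_two (a := 3) (i := 0) (p := 11) (b := 4) (j := 1) (q := 7) (by norm_num)
        (by norm_num) (by norm_num) (by norm_num) (by norm_num) (by norm_num) (by norm_num)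
    · exact PH_two (a := 0) (i := 1) (p := 7) (b := 9) (j := 1) (q := 7) (by norm_num)
        (by norm_num) (by norm_num) (by norm_num) (by norm_num) (by norm_num) (by norm_num)
    · exact PH_two (a := 1) (i := 1) (p := 7) (b := 9) (j := 0) (q := 19) (by norm_num)
        (by norm_num) (by norm_num) (by norm_num) (by norm_num) (by norm_num) (by norm_num)
    · exact PH_two (a := 2) (i := 0) (p := 19) (b := 9) (j := 0) (q := 23) (by norm_num)
        (by norm_num) (by norm_num) (by norm_num) (by norm_num) (by norm_num) (by norm_num)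
    · exact PH_two (a := 3) (i := 0) (p := 19) (b := 11) (j := 0) (q := 23) (by norm_num)
        (by norm_num) (by norm_num) (by norm_num) (by norm_num) (by norm_num) (by norm_num)
    · exact PH_two (a := 2) (i := 0) (p := 23) (b := 11) (j := 0) (q := 31) (by norm_num)
        (by norm_num) (by norm_num) (by norm_num) (by norm_num) (by norm_num) (by norm_num)
    · exact PH_two (a := 0) (i := 0) (p := 23) (b := 11) (j := 0) (q := 43) (by norm_num)
        (by norm_num) (by norm_num) (by norm_num) (by norm_num) (by norm_num) (by norm_num)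
    · exact PH_two (a := 0) (i := 0) (p := 31) (b := 18) (j := 0) (q := 31) (by norm_num)
        (by norm_num) (by norm_num) (by norm_num) (by norm_num) (by norm_num) (by norm_num)
    · exact PH_two (a := 6) (i := 0) (p := 31) (b := 11) (j := 0) (q := 43) (by norm_num)
        (by norm_num) (by norm_num) (by norm_num) (by norm_num) (by norm_num) (by norm_num)
    · exact PH_two (a := 2) (i := 0) (p := 31) (b := 18) (j := 1) (q := 19) (by norm_num)
        (by norm_num) (by norm_num) (by norm_num) (by norm_num) (by norm_num) (by norm_num)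
    · exact PH_two (a := 2) (i := 0) (p := 31) (b := 19) (j := 0) (q := 43) (by norm_num)
        (by norm_num) (by norm_num) (by norm_num) (by norm_num) (by norm_num) (by norm_num)
    · exact PH_two (a := 8) (i := 1) (p := 19) (b := 16) (j := 0) (q := 43) (by norm_num)
        (by norm_num) (by norm_num) (by norm_num) (by norm_num) (by norm_num) (by norm_num)
    · exact PH_two (a := 8) (i := 1) (p := 19) (b := 19) (j := 0) (q := 43) (by norm_num)
        (by norm_num) (by norm_num) (by norm_num) (by norm_num) (by norm_num) (by norm_num)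
    · exact PH_two (a := 6) (i := 1) (p := 19) (b := 24) (j := 0) (q := 43) (by norm_num)
        (by norm_num) (by norm_num) (by norm_num) (by norm_num) (by norm_num) (by norm_num)
    · exact PH_two (a := 2) (i := 1) (p := 19) (b := 31) (j := 0) (q := 43) (by norm_num)
        (by norm_num) (by norm_num) (by norm_num) (by norm_num) (by norm_num) (by norm_num)
    · exact PH_two (a := 8) (i := 0) (p := 43) (b := 26) (j := 0) (q := 47) (by norm_num)
        (by norm_num) (by norm_num) (by norm_num) (by norm_num) (by norm_num) (by norm_num)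
    · exact PH_two (a := 3) (i := 0) (p := 43) (b := 34) (j := 0) (q := 47) (by norm_num)
        (by norm_num) (by norm_num) (by norm_num) (by norm_num) (by norm_num) (by norm_num)
    · exact PH_two (a := 3) (i := 0) (p := 47) (b := 28) (j := 1) (q := 31) (by norm_num)
        (by norm_num) (by norm_num) (by norm_num) (by norm_num) (by norm_num) (by norm_num)
    · exact PH_two (a := 3) (i := 0) (p := 47) (b := 29) (j := 0) (q := 67) (by norm_num)
        (by norm_num) (by norm_num) (by norm_num) (by norm_num) (by norm_num) (by norm_num)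
    · exact PH_two (a := 0) (i := 0) (p := 59) (b := 36) (j := 1) (q := 31) (by norm_num)
        (by norm_num) (by norm_num) (by norm_num) (by norm_num) (by norm_num) (by norm_num)
    · exact PH_two (a := 15) (i := 0) (p := 59) (b := 25) (j := 1) (q := 31) (by norm_num)
        (by norm_num) (by norm_num) (by norm_num) (by norm_num) (by norm_num) (by norm_num)
    · exact PH_two (a := 12) (i := 0) (p := 59) (b := 31) (j := 1) (q := 31) (by norm_num)
        (by norm_num) (by norm_num) (by norm_num) (by norm_num) (by norm_num) (by norm_num)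
    · exact PH_two (a := 7) (i := 0) (p := 59) (b := 39) (j := 1) (q := 31) (by norm_num)
        (by norm_num) (by norm_num) (by norm_num) (by norm_num) (by norm_num) (by norm_num)
    · exact PH_two (a := 0) (i := 0) (p := 59) (b := 49) (j := 1) (q := 31) (by norm_num)
        (by norm_num) (by norm_num) (by norm_num) (by norm_num) (by norm_num) (by norm_num)
    · exact PH_two (a := 7) (i := 0) (p := 59) (b := 46) (j := 1) (q := 31) (by norm_num)
        (by norm_num) (by norm_num) (by norm_num) (by norm_num) (by norm_num) (by norm_num)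
    · exact PH_two (a := 1) (i := 1) (p := 31) (b := 52) (j := 0) (q := 67) (by norm_num)
        (by norm_num) (by norm_num) (by norm_num) (by norm_num) (by norm_num) (by norm_num)
    · exact PH_two (a := 8) (i := 1) (p := 31) (b := 49) (j := 0) (q := 67) (by norm_num)
        (by norm_num) (by norm_num) (by norm_num) (by norm_num) (by norm_num) (by norm_num)
    · exact PH_two (a := 2) (i := 0) (p := 67) (b := 55) (j := 0) (q := 71) (by norm_num)
        (by norm_num) (by norm_num) (by norm_num) (by norm_num) (by norm_num) (by norm_num)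

end Pool.Agent.H23.PHad
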