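import Mathlib

set_option autoImplicit false
set_option maxSynthPendingDepth 3

namespace Pool.Agent.H23.PInv
open Matrix

/-- sum of reciprocal nonzero eigenvalues from a pseudo-inverse certificate -/
theorem pinv {n : Type} [Fintype n] [DecidableEq n] (C Z P : Matrix n n ℝ) (hC : C.IsHermitian)
    (hP : P.IsHermitian) (h1 : C * Z = 1 - P) (h2 : C * P = 0) (h3 : Z * P = 0)
    (h4 : P.trace = 1) :
    (0 : ℝ) ∉ C.charpoly.roots.erase 0 ∧
      ((C.charpoly.roots.erase 0).map fun x => x⁻¹).sum = Z.trace := by
  set U : Matrix n n ℝ := (hC.eigenvectorUnitary : Matrix n n ℝ) with hU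
  have u1 : star U * U = 1 := (Unitary.mem_iff.1 hC.eigenvectorUnitary.2).1
  have u2 : U * star U = 1 := (Unitary.mem_iff.1 hC.eigenvectorUnitary.2).2
  have hD : star U * C * U = diagonal hC.eigenvalues := by
    have := hC.conjStarAlgAut_star_eigenvectorUnitary
    rw [Unitary.conjStarAlgAut_star_apply] at this
    simpa using this
  have cj : ∀ A B : Matrix n n ℝ, (star U * A * U) * (star U * B * U) = star U * (A * B) * U := by
    intro A B
    calc (star U * A * U) * (star U * B * U) = star U * A * (U * star U) * B * U := by
          simp only [Matrix.mul_assoc]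
      _ = _ := by rw [u2]; simp only [Matrix.mul_assoc, Matrix.mul_one]
  have tr : ∀ A : Matrix n n ℝ, (star U * A * U).trace = A.trace := by
    intro A
    rw [Matrix.trace_mul_comm, ← Matrix.mul_assoc, u2, Matrix.one_mul]
  set W := star U * Z * U with hW
  set Q := star U * P * U with hQ
  have e1 : diagonal hC.eigenvalues * W = 1 - Q := by
    rw [← hD, cj, h1, Matrix.mul_sub, Matrix.sub_mul, Matrix.mul_one, u1]
  have e2 : diagonal hC.eigenvalues * Q = 0 := by rw [← hD, cj, h2]; simp
  have e3 : W * Q = 0 := by rw [cj, h3]; simp
  have e4 : ∀ i j, Q i j = Q j i := by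
    have : Q.IsHermitian := by
      have := Matrix.isHermitian_conjTranspose_mul_mul U hP
      exact this
    intro i j
    have := this.apply i j
    simpa using this.symm
  have key : ∀ i, W i i = (hC.eigenvalues i)⁻¹ ∧ Q i i = if hC.eigenvalues i = 0 then 1 else 0 := by
    intro i
    have f1 : ∀ j, hC.eigenvalues i * W i j = (1 : Matrix n n ℝ) i j - Q i j := by
      intro j
      have := congrFun (congrFun e1 i) j
      rwa [diagonal_mul] at this
    have f2 : hC.eigenvalues i * Q i i = 0 := by
      have := congrFun (congrFun e2 i) i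
      rwa [diagonal_mul] at this
    by_cases h0 : hC.eigenvalues i = 0
    · have g : ∀ j, Q j i = (1 : Matrix n n ℝ) j i := by
        intro j
        have := f1 j
        rw [h0, zero_mul] at this
        rw [e4, ← sub_eq_zero.1 this.symm, one_apply, one_apply]
        simp only [eq_comm]
      have := congrFun (congrFun e3 i) i
      rw [Matrix.mul_apply] at this
      simp only [g] at this
      rw [← Matrix.mul_apply, Matrix.mul_one] at this
      rw [if_pos h0, h0, g i]
      simpa using this
    · have g : Q i i = 0 := (mul_eq_zero.1 f2).resolve_left h0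
      rw [if_neg h0]
      refine ⟨?_, g⟩
      have := f1 i
      rw [g, one_apply_eq, sub_zero] at this
      exact eq_inv_of_mul_eq_one_right this
  rw [hC.roots_charpoly_eq_eigenvalues]
  have hm : (Multiset.map (RCLike.ofReal ∘ hC.eigenvalues) Finset.univ.val : Multiset ℝ) =
      Multiset.map hC.eigenvalues Finset.univ.val := rfl
  rw [hm]
  constructor
  · rw [← Multiset.count_eq_zero, Multiset.count_erase_self, Multiset.count_map]
    have : ((Finset.univ.filter fun i => hC.eigenvalues i = 0).card : ℝ) = 1 := by
      rw [← h4, ← tr P, Matrix.trace]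
      simp only [diag_apply]
      rw [Finset.sum_congr rfl fun i _ => (key i).2]
      simp
    have h5 : (Finset.univ.filter fun i => hC.eigenvalues i = 0).card = 1 := by exact_mod_cast this
    have h6 : (Multiset.filter (fun a => 0 = hC.eigenvalues a) Finset.univ.val).card = 1 := by
      rw [← h5]
      simp only [eq_comm (a := (0 : ℝ))]
      rfl
    omega
  · have : ∀ s : Multiset ℝ, ((s.erase 0).map fun x => x⁻¹).sum = (s.map fun x => x⁻¹).sum := by
      intro s
      by_cases h : (0 : ℝ) ∈ s
      · conv_rhs => rw [← Multiset.cons_erase h]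
        simp
      · rw [Multiset.erase_of_notMem h]
    rw [this, Multiset.map_map, ← tr Z, Matrix.trace]
    simp only [diag_apply]
    rw [Finset.sum_congr rfl fun i _ => (key i).1]
    rfl

end Pool.Agent.H23.PInv
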