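import Mathlib

set_option autoImplicit false
set_option maxSynthPendingDepth 3

namespace Pool.Agent.H23.Pac

open MeasureTheory ProbabilityTheory Finset

variable {Y Z : Type*} [MeasurableSpace Y] [MeasurableSpace Z]

def Test (φ : Y → ℝ) : Prop := Measurable φ ∧ ∀ y, 0 ≤ φ y ∧ φ y ≤ 1

def Dom (μ ν : Measure Y) (c e : ℝ) : Prop := ∀ φ, Test φ → ∫ y, φ y ∂μ ≤ c * ∫ y, φ y ∂ν + e

lemma Test.integrable {φ : Y → ℝ} (h : Test φ) (μ : Measure Y) [IsFiniteMeasure μ] :
    Integrable φ μ :=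
  Integrable.of_bound h.1.aestronglyMeasurable 1 (Filter.Eventually.of_forall fun y => by
    rw [Real.norm_of_nonneg (h.2 y).1]; exact (h.2 y).2)

lemma Test.int_nonneg {φ : Y → ℝ} (h : Test φ) (μ : Measure Y) : 0 ≤ ∫ y, φ y ∂μ :=
  integral_nonneg (fun y => (h.2 y).1)

lemma Test.int_le {φ : Y → ℝ} (h : Test φ) (μ : Measure Y) [IsProbabilityMeasure μ] :
    ∫ y, φ y ∂μ ≤ 1 := by
  have := integral_mono (h.integrable μ) (integrable_const (1 : ℝ)) (fun y => (h.2 y).2)
  simpa using this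

lemma dom_of_sets (μ ν : Measure Y) [IsFiniteMeasure μ] [IsFiniteMeasure ν] (e : ℝ)
    (h : ∀ A, MeasurableSet A → μ.real A ≤ ν.real A + e) : Dom μ ν 1 e := by
  intro φ hφ
  have h0 : ∀ κ : Measure Y, 0 ≤ᵐ[κ] φ := fun κ => Filter.Eventually.of_forall fun y => (hφ.2 y).1
  have h1 : ∀ κ : Measure Y, φ ≤ᵐ[κ] (fun _ => (1 : ℝ)) :=
    fun κ => Filter.Eventually.of_forall fun y => (hφ.2 y).2
  have hi : ∀ (κ : Measure Y) [IsFiniteMeasure κ],
      IntegrableOn (fun t => κ.real {a | t ≤ φ a}) (Set.Ioc (0 : ℝ) 1) := by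
    intro κ _
    have : AntitoneOn (fun t => κ.real {a | t ≤ φ a}) (Set.Icc (0 : ℝ) 1) :=
      fun s _ t _ hst => measureReal_mono (fun a ha => le_trans hst ha)
    exact (this.integrableOn_isCompact isCompact_Icc).mono_set Set.Ioc_subset_Icc_self
  rw [(hφ.integrable μ).integral_eq_integral_Ioc_meas_le (h0 μ) (h1 μ),
    (hφ.integrable ν).integral_eq_integral_Ioc_meas_le (h0 ν) (h1 ν), one_mul]
  have h2 := integral_mono (hi μ) ((hi ν).add (integrable_const e))
    (fun t => h _ (measurableSet_le measurable_const hφ.1))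
  simp only [Pi.add_apply] at h2
  rw [integral_add (hi ν) (integrable_const e)] at h2
  simpa using h2

lemma Dom.trans {μ ν κ : Measure Y} {c e e' : ℝ} (h : Dom μ ν c e) (h' : Dom ν κ 1 e')
    (hc : 0 ≤ c) : Dom μ κ c (e + c * e') := by
  intro φ hφ
  have h1 := h φ hφ
  have h2 := h' φ hφ
  nlinarith

lemma Dom.mono {μ ν : Measure Y} {c e e' : ℝ} (h : Dom μ ν c e) (he : e ≤ e') : Dom μ ν c e' :=
  fun φ hφ => (h φ hφ).trans (by linarith)

lemma Dom.prod {μ ν : Measure Y} {μ' ν' : Measure Z} [IsProbabilityMeasure μ]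
    [IsProbabilityMeasure ν] [IsProbabilityMeasure μ'] [IsProbabilityMeasure ν'] {c e c' e' : ℝ}
    (h : Dom μ ν c e) (h' : Dom μ' ν' c' e') (hc : 0 ≤ c) (hc' : 0 ≤ c') (he' : 0 ≤ e') :
    Dom (μ.prod μ') (ν.prod ν') (c * c') (e + e') := by
  intro φ hφ
  have hs : ∀ y, Test (fun z => φ (y, z)) := fun y =>
    ⟨hφ.1.comp measurable_prodMk_left, fun z => hφ.2 _⟩
  have hm : ∀ (κ : Measure Z) [IsProbabilityMeasure κ], Test (fun y => ∫ z, φ (y, z) ∂κ) :=
    fun κ _ => ⟨hφ.1.stronglyMeasurable.integral_prod_right'.measurable,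
      fun y => ⟨(hs y).int_nonneg κ, (hs y).int_le κ⟩⟩
  have ht : Test (fun y => min (c' * ∫ z, φ (y, z) ∂ν') 1) :=
    ⟨((hm ν').1.const_mul c').min measurable_const,
      fun y => ⟨le_min (mul_nonneg hc' ((hm ν').2 y).1) zero_le_one, min_le_right _ _⟩⟩
  rw [integral_prod _ (hφ.integrable _), integral_prod _ (hφ.integrable _)]
  have h1 := integral_mono ((hm μ').integrable μ) ((ht.integrable μ).add (integrable_const e'))
    (fun y => by
      have h2 := h' _ (hs y)
      have h3 := ((hm μ').2 y).2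
      simp only [Pi.add_apply]
      rcases min_choice (c' * ∫ z, φ (y, z) ∂ν') 1 with h4 | h4 <;> rw [h4] <;> linarith)
  simp only [Pi.add_apply] at h1
  rw [integral_add (ht.integrable μ) (integrable_const e')] at h1
  have h4 := h _ ht
  have h5 := integral_mono (ht.integrable ν) (((hm ν').integrable ν).const_mul c')
    (fun y => min_le_left _ _)
  rw [integral_const_mul] at h5
  simp only [integral_const, probReal_univ, smul_eq_mul, one_mul] at h1
  nlinarith

lemma Dom.pi {μ ν : Measure Y} [IsProbabilityMeasure μ] [IsProbabilityMeasure ν] {c e : ℝ}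
    (h : Dom μ ν c e) (hc : 0 ≤ c) (he : 0 ≤ e) (m : ℕ) :
    Dom (Measure.pi fun _ : Fin m => μ) (Measure.pi fun _ : Fin m => ν) (c ^ m) (m * e) := by
  induction m with
  | zero =>
    intro φ hφ
    rw [Measure.pi_of_empty, Measure.pi_of_empty]; simp
  | succ m ih =>
    intro φ hφ
    have h1 := h.prod ih hc (pow_nonneg hc m) (by positivity)
      (fun q => φ ((MeasurableEquiv.piFinSuccAbove (fun _ => Y) 0).symm q))
      ⟨hφ.1.comp (MeasurableEquiv.measurable _), fun q => hφ.2 _⟩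
    rw [((measurePreserving_piFinSuccAbove (fun _ : Fin (m + 1) => μ) 0).symm).integral_comp',
      ((measurePreserving_piFinSuccAbove (fun _ : Fin (m + 1) => ν) 0).symm).integral_comp'] at h1
    push_cast
    rw [pow_succ']
    linarith

lemma weight (μ ν : Measure Y) [IsProbabilityMeasure μ] [IsProbabilityMeasure ν] (K : ℝ)
    (hK : 0 < K) : ∃ V : Y → ℝ, Test V ∧
      (∀ B, MeasurableSet B → K * ∫ y, B.indicator V y ∂ν ≤ μ.real B) ∧
      ∀ e, Dom μ ν K e → 1 - e ≤ K * ∫ y, V y ∂ν := by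
  let r : Y → ℝ := fun y => (μ.rnDeriv ν y).toReal
  have hr : Measurable r := (Measure.measurable_rnDeriv μ ν).ennreal_toReal
  have hV : Test (fun y => min (r y / K) 1) :=
    ⟨(hr.div_const K).min measurable_const, fun y =>
      ⟨le_min (div_nonneg ENNReal.toReal_nonneg hK.le) zero_le_one, min_le_right _ _⟩⟩
  have hri : Integrable r ν := Measure.integrable_toReal_rnDeriv
  refine ⟨_, hV, fun B hB => ?_, fun e he => ?_⟩
  · rw [integral_indicator hB, ← integral_const_mul]
    refine le_trans (integral_mono ((hV.integrable _).const_mul K) hri.integrableOn (fun y => ?_))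
      (Measure.setIntegral_toReal_rnDeriv_le (measure_ne_top _ _))
    calc K * min (r y / K) 1 ≤ K * (r y / K) := by gcongr; exact min_le_left _ _
      _ = r y := mul_div_cancel₀ _ hK.ne'
  · obtain ⟨s, hs, hs1, hs2⟩ := Measure.mutuallySingular_singularPart μ ν
    let A : Set Y := {y | r y ≤ K} ∩ s
    have hA : MeasurableSet A := (measurableSet_le hr measurable_const).inter hs
    have h1 : μ.real A = ∫ y in A, r y ∂ν := by
      rw [Measure.setIntegral_toReal_rnDeriv_eq_withDensity' hA]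
      conv_lhs => rw [← Measure.rnDeriv_add_singularPart μ ν]
      rw [measureReal_add_apply, show (μ.singularPart ν).real A = 0 by
        rw [measureReal_eq_zero_iff]; exact measure_mono_null Set.inter_subset_right hs1, add_zero]
    have h2 := he (Aᶜ.indicator 1) ⟨measurable_one.indicator hA.compl, fun y => by
      by_cases hy : y ∈ Aᶜ <;> simp [hy]⟩
    rw [integral_indicator_one hA.compl, integral_indicator_one hA.compl] at h2
    have h3 : μ.real A + μ.real Aᶜ = 1 := by
      rw [measureReal_add_measureReal_compl hA, probReal_univ]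
    have h4 : ∫ y in A, r y ∂ν = K * ∫ y in A, min (r y / K) 1 ∂ν := by
      rw [← integral_const_mul]
      refine setIntegral_congr_fun hA (fun y hy => ?_)
      rw [min_eq_left ((div_le_one hK).2 hy.1), mul_div_cancel₀ _ hK.ne']
    have h5 : ν.real Aᶜ = ∫ y in Aᶜ, min (r y / K) 1 ∂ν := by
      rw [setIntegral_congr_ae hA.compl (g := fun _ => 1)]
      · simp
      · filter_upwards [measure_eq_zero_iff_ae_notMem.1 hs2] with y hy hyA
        have hys : y ∈ s := not_not.1 hy
        have : ¬ r y ≤ K := fun hh => hyA ⟨hh, hys⟩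
        exact min_eq_right ((one_le_div hK).2 (not_le.1 this).le)
    rw [← integral_add_compl hA (hV.integrable ν), mul_add, ← h4, ← h5]
    linarith

noncomputable def emp {T : ℕ} (φ : Y → ℝ) (y : Fin T → Y) : ℝ := (∑ t, φ (y t)) / T

lemma lln (ν : Measure Y) [IsProbabilityMeasure ν] {φ : Y → ℝ} (hφ : Test φ) {T : ℕ} (hT : 0 < T)
    {s : ℝ} (hs : 0 < s) : Measure.pi (fun _ : Fin T => ν) {y | s ≤ |emp φ y - ∫ z, φ z ∂ν|}
      ≤ ENNReal.ofReal (1 / (T * s ^ 2)) := by
  have hT' : (0 : ℝ) < T := by exact_mod_cast hT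
  have hL : MemLp φ 2 ν := MemLp.of_bound hφ.1.aestronglyMeasurable 1
    (Filter.Eventually.of_forall fun y => by rw [Real.norm_of_nonneg (hφ.2 y).1]; exact (hφ.2 y).2)
  have hL' : ∀ t : Fin T, MemLp (fun ω : Fin T → Y => φ (ω t)) 2 (Measure.pi fun _ => ν) :=
    fun t => hL.comp_measurePreserving (measurePreserving_eval (fun _ : Fin T => ν) t)
  have h1 := meas_ge_le_variance_div_sq (μ := Measure.pi fun _ : Fin T => ν)
    (memLp_finsetSum' univ (fun t _ => hL' t)) (show 0 < T * s by positivity)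
  rw [variance_sum_pi (X := fun _ => φ) (fun _ => hL)] at h1
  have h2 : ∫ ω, (∑ t, fun ω : Fin T → Y => φ (ω t)) ω ∂(Measure.pi fun _ => ν)
      = T * ∫ z, φ z ∂ν := by
    simp only [Finset.sum_apply]
    rw [integral_finsetSum _ (fun t _ => (hL' t).integrable one_le_two)]
    have : ∀ t : Fin T, ∫ ω, φ (ω t) ∂(Measure.pi fun _ : Fin T => ν) = ∫ z, φ z ∂ν := fun t =>
      integral_comp_eval hφ.1.aestronglyMeasurable
    simp [this]
  rw [h2] at h1
  refine le_trans (measure_mono (fun y hy => ?_)) (h1.trans (ENNReal.ofReal_le_ofReal ?_))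
  · simp only [Set.mem_ofPred_eq, Finset.sum_apply, emp] at hy ⊢
    have : ∑ t, φ (y t) - T * ∫ z, φ z ∂ν = T * ((∑ t, φ (y t)) / T - ∫ z, φ z ∂ν) := by
      field_simp
    rw [this, abs_mul, abs_of_pos hT']
    gcongr
  · have h3 := variance_le_sq_of_bounded (μ := ν) (a := 0) (b := 1) (X := φ)
      (Filter.Eventually.of_forall fun y => hφ.2 y) hφ.1.aemeasurable
    simp only [sum_const, card_univ, Fintype.card_fin, nsmul_eq_mul]
    rw [div_le_div_iff₀ (by positivity) (by positivity)]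
    have : 0 < (T : ℝ) * (T * s ^ 2) := by positivity
    nlinarith

lemma blocks (Q : Measure Y) [IsProbabilityMeasure Q] {T m n : ℕ} (g : Fin T → Fin m → Fin n)
    (hg : Function.Injective (fun p : (_ : Fin T) × Fin m => g p.1 p.2)) (S : Set (Fin T → Fin m → Y)) :
    Measure.pi (fun _ : Fin n => Q) {x | (fun t k => x (g t k)) ∈ S} ≤
      Measure.pi (fun _ : Fin T => Measure.pi fun _ : Fin m => Q) S := by
  have h1 := ((iIndepFun_pi (μ := fun _ : Fin n => Q) (X := fun _ => id)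
    (fun _ => aemeasurable_id)).precomp hg).map_fun_eq_pi_map
    (fun p => (measurable_pi_apply _).aemeasurable)
  have h2 : ∀ i : Fin n, (Measure.pi fun _ : Fin n => Q).map (fun ω => ω i) = Q := fun i =>
    (measurePreserving_eval (fun _ : Fin n => Q) i).map_eq
  simp only [h2] at h1
  have h3 := Measure.infinitePi_map_piCurry (X := fun (_ : Fin T) (_ : Fin m) => Y) (fun _ _ => Q)
  simp only [Measure.infinitePi_eq_pi] at h3
  rw [← h3, ← h1, Measure.map_map (MeasurableEquiv.measurable _) (by fun_prop)]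
  exact Measure.le_map_apply (Measurable.aemeasurable
    ((MeasurableEquiv.measurable _).comp (by fun_prop))) S

theorem core {ι α : Type*} [Fintype ι] [Fintype α] (μ : ι → Measure Y) (ν' : α → Measure Y)
    [∀ i, IsProbabilityMeasure (μ i)] [∀ a, IsProbabilityMeasure (ν' a)] (K η δ : ℝ)
    (hK : 0 < K) (hη : 0 < η) (hKη : K * η ≤ 1 / 100) (hδ : 0 < δ) :
    ∃ (T : ℕ) (sel : (Fin T → Y) → α → Prop) (I : ι → α → Prop) (V : ι → α → Y → ℝ),
      (∀ i a y, 0 ≤ V i a y) ∧
      ∀ (ν : Measure Y) [IsProbabilityMeasure ν], (∃ a, Dom (ν' a) ν 1 η ∧ Dom ν (ν' a) 1 η) →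
        ∀ B : ι → Set Y, (∀ i, μ i (B i) ≤ ENNReal.ofReal (1 / 8)) →
          Measure.pi (fun _ : Fin T => ν) {y | ¬ ((∃ a, sel y a) ∧ ∀ a, sel y a → ∀ i,
            (Dom (μ i) ν K (1 / 4) → I i a) ∧ (I i a →
              2 * ∑ t, (B i).indicator (V i a) (y t) < ∑ t, V i a (y t)))} ≤ ENNReal.ofReal δ := by
  classical
  have hsch : ∀ a b, ∃ ψ, Test ψ ∧ ∀ φ, Test φ → ∫ y, φ y ∂ν' a - ∫ y, φ y ∂ν' b
      ≤ ∫ y, ψ y ∂ν' a - ∫ y, ψ y ∂ν' b + η := by
    intro a b
    let D : Set ℝ := {r | ∃ φ, Test φ ∧ r = ∫ y, φ y ∂ν' a - ∫ y, φ y ∂ν' b}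
    have hb : BddAbove D := ⟨1, by
      rintro _ ⟨φ, hφ, rfl⟩
      linarith [hφ.int_le (ν' a), hφ.int_nonneg (ν' b)]⟩
    have hne : D.Nonempty := ⟨_, fun _ => 0, ⟨measurable_const, fun _ => by simp⟩, rfl⟩
    obtain ⟨_, ⟨ψ, hψ, rfl⟩, h⟩ := exists_lt_of_lt_csSup hne (show sSup D - η < sSup D by linarith)
    exact ⟨ψ, hψ, fun φ hφ => by linarith [le_csSup hb ⟨φ, hφ, rfl⟩]⟩
  choose ψ hψ hψ' using hsch
  choose V hV hV1 hV2 using fun i a => weight (μ i) (ν' a) K hK
  let J := (α × α) ⊕ (ι × α) ⊕ (ι × α)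
  obtain ⟨T, hT⟩ := exists_nat_gt (Fintype.card J / (η ^ 2 * δ))
  have hT0 : (0 : ℝ) < T := lt_of_le_of_lt (by positivity) hT
  refine ⟨T, fun y a => ∀ b c, |∫ z, ψ b c z ∂ν' a - emp (ψ b c) y| ≤ 2 * η,
    fun i a => 1 / 2 ≤ K * ∫ y, V i a y ∂ν' a, V, fun i a y => ((hV i a).2 y).1, ?_⟩
  rintro ν _ ⟨a0, h1, h2⟩ B hB
  let B' : ι → Set Y := fun i => toMeasurable (μ i) (B i)
  have hB' : ∀ i a, Test ((B' i).indicator (V i a)) := fun i a =>
    ⟨(hV i a).1.indicator (measurableSet_toMeasurable _ _), fun y => by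
      by_cases hy : y ∈ B' i
      · simpa [hy] using (hV i a).2 y
      · simp [hy]⟩
  let Φ : J → Y → ℝ := Sum.elim (fun p => ψ p.1 p.2)
    (Sum.elim (fun p => V p.1 p.2) (fun p => (B' p.1).indicator (V p.1 p.2)))
  have hΦ : ∀ j, Test (Φ j) := by
    rintro (p | p | p)
    exacts [hψ _ _, hV _ _, hB' _ _]
  refine le_trans (measure_mono (t := ⋃ j, {y | η ≤ |emp (Φ j) y - ∫ z, Φ j z ∂ν|}) ?_) ?_
  · intro y hy
    by_contra hc
    apply hy
    simp only [Set.mem_iUnion, Set.mem_ofPred_eq, not_exists, not_le] at hc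
    have hs0 : ∀ b c, |∫ z, ψ b c z ∂ν' a0 - emp (ψ b c) y| ≤ 2 * η := by
      intro b c
      have h3 := abs_lt.1 (hc (Sum.inl (b, c)))
      have h4 := h1 _ (hψ b c)
      have h5 := h2 _ (hψ b c)
      simp only [Φ, Sum.elim_inl] at h3
      rw [abs_le]; constructor <;> linarith [h3.1, h3.2]
    refine ⟨⟨a0, hs0⟩, fun a ha i => ?_⟩
    have d1 : Dom (ν' a) ν 1 (6 * η) := by
      intro φ hφ
      have h3 := hψ' a a0 φ hφ
      have h4 := abs_le.1 (ha a a0)
      have h5 := abs_le.1 (hs0 a a0)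
      have h6 := h1 φ hφ
      linarith [h4.1, h4.2, h5.1, h5.2]
    have d2 : Dom ν (ν' a) 1 (6 * η) := by
      intro φ hφ
      have h3 := hψ' a0 a φ hφ
      have h4 := abs_le.1 (ha a0 a)
      have h5 := abs_le.1 (hs0 a0 a)
      have h6 := h2 φ hφ
      linarith [h4.1, h4.2, h5.1, h5.2]
    refine ⟨fun hd => ?_, fun hI => ?_⟩
    · have := hV2 i a _ (hd.trans d2 hK.le)
      linarith
    · have h3 := (abs_lt.1 (hc (Sum.inr (Sum.inl (i, a))))).1
      have h4 := (abs_lt.1 (hc (Sum.inr (Sum.inr (i, a))))).2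
      simp only [Φ, Sum.elim_inl, Sum.elim_inr] at h3 h4
      have h5 := d1 _ (hV i a)
      have h6 := d2 _ (hB' i a)
      have h7 := hV1 i a (B' i) (measurableSet_toMeasurable _ _)
      have h8 : (μ i).real (B' i) ≤ 1 / 8 := by
        rw [measureReal_def, measure_toMeasurable]
        exact ENNReal.toReal_le_of_le_ofReal (by norm_num) (hB i)
      have h9 : ∑ t, (B i).indicator (V i a) (y t) ≤ ∑ t, (B' i).indicator (V i a) (y t) :=
        sum_le_sum (fun t _ => Set.indicator_le_indicator_of_subset (subset_toMeasurable _ _)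
          (fun z => ((hV i a).2 z).1) _)
      have h10 : 2 * emp ((B' i).indicator (V i a)) y < emp (V i a) y := by
        have : K * (2 * emp ((B' i).indicator (V i a)) y) < K * emp (V i a) y := by nlinarith
        exact lt_of_mul_lt_mul_left this hK.le
      rw [emp, emp, ← mul_div_assoc, div_lt_div_iff_of_pos_right hT0] at h10
      linarith
  · refine (measure_iUnion_fintype_le _ _).trans ?_
    refine (sum_le_sum (fun j _ => lln ν (hΦ j) (by exact_mod_cast hT0) hη)).trans ?_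
    rw [sum_const, card_univ, nsmul_eq_mul, ← ENNReal.ofReal_natCast,
      ← ENNReal.ofReal_mul (Nat.cast_nonneg _)]
    refine ENNReal.ofReal_le_ofReal ?_
    rw [div_lt_iff₀ (by positivity)] at hT
    rw [mul_one_div, div_le_iff₀ (by positivity)]
    nlinarith

end Pool.Agent.H23.Pac
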