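import Mathlib

set_option autoImplicit false
set_option maxSynthPendingDepth 3

namespace Pool.Agent.H23.Pat
open Finset

noncomputable def force (x : ℕ) (f : ℕ → Bool) : Bool :=
  Nat.rec (motive := fun _ => Bool) (f 0) (fun i _ => f (Nat.succ i)) x
noncomputable def orr (a b : Bool) : Bool := Bool.rec b true a
noncomputable def andd (a b : Bool) : Bool := Bool.rec false b a
noncomputable def cnd (c a b : Bool) : Bool := Bool.rec b a c
lemma force_eq (x : ℕ) (f : ℕ → Bool) : force x f = f x := by cases x <;> rfl
lemma orr_eq (a b : Bool) : orr a b = (a || b) := by cases a <;> rfl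
lemma andd_eq (a b : Bool) : andd a b = (a && b) := by cases a <;> rfl
lemma cnd_eq (c a b : Bool) : cnd c a b = if c then a else b := by cases c <;> rfl

def row (s u : ℕ) : ℕ := Nat.mod (Nat.shiftRight s (Nat.add 64 (Nat.mul 14 u))) 16384
def pc (x : ℕ) : ℕ := Nat.mod (Nat.land (Nat.mul x 35185445863425) 76861433640456465) 15
def salt (i j : ℕ) : ℕ :=
  Nat.mod (Nat.mul (Nat.pow (Nat.add (Nat.add (Nat.mul 14 i) j) 77) 5) 11400714819323198485)
    18446744073709551616
def upd (s i j : ℕ) : ℕ :=
  Nat.xor (Nat.lor s (Nat.lor (Nat.shiftLeft 1 (Nat.add (Nat.add 64 (Nat.mul 14 i)) j))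
    (Nat.shiftLeft 1 (Nat.add (Nat.add 64 (Nat.mul 14 j)) i)))) (salt i j)
noncomputable def mem (T : List ℕ) (x : ℕ) : Bool :=
  List.rec (motive := fun _ => Bool) false (fun y _ ih => orr (Nat.beq x y) ih) T

noncomputable def noTake (s i j ri rj pi pj : ℕ) : Bool :=
  orr (Nat.ble 5 pi) (orr (Nat.ble 5 pj) (orr (Nat.ble 1 (Nat.land ri rj))
    (orr (andd (Nat.ble (Nat.add i 2) j)
        (Nat.beq (Nat.mod (Nat.xor rj (row s (Nat.sub j 1))) (Nat.shiftLeft 2 i)) 0))
      (andd (Nat.ble 1 i)
        (Nat.beq (Nat.lor (Nat.mod (Nat.xor ri (row s (Nat.sub i 1))) (Nat.shiftLeft 2 j))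
          (Nat.shiftLeft 3 (Nat.sub i 1))) (Nat.shiftLeft 3 (Nat.sub i 1)))))))

noncomputable def noSkip (i j pi pj : ℕ) : Bool :=
  orr (Nat.ble (Nat.add pi 9) j) (Nat.ble (Nat.add pj 8) i)

noncomputable def step (T : List ℕ) (r : ℕ → ℕ → ℕ → Bool) (i j s : ℕ) : Bool :=
  cnd (Nat.ble 13 i) (force (Nat.shiftRight s 64) (mem T))
    (cnd (Nat.ble 14 j) (force (Nat.add i 1) fun i' => force (Nat.add i 2) fun j' => r i' j' s)
      (force (row s i) fun ri => force (row s j) fun rj => force (pc ri) fun pi =>
        force (pc rj) fun pj => force (Nat.add j 1) fun j' =>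
          andd (orr (noTake s i j ri rj pi pj) (force (upd s i j) fun s' => r i j' s'))
            (orr (noSkip i j pi pj) (r i j' s))))

noncomputable def go (T : List ℕ) (n : ℕ) : ℕ → ℕ → ℕ → Bool :=
  Nat.rec (motive := fun _ => ℕ → ℕ → ℕ → Bool) (fun _ _ _ => false) (fun _ r => step T r) n

lemma mem_iff (T : List ℕ) (x : ℕ) (h : mem T x = true) : x ∈ T := by
  induction T with
  | nil => exact absurd h (by simp [mem])
  | cons y T ih =>
    have : mem (y :: T) x = orr (Nat.beq x y) (mem T x) := rfl
    rw [this, orr_eq, Bool.or_eq_true] at h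
    rcases h with h | h
    · rw [Nat.eq_of_beq_eq_true h]; exact List.mem_cons_self
    · exact List.mem_cons_of_mem _ (ih h)

lemma row_bit (s u v : ℕ) : (row s u).testBit v = (decide (v < 14) && s.testBit (64 + 14 * u + v)) := by
  have : row s u = (s >>> (64 + 14 * u)) % 2 ^ 14 := rfl
  rw [this, Nat.testBit_mod_two_pow, Nat.testBit_shiftRight]

lemma row_lt (s u : ℕ) : row s u < 16384 := Nat.mod_lt _ (by norm_num)

def pcs (x : ℕ) : ℕ := ((List.range 14).map fun v => if x.testBit v then 1 else 0).sum

set_option maxRecDepth 100000 in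
lemma pc_all : (List.range 16384).all (fun x => Nat.beq (pc x) (pcs x)) = true := by
  decide +kernel

lemma pc_eq (x : ℕ) (hx : x < 16384) :
    pc x = (univ.filter fun v : Fin 14 => x.testBit v = true).card := by
  have := List.all_eq_true.1 pc_all x (List.mem_range.2 hx)
  rw [Nat.eq_of_beq_eq_true this, Finset.card_filter, Fin.sum_univ_eq_sum_range
    (fun v => if x.testBit v = true then 1 else 0) 14]
  rfl

lemma upd_bit (s i j k : ℕ) : (upd s i j).testBit (64 + k) =
    (s.testBit (64 + k) || (decide (k = 14 * i + j) || decide (k = 14 * j + i))) := by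
  have e : upd s i j = (s ||| (1 <<< (64 + 14 * i + j) ||| 1 <<< (64 + 14 * j + i))) ^^^ salt i j :=
    rfl
  have hs : (salt i j).testBit (64 + k) = false := by
    apply Nat.testBit_lt_two_pow
    calc salt i j < 2 ^ 64 := Nat.mod_lt _ (by norm_num)
      _ ≤ 2 ^ (64 + k) := Nat.pow_le_pow_right (by norm_num) (by omega)
  rw [e, Nat.testBit_xor, hs, Nat.testBit_or, Nat.testBit_or, Nat.one_shiftLeft, Nat.one_shiftLeft,
    Nat.testBit_two_pow, Nat.testBit_two_pow, Bool.xor_false]
  congr 2 <;> (apply decide_eq_decide.2; omega)

structure Good (a : Fin 14 → Fin 14 → Bool) : Prop where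
  symm : ∀ u v, a u v = a v u
  irr : ∀ u, a u u = false
  deg : ∀ u, (univ.filter fun v => a u v = true).card = 5
  tri : ∀ u v w, a u v = true → a u w = true → a v w = true → False
  lex : ∀ x y w : Fin 14, y.1 = x.1 + 1 → w ≠ x → w ≠ y →
    (∀ t, t < w → t ≠ x → t ≠ y → a x t = a y t) → a y w = true → a x w = true

def Inv (a : Fin 14 → Fin 14 → Bool) (i j s : ℕ) : Prop :=
  ∀ u v : Fin 14, s.testBit (64 + 14 * u + v) =
    (a u v && decide (min u.1 v.1 < i ∨ (min u.1 v.1 = i ∧ max u.1 v.1 < j)))

lemma step_ok {a : Fin 14 → Fin 14 → Bool} (g : Good a) (T : List ℕ) (r : ℕ → ℕ → ℕ → Bool)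
    (hr : ∀ i j s, r i j s = true → i < j → Inv a i j s →
      ∃ p ∈ T, ∀ u v : Fin 14, p.testBit (14 * u + v) = a u v)
    (i j s : ℕ) (h : step T r i j s = true) (hij : i < j) (hI : Inv a i j s) :
    ∃ p ∈ T, ∀ u v : Fin 14, p.testBit (14 * u + v) = a u v := by
  simp only [step, cnd_eq, force_eq, Nat.ble_eq, andd_eq, orr_eq] at h
  by_cases h13 : 13 ≤ i
  · rw [if_pos h13] at h
    refine ⟨_, mem_iff _ _ h, fun u v => ?_⟩
    have e : Nat.shiftRight s 64 = s >>> 64 := rfl
    rw [e, Nat.testBit_shiftRight, ← Nat.add_assoc, hI u v]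
    by_cases huv : u = v
    · subst huv; simp [g.irr]
    · have : u.1 ≠ v.1 := fun h => huv (Fin.ext h)
      have h1 := u.2
      have h2 := v.2
      rw [decide_eq_true (by omega), Bool.and_true]
  rw [if_neg h13] at h
  by_cases h14 : 14 ≤ j
  · rw [if_pos h14] at h
    refine hr _ _ _ h (by simp) fun u v => ?_
    rw [hI u v]
    by_cases huv : u = v
    · subst huv; simp [g.irr]
    · have : u.1 ≠ v.1 := fun h => huv (Fin.ext h)
      have h1 := u.2
      have h2 := v.2
      congr 1
      apply decide_eq_decide.2
      simp only [Nat.add_eq]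
      omega
  rw [if_neg h14, Bool.and_eq_true, Bool.or_eq_true, Bool.or_eq_true] at h
  obtain ⟨hT, hS⟩ := h
  have rb : ∀ u v : Fin 14, (row s u).testBit v =
      (a u v && decide (min u.1 v.1 < i ∨ (min u.1 v.1 = i ∧ max u.1 v.1 < j))) := by
    intro u v
    rw [row_bit, hI u v, decide_eq_true v.2, Bool.true_and]
  let I : Fin 14 := ⟨i, by omega⟩
  let J : Fin 14 := ⟨j, by omega⟩
  have rI : ∀ v : Fin 14, (row s i).testBit v = (a I v && decide (v.1 < j)) := by
    intro v
    refine (rb I v).trans ?_
    congr 1
    apply decide_eq_decide.2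
    simp only [I]; omega
  have rJ : ∀ v : Fin 14, (row s j).testBit v = (a J v && decide (v.1 < i)) := by
    intro v
    refine (rb J v).trans ?_
    congr 1
    apply decide_eq_decide.2
    simp only [J]; omega
  cases hA : a I J with
  | true =>
    have hJI : a J I = true := (g.symm J I).trans hA
    rcases hT with hT | hT
    · exfalso
      simp only [noTake, orr_eq, andd_eq, Bool.or_eq_true, Bool.and_eq_true, Nat.ble_eq,
        Nat.beq_eq, Nat.add_eq, Nat.sub_eq] at hT
      rcases hT with h | h | h | h | h
      · rw [pc_eq _ (row_lt _ _)] at h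
        have : (univ.filter fun v : Fin 14 => (row s i).testBit v = true) ⊆
            (univ.filter fun v => a I v = true).erase J := by
          intro v hv
          simp only [mem_filter, mem_univ, true_and, rI, Bool.and_eq_true, decide_eq_true_eq] at hv
          simp only [mem_erase, mem_filter, mem_univ, true_and]
          exact ⟨fun e => by rw [e] at hv; exact lt_irrefl _ hv.2, hv.1⟩
        have h2 := card_le_card this
        rw [card_erase_of_mem (by simp [hA]), g.deg] at h2
        omega
      · rw [pc_eq _ (row_lt _ _)] at h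
        have : (univ.filter fun v : Fin 14 => (row s j).testBit v = true) ⊆
            (univ.filter fun v => a J v = true).erase I := by
          intro v hv
          simp only [mem_filter, mem_univ, true_and, rJ, Bool.and_eq_true, decide_eq_true_eq] at hv
          simp only [mem_erase, mem_filter, mem_univ, true_and]
          exact ⟨fun e => by rw [e] at hv; exact lt_irrefl _ hv.2, hv.1⟩
        have h2 := card_le_card this
        rw [card_erase_of_mem (by simp [hJI]), g.deg] at h2
        omega
      · have h0 : row s i &&& row s j ≠ 0 := by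
          have : Nat.land (row s i) (row s j) = row s i &&& row s j := rfl
          omega
        obtain ⟨v, hv⟩ := Nat.exists_testBit_of_ne_zero h0
        rw [Nat.testBit_and, Bool.and_eq_true] at hv
        have hv14 : v < 14 := by
          have := hv.1
          rw [row_bit, Bool.and_eq_true] at this
          exact of_decide_eq_true this.1
        have h1 := rI ⟨v, hv14⟩
        have h2 := rJ ⟨v, hv14⟩
        simp only [hv.1, hv.2] at h1 h2
        exact g.tri I J ⟨v, hv14⟩ hA (Bool.and_eq_true_iff.1 h1.symm).1
          (Bool.and_eq_true_iff.1 h2.symm).1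
      · obtain ⟨h1, h2⟩ := h
        let K : Fin 14 := ⟨j - 1, by omega⟩
        have e : (row s j ^^^ row s (j - 1)) % 2 ^ (i + 1) = 0 := by
          have : Nat.shiftLeft 2 i = 2 ^ (i + 1) := by
            show 2 <<< i = _
            rw [Nat.shiftLeft_eq, pow_succ, mul_comm]
          rw [this] at h2
          exact h2
        have eb : ∀ t : Fin 14, t.1 ≤ i → (a J t && decide (t.1 < i)) = a K t := by
          intro t ht
          have := congrArg (fun z => z.testBit t) e
          simp only [Nat.testBit_mod_two_pow, Nat.testBit_xor, Nat.zero_testBit,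
            decide_eq_true (Nat.lt_succ_of_le ht), Bool.true_and] at this
          rw [rJ, rb K t, decide_eq_true (p := min K.1 t.1 < i ∨ _) (by simp only [K]; omega),
            Bool.and_true] at this
          simpa using this
        have := g.lex K J I (by simp only [K, J]; omega) (by simp [I, K, Fin.ext_iff]; omega)
          (by simp [I, J, Fin.ext_iff]; omega) (fun t ht _ _ => by
            have ht' : t.1 < i := ht
            rw [← eb t ht'.le, decide_eq_true ht', Bool.and_true]) hJI
        rw [← eb I le_rfl] at this
        simp [I] at this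
      · obtain ⟨h1, h2⟩ := h
        let K : Fin 14 := ⟨i - 1, by omega⟩
        have e : (row s i ^^^ row s (i - 1)) % 2 ^ (j + 1) ||| 3 <<< (i - 1) = 3 <<< (i - 1) := by
          have : Nat.shiftLeft 2 j = 2 ^ (j + 1) := by
            show 2 <<< j = _
            rw [Nat.shiftLeft_eq, pow_succ, mul_comm]
          rw [this] at h2
          exact h2
        have eb : ∀ t : Fin 14, t.1 ≤ j → t ≠ K → t ≠ I →
            (a I t && decide (t.1 < j)) = a K t := by
          intro t ht h3 h4
          have h5 : t.1 ≠ i - 1 := fun h => h3 (Fin.ext h)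
          have h6 : t.1 ≠ i := fun h => h4 (Fin.ext h)
          have z : (3 <<< (i - 1)).testBit t = false := by
            rw [Nat.testBit_shiftLeft]
            by_cases h7 : t.1 ≥ i - 1
            · rw [Nat.testBit_lt_two_pow (x := 3), Bool.and_false]
              calc 3 < 2 ^ 2 := by norm_num
                _ ≤ _ := Nat.pow_le_pow_right (by norm_num) (by omega)
            · simp [h7]
          have := congrArg (fun z => z.testBit t) e
          simp only [Nat.testBit_mod_two_pow, Nat.testBit_xor, Nat.testBit_or, z, Bool.or_false,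
            decide_eq_true (Nat.lt_succ_of_le ht), Bool.true_and] at this
          rw [rI, rb K t, decide_eq_true (p := min K.1 t.1 < i ∨ _) (by simp only [K]; omega),
            Bool.and_true] at this
          simpa using this
        have hJK : J ≠ K := by simp [J, K, Fin.ext_iff]; omega
        have hJI' : J ≠ I := by simp [I, J, Fin.ext_iff]; omega
        have := g.lex K I J (by simp only [K, I]; omega) hJK hJI' (fun t ht h3 h4 => by
            have ht' : t.1 < j := ht
            rw [← eb t ht'.le h3 h4, decide_eq_true ht', Bool.and_true]) hA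
        rw [← eb J le_rfl hJK hJI'] at this
        simp [J] at this
    · refine hr _ _ _ hT (by simp only [Nat.add_eq]; omega) fun u v => ?_
      rw [Nat.add_assoc, upd_bit, ← Nat.add_assoc, hI u v]
      have h1 := u.2
      have h2 := v.2
      by_cases c1 : u = I ∧ v = J
      · obtain ⟨rfl, rfl⟩ := c1
        simp [hA, I, J, hij.le]
      by_cases c2 : u = J ∧ v = I
      · obtain ⟨rfl, rfl⟩ := c2
        simp [hJI, I, J, hij.le]
      simp only [Fin.ext_iff, I, J] at c1 c2
      rw [decide_eq_false (p := 14 * u.1 + v.1 = 14 * i + j) (by omega),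
        decide_eq_false (p := 14 * u.1 + v.1 = 14 * j + i) (by omega), Bool.or_false, Bool.or_false]
      congr 1
      apply decide_eq_decide.2
      simp only [Nat.add_eq]
      omega
  | false =>
    have hJI : a J I = false := (g.symm J I).trans hA
    rcases hS with hS | hS
    · exfalso
      simp only [noSkip, orr_eq, Bool.or_eq_true, Nat.ble_eq, Nat.add_eq] at hS
      rcases hS with h | h
      · rw [pc_eq _ (row_lt _ _)] at h
        have : (univ.filter fun v => a I v = true) ⊆
            (univ.filter fun v : Fin 14 => (row s i).testBit v = true) ∪ Ioi J := by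
          intro v hv
          simp only [mem_filter, mem_univ, true_and] at hv
          simp only [mem_union, mem_filter, mem_univ, true_and, rI, hv, Bool.true_and,
            decide_eq_true_eq, mem_Ioi, Fin.lt_def, J]
          have : v.1 ≠ j := fun e => by
            have : v = J := Fin.ext e
            rw [this, hA] at hv
            exact absurd hv (by simp)
          omega
        have h2 := (card_le_card this).trans (card_union_le _ _)
        rw [g.deg, Fin.card_Ioi] at h2
        simp only [J] at h2
        omega
      · rw [pc_eq _ (row_lt _ _)] at h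
        have : (univ.filter fun v => a J v = true) ⊆
            (univ.filter fun v : Fin 14 => (row s j).testBit v = true) ∪ (Ioi I).erase J := by
          intro v hv
          simp only [mem_filter, mem_univ, true_and] at hv
          simp only [mem_union, mem_filter, mem_univ, true_and, rJ, hv, Bool.true_and,
            decide_eq_true_eq, mem_Ioi, Fin.lt_def, I, mem_erase]
          have h1 : v.1 ≠ i := fun e => by
            have : v = I := Fin.ext e
            rw [this, hJI] at hv
            exact absurd hv (by simp)
          have h2 : v ≠ J := fun e => by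
            rw [e, g.irr] at hv
            exact absurd hv (by simp)
          by_cases h3 : v.1 < i
          · exact Or.inl h3
          · exact Or.inr ⟨h2, by omega⟩
        have h2 := (card_le_card this).trans (card_union_le _ _)
        rw [g.deg, card_erase_of_mem (by simp [I, J, Fin.lt_def, hij]), Fin.card_Ioi] at h2
        simp only [I] at h2
        omega
    · refine hr _ _ _ hS (by simp only [Nat.add_eq]; omega) fun u v => ?_
      rw [hI u v]
      have h1 := u.2
      have h2 := v.2
      by_cases c1 : u = I ∧ v = J
      · obtain ⟨rfl, rfl⟩ := c1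
        simp [hA]
      by_cases c2 : u = J ∧ v = I
      · obtain ⟨rfl, rfl⟩ := c2
        simp [hJI]
      simp only [Fin.ext_iff, I, J] at c1 c2
      congr 1
      apply decide_eq_decide.2
      simp only [Nat.add_eq]
      omega

theorem go_ok {a : Fin 14 → Fin 14 → Bool} (g : Good a) (T : List ℕ) (n : ℕ) :
    ∀ i j s, go T n i j s = true → i < j → Inv a i j s →
      ∃ p ∈ T, ∀ u v : Fin 14, p.testBit (14 * u + v) = a u v := by
  induction n with
  | zero => intro i j s h; exact absurd h (by simp [go])
  | succ n ih => exact step_ok g T _ ih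

end Pool.Agent.H23.Pat
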