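import Mathlib

set_option autoImplicit false
set_option maxSynthPendingDepth 3
set_option linter.unusedVariables false

namespace Pool.Agent.H23.RBM

structure U where
  c : ℝ
  w0 : ℝ
  w1 : ℝ
  w2 : ℝ
  w3 : ℝ

def U.l (u : U) (x0 x1 x2 x3 : ℝ) : ℝ := u.c + u.w0 * x0 + u.w1 * x1 + u.w2 * x2 + u.w3 * x3
def U.f (u : U) (x0 x1 x2 x3 : ℝ) : ℝ := max (u.l x0 x1 x2 x3) 0

lemma U.n (u : U) (x0 x1 x2 x3 : ℝ) : 0 ≤ u.f x0 x1 x2 x3 := le_max_right _ _
lemma U.g (u : U) (x0 x1 x2 x3 : ℝ) :
    u.c + u.w0 * x0 + u.w1 * x1 + u.w2 * x2 + u.w3 * x3 ≤ u.f x0 x1 x2 x3 := le_max_left _ _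
lemma U.z {u : U} {x0 x1 x2 x3 : ℝ} (h : u.l x0 x1 x2 x3 ≤ 0) : u.f x0 x1 x2 x3 ≤ 0 :=
  max_le h le_rfl
lemma U.p {u : U} {x0 x1 x2 x3 : ℝ} (h : 0 ≤ u.l x0 x1 x2 x3) :
    u.f x0 x1 x2 x3 ≤ u.c + u.w0 * x0 + u.w1 * x1 + u.w2 * x2 + u.w3 * x3 := max_le le_rfl h
lemma U.m (u : U) (x0 x1 x2 x3 y0 y1 y2 y3 : ℝ) (h : u.l x0 x1 x2 x3 ≤ u.l y0 y1 y2 y3) :
    u.f x0 x1 x2 x3 ≤ u.f y0 y1 y2 y3 := max_le_max h le_rfl
lemma U.lp (u : U) (x0 x1 x2 x3 y0 y1 y2 y3 : ℝ) (h : u.l x0 x1 x2 x3 ≤ u.l y0 y1 y2 y3) :
    u.f y0 y1 y2 y3 - u.f x0 x1 x2 x3 ≤ (u.c + u.w0 * y0 + u.w1 * y1 + u.w2 * y2 + u.w3 * y3) -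
      (u.c + u.w0 * x0 + u.w1 * x1 + u.w2 * x2 + u.w3 * x3) := by
  change max (u.l y0 y1 y2 y3) 0 - max (u.l x0 x1 x2 x3) 0 ≤ u.l y0 y1 y2 y3 - u.l x0 x1 x2 x3
  generalize u.l y0 y1 y2 y3 = b at *
  generalize u.l x0 x1 x2 x3 = a at *
  simp only [max_def]; split_ifs <;> linarith
lemma U.s (u : U) (x0 x1 x2 x3 y0 y1 y2 y3 z0 z1 z2 z3 t0 t1 t2 t3 : ℝ)
    (h1 : u.l x0 x1 x2 x3 ≤ u.l y0 y1 y2 y3) (h2 : u.l x0 x1 x2 x3 ≤ u.l z0 z1 z2 z3)
    (h3 : u.l x0 x1 x2 x3 + u.l t0 t1 t2 t3 = u.l y0 y1 y2 y3 + u.l z0 z1 z2 z3) :
    u.f y0 y1 y2 y3 + u.f z0 z1 z2 z3 ≤ u.f x0 x1 x2 x3 + u.f t0 t1 t2 t3 := by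
  unfold U.f
  generalize u.l y0 y1 y2 y3 = b at *
  generalize u.l x0 x1 x2 x3 = a at *
  generalize u.l z0 z1 z2 z3 = c at *
  generalize u.l t0 t1 t2 t3 = d at *
  simp only [max_def]; split_ifs <;> linarith

def Bad (σ : ℝ) (A u v w : U) : Prop :=
  ∀ x0 x1 x2 x3 : ℝ, (x0 = 0 ∨ x0 = 1) → (x1 = 0 ∨ x1 = 1) → (x2 = 0 ∨ x2 = 1) →
    (x3 = 0 ∨ x3 = 1) →
    |A.l x0 x1 x2 x3 + u.f x0 x1 x2 x3 + v.f x0 x1 x2 x3 + w.f x0 x1 x2 x3 -
      σ * 1000 * ((1 - 2 * x0) * (1 - 2 * x1) * (1 - 2 * x2) * (1 - 2 * x3))| ≤ 4

lemma coreN (A u v w : U) (u0 : 0 ≤ u.w0) (u1 : 0 ≤ u.w1) (u2 : 0 ≤ u.w2) (u3 : 0 ≤ u.w3) (v0 : 0 ≤ v.w0) (v1 : v.w1 ≤ 0) (v2 : v.w2 ≤ 0) (v3 : 0 ≤ v.w3) (w0 : 0 ≤ w.w0) (w1 : w.w1 ≤ 0) (w2 : 0 ≤ w.w2) (w3 : w.w3 ≤ 0)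
    (H : Bad (-1) A u v w) : False := by
  have H0 := abs_le.1 (H 0 0 0 0 (by simp) (by simp) (by simp) (by simp))
  simp only [U.l] at H0
  have H1 := abs_le.1 (H 1 0 0 0 (by simp) (by simp) (by simp) (by simp))
  simp only [U.l] at H1
  have H2 := abs_le.1 (H 0 1 0 0 (by simp) (by simp) (by simp) (by simp))
  simp only [U.l] at H2
  have H3 := abs_le.1 (H 1 1 0 0 (by simp) (by simp) (by simp) (by simp))
  simp only [U.l] at H3
  have H4 := abs_le.1 (H 0 0 1 0 (by simp) (by simp) (by simp) (by simp))
  simp only [U.l] at H4
  have H5 := abs_le.1 (H 1 0 1 0 (by simp) (by simp) (by simp) (by simp))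
  simp only [U.l] at H5
  have H6 := abs_le.1 (H 0 1 1 0 (by simp) (by simp) (by simp) (by simp))
  simp only [U.l] at H6
  have H7 := abs_le.1 (H 1 1 1 0 (by simp) (by simp) (by simp) (by simp))
  simp only [U.l] at H7
  have H8 := abs_le.1 (H 0 0 0 1 (by simp) (by simp) (by simp) (by simp))
  simp only [U.l] at H8
  have H9 := abs_le.1 (H 1 0 0 1 (by simp) (by simp) (by simp) (by simp))
  simp only [U.l] at H9
  have H10 := abs_le.1 (H 0 1 0 1 (by simp) (by simp) (by simp) (by simp))
  simp only [U.l] at H10
  have H11 := abs_le.1 (H 1 1 0 1 (by simp) (by simp) (by simp) (by simp))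
  simp only [U.l] at H11
  have H12 := abs_le.1 (H 0 0 1 1 (by simp) (by simp) (by simp) (by simp))
  simp only [U.l] at H12
  have H13 := abs_le.1 (H 1 0 1 1 (by simp) (by simp) (by simp) (by simp))
  simp only [U.l] at H13
  have H14 := abs_le.1 (H 0 1 1 1 (by simp) (by simp) (by simp) (by simp))
  simp only [U.l] at H14
  have H15 := abs_le.1 (H 1 1 1 1 (by simp) (by simp) (by simp) (by simp))
  simp only [U.l] at H15
  rcases le_total (u.l 0 0 0 0) 0 with h0_0 | h0_0
  · rcases le_total (v.l 1 1 0 1) 0 with h1_11 | h1_11
    · linarith only [H0.1, H0.2, H1.1, H1.2, H2.1, H2.2, H3.1, H3.2, H4.1, H4.2, H5.1, H5.2, H6.1, H6.2, H7.1, H7.2, H8.1, H8.2, H9.1, H9.2, H10.1, H10.2, H11.1, H11.2, H12.1, H12.2, H13.1, H13.2, H14.1, H14.2, H15.1, H15.2,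
        U.s u 0 1 0 1 1 1 0 1 0 1 1 1 1 1 1 1 (by simp only [U.l]; linarith only [u0]) (by simp only [U.l]; linarith only [u2]) (by simp only [U.l]; ring),
        U.n v 1 1 1 0,
        U.m v 0 1 1 1 0 1 0 1 (by simp only [U.l]; linarith only [v2]),
        U.m v 1 1 1 0 1 1 1 1 (by simp only [U.l]; linarith only [v3]),
        U.s w 0 1 0 1 1 1 0 1 0 1 1 1 1 1 1 1 (by simp only [U.l]; linarith only [w0]) (by simp only [U.l]; linarith only [w2]) (by simp only [U.l]; ring),
        U.z h1_11]
    · rcases le_total (w.l 1 1 1 0) 0 with h2_7 | h2_7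
      · linarith only [H0.1, H0.2, H1.1, H1.2, H2.1, H2.2, H3.1, H3.2, H4.1, H4.2, H5.1, H5.2, H6.1, H6.2, H7.1, H7.2, H8.1, H8.2, H9.1, H9.2, H10.1, H10.2, H11.1, H11.2, H12.1, H12.2, H13.1, H13.2, H14.1, H14.2, H15.1, H15.2,
          U.s u 0 1 1 0 1 1 1 0 0 1 1 1 1 1 1 1 (by simp only [U.l]; linarith only [u0]) (by simp only [U.l]; linarith only [u3]) (by simp only [U.l]; ring),
          U.s v 0 1 1 0 1 1 1 0 0 1 1 1 1 1 1 1 (by simp only [U.l]; linarith only [v0]) (by simp only [U.l]; linarith only [v3]) (by simp only [U.l]; ring),
          U.n w 1 1 0 1,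
          U.m w 1 1 0 1 1 1 1 1 (by simp only [U.l]; linarith only [w2]),
          U.m w 0 1 1 1 0 1 1 0 (by simp only [U.l]; linarith only [w3]),
          U.z h2_7]
      · rcases le_total (v.l 0 0 0 1) 0 with h1_8 | h1_8
        · linarith only [H0.1, H0.2, H1.1, H1.2, H2.1, H2.2, H3.1, H3.2, H4.1, H4.2, H5.1, H5.2, H6.1, H6.2, H7.1, H7.2, H8.1, H8.2, H9.1, H9.2, H10.1, H10.2, H11.1, H11.2, H12.1, H12.2, H13.1, H13.2, H14.1, H14.2, H15.1, H15.2,
            U.s u 0 0 0 0 0 1 0 0 0 0 0 1 0 1 0 1 (by simp only [U.l]; linarith only [u1]) (by simp only [U.l]; linarith only [u3]) (by simp only [U.l]; ring),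
            U.n v 0 0 0 0,
            U.m v 0 1 1 0 0 1 1 1 (by simp only [U.l]; linarith only [v3]),
            U.s v 0 1 1 0 0 1 0 0 0 1 1 1 0 1 0 1 (by simp only [U.l]; linarith only [v2]) (by simp only [U.l]; linarith only [v3]) (by simp only [U.l]; ring),
            U.s w 0 1 0 1 0 0 0 1 0 1 0 0 0 0 0 0 (by simp only [U.l]; linarith only [w1]) (by simp only [U.l]; linarith only [w3]) (by simp only [U.l]; ring),
            U.z h1_8]
        · rcases le_total (w.l 1 0 1 1) 0 with h2_13 | h2_13
          · linarith only [H0.1, H0.2, H1.1, H1.2, H2.1, H2.2, H3.1, H3.2, H4.1, H4.2, H5.1, H5.2, H6.1, H6.2, H7.1, H7.2, H8.1, H8.2, H9.1, H9.2, H10.1, H10.2, H11.1, H11.2, H12.1, H12.2, H13.1, H13.2, H14.1, H14.2, H15.1, H15.2,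
              U.s u 1 0 0 1 1 1 0 1 1 0 1 1 1 1 1 1 (by simp only [U.l]; linarith only [u1]) (by simp only [U.l]; linarith only [u2]) (by simp only [U.l]; ring),
              U.s v 1 1 1 1 1 0 1 1 1 1 0 1 1 0 0 1 (by simp only [U.l]; linarith only [v1]) (by simp only [U.l]; linarith only [v2]) (by simp only [U.l]; ring),
              U.n w 0 0 0 1,
              U.m w 0 0 0 1 1 0 0 1 (by simp only [U.l]; linarith only [w0]),
              U.m w 1 1 0 1 1 1 1 1 (by simp only [U.l]; linarith only [w2]),
              U.z h2_13]
          · rcases le_total (v.l 1 0 1 1) 0 with h1_13 | h1_13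
            · linarith only [H0.1, H0.2, H1.1, H1.2, H2.1, H2.2, H3.1, H3.2, H4.1, H4.2, H5.1, H5.2, H6.1, H6.2, H7.1, H7.2, H8.1, H8.2, H9.1, H9.2, H10.1, H10.2, H11.1, H11.2, H12.1, H12.2, H13.1, H13.2, H14.1, H14.2, H15.1, H15.2,
                U.s u 1 0 1 0 1 1 1 0 1 0 1 1 1 1 1 1 (by simp only [U.l]; linarith only [u1]) (by simp only [U.l]; linarith only [u3]) (by simp only [U.l]; ring),
                U.n v 1 0 1 0,
                U.m v 1 1 1 0 1 1 1 1 (by simp only [U.l]; linarith only [v3]),
                U.s w 1 1 1 1 1 0 1 1 1 1 1 0 1 0 1 0 (by simp only [U.l]; linarith only [w1]) (by simp only [U.l]; linarith only [w3]) (by simp only [U.l]; ring),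
                U.z h1_13]
            · rcases le_total (v.l 1 0 0 0) 0 with h1_1 | h1_1
              · linarith only [H0.1, H0.2, H1.1, H1.2, H2.1, H2.2, H3.1, H3.2, H4.1, H4.2, H5.1, H5.2, H6.1, H6.2, H7.1, H7.2, H8.1, H8.2, H9.1, H9.2, H10.1, H10.2, H11.1, H11.2, H12.1, H12.2, H13.1, H13.2, H14.1, H14.2, H15.1, H15.2,
                  U.s u 0 0 0 0 1 0 0 0 0 0 1 0 1 0 1 0 (by simp only [U.l]; linarith only [u0]) (by simp only [U.l]; linarith only [u2]) (by simp only [U.l]; ring),
                  U.n v 0 0 0 0,
                  U.m v 0 0 1 0 1 0 1 0 (by simp only [U.l]; linarith only [v0]),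
                  U.s w 0 0 0 0 1 0 0 0 0 0 1 0 1 0 1 0 (by simp only [U.l]; linarith only [w0]) (by simp only [U.l]; linarith only [w2]) (by simp only [U.l]; ring),
                  U.z h1_1]
              · rcases le_total (w.l 0 0 1 0) 0 with h2_4 | h2_4
                · linarith only [H0.1, H0.2, H1.1, H1.2, H2.1, H2.2, H3.1, H3.2, H4.1, H4.2, H5.1, H5.2, H6.1, H6.2, H7.1, H7.2, H8.1, H8.2, H9.1, H9.2, H10.1, H10.2, H11.1, H11.2, H12.1, H12.2, H13.1, H13.2, H14.1, H14.2, H15.1, H15.2,
                    U.s u 0 0 0 0 0 1 0 0 0 0 1 0 0 1 1 0 (by simp only [U.l]; linarith only [u1]) (by simp only [U.l]; linarith only [u2]) (by simp only [U.l]; ring),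
                    U.s v 0 1 1 0 0 0 1 0 0 1 0 0 0 0 0 0 (by simp only [U.l]; linarith only [v1]) (by simp only [U.l]; linarith only [v2]) (by simp only [U.l]; ring),
                    U.n w 0 1 1 0,
                    U.m w 0 1 0 1 0 0 0 1 (by simp only [U.l]; linarith only [w1]),
                    U.s w 0 1 0 1 0 0 0 1 0 1 0 0 0 0 0 0 (by simp only [U.l]; linarith only [w1]) (by simp only [U.l]; linarith only [w3]) (by simp only [U.l]; ring),
                    U.z h2_4]
                · rcases le_total (u.l 1 1 0 0) 0 with h0_3 | h0_3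
                  · rcases le_total (w.l 1 0 0 0) 0 with h2_1 | h2_1
                    · linarith only [H0.1, H0.2, H1.1, H1.2, H2.1, H2.2, H3.1, H3.2, H4.1, H4.2, H5.1, H5.2, H6.1, H6.2, H7.1, H7.2, H8.1, H8.2, H9.1, H9.2, H10.1, H10.2, H11.1, H11.2, H12.1, H12.2, H13.1, H13.2, H14.1, H14.2, H15.1, H15.2,
                        U.n u 0 1 0 0,
                        U.m u 0 0 0 1 1 0 0 1 (by simp only [U.l]; linarith only [u0]),
                        U.s u 0 0 0 0 1 0 0 0 0 1 0 0 1 1 0 0 (by simp only [U.l]; linarith only [u0]) (by simp only [U.l]; linarith only [u1]) (by simp only [U.l]; ring),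
                        U.g v 0 0 0 0,
                        U.g v 1 0 0 1,
                        U.n w 1 1 0 1,
                        U.m w 1 1 0 1 1 0 0 1 (by simp only [U.l]; linarith only [w1]),
                        U.m w 0 0 0 1 0 0 0 0 (by simp only [U.l]; linarith only [w3]),
                        U.p h1_8,
                        U.p h1_1,
                        U.z h0_3,
                        U.z h2_1]
                    · rcases le_total (u.l 0 0 1 1) 0 with h0_12 | h0_12
                      · rcases le_total (v.l 0 0 1 1) 0 with h1_12 | h1_12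
                        · rcases le_total (w.l 0 0 1 1) 0 with h2_12 | h2_12
                          · linarith only [H0.1, H0.2, H1.1, H1.2, H2.1, H2.2, H3.1, H3.2, H4.1, H4.2, H5.1, H5.2, H6.1, H6.2, H7.1, H7.2, H8.1, H8.2, H9.1, H9.2, H10.1, H10.2, H11.1, H11.2, H12.1, H12.2, H13.1, H13.2, H14.1, H14.2, H15.1, H15.2,
                              U.n u 0 0 0 0,
                              U.n u 0 0 1 0,
                              U.m u 0 1 0 0 1 1 0 0 (by simp only [U.l]; linarith only [u0]),
                              U.m u 0 0 1 0 0 1 1 0 (by simp only [U.l]; linarith only [u1]),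
                              U.m u 0 1 0 0 0 1 0 1 (by simp only [U.l]; linarith only [u3]),
                              U.n v 0 1 1 0,
                              U.m v 0 1 0 0 0 0 0 0 (by simp only [U.l]; linarith only [v1]),
                              U.m v 0 1 0 0 0 1 0 1 (by simp only [U.l]; linarith only [v3]),
                              U.n w 0 1 1 1,
                              U.m w 0 1 0 0 0 0 0 0 (by simp only [U.l]; linarith only [w1]),
                              U.s w 0 1 0 1 0 1 1 1 0 1 0 0 0 1 1 0 (by simp only [U.l]; linarith only [w2]) (by simp only [U.l]; linarith only [w3]) (by simp only [U.l]; ring),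
                              U.z h0_3,
                              U.z h0_12,
                              U.z h1_12,
                              U.z h2_12]
                          · linarith only [H0.1, H0.2, H1.1, H1.2, H2.1, H2.2, H3.1, H3.2, H4.1, H4.2, H5.1, H5.2, H6.1, H6.2, H7.1, H7.2, H8.1, H8.2, H9.1, H9.2, H10.1, H10.2, H11.1, H11.2, H12.1, H12.2, H13.1, H13.2, H14.1, H14.2, H15.1, H15.2,
                              U.n u 0 0 0 1,
                              U.m u 0 0 0 0 0 0 1 0 (by simp only [U.l]; linarith only [u2]),
                              U.s u 0 1 1 0 1 1 1 0 0 1 1 1 1 1 1 1 (by simp only [U.l]; linarith only [u0]) (by simp only [U.l]; linarith only [u3]) (by simp only [U.l]; ring),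
                              U.s u 0 0 0 0 0 1 0 0 0 0 0 1 0 1 0 1 (by simp only [U.l]; linarith only [u1]) (by simp only [U.l]; linarith only [u3]) (by simp only [U.l]; ring),
                              U.n v 0 0 1 0,
                              U.m v 1 1 1 0 1 1 1 1 (by simp only [U.l]; linarith only [v3]),
                              U.s v 0 1 1 0 0 1 0 0 0 1 1 1 0 1 0 1 (by simp only [U.l]; linarith only [v2]) (by simp only [U.l]; linarith only [v3]) (by simp only [U.l]; ring),
                              U.g w 0 0 1 0,
                              U.g w 1 0 1 1,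
                              U.lp w 1 1 1 1 1 0 1 1 (by simp only [U.l]; linarith only [w1]),
                              U.s w 0 1 0 1 0 1 1 1 0 1 0 0 0 1 1 0 (by simp only [U.l]; linarith only [w2]) (by simp only [U.l]; linarith only [w3]) (by simp only [U.l]; ring),
                              U.p h2_7,
                              U.z h0_12,
                              U.z h1_12,
                              U.p h2_12]
                        · rcases le_total (w.l 0 0 1 1) 0 with h2_12 | h2_12
                          · linarith only [H0.1, H0.2, H1.1, H1.2, H2.1, H2.2, H3.1, H3.2, H4.1, H4.2, H5.1, H5.2, H6.1, H6.2, H7.1, H7.2, H8.1, H8.2, H9.1, H9.2, H10.1, H10.2, H11.1, H11.2, H12.1, H12.2, H13.1, H13.2, H14.1, H14.2, H15.1, H15.2,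
                              U.n u 0 0 1 0,
                              U.m u 0 0 0 0 0 0 0 1 (by simp only [U.l]; linarith only [u3]),
                              U.s u 0 1 0 1 1 1 0 1 0 1 1 1 1 1 1 1 (by simp only [U.l]; linarith only [u0]) (by simp only [U.l]; linarith only [u2]) (by simp only [U.l]; ring),
                              U.s u 0 0 0 0 0 1 0 0 0 0 1 0 0 1 1 0 (by simp only [U.l]; linarith only [u1]) (by simp only [U.l]; linarith only [u2]) (by simp only [U.l]; ring),
                              U.g v 1 0 1 1,
                              U.lp v 0 0 0 1 1 0 0 1 (by simp only [U.l]; linarith only [v0]),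
                              U.s v 1 1 1 1 1 0 1 1 1 1 0 1 1 0 0 1 (by simp only [U.l]; linarith only [v1]) (by simp only [U.l]; linarith only [v2]) (by simp only [U.l]; ring),
                              U.s v 0 1 1 0 0 1 0 0 0 1 1 1 0 1 0 1 (by simp only [U.l]; linarith only [v2]) (by simp only [U.l]; linarith only [v3]) (by simp only [U.l]; ring),
                              U.n w 0 0 0 1,
                              U.m w 1 1 0 1 1 1 1 1 (by simp only [U.l]; linarith only [w2]),
                              U.s w 0 1 0 1 0 1 1 1 0 1 0 0 0 1 1 0 (by simp only [U.l]; linarith only [w2]) (by simp only [U.l]; linarith only [w3]) (by simp only [U.l]; ring),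
                              U.z h0_12,
                              U.p h1_12,
                              U.z h2_12]
                          · linarith only [H0.1, H0.2, H1.1, H1.2, H2.1, H2.2, H3.1, H3.2, H4.1, H4.2, H5.1, H5.2, H6.1, H6.2, H7.1, H7.2, H8.1, H8.2, H9.1, H9.2, H10.1, H10.2, H11.1, H11.2, H12.1, H12.2, H13.1, H13.2, H14.1, H14.2, H15.1, H15.2,
                              U.n u 1 0 1 0,
                              U.n u 0 0 0 1,
                              U.m u 0 0 0 0 0 1 0 0 (by simp only [U.l]; linarith only [u1]),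
                              U.s u 0 0 0 0 1 0 0 0 0 1 0 0 1 1 0 0 (by simp only [U.l]; linarith only [u0]) (by simp only [U.l]; linarith only [u1]) (by simp only [U.l]; ring),
                              U.s u 0 0 0 0 1 0 0 0 0 0 0 1 1 0 0 1 (by simp only [U.l]; linarith only [u0]) (by simp only [U.l]; linarith only [u3]) (by simp only [U.l]; ring),
                              U.g v 1 0 1 1,
                              U.lp v 0 0 0 0 1 0 0 0 (by simp only [U.l]; linarith only [v0]),
                              U.s v 1 0 1 0 1 0 0 0 1 0 1 1 1 0 0 1 (by simp only [U.l]; linarith only [v2]) (by simp only [U.l]; linarith only [v3]) (by simp only [U.l]; ring),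
                              U.g w 0 0 1 0,
                              U.g w 1 0 1 1,
                              U.lp w 0 0 0 0 0 0 1 0 (by simp only [U.l]; linarith only [w2]),
                              U.s w 1 0 0 1 1 0 1 1 1 0 0 0 1 0 1 0 (by simp only [U.l]; linarith only [w2]) (by simp only [U.l]; linarith only [w3]) (by simp only [U.l]; ring),
                              U.z h0_3,
                              U.p h2_1,
                              U.z h0_12,
                              U.p h1_12,
                              U.p h2_12]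
                      · rcases le_total (v.l 1 1 0 0) 0 with h1_3 | h1_3
                        · rcases le_total (w.l 1 1 0 0) 0 with h2_3 | h2_3
                          · linarith only [H0.1, H0.2, H1.1, H1.2, H2.1, H2.2, H3.1, H3.2, H4.1, H4.2, H5.1, H5.2, H6.1, H6.2, H7.1, H7.2, H8.1, H8.2, H9.1, H9.2, H10.1, H10.2, H11.1, H11.2, H12.1, H12.2, H13.1, H13.2, H14.1, H14.2, H15.1, H15.2,
                              U.n u 0 0 0 0,
                              U.m u 0 0 0 1 1 0 0 1 (by simp only [U.l]; linarith only [u0]),
                              U.m u 0 0 0 0 0 1 0 0 (by simp only [U.l]; linarith only [u1]),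
                              U.s u 0 0 0 0 1 0 0 0 0 0 1 0 1 0 1 0 (by simp only [U.l]; linarith only [u0]) (by simp only [U.l]; linarith only [u2]) (by simp only [U.l]; ring),
                              U.n v 0 1 0 0,
                              U.m v 0 0 1 0 1 0 1 0 (by simp only [U.l]; linarith only [v0]),
                              U.s v 0 0 0 0 1 0 0 0 0 0 0 1 1 0 0 1 (by simp only [U.l]; linarith only [v0]) (by simp only [U.l]; linarith only [v3]) (by simp only [U.l]; ring),
                              U.n w 0 1 0 0,
                              U.m w 0 1 0 1 1 1 0 1 (by simp only [U.l]; linarith only [w0]),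
                              U.s w 0 1 0 1 1 1 0 1 0 0 0 1 1 0 0 1 (by simp only [U.l]; linarith only [w0]) (by simp only [U.l]; linarith only [w1]) (by simp only [U.l]; ring),
                              U.s w 0 0 0 0 1 0 0 0 0 0 1 0 1 0 1 0 (by simp only [U.l]; linarith only [w0]) (by simp only [U.l]; linarith only [w2]) (by simp only [U.l]; ring),
                              U.z h0_3,
                              U.z h1_3,
                              U.z h2_3]
                          · linarith only [H0.1, H0.2, H1.1, H1.2, H2.1, H2.2, H3.1, H3.2, H4.1, H4.2, H5.1, H5.2, H6.1, H6.2, H7.1, H7.2, H8.1, H8.2, H9.1, H9.2, H10.1, H10.2, H11.1, H11.2, H12.1, H12.2, H13.1, H13.2, H14.1, H14.2, H15.1, H15.2,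
                              U.n u 0 0 0 0,
                              U.m u 0 0 1 0 1 0 1 0 (by simp only [U.l]; linarith only [u0]),
                              U.m u 0 0 0 0 0 1 0 0 (by simp only [U.l]; linarith only [u1]),
                              U.s u 0 0 0 0 0 1 0 0 0 0 1 0 0 1 1 0 (by simp only [U.l]; linarith only [u1]) (by simp only [U.l]; linarith only [u2]) (by simp only [U.l]; ring),
                              U.n v 1 1 1 0,
                              U.m v 0 0 1 0 0 0 0 0 (by simp only [U.l]; linarith only [v2]),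
                              U.s v 0 1 1 0 1 1 1 0 0 0 1 0 1 0 1 0 (by simp only [U.l]; linarith only [v0]) (by simp only [U.l]; linarith only [v1]) (by simp only [U.l]; ring),
                              U.g w 1 0 0 0,
                              U.g w 1 1 1 0,
                              U.lp w 0 0 1 0 1 0 1 0 (by simp only [U.l]; linarith only [w0]),
                              U.s w 0 1 1 0 1 1 1 0 0 0 1 0 1 0 1 0 (by simp only [U.l]; linarith only [w0]) (by simp only [U.l]; linarith only [w1]) (by simp only [U.l]; ring),
                              U.s w 0 0 0 0 1 0 0 0 0 0 1 0 1 0 1 0 (by simp only [U.l]; linarith only [w0]) (by simp only [U.l]; linarith only [w2]) (by simp only [U.l]; ring),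
                              U.p h2_4,
                              U.z h0_3,
                              U.z h1_3,
                              U.p h2_3]
                        · rcases le_total (w.l 1 1 0 0) 0 with h2_3 | h2_3
                          · linarith only [H0.1, H0.2, H1.1, H1.2, H2.1, H2.2, H3.1, H3.2, H4.1, H4.2, H5.1, H5.2, H6.1, H6.2, H7.1, H7.2, H8.1, H8.2, H9.1, H9.2, H10.1, H10.2, H11.1, H11.2, H12.1, H12.2, H13.1, H13.2, H14.1, H14.2, H15.1, H15.2,
                              U.n u 1 0 0 0,
                              U.m u 0 0 0 1 0 1 0 1 (by simp only [U.l]; linarith only [u1]),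
                              U.s u 0 0 0 0 1 0 0 0 0 0 0 1 1 0 0 1 (by simp only [U.l]; linarith only [u0]) (by simp only [U.l]; linarith only [u3]) (by simp only [U.l]; ring),
                              U.g v 1 0 0 1,
                              U.lp v 1 1 0 1 1 0 0 1 (by simp only [U.l]; linarith only [v1]),
                              U.lp v 0 0 0 0 0 0 0 1 (by simp only [U.l]; linarith only [v3]),
                              U.s v 0 1 0 1 1 1 0 1 0 0 0 1 1 0 0 1 (by simp only [U.l]; linarith only [v0]) (by simp only [U.l]; linarith only [v1]) (by simp only [U.l]; ring),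
                              U.n w 0 1 0 1,
                              U.m w 0 0 0 1 1 0 0 1 (by simp only [U.l]; linarith only [w0]),
                              U.m w 0 0 0 1 0 0 0 0 (by simp only [U.l]; linarith only [w3]),
                              U.z h0_3,
                              U.p h1_3,
                              U.z h2_3]
                          · linarith only [H0.1, H0.2, H1.1, H1.2, H2.1, H2.2, H3.1, H3.2, H4.1, H4.2, H5.1, H5.2, H6.1, H6.2, H7.1, H7.2, H8.1, H8.2, H9.1, H9.2, H10.1, H10.2, H11.1, H11.2, H12.1, H12.2, H13.1, H13.2, H14.1, H14.2, H15.1, H15.2,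
                              U.n u 0 0 0 0,
                              U.m u 0 0 0 0 1 0 0 0 (by simp only [U.l]; linarith only [u0]),
                              U.m u 0 0 1 0 0 1 1 0 (by simp only [U.l]; linarith only [u1]),
                              U.m u 0 0 0 1 0 1 0 1 (by simp only [U.l]; linarith only [u1]),
                              U.s u 0 0 0 0 1 0 0 0 0 1 0 0 1 1 0 0 (by simp only [U.l]; linarith only [u0]) (by simp only [U.l]; linarith only [u1]) (by simp only [U.l]; ring),
                              U.g v 1 0 0 0,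
                              U.lp v 0 1 0 1 0 0 0 1 (by simp only [U.l]; linarith only [v1]),
                              U.s v 0 1 1 0 0 0 1 0 0 1 0 0 0 0 0 0 (by simp only [U.l]; linarith only [v1]) (by simp only [U.l]; linarith only [v2]) (by simp only [U.l]; ring),
                              U.g w 1 0 0 0,
                              U.g w 0 1 1 0,
                              U.s w 0 1 0 1 0 0 0 1 0 1 0 0 0 0 0 0 (by simp only [U.l]; linarith only [w1]) (by simp only [U.l]; linarith only [w3]) (by simp only [U.l]; ring),
                              U.p h2_4,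
                              U.z h0_3,
                              U.p h1_3,
                              U.p h2_3]
                  · rcases le_total (w.l 1 0 0 0) 0 with h2_1 | h2_1
                    · linarith only [H0.1, H0.2, H1.1, H1.2, H2.1, H2.2, H3.1, H3.2, H4.1, H4.2, H5.1, H5.2, H6.1, H6.2, H7.1, H7.2, H8.1, H8.2, H9.1, H9.2, H10.1, H10.2, H11.1, H11.2, H12.1, H12.2, H13.1, H13.2, H14.1, H14.2, H15.1, H15.2,
                        U.s u 0 0 0 0 1 0 0 0 0 0 0 1 1 0 0 1 (by simp only [U.l]; linarith only [u0]) (by simp only [U.l]; linarith only [u3]) (by simp only [U.l]; ring),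
                        U.s v 0 0 0 0 1 0 0 0 0 0 0 1 1 0 0 1 (by simp only [U.l]; linarith only [v0]) (by simp only [U.l]; linarith only [v3]) (by simp only [U.l]; ring),
                        U.n w 0 0 0 0,
                        U.m w 0 0 0 1 1 0 0 1 (by simp only [U.l]; linarith only [w0]),
                        U.z h2_1]
                    · rcases le_total (u.l 0 0 1 1) 0 with h0_12 | h0_12
                      · rcases le_total (v.l 1 1 0 0) 0 with h1_3 | h1_3
                        · rcases le_total (w.l 1 1 0 0) 0 with h2_3 | h2_3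
                          · linarith only [H0.1, H0.2, H1.1, H1.2, H2.1, H2.2, H3.1, H3.2, H4.1, H4.2, H5.1, H5.2, H6.1, H6.2, H7.1, H7.2, H8.1, H8.2, H9.1, H9.2, H10.1, H10.2, H11.1, H11.2, H12.1, H12.2, H13.1, H13.2, H14.1, H14.2, H15.1, H15.2,
                              U.g u 1 1 0 1,
                              U.lp u 1 1 1 0 1 1 1 1 (by simp only [U.l]; linarith only [u3]),
                              U.s u 0 1 0 1 1 1 0 1 0 1 1 1 1 1 1 1 (by simp only [U.l]; linarith only [u0]) (by simp only [U.l]; linarith only [u2]) (by simp only [U.l]; ring),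
                              U.s u 0 1 1 0 1 1 1 0 0 1 1 1 1 1 1 1 (by simp only [U.l]; linarith only [u0]) (by simp only [U.l]; linarith only [u3]) (by simp only [U.l]; ring),
                              U.n v 0 1 1 0,
                              U.m v 0 1 1 1 1 1 1 1 (by simp only [U.l]; linarith only [v0]),
                              U.m v 0 1 1 1 0 1 0 1 (by simp only [U.l]; linarith only [v2]),
                              U.n w 1 1 0 1,
                              U.m w 0 1 1 1 0 1 1 0 (by simp only [U.l]; linarith only [w3]),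
                              U.s w 0 1 0 1 1 1 0 1 0 1 1 1 1 1 1 1 (by simp only [U.l]; linarith only [w0]) (by simp only [U.l]; linarith only [w2]) (by simp only [U.l]; ring),
                              U.p h0_3,
                              U.z h1_3,
                              U.z h2_3]
                          · linarith only [H0.1, H0.2, H1.1, H1.2, H2.1, H2.2, H3.1, H3.2, H4.1, H4.2, H5.1, H5.2, H6.1, H6.2, H7.1, H7.2, H8.1, H8.2, H9.1, H9.2, H10.1, H10.2, H11.1, H11.2, H12.1, H12.2, H13.1, H13.2, H14.1, H14.2, H15.1, H15.2,
                              U.g u 1 1 1 1,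
                              U.lp u 0 1 0 1 0 1 1 1 (by simp only [U.l]; linarith only [u2]),
                              U.lp u 1 1 1 0 1 1 1 1 (by simp only [U.l]; linarith only [u3]),
                              U.s u 1 0 0 1 1 1 0 1 1 0 1 1 1 1 1 1 (by simp only [U.l]; linarith only [u1]) (by simp only [U.l]; linarith only [u2]) (by simp only [U.l]; ring),
                              U.n v 1 1 1 0,
                              U.g v 1 0 0 1,
                              U.g v 1 1 1 1,
                              U.m v 0 1 1 1 0 1 0 1 (by simp only [U.l]; linarith only [v2]),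
                              U.g w 1 1 1 0,
                              U.g w 1 0 0 1,
                              U.s w 0 1 0 1 1 1 0 1 0 1 1 1 1 1 1 1 (by simp only [U.l]; linarith only [w0]) (by simp only [U.l]; linarith only [w2]) (by simp only [U.l]; ring),
                              U.p h1_11,
                              U.p h2_13,
                              U.p h1_13,
                              U.p h0_3,
                              U.z h1_3,
                              U.p h2_3]
                        · rcases le_total (w.l 1 1 0 0) 0 with h2_3 | h2_3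
                          · linarith only [H0.1, H0.2, H1.1, H1.2, H2.1, H2.2, H3.1, H3.2, H4.1, H4.2, H5.1, H5.2, H6.1, H6.2, H7.1, H7.2, H8.1, H8.2, H9.1, H9.2, H10.1, H10.2, H11.1, H11.2, H12.1, H12.2, H13.1, H13.2, H14.1, H14.2, H15.1, H15.2,
                              U.n u 0 0 0 0,
                              U.g u 1 1 1 0,
                              U.m u 0 0 0 0 0 0 1 0 (by simp only [U.l]; linarith only [u2]),
                              U.lp u 1 1 0 1 1 1 1 1 (by simp only [U.l]; linarith only [u2]),
                              U.m u 1 0 0 0 1 0 0 1 (by simp only [U.l]; linarith only [u3]),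
                              U.s u 1 0 1 0 1 1 1 0 1 0 1 1 1 1 1 1 (by simp only [U.l]; linarith only [u1]) (by simp only [U.l]; linarith only [u3]) (by simp only [U.l]; ring),
                              U.s u 0 0 0 0 0 0 1 0 0 0 0 1 0 0 1 1 (by simp only [U.l]; linarith only [u2]) (by simp only [U.l]; linarith only [u3]) (by simp only [U.l]; ring),
                              U.g v 1 0 0 0,
                              U.lp v 1 1 0 1 1 0 0 1 (by simp only [U.l]; linarith only [v1]),
                              U.s v 0 0 0 0 1 0 0 0 0 0 0 1 1 0 0 1 (by simp only [U.l]; linarith only [v0]) (by simp only [U.l]; linarith only [v3]) (by simp only [U.l]; ring),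
                              U.s v 1 0 1 0 1 0 0 0 1 0 1 1 1 0 0 1 (by simp only [U.l]; linarith only [v2]) (by simp only [U.l]; linarith only [v3]) (by simp only [U.l]; ring),
                              U.n w 1 1 0 1,
                              U.m w 0 0 0 1 0 0 0 0 (by simp only [U.l]; linarith only [w3]),
                              U.s w 1 0 0 1 1 0 1 1 1 0 0 0 1 0 1 0 (by simp only [U.l]; linarith only [w2]) (by simp only [U.l]; linarith only [w3]) (by simp only [U.l]; ring),
                              U.p h0_3,
                              U.z h0_12,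
                              U.p h1_3,
                              U.z h2_3]
                          · linarith only [H0.1, H0.2, H1.1, H1.2, H2.1, H2.2, H3.1, H3.2, H4.1, H4.2, H5.1, H5.2, H6.1, H6.2, H7.1, H7.2, H8.1, H8.2, H9.1, H9.2, H10.1, H10.2, H11.1, H11.2, H12.1, H12.2, H13.1, H13.2, H14.1, H14.2, H15.1, H15.2,
                              U.g u 1 1 0 1,
                              U.lp u 1 0 1 0 1 0 1 1 (by simp only [U.l]; linarith only [u3]),
                              U.s u 1 0 0 1 1 1 0 1 1 0 1 1 1 1 1 1 (by simp only [U.l]; linarith only [u1]) (by simp only [U.l]; linarith only [u2]) (by simp only [U.l]; ring),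
                              U.g v 1 0 0 0,
                              U.g v 1 1 0 1,
                              U.lp v 1 1 1 1 1 1 0 1 (by simp only [U.l]; linarith only [v2]),
                              U.s v 1 0 1 0 1 0 0 0 1 0 1 1 1 0 0 1 (by simp only [U.l]; linarith only [v2]) (by simp only [U.l]; linarith only [v3]) (by simp only [U.l]; ring),
                              U.g w 1 0 0 0,
                              U.g w 1 1 1 1,
                              U.s w 1 0 0 1 1 0 1 1 1 0 0 0 1 0 1 0 (by simp only [U.l]; linarith only [w2]) (by simp only [U.l]; linarith only [w3]) (by simp only [U.l]; ring),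
                              U.p h2_13,
                              U.p h1_13,
                              U.p h0_3,
                              U.p h1_3,
                              U.p h2_3]
                      · rcases le_total (v.l 1 1 0 0) 0 with h1_3 | h1_3
                        · rcases le_total (w.l 1 1 0 0) 0 with h2_3 | h2_3
                          · linarith only [H0.1, H0.2, H1.1, H1.2, H2.1, H2.2, H3.1, H3.2, H4.1, H4.2, H5.1, H5.2, H6.1, H6.2, H7.1, H7.2, H8.1, H8.2, H9.1, H9.2, H10.1, H10.2, H11.1, H11.2, H12.1, H12.2, H13.1, H13.2, H14.1, H14.2, H15.1, H15.2,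
                              U.g u 0 1 0 1,
                              U.g u 1 1 1 1,
                              U.lp u 0 0 1 1 0 1 1 1 (by simp only [U.l]; linarith only [u1]),
                              U.lp u 0 1 1 0 0 1 1 1 (by simp only [U.l]; linarith only [u3]),
                              U.n v 0 1 1 0,
                              U.m v 0 1 1 1 1 1 1 1 (by simp only [U.l]; linarith only [v0]),
                              U.m v 0 1 1 1 0 1 0 1 (by simp only [U.l]; linarith only [v2]),
                              U.n w 0 1 0 1,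
                              U.m w 0 1 1 1 1 1 1 1 (by simp only [U.l]; linarith only [w0]),
                              U.m w 0 1 1 1 0 1 1 0 (by simp only [U.l]; linarith only [w3]),
                              U.p h0_3,
                              U.p h0_12,
                              U.z h1_3,
                              U.z h2_3]
                          · linarith only [H0.1, H0.2, H1.1, H1.2, H2.1, H2.2, H3.1, H3.2, H4.1, H4.2, H5.1, H5.2, H6.1, H6.2, H7.1, H7.2, H8.1, H8.2, H9.1, H9.2, H10.1, H10.2, H11.1, H11.2, H12.1, H12.2, H13.1, H13.2, H14.1, H14.2, H15.1, H15.2,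
                              U.g u 1 1 1 0,
                              U.g u 1 0 0 1,
                              U.g u 0 1 0 1,
                              U.lp u 0 1 1 1 1 1 1 1 (by simp only [U.l]; linarith only [u0]),
                              U.lp u 0 0 1 1 0 1 1 1 (by simp only [U.l]; linarith only [u1]),
                              U.s u 0 0 0 0 1 0 0 0 0 0 1 0 1 0 1 0 (by simp only [U.l]; linarith only [u0]) (by simp only [U.l]; linarith only [u2]) (by simp only [U.l]; ring),
                              U.s u 1 0 0 1 1 1 0 1 1 0 1 1 1 1 1 1 (by simp only [U.l]; linarith only [u1]) (by simp only [U.l]; linarith only [u2]) (by simp only [U.l]; ring),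
                              U.s u 0 0 0 0 0 0 1 0 0 0 0 1 0 0 1 1 (by simp only [U.l]; linarith only [u2]) (by simp only [U.l]; linarith only [u3]) (by simp only [U.l]; ring),
                              U.n v 1 1 1 0,
                              U.g v 1 0 0 1,
                              U.lp v 0 1 0 1 0 0 0 1 (by simp only [U.l]; linarith only [v1]),
                              U.m v 0 0 1 0 0 0 0 0 (by simp only [U.l]; linarith only [v2]),
                              U.s v 1 0 1 0 1 0 0 0 1 0 1 1 1 0 0 1 (by simp only [U.l]; linarith only [v2]) (by simp only [U.l]; linarith only [v3]) (by simp only [U.l]; ring),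
                              U.g w 1 0 0 0,
                              U.g w 1 1 1 0,
                              U.lp w 1 0 0 0 1 0 1 0 (by simp only [U.l]; linarith only [w2]),
                              U.lp w 1 0 0 1 1 0 0 0 (by simp only [U.l]; linarith only [w3]),
                              U.s w 0 1 0 1 1 1 0 1 0 0 0 1 1 0 0 1 (by simp only [U.l]; linarith only [w0]) (by simp only [U.l]; linarith only [w1]) (by simp only [U.l]; ring),
                              U.s w 0 0 0 0 1 0 0 0 0 0 1 0 1 0 1 0 (by simp only [U.l]; linarith only [w0]) (by simp only [U.l]; linarith only [w2]) (by simp only [U.l]; ring),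
                              U.p h1_11,
                              U.p h2_13,
                              U.p h0_3,
                              U.p h0_12,
                              U.z h1_3,
                              U.p h2_3]
                        · rcases le_total (w.l 1 1 0 0) 0 with h2_3 | h2_3
                          · linarith only [H0.1, H0.2, H1.1, H1.2, H2.1, H2.2, H3.1, H3.2, H4.1, H4.2, H5.1, H5.2, H6.1, H6.2, H7.1, H7.2, H8.1, H8.2, H9.1, H9.2, H10.1, H10.2, H11.1, H11.2, H12.1, H12.2, H13.1, H13.2, H14.1, H14.2, H15.1, H15.2,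
                              U.g u 1 0 1 0,
                              U.g u 0 1 1 0,
                              U.g u 1 1 1 1,
                              U.lp u 1 1 0 1 1 1 1 1 (by simp only [U.l]; linarith only [u2]),
                              U.s u 0 0 0 0 1 0 0 0 0 0 0 1 1 0 0 1 (by simp only [U.l]; linarith only [u0]) (by simp only [U.l]; linarith only [u3]) (by simp only [U.l]; ring),
                              U.s u 1 0 1 0 1 1 1 0 1 0 1 1 1 1 1 1 (by simp only [U.l]; linarith only [u1]) (by simp only [U.l]; linarith only [u3]) (by simp only [U.l]; ring),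
                              U.s u 0 0 0 0 0 0 1 0 0 0 0 1 0 0 1 1 (by simp only [U.l]; linarith only [u2]) (by simp only [U.l]; linarith only [u3]) (by simp only [U.l]; ring),
                              U.g v 1 0 0 0,
                              U.g v 1 0 1 0,
                              U.g v 1 0 0 1,
                              U.g v 1 1 0 1,
                              U.lp v 0 0 0 0 1 0 0 0 (by simp only [U.l]; linarith only [v0]),
                              U.s v 0 1 1 0 1 1 1 0 0 0 1 0 1 0 1 0 (by simp only [U.l]; linarith only [v0]) (by simp only [U.l]; linarith only [v1]) (by simp only [U.l]; ring),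
                              U.n w 1 1 0 1,
                              U.m w 0 0 0 1 0 0 0 0 (by simp only [U.l]; linarith only [w3]),
                              U.s w 0 1 1 0 1 1 1 0 0 0 1 0 1 0 1 0 (by simp only [U.l]; linarith only [w0]) (by simp only [U.l]; linarith only [w1]) (by simp only [U.l]; ring),
                              U.s w 1 0 0 1 1 0 1 1 1 0 0 0 1 0 1 0 (by simp only [U.l]; linarith only [w2]) (by simp only [U.l]; linarith only [w3]) (by simp only [U.l]; ring),
                              U.p h1_8,
                              U.p h1_13,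
                              U.p h0_3,
                              U.p h0_12,
                              U.p h1_3,
                              U.z h2_3]
                          · linarith only [H0.1, H0.2, H1.1, H1.2, H2.1, H2.2, H3.1, H3.2, H4.1, H4.2, H5.1, H5.2, H6.1, H6.2, H7.1, H7.2, H8.1, H8.2, H9.1, H9.2, H10.1, H10.2, H11.1, H11.2, H12.1, H12.2, H13.1, H13.2, H14.1, H14.2, H15.1, H15.2,
                              U.g u 1 1 1 1,
                              U.lp u 0 0 1 1 1 0 1 1 (by simp only [U.l]; linarith only [u0]),
                              U.lp u 1 0 1 0 1 1 1 0 (by simp only [U.l]; linarith only [u1]),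
                              U.lp u 1 0 0 1 1 0 1 1 (by simp only [U.l]; linarith only [u2]),
                              U.lp u 1 1 1 0 1 1 1 1 (by simp only [U.l]; linarith only [u3]),
                              U.g v 1 0 0 0,
                              U.g v 1 0 0 1,
                              U.g v 1 1 1 1,
                              U.lp v 1 0 1 0 1 0 0 0 (by simp only [U.l]; linarith only [v2]),
                              U.g w 1 0 0 0,
                              U.lp w 1 1 1 1 1 0 1 1 (by simp only [U.l]; linarith only [w1]),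
                              U.s w 1 0 0 1 1 0 1 1 1 0 0 0 1 0 1 0 (by simp only [U.l]; linarith only [w2]) (by simp only [U.l]; linarith only [w3]) (by simp only [U.l]; ring),
                              U.p h1_13,
                              U.p h0_3,
                              U.p h0_12,
                              U.p h1_3,
                              U.p h2_3]
  · linarith only [H0.1, H0.2, H1.1, H1.2, H2.1, H2.2, H3.1, H3.2, H4.1, H4.2, H5.1, H5.2, H6.1, H6.2, H7.1, H7.2, H8.1, H8.2, H9.1, H9.2, H10.1, H10.2, H11.1, H11.2, H12.1, H12.2, H13.1, H13.2, H14.1, H14.2, H15.1, H15.2,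
      U.g u 1 0 1 0,
      U.lp u 0 1 1 1 1 1 1 1 (by simp only [U.l]; linarith only [u0]),
      U.lp u 0 1 0 1 0 1 1 1 (by simp only [U.l]; linarith only [u2]),
      U.s u 0 0 0 0 1 0 0 0 0 0 0 1 1 0 0 1 (by simp only [U.l]; linarith only [u0]) (by simp only [U.l]; linarith only [u3]) (by simp only [U.l]; ring),
      U.s u 1 0 0 1 1 1 0 1 1 0 1 1 1 1 1 1 (by simp only [U.l]; linarith only [u1]) (by simp only [U.l]; linarith only [u2]) (by simp only [U.l]; ring),
      U.s v 0 1 0 1 1 1 0 1 0 0 0 1 1 0 0 1 (by simp only [U.l]; linarith only [v0]) (by simp only [U.l]; linarith only [v1]) (by simp only [U.l]; ring),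
      U.s v 1 0 1 0 1 0 0 0 1 0 1 1 1 0 0 1 (by simp only [U.l]; linarith only [v2]) (by simp only [U.l]; linarith only [v3]) (by simp only [U.l]; ring),
      U.s w 0 1 0 1 1 1 0 1 0 0 0 1 1 0 0 1 (by simp only [U.l]; linarith only [w0]) (by simp only [U.l]; linarith only [w1]) (by simp only [U.l]; ring),
      U.s w 1 0 0 1 1 0 1 1 1 0 0 0 1 0 1 0 (by simp only [U.l]; linarith only [w2]) (by simp only [U.l]; linarith only [w3]) (by simp only [U.l]; ring),
      U.p h0_0]

lemma coreP (A u v w : U) (u0 : 0 ≤ u.w0) (u1 : 0 ≤ u.w1) (u2 : 0 ≤ u.w2) (u3 : 0 ≤ u.w3) (v0 : 0 ≤ v.w0) (v1 : v.w1 ≤ 0) (v2 : v.w2 ≤ 0) (v3 : 0 ≤ v.w3) (w0 : 0 ≤ w.w0) (w1 : w.w1 ≤ 0) (w2 : 0 ≤ w.w2) (w3 : w.w3 ≤ 0)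
    (H : Bad 1 A u v w) : False := by
  have H0 := abs_le.1 (H 0 0 0 0 (by simp) (by simp) (by simp) (by simp))
  simp only [U.l] at H0
  have H1 := abs_le.1 (H 1 0 0 0 (by simp) (by simp) (by simp) (by simp))
  simp only [U.l] at H1
  have H2 := abs_le.1 (H 0 1 0 0 (by simp) (by simp) (by simp) (by simp))
  simp only [U.l] at H2
  have H3 := abs_le.1 (H 1 1 0 0 (by simp) (by simp) (by simp) (by simp))
  simp only [U.l] at H3
  have H4 := abs_le.1 (H 0 0 1 0 (by simp) (by simp) (by simp) (by simp))
  simp only [U.l] at H4
  have H5 := abs_le.1 (H 1 0 1 0 (by simp) (by simp) (by simp) (by simp))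
  simp only [U.l] at H5
  have H6 := abs_le.1 (H 0 1 1 0 (by simp) (by simp) (by simp) (by simp))
  simp only [U.l] at H6
  have H7 := abs_le.1 (H 1 1 1 0 (by simp) (by simp) (by simp) (by simp))
  simp only [U.l] at H7
  have H8 := abs_le.1 (H 0 0 0 1 (by simp) (by simp) (by simp) (by simp))
  simp only [U.l] at H8
  have H9 := abs_le.1 (H 1 0 0 1 (by simp) (by simp) (by simp) (by simp))
  simp only [U.l] at H9
  have H10 := abs_le.1 (H 0 1 0 1 (by simp) (by simp) (by simp) (by simp))
  simp only [U.l] at H10
  have H11 := abs_le.1 (H 1 1 0 1 (by simp) (by simp) (by simp) (by simp))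
  simp only [U.l] at H11
  have H12 := abs_le.1 (H 0 0 1 1 (by simp) (by simp) (by simp) (by simp))
  simp only [U.l] at H12
  have H13 := abs_le.1 (H 1 0 1 1 (by simp) (by simp) (by simp) (by simp))
  simp only [U.l] at H13
  have H14 := abs_le.1 (H 0 1 1 1 (by simp) (by simp) (by simp) (by simp))
  simp only [U.l] at H14
  have H15 := abs_le.1 (H 1 1 1 1 (by simp) (by simp) (by simp) (by simp))
  simp only [U.l] at H15
  rcases le_total (u.l 1 1 0 0) 0 with h0_3 | h0_3
  · linarith only [H0.1, H0.2, H1.1, H1.2, H2.1, H2.2, H3.1, H3.2, H4.1, H4.2, H5.1, H5.2, H6.1, H6.2, H7.1, H7.2, H8.1, H8.2, H9.1, H9.2, H10.1, H10.2, H11.1, H11.2, H12.1, H12.2, H13.1, H13.2, H14.1, H14.2, H15.1, H15.2,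
      U.n u 1 0 0 0,
      U.m u 0 0 0 0 0 1 0 0 (by simp only [U.l]; linarith only [u1]),
      U.s v 0 1 0 0 1 1 0 0 0 0 0 0 1 0 0 0 (by simp only [U.l]; linarith only [v0]) (by simp only [U.l]; linarith only [v1]) (by simp only [U.l]; ring),
      U.s w 0 1 0 0 1 1 0 0 0 0 0 0 1 0 0 0 (by simp only [U.l]; linarith only [w0]) (by simp only [U.l]; linarith only [w1]) (by simp only [U.l]; ring),
      U.z h0_3]
  · linarith only [H0.1, H0.2, H1.1, H1.2, H2.1, H2.2, H3.1, H3.2, H4.1, H4.2, H5.1, H5.2, H6.1, H6.2, H7.1, H7.2, H8.1, H8.2, H9.1, H9.2, H10.1, H10.2, H11.1, H11.2, H12.1, H12.2, H13.1, H13.2, H14.1, H14.2, H15.1, H15.2,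
      U.g u 1 1 1 1,
      U.lp u 1 1 0 1 1 1 1 1 (by simp only [U.l]; linarith only [u2]),
      U.lp u 1 1 1 0 1 1 1 1 (by simp only [U.l]; linarith only [u3]),
      U.s v 1 1 1 0 1 1 0 0 1 1 1 1 1 1 0 1 (by simp only [U.l]; linarith only [v2]) (by simp only [U.l]; linarith only [v3]) (by simp only [U.l]; ring),
      U.s w 1 1 0 1 1 1 1 1 1 1 0 0 1 1 1 0 (by simp only [U.l]; linarith only [w2]) (by simp only [U.l]; linarith only [w3]) (by simp only [U.l]; ring),
      U.p h0_3]

def U.sw12 (u : U) : U := ⟨u.c, u.w0, u.w2, u.w1, u.w3⟩
def U.sw23 (u : U) : U := ⟨u.c, u.w0, u.w1, u.w3, u.w2⟩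

lemma Bad.sw12 {σ : ℝ} {A u v w : U} (H : Bad σ A u v w) :
    Bad σ A.sw12 u.sw12 v.sw12 w.sw12 := by
  intro x0 x1 x2 x3 h0 h1 h2 h3
  have e : ∀ y : U, y.sw12.l x0 x1 x2 x3 = y.l x0 x2 x1 x3 := fun y => by
    simp only [U.l, U.sw12]; ring
  have := H x0 x2 x1 x3 h0 h2 h1 h3
  simp only [U.f, e] at this ⊢
  rw [abs_le] at this ⊢
  constructor <;> nlinarith [this.1, this.2]

lemma Bad.sw23 {σ : ℝ} {A u v w : U} (H : Bad σ A u v w) :
    Bad σ A.sw23 u.sw23 v.sw23 w.sw23 := by
  intro x0 x1 x2 x3 h0 h1 h2 h3
  have e : ∀ y : U, y.sw23.l x0 x1 x2 x3 = y.l x0 x1 x3 x2 := fun y => by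
    simp only [U.l, U.sw23]; ring
  have := H x0 x1 x3 x2 h0 h1 h3 h2
  simp only [U.f, e] at this ⊢
  rw [abs_le] at this ⊢
  constructor <;> nlinarith [this.1, this.2]

lemma stepN (A u v w : U) (u0 : 0 ≤ u.w0) (u1 : 0 ≤ u.w1) (u2 : 0 ≤ u.w2) (u3 : 0 ≤ u.w3)
    (v0 : 0 ≤ v.w0) (w0 : 0 ≤ w.w0) (H : Bad (-1) A u v w) : False := by
  rcases le_total 0 v.w1 with v1 | v1
  · rcases le_total 0 w.w1 with w1 | w1
    · have H0 := abs_le.1 (H 0 0 0 0 (by simp) (by simp) (by simp) (by simp))
      simp only [U.l] at H0
      have H1 := abs_le.1 (H 1 0 0 0 (by simp) (by simp) (by simp) (by simp))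
      simp only [U.l] at H1
      have H2 := abs_le.1 (H 0 1 0 0 (by simp) (by simp) (by simp) (by simp))
      simp only [U.l] at H2
      have H3 := abs_le.1 (H 1 1 0 0 (by simp) (by simp) (by simp) (by simp))
      simp only [U.l] at H3
      linarith only [H0.1, H0.2, H1.1, H1.2, H2.1, H2.2, H3.1, H3.2,
        U.s u 0 0 0 0 1 0 0 0 0 1 0 0 1 1 0 0 (by simp only [U.l]; linarith only [u0]) (by simp only [U.l]; linarith only [u1]) (by simp only [U.l]; ring),
        U.s v 0 0 0 0 1 0 0 0 0 1 0 0 1 1 0 0 (by simp only [U.l]; linarith only [v0]) (by simp only [U.l]; linarith only [v1]) (by simp only [U.l]; ring),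
        U.s w 0 0 0 0 1 0 0 0 0 1 0 0 1 1 0 0 (by simp only [U.l]; linarith only [w0]) (by simp only [U.l]; linarith only [w1]) (by simp only [U.l]; ring)]
    · rcases le_total 0 v.w2 with v2 | v2
      · rcases le_total 0 w.w2 with w2 | w2
        · have H0 := abs_le.1 (H 0 0 0 0 (by simp) (by simp) (by simp) (by simp))
          simp only [U.l] at H0
          have H1 := abs_le.1 (H 1 0 0 0 (by simp) (by simp) (by simp) (by simp))
          simp only [U.l] at H1
          have H4 := abs_le.1 (H 0 0 1 0 (by simp) (by simp) (by simp) (by simp))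
          simp only [U.l] at H4
          have H5 := abs_le.1 (H 1 0 1 0 (by simp) (by simp) (by simp) (by simp))
          simp only [U.l] at H5
          linarith only [H0.1, H0.2, H1.1, H1.2, H4.1, H4.2, H5.1, H5.2,
            U.s u 0 0 0 0 1 0 0 0 0 0 1 0 1 0 1 0 (by simp only [U.l]; linarith only [u0]) (by simp only [U.l]; linarith only [u2]) (by simp only [U.l]; ring),
            U.s v 0 0 0 0 1 0 0 0 0 0 1 0 1 0 1 0 (by simp only [U.l]; linarith only [v0]) (by simp only [U.l]; linarith only [v2]) (by simp only [U.l]; ring),
            U.s w 0 0 0 0 1 0 0 0 0 0 1 0 1 0 1 0 (by simp only [U.l]; linarith only [w0]) (by simp only [U.l]; linarith only [w2]) (by simp only [U.l]; ring)]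
        · have H0 := abs_le.1 (H 0 0 0 0 (by simp) (by simp) (by simp) (by simp))
          simp only [U.l] at H0
          have H2 := abs_le.1 (H 0 1 0 0 (by simp) (by simp) (by simp) (by simp))
          simp only [U.l] at H2
          have H4 := abs_le.1 (H 0 0 1 0 (by simp) (by simp) (by simp) (by simp))
          simp only [U.l] at H4
          have H6 := abs_le.1 (H 0 1 1 0 (by simp) (by simp) (by simp) (by simp))
          simp only [U.l] at H6
          linarith only [H0.1, H0.2, H2.1, H2.2, H4.1, H4.2, H6.1, H6.2,
            U.s u 0 0 0 0 0 1 0 0 0 0 1 0 0 1 1 0 (by simp only [U.l]; linarith only [u1]) (by simp only [U.l]; linarith only [u2]) (by simp only [U.l]; ring),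
            U.s v 0 0 0 0 0 1 0 0 0 0 1 0 0 1 1 0 (by simp only [U.l]; linarith only [v1]) (by simp only [U.l]; linarith only [v2]) (by simp only [U.l]; ring),
            U.s w 0 1 1 0 0 0 1 0 0 1 0 0 0 0 0 0 (by simp only [U.l]; linarith only [w1]) (by simp only [U.l]; linarith only [w2]) (by simp only [U.l]; ring)]
      · rcases le_total 0 w.w2 with w2 | w2
        · rcases le_total 0 v.w3 with v3 | v3
          · rcases le_total 0 w.w3 with w3 | w3
            · have H0 := abs_le.1 (H 0 0 0 0 (by simp) (by simp) (by simp) (by simp))
              simp only [U.l] at H0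
              have H1 := abs_le.1 (H 1 0 0 0 (by simp) (by simp) (by simp) (by simp))
              simp only [U.l] at H1
              have H8 := abs_le.1 (H 0 0 0 1 (by simp) (by simp) (by simp) (by simp))
              simp only [U.l] at H8
              have H9 := abs_le.1 (H 1 0 0 1 (by simp) (by simp) (by simp) (by simp))
              simp only [U.l] at H9
              linarith only [H0.1, H0.2, H1.1, H1.2, H8.1, H8.2, H9.1, H9.2,
                U.s u 0 0 0 0 1 0 0 0 0 0 0 1 1 0 0 1 (by simp only [U.l]; linarith only [u0]) (by simp only [U.l]; linarith only [u3]) (by simp only [U.l]; ring),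
                U.s v 0 0 0 0 1 0 0 0 0 0 0 1 1 0 0 1 (by simp only [U.l]; linarith only [v0]) (by simp only [U.l]; linarith only [v3]) (by simp only [U.l]; ring),
                U.s w 0 0 0 0 1 0 0 0 0 0 0 1 1 0 0 1 (by simp only [U.l]; linarith only [w0]) (by simp only [U.l]; linarith only [w3]) (by simp only [U.l]; ring)]
            · have H0 := abs_le.1 (H 0 0 0 0 (by simp) (by simp) (by simp) (by simp))
              simp only [U.l] at H0
              have H2 := abs_le.1 (H 0 1 0 0 (by simp) (by simp) (by simp) (by simp))
              simp only [U.l] at H2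
              have H8 := abs_le.1 (H 0 0 0 1 (by simp) (by simp) (by simp) (by simp))
              simp only [U.l] at H8
              have H10 := abs_le.1 (H 0 1 0 1 (by simp) (by simp) (by simp) (by simp))
              simp only [U.l] at H10
              linarith only [H0.1, H0.2, H2.1, H2.2, H8.1, H8.2, H10.1, H10.2,
                U.s u 0 0 0 0 0 1 0 0 0 0 0 1 0 1 0 1 (by simp only [U.l]; linarith only [u1]) (by simp only [U.l]; linarith only [u3]) (by simp only [U.l]; ring),
                U.s v 0 0 0 0 0 1 0 0 0 0 0 1 0 1 0 1 (by simp only [U.l]; linarith only [v1]) (by simp only [U.l]; linarith only [v3]) (by simp only [U.l]; ring),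
                U.s w 0 1 0 1 0 0 0 1 0 1 0 0 0 0 0 0 (by simp only [U.l]; linarith only [w1]) (by simp only [U.l]; linarith only [w3]) (by simp only [U.l]; ring)]
          · rcases le_total 0 w.w3 with w3 | w3
            · have H0 := abs_le.1 (H 0 0 0 0 (by simp) (by simp) (by simp) (by simp))
              simp only [U.l] at H0
              have H4 := abs_le.1 (H 0 0 1 0 (by simp) (by simp) (by simp) (by simp))
              simp only [U.l] at H4
              have H8 := abs_le.1 (H 0 0 0 1 (by simp) (by simp) (by simp) (by simp))
              simp only [U.l] at H8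
              have H12 := abs_le.1 (H 0 0 1 1 (by simp) (by simp) (by simp) (by simp))
              simp only [U.l] at H12
              linarith only [H0.1, H0.2, H4.1, H4.2, H8.1, H8.2, H12.1, H12.2,
                U.s u 0 0 0 0 0 0 1 0 0 0 0 1 0 0 1 1 (by simp only [U.l]; linarith only [u2]) (by simp only [U.l]; linarith only [u3]) (by simp only [U.l]; ring),
                U.s v 0 0 1 1 0 0 0 1 0 0 1 0 0 0 0 0 (by simp only [U.l]; linarith only [v2]) (by simp only [U.l]; linarith only [v3]) (by simp only [U.l]; ring),
                U.s w 0 0 0 0 0 0 1 0 0 0 0 1 0 0 1 1 (by simp only [U.l]; linarith only [w2]) (by simp only [U.l]; linarith only [w3]) (by simp only [U.l]; ring)]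
            · exact coreN A.sw12.sw23.sw12 u.sw12.sw23.sw12 v.sw12.sw23.sw12 w.sw12.sw23.sw12 u0 u3 u2 u1 v0 v3 v2 v1 w0 w3 w2 w1 H.sw12.sw23.sw12
        · rcases le_total 0 v.w3 with v3 | v3
          · rcases le_total 0 w.w3 with w3 | w3
            · have H0 := abs_le.1 (H 0 0 0 0 (by simp) (by simp) (by simp) (by simp))
              simp only [U.l] at H0
              have H1 := abs_le.1 (H 1 0 0 0 (by simp) (by simp) (by simp) (by simp))
              simp only [U.l] at H1
              have H8 := abs_le.1 (H 0 0 0 1 (by simp) (by simp) (by simp) (by simp))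
              simp only [U.l] at H8
              have H9 := abs_le.1 (H 1 0 0 1 (by simp) (by simp) (by simp) (by simp))
              simp only [U.l] at H9
              linarith only [H0.1, H0.2, H1.1, H1.2, H8.1, H8.2, H9.1, H9.2,
                U.s u 0 0 0 0 1 0 0 0 0 0 0 1 1 0 0 1 (by simp only [U.l]; linarith only [u0]) (by simp only [U.l]; linarith only [u3]) (by simp only [U.l]; ring),
                U.s v 0 0 0 0 1 0 0 0 0 0 0 1 1 0 0 1 (by simp only [U.l]; linarith only [v0]) (by simp only [U.l]; linarith only [v3]) (by simp only [U.l]; ring),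
                U.s w 0 0 0 0 1 0 0 0 0 0 0 1 1 0 0 1 (by simp only [U.l]; linarith only [w0]) (by simp only [U.l]; linarith only [w3]) (by simp only [U.l]; ring)]
            · have H0 := abs_le.1 (H 0 0 0 0 (by simp) (by simp) (by simp) (by simp))
              simp only [U.l] at H0
              have H2 := abs_le.1 (H 0 1 0 0 (by simp) (by simp) (by simp) (by simp))
              simp only [U.l] at H2
              have H8 := abs_le.1 (H 0 0 0 1 (by simp) (by simp) (by simp) (by simp))
              simp only [U.l] at H8
              have H10 := abs_le.1 (H 0 1 0 1 (by simp) (by simp) (by simp) (by simp))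
              simp only [U.l] at H10
              linarith only [H0.1, H0.2, H2.1, H2.2, H8.1, H8.2, H10.1, H10.2,
                U.s u 0 0 0 0 0 1 0 0 0 0 0 1 0 1 0 1 (by simp only [U.l]; linarith only [u1]) (by simp only [U.l]; linarith only [u3]) (by simp only [U.l]; ring),
                U.s v 0 0 0 0 0 1 0 0 0 0 0 1 0 1 0 1 (by simp only [U.l]; linarith only [v1]) (by simp only [U.l]; linarith only [v3]) (by simp only [U.l]; ring),
                U.s w 0 1 0 1 0 0 0 1 0 1 0 0 0 0 0 0 (by simp only [U.l]; linarith only [w1]) (by simp only [U.l]; linarith only [w3]) (by simp only [U.l]; ring)]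
          · rcases le_total 0 w.w3 with w3 | w3
            · exact coreN A.sw12.sw23 u.sw12.sw23 v.sw12.sw23 w.sw12.sw23 u0 u2 u3 u1 v0 v2 v3 v1 w0 w2 w3 w1 H.sw12.sw23
            · have H0 := abs_le.1 (H 0 0 0 0 (by simp) (by simp) (by simp) (by simp))
              simp only [U.l] at H0
              have H4 := abs_le.1 (H 0 0 1 0 (by simp) (by simp) (by simp) (by simp))
              simp only [U.l] at H4
              have H8 := abs_le.1 (H 0 0 0 1 (by simp) (by simp) (by simp) (by simp))
              simp only [U.l] at H8
              have H12 := abs_le.1 (H 0 0 1 1 (by simp) (by simp) (by simp) (by simp))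
              simp only [U.l] at H12
              linarith only [H0.1, H0.2, H4.1, H4.2, H8.1, H8.2, H12.1, H12.2,
                U.s u 0 0 0 0 0 0 1 0 0 0 0 1 0 0 1 1 (by simp only [U.l]; linarith only [u2]) (by simp only [U.l]; linarith only [u3]) (by simp only [U.l]; ring),
                U.s v 0 0 1 1 0 0 0 1 0 0 1 0 0 0 0 0 (by simp only [U.l]; linarith only [v2]) (by simp only [U.l]; linarith only [v3]) (by simp only [U.l]; ring),
                U.s w 0 0 1 1 0 0 0 1 0 0 1 0 0 0 0 0 (by simp only [U.l]; linarith only [w2]) (by simp only [U.l]; linarith only [w3]) (by simp only [U.l]; ring)]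
  · rcases le_total 0 w.w1 with w1 | w1
    · rcases le_total 0 v.w2 with v2 | v2
      · rcases le_total 0 w.w2 with w2 | w2
        · have H0 := abs_le.1 (H 0 0 0 0 (by simp) (by simp) (by simp) (by simp))
          simp only [U.l] at H0
          have H1 := abs_le.1 (H 1 0 0 0 (by simp) (by simp) (by simp) (by simp))
          simp only [U.l] at H1
          have H4 := abs_le.1 (H 0 0 1 0 (by simp) (by simp) (by simp) (by simp))
          simp only [U.l] at H4
          have H5 := abs_le.1 (H 1 0 1 0 (by simp) (by simp) (by simp) (by simp))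
          simp only [U.l] at H5
          linarith only [H0.1, H0.2, H1.1, H1.2, H4.1, H4.2, H5.1, H5.2,
            U.s u 0 0 0 0 1 0 0 0 0 0 1 0 1 0 1 0 (by simp only [U.l]; linarith only [u0]) (by simp only [U.l]; linarith only [u2]) (by simp only [U.l]; ring),
            U.s v 0 0 0 0 1 0 0 0 0 0 1 0 1 0 1 0 (by simp only [U.l]; linarith only [v0]) (by simp only [U.l]; linarith only [v2]) (by simp only [U.l]; ring),
            U.s w 0 0 0 0 1 0 0 0 0 0 1 0 1 0 1 0 (by simp only [U.l]; linarith only [w0]) (by simp only [U.l]; linarith only [w2]) (by simp only [U.l]; ring)]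
        · rcases le_total 0 v.w3 with v3 | v3
          · rcases le_total 0 w.w3 with w3 | w3
            · have H0 := abs_le.1 (H 0 0 0 0 (by simp) (by simp) (by simp) (by simp))
              simp only [U.l] at H0
              have H1 := abs_le.1 (H 1 0 0 0 (by simp) (by simp) (by simp) (by simp))
              simp only [U.l] at H1
              have H8 := abs_le.1 (H 0 0 0 1 (by simp) (by simp) (by simp) (by simp))
              simp only [U.l] at H8
              have H9 := abs_le.1 (H 1 0 0 1 (by simp) (by simp) (by simp) (by simp))
              simp only [U.l] at H9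
              linarith only [H0.1, H0.2, H1.1, H1.2, H8.1, H8.2, H9.1, H9.2,
                U.s u 0 0 0 0 1 0 0 0 0 0 0 1 1 0 0 1 (by simp only [U.l]; linarith only [u0]) (by simp only [U.l]; linarith only [u3]) (by simp only [U.l]; ring),
                U.s v 0 0 0 0 1 0 0 0 0 0 0 1 1 0 0 1 (by simp only [U.l]; linarith only [v0]) (by simp only [U.l]; linarith only [v3]) (by simp only [U.l]; ring),
                U.s w 0 0 0 0 1 0 0 0 0 0 0 1 1 0 0 1 (by simp only [U.l]; linarith only [w0]) (by simp only [U.l]; linarith only [w3]) (by simp only [U.l]; ring)]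
            · have H0 := abs_le.1 (H 0 0 0 0 (by simp) (by simp) (by simp) (by simp))
              simp only [U.l] at H0
              have H4 := abs_le.1 (H 0 0 1 0 (by simp) (by simp) (by simp) (by simp))
              simp only [U.l] at H4
              have H8 := abs_le.1 (H 0 0 0 1 (by simp) (by simp) (by simp) (by simp))
              simp only [U.l] at H8
              have H12 := abs_le.1 (H 0 0 1 1 (by simp) (by simp) (by simp) (by simp))
              simp only [U.l] at H12
              linarith only [H0.1, H0.2, H4.1, H4.2, H8.1, H8.2, H12.1, H12.2,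
                U.s u 0 0 0 0 0 0 1 0 0 0 0 1 0 0 1 1 (by simp only [U.l]; linarith only [u2]) (by simp only [U.l]; linarith only [u3]) (by simp only [U.l]; ring),
                U.s v 0 0 0 0 0 0 1 0 0 0 0 1 0 0 1 1 (by simp only [U.l]; linarith only [v2]) (by simp only [U.l]; linarith only [v3]) (by simp only [U.l]; ring),
                U.s w 0 0 1 1 0 0 0 1 0 0 1 0 0 0 0 0 (by simp only [U.l]; linarith only [w2]) (by simp only [U.l]; linarith only [w3]) (by simp only [U.l]; ring)]
          · rcases le_total 0 w.w3 with w3 | w3
            · have H0 := abs_le.1 (H 0 0 0 0 (by simp) (by simp) (by simp) (by simp))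
              simp only [U.l] at H0
              have H2 := abs_le.1 (H 0 1 0 0 (by simp) (by simp) (by simp) (by simp))
              simp only [U.l] at H2
              have H8 := abs_le.1 (H 0 0 0 1 (by simp) (by simp) (by simp) (by simp))
              simp only [U.l] at H8
              have H10 := abs_le.1 (H 0 1 0 1 (by simp) (by simp) (by simp) (by simp))
              simp only [U.l] at H10
              linarith only [H0.1, H0.2, H2.1, H2.2, H8.1, H8.2, H10.1, H10.2,
                U.s u 0 0 0 0 0 1 0 0 0 0 0 1 0 1 0 1 (by simp only [U.l]; linarith only [u1]) (by simp only [U.l]; linarith only [u3]) (by simp only [U.l]; ring),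
                U.s v 0 1 0 1 0 0 0 1 0 1 0 0 0 0 0 0 (by simp only [U.l]; linarith only [v1]) (by simp only [U.l]; linarith only [v3]) (by simp only [U.l]; ring),
                U.s w 0 0 0 0 0 1 0 0 0 0 0 1 0 1 0 1 (by simp only [U.l]; linarith only [w1]) (by simp only [U.l]; linarith only [w3]) (by simp only [U.l]; ring)]
            · exact coreN A.sw23.sw12 u.sw23.sw12 v.sw23.sw12 w.sw23.sw12 u0 u3 u1 u2 v0 v3 v1 v2 w0 w3 w1 w2 H.sw23.sw12
      · rcases le_total 0 w.w2 with w2 | w2
        · have H0 := abs_le.1 (H 0 0 0 0 (by simp) (by simp) (by simp) (by simp))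
          simp only [U.l] at H0
          have H2 := abs_le.1 (H 0 1 0 0 (by simp) (by simp) (by simp) (by simp))
          simp only [U.l] at H2
          have H4 := abs_le.1 (H 0 0 1 0 (by simp) (by simp) (by simp) (by simp))
          simp only [U.l] at H4
          have H6 := abs_le.1 (H 0 1 1 0 (by simp) (by simp) (by simp) (by simp))
          simp only [U.l] at H6
          linarith only [H0.1, H0.2, H2.1, H2.2, H4.1, H4.2, H6.1, H6.2,
            U.s u 0 0 0 0 0 1 0 0 0 0 1 0 0 1 1 0 (by simp only [U.l]; linarith only [u1]) (by simp only [U.l]; linarith only [u2]) (by simp only [U.l]; ring),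
            U.s v 0 1 1 0 0 0 1 0 0 1 0 0 0 0 0 0 (by simp only [U.l]; linarith only [v1]) (by simp only [U.l]; linarith only [v2]) (by simp only [U.l]; ring),
            U.s w 0 0 0 0 0 1 0 0 0 0 1 0 0 1 1 0 (by simp only [U.l]; linarith only [w1]) (by simp only [U.l]; linarith only [w2]) (by simp only [U.l]; ring)]
        · rcases le_total 0 v.w3 with v3 | v3
          · rcases le_total 0 w.w3 with w3 | w3
            · have H0 := abs_le.1 (H 0 0 0 0 (by simp) (by simp) (by simp) (by simp))
              simp only [U.l] at H0
              have H1 := abs_le.1 (H 1 0 0 0 (by simp) (by simp) (by simp) (by simp))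
              simp only [U.l] at H1
              have H8 := abs_le.1 (H 0 0 0 1 (by simp) (by simp) (by simp) (by simp))
              simp only [U.l] at H8
              have H9 := abs_le.1 (H 1 0 0 1 (by simp) (by simp) (by simp) (by simp))
              simp only [U.l] at H9
              linarith only [H0.1, H0.2, H1.1, H1.2, H8.1, H8.2, H9.1, H9.2,
                U.s u 0 0 0 0 1 0 0 0 0 0 0 1 1 0 0 1 (by simp only [U.l]; linarith only [u0]) (by simp only [U.l]; linarith only [u3]) (by simp only [U.l]; ring),
                U.s v 0 0 0 0 1 0 0 0 0 0 0 1 1 0 0 1 (by simp only [U.l]; linarith only [v0]) (by simp only [U.l]; linarith only [v3]) (by simp only [U.l]; ring),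
                U.s w 0 0 0 0 1 0 0 0 0 0 0 1 1 0 0 1 (by simp only [U.l]; linarith only [w0]) (by simp only [U.l]; linarith only [w3]) (by simp only [U.l]; ring)]
            · exact coreN A.sw12 u.sw12 v.sw12 w.sw12 u0 u2 u1 u3 v0 v2 v1 v3 w0 w2 w1 w3 H.sw12
          · rcases le_total 0 w.w3 with w3 | w3
            · have H0 := abs_le.1 (H 0 0 0 0 (by simp) (by simp) (by simp) (by simp))
              simp only [U.l] at H0
              have H2 := abs_le.1 (H 0 1 0 0 (by simp) (by simp) (by simp) (by simp))
              simp only [U.l] at H2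
              have H8 := abs_le.1 (H 0 0 0 1 (by simp) (by simp) (by simp) (by simp))
              simp only [U.l] at H8
              have H10 := abs_le.1 (H 0 1 0 1 (by simp) (by simp) (by simp) (by simp))
              simp only [U.l] at H10
              linarith only [H0.1, H0.2, H2.1, H2.2, H8.1, H8.2, H10.1, H10.2,
                U.s u 0 0 0 0 0 1 0 0 0 0 0 1 0 1 0 1 (by simp only [U.l]; linarith only [u1]) (by simp only [U.l]; linarith only [u3]) (by simp only [U.l]; ring),
                U.s v 0 1 0 1 0 0 0 1 0 1 0 0 0 0 0 0 (by simp only [U.l]; linarith only [v1]) (by simp only [U.l]; linarith only [v3]) (by simp only [U.l]; ring),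
                U.s w 0 0 0 0 0 1 0 0 0 0 0 1 0 1 0 1 (by simp only [U.l]; linarith only [w1]) (by simp only [U.l]; linarith only [w3]) (by simp only [U.l]; ring)]
            · have H0 := abs_le.1 (H 0 0 0 0 (by simp) (by simp) (by simp) (by simp))
              simp only [U.l] at H0
              have H4 := abs_le.1 (H 0 0 1 0 (by simp) (by simp) (by simp) (by simp))
              simp only [U.l] at H4
              have H8 := abs_le.1 (H 0 0 0 1 (by simp) (by simp) (by simp) (by simp))
              simp only [U.l] at H8
              have H12 := abs_le.1 (H 0 0 1 1 (by simp) (by simp) (by simp) (by simp))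
              simp only [U.l] at H12
              linarith only [H0.1, H0.2, H4.1, H4.2, H8.1, H8.2, H12.1, H12.2,
                U.s u 0 0 0 0 0 0 1 0 0 0 0 1 0 0 1 1 (by simp only [U.l]; linarith only [u2]) (by simp only [U.l]; linarith only [u3]) (by simp only [U.l]; ring),
                U.s v 0 0 1 1 0 0 0 1 0 0 1 0 0 0 0 0 (by simp only [U.l]; linarith only [v2]) (by simp only [U.l]; linarith only [v3]) (by simp only [U.l]; ring),
                U.s w 0 0 1 1 0 0 0 1 0 0 1 0 0 0 0 0 (by simp only [U.l]; linarith only [w2]) (by simp only [U.l]; linarith only [w3]) (by simp only [U.l]; ring)]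
    · rcases le_total 0 v.w2 with v2 | v2
      · rcases le_total 0 w.w2 with w2 | w2
        · have H0 := abs_le.1 (H 0 0 0 0 (by simp) (by simp) (by simp) (by simp))
          simp only [U.l] at H0
          have H1 := abs_le.1 (H 1 0 0 0 (by simp) (by simp) (by simp) (by simp))
          simp only [U.l] at H1
          have H4 := abs_le.1 (H 0 0 1 0 (by simp) (by simp) (by simp) (by simp))
          simp only [U.l] at H4
          have H5 := abs_le.1 (H 1 0 1 0 (by simp) (by simp) (by simp) (by simp))
          simp only [U.l] at H5
          linarith only [H0.1, H0.2, H1.1, H1.2, H4.1, H4.2, H5.1, H5.2,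
            U.s u 0 0 0 0 1 0 0 0 0 0 1 0 1 0 1 0 (by simp only [U.l]; linarith only [u0]) (by simp only [U.l]; linarith only [u2]) (by simp only [U.l]; ring),
            U.s v 0 0 0 0 1 0 0 0 0 0 1 0 1 0 1 0 (by simp only [U.l]; linarith only [v0]) (by simp only [U.l]; linarith only [v2]) (by simp only [U.l]; ring),
            U.s w 0 0 0 0 1 0 0 0 0 0 1 0 1 0 1 0 (by simp only [U.l]; linarith only [w0]) (by simp only [U.l]; linarith only [w2]) (by simp only [U.l]; ring)]
        · rcases le_total 0 v.w3 with v3 | v3
          · rcases le_total 0 w.w3 with w3 | w3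
            · have H0 := abs_le.1 (H 0 0 0 0 (by simp) (by simp) (by simp) (by simp))
              simp only [U.l] at H0
              have H1 := abs_le.1 (H 1 0 0 0 (by simp) (by simp) (by simp) (by simp))
              simp only [U.l] at H1
              have H8 := abs_le.1 (H 0 0 0 1 (by simp) (by simp) (by simp) (by simp))
              simp only [U.l] at H8
              have H9 := abs_le.1 (H 1 0 0 1 (by simp) (by simp) (by simp) (by simp))
              simp only [U.l] at H9
              linarith only [H0.1, H0.2, H1.1, H1.2, H8.1, H8.2, H9.1, H9.2,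
                U.s u 0 0 0 0 1 0 0 0 0 0 0 1 1 0 0 1 (by simp only [U.l]; linarith only [u0]) (by simp only [U.l]; linarith only [u3]) (by simp only [U.l]; ring),
                U.s v 0 0 0 0 1 0 0 0 0 0 0 1 1 0 0 1 (by simp only [U.l]; linarith only [v0]) (by simp only [U.l]; linarith only [v3]) (by simp only [U.l]; ring),
                U.s w 0 0 0 0 1 0 0 0 0 0 0 1 1 0 0 1 (by simp only [U.l]; linarith only [w0]) (by simp only [U.l]; linarith only [w3]) (by simp only [U.l]; ring)]
            · have H0 := abs_le.1 (H 0 0 0 0 (by simp) (by simp) (by simp) (by simp))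
              simp only [U.l] at H0
              have H4 := abs_le.1 (H 0 0 1 0 (by simp) (by simp) (by simp) (by simp))
              simp only [U.l] at H4
              have H8 := abs_le.1 (H 0 0 0 1 (by simp) (by simp) (by simp) (by simp))
              simp only [U.l] at H8
              have H12 := abs_le.1 (H 0 0 1 1 (by simp) (by simp) (by simp) (by simp))
              simp only [U.l] at H12
              linarith only [H0.1, H0.2, H4.1, H4.2, H8.1, H8.2, H12.1, H12.2,
                U.s u 0 0 0 0 0 0 1 0 0 0 0 1 0 0 1 1 (by simp only [U.l]; linarith only [u2]) (by simp only [U.l]; linarith only [u3]) (by simp only [U.l]; ring),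
                U.s v 0 0 0 0 0 0 1 0 0 0 0 1 0 0 1 1 (by simp only [U.l]; linarith only [v2]) (by simp only [U.l]; linarith only [v3]) (by simp only [U.l]; ring),
                U.s w 0 0 1 1 0 0 0 1 0 0 1 0 0 0 0 0 (by simp only [U.l]; linarith only [w2]) (by simp only [U.l]; linarith only [w3]) (by simp only [U.l]; ring)]
          · rcases le_total 0 w.w3 with w3 | w3
            · exact coreN A.sw23 u.sw23 v.sw23 w.sw23 u0 u1 u3 u2 v0 v1 v3 v2 w0 w1 w3 w2 H.sw23
            · have H0 := abs_le.1 (H 0 0 0 0 (by simp) (by simp) (by simp) (by simp))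
              simp only [U.l] at H0
              have H2 := abs_le.1 (H 0 1 0 0 (by simp) (by simp) (by simp) (by simp))
              simp only [U.l] at H2
              have H8 := abs_le.1 (H 0 0 0 1 (by simp) (by simp) (by simp) (by simp))
              simp only [U.l] at H8
              have H10 := abs_le.1 (H 0 1 0 1 (by simp) (by simp) (by simp) (by simp))
              simp only [U.l] at H10
              linarith only [H0.1, H0.2, H2.1, H2.2, H8.1, H8.2, H10.1, H10.2,
                U.s u 0 0 0 0 0 1 0 0 0 0 0 1 0 1 0 1 (by simp only [U.l]; linarith only [u1]) (by simp only [U.l]; linarith only [u3]) (by simp only [U.l]; ring),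
                U.s v 0 1 0 1 0 0 0 1 0 1 0 0 0 0 0 0 (by simp only [U.l]; linarith only [v1]) (by simp only [U.l]; linarith only [v3]) (by simp only [U.l]; ring),
                U.s w 0 1 0 1 0 0 0 1 0 1 0 0 0 0 0 0 (by simp only [U.l]; linarith only [w1]) (by simp only [U.l]; linarith only [w3]) (by simp only [U.l]; ring)]
      · rcases le_total 0 w.w2 with w2 | w2
        · rcases le_total 0 v.w3 with v3 | v3
          · rcases le_total 0 w.w3 with w3 | w3
            · have H0 := abs_le.1 (H 0 0 0 0 (by simp) (by simp) (by simp) (by simp))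
              simp only [U.l] at H0
              have H1 := abs_le.1 (H 1 0 0 0 (by simp) (by simp) (by simp) (by simp))
              simp only [U.l] at H1
              have H8 := abs_le.1 (H 0 0 0 1 (by simp) (by simp) (by simp) (by simp))
              simp only [U.l] at H8
              have H9 := abs_le.1 (H 1 0 0 1 (by simp) (by simp) (by simp) (by simp))
              simp only [U.l] at H9
              linarith only [H0.1, H0.2, H1.1, H1.2, H8.1, H8.2, H9.1, H9.2,
                U.s u 0 0 0 0 1 0 0 0 0 0 0 1 1 0 0 1 (by simp only [U.l]; linarith only [u0]) (by simp only [U.l]; linarith only [u3]) (by simp only [U.l]; ring),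
                U.s v 0 0 0 0 1 0 0 0 0 0 0 1 1 0 0 1 (by simp only [U.l]; linarith only [v0]) (by simp only [U.l]; linarith only [v3]) (by simp only [U.l]; ring),
                U.s w 0 0 0 0 1 0 0 0 0 0 0 1 1 0 0 1 (by simp only [U.l]; linarith only [w0]) (by simp only [U.l]; linarith only [w3]) (by simp only [U.l]; ring)]
            · exact coreN A u v w u0 u1 u2 u3 v0 v1 v2 v3 w0 w1 w2 w3 H
          · rcases le_total 0 w.w3 with w3 | w3
            · have H0 := abs_le.1 (H 0 0 0 0 (by simp) (by simp) (by simp) (by simp))
              simp only [U.l] at H0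
              have H4 := abs_le.1 (H 0 0 1 0 (by simp) (by simp) (by simp) (by simp))
              simp only [U.l] at H4
              have H8 := abs_le.1 (H 0 0 0 1 (by simp) (by simp) (by simp) (by simp))
              simp only [U.l] at H8
              have H12 := abs_le.1 (H 0 0 1 1 (by simp) (by simp) (by simp) (by simp))
              simp only [U.l] at H12
              linarith only [H0.1, H0.2, H4.1, H4.2, H8.1, H8.2, H12.1, H12.2,
                U.s u 0 0 0 0 0 0 1 0 0 0 0 1 0 0 1 1 (by simp only [U.l]; linarith only [u2]) (by simp only [U.l]; linarith only [u3]) (by simp only [U.l]; ring),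
                U.s v 0 0 1 1 0 0 0 1 0 0 1 0 0 0 0 0 (by simp only [U.l]; linarith only [v2]) (by simp only [U.l]; linarith only [v3]) (by simp only [U.l]; ring),
                U.s w 0 0 0 0 0 0 1 0 0 0 0 1 0 0 1 1 (by simp only [U.l]; linarith only [w2]) (by simp only [U.l]; linarith only [w3]) (by simp only [U.l]; ring)]
            · have H0 := abs_le.1 (H 0 0 0 0 (by simp) (by simp) (by simp) (by simp))
              simp only [U.l] at H0
              have H2 := abs_le.1 (H 0 1 0 0 (by simp) (by simp) (by simp) (by simp))
              simp only [U.l] at H2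
              have H8 := abs_le.1 (H 0 0 0 1 (by simp) (by simp) (by simp) (by simp))
              simp only [U.l] at H8
              have H10 := abs_le.1 (H 0 1 0 1 (by simp) (by simp) (by simp) (by simp))
              simp only [U.l] at H10
              linarith only [H0.1, H0.2, H2.1, H2.2, H8.1, H8.2, H10.1, H10.2,
                U.s u 0 0 0 0 0 1 0 0 0 0 0 1 0 1 0 1 (by simp only [U.l]; linarith only [u1]) (by simp only [U.l]; linarith only [u3]) (by simp only [U.l]; ring),
                U.s v 0 1 0 1 0 0 0 1 0 1 0 0 0 0 0 0 (by simp only [U.l]; linarith only [v1]) (by simp only [U.l]; linarith only [v3]) (by simp only [U.l]; ring),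
                U.s w 0 1 0 1 0 0 0 1 0 1 0 0 0 0 0 0 (by simp only [U.l]; linarith only [w1]) (by simp only [U.l]; linarith only [w3]) (by simp only [U.l]; ring)]
        · have H0 := abs_le.1 (H 0 0 0 0 (by simp) (by simp) (by simp) (by simp))
          simp only [U.l] at H0
          have H2 := abs_le.1 (H 0 1 0 0 (by simp) (by simp) (by simp) (by simp))
          simp only [U.l] at H2
          have H4 := abs_le.1 (H 0 0 1 0 (by simp) (by simp) (by simp) (by simp))
          simp only [U.l] at H4
          have H6 := abs_le.1 (H 0 1 1 0 (by simp) (by simp) (by simp) (by simp))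
          simp only [U.l] at H6
          linarith only [H0.1, H0.2, H2.1, H2.2, H4.1, H4.2, H6.1, H6.2,
            U.s u 0 0 0 0 0 1 0 0 0 0 1 0 0 1 1 0 (by simp only [U.l]; linarith only [u1]) (by simp only [U.l]; linarith only [u2]) (by simp only [U.l]; ring),
            U.s v 0 1 1 0 0 0 1 0 0 1 0 0 0 0 0 0 (by simp only [U.l]; linarith only [v1]) (by simp only [U.l]; linarith only [v2]) (by simp only [U.l]; ring),
            U.s w 0 1 1 0 0 0 1 0 0 1 0 0 0 0 0 0 (by simp only [U.l]; linarith only [w1]) (by simp only [U.l]; linarith only [w2]) (by simp only [U.l]; ring)]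

lemma stepP (A u v w : U) (u0 : 0 ≤ u.w0) (u1 : 0 ≤ u.w1) (u2 : 0 ≤ u.w2) (u3 : 0 ≤ u.w3)
    (v0 : 0 ≤ v.w0) (w0 : 0 ≤ w.w0) (H : Bad 1 A u v w) : False := by
  rcases le_total 0 v.w1 with v1 | v1
  · rcases le_total 0 w.w1 with w1 | w1
    · have H4 := abs_le.1 (H 0 0 1 0 (by simp) (by simp) (by simp) (by simp))
      simp only [U.l] at H4
      have H5 := abs_le.1 (H 1 0 1 0 (by simp) (by simp) (by simp) (by simp))
      simp only [U.l] at H5
      have H6 := abs_le.1 (H 0 1 1 0 (by simp) (by simp) (by simp) (by simp))
      simp only [U.l] at H6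
      have H7 := abs_le.1 (H 1 1 1 0 (by simp) (by simp) (by simp) (by simp))
      simp only [U.l] at H7
      linarith only [H4.1, H4.2, H5.1, H5.2, H6.1, H6.2, H7.1, H7.2,
        U.s u 0 0 1 0 1 0 1 0 0 1 1 0 1 1 1 0 (by simp only [U.l]; linarith only [u0]) (by simp only [U.l]; linarith only [u1]) (by simp only [U.l]; ring),
        U.s v 0 0 1 0 1 0 1 0 0 1 1 0 1 1 1 0 (by simp only [U.l]; linarith only [v0]) (by simp only [U.l]; linarith only [v1]) (by simp only [U.l]; ring),
        U.s w 0 0 1 0 1 0 1 0 0 1 1 0 1 1 1 0 (by simp only [U.l]; linarith only [w0]) (by simp only [U.l]; linarith only [w1]) (by simp only [U.l]; ring)]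
    · rcases le_total 0 v.w2 with v2 | v2
      · rcases le_total 0 w.w2 with w2 | w2
        · have H2 := abs_le.1 (H 0 1 0 0 (by simp) (by simp) (by simp) (by simp))
          simp only [U.l] at H2
          have H3 := abs_le.1 (H 1 1 0 0 (by simp) (by simp) (by simp) (by simp))
          simp only [U.l] at H3
          have H6 := abs_le.1 (H 0 1 1 0 (by simp) (by simp) (by simp) (by simp))
          simp only [U.l] at H6
          have H7 := abs_le.1 (H 1 1 1 0 (by simp) (by simp) (by simp) (by simp))
          simp only [U.l] at H7
          linarith only [H2.1, H2.2, H3.1, H3.2, H6.1, H6.2, H7.1, H7.2,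
            U.s u 0 1 0 0 1 1 0 0 0 1 1 0 1 1 1 0 (by simp only [U.l]; linarith only [u0]) (by simp only [U.l]; linarith only [u2]) (by simp only [U.l]; ring),
            U.s v 0 1 0 0 1 1 0 0 0 1 1 0 1 1 1 0 (by simp only [U.l]; linarith only [v0]) (by simp only [U.l]; linarith only [v2]) (by simp only [U.l]; ring),
            U.s w 0 1 0 0 1 1 0 0 0 1 1 0 1 1 1 0 (by simp only [U.l]; linarith only [w0]) (by simp only [U.l]; linarith only [w2]) (by simp only [U.l]; ring)]
        · have H1 := abs_le.1 (H 1 0 0 0 (by simp) (by simp) (by simp) (by simp))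
          simp only [U.l] at H1
          have H3 := abs_le.1 (H 1 1 0 0 (by simp) (by simp) (by simp) (by simp))
          simp only [U.l] at H3
          have H5 := abs_le.1 (H 1 0 1 0 (by simp) (by simp) (by simp) (by simp))
          simp only [U.l] at H5
          have H7 := abs_le.1 (H 1 1 1 0 (by simp) (by simp) (by simp) (by simp))
          simp only [U.l] at H7
          linarith only [H1.1, H1.2, H3.1, H3.2, H5.1, H5.2, H7.1, H7.2,
            U.s u 1 0 0 0 1 1 0 0 1 0 1 0 1 1 1 0 (by simp only [U.l]; linarith only [u1]) (by simp only [U.l]; linarith only [u2]) (by simp only [U.l]; ring),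
            U.s v 1 0 0 0 1 1 0 0 1 0 1 0 1 1 1 0 (by simp only [U.l]; linarith only [v1]) (by simp only [U.l]; linarith only [v2]) (by simp only [U.l]; ring),
            U.s w 1 1 1 0 1 0 1 0 1 1 0 0 1 0 0 0 (by simp only [U.l]; linarith only [w1]) (by simp only [U.l]; linarith only [w2]) (by simp only [U.l]; ring)]
      · rcases le_total 0 w.w2 with w2 | w2
        · rcases le_total 0 v.w3 with v3 | v3
          · rcases le_total 0 w.w3 with w3 | w3
            · have H2 := abs_le.1 (H 0 1 0 0 (by simp) (by simp) (by simp) (by simp))
              simp only [U.l] at H2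
              have H3 := abs_le.1 (H 1 1 0 0 (by simp) (by simp) (by simp) (by simp))
              simp only [U.l] at H3
              have H10 := abs_le.1 (H 0 1 0 1 (by simp) (by simp) (by simp) (by simp))
              simp only [U.l] at H10
              have H11 := abs_le.1 (H 1 1 0 1 (by simp) (by simp) (by simp) (by simp))
              simp only [U.l] at H11
              linarith only [H2.1, H2.2, H3.1, H3.2, H10.1, H10.2, H11.1, H11.2,
                U.s u 0 1 0 0 1 1 0 0 0 1 0 1 1 1 0 1 (by simp only [U.l]; linarith only [u0]) (by simp only [U.l]; linarith only [u3]) (by simp only [U.l]; ring),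
                U.s v 0 1 0 0 1 1 0 0 0 1 0 1 1 1 0 1 (by simp only [U.l]; linarith only [v0]) (by simp only [U.l]; linarith only [v3]) (by simp only [U.l]; ring),
                U.s w 0 1 0 0 1 1 0 0 0 1 0 1 1 1 0 1 (by simp only [U.l]; linarith only [w0]) (by simp only [U.l]; linarith only [w3]) (by simp only [U.l]; ring)]
            · have H1 := abs_le.1 (H 1 0 0 0 (by simp) (by simp) (by simp) (by simp))
              simp only [U.l] at H1
              have H3 := abs_le.1 (H 1 1 0 0 (by simp) (by simp) (by simp) (by simp))
              simp only [U.l] at H3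
              have H9 := abs_le.1 (H 1 0 0 1 (by simp) (by simp) (by simp) (by simp))
              simp only [U.l] at H9
              have H11 := abs_le.1 (H 1 1 0 1 (by simp) (by simp) (by simp) (by simp))
              simp only [U.l] at H11
              linarith only [H1.1, H1.2, H3.1, H3.2, H9.1, H9.2, H11.1, H11.2,
                U.s u 1 0 0 0 1 1 0 0 1 0 0 1 1 1 0 1 (by simp only [U.l]; linarith only [u1]) (by simp only [U.l]; linarith only [u3]) (by simp only [U.l]; ring),
                U.s v 1 0 0 0 1 1 0 0 1 0 0 1 1 1 0 1 (by simp only [U.l]; linarith only [v1]) (by simp only [U.l]; linarith only [v3]) (by simp only [U.l]; ring),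
                U.s w 1 1 0 1 1 0 0 1 1 1 0 0 1 0 0 0 (by simp only [U.l]; linarith only [w1]) (by simp only [U.l]; linarith only [w3]) (by simp only [U.l]; ring)]
          · rcases le_total 0 w.w3 with w3 | w3
            · have H1 := abs_le.1 (H 1 0 0 0 (by simp) (by simp) (by simp) (by simp))
              simp only [U.l] at H1
              have H5 := abs_le.1 (H 1 0 1 0 (by simp) (by simp) (by simp) (by simp))
              simp only [U.l] at H5
              have H9 := abs_le.1 (H 1 0 0 1 (by simp) (by simp) (by simp) (by simp))
              simp only [U.l] at H9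
              have H13 := abs_le.1 (H 1 0 1 1 (by simp) (by simp) (by simp) (by simp))
              simp only [U.l] at H13
              linarith only [H1.1, H1.2, H5.1, H5.2, H9.1, H9.2, H13.1, H13.2,
                U.s u 1 0 0 0 1 0 1 0 1 0 0 1 1 0 1 1 (by simp only [U.l]; linarith only [u2]) (by simp only [U.l]; linarith only [u3]) (by simp only [U.l]; ring),
                U.s v 1 0 1 1 1 0 0 1 1 0 1 0 1 0 0 0 (by simp only [U.l]; linarith only [v2]) (by simp only [U.l]; linarith only [v3]) (by simp only [U.l]; ring),
                U.s w 1 0 0 0 1 0 1 0 1 0 0 1 1 0 1 1 (by simp only [U.l]; linarith only [w2]) (by simp only [U.l]; linarith only [w3]) (by simp only [U.l]; ring)]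
            · exact coreP A.sw12.sw23.sw12 u.sw12.sw23.sw12 v.sw12.sw23.sw12 w.sw12.sw23.sw12 u0 u3 u2 u1 v0 v3 v2 v1 w0 w3 w2 w1 H.sw12.sw23.sw12
        · rcases le_total 0 v.w3 with v3 | v3
          · rcases le_total 0 w.w3 with w3 | w3
            · have H2 := abs_le.1 (H 0 1 0 0 (by simp) (by simp) (by simp) (by simp))
              simp only [U.l] at H2
              have H3 := abs_le.1 (H 1 1 0 0 (by simp) (by simp) (by simp) (by simp))
              simp only [U.l] at H3
              have H10 := abs_le.1 (H 0 1 0 1 (by simp) (by simp) (by simp) (by simp))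
              simp only [U.l] at H10
              have H11 := abs_le.1 (H 1 1 0 1 (by simp) (by simp) (by simp) (by simp))
              simp only [U.l] at H11
              linarith only [H2.1, H2.2, H3.1, H3.2, H10.1, H10.2, H11.1, H11.2,
                U.s u 0 1 0 0 1 1 0 0 0 1 0 1 1 1 0 1 (by simp only [U.l]; linarith only [u0]) (by simp only [U.l]; linarith only [u3]) (by simp only [U.l]; ring),
                U.s v 0 1 0 0 1 1 0 0 0 1 0 1 1 1 0 1 (by simp only [U.l]; linarith only [v0]) (by simp only [U.l]; linarith only [v3]) (by simp only [U.l]; ring),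
                U.s w 0 1 0 0 1 1 0 0 0 1 0 1 1 1 0 1 (by simp only [U.l]; linarith only [w0]) (by simp only [U.l]; linarith only [w3]) (by simp only [U.l]; ring)]
            · have H1 := abs_le.1 (H 1 0 0 0 (by simp) (by simp) (by simp) (by simp))
              simp only [U.l] at H1
              have H3 := abs_le.1 (H 1 1 0 0 (by simp) (by simp) (by simp) (by simp))
              simp only [U.l] at H3
              have H9 := abs_le.1 (H 1 0 0 1 (by simp) (by simp) (by simp) (by simp))
              simp only [U.l] at H9
              have H11 := abs_le.1 (H 1 1 0 1 (by simp) (by simp) (by simp) (by simp))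
              simp only [U.l] at H11
              linarith only [H1.1, H1.2, H3.1, H3.2, H9.1, H9.2, H11.1, H11.2,
                U.s u 1 0 0 0 1 1 0 0 1 0 0 1 1 1 0 1 (by simp only [U.l]; linarith only [u1]) (by simp only [U.l]; linarith only [u3]) (by simp only [U.l]; ring),
                U.s v 1 0 0 0 1 1 0 0 1 0 0 1 1 1 0 1 (by simp only [U.l]; linarith only [v1]) (by simp only [U.l]; linarith only [v3]) (by simp only [U.l]; ring),
                U.s w 1 1 0 1 1 0 0 1 1 1 0 0 1 0 0 0 (by simp only [U.l]; linarith only [w1]) (by simp only [U.l]; linarith only [w3]) (by simp only [U.l]; ring)]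
          · rcases le_total 0 w.w3 with w3 | w3
            · exact coreP A.sw12.sw23 u.sw12.sw23 v.sw12.sw23 w.sw12.sw23 u0 u2 u3 u1 v0 v2 v3 v1 w0 w2 w3 w1 H.sw12.sw23
            · have H1 := abs_le.1 (H 1 0 0 0 (by simp) (by simp) (by simp) (by simp))
              simp only [U.l] at H1
              have H5 := abs_le.1 (H 1 0 1 0 (by simp) (by simp) (by simp) (by simp))
              simp only [U.l] at H5
              have H9 := abs_le.1 (H 1 0 0 1 (by simp) (by simp) (by simp) (by simp))
              simp only [U.l] at H9
              have H13 := abs_le.1 (H 1 0 1 1 (by simp) (by simp) (by simp) (by simp))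
              simp only [U.l] at H13
              linarith only [H1.1, H1.2, H5.1, H5.2, H9.1, H9.2, H13.1, H13.2,
                U.s u 1 0 0 0 1 0 1 0 1 0 0 1 1 0 1 1 (by simp only [U.l]; linarith only [u2]) (by simp only [U.l]; linarith only [u3]) (by simp only [U.l]; ring),
                U.s v 1 0 1 1 1 0 0 1 1 0 1 0 1 0 0 0 (by simp only [U.l]; linarith only [v2]) (by simp only [U.l]; linarith only [v3]) (by simp only [U.l]; ring),
                U.s w 1 0 1 1 1 0 0 1 1 0 1 0 1 0 0 0 (by simp only [U.l]; linarith only [w2]) (by simp only [U.l]; linarith only [w3]) (by simp only [U.l]; ring)]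
  · rcases le_total 0 w.w1 with w1 | w1
    · rcases le_total 0 v.w2 with v2 | v2
      · rcases le_total 0 w.w2 with w2 | w2
        · have H2 := abs_le.1 (H 0 1 0 0 (by simp) (by simp) (by simp) (by simp))
          simp only [U.l] at H2
          have H3 := abs_le.1 (H 1 1 0 0 (by simp) (by simp) (by simp) (by simp))
          simp only [U.l] at H3
          have H6 := abs_le.1 (H 0 1 1 0 (by simp) (by simp) (by simp) (by simp))
          simp only [U.l] at H6
          have H7 := abs_le.1 (H 1 1 1 0 (by simp) (by simp) (by simp) (by simp))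
          simp only [U.l] at H7
          linarith only [H2.1, H2.2, H3.1, H3.2, H6.1, H6.2, H7.1, H7.2,
            U.s u 0 1 0 0 1 1 0 0 0 1 1 0 1 1 1 0 (by simp only [U.l]; linarith only [u0]) (by simp only [U.l]; linarith only [u2]) (by simp only [U.l]; ring),
            U.s v 0 1 0 0 1 1 0 0 0 1 1 0 1 1 1 0 (by simp only [U.l]; linarith only [v0]) (by simp only [U.l]; linarith only [v2]) (by simp only [U.l]; ring),
            U.s w 0 1 0 0 1 1 0 0 0 1 1 0 1 1 1 0 (by simp only [U.l]; linarith only [w0]) (by simp only [U.l]; linarith only [w2]) (by simp only [U.l]; ring)]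
        · rcases le_total 0 v.w3 with v3 | v3
          · rcases le_total 0 w.w3 with w3 | w3
            · have H2 := abs_le.1 (H 0 1 0 0 (by simp) (by simp) (by simp) (by simp))
              simp only [U.l] at H2
              have H3 := abs_le.1 (H 1 1 0 0 (by simp) (by simp) (by simp) (by simp))
              simp only [U.l] at H3
              have H10 := abs_le.1 (H 0 1 0 1 (by simp) (by simp) (by simp) (by simp))
              simp only [U.l] at H10
              have H11 := abs_le.1 (H 1 1 0 1 (by simp) (by simp) (by simp) (by simp))
              simp only [U.l] at H11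
              linarith only [H2.1, H2.2, H3.1, H3.2, H10.1, H10.2, H11.1, H11.2,
                U.s u 0 1 0 0 1 1 0 0 0 1 0 1 1 1 0 1 (by simp only [U.l]; linarith only [u0]) (by simp only [U.l]; linarith only [u3]) (by simp only [U.l]; ring),
                U.s v 0 1 0 0 1 1 0 0 0 1 0 1 1 1 0 1 (by simp only [U.l]; linarith only [v0]) (by simp only [U.l]; linarith only [v3]) (by simp only [U.l]; ring),
                U.s w 0 1 0 0 1 1 0 0 0 1 0 1 1 1 0 1 (by simp only [U.l]; linarith only [w0]) (by simp only [U.l]; linarith only [w3]) (by simp only [U.l]; ring)]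
            · have H1 := abs_le.1 (H 1 0 0 0 (by simp) (by simp) (by simp) (by simp))
              simp only [U.l] at H1
              have H5 := abs_le.1 (H 1 0 1 0 (by simp) (by simp) (by simp) (by simp))
              simp only [U.l] at H5
              have H9 := abs_le.1 (H 1 0 0 1 (by simp) (by simp) (by simp) (by simp))
              simp only [U.l] at H9
              have H13 := abs_le.1 (H 1 0 1 1 (by simp) (by simp) (by simp) (by simp))
              simp only [U.l] at H13
              linarith only [H1.1, H1.2, H5.1, H5.2, H9.1, H9.2, H13.1, H13.2,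
                U.s u 1 0 0 0 1 0 1 0 1 0 0 1 1 0 1 1 (by simp only [U.l]; linarith only [u2]) (by simp only [U.l]; linarith only [u3]) (by simp only [U.l]; ring),
                U.s v 1 0 0 0 1 0 1 0 1 0 0 1 1 0 1 1 (by simp only [U.l]; linarith only [v2]) (by simp only [U.l]; linarith only [v3]) (by simp only [U.l]; ring),
                U.s w 1 0 1 1 1 0 0 1 1 0 1 0 1 0 0 0 (by simp only [U.l]; linarith only [w2]) (by simp only [U.l]; linarith only [w3]) (by simp only [U.l]; ring)]
          · rcases le_total 0 w.w3 with w3 | w3
            · have H1 := abs_le.1 (H 1 0 0 0 (by simp) (by simp) (by simp) (by simp))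
              simp only [U.l] at H1
              have H3 := abs_le.1 (H 1 1 0 0 (by simp) (by simp) (by simp) (by simp))
              simp only [U.l] at H3
              have H9 := abs_le.1 (H 1 0 0 1 (by simp) (by simp) (by simp) (by simp))
              simp only [U.l] at H9
              have H11 := abs_le.1 (H 1 1 0 1 (by simp) (by simp) (by simp) (by simp))
              simp only [U.l] at H11
              linarith only [H1.1, H1.2, H3.1, H3.2, H9.1, H9.2, H11.1, H11.2,
                U.s u 1 0 0 0 1 1 0 0 1 0 0 1 1 1 0 1 (by simp only [U.l]; linarith only [u1]) (by simp only [U.l]; linarith only [u3]) (by simp only [U.l]; ring),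
                U.s v 1 1 0 1 1 0 0 1 1 1 0 0 1 0 0 0 (by simp only [U.l]; linarith only [v1]) (by simp only [U.l]; linarith only [v3]) (by simp only [U.l]; ring),
                U.s w 1 0 0 0 1 1 0 0 1 0 0 1 1 1 0 1 (by simp only [U.l]; linarith only [w1]) (by simp only [U.l]; linarith only [w3]) (by simp only [U.l]; ring)]
            · exact coreP A.sw23.sw12 u.sw23.sw12 v.sw23.sw12 w.sw23.sw12 u0 u3 u1 u2 v0 v3 v1 v2 w0 w3 w1 w2 H.sw23.sw12
      · rcases le_total 0 w.w2 with w2 | w2
        · have H1 := abs_le.1 (H 1 0 0 0 (by simp) (by simp) (by simp) (by simp))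
          simp only [U.l] at H1
          have H3 := abs_le.1 (H 1 1 0 0 (by simp) (by simp) (by simp) (by simp))
          simp only [U.l] at H3
          have H5 := abs_le.1 (H 1 0 1 0 (by simp) (by simp) (by simp) (by simp))
          simp only [U.l] at H5
          have H7 := abs_le.1 (H 1 1 1 0 (by simp) (by simp) (by simp) (by simp))
          simp only [U.l] at H7
          linarith only [H1.1, H1.2, H3.1, H3.2, H5.1, H5.2, H7.1, H7.2,
            U.s u 1 0 0 0 1 1 0 0 1 0 1 0 1 1 1 0 (by simp only [U.l]; linarith only [u1]) (by simp only [U.l]; linarith only [u2]) (by simp only [U.l]; ring),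
            U.s v 1 1 1 0 1 0 1 0 1 1 0 0 1 0 0 0 (by simp only [U.l]; linarith only [v1]) (by simp only [U.l]; linarith only [v2]) (by simp only [U.l]; ring),
            U.s w 1 0 0 0 1 1 0 0 1 0 1 0 1 1 1 0 (by simp only [U.l]; linarith only [w1]) (by simp only [U.l]; linarith only [w2]) (by simp only [U.l]; ring)]
        · rcases le_total 0 v.w3 with v3 | v3
          · rcases le_total 0 w.w3 with w3 | w3
            · have H2 := abs_le.1 (H 0 1 0 0 (by simp) (by simp) (by simp) (by simp))
              simp only [U.l] at H2
              have H3 := abs_le.1 (H 1 1 0 0 (by simp) (by simp) (by simp) (by simp))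
              simp only [U.l] at H3
              have H10 := abs_le.1 (H 0 1 0 1 (by simp) (by simp) (by simp) (by simp))
              simp only [U.l] at H10
              have H11 := abs_le.1 (H 1 1 0 1 (by simp) (by simp) (by simp) (by simp))
              simp only [U.l] at H11
              linarith only [H2.1, H2.2, H3.1, H3.2, H10.1, H10.2, H11.1, H11.2,
                U.s u 0 1 0 0 1 1 0 0 0 1 0 1 1 1 0 1 (by simp only [U.l]; linarith only [u0]) (by simp only [U.l]; linarith only [u3]) (by simp only [U.l]; ring),
                U.s v 0 1 0 0 1 1 0 0 0 1 0 1 1 1 0 1 (by simp only [U.l]; linarith only [v0]) (by simp only [U.l]; linarith only [v3]) (by simp only [U.l]; ring),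
                U.s w 0 1 0 0 1 1 0 0 0 1 0 1 1 1 0 1 (by simp only [U.l]; linarith only [w0]) (by simp only [U.l]; linarith only [w3]) (by simp only [U.l]; ring)]
            · exact coreP A.sw12 u.sw12 v.sw12 w.sw12 u0 u2 u1 u3 v0 v2 v1 v3 w0 w2 w1 w3 H.sw12
          · rcases le_total 0 w.w3 with w3 | w3
            · have H1 := abs_le.1 (H 1 0 0 0 (by simp) (by simp) (by simp) (by simp))
              simp only [U.l] at H1
              have H3 := abs_le.1 (H 1 1 0 0 (by simp) (by simp) (by simp) (by simp))
              simp only [U.l] at H3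
              have H9 := abs_le.1 (H 1 0 0 1 (by simp) (by simp) (by simp) (by simp))
              simp only [U.l] at H9
              have H11 := abs_le.1 (H 1 1 0 1 (by simp) (by simp) (by simp) (by simp))
              simp only [U.l] at H11
              linarith only [H1.1, H1.2, H3.1, H3.2, H9.1, H9.2, H11.1, H11.2,
                U.s u 1 0 0 0 1 1 0 0 1 0 0 1 1 1 0 1 (by simp only [U.l]; linarith only [u1]) (by simp only [U.l]; linarith only [u3]) (by simp only [U.l]; ring),
                U.s v 1 1 0 1 1 0 0 1 1 1 0 0 1 0 0 0 (by simp only [U.l]; linarith only [v1]) (by simp only [U.l]; linarith only [v3]) (by simp only [U.l]; ring),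
                U.s w 1 0 0 0 1 1 0 0 1 0 0 1 1 1 0 1 (by simp only [U.l]; linarith only [w1]) (by simp only [U.l]; linarith only [w3]) (by simp only [U.l]; ring)]
            · have H1 := abs_le.1 (H 1 0 0 0 (by simp) (by simp) (by simp) (by simp))
              simp only [U.l] at H1
              have H5 := abs_le.1 (H 1 0 1 0 (by simp) (by simp) (by simp) (by simp))
              simp only [U.l] at H5
              have H9 := abs_le.1 (H 1 0 0 1 (by simp) (by simp) (by simp) (by simp))
              simp only [U.l] at H9
              have H13 := abs_le.1 (H 1 0 1 1 (by simp) (by simp) (by simp) (by simp))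
              simp only [U.l] at H13
              linarith only [H1.1, H1.2, H5.1, H5.2, H9.1, H9.2, H13.1, H13.2,
                U.s u 1 0 0 0 1 0 1 0 1 0 0 1 1 0 1 1 (by simp only [U.l]; linarith only [u2]) (by simp only [U.l]; linarith only [u3]) (by simp only [U.l]; ring),
                U.s v 1 0 1 1 1 0 0 1 1 0 1 0 1 0 0 0 (by simp only [U.l]; linarith only [v2]) (by simp only [U.l]; linarith only [v3]) (by simp only [U.l]; ring),
                U.s w 1 0 1 1 1 0 0 1 1 0 1 0 1 0 0 0 (by simp only [U.l]; linarith only [w2]) (by simp only [U.l]; linarith only [w3]) (by simp only [U.l]; ring)]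
    · rcases le_total 0 v.w2 with v2 | v2
      · rcases le_total 0 w.w2 with w2 | w2
        · have H2 := abs_le.1 (H 0 1 0 0 (by simp) (by simp) (by simp) (by simp))
          simp only [U.l] at H2
          have H3 := abs_le.1 (H 1 1 0 0 (by simp) (by simp) (by simp) (by simp))
          simp only [U.l] at H3
          have H6 := abs_le.1 (H 0 1 1 0 (by simp) (by simp) (by simp) (by simp))
          simp only [U.l] at H6
          have H7 := abs_le.1 (H 1 1 1 0 (by simp) (by simp) (by simp) (by simp))
          simp only [U.l] at H7
          linarith only [H2.1, H2.2, H3.1, H3.2, H6.1, H6.2, H7.1, H7.2,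
            U.s u 0 1 0 0 1 1 0 0 0 1 1 0 1 1 1 0 (by simp only [U.l]; linarith only [u0]) (by simp only [U.l]; linarith only [u2]) (by simp only [U.l]; ring),
            U.s v 0 1 0 0 1 1 0 0 0 1 1 0 1 1 1 0 (by simp only [U.l]; linarith only [v0]) (by simp only [U.l]; linarith only [v2]) (by simp only [U.l]; ring),
            U.s w 0 1 0 0 1 1 0 0 0 1 1 0 1 1 1 0 (by simp only [U.l]; linarith only [w0]) (by simp only [U.l]; linarith only [w2]) (by simp only [U.l]; ring)]
        · rcases le_total 0 v.w3 with v3 | v3
          · rcases le_total 0 w.w3 with w3 | w3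
            · have H2 := abs_le.1 (H 0 1 0 0 (by simp) (by simp) (by simp) (by simp))
              simp only [U.l] at H2
              have H3 := abs_le.1 (H 1 1 0 0 (by simp) (by simp) (by simp) (by simp))
              simp only [U.l] at H3
              have H10 := abs_le.1 (H 0 1 0 1 (by simp) (by simp) (by simp) (by simp))
              simp only [U.l] at H10
              have H11 := abs_le.1 (H 1 1 0 1 (by simp) (by simp) (by simp) (by simp))
              simp only [U.l] at H11
              linarith only [H2.1, H2.2, H3.1, H3.2, H10.1, H10.2, H11.1, H11.2,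
                U.s u 0 1 0 0 1 1 0 0 0 1 0 1 1 1 0 1 (by simp only [U.l]; linarith only [u0]) (by simp only [U.l]; linarith only [u3]) (by simp only [U.l]; ring),
                U.s v 0 1 0 0 1 1 0 0 0 1 0 1 1 1 0 1 (by simp only [U.l]; linarith only [v0]) (by simp only [U.l]; linarith only [v3]) (by simp only [U.l]; ring),
                U.s w 0 1 0 0 1 1 0 0 0 1 0 1 1 1 0 1 (by simp only [U.l]; linarith only [w0]) (by simp only [U.l]; linarith only [w3]) (by simp only [U.l]; ring)]
            · have H1 := abs_le.1 (H 1 0 0 0 (by simp) (by simp) (by simp) (by simp))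
              simp only [U.l] at H1
              have H5 := abs_le.1 (H 1 0 1 0 (by simp) (by simp) (by simp) (by simp))
              simp only [U.l] at H5
              have H9 := abs_le.1 (H 1 0 0 1 (by simp) (by simp) (by simp) (by simp))
              simp only [U.l] at H9
              have H13 := abs_le.1 (H 1 0 1 1 (by simp) (by simp) (by simp) (by simp))
              simp only [U.l] at H13
              linarith only [H1.1, H1.2, H5.1, H5.2, H9.1, H9.2, H13.1, H13.2,
                U.s u 1 0 0 0 1 0 1 0 1 0 0 1 1 0 1 1 (by simp only [U.l]; linarith only [u2]) (by simp only [U.l]; linarith only [u3]) (by simp only [U.l]; ring),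
                U.s v 1 0 0 0 1 0 1 0 1 0 0 1 1 0 1 1 (by simp only [U.l]; linarith only [v2]) (by simp only [U.l]; linarith only [v3]) (by simp only [U.l]; ring),
                U.s w 1 0 1 1 1 0 0 1 1 0 1 0 1 0 0 0 (by simp only [U.l]; linarith only [w2]) (by simp only [U.l]; linarith only [w3]) (by simp only [U.l]; ring)]
          · rcases le_total 0 w.w3 with w3 | w3
            · exact coreP A.sw23 u.sw23 v.sw23 w.sw23 u0 u1 u3 u2 v0 v1 v3 v2 w0 w1 w3 w2 H.sw23
            · have H1 := abs_le.1 (H 1 0 0 0 (by simp) (by simp) (by simp) (by simp))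
              simp only [U.l] at H1
              have H3 := abs_le.1 (H 1 1 0 0 (by simp) (by simp) (by simp) (by simp))
              simp only [U.l] at H3
              have H9 := abs_le.1 (H 1 0 0 1 (by simp) (by simp) (by simp) (by simp))
              simp only [U.l] at H9
              have H11 := abs_le.1 (H 1 1 0 1 (by simp) (by simp) (by simp) (by simp))
              simp only [U.l] at H11
              linarith only [H1.1, H1.2, H3.1, H3.2, H9.1, H9.2, H11.1, H11.2,
                U.s u 1 0 0 0 1 1 0 0 1 0 0 1 1 1 0 1 (by simp only [U.l]; linarith only [u1]) (by simp only [U.l]; linarith only [u3]) (by simp only [U.l]; ring),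
                U.s v 1 1 0 1 1 0 0 1 1 1 0 0 1 0 0 0 (by simp only [U.l]; linarith only [v1]) (by simp only [U.l]; linarith only [v3]) (by simp only [U.l]; ring),
                U.s w 1 1 0 1 1 0 0 1 1 1 0 0 1 0 0 0 (by simp only [U.l]; linarith only [w1]) (by simp only [U.l]; linarith only [w3]) (by simp only [U.l]; ring)]
      · rcases le_total 0 w.w2 with w2 | w2
        · rcases le_total 0 v.w3 with v3 | v3
          · rcases le_total 0 w.w3 with w3 | w3
            · have H2 := abs_le.1 (H 0 1 0 0 (by simp) (by simp) (by simp) (by simp))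
              simp only [U.l] at H2
              have H3 := abs_le.1 (H 1 1 0 0 (by simp) (by simp) (by simp) (by simp))
              simp only [U.l] at H3
              have H10 := abs_le.1 (H 0 1 0 1 (by simp) (by simp) (by simp) (by simp))
              simp only [U.l] at H10
              have H11 := abs_le.1 (H 1 1 0 1 (by simp) (by simp) (by simp) (by simp))
              simp only [U.l] at H11
              linarith only [H2.1, H2.2, H3.1, H3.2, H10.1, H10.2, H11.1, H11.2,
                U.s u 0 1 0 0 1 1 0 0 0 1 0 1 1 1 0 1 (by simp only [U.l]; linarith only [u0]) (by simp only [U.l]; linarith only [u3]) (by simp only [U.l]; ring),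
                U.s v 0 1 0 0 1 1 0 0 0 1 0 1 1 1 0 1 (by simp only [U.l]; linarith only [v0]) (by simp only [U.l]; linarith only [v3]) (by simp only [U.l]; ring),
                U.s w 0 1 0 0 1 1 0 0 0 1 0 1 1 1 0 1 (by simp only [U.l]; linarith only [w0]) (by simp only [U.l]; linarith only [w3]) (by simp only [U.l]; ring)]
            · exact coreP A u v w u0 u1 u2 u3 v0 v1 v2 v3 w0 w1 w2 w3 H
          · rcases le_total 0 w.w3 with w3 | w3
            · have H1 := abs_le.1 (H 1 0 0 0 (by simp) (by simp) (by simp) (by simp))
              simp only [U.l] at H1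
              have H5 := abs_le.1 (H 1 0 1 0 (by simp) (by simp) (by simp) (by simp))
              simp only [U.l] at H5
              have H9 := abs_le.1 (H 1 0 0 1 (by simp) (by simp) (by simp) (by simp))
              simp only [U.l] at H9
              have H13 := abs_le.1 (H 1 0 1 1 (by simp) (by simp) (by simp) (by simp))
              simp only [U.l] at H13
              linarith only [H1.1, H1.2, H5.1, H5.2, H9.1, H9.2, H13.1, H13.2,
                U.s u 1 0 0 0 1 0 1 0 1 0 0 1 1 0 1 1 (by simp only [U.l]; linarith only [u2]) (by simp only [U.l]; linarith only [u3]) (by simp only [U.l]; ring),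
                U.s v 1 0 1 1 1 0 0 1 1 0 1 0 1 0 0 0 (by simp only [U.l]; linarith only [v2]) (by simp only [U.l]; linarith only [v3]) (by simp only [U.l]; ring),
                U.s w 1 0 0 0 1 0 1 0 1 0 0 1 1 0 1 1 (by simp only [U.l]; linarith only [w2]) (by simp only [U.l]; linarith only [w3]) (by simp only [U.l]; ring)]
            · have H1 := abs_le.1 (H 1 0 0 0 (by simp) (by simp) (by simp) (by simp))
              simp only [U.l] at H1
              have H3 := abs_le.1 (H 1 1 0 0 (by simp) (by simp) (by simp) (by simp))
              simp only [U.l] at H3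
              have H9 := abs_le.1 (H 1 0 0 1 (by simp) (by simp) (by simp) (by simp))
              simp only [U.l] at H9
              have H11 := abs_le.1 (H 1 1 0 1 (by simp) (by simp) (by simp) (by simp))
              simp only [U.l] at H11
              linarith only [H1.1, H1.2, H3.1, H3.2, H9.1, H9.2, H11.1, H11.2,
                U.s u 1 0 0 0 1 1 0 0 1 0 0 1 1 1 0 1 (by simp only [U.l]; linarith only [u1]) (by simp only [U.l]; linarith only [u3]) (by simp only [U.l]; ring),
                U.s v 1 1 0 1 1 0 0 1 1 1 0 0 1 0 0 0 (by simp only [U.l]; linarith only [v1]) (by simp only [U.l]; linarith only [v3]) (by simp only [U.l]; ring),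
                U.s w 1 1 0 1 1 0 0 1 1 1 0 0 1 0 0 0 (by simp only [U.l]; linarith only [w1]) (by simp only [U.l]; linarith only [w3]) (by simp only [U.l]; ring)]
        · have H1 := abs_le.1 (H 1 0 0 0 (by simp) (by simp) (by simp) (by simp))
          simp only [U.l] at H1
          have H3 := abs_le.1 (H 1 1 0 0 (by simp) (by simp) (by simp) (by simp))
          simp only [U.l] at H3
          have H5 := abs_le.1 (H 1 0 1 0 (by simp) (by simp) (by simp) (by simp))
          simp only [U.l] at H5
          have H7 := abs_le.1 (H 1 1 1 0 (by simp) (by simp) (by simp) (by simp))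
          simp only [U.l] at H7
          linarith only [H1.1, H1.2, H3.1, H3.2, H5.1, H5.2, H7.1, H7.2,
            U.s u 1 0 0 0 1 1 0 0 1 0 1 0 1 1 1 0 (by simp only [U.l]; linarith only [u1]) (by simp only [U.l]; linarith only [u2]) (by simp only [U.l]; ring),
            U.s v 1 1 1 0 1 0 1 0 1 1 0 0 1 0 0 0 (by simp only [U.l]; linarith only [v1]) (by simp only [U.l]; linarith only [v2]) (by simp only [U.l]; ring),
            U.s w 1 1 1 0 1 0 1 0 1 1 0 0 1 0 0 0 (by simp only [U.l]; linarith only [w1]) (by simp only [U.l]; linarith only [w2]) (by simp only [U.l]; ring)]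

end Pool.Agent.H23.RBM
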