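import Mathlib
import Pool.Agent.H23.RBM1

set_option autoImplicit false
set_option maxSynthPendingDepth 3

namespace Pool.Agent.H23.RBM

def U.neg (u : U) : U := ⟨-u.c, -u.w0, -u.w1, -u.w2, -u.w3⟩
def U.add (u y : U) : U := ⟨u.c + y.c, u.w0 + y.w0, u.w1 + y.w1, u.w2 + y.w2, u.w3 + y.w3⟩

lemma f_neg (u : U) (x0 x1 x2 x3 : ℝ) :
    u.neg.f x0 x1 x2 x3 = u.f x0 x1 x2 x3 - u.l x0 x1 x2 x3 := by
  have e : u.neg.l x0 x1 x2 x3 = - u.l x0 x1 x2 x3 := by simp only [U.l, U.neg]; ring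
  simp only [U.f, e, max_def]; split_ifs <;> linarith

lemma l_add (u y : U) (x0 x1 x2 x3 : ℝ) :
    (u.add y).l x0 x1 x2 x3 = u.l x0 x1 x2 x3 + y.l x0 x1 x2 x3 := by
  simp only [U.l, U.add]; ring

lemma Bad.negv {σ : ℝ} {A u v w : U} (H : Bad σ A u v w) : Bad σ (A.add v) u v.neg w := by
  intro x0 x1 x2 x3 h0 h1 h2 h3
  have := H x0 x1 x2 x3 h0 h1 h2 h3
  rw [f_neg, l_add]
  rw [abs_le] at this ⊢
  constructor <;> linarith [this.1, this.2]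

lemma Bad.negw {σ : ℝ} {A u v w : U} (H : Bad σ A u v w) : Bad σ (A.add w) u v w.neg := by
  intro x0 x1 x2 x3 h0 h1 h2 h3
  have := H x0 x1 x2 x3 h0 h1 h2 h3
  rw [f_neg, l_add]
  rw [abs_le] at this ⊢
  constructor <;> linarith [this.1, this.2]

def U.fl0 (u : U) : U := ⟨u.c + u.w0, -u.w0, u.w1, u.w2, u.w3⟩
def U.fl1 (u : U) : U := ⟨u.c + u.w1, u.w0, -u.w1, u.w2, u.w3⟩
def U.fl2 (u : U) : U := ⟨u.c + u.w2, u.w0, u.w1, -u.w2, u.w3⟩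
def U.fl3 (u : U) : U := ⟨u.c + u.w3, u.w0, u.w1, u.w2, -u.w3⟩

lemma one_sub {x : ℝ} (h : x = 0 ∨ x = 1) : 1 - x = 0 ∨ 1 - x = 1 := by
  rcases h with h | h <;> simp [h]

lemma Bad.fl0 {σ : ℝ} {A u v w : U} (H : Bad σ A u v w) :
    Bad (-σ) A.fl0 u.fl0 v.fl0 w.fl0 := by
  intro x0 x1 x2 x3 h0 h1 h2 h3
  have e : ∀ y : U, y.fl0.l x0 x1 x2 x3 = y.l (1 - x0) x1 x2 x3 := fun y => by
    simp only [U.l, U.fl0]; ring
  have := H (1 - x0) x1 x2 x3 (one_sub h0) h1 h2 h3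
  simp only [U.f, e] at this ⊢
  rw [abs_le] at this ⊢
  constructor <;> linarith [this.1, this.2]

lemma Bad.fl1 {σ : ℝ} {A u v w : U} (H : Bad σ A u v w) :
    Bad (-σ) A.fl1 u.fl1 v.fl1 w.fl1 := by
  intro x0 x1 x2 x3 h0 h1 h2 h3
  have e : ∀ y : U, y.fl1.l x0 x1 x2 x3 = y.l x0 (1 - x1) x2 x3 := fun y => by
    simp only [U.l, U.fl1]; ring
  have := H x0 (1 - x1) x2 x3 h0 (one_sub h1) h2 h3
  simp only [U.f, e] at this ⊢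
  rw [abs_le] at this ⊢
  constructor <;> linarith [this.1, this.2]

lemma Bad.fl2 {σ : ℝ} {A u v w : U} (H : Bad σ A u v w) :
    Bad (-σ) A.fl2 u.fl2 v.fl2 w.fl2 := by
  intro x0 x1 x2 x3 h0 h1 h2 h3
  have e : ∀ y : U, y.fl2.l x0 x1 x2 x3 = y.l x0 x1 (1 - x2) x3 := fun y => by
    simp only [U.l, U.fl2]; ring
  have := H x0 x1 (1 - x2) x3 h0 h1 (one_sub h2) h3
  simp only [U.f, e] at this ⊢
  rw [abs_le] at this ⊢
  constructor <;> linarith [this.1, this.2]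

lemma Bad.fl3 {σ : ℝ} {A u v w : U} (H : Bad σ A u v w) :
    Bad (-σ) A.fl3 u.fl3 v.fl3 w.fl3 := by
  intro x0 x1 x2 x3 h0 h1 h2 h3
  have e : ∀ y : U, y.fl3.l x0 x1 x2 x3 = y.l x0 x1 x2 (1 - x3) := fun y => by
    simp only [U.l, U.fl3]; ring
  have := H x0 x1 x2 (1 - x3) h0 h1 h2 (one_sub h3)
  simp only [U.f, e] at this ⊢
  rw [abs_le] at this ⊢
  constructor <;> linarith [this.1, this.2]

lemma pm {σ : ℝ} (h : σ = 1 ∨ σ = -1) : -σ = 1 ∨ -σ = -1 := by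
  rcases h with h | h <;> simp [h]

lemma t0 {σ : ℝ} (hσ : σ = 1 ∨ σ = -1) (A u v w : U) (u0 : 0 ≤ u.w0) (u1 : 0 ≤ u.w1)
    (u2 : 0 ≤ u.w2) (u3 : 0 ≤ u.w3) (v0 : 0 ≤ v.w0) (w0 : 0 ≤ w.w0) (H : Bad σ A u v w) :
    False := by
  rcases hσ with rfl | rfl
  · exact stepP A u v w u0 u1 u2 u3 v0 w0 H
  · exact stepN A u v w u0 u1 u2 u3 v0 w0 H

lemma t1 {σ : ℝ} (hσ : σ = 1 ∨ σ = -1) (A u v w : U) (u0 : 0 ≤ u.w0) (u1 : 0 ≤ u.w1)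
    (u2 : 0 ≤ u.w2) (u3 : 0 ≤ u.w3) (v0 : 0 ≤ v.w0) (H : Bad σ A u v w) : False := by
  rcases le_total 0 w.w0 with h | h
  · exact t0 hσ A u v w u0 u1 u2 u3 v0 h H
  · exact t0 hσ _ u v w.neg u0 u1 u2 u3 v0 (neg_nonneg.2 h) H.negw

lemma t2 {σ : ℝ} (hσ : σ = 1 ∨ σ = -1) (A u v w : U) (u0 : 0 ≤ u.w0) (u1 : 0 ≤ u.w1)
    (u2 : 0 ≤ u.w2) (u3 : 0 ≤ u.w3) (H : Bad σ A u v w) : False := by
  rcases le_total 0 v.w0 with h | h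
  · exact t1 hσ A u v w u0 u1 u2 u3 h H
  · exact t1 hσ _ u v.neg w u0 u1 u2 u3 (neg_nonneg.2 h) H.negv

lemma t3 {σ : ℝ} (hσ : σ = 1 ∨ σ = -1) (A u v w : U) (u0 : 0 ≤ u.w0) (u1 : 0 ≤ u.w1)
    (u2 : 0 ≤ u.w2) (H : Bad σ A u v w) : False := by
  rcases le_total 0 u.w3 with h | h
  · exact t2 hσ A u v w u0 u1 u2 h H
  · exact t2 (pm hσ) A.fl3 u.fl3 v.fl3 w.fl3 u0 u1 u2 (neg_nonneg.2 h) H.fl3

lemma t4 {σ : ℝ} (hσ : σ = 1 ∨ σ = -1) (A u v w : U) (u0 : 0 ≤ u.w0) (u1 : 0 ≤ u.w1)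
    (H : Bad σ A u v w) : False := by
  rcases le_total 0 u.w2 with h | h
  · exact t3 hσ A u v w u0 u1 h H
  · exact t3 (pm hσ) A.fl2 u.fl2 v.fl2 w.fl2 u0 u1 (neg_nonneg.2 h) H.fl2

lemma t5 {σ : ℝ} (hσ : σ = 1 ∨ σ = -1) (A u v w : U) (u0 : 0 ≤ u.w0)
    (H : Bad σ A u v w) : False := by
  rcases le_total 0 u.w1 with h | h
  · exact t4 hσ A u v w u0 h H
  · exact t4 (pm hσ) A.fl1 u.fl1 v.fl1 w.fl1 u0 (neg_nonneg.2 h) H.fl1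

theorem trop {σ : ℝ} (hσ : σ = 1 ∨ σ = -1) (A u v w : U) (H : Bad σ A u v w) : False := by
  rcases le_total 0 u.w0 with h | h
  · exact t5 hσ A u v w h H
  · exact t5 (pm hσ) A.fl0 u.fl0 v.fl0 w.fl0 (neg_nonneg.2 h) H.fl0

lemma softplus (t : ℝ) : max t 0 ≤ Real.log (1 + Real.exp t) ∧
    Real.log (1 + Real.exp t) ≤ max t 0 + 1 := by
  have hp := Real.exp_pos t
  constructor
  · apply max_le
    · rw [Real.le_log_iff_exp_le (by positivity)]; linarith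
    · exact Real.log_nonneg (by linarith)
  · rw [Real.log_le_iff_le_exp (by positivity), Real.exp_add]
    have h1 : Real.exp t ≤ Real.exp (max t 0) := Real.exp_le_exp.2 (le_max_left _ _)
    have h2 : 1 ≤ Real.exp (max t 0) := Real.one_le_exp (le_max_right _ _)
    have h3 : 2 ≤ Real.exp 1 := by have := Real.add_one_le_exp (1 : ℝ); linarith
    nlinarith

end Pool.Agent.H23.RBM
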