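import Mathlib

set_option autoImplicit false
set_option maxSynthPendingDepth 3

namespace Pool.Agent.H23.Raj

open Finset Filter Topology

def MM (n : ℕ) : ℕ := n + 3
def DD (n : ℕ) : Finset ℕ := if n = 0 then {1} else range (n + 2)
noncomputable def Q (n : ℕ) : ℝ := ∏ i ∈ range n, (MM i : ℝ)

lemma Q_succ (n : ℕ) : Q (n + 1) = Q n * (n + 3) := by simp [Q, prod_range_succ, MM]
lemma Q_pos (n : ℕ) : 0 < Q n := prod_pos (fun i _ => by simp [MM]; positivity)
lemma Q_ge (n : ℕ) : (n : ℝ) + 1 ≤ Q n := by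
  induction n with
  | zero => simp [Q]
  | succ n ih => rw [Q_succ]; push_cast; nlinarith [(Nat.cast_nonneg n : (0 : ℝ) ≤ n)]
lemma Q_mono : Monotone Q := monotone_nat_of_le_succ (fun n => by
  rw [Q_succ]; nlinarith [Q_pos n, (Nat.cast_nonneg n : (0 : ℝ) ≤ n)])

lemma DD_le {n d : ℕ} (h : d ∈ DD n) : d ≤ n + 1 := by
  unfold DD at h
  split_ifs at h with h0
  · simp at h; omega
  · simp at h; omega

lemma DD_card (n : ℕ) : (DD n).card ≤ n + 2 := by
  unfold DD; split_ifs <;> simp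

lemma DD_ne (n : ℕ) : (DD n).Nonempty := by
  unfold DD; split_ifs <;> simp

noncomputable def e (t : ℝ) : ℂ := Complex.exp (2 * Real.pi * t * Complex.I)

lemma e_add (s t : ℝ) : e (s + t) = e s * e t := by
  rw [e, e, e, ← Complex.exp_add]; push_cast; ring_nf
lemma e_zero : e 0 = 1 := by simp [e]
lemma e_norm (t : ℝ) : ‖e t‖ = 1 := by
  rw [e, show 2 * (Real.pi : ℂ) * t * Complex.I = ((2 * Real.pi * t : ℝ) : ℂ) * Complex.I by
    push_cast; ring, Complex.norm_exp_ofReal_mul_I]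
lemma e_nat (n : ℕ) (t : ℝ) : e (n * t) = e t ^ n := by
  rw [e, e, ← Complex.exp_nat_mul]; push_cast; ring_nf
lemma e_sum {ι : Type*} (s : Finset ι) (f : ι → ℝ) : e (∑ i ∈ s, f i) = ∏ i ∈ s, e (f i) := by
  classical
  induction s using Finset.induction_on with
  | empty => simp [e_zero]
  | insert a s ha ih => rw [sum_insert ha, prod_insert ha, e_add, ih]
lemma e_re (t : ℝ) : (e t).re = Real.cos (2 * Real.pi * t) := by
  rw [e, show 2 * (Real.pi : ℂ) * t * Complex.I = ((2 * Real.pi * t : ℝ) : ℂ) * Complex.I by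
    push_cast; ring, Complex.exp_ofReal_mul_I_re]
lemma e_im (t : ℝ) : (e t).im = Real.sin (2 * Real.pi * t) := by
  rw [e, show 2 * (Real.pi : ℂ) * t * Complex.I = ((2 * Real.pi * t : ℝ) : ℂ) * Complex.I by
    push_cast; ring, Complex.exp_ofReal_mul_I_im]
lemma e_cont : Continuous e := by unfold e; fun_prop

lemma e_sub_one (s : ℝ) (hs : |s| ≤ 1 / 2) : 4 * |s| ≤ ‖e s - 1‖ := by
  rw [e, show 2 * (Real.pi : ℂ) * s * Complex.I = Complex.I * ((2 * Real.pi * s : ℝ) : ℂ) by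
    push_cast; ring, Complex.norm_exp_I_mul_ofReal_sub_one,
    show 2 * Real.pi * s / 2 = Real.pi * s by ring, Real.norm_eq_abs, abs_mul, abs_two]
  have h1 : |Real.pi * s| ≤ Real.pi / 2 := by
    rw [abs_mul, abs_of_pos Real.pi_pos]; nlinarith [Real.pi_pos]
  have h2 := Real.mul_abs_le_abs_sin h1
  rw [abs_mul, abs_of_pos Real.pi_pos, ← mul_assoc, div_mul_cancel₀ _ Real.pi_pos.ne'] at h2
  linarith

lemma e_ne_one (s : ℝ) (hs : |s| < 1) (h0 : s ≠ 0) : e s ≠ 1 := by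
  intro h
  obtain ⟨n, hn⟩ := Complex.exp_eq_one_iff.1 h
  have h1 : (s : ℂ) = n := by
    have h2 : (2 * Real.pi * Complex.I : ℂ) ≠ 0 := by simp [Real.pi_ne_zero]
    apply mul_left_cancel₀ h2
    linear_combination hn
  have h2 : s = n := by exact_mod_cast h1
  subst h2
  have h3 : |n| < 1 := by exact_mod_cast hs
  exact h0 (by simp [Int.abs_lt_one_iff.1 h3])

noncomputable def φ (n : ℕ) (s : ℝ) : ℂ := (∑ d ∈ DD n, e (d * s)) / (DD n).card
noncomputable def full (n : ℕ) (s : ℝ) : ℂ := (∑ d ∈ range (n + 3), e (d * s)) / (n + 3)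

lemma avg_le (A : Finset ℕ) (s : ℝ) : ‖∑ d ∈ A, e (d * s)‖ ≤ A.card :=
  (norm_sum_le _ _).trans (by simp [e_norm])

lemma φ_le (n : ℕ) (s : ℝ) : ‖φ n s‖ ≤ 1 := by
  rw [φ, norm_div, Complex.norm_natCast]
  exact div_le_one_of_le₀ (avg_le _ _) (Nat.cast_nonneg _)

lemma full_le (n : ℕ) (s : ℝ) : ‖full n s‖ ≤ 1 := by
  rw [full, norm_div, show ((n : ℂ) + 3) = ((n + 3 : ℕ) : ℂ) by push_cast; ring,
    Complex.norm_natCast]
  exact div_le_one_of_le₀ (by simpa using avg_le (range (n + 3)) s) (Nat.cast_nonneg _)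

lemma φ_full (n : ℕ) (hn : n ≠ 0) (s : ℝ) : ‖φ n s - full n s‖ ≤ 2 / (n + 3) := by
  have h1 := φ_le n s
  have h2 : φ n s - full n s = (φ n s - e ((n + 2 : ℕ) * s)) / ((n + 3 : ℕ) : ℂ) := by
    have h3 : ((n : ℂ) + 2) ≠ 0 := by exact_mod_cast (by omega : n + 2 ≠ 0)
    have h4 : ((n : ℂ) + 3) ≠ 0 := by exact_mod_cast (by omega : n + 3 ≠ 0)
    simp only [φ, full, DD, hn, if_false, card_range, sum_range_succ _ (n + 2)]
    generalize ∑ x ∈ range (n + 2), e (↑x * s) = A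
    generalize e (((n + 2 : ℕ) : ℝ) * s) = B
    push_cast
    field_simp
    ring
  rw [h2, norm_div, Complex.norm_natCast]
  push_cast
  gcongr
  refine (norm_sub_le _ _).trans ?_
  rw [e_norm]; linarith

lemma full_id (n : ℕ) (s : ℝ) : (e s - 1) * ((n + 3) * full n s) = e ((n + 3) * s) - 1 := by
  have h4 : ((n : ℂ) + 3) ≠ 0 := by exact_mod_cast (by omega : n + 3 ≠ 0)
  rw [full, mul_div_cancel₀ _ h4]
  simp only [e_nat]
  rw [mul_comm, geom_sum_mul, ← e_nat]; push_cast; rfl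

lemma two_bound (n : ℕ) (hn : n ≠ 0) (ξ : ℝ) (h1 : Q (n + 1) ≤ 2 * |ξ|) (h2 : 2 * |ξ| ≤ Q (n + 2)) :
    ‖φ n (ξ / Q (n + 1)) * φ (n + 1) (ξ / Q (n + 2))‖ ≤ 5 / (n + 3) := by
  have q1 := Q_pos (n + 1)
  have q2 := Q_pos (n + 2)
  have hn3 : (0 : ℝ) < n + 3 := by positivity
  have a1 := full_id (n + 1) (ξ / Q (n + 2))
  have e1 : (((n + 1 : ℕ) : ℝ) + 3) * (ξ / Q (n + 2)) = ξ / Q (n + 1) := by
    rw [Q_succ (n + 1)]; field_simp
  rw [e1] at a1
  have a2 := full_id n (ξ / Q (n + 1))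
  rw [← a1] at a2
  have a3 : ‖e ((n + 3) * (ξ / Q (n + 1))) - 1‖ ≤ 2 :=
    (norm_sub_le _ _).trans (by rw [e_norm]; norm_num)
  have a4 := e_sub_one (ξ / Q (n + 2)) (by
    rw [abs_div, abs_of_pos q2, div_le_iff₀ q2]; linarith)
  rw [← a2] at a3
  simp only [norm_mul] at a3
  rw [show (((n + 1 : ℕ) : ℂ) + 3) = ((n + 4 : ℕ) : ℂ) by push_cast; ring,
    show ((n : ℂ) + 3) = ((n + 3 : ℕ) : ℂ) by push_cast; ring, Complex.norm_natCast,
    Complex.norm_natCast] at a3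
  push_cast at a3
  set F1 := full n (ξ / Q (n + 1))
  set F2 := full (n + 1) (ξ / Q (n + 2))
  have a5 : 2 / (n + 4 : ℝ) ≤ ‖e (ξ / Q (n + 2)) - 1‖ := by
    refine le_trans ?_ a4
    rw [abs_div, abs_of_pos q2, Q_succ (n + 1), ← mul_div_assoc, div_le_div_iff₀ (by positivity)
      (by positivity)]
    push_cast
    nlinarith
  have a6 : ‖F1‖ * ‖F2‖ ≤ 1 / (n + 3) := by
    have h7 : 2 / (n + 4 : ℝ) * ((n + 4) * ‖F2‖) * ((n + 3) * ‖F1‖) ≤ 2 :=
      le_trans (by gcongr) a3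
    rw [← mul_assoc (2 / _), div_mul_cancel₀ _ (by positivity)] at h7
    rw [le_div_iff₀ hn3]; nlinarith
  have b1 := φ_full n hn (ξ / Q (n + 1))
  have b2 := φ_full (n + 1) (by omega) (ξ / Q (n + 2))
  have b3 : (2 : ℝ) / (((n + 1 : ℕ) : ℝ) + 3) ≤ 2 / (n + 3) := by push_cast; gcongr; linarith
  have c1 := φ_le (n + 1) (ξ / Q (n + 2))
  have c2 := full_le n (ξ / Q (n + 1))
  set p1 := φ n (ξ / Q (n + 1))
  set p2 := φ (n + 1) (ξ / Q (n + 2))
  have : p1 * p2 = (p1 - F1) * p2 + F1 * (p2 - F2) + F1 * F2 := by ring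
  rw [this]
  refine (norm_add₃_le).trans ?_
  simp only [norm_mul]
  have d1 : ‖p1 - F1‖ * ‖p2‖ ≤ 2 / (n + 3) * 1 := by gcongr
  have d2 : ‖F1‖ * ‖p2 - F2‖ ≤ 1 * (2 / (n + 3)) := by gcongr; exact b2.trans b3
  have d3 : (5 : ℝ) / (n + 3) = 2 / (n + 3) + 2 / (n + 3) + 1 / (n + 3) := by ring
  linarith

noncomputable def pt (N : ℕ) (d : Fin N → ℕ) : ℝ := ∑ i : Fin N, (d i : ℝ) / Q (i + 1)
def PP (N : ℕ) : Finset (Fin N → ℕ) := Fintype.piFinset (fun i : Fin N => DD i)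
noncomputable def E (N : ℕ) (h : ℝ → ℂ) : ℂ := (∑ d ∈ PP N, h (pt N d)) / (PP N).card

lemma PP_pos (N : ℕ) : 0 < (PP N).card :=
  card_pos.2 (Fintype.piFinset_nonempty.2 (fun i => DD_ne i))

lemma E_e (N : ℕ) (ξ : ℝ) : E N (fun t => e (ξ * t)) = ∏ i ∈ range N, φ i (ξ / Q (i + 1)) := by
  rw [← Fin.prod_univ_eq_prod_range (fun i => φ i (ξ / Q (i + 1)))]
  simp only [φ, prod_div_distrib, prod_univ_sum, E, PP, Fintype.card_piFinset, pt, mul_sum, e_sum]
  push_cast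
  congr 1
  refine sum_congr rfl (fun d _ => prod_congr rfl (fun i _ => ?_))
  congr 1; ring

lemma E_le (N : ℕ) (h : ℝ → ℂ) (C : ℝ) (hC : ∀ d ∈ PP N, ‖h (pt N d)‖ ≤ C) : ‖E N h‖ ≤ C := by
  rw [E, norm_div, Complex.norm_natCast, div_le_iff₀ (by exact_mod_cast PP_pos N)]
  refine (norm_sum_le _ _).trans ((sum_le_card_nsmul _ _ _ hC).trans ?_)
  rw [nsmul_eq_mul, mul_comm]

lemma E_add (N : ℕ) (g h : ℝ → ℂ) : E N (fun t => g t + h t) = E N g + E N h := by
  simp [E, sum_add_distrib, add_div]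

lemma E_smul (N : ℕ) (c : ℂ) (h : ℝ → ℂ) : E N (fun t => c * h t) = c * E N h := by
  simp [E, ← mul_sum, mul_div_assoc]

def Small (h : ℝ → ℂ) : Prop :=
  ∀ ε > 0, ∃ R : ℝ, ∀ ξ : ℝ, R ≤ |ξ| → ∀ᶠ N in atTop, ‖E N (fun t => e (ξ * t) * h t)‖ ≤ ε

lemma small_one : Small (fun _ => 1) := by
  intro ε hε
  obtain ⟨k, hk⟩ := exists_nat_gt (5 / ε)
  refine ⟨Q (k + 2), fun ξ hξ => ?_⟩
  have hex : ∃ m, 2 * |ξ| < Q (m + 1) := by
    obtain ⟨m, hm⟩ := exists_nat_gt (2 * |ξ|)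
    exact ⟨m, by have := Q_ge (m + 1); push_cast at this; linarith⟩
  classical
  have h1 := Nat.find_spec hex
  have h2 : k + 2 ≤ Nat.find hex := by
    by_contra hc
    have := Q_mono (show Nat.find hex + 1 ≤ k + 2 by omega)
    linarith [abs_nonneg ξ]
  obtain ⟨n, hn⟩ : ∃ n, Nat.find hex = n + 1 := ⟨Nat.find hex - 1, by omega⟩
  have h3 := Nat.find_min hex (show n < Nat.find hex by omega)
  rw [hn] at h1
  have h4 := two_bound n (by omega) ξ (not_lt.1 h3) h1.le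
  filter_upwards [eventually_ge_atTop (n + 2)] with N hN
  simp only [mul_one]
  rw [E_e, norm_prod]
  have h5 : ∏ i ∈ range N, ‖φ i (ξ / Q (i + 1))‖ ≤ ∏ i ∈ {n, n + 1}, ‖φ i (ξ / Q (i + 1))‖ :=
    prod_le_prod_of_subset_of_le_one (by intro i; simp; omega) (fun _ _ => norm_nonneg _)
      (fun _ _ _ => φ_le _ _)
  rw [prod_pair (by omega), ← norm_mul] at h5
  refine h5.trans (h4.trans ?_)
  rw [div_lt_iff₀ hε] at hk
  rw [div_le_iff₀ (by positivity)]
  have : (k : ℝ) ≤ n := by exact_mod_cast (by omega : k ≤ n)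
  nlinarith

lemma Small.congr {g h : ℝ → ℂ} (hg : Small g) (hh : ∀ t, g t = h t) : Small h :=
  (funext hh : g = h) ▸ hg

lemma Small.add {g h : ℝ → ℂ} (hg : Small g) (hh : Small h) : Small (fun t => g t + h t) := by
  intro ε hε
  obtain ⟨R, hR⟩ := hg (ε / 2) (by positivity)
  obtain ⟨S, hS⟩ := hh (ε / 2) (by positivity)
  refine ⟨max R S, fun ξ hξ => ?_⟩
  filter_upwards [hR ξ (le_of_max_le_left hξ), hS ξ (le_of_max_le_right hξ)] with N h1 h2
  simp only [mul_add]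
  rw [E_add]
  linarith [norm_add_le (E N fun t => e (ξ * t) * g t) (E N fun t => e (ξ * t) * h t)]

lemma Small.mul {h : ℝ → ℂ} (hh : Small h) (c : ℂ) (hc : ‖c‖ ≤ 1) (r : ℝ) :
    Small (fun t => c * e (r * t) * h t) := by
  intro ε hε
  obtain ⟨R, hR⟩ := hh ε hε
  refine ⟨R + |r|, fun ξ hξ => ?_⟩
  filter_upwards [hR (ξ + r) (by
    have := abs_add_le (ξ + r) (-r)
    rw [add_neg_cancel_right, abs_neg] at this
    linarith)] with N h1
  have : (fun t => e (ξ * t) * (c * e (r * t) * h t)) = fun t => c * (e ((ξ + r) * t) * h t) := by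
    funext t; rw [add_mul, e_add]; ring
  rw [this, E_smul, norm_mul]
  nlinarith [norm_nonneg (E N fun t => e ((ξ + r) * t) * h t), norm_nonneg c]

lemma small_inv (x η : ℝ) (hη : 0 < η)
    (hx : ∀ᶠ N in atTop, ∀ d ∈ PP N, η ≤ ‖1 - e (x - pt N d)‖) :
    Small (fun t => 1 / (1 - e (x - t))) := by
  have hw : ∀ t, e (x - t) = e x * e (-1 * t) := fun t => by rw [← e_add]; ring_nf
  have hw' : ∀ t, e (t - x) = e (-x) * e (1 * t) := fun t => by rw [← e_add]; ring_nf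
  have hww : ∀ t, e (x - t) * e (t - x) = 1 := fun t => by rw [← e_add]; simp [e_zero]
  let v : ℝ → ℂ := fun t => (2 + e (x - t) + e (t - x)) / 4
  have step : ∀ h, Small h → Small (fun t => v t * h t) := by
    intro h hh
    have := ((hh.mul (1 / 2) (by norm_num) 0).add
      (hh.mul (e x / 4) (by simp [e_norm]; norm_num) (-1))).add
      (hh.mul (e (-x) / 4) (by simp [e_norm]; norm_num) 1)
    refine Small.congr (this) (fun t => ?_)
    simp only [v, hw, hw', zero_mul, e_zero]; ring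
  have base : Small (fun t => (1 - e (t - x)) / 4) := by
    have := (small_one.mul (1 / 4) (by norm_num) 0).add
      (small_one.mul (-e (-x) / 4) (by simp [e_norm]; norm_num) 1)
    refine Small.congr (this) (fun t => ?_)
    simp only [hw', zero_mul, e_zero]; ring
  have hj : ∀ j : ℕ, Small (fun t => v t ^ j * ((1 - e (t - x)) / 4)) := by
    intro j
    induction j with
    | zero => simpa using base
    | succ j ih =>
      refine Small.congr (step _ ih) (fun t => ?_)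
      ring
  have hJ : ∀ J : ℕ, Small (fun t => (∑ j ∈ range J, v t ^ j) * ((1 - e (t - x)) / 4)) := by
    intro J
    induction J with
    | zero =>
      refine Small.congr (small_one.mul 0 (by simp) 0) (fun t => ?_)
      simp
    | succ J ih =>
      refine Small.congr (ih.add (hj J)) (fun t => ?_)
      rw [sum_range_succ]; ring
  have hv : ∀ t, v t = ((1 - ‖1 - e (x - t)‖ ^ 2 / 4 : ℝ) : ℂ) := by
    intro t
    have h1 : e (t - x) = (starRingEnd ℂ) (e (x - t)) := by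
      rw [e, e, ← Complex.exp_conj]; congr 1; simp [Complex.conj_ofReal, map_ofNat]; ring
    push_cast
    rw [← Complex.mul_conj', map_sub, map_one, ← h1]
    simp only [v]
    linear_combination (1 / 4 : ℂ) * hww t
  intro ε hε
  have hη2 : ∀ t, ‖1 - e (x - t)‖ ≤ 2 := fun t =>
    (norm_sub_le _ _).trans (by rw [e_norm]; norm_num)
  obtain ⟨J, hJ'⟩ := exists_pow_lt_of_lt_one (show 0 < ε / 2 * η by positivity)
    (show max 0 (1 - η ^ 2 / 4) < 1 from max_lt one_pos (by nlinarith))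
  obtain ⟨R, hR⟩ := hJ J (ε / 2) (by positivity)
  refine ⟨R, fun ξ hξ => ?_⟩
  filter_upwards [hR ξ hξ, hx] with N h1 h2
  have h3 : ‖E N (fun t => e (ξ * t) * (1 / (1 - e (x - t)) -
      (∑ j ∈ range J, v t ^ j) * ((1 - e (t - x)) / 4)))‖ ≤ ε / 2 := by
    refine E_le _ _ _ (fun d hd => ?_)
    set t := pt N d
    have h4 := h2 d hd
    have h5 : 1 - e (x - t) ≠ 0 := norm_pos_iff.1 (hη.trans_le h4)
    have h6 : 1 / (1 - e (x - t)) - (∑ j ∈ range J, v t ^ j) * ((1 - e (t - x)) / 4)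
        = v t ^ J / (1 - e (x - t)) := by
      have h7 := geom_sum_mul (v t) J
      have h8 : (1 - e (t - x)) / 4 * (1 - e (x - t)) = 1 - v t := by
        simp only [v]; linear_combination (1 / 4 : ℂ) * hww t
      rw [eq_div_iff h5, sub_mul, mul_assoc, h8, one_div_mul_cancel h5]
      linear_combination h7
    rw [h6, norm_mul, e_norm, one_mul, norm_div, norm_pow, hv, Complex.norm_real,
      div_le_iff₀ (hη.trans_le h4)]
    have h9 : ‖1 - ‖1 - e (x - t)‖ ^ 2 / 4‖ ≤ max 0 (1 - η ^ 2 / 4) := by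
      rw [Real.norm_of_nonneg (by nlinarith [hη2 t, norm_nonneg (1 - e (x - t))])]
      exact le_max_of_le_right (by nlinarith)
    calc _ ≤ (max 0 (1 - η ^ 2 / 4)) ^ J := by gcongr
      _ ≤ ε / 2 * η := hJ'.le
      _ ≤ _ := by gcongr
  have h4 : (fun t => e (ξ * t) * (1 / (1 - e (x - t)))) = fun t =>
      e (ξ * t) * ((∑ j ∈ range J, v t ^ j) * ((1 - e (t - x)) / 4)) +
      e (ξ * t) * (1 / (1 - e (x - t)) - (∑ j ∈ range J, v t ^ j) * ((1 - e (t - x)) / 4)) := by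
    funext t; ring
  rw [h4, E_add]
  exact (norm_add_le _ _).trans (by linarith)

end Pool.Agent.H23.Raj
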