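import Mathlib

set_option autoImplicit false
set_option maxSynthPendingDepth 3

namespace Pool.Agent.H23
open Finset

/-- multicolour Ramsey theorem for ordered pairs, with a target size for every colour -/
lemma ramsey_aux (C : Type) [Fintype C] [DecidableEq C] (s : ℕ) :
    ∀ t : C → ℕ, ∑ c, t c = s → ∃ R : ℕ, ∀ (α : Type) [LinearOrder α] (S : Finset α)
      (f : α → α → C), R ≤ S.card → ∃ c, ∃ T ⊆ S, T.card = t c ∧
        ∀ v ∈ T, ∀ w ∈ T, w < v → f v w = c := by
  induction s using Nat.strong_induction_on with
  | _ s ih =>
    intro t ht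
    by_cases h0 : ∃ c, t c = 0
    · obtain ⟨c, hc⟩ := h0
      exact ⟨0, fun α _ S f _ => ⟨c, ∅, empty_subset _, by simp [hc], by simp⟩⟩
    · push Not at h0
      have hlt : ∀ c, ∑ d, Function.update t c (t c - 1) d < s := by
        intro c
        rw [← ht]
        refine sum_lt_sum (fun d _ => ?_) ⟨c, mem_univ _, ?_⟩
        · by_cases h : d = c
          · subst h; simp
          · simp [h]
        · have := h0 c
          simp only [Function.update_self]
          omega
      choose R hR using fun c => ih _ (hlt c) _ rfl
      refine ⟨∑ c, R c + 2, fun α _ S f hS => ?_⟩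
      have hne : S.Nonempty := card_pos.mp (by omega)
      set m := S.min' hne with hm
      have hmS : m ∈ S := min'_mem _ _
      obtain ⟨c, hc⟩ : ∃ c, R c ≤ ((S.erase m).filter fun v => f v m = c).card := by
        by_contra hcon
        push Not at hcon
        have h1 : (S.erase m).card = ∑ c, ((S.erase m).filter fun v => f v m = c).card :=
          card_eq_sum_card_fiberwise (f := fun v => f v m) (fun _ _ => mem_coe.mpr (mem_univ _))
        have h2 : ∑ c, ((S.erase m).filter fun v => f v m = c).card ≤ ∑ c, R c :=
          sum_le_sum fun c _ => (hcon c).le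
        rw [card_erase_of_mem hmS] at h1
        omega
      obtain ⟨d, T, hT, hTc, hmono⟩ := hR c α _ f hc
      by_cases hd : d = c
      · subst hd
        have hmT : m ∉ T := fun h => by simpa using (mem_filter.mp (hT h)).1
        refine ⟨d, insert m T, ?_, ?_, ?_⟩
        · intro v hv
          rcases mem_insert.mp hv with rfl | hv
          · exact hmS
          · exact mem_of_mem_erase (mem_filter.mp (hT hv)).1
        · rw [card_insert_of_notMem hmT, hTc, Function.update_self]
          have := h0 d
          omega
        · intro v hv w hw hwv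
          rcases mem_insert.mp hv with rfl | hv
          · rcases mem_insert.mp hw with rfl | hw
            · exact absurd hwv (lt_irrefl _)
            · exact absurd hwv (not_lt.mpr
                (min'_le _ _ (mem_of_mem_erase (mem_filter.mp (hT hw)).1)))
          · rcases mem_insert.mp hw with rfl | hw
            · exact (mem_filter.mp (hT hv)).2
            · exact hmono v hv w hw hwv
      · refine ⟨d, T, fun v hv => mem_of_mem_erase (mem_filter.mp (hT hv)).1, ?_, hmono⟩
        rw [hTc, Function.update_of_ne hd]

/-- Ramsey theorem with colours on points and on ordered pairs -/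
theorem ramsey (C D : Type) [Finite C] [Finite D] [Nonempty C] (m : ℕ) :
    ∃ R : ℕ, ∀ (α : Type) [LinearOrder α] (S : Finset α) (g : α → C) (f : α → α → D),
      R ≤ S.card → ∃ a b, ∃ T ⊆ S, T.card = m ∧ (∀ v ∈ T, g v = a) ∧
        ∀ v ∈ T, ∀ w ∈ T, w < v → f v w = b := by
  classical
  have := Fintype.ofFinite C
  have := Fintype.ofFinite D
  obtain ⟨R, hR⟩ := ramsey_aux D _ (fun _ => m) rfl
  refine ⟨Fintype.card C * R, fun α _ S g f hS => ?_⟩
  obtain ⟨a, -, ha⟩ := exists_le_card_fiber_of_mul_le_card_of_maps_to (s := S) (t := univ) (f := g)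
    (fun _ _ => mem_univ _) univ_nonempty hS
  obtain ⟨b, T, hT, hc, hm⟩ := hR α _ f ha
  exact ⟨a, b, T, fun v hv => (mem_filter.mp (hT hv)).1, hc,
    fun v hv => (mem_filter.mp (hT hv)).2, hm⟩

end Pool.Agent.H23
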