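import Pool.Agent.H23.Tod

set_option autoImplicit false
set_option maxSynthPendingDepth 3

namespace Pool.Agent.H23.ResGen

theorem exists_elt {Γ U T : Type} [Group Γ] [Group U] [Finite U] [Finite T] (e : T → Γ →* U)
    (he : ∀ g, (∀ τ, e τ g = 1) → g = 1) (M : Subgroup U) [hM : M.Normal]
    (h8 : ∀ g, g ^ 8 ∈ M) (h5 : ∀ m ∈ M, m ^ 5 = 1) (hc : ∀ m ∈ M, ∀ m' ∈ M, m * m' = m' * m)
    (τ0 : T) (a j : Γ) (ha : e τ0 a ^ 8 ≠ 1) (hj : ∀ m ∈ M, e τ0 j * m * (e τ0 j)⁻¹ = m⁻¹)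
    (hj2 : e τ0 j * e τ0 j ∈ M) :
    ∃ w : Γ, w ≠ 1 ∧ ∀ (N : Subgroup Γ) [N.Normal], w ∉ N →
      ∀ q ∈ N, (e τ0 j)⁻¹ * e τ0 q ∉ M := by
  classical
  have hext : ∀ g h : Γ, (∀ τ, e τ g = e τ h) → g = h := fun g h hh =>
    mul_inv_eq_one.mp (he _ fun τ => by rw [map_mul, map_inv, hh, mul_inv_cancel])
  have : Finite Γ := Finite.of_injective (fun g τ => e τ g) fun g h hh => hext g h (congrFun hh)
  let O : Subgroup Γ := ⨅ τ, M.comap (e τ)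
  have hO : ∀ g, g ∈ O ↔ ∀ τ, e τ g ∈ M := fun g => by simp [O, Subgroup.mem_iInf]
  have : O.Normal := ⟨fun n hn g => (hO _).mpr fun τ => by
    rw [map_mul, map_mul, map_inv]; exact hM.conj_mem _ ((hO n).mp hn τ) _⟩
  have hOc : ∀ m ∈ O, ∀ m' ∈ O, m * m' = m' * m := fun m hm m' hm' => hext _ _ fun τ => by
    rw [map_mul, map_mul]; exact hc _ ((hO m).mp hm τ) _ ((hO m').mp hm' τ)
  have hO5 : ∀ m ∈ O, m ^ 5 = 1 := fun m hm => he _ fun τ => by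
    rw [map_pow]; exact h5 _ ((hO m).mp hm τ)
  have hO8 : ∀ g : Γ, g ^ 8 ∈ O := fun g => (hO _).mpr fun τ => by rw [map_pow]; exact h8 _
  have : Fact (Nat.Prime 2) := ⟨by norm_num⟩
  have : Fact (Nat.Prime 5) := ⟨by norm_num⟩
  have := Fintype.ofFinite O
  let K : Subgroup Γ := M.comap (e τ0)
  let S : Subgroup (MulAut O) := K.map MulAut.conjNormal
  have hS : IsPGroup 2 S := by
    rintro ⟨_, k, -, rfl⟩
    refine ⟨3, Subtype.ext ?_⟩
    show (MulAut.conjNormal k : MulAut O) ^ 8 = 1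
    rw [← map_pow]
    ext m
    rw [MulAut.conjNormal_apply, hOc _ (hO8 k) _ m.2]
    simp
  let f : O →* U := (e τ0).comp O.subtype
  let A : Finset O := Finset.univ.filter fun m => f m = f ⟨a ^ 8, hO8 a⟩
  have hA : ¬ 2 ∣ A.card := by
    have h1 : A.card = (Finset.univ.filter fun m : O => f m = 1).card :=
      MonoidHom.card_fiber_eq_of_mem_range f ⟨_, rfl⟩ ⟨1, map_one f⟩
    have h2 : (Finset.univ.filter fun m : O => f m = 1).card = Nat.card f.ker := by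
      rw [← Set.ncard_coe_finset, ← Nat.card_coe_set_eq]
      exact Nat.card_congr (Equiv.setCongr (by ext m; simp))
    have h3 : IsPGroup 5 O := fun m => ⟨1, Subtype.ext (hO5 m m.2)⟩
    obtain ⟨i, hi⟩ := IsPGroup.iff_card.mp (h3.to_subgroup f.ker)
    rw [h1, h2, hi]
    intro h
    have := (Nat.prime_two.dvd_of_dvd_pow h)
    omega
  obtain ⟨w0, w1, w2⟩ := Tod.exists_fixed S hS A (by
    rintro _ ⟨k, hk, rfl⟩ m hm
    refine Finset.mem_filter.mpr ⟨Finset.mem_univ _, Eq.trans ?_ (Finset.mem_filter.mp hm).2⟩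
    show e τ0 (MulAut.conjNormal k m : O) = e τ0 m
    rw [MulAut.conjNormal_apply, map_mul, map_mul, map_inv, hc _ hk _ ((hO _).mp m.2 τ0),
      mul_inv_cancel_right]) hA
  have w3 : ∀ k ∈ K, k * w0 * k⁻¹ = w0 := fun k hk =>
    congrArg Subtype.val (w2 _ ⟨k, hk, rfl⟩)
  have w4 : e τ0 w0 = e τ0 a ^ 8 := (Finset.mem_filter.mp w1).2.trans (map_pow (e τ0) a 8)
  have hKn : K.Normal := Subgroup.Normal.comap hM _
  set w : Γ := w0 * (j * w0 * j⁻¹)⁻¹ with hw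
  have hjw : j * w0 * j⁻¹ ∈ O := Subgroup.Normal.conj_mem ‹_› _ w0.2 j
  have hwO : w ∈ O := O.mul_mem w0.2 (O.inv_mem hjw)
  have w5 : ∀ k ∈ K, k * w * k⁻¹ = w := by
    intro k hk
    have h1 := w3 _ (hKn.conj_mem k hk j⁻¹)
    have h2 : k * (j * w0 * j⁻¹) * k⁻¹ = j * w0 * j⁻¹ := by
      conv_rhs => rw [← h1]
      group
    calc k * w * k⁻¹ = (k * w0 * k⁻¹) * (k * (j * w0 * j⁻¹) * k⁻¹)⁻¹ := by rw [hw]; group
      _ = w := by rw [w3 k hk, h2]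
  have w6 : j * w * j⁻¹ = w⁻¹ := by
    have h1 := w3 (j * j) (show e τ0 (j * j) ∈ M by rw [map_mul]; exact hj2)
    calc j * w * j⁻¹ = (j * w0 * j⁻¹) * (j * j * w0 * (j * j)⁻¹)⁻¹ := by rw [hw]; group
      _ = w⁻¹ := by rw [h1, hw]; group
  refine ⟨w, fun h => ?_, fun N _ hN q hq hqM => hN ?_⟩
  · have h1 := congrArg (e τ0) h
    rw [hw, map_mul, map_inv, map_mul, map_mul, map_inv, w4, hj _ (h8 _), inv_inv, map_one] at h1
    have h2 := h5 _ (h8 (e τ0 a))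
    apply ha
    calc e τ0 a ^ 8 = (e τ0 a ^ 8) ^ 5 * ((e τ0 a ^ 8 * e τ0 a ^ 8) ^ 2)⁻¹ := by group
      _ = 1 := by rw [h1, h2]; simp
  · have h1 := w5 (j⁻¹ * q) (show e τ0 (j⁻¹ * q) ∈ M by rw [map_mul, map_inv]; exact hqM)
    have h2 : q * w * q⁻¹ = w⁻¹ := by
      rw [← w6]
      conv_rhs => rw [← h1]
      group
    have h3 : w * w ∈ N := by
      have := N.mul_mem (Subgroup.Normal.conj_mem ‹_› q hq w) (N.inv_mem hq)
      have e1 : w * q * w⁻¹ * q⁻¹ = w * (q * w * q⁻¹)⁻¹ := by group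
      rwa [e1, h2, inv_inv] at this
    have h4 : w = w ^ 5 * ((w * w) ^ 2)⁻¹ := by
      rw [← pow_two, ← pow_mul]; group
    rw [h4, hO5 w hwO, one_mul]
    exact N.inv_mem (N.pow_mem h3 2)

/-- monomial affine maps of the plane over the field with five elements -/
@[ext] structure U where
  s : Bool
  e1 : Fin 4
  e2 : Fin 4
  v1 : Fin 5
  v2 : Fin 5
  deriving DecidableEq, Fintype

/-- powers of two modulo five -/
def pw (e : Fin 4) : Fin 5 := ![1, 2, 4, 3] e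

lemma pw_add : ∀ e f, pw (e + f) = pw e * pw f := by decide

/-- composition -/
def mul (g h : U) : U :=
  match g.s with
  | false => ⟨h.s, g.e1 + h.e1, g.e2 + h.e2, pw g.e1 * h.v1 + g.v1, pw g.e2 * h.v2 + g.v2⟩
  | true => ⟨!h.s, g.e1 + h.e2, g.e2 + h.e1, pw g.e1 * h.v2 + g.v1, pw g.e2 * h.v1 + g.v2⟩

/-- inverse -/
def inv (g : U) : U :=
  match g.s with
  | false => ⟨false, -g.e1, -g.e2, -(pw (-g.e1) * g.v1), -(pw (-g.e2) * g.v2)⟩
  | true => ⟨true, -g.e2, -g.e1, -(pw (-g.e2) * g.v2), -(pw (-g.e1) * g.v1)⟩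

instance : Mul U := ⟨mul⟩
instance : One U := ⟨⟨false, 0, 0, 0, 0⟩⟩
instance : Inv U := ⟨inv⟩

lemma aux : ∀ a b x y z : Fin 5, a * b * x + (a * y + z) = a * (b * x + y) + z := by decide

instance : Group U := Group.ofLeftAxioms
  (by
    rintro ⟨s, e1, e2, v1, v2⟩ ⟨s', e1', e2', v1', v2'⟩ ⟨s'', e1'', e2'', v1'', v2''⟩
    show mul (mul _ _) _ = mul _ (mul _ _)
    cases s <;> cases s' <;> simp [mul, pw_add, add_assoc, aux])
  (by decide +kernel) (by decide +kernel)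

/-- the translations -/
def M : Subgroup U where
  carrier := {g | g.s = false ∧ g.e1 = 0 ∧ g.e2 = 0}
  mul_mem' := by
    rintro ⟨s, e1, e2, v1, v2⟩ ⟨s', e1', e2', v1', v2'⟩ ⟨rfl, rfl, rfl⟩ ⟨rfl, rfl, rfl⟩
    exact ⟨rfl, rfl, rfl⟩
  one_mem' := ⟨rfl, rfl, rfl⟩
  inv_mem' := by
    rintro ⟨s, e1, e2, v1, v2⟩ ⟨rfl, rfl, rfl⟩
    exact ⟨rfl, neg_zero, neg_zero⟩

instance (g : U) : Decidable (g ∈ M) :=
  inferInstanceAs (Decidable (g.s = false ∧ g.e1 = 0 ∧ g.e2 = 0))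

instance : M.Normal := ⟨by
  rintro ⟨s, e1, e2, v1, v2⟩ ⟨rfl, rfl, rfl⟩ ⟨s', e1', e2', v1', v2'⟩
  show mul (mul _ _) (inv _) ∈ M
  cases s' <;> exact ⟨rfl, by simp [mul, inv], by simp [mul, inv]⟩⟩

/-- the maps whose linear part lies in the Pauli group -/
def H : Subgroup U where
  carrier := {g | g.e1 + g.e1 = g.e2 + g.e2}
  mul_mem' := by
    have : ∀ a b c d : Fin 4, a + a = b + b → c + c = d + d →
      a + c + (a + c) = b + d + (b + d) ∧ a + d + (a + d) = b + c + (b + c) := by decide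
    rintro ⟨s, e1, e2, v1, v2⟩ ⟨s', e1', e2', v1', v2'⟩ h h'
    cases s
    exacts [(this _ _ _ _ h h').1, (this _ _ _ _ h h').2]
  one_mem' := rfl
  inv_mem' := by
    have : ∀ a b : Fin 4, a + a = b + b → -a + -a = -b + -b ∧ -b + -b = -a + -a := by decide
    rintro ⟨s, e1, e2, v1, v2⟩ h
    cases s
    exacts [(this _ _ h).1, (this _ _ h).2]

instance (g : U) : Decidable (g ∈ H) :=
  inferInstanceAs (Decidable (g.e1 + g.e1 = g.e2 + g.e2))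

/-- characters of order two -/
def ch (l : Bool × Bool × Bool) (s : Bool) (a b : Fin 4) : ZMod 2 :=
  (if l.1 && s then 1 else 0) + (if l.2.1 then (a.val : ZMod 2) else 0) +
    (if l.2.2 && a != b then 1 else 0)

lemma ch_mul : ∀ l s' (a b c d : Fin 4), a + a = b + b → c + c = d + d →
    ch l s' (a + c) (b + d) = ch l false a b + ch l s' c d ∧
    ch l (!s') (a + d) (b + c) = ch l true a b + ch l s' c d := by
  decide +kernel

/-- the characters as homomorphisms -/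
def chi (l : Bool × Bool × Bool) : H →* Multiplicative (ZMod 2) :=
  MonoidHom.mk' (fun g => Multiplicative.ofAdd (ch l g.1.s g.1.e1 g.1.e2)) (by
    rintro ⟨⟨s, e1, e2, v1, v2⟩, h⟩ ⟨⟨s', e1', e2', v1', v2'⟩, h'⟩
    cases s
    · exact congrArg Multiplicative.ofAdd (ch_mul l s' _ _ _ _ h h').1
    · exact congrArg Multiplicative.ofAdd (ch_mul l s' _ _ _ _ h h').2)

/-- first generator -/
def gs : U := ⟨false, 1, 0, 0, 0⟩
/-- second generator -/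
def gt : U := ⟨true, 0, 0, 1, 0⟩
/-- the commutator inverting the translations -/
def gj : U := gt * (gs * gs) * gt⁻¹ * (gs * gs)⁻¹

lemma f1 : ∀ g : U, g ^ 8 ∈ M := by decide +kernel
lemma f2 : ∀ m ∈ M, m ^ 5 = 1 := by decide +kernel
lemma f3 : ∀ m ∈ M, ∀ m' ∈ M, m * m' = m' * m := by
  rintro ⟨s, e1, e2, v1, v2⟩ ⟨rfl, rfl, rfl⟩ ⟨s', e1', e2', v1', v2'⟩ ⟨rfl, rfl, rfl⟩
  revert v1 v2 v1' v2'
  decide +kernel
lemma f4 : ∀ m ∈ M, gj * m * gj⁻¹ = m⁻¹ := by decide +kernel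
lemma f5 : gj * gj ∈ M := by decide +kernel
lemma f6 : ∀ h ∈ H, gj⁻¹ * h ∉ M → gj⁻¹ * (h * h) ∉ M → gj⁻¹ * (gt * h * gt⁻¹ * h⁻¹) ∉ M →
    gj⁻¹ * (gs * gs * h * (gs * gs)⁻¹ * h⁻¹) ∉ M → ∀ l, ch l h.s h.e1 h.e2 = 0 := by
  decide +kernel
lemma f7 : gt ^ 8 ≠ 1 := by decide +kernel
lemma f8 : ∀ (s s' : Bool) (a b c d : Fin 4), ∃ l, ch l s a b = 0 ∧ ch l s' c d = 0 ∧
    (ch l gt.s gt.e1 gt.e2 ≠ 0 ∨ ch l (gs * gs).s (gs * gs).e1 (gs * gs).e2 ≠ 0 ∨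
      ch l (gs * gt * gs * gt⁻¹).s (gs * gt * gs * gt⁻¹).e1 (gs * gt * gs * gt⁻¹).e2 ≠ 0) := by
  decide +kernel
lemma f9 : gt ∈ H ∧ gs * gs ∈ H ∧ gs * gt * gs * gt⁻¹ ∈ H := by decide +kernel

end Pool.Agent.H23.ResGen
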