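import Mathlib

set_option autoImplicit false
set_option maxSynthPendingDepth 3

open Matrix

namespace Pool.Agent.H23.Sanov

abbrev G := Matrix.SpecialLinearGroup (Fin 2) ℤ

def mA : G := ⟨!![1, 2; 0, 1], by simp [det_fin_two]⟩
def mB : G := ⟨!![1, 0; 2, 1], by simp [det_fin_two]⟩
def mAi : G := ⟨!![1, -2; 0, 1], by simp [det_fin_two]⟩
def mBi : G := ⟨!![1, 0; -2, 1], by simp [det_fin_two]⟩

lemma mA_inv : mA⁻¹ = mAi := by
  rw [inv_eq_iff_mul_eq_one]
  apply Subtype.ext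
  simp [mA, mAi, one_fin_two]

lemma mB_inv : mB⁻¹ = mBi := by
  rw [inv_eq_iff_mul_eq_one]
  apply Subtype.ext
  simp [mB, mBi, one_fin_two]

def gens : Fin 2 → G := ![mA, mB]

abbrev V := {v : ℝ × ℝ // ∀ m n : ℤ, m * v.1 + n * v.2 = 0 → m = 0 ∧ n = 0}

lemma det_eq (g : G) : g 0 0 * g 1 1 - g 0 1 * g 1 0 = 1 := by
  have := g.2
  rwa [det_fin_two] at this

lemma mul_ent (g h : G) (i j : Fin 2) : (g * h) i j = g i 0 * h 0 j + g i 1 * h 1 j := by
  change (g.1 * h.1) i j = _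
  rw [mul_apply, Fin.sum_univ_two]

instance : MulAction G V where
  smul g v := ⟨(g 0 0 * v.1.1 + g 0 1 * v.1.2, g 1 0 * v.1.1 + g 1 1 * v.1.2), by
    intro m n h
    have h1 := v.2 (m * g 0 0 + n * g 1 0) (m * g 0 1 + n * g 1 1) (by
      push_cast; simp only at h; linear_combination h)
    have h2 := det_eq g
    constructor
    · linear_combination (g 1 1) * h1.1 - (g 1 0) * h1.2 - m * h2
    · linear_combination (g 0 0) * h1.2 - (g 0 1) * h1.1 - n * h2⟩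
  one_smul v := by
    apply Subtype.ext
    change (_, _) = _
    simp
  mul_smul g h v := by
    apply Subtype.ext
    change ((((g * h) 0 0 : ℤ) : ℝ) * v.1.1 + (g * h) 0 1 * v.1.2,
      (((g * h) 1 0 : ℤ) : ℝ) * v.1.1 + (g * h) 1 1 * v.1.2) = (((g 0 0 : ℤ) : ℝ) * (h 0 0 * v.1.1 + h 0 1 * v.1.2) +
      g 0 1 * (h 1 0 * v.1.1 + h 1 1 * v.1.2), ((g 1 0 : ℤ) : ℝ) * (h 0 0 * v.1.1 + h 0 1 * v.1.2) +
      g 1 1 * (h 1 0 * v.1.1 + h 1 1 * v.1.2))
    simp only [mul_ent]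
    push_cast
    refine Prod.ext ?_ ?_ <;> simp only <;> ring

lemma smul_val (g : G) (v : V) : (g • v).1 =
    (g 0 0 * v.1.1 + g 0 1 * v.1.2, g 1 0 * v.1.1 + g 1 1 * v.1.2) := rfl

def XX : Fin 2 → Set V := ![{v | v.1.2 ^ 2 < v.1.1 * v.1.2}, {v | v.1.1 ^ 2 < v.1.1 * v.1.2}]
def YY : Fin 2 → Set V := ![{v | v.1.1 * v.1.2 < -v.1.2 ^ 2}, {v | v.1.1 * v.1.2 < -v.1.1 ^ 2}]

lemma ne4 (v : V) : v.1.1 ≠ 0 ∧ v.1.2 ≠ 0 ∧ v.1.1 + v.1.2 ≠ 0 ∧ v.1.1 - v.1.2 ≠ 0 := by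
  refine ⟨fun h => ?_, fun h => ?_, fun h => ?_, fun h => ?_⟩
  · simpa using (v.2 1 0 (by simp [h])).1
  · simpa using (v.2 0 1 (by simp [h])).2
  · simpa using (v.2 1 1 (by simpa using h)).2
  · simpa using (v.2 1 (-1) (by push_cast; linarith)).1

lemma indep (m n : ℤ) (h : m * √2 + n * 1 = 0) : m = 0 ∧ n = 0 := by
  by_cases hm : m = 0
  · subst hm; simpa using h
  · exfalso
    have h1 := (irrational_sqrt_two.intCast_mul hm).ne_int (-n)
    apply h1; push_cast; linarith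

lemma inj : Function.Injective (FreeGroup.lift gens) := by
  have s1 : 1 < √2 := Real.one_lt_sqrt_two
  apply FreeGroup.injective_lift_of_ping_pong gens XX YY
  · intro i
    fin_cases i
    · exact ⟨⟨(√2, 1), indep⟩, by simp [XX]; linarith⟩
    · exact ⟨⟨(1, √2), fun m n h => (indep n m (by simp only at h; linarith)).symm⟩,
        by simp [XX]; linarith⟩
  · intro i j hij
    fin_cases i <;> fin_cases j <;> first | exact absurd rfl hij | skip
    all_goals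
      simp only [Function.onFun, Set.disjoint_left, XX]
      intro x h1 h2
      simp at h1 h2
      nlinarith [sq_nonneg (x.1.1 - x.1.2)]
  · intro i j hij
    fin_cases i <;> fin_cases j <;> first | exact absurd rfl hij | skip
    all_goals
      simp only [Function.onFun, Set.disjoint_left, YY]
      intro x h1 h2
      simp at h1 h2
      nlinarith [sq_nonneg (x.1.1 + x.1.2)]
  · intro i j
    fin_cases i <;> fin_cases j
    all_goals
      simp only [Set.disjoint_left, XX, YY]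
      intro x h1 h2
      simp at h1 h2
      nlinarith [sq_nonneg x.1.1, sq_nonneg x.1.2]
  · intro i
    fin_cases i
    · rintro _ ⟨x, hx, rfl⟩
      obtain ⟨h1, h2, h3, h4⟩ := ne4 x
      have h : ¬ x.1.1 * x.1.2 < -x.1.2 ^ 2 := hx
      have h5 := mul_ne_zero h3 h2
      change (mA • x).1.2 ^ 2 < (mA • x).1.1 * (mA • x).1.2
      rw [smul_val]
      simp [mA]
      rcases lt_or_gt_of_ne h5 with h6 | h6 <;> nlinarith
    · rintro _ ⟨x, hx, rfl⟩
      obtain ⟨h1, h2, h3, h4⟩ := ne4 x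
      have h : ¬ x.1.1 * x.1.2 < -x.1.1 ^ 2 := hx
      have h5 := mul_ne_zero h3 h1
      change (mB • x).1.1 ^ 2 < (mB • x).1.1 * (mB • x).1.2
      rw [smul_val]
      simp [mB]
      rcases lt_or_gt_of_ne h5 with h6 | h6 <;> nlinarith
  · intro i
    fin_cases i
    · rintro _ ⟨x, hx, rfl⟩
      obtain ⟨h1, h2, h3, h4⟩ := ne4 x
      have h : ¬ x.1.2 ^ 2 < x.1.1 * x.1.2 := hx
      have h5 := mul_ne_zero h4 h2
      change (mA⁻¹ • x).1.1 * (mA⁻¹ • x).1.2 < -(mA⁻¹ • x).1.2 ^ 2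
      rw [mA_inv, smul_val]
      simp [mAi]
      rcases lt_or_gt_of_ne h5 with h6 | h6 <;> nlinarith
    · rintro _ ⟨x, hx, rfl⟩
      obtain ⟨h1, h2, h3, h4⟩ := ne4 x
      have h : ¬ x.1.1 ^ 2 < x.1.1 * x.1.2 := hx
      have h5 := mul_ne_zero h4 h1
      change (mB⁻¹ • x).1.1 * (mB⁻¹ • x).1.2 < -(mB⁻¹ • x).1.1 ^ 2
      rw [mB_inv, smul_val]
      simp [mBi]
      rcases lt_or_gt_of_ne h5 with h6 | h6 <;> nlinarith

end Pool.Agent.H23.Sanov
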