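import Mathlib

set_option autoImplicit false
set_option maxSynthPendingDepth 3

namespace Pool.Agent.H23.SnIso
open Finset Equiv

variable {n : ℕ}

lemma cnt (I : Finset (Fin n)) (π : Perm (Fin n)) :
    (univ.filter fun σ : Perm (Fin n) => ∀ i ∈ I, σ i = π i).card = (n - I.card).factorial := by
  have e1 : {σ : Perm (Fin n) // ∀ i ∈ I, σ i = π i} ≃
      {f : Perm (Fin n) // ∀ a, ¬ (a ∉ I) → f a = a} :=
    { toFun := fun σ => ⟨π⁻¹ * σ.1, fun a ha => by simp [σ.2 a (not_not.mp ha)]⟩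
      invFun := fun f => ⟨π * f.1, fun a ha => by simp [f.2 a (not_not.mpr ha)]⟩
      left_inv := fun σ => by simp
      right_inv := fun f => by simp }
  rw [← Fintype.card_subtype, Fintype.card_congr e1,
    ← Fintype.card_congr (Perm.subtypeEquivSubtypePerm fun a => a ∉ I), Fintype.card_perm]
  simp

lemma cnt1 (a a' : Fin n) :
    (univ.filter fun σ : Perm (Fin n) => σ a = a').card = (n - 1).factorial := by
  simpa using cnt {a} (swap a a')

lemma cnt2 (a a' b b' : Fin n) (h : a ≠ b) (h' : a' ≠ b') :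
    (univ.filter fun σ : Perm (Fin n) => σ a = a' ∧ σ b = b').card = (n - 2).factorial := by
  obtain ⟨π, hπ⟩ := Perm.exists_extending_pair (f := ![a, b]) (g := ![a', b'])
    (by intro i j; fin_cases i <;> fin_cases j <;> simp [h, h.symm])
    (by intro i j; fin_cases i <;> fin_cases j <;> simp [h', h'.symm])
  have h0 : π a = a' := hπ 0
  have h1 : π b = b' := hπ 1
  simpa [h0, h1, card_pair h] using cnt {a, b} π

lemma cnt3 (a : Fin n) (p q : Fin n × Fin n) (hp : p.1 ≠ a) (hq : q.1 ≠ a) (hpq : p ≠ q) :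
    ((univ.filter fun σ : Perm (Fin n) => σ a = a ∧ σ p.1 = p.2) ∩
      (univ.filter fun σ : Perm (Fin n) => σ a = a ∧ σ q.1 = q.2)).card ≤ (n - 3).factorial := by
  rcases ((univ.filter fun σ : Perm (Fin n) => σ a = a ∧ σ p.1 = p.2) ∩
      (univ.filter fun σ : Perm (Fin n) => σ a = a ∧ σ q.1 = q.2)).eq_empty_or_nonempty with
    h | ⟨π, hπ⟩
  · simp [h]
  · simp only [mem_inter, mem_filter, mem_univ, true_and] at hπ
    have h1 : p.1 ≠ q.1 := fun e => hpq (Prod.ext e (by rw [← hπ.1.2, ← hπ.2.2, e]))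
    have := cnt {a, p.1, q.1} π
    rw [card_eq_three.mpr ⟨a, p.1, q.1, hp.symm, hq.symm, h1, rfl⟩] at this
    rw [← this]
    refine card_le_card fun σ hσ => ?_
    simp only [mem_inter, mem_filter, mem_univ, true_and] at hσ
    simp [hσ.1.1, hσ.1.2, hσ.2.2, hπ.1.1, hπ.1.2, hπ.2.2]

lemma bonf {ι α : Type} [DecidableEq ι] [DecidableEq α] (F : ι → Finset α) (x y : ℕ)
    (Q : Finset ι) (h1 : ∀ p ∈ Q, x ≤ (F p).card)
    (h2 : ∀ p ∈ Q, ∀ q ∈ Q, p ≠ q → (F p ∩ F q).card ≤ y) :
    Q.card * x ≤ (Q.biUnion F).card + Q.card ^ 2 * y := by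
  induction Q using Finset.induction_on with
  | empty => simp
  | insert p Q hp ih =>
    have i := ih (fun q hq => h1 q (mem_insert_of_mem hq))
      (fun q hq r hr => h2 q (mem_insert_of_mem hq) r (mem_insert_of_mem hr))
    have h3 := card_union_add_card_inter (F p) (Q.biUnion F)
    have h4 : (F p ∩ Q.biUnion F).card ≤ Q.card * y := by
      rw [inter_biUnion]
      exact card_biUnion_le_card_mul _ _ _ fun q hq =>
        h2 p (mem_insert_self _ _) q (mem_insert_of_mem hq) (fun e => hp (e ▸ hq))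
    have h5 := h1 p (mem_insert_self _ _)
    rw [biUnion_insert, card_insert_of_notMem hp]
    nlinarith

lemma pairs (x : Fin n) : (univ.filter fun p : Fin n × Fin n =>
    p.1 < p.2 ∧ (p.1 = x ∨ p.2 = x)).card ≤ n - 1 := by
  have : (univ.erase x).card = n - 1 := by simp
  rw [← this]
  refine card_le_card_of_injOn (fun p => if p.1 = x then p.2 else p.1) (fun p hp => ?_) ?_
  · simp only [coe_filter, mem_univ, true_and, Set.mem_ofPred_eq] at hp
    simp only [coe_erase, coe_univ, Set.mem_sdiff, Set.mem_univ, Set.mem_singleton_iff, true_and]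
    split_ifs with h
    · exact fun e => hp.1.ne (h.trans e.symm)
    · exact h
  · intro p hp q hq e
    simp only [coe_filter, mem_univ, true_and, Set.mem_ofPred_eq] at hp hq
    have h1 := hp.1
    have h2 := hq.1
    simp only at e
    refine Prod.ext ?_ ?_ <;> split_ifs at e <;> omega

def D (a b : Fin n) : Finset (Perm (Fin n)) :=
  univ.filter fun σ => σ a = a ∨ σ b = b ∨ (σ a = b ∧ σ b = a)

lemma card_sd (a b : Fin n) (h : a ≠ b) :
    (univ.filter fun σ : Perm (Fin n) => σ a = a ∧ ¬ σ b = b).card + (n - 2).factorial =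
      (n - 1).factorial := by
  rw [← cnt1 a a, ← cnt2 a a b b h h, ← card_filter_add_card_filter_not
    (s := univ.filter fun σ : Perm (Fin n) => σ a = a) (fun σ => σ b = b), filter_filter,
    filter_filter, add_comm]

lemma D_split (a b : Fin n) (h : a ≠ b) (g : Perm (Fin n) → ℕ) : ∑ σ ∈ D a b, g σ =
    ∑ σ ∈ univ.filter (fun σ : Perm (Fin n) => σ a = a ∧ ¬ σ b = b), g σ +
    ∑ σ ∈ univ.filter (fun σ : Perm (Fin n) => σ b = b ∧ ¬ σ a = a), g σ +
    ∑ σ ∈ univ.filter (fun σ : Perm (Fin n) => σ a = a ∧ σ b = b), g σ +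
    ∑ σ ∈ univ.filter (fun σ : Perm (Fin n) => σ a = b ∧ σ b = a), g σ := by
  simp only [D, sum_filter, ← sum_add_distrib]
  refine sum_congr rfl fun σ _ => ?_
  by_cases h1 : σ a = a <;> by_cases h2 : σ b = b <;> simp [h1, h2, h, h.symm]

lemma card_D (a b : Fin n) (h : a ≠ b) : (D a b).card = 2 * (n - 1).factorial := by
  have := D_split a b h (fun _ => 1)
  simp only [sum_const, smul_eq_mul, mul_one] at this
  have h1 := card_sd a b h
  have h2 := card_sd b a h.symm
  rw [cnt2 a a b b h h, cnt2 a b b a h h.symm] at this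
  omega

lemma bdry (a b : Fin n) (h : a < b) :
    (((D a b)ᶜ ×ˢ (univ.filter (fun p : Fin n × Fin n => p.1 < p.2))).filter
      (fun x => x.1 * swap x.2.1 x.2.2 ∉ (D a b)ᶜ)).card + 2 * (n - 1) * (n - 2).factorial ≤
      2 * (n - 1) * (n - 1).factorial + (n - 2).factorial + 2 * (n - 1) * (n - 2).factorial := by
  let g : Perm (Fin n) → Finset (Fin n × Fin n) := fun τ =>
    univ.filter fun p => p.1 < p.2 ∧ τ * swap p.1 p.2 ∉ D a b
  have e1 : (((D a b)ᶜ ×ˢ (univ.filter (fun p : Fin n × Fin n => p.1 < p.2))).filter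
      (fun x => x.1 * swap x.2.1 x.2.2 ∉ (D a b)ᶜ)).card ≤ ((D a b).sigma g).card := by
    refine card_le_card_of_injOn (fun x => ⟨x.1 * swap x.2.1 x.2.2, x.2⟩) (fun x hx => ?_) ?_
    · simp only [coe_filter, mem_product, mem_compl, mem_filter, mem_univ, true_and, not_not,
        Set.mem_ofPred_eq] at hx
      simp only [mem_coe, mem_sigma, g, mem_filter, mem_univ, true_and, mul_assoc, swap_mul_self,
        mul_one]
      exact ⟨hx.2, hx.1.2, hx.1.1⟩
    · intro x _ y _ e
      simp only [Sigma.mk.injEq, heq_eq_eq] at e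
      refine Prod.ext ?_ e.2
      have := e.1
      rw [e.2] at this
      exact mul_right_cancel this
  have fix : ∀ (τ : Perm (Fin n)) (p : Fin n × Fin n) (x : Fin n), ¬ (p.1 = x ∨ p.2 = x) →
      (τ * swap p.1 p.2) x = τ x := fun τ p x hx => by
    push Not at hx
    rw [Perm.mul_apply, swap_apply_of_ne_of_ne hx.1.symm hx.2.symm]
  have ga : ∀ τ : Perm (Fin n), τ a = a → ∀ p ∈ g τ, p.1 < p.2 ∧ (p.1 = a ∨ p.2 = a) := by
    intro τ hτ p hp
    have := (mem_filter.mp hp).2
    refine ⟨this.1, by_contra fun hc => this.2 ?_⟩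
    exact mem_filter.mpr ⟨mem_univ _, Or.inl ((fix τ p a hc).trans hτ)⟩
  have gb : ∀ τ : Perm (Fin n), τ b = b → ∀ p ∈ g τ, p.1 < p.2 ∧ (p.1 = b ∨ p.2 = b) := by
    intro τ hτ p hp
    have := (mem_filter.mp hp).2
    refine ⟨this.1, by_contra fun hc => this.2 ?_⟩
    exact mem_filter.mpr ⟨mem_univ _, Or.inr (Or.inl ((fix τ p b hc).trans hτ))⟩
  have s1 := sum_le_card_nsmul (univ.filter (fun σ : Perm (Fin n) => σ a = a ∧ ¬ σ b = b))
    (fun τ => (g τ).card) (n - 1) fun τ hτ => le_trans (card_le_card fun p hp =>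
      mem_filter.mpr ⟨mem_univ _, ga τ (mem_filter.mp hτ).2.1 p hp⟩) (pairs a)
  have s2 := sum_le_card_nsmul (univ.filter (fun σ : Perm (Fin n) => σ b = b ∧ ¬ σ a = a))
    (fun τ => (g τ).card) (n - 1) fun τ hτ => le_trans (card_le_card fun p hp =>
      mem_filter.mpr ⟨mem_univ _, gb τ (mem_filter.mp hτ).2.1 p hp⟩) (pairs b)
  have s3 := sum_le_card_nsmul (univ.filter (fun σ : Perm (Fin n) => σ a = a ∧ σ b = b))
    (fun τ => (g τ).card) 1 fun τ hτ => by
      refine le_trans (card_le_card (t := {(a, b)}) fun p hp => ?_) (by simp)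
      have h1 := ga τ (mem_filter.mp hτ).2.1 p hp
      have h2 := gb τ (mem_filter.mp hτ).2.2 p hp
      rw [mem_singleton]
      refine Prod.ext ?_ ?_ <;> simp only <;> omega
  have s4 := sum_le_card_nsmul (univ.filter (fun σ : Perm (Fin n) => σ a = b ∧ σ b = a))
    (fun τ => (g τ).card) (2 * (n - 1)) fun τ hτ => by
      have h1 := (mem_filter.mp hτ).2
      refine le_trans (card_le_card (t := (univ.filter fun p : Fin n × Fin n =>
        p.1 < p.2 ∧ (p.1 = a ∨ p.2 = a)) ∪ univ.filter fun p : Fin n × Fin n =>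
        p.1 < p.2 ∧ (p.1 = b ∨ p.2 = b)) fun p hp => ?_) ((card_union_le _ _).trans ?_)
      · have := (mem_filter.mp hp).2
        simp only [mem_union, mem_filter, mem_univ, true_and, this.1]
        by_contra hc
        rw [not_or] at hc
        exact this.2 (mem_filter.mpr ⟨mem_univ _, Or.inr (Or.inr
          ⟨(fix τ p a hc.1).trans h1.1, (fix τ p b hc.2).trans h1.2⟩)⟩)
      · have := pairs a
        have := pairs b
        omega
  rw [card_sigma, D_split a b h.ne] at e1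
  rw [cnt2 a a b b h.ne h.ne] at s3
  rw [cnt2 a b b a h.ne h.ne'] at s4
  have h1 := card_sd a b h.ne
  have h2 := card_sd b a h.ne'
  simp only [smul_eq_mul] at s1 s2 s3 s4
  nlinarith

lemma far (a b x : Fin n) (hx : ∀ σ : Perm (Fin n), σ x = x → σ ∈ D a b)
    (P Q : Finset (Fin n × Fin n)) (hQ : Q ⊆ P) (h : ∀ p ∈ Q, p.1 ≠ x ∧ p.2 ≠ x) :
    Q.card * (n - 2).factorial ≤ (symmDiff (D a b)ᶜ
      (univ.filter (fun σ : Perm (Fin n) => ∃ p ∈ P, σ p.1 = p.2))).card +
      Q.card ^ 2 * (n - 3).factorial := by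
  refine (bonf (fun p : Fin n × Fin n => univ.filter fun σ : Perm (Fin n) => σ x = x ∧ σ p.1 = p.2)
    _ _ Q (fun p hp => (cnt2 _ _ _ _ (h p hp).1.symm (h p hp).2.symm).ge)
    (fun p hp q hq hpq => cnt3 x p q (h p hp).1 (h q hq).1 hpq)).trans ?_
  refine Nat.add_le_add_right (card_le_card fun σ hσ => ?_) _
  obtain ⟨p, hp, h'⟩ := mem_biUnion.mp hσ
  have h2 := (mem_filter.mp h').2
  rw [mem_symmDiff]
  exact Or.inr ⟨mem_filter.mpr ⟨mem_univ _, p, hQ hp, h2.2⟩, by simpa using hx σ h2.1⟩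

lemma far2 (a b : Fin n) (hab : a ≠ b) (K : ℕ) (P : Finset (Fin n × Fin n))
    (hP : 2 * K + 2 ≤ P.card) :
    K * (n - 2).factorial ≤ (symmDiff (D a b)ᶜ
      (univ.filter (fun σ : Perm (Fin n) => ∃ p ∈ P, σ p.1 = p.2))).card +
      K ^ 2 * (n - 3).factorial := by
  have h1 : P ⊆ P.filter (fun p => p.1 ≠ a ∧ p.2 ≠ a) ∪ P.filter (fun p => p.1 ≠ b ∧ p.2 ≠ b) ∪
      {(a, b), (b, a)} := by
    intro p hp
    simp only [mem_union, mem_filter, hp, true_and, mem_insert, mem_singleton, Prod.ext_iff]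
    omega
  have h2 := (card_le_card h1).trans ((card_union_le _ _).trans
    (Nat.add_le_add (card_union_le _ _) card_le_two))
  by_cases h : K ≤ (P.filter (fun p => p.1 ≠ a ∧ p.2 ≠ a)).card
  · obtain ⟨Q, hQ, rfl⟩ := exists_subset_card_eq h
    exact far a b a (fun σ h => mem_filter.mpr ⟨mem_univ _, Or.inl h⟩) P Q
      (hQ.trans (filter_subset _ _)) fun p hp => (mem_filter.mp (hQ hp)).2
  · obtain ⟨Q, hQ, rfl⟩ := exists_subset_card_eq
      (by omega : K ≤ (P.filter (fun p => p.1 ≠ b ∧ p.2 ≠ b)).card)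
    exact far a b b (fun σ h => mem_filter.mpr ⟨mem_univ _, Or.inr (Or.inl h)⟩) P Q
      (hQ.trans (filter_subset _ _)) fun p hp => (mem_filter.mp (hQ hp)).2

end Pool.Agent.H23.SnIso
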