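import Mathlib

set_option autoImplicit false
set_option maxSynthPendingDepth 3

namespace Pool.Agent.H23.Stab

variable {α : Type} (G : SimpleGraph α)

/-- Littlestone-type trees of depth `d` with leaves in `X` and nodes in `P` -/
def TP (P : Set α) : ℕ → Set α → Prop
  | 0, X => X.Nonempty
  | d + 1, X => ∃ v ∈ P, TP P d (X ∩ G.neighborSet v) ∧ TP P d (X \ G.neighborSet v)

variable {G}

lemma TP.mono {P P' : Set α} (hP : P ⊆ P') {d : ℕ} : ∀ {X X' : Set α}, X ⊆ X' →
    TP G P d X → TP G P' d X' := by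
  induction d with
  | zero => intro X X' h h1; exact Set.Nonempty.mono h h1
  | succ d ih =>
    rintro X X' h ⟨v, hv, h1, h2⟩
    exact ⟨v, hP hv, ih (Set.inter_subset_inter_left _ h) h1,
      ih (Set.sdiff_subset_sdiff_left h) h2⟩

lemma TP.nonempty {P : Set α} {d : ℕ} : ∀ {X : Set α}, TP G P d X → X.Nonempty := by
  induction d with
  | zero => intro X h; exact h
  | succ d ih =>
    rintro X ⟨v, -, h1, -⟩
    exact (ih h1).mono Set.inter_subset_left

lemma TP.witness {P : Set α} {d : ℕ} : ∀ {X : Set α}, TP G P d X →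
    ∃ Y : Finset α, (Y : Set α) ⊆ X ∧ Y.card ≤ 2 ^ d ∧ TP G P d Y := by
  classical
  induction d with
  | zero =>
    rintro X ⟨x, hx⟩
    exact ⟨{x}, by simpa using hx, by simp, ⟨x, by simp⟩⟩
  | succ d ih =>
    rintro X ⟨v, hv, h1, h2⟩
    obtain ⟨Y1, a1, a2, a3⟩ := ih h1
    obtain ⟨Y2, b1, b2, b3⟩ := ih h2
    refine ⟨Y1 ∪ Y2, ?_, (Finset.card_union_le _ _).trans (by omega), v, hv,
      a3.mono le_rfl ?_, b3.mono le_rfl ?_⟩
    · rw [Finset.coe_union]
      exact Set.union_subset (a1.trans Set.inter_subset_left) (b1.trans Set.sdiff_subset)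
    · intro x hx
      exact ⟨by simp [Finset.mem_coe.1 hx], (a1 hx).2⟩
    · intro x hx
      exact ⟨by simp [Finset.mem_coe.1 hx], (b1 hx).2⟩

lemma TP.split {P1 P2 : Set α} (s : ℕ) : ∀ (p q : ℕ), p + q = s → ∀ {X : Set α},
    TP G (P1 ∪ P2) (p + q + 1) X → TP G P1 (p + 1) X ∨ TP G P2 (q + 1) X := by
  induction s with
  | zero =>
    intro p q h X hX
    obtain rfl : p = 0 := by omega
    obtain rfl : q = 0 := by omega
    obtain ⟨v, hv | hv, h1, h2⟩ := hX
    · exact Or.inl ⟨v, hv, h1, h2⟩
    · exact Or.inr ⟨v, hv, h1, h2⟩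
  | succ s ih =>
    intro p q h X hX
    obtain ⟨v, hv | hv, h1, h2⟩ := hX
    · cases p with
      | zero => exact Or.inl ⟨v, hv, h1.nonempty, h2.nonempty⟩
      | succ p =>
        rw [show p + 1 + q = p + q + 1 by omega] at h1 h2
        rcases ih p q (by omega) h1 with a | a
        · rcases ih p q (by omega) h2 with b | b
          · exact Or.inl ⟨v, hv, a, b⟩
          · exact Or.inr (b.mono le_rfl Set.sdiff_subset)
        · exact Or.inr (a.mono le_rfl Set.inter_subset_left)
    · cases q with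
      | zero => exact Or.inr ⟨v, hv, h1.nonempty, h2.nonempty⟩
      | succ q =>
        rw [show p + (q + 1) = p + q + 1 by omega] at h1 h2
        rcases ih p q (by omega) h1 with a | a
        · exact Or.inl (a.mono le_rfl Set.inter_subset_left)
        · rcases ih p q (by omega) h2 with b | b
          · exact Or.inl (b.mono le_rfl Set.sdiff_subset)
          · exact Or.inr ⟨v, hv, a, b⟩

lemma ladder (t : ℕ) : ∃ D : ℕ, ∀ (α : Type) (G : SimpleGraph α) (P X : Set α), TP G P D X →
    ∃ a b : ℕ → α, (∀ i < t, a i ∈ X ∧ b i ∈ P) ∧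
      ∀ i < t, ∀ j < t, (i < j → G.Adj (a i) (b j)) ∧ (j < i → ¬ G.Adj (a i) (b j)) := by
  induction t with
  | zero =>
    refine ⟨0, fun α G P X ⟨x, _⟩ => ⟨fun _ => x, fun _ => x, by simp, by simp⟩⟩
  | succ t ih =>
    obtain ⟨D, hD⟩ := ih
    refine ⟨D + D + 1, fun α G P X hX => ?_⟩
    obtain ⟨x, hx⟩ := hX.nonempty
    rw [← Set.inter_union_sdiff P (G.neighborSet x)] at hX
    rcases TP.split _ D D rfl hX with ⟨v, hv, -, h⟩ | ⟨v, hv, h, -⟩
    · obtain ⟨a, b, h1, h2⟩ := hD α G _ _ h
      refine ⟨fun i => Nat.casesOn i x a, fun i => Nat.casesOn i v b, ?_, ?_⟩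
      · intro i hi
        cases i with
        | zero => exact ⟨hx, hv.1⟩
        | succ i => exact ⟨(h1 i (by omega)).1.1, (h1 i (by omega)).2.1⟩
      · intro i hi j hj
        cases i with
        | zero =>
          cases j with
          | zero => simp
          | succ j => exact ⟨fun _ => (h1 j (by omega)).2.2, fun h => by omega⟩
        | succ i =>
          cases j with
          | zero => exact ⟨fun h => by omega, fun _ h => (h1 i (by omega)).1.2 h.symm⟩
          | succ j =>
            exact ⟨fun h => (h2 i (by omega) j (by omega)).1 (by omega),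
              fun h => (h2 i (by omega) j (by omega)).2 (by omega)⟩
    · obtain ⟨a, b, h1, h2⟩ := hD α G _ _ h
      refine ⟨Function.update a t x, Function.update b t v, ?_, ?_⟩
      · intro i hi
        by_cases h : i = t
        · subst h; simp only [Function.update_self]; exact ⟨hx, hv.1⟩
        · simp only [Function.update_of_ne h]
          exact ⟨(h1 i (by omega)).1.1, (h1 i (by omega)).2.1⟩
      · intro i hi j hj
        by_cases h : i = t
        · by_cases h' : j = t
          · exact ⟨fun _ => by omega, fun _ => by omega⟩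
          · subst h
            simp only [Function.update_self, Function.update_of_ne h']
            exact ⟨fun _ => by omega, fun _ => (h1 j (by omega)).2.2⟩
        · by_cases h' : j = t
          · subst h'
            simp only [Function.update_self, Function.update_of_ne h]
            exact ⟨fun _ => (h1 i (by omega)).1.2.symm, fun _ => by omega⟩
          · simp only [Function.update_of_ne h, Function.update_of_ne h']
            exact h2 i (by omega) j (by omega)

variable (G)

/-- no half-graph pattern of order `h` (vertices may coincide) -/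
def NoLad (h : ℕ) : Prop := ¬ ∃ a b : ℕ → α, ∀ i < h, ∀ j < h, (G.Adj (a i) (b j) ↔ i ≤ j)

lemma rank_bound (h : ℕ) : ∃ D : ℕ, ∀ (α : Type) (G : SimpleGraph α), NoLad G h →
    ¬ TP G Set.univ D Set.univ := by
  obtain ⟨D, hD⟩ := ladder (2 * h)
  refine ⟨D, fun α G hG hT => hG ?_⟩
  obtain ⟨a, b, -, h2⟩ := hD α G _ _ hT
  refine ⟨fun i => a (2 * i), fun j => b (2 * j + 1), fun i hi j hj => ⟨fun hadj => ?_, fun hle => ?_⟩⟩
  · by_contra hlt
    exact (h2 (2 * i) (by omega) (2 * j + 1) (by omega)).2 (by omega) hadj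
  · exact (h2 (2 * i) (by omega) (2 * j + 1) (by omega)).1 (by omega)

variable (a : ℕ)

def ev (S z : Set α) : Prop := TP G Set.univ a (S ∩ z)

def tp (S : Set α) : Set α := {v | ev G a S (G.neighborSet v)}

def Wr (S z : Set α) : Set α := {x | x ∈ S ∧ ¬ (x ∈ z ↔ ev G a S z)}

def Apx (K : ℕ) (z : Set α) : Prop :=
  ∀ Z : Finset α, Z.card ≤ K → ∃ w, ∀ x ∈ Z, (G.Adj w x ↔ x ∈ z)

def Small (K : ℕ) (F : Finset (Set α)) : Prop := F.card ≤ K ∧ ∀ S ∈ F, ¬ TP G Set.univ a S

def Big (K : ℕ) (S : Set α) : Prop := ∀ F, Small G a K F → ∃ w ∈ S, ∀ S' ∈ F, w ∉ S'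

variable {G a}

lemma apx_nb (K : ℕ) (v : α) : Apx G K (G.neighborSet v) := fun _ _ => ⟨v, fun _ _ => Iff.rfl⟩

lemma not_both {S z : Set α} (hS : ¬ TP G Set.univ (a + 1) S) {K : ℕ} (hK : 2 ^ (a + 1) ≤ K)
    (hz : Apx G K z) (h1 : TP G Set.univ a (S ∩ z)) (h2 : TP G Set.univ a (S \ z)) : False := by
  classical
  obtain ⟨Y1, a1, a2, a3⟩ := h1.witness
  obtain ⟨Y2, b1, b2, b3⟩ := h2.witness
  obtain ⟨w, hw⟩ := hz (Y1 ∪ Y2) ((Finset.card_union_le _ _).trans (by omega))
  refine hS ⟨w, trivial, a3.mono le_rfl fun x hx => ⟨(a1 hx).1, ?_⟩,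
    b3.mono le_rfl fun x hx => ⟨(b1 hx).1, fun h => (b1 hx).2 ?_⟩⟩
  · exact (hw x (Finset.mem_union_left _ hx)).2 (a1 hx).2
  · exact (hw x (Finset.mem_union_right _ hx)).1 h

lemma wr_small {S z : Set α} (hS : ¬ TP G Set.univ (a + 1) S) {K : ℕ} (hK : 2 ^ (a + 1) ≤ K)
    (hz : Apx G K z) : ¬ TP G Set.univ a (Wr G a S z) := by
  intro h
  by_cases he : ev G a S z
  · exact not_both hS hK hz he (h.mono le_rfl fun x hx => ⟨hx.1, fun h' => hx.2 (by simp [h', he])⟩)
  · exact he (h.mono le_rfl fun x hx => ⟨hx.1, by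
      by_contra h'
      exact hx.2 (by simp [h', he])⟩)

lemma Big.real {S : Set α} {K : ℕ} (hB : Big G a K S) (hS : ¬ TP G Set.univ (a + 1) S)
    (hK : 2 ^ (a + 1) ≤ K) (Z : Finset (Set α)) (hZ : Z.card ≤ K) (hz : ∀ z ∈ Z, Apx G K z) :
    ∃ w ∈ S, ∀ z ∈ Z, (w ∈ z ↔ ev G a S z) := by
  classical
  obtain ⟨w, hw, h⟩ := hB (Z.image (Wr G a S)) ⟨Finset.card_image_le.trans hZ, by
    intro S' hS'
    obtain ⟨z, h1, rfl⟩ := Finset.mem_image.1 hS'
    exact wr_small hS hK (hz z h1)⟩
  refine ⟨w, hw, fun z h1 => ?_⟩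
  by_contra h2
  exact h _ (Finset.mem_image_of_mem _ h1) ⟨hw, h2⟩

lemma Big.apx {S : Set α} {K : ℕ} (hB : Big G a K S) (hS : ¬ TP G Set.univ (a + 1) S)
    (hK : 2 ^ (a + 1) ≤ K) : Apx G K (tp G a S) := by
  classical
  intro Z hZ
  obtain ⟨w, -, h⟩ := hB.real hS hK (Z.image G.neighborSet) (Finset.card_image_le.trans hZ) (by
    intro z hz
    obtain ⟨v, -, rfl⟩ := Finset.mem_image.1 hz
    exact apx_nb K v)
  refine ⟨w, fun x hx => ?_⟩
  rw [G.adj_comm]
  exact h _ (Finset.mem_image_of_mem _ hx)

lemma Big.tp {S : Set α} {K : ℕ} (hB : Big G a K S) (hK : 1 ≤ K) : TP G Set.univ a S := by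
  by_contra h
  obtain ⟨w, hw, h'⟩ := hB {S} ⟨by simpa using hK, by simpa using h⟩
  exact h' S (Finset.mem_singleton_self _) hw

lemma ev_symm {h K : ℕ} (hG : NoLad G h) (hK : 2 ^ (a + 1) ≤ K) (hK' : h + 1 ≤ K)
    {S S' : Set α} (hB : Big G a K S) (hS : ¬ TP G Set.univ (a + 1) S)
    (hB' : Big G a K S') (hS' : ¬ TP G Set.univ (a + 1) S')
    (h1 : ev G a S (tp G a S')) : ev G a S' (tp G a S) := by
  classical
  by_contra h2
  obtain ⟨x0, -⟩ := h1.nonempty
  have key : ∀ t ≤ h, ∃ x y : ℕ → α, (∀ i < t, x i ∈ tp G a S' ∧ y i ∉ tp G a S) ∧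
      ∀ i < t, ∀ j < t, (G.Adj (x i) (y j) ↔ i ≤ j) := by
    intro t
    induction t with
    | zero => intro _; exact ⟨fun _ => x0, fun _ => x0, by simp, by simp⟩
    | succ t ih =>
      intro ht
      obtain ⟨x, y, k1, k2⟩ := ih (by omega)
      obtain ⟨u, -, hu⟩ := hB.real hS hK
        (insert (tp G a S') ((Finset.range t).image fun j => G.neighborSet (y j)))
        ((Finset.card_insert_le _ _).trans (by
          have := Finset.card_image_le (s := Finset.range t) (f := fun j => G.neighborSet (y j))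
          simp at this
          omega)) (by
          intro z hz
          rcases Finset.mem_insert.1 hz with rfl | hz
          · exact hB'.apx hS' hK
          · obtain ⟨v, -, rfl⟩ := Finset.mem_image.1 hz
            exact apx_nb K _)
      have u1 : u ∈ tp G a S' := (hu _ (Finset.mem_insert_self _ _)).2 h1
      have u2 : ∀ j < t, ¬ G.Adj u (y j) := fun j hj hadj => (k1 j hj).2
        ((hu _ (Finset.mem_insert_of_mem
          (Finset.mem_image_of_mem _ (Finset.mem_range.2 hj)))).1 hadj.symm)
      have x1 : ∀ i < t + 1, Function.update x t u i ∈ tp G a S' := by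
        intro i hi
        by_cases h : i = t
        · subst h; simpa using u1
        · rw [Function.update_of_ne h]; exact (k1 i (by omega)).1
      obtain ⟨w, -, hw⟩ := hB'.real hS' hK
        (insert (tp G a S) ((Finset.range (t + 1)).image
          fun i => G.neighborSet (Function.update x t u i)))
        ((Finset.card_insert_le _ _).trans (by
          have := Finset.card_image_le (s := Finset.range (t + 1))
            (f := fun i => G.neighborSet (Function.update x t u i))
          simp at this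
          omega)) (by
          intro z hz
          rcases Finset.mem_insert.1 hz with rfl | hz
          · exact hB.apx hS hK
          · obtain ⟨v, -, rfl⟩ := Finset.mem_image.1 hz
            exact apx_nb K _)
      have w1 : w ∉ tp G a S := fun h => h2 ((hw _ (Finset.mem_insert_self _ _)).1 h)
      have w2 : ∀ i < t + 1, G.Adj (Function.update x t u i) w := fun i hi =>
        (hw _ (Finset.mem_insert_of_mem
          (Finset.mem_image_of_mem _ (Finset.mem_range.2 hi)))).2 (x1 i hi)
      refine ⟨Function.update x t u, Function.update y t w, fun i hi => ⟨x1 i hi, ?_⟩, ?_⟩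
      · by_cases h : i = t
        · subst h; simpa using w1
        · rw [Function.update_of_ne h]; exact (k1 i (by omega)).2
      · intro i hi j hj
        by_cases h' : j = t
        · subst h'
          rw [Function.update_self]
          exact ⟨fun _ => by omega, fun _ => w2 i hi⟩
        · rw [Function.update_of_ne h']
          by_cases h : i = t
          · subst h
            rw [Function.update_self]
            exact ⟨fun hadj => absurd hadj (u2 j (by omega)), fun _ => by omega⟩
          · rw [Function.update_of_ne h]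
            exact k2 i (by omega) j (by omega)
  obtain ⟨x, y, -, k⟩ := key h le_rfl
  exact hG ⟨x, y, k⟩

end Pool.Agent.H23.Stab
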