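import Mathlib
import Pool.Agent.H23.GS2
import Pool.Agent.H23.Stab1

set_option autoImplicit false
set_option maxSynthPendingDepth 3

namespace Pool.Agent.H23.Stab
open Finset SimpleGraph
open Pool.Agent.H23.GS (digraph_col tree_step)

variable {α : Type} (G : SimpleGraph α) (L : Set (Set α)) (A : Set α → Set α → Prop)
  (V : Finset α) (K b : ℕ)

def Pt (z : Set α) : Prop := z ∈ L ∨ ∃ v, z = G.neighborSet v

structure Ctx : Prop where
  hN : ∀ p ∈ L, ∀ v, A p (G.neighborSet v) ↔ v ∈ p
  hS : ∀ p ∈ L, ∀ p' ∈ L, A p p' → A p' p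
  hR : ∀ p ∈ L, ∀ Z : Finset (Set α), Z.card ≤ K → (∀ z ∈ Z, Pt G L z) →
    ∃ w ∈ V, ∀ z ∈ Z, (w ∈ z ↔ A p z)
  hW : ∀ p ∈ L, ∃ Y ⊆ V, Y.card ≤ b ∧ ∀ p' ∈ L, (∀ y ∈ Y, y ∉ p') → ¬ A p p'

def Good : ℕ → Set α → Prop
  | 0, p => p ∈ L
  | r + 1, p => p ∈ L ∧ ∀ Z : Finset (Set α), Z.card ≤ K → (∀ z ∈ Z, Pt G L z) →
      ∀ Y ⊆ V, Y.card ≤ K → ∃ w ∈ V, (∀ z ∈ Z, (w ∈ z ↔ A p z)) ∧
        ∃ p', Good r p' ∧ w ∈ p' ∧ ∀ y ∈ Y, y ∉ p'

variable {G L A V K b}

lemma Good.mem {r : ℕ} {p : Set α} (h : Good G L A V K r p) : p ∈ L := by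
  cases r with
  | zero => exact h
  | succ r => exact h.1

lemma Good.pred {r : ℕ} : ∀ {p : Set α}, Good G L A V K (r + 1) p → Good G L A V K r p := by
  induction r with
  | zero => intro p h; exact h.1
  | succ r ih =>
    intro p h
    refine ⟨h.1, fun Z hZ hZ' Y hY hY' => ?_⟩
    obtain ⟨w, h1, h2, p', h4, h5⟩ := h.2 Z hZ hZ' Y hY hY'
    exact ⟨w, h1, h2, p', ih h4, h5⟩

lemma not_self (C : Ctx G L A V K b) {q : ℕ} (hq : G.CliqueFree q) (hK : q ≤ K) {p : Set α}
    (hp : p ∈ L) : ¬ A p p := by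
  classical
  intro hA
  have key : ∀ s, s ≤ q → ∃ S : Finset α, G.IsNClique s S ∧ ∀ x ∈ S, x ∈ p := by
    intro s
    induction s with
    | zero => intro _; exact ⟨∅, by simp, by simp⟩
    | succ s ih =>
      intro hs
      obtain ⟨S, S1, S2⟩ := ih (by omega)
      obtain ⟨w, -, w3⟩ := C.hR p hp (insert p (S.image G.neighborSet))
        ((card_insert_le _ _).trans (by
          have := card_image_le (s := S) (f := G.neighborSet)
          have := S1.card_eq
          omega)) (by
          intro z hz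
          rcases mem_insert.1 hz with rfl | hz
          · exact Or.inl hp
          · obtain ⟨x, -, rfl⟩ := mem_image.1 hz
            exact Or.inr ⟨x, rfl⟩)
      refine ⟨insert w S, S1.insert (fun x hx => ?_), fun x hx => ?_⟩
      · exact Adj.symm ((w3 _ (mem_insert_of_mem (mem_image_of_mem _ hx))).2
          ((C.hN p hp x).2 (S2 x hx)))
      · rcases mem_insert.1 hx with rfl | hx
        · exact (w3 _ (mem_insert_self _ _)).2 hA
        · exact S2 x hx
  obtain ⟨S, hS, -⟩ := key q le_rfl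
  exact hq S hS

lemma embed (C : Ctx G L A V K b) {q : ℕ} (hq : G.CliqueFree q) {m : ℕ} {T : SimpleGraph (Fin m)}
    (hT : T.IsTree) (hK : (b + 2) * m ≤ K) (hK' : q ≤ K) (u : α) (hu : u ∈ V)
    (U : Set α) (hU : Good G L A V K m U) (hU' : u ∈ U) : Nonempty (T ↪g G) := by
  classical
  obtain ⟨r⟩ := hT.connected.nonempty
  have key : ∀ s, s + 1 ≤ m → ∃ S : Finset (Fin m), S.card = s + 1 ∧ r ∈ S ∧
      (∀ v ∈ S, ∀ u, T.dist r u < T.dist r v → u ∈ S) ∧
      ∃ (x : Fin m → α) (W : Fin m → Set α),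
        (∀ i ∈ S, x i ∈ V ∧ x i ∈ W i ∧ Good G L A V K (m - s) (W i)) ∧
        ∀ i ∈ S, ∀ j ∈ S, i ≠ j → x j ∉ W i ∧
          ¬ A (W j) (W i) ∧ (G.Adj (x i) (x j) ↔ T.Adj i j) := by
    intro s
    induction s with
    | zero =>
      intro _
      refine ⟨{r}, by simp, by simp, by simp, fun _ => u, fun _ => U, ?_, ?_⟩
      · intro i _; exact ⟨hu, hU', hU⟩
      · simp only [mem_singleton]
        rintro i rfl j rfl h
        exact absurd rfl h
    | succ s ih =>
      intro hs
      obtain ⟨S, cS, rS, clS, x, W, h1, h2⟩ := ih (by omega)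
      obtain ⟨v, hv, p, hp, hadj, hcl⟩ := tree_step hT r S rS (by omega) clS
      have e : m - s = (m - (s + 1)) + 1 := by omega
      rw [e] at h1
      have hc := fun i (hi : i ∈ S) => C.hW _ (h1 i hi).2.2.mem
      choose! c c1 c2 c3 using hc
      have gp := (h1 p hp).2.2
      have hsm : S.card ≤ m := by omega
      have hK3 : 2 * m + b * m ≤ K := by linarith
      obtain ⟨w, wV, wF, U', g', wU', hY⟩ := gp.2
        (S.image (fun l => G.neighborSet (x l)) ∪ S.image W)
        (by
          refine (card_union_le _ _).trans ?_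
          have := card_image_le (s := S) (f := fun l => G.neighborSet (x l))
          have := card_image_le (s := S) (f := W)
          generalize b * m = z at hK3
          omega)
        (by
          intro z hz
          simp only [mem_union, mem_image] at hz
          rcases hz with ⟨l, -, rfl⟩ | ⟨l, hl, rfl⟩
          · exact Or.inr ⟨_, rfl⟩
          · exact Or.inl (h1 l hl).2.2.mem)
        (S.image x ∪ S.biUnion c)
        (by
          intro y hy
          simp only [mem_union, mem_image, mem_biUnion] at hy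
          rcases hy with ⟨l, hl, rfl⟩ | ⟨l, hl, h⟩
          · exact (h1 l hl).1
          · exact c1 l hl h)
        (by
          refine (card_union_le _ _).trans ?_
          have := card_image_le (s := S) (f := x)
          have h3 := card_biUnion_le_card_mul S c b c2
          have h4 : S.card * b ≤ b * m := by rw [mul_comm]; exact Nat.mul_le_mul_left _ hsm
          generalize b * m = z at hK3 h4
          omega)
      have f2 : ∀ l ∈ S, (G.Adj w (x l) ↔ l = p) := fun l hl => by
        rw [G.adj_comm, ← mem_neighborSet, wF _ (mem_union_left _ (mem_image_of_mem _ hl)),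
          C.hN _ gp.1]
        constructor
        · intro h
          by_contra hlp
          exact (h2 p hp l hl (Ne.symm hlp)).1 h
        · rintro rfl
          exact (h1 l hl).2.1
      have f3 : ∀ l ∈ S, w ∉ W l := fun l hl => by
        rw [wF _ (mem_union_right _ (mem_image_of_mem _ hl))]
        by_cases hlp : l = p
        · subst hlp
          exact not_self C hq hK' gp.1
        · exact (h2 l hl p hp hlp).2.1
      have f4 : ∀ l ∈ S, x l ∉ U' := fun l hl =>
        hY _ (mem_union_left _ (mem_image_of_mem _ hl))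
      have f5 : ∀ l ∈ S, ¬ A (W l) U' := fun l hl =>
        c3 l hl U' g'.mem (fun y hy => hY _ (mem_union_right _ (mem_biUnion.2 ⟨l, hl, hy⟩)))
      have ne : ∀ l ∈ S, l ≠ v := fun l hl e => hv (e ▸ hl)
      refine ⟨insert v S, by rw [card_insert_of_notMem hv, cS], mem_insert_of_mem rS, hcl,
        Function.update x v w, Function.update W v U', ?_, ?_⟩
      · intro i hi
        rcases mem_insert.mp hi with rfl | hi
        · simp only [Function.update_self]
          exact ⟨wV, wU', g'⟩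
        · simp only [Function.update_of_ne (ne i hi)]
          exact ⟨(h1 i hi).1, (h1 i hi).2.1, (h1 i hi).2.2.pred⟩
      · intro i hi j hj hij
        have hi' := mem_insert.mp hi
        have hj' := mem_insert.mp hj
        clear hi hj
        rcases hi' with rfl | hi <;> rcases hj' with rfl | hj
        · exact absurd rfl hij
        · simp only [Function.update_self, Function.update_of_ne (ne j hj)]
          exact ⟨f4 j hj, f5 j hj, (f2 j hj).trans (hadj j hj).symm⟩
        · simp only [Function.update_self, Function.update_of_ne (ne i hi)]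
          refine ⟨f3 i hi, fun h => f5 i hi (C.hS _ g'.mem _ (h1 i hi).2.2.mem h), ?_⟩
          rw [G.adj_comm, T.adj_comm]
          exact (f2 i hi).trans (hadj i hi).symm
        · simp only [Function.update_of_ne (ne i hi), Function.update_of_ne (ne j hj)]
          exact h2 i hi j hj hij
  have mpos : 0 < m := r.pos
  obtain ⟨S, cS, -, -, x, W, h1, h2⟩ := key (m - 1) (by omega)
  have hS : S = univ := eq_univ_of_card _ (by simp; omega)
  subst hS
  refine ⟨⟨⟨x, fun i j e => ?_⟩, fun {i j} => ?_⟩⟩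
  · by_contra h
    exact (h2 i (mem_univ _) j (mem_univ _) h).1 (e ▸ (h1 i (mem_univ _)).2.1)
  · by_cases h : i = j
    · subst h; simp
    · exact (h2 i (mem_univ _) j (mem_univ _) h).2.2

lemma levels (m : ℕ) (p : Set α) (h1 : p ∈ L) (h2 : ¬ Good G L A V K m p) :
    ∃ (r : ℕ) (Z : Finset (Set α)) (Y : Finset α), r < m ∧ Z.card ≤ K ∧ (∀ z ∈ Z, Pt G L z) ∧
      Y ⊆ V ∧ Y.card ≤ K ∧ Good G L A V K r p ∧
      ∀ w ∈ V, (∀ z ∈ Z, (w ∈ z ↔ A p z)) →
        ∀ p', Good G L A V K r p' → w ∈ p' → ∃ y ∈ Y, y ∈ p' := by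
  induction m with
  | zero => exact absurd h1 h2
  | succ m ih =>
    by_cases h : Good G L A V K m p
    · simp only [Good, h1, true_and] at h2
      push Not at h2
      obtain ⟨Z, hZ, hZ', Y, hY, hY', h'⟩ := h2
      exact ⟨m, Z, Y, by omega, hZ, hZ', hY, hY', h, h'⟩
    · obtain ⟨r, Z, Y, hr, h3⟩ := ih h
      exact ⟨r, Z, Y, by omega, h3⟩

def Cov (G : SimpleGraph α) (V : Finset α) (a k : ℕ) : Prop :=
  ∀ u ∈ V, ∃ F : Finset (Set α), Small G a k F ∧ ∀ w ∈ V, G.Adj u w → ∃ S ∈ F, w ∈ S

theorem colour {m : ℕ} {T : SimpleGraph (Fin m)} (hT : T.IsTree) (q h a : ℕ) : ∀ k : ℕ, ∃ c : ℕ,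
    ∀ (α : Type) (G : SimpleGraph α) (V : Finset α), NoLad G h →
      G.CliqueFree q → ¬ Nonempty (T ↪g G) → Cov G V a k →
      ∃ col : α → Fin c, ∀ u ∈ V, ∀ w ∈ V, G.Adj u w → col u ≠ col w := by
  classical
  induction a with
  | zero =>
    intro k
    refine ⟨1, fun α G V _ _ _ hc => ⟨fun _ => 0, fun u hu w hw hadj _ => ?_⟩⟩
    obtain ⟨F, hF, h⟩ := hc u hu
    obtain ⟨S, h1, h2⟩ := h w hw hadj
    exact hF.2 S h1 ⟨w, h2⟩
  | succ a ih =>
    intro k
    obtain ⟨K, hK1, hK2, hK3, hK4, hK5⟩ : ∃ K, (2 ^ a + 2) * m ≤ K ∧ q ≤ K ∧ 2 * k + 1 ≤ K ∧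
        2 ^ (a + 1) ≤ K ∧ h + 1 ≤ K := by
      generalize (2 ^ a + 2) * m = x
      generalize 2 ^ (a + 1) = y
      exact ⟨x + q + 2 * k + 1 + y + h, by omega, by omega, by omega, by omega, by omega⟩
    obtain ⟨c, hc⟩ := ih (k * (K + 1))
    refine ⟨Fintype.card ((Fin k → Option (Fin m × (Fin (K * k + 1) × Fin (K * k + 1)))) × Fin c),
      fun α G V hG hq hT' hcov => ?_⟩
    have hS : ∀ u ∈ V, ∃ S : Fin k → Set α,
        (∀ j, ¬ TP G Set.univ (a + 1) (S j) ∧ S j ⊆ V ∧ S j ⊆ G.neighborSet u) ∧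
        ∀ w ∈ V, G.Adj u w → ∃ j, w ∈ S j := by
      intro u hu
      obtain ⟨F, hF, h⟩ := hcov u hu
      refine ⟨fun j => if h : j.val < F.card then
        (F.equivFin.symm ⟨j, h⟩ : Set α) ∩ V ∩ G.neighborSet u else ∅,
        fun j => ?_, fun w hw hadj => ?_⟩
      · beta_reduce
        by_cases h : j.val < F.card
        · rw [dif_pos h]
          exact ⟨fun h' => hF.2 _ (F.equivFin.symm ⟨j, h⟩).2
            (h'.mono le_rfl (Set.inter_subset_left.trans Set.inter_subset_left)),
            Set.inter_subset_left.trans Set.inter_subset_right, Set.inter_subset_right⟩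
        · rw [dif_neg h]
          exact ⟨fun h' => by simpa using h'.nonempty, by simp, by simp⟩
      · obtain ⟨S, h1, h2⟩ := h w hw hadj
        refine ⟨⟨F.equivFin ⟨S, h1⟩, lt_of_lt_of_le (Fin.is_lt _) hF.1⟩, ?_⟩
        simp only [Fin.is_lt, dif_pos, Fin.eta, Equiv.symm_apply_apply]
        exact ⟨⟨h2, hw⟩, hadj⟩
    choose! S S1 S2 using hS
    let B : Set (Set α) := {X | Big G a K X ∧ ¬ TP G Set.univ (a + 1) X ∧ X ⊆ V}
    let L : Set (Set α) := tp G a '' B
    let A : Set α → Set α → Prop := fun p z => ∃ X ∈ B, tp G a X = p ∧ ev G a X z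
    have hapx : ∀ z, Pt G L z → Apx G K z := by
      rintro z (⟨X, hX, rfl⟩ | ⟨v, rfl⟩)
      · exact hX.1.apx hX.2.1 hK4
      · exact apx_nb K v
    have hA : ∀ X ∈ B, ∀ z, Pt G L z → (A (tp G a X) z ↔ ev G a X z) := by
      intro X hX z hz
      refine ⟨?_, fun h => ⟨X, hX, rfl, h⟩⟩
      rintro ⟨X', hX', e, h'⟩
      rcases hz with ⟨X'', hX'', rfl⟩ | ⟨v, rfl⟩
      · have := ev_symm hG hK4 hK5 hX'.1 hX'.2.1 hX''.1 hX''.2.1 h'
        rw [e] at this
        exact ev_symm hG hK4 hK5 hX''.1 hX''.2.1 hX.1 hX.2.1 this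
      · have : v ∈ tp G a X' := h'
        rw [e] at this
        exact this
    have C : Ctx G L A V K (2 ^ a) := by
      refine ⟨?_, ?_, ?_, ?_⟩
      · rintro p ⟨X, hX, rfl⟩ v
        exact hA X hX _ (Or.inr ⟨v, rfl⟩)
      · rintro p ⟨X, hX, rfl⟩ p' ⟨X', hX', rfl⟩ h
        rw [hA X hX _ (Or.inl ⟨X', hX', rfl⟩)] at h
        exact ⟨X', hX', rfl, ev_symm hG hK4 hK5 hX.1 hX.2.1 hX'.1 hX'.2.1 h⟩
      · rintro p ⟨X, hX, rfl⟩ Z hZ hZ'
        obtain ⟨w, hw, h⟩ := hX.1.real hX.2.1 hK4 Z hZ (fun z hz => hapx z (hZ' z hz))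
        exact ⟨w, hX.2.2 hw, fun z hz => (h z hz).trans (hA X hX z (hZ' z hz)).symm⟩
      · rintro p ⟨X, hX, rfl⟩
        obtain ⟨Y, Y1, Y2, Y3⟩ := (hX.1.tp (by omega)).witness
        refine ⟨Y, fun y hy => hX.2.2 (Y1 hy), Y2, fun p' hp' hy h => ?_⟩
        rw [hA X hX _ (Or.inl hp')] at h
        exact not_both hX.2.1 hK4 (hapx _ (Or.inl hp')) h
          (Y3.mono le_rfl fun y h' => ⟨Y1 h', hy y h'⟩)
    have star : ∀ y ∈ V, ∀ p ∈ L, y ∈ p → ∃ j, p = tp G a (S y j) := by
      rintro y hy p ⟨X, hX, rfl⟩ hyp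
      by_contra hne
      push Not at hne
      have hv : ∀ j, ∃ v, ¬ (v ∈ tp G a X ↔ v ∈ tp G a (S y j)) := fun j => by
        by_contra h
        push Not at h
        exact hne j (Set.ext h)
      choose v hv using hv
      obtain ⟨w, w1, w3⟩ := hX.1 (insert (Wr G a X (G.neighborSet y))
          (univ.image (fun j => Wr G a X (G.neighborSet (v j))) ∪
            univ.image (fun j => Wr G a (S y j) (G.neighborSet (v j)))))
        ⟨(card_insert_le _ _).trans (by
            have h1 := card_union_le (univ.image (fun j => Wr G a X (G.neighborSet (v j))))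
              (univ.image (fun j => Wr G a (S y j) (G.neighborSet (v j))))
            have h2 := card_image_le (s := univ) (f := fun j => Wr G a X (G.neighborSet (v j)))
            have h3 := card_image_le (s := univ)
              (f := fun j => Wr G a (S y j) (G.neighborSet (v j)))
            simp only [card_univ, Fintype.card_fin] at h2 h3
            omega), by
          intro S' hS'
          simp only [mem_insert, mem_union, mem_image] at hS'
          rcases hS' with rfl | ⟨j, -, rfl⟩ | ⟨j, -, rfl⟩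
          · exact wr_small hX.2.1 hK4 (apx_nb K _)
          · exact wr_small hX.2.1 hK4 (apx_nb K _)
          · exact wr_small (S1 y hy j).1 hK4 (apx_nb K _)⟩
      have hadj : G.Adj y w := by
        by_contra h
        exact w3 _ (mem_insert_self _ _) ⟨w1, fun h' => h (h'.2 hyp)⟩
      obtain ⟨j, hj⟩ := S2 y hy w (hX.2.2 w1) hadj
      have e1 : w ∈ G.neighborSet (v j) ↔ ev G a X (G.neighborSet (v j)) := by
        by_contra h
        exact w3 _ (mem_insert_of_mem (mem_union_left _ (mem_image_of_mem _ (mem_univ j)))) ⟨w1, h⟩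
      have e2 : w ∈ G.neighborSet (v j) ↔ ev G a (S y j) (G.neighborSet (v j)) := by
        by_contra h
        exact w3 _ (mem_insert_of_mem (mem_union_right _ (mem_image_of_mem _ (mem_univ j)))) ⟨hj, h⟩
      exact hv j (e1.symm.trans e2)
    choose! l Z Y l0 l1 l1' l2 l3 l4 l5 using levels (G := G) (L := L) (A := A) (V := V) (K := K) m
    have hB : ∀ u ∈ V, ∀ j, Big G a K (S u j) → S u j ∈ B :=
      fun u hu j h => ⟨h, (S1 u hu j).1, (S1 u hu j).2.1⟩
    have hL : ∀ u ∈ V, ∀ j, Big G a K (S u j) → tp G a (S u j) ∈ L :=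
      fun u hu j h => ⟨_, hB u hu j h, rfl⟩
    have hself : ∀ u ∈ V, ∀ j, Big G a K (S u j) → u ∈ tp G a (S u j) := fun u hu j h =>
      (h.tp (by omega)).mono le_rfl fun x hx => ⟨hx, (S1 u hu j).2.2 hx⟩
    have ng : ∀ u ∈ V, ∀ j, Big G a K (S u j) → ¬ Good G L A V K m (tp G a (S u j)) :=
      fun u hu j hb h => hT' (embed C hq hT hK1 hK2 u hu _ h (hself u hu j hb))
    let M := V.biUnion fun u => (univ.filter fun j => Big G a K (S u j)).image
      fun j => tp G a (S u j)
    have hM : ∀ u ∈ V, ∀ j, Big G a K (S u j) → tp G a (S u j) ∈ M := fun u hu j h =>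
      mem_biUnion.2 ⟨u, hu, mem_image_of_mem _ (mem_filter.2 ⟨mem_univ _, h⟩)⟩
    obtain ⟨ψ, hψ⟩ := digraph_col (K * k)
      (fun p => if p ∈ M then (Y p).biUnion fun y => univ.image (fun j => tp G a (S y j)) else ∅)
      (fun p => by
        split_ifs with hU
        · obtain ⟨u, hu, h⟩ := mem_biUnion.mp hU
          obtain ⟨j, hj, rfl⟩ := mem_image.mp h
          have hb := (mem_filter.1 hj).2
          refine card_biUnion_le_card_mul _ _ k (fun y _ => card_image_le.trans (by simp)) |>.trans ?_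
          exact Nat.mul_le_mul_right _ (l3 _ (hL u hu j hb) (ng u hu j hb))
        · simp) M
    let φ : α → Fin k → Option (Fin m × (Fin (K * k + 1) × Fin (K * k + 1))) :=
      fun u j => if h : u ∈ V ∧ Big G a K (S u j) then
        some (⟨l (tp G a (S u j)), l0 _ (hL u h.1 j h.2) (ng u h.1 j h.2)⟩, ψ (tp G a (S u j)))
        else none
    have hnb : ∀ X : Set α, ∃ F, ¬ Big G a K X → Small G a K F ∧ ∀ w ∈ X, ∃ S' ∈ F, w ∈ S' := by
      intro X
      by_cases hb : Big G a K X
      · exact ⟨∅, fun h => absurd hb h⟩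
      · have hb' := hb
        unfold Big at hb'
        push Not at hb'
        obtain ⟨F, h1, h2⟩ := hb'
        exact ⟨F, fun _ => ⟨h1, h2⟩⟩
    choose F0 hF0 using hnb
    have sub : ∀ t, ∃ col : α → Fin c, ∀ u ∈ V.filter (φ · = t), ∀ w ∈ V.filter (φ · = t),
        G.Adj u w → col u ≠ col w := by
      intro t
      refine hc α G _ hG hq hT' fun u hu => ?_
      obtain ⟨hu, hut⟩ := mem_filter.mp hu
      refine ⟨univ.biUnion fun j => if Big G a K (S u j) then
        (insert (tp G a (S u j)) (Z (tp G a (S u j)))).image (Wr G a (S u j)) else F0 (S u j),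
        ⟨?_, ?_⟩, fun w hw hadj => ?_⟩
      · refine card_biUnion_le_card_mul _ _ (K + 1) (fun j _ => ?_) |>.trans (by simp)
        split_ifs with hb
        · exact card_image_le.trans ((card_insert_le _ _).trans
            (Nat.add_le_add_right (l1 _ (hL u hu j hb) (ng u hu j hb)) 1))
        · exact (hF0 _ hb).1.1.trans (by omega)
      · intro S' hS'
        obtain ⟨j, -, h⟩ := mem_biUnion.mp hS'
        split_ifs at h with hb
        · obtain ⟨z, hz, rfl⟩ := mem_image.1 h
          refine wr_small (S1 u hu j).1 hK4 (hapx z ?_)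
          rcases mem_insert.1 hz with rfl | hz
          · exact Or.inl (hL u hu j hb)
          · exact l1' _ (hL u hu j hb) (ng u hu j hb) z hz
        · exact (hF0 _ hb).1.2 _ h
      · obtain ⟨hw, hwt⟩ := mem_filter.mp hw
        obtain ⟨j, hj⟩ := S2 u hu w hw hadj
        by_cases hb : Big G a K (S u j)
        swap
        · obtain ⟨S', h1, h2⟩ := (hF0 _ hb).2 w hj
          exact ⟨S', mem_biUnion.2 ⟨j, mem_univ _, by rw [if_neg hb]; exact h1⟩, h2⟩
        by_contra hcon
        have hr : ∀ z ∈ insert (tp G a (S u j)) (Z (tp G a (S u j))),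
            (w ∈ z ↔ ev G a (S u j) z) := by
          intro z hz
          by_contra h
          exact hcon ⟨Wr G a (S u j) z, mem_biUnion.2 ⟨j, mem_univ _, by
            rw [if_pos hb]; exact mem_image_of_mem _ hz⟩, hj, h⟩
        have e := congrFun (hut.trans hwt.symm) j
        simp only [φ] at e
        rw [dif_pos (And.intro hu hb)] at e
        have hb' : Big G a K (S w j) := by
          by_contra h
          rw [dif_neg (fun h' : w ∈ V ∧ Big G a K (S w j) => h h'.2)] at e
          exact absurd e (by simp)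
        rw [dif_pos (And.intro hw hb')] at e
        simp only [Option.some.injEq, Prod.mk.injEq, Fin.mk.injEq] at e
        have g := l4 _ (hL w hw j hb') (ng w hw j hb')
        rw [← e.1] at g
        obtain ⟨y, y1, y2⟩ := l5 _ (hL u hu j hb) (ng u hu j hb) w hw (fun z hz =>
          (hr z (mem_insert_of_mem hz)).trans
            (hA _ (hB u hu j hb) z (l1' _ (hL u hu j hb) (ng u hu j hb) z hz)).symm) _ g
          (hself w hw j hb')
        obtain ⟨j', hj'⟩ := star y (l2 _ (hL u hu j hb) (ng u hu j hb) y1) _ (hL w hw j hb') y2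
        refine hψ _ (hM u hu j hb) _ (hM w hw j hb') ?_ (fun h => ?_) e.2
        · rw [if_pos (hM u hu j hb)]
          exact mem_biUnion.mpr ⟨y, y1, hj' ▸ mem_image_of_mem _ (mem_univ _)⟩
        · have h1 := hself w hw j hb'
          rw [h, hr _ (mem_insert_self _ _), ← hA _ (hB u hu j hb) _ (Or.inl (hL u hu j hb))] at h1
          exact not_self C hq hK2 (hL u hu j hb) h1
    choose col hcol using sub
    refine ⟨fun u => Fintype.equivFin _ (φ u, col (φ u) u), fun u hu w hw hadj e => ?_⟩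
    have e' := Prod.ext_iff.mp ((Fintype.equivFin _).injective e)
    have e1 : φ u = φ w := e'.1
    have e2 : col (φ u) u = col (φ w) w := e'.2
    rw [← e1] at e2
    exact hcol (φ u) u (mem_filter.mpr ⟨hu, rfl⟩) w (mem_filter.mpr ⟨hw, e1.symm⟩) hadj e2

end Pool.Agent.H23.Stab
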