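import Mathlib

set_option autoImplicit false
set_option maxSynthPendingDepth 3

open scoped Quaternion
open MvPolynomial

namespace Pool.Agent.H23.SubDiv

/-- functoriality of quaternion algebras -/
def qmap {A B : Type} [CommRing A] [CommRing B] (ψ : A →+* B) {a c : A} {a' c' : B}
    (ha : ψ a = a') (hc : ψ c = c') : ℍ[A, a, 0, c] →+* ℍ[B, a', 0, c'] where
  toFun q := ⟨ψ q.re, ψ q.imI, ψ q.imJ, ψ q.imK⟩
  map_one' := by ext <;> simp
  map_mul' x y := by ext <;> simp [ha, hc]
  map_zero' := by ext <;> simp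
  map_add' x y := by ext <;> simp

@[simp] lemma qmap_re {A B : Type} [CommRing A] [CommRing B] (ψ : A →+* B) {a c : A} {a' c' : B}
    (ha : ψ a = a') (hc : ψ c = c') (q : ℍ[A, a, 0, c]) : (qmap ψ ha hc q).re = ψ q.re := rfl
@[simp] lemma qmap_imI {A B : Type} [CommRing A] [CommRing B] (ψ : A →+* B) {a c : A} {a' c' : B}
    (ha : ψ a = a') (hc : ψ c = c') (q : ℍ[A, a, 0, c]) : (qmap ψ ha hc q).imI = ψ q.imI := rfl
@[simp] lemma qmap_imJ {A B : Type} [CommRing A] [CommRing B] (ψ : A →+* B) {a c : A} {a' c' : B}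
    (ha : ψ a = a') (hc : ψ c = c') (q : ℍ[A, a, 0, c]) : (qmap ψ ha hc q).imJ = ψ q.imJ := rfl
@[simp] lemma qmap_imK {A B : Type} [CommRing A] [CommRing B] (ψ : A →+* B) {a c : A} {a' c' : B}
    (ha : ψ a = a') (hc : ψ c = c') (q : ℍ[A, a, 0, c]) : (qmap ψ ha hc q).imK = ψ q.imK := rfl

/-! ### anisotropy -/

lemma parity {A : Type} [CommRing A] [IsDomain A] (x y : Polynomial A)
    (hx : x = 0 ∨ Even x.natDegree) (hy : y = 0 ∨ Even y.natDegree)
    (h : x = Polynomial.X * y) : x = 0 ∧ y = 0 := by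
  by_cases hy0 : y = 0
  · simp [h, hy0]
  · exfalso
    have hy' := hy.resolve_left hy0
    have hx0 : x ≠ 0 := by rw [h]; exact mul_ne_zero Polynomial.X_ne_zero hy0
    have hx' := hx.resolve_left hx0
    rw [h, Polynomial.natDegree_X_mul hy0] at hx'
    rcases hx' with ⟨k, hk⟩
    rcases hy' with ⟨l, hl⟩
    omega

lemma aniso1 {A : Type} [CommRing A] [IsDomain A] (a b : Polynomial A)
    (h : a ^ 2 = Polynomial.X * b ^ 2) : a = 0 ∧ b = 0 := by
  have := parity (a ^ 2) (b ^ 2) (Or.inr (by rw [Polynomial.natDegree_pow]; simp))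
    (Or.inr (by rw [Polynomial.natDegree_pow]; simp)) h
  exact ⟨pow_eq_zero_iff (two_ne_zero) |>.1 this.1, pow_eq_zero_iff (two_ne_zero) |>.1 this.2⟩

lemma even_deg {A : Type} [CommRing A] [IsDomain A] (s : A)
    (hs : ∀ a b : A, a ^ 2 = s * b ^ 2 → a = 0 ∧ b = 0) (a b : Polynomial A)
    (hab : ¬ (a = 0 ∧ b = 0)) :
    a ^ 2 - Polynomial.C s * b ^ 2 ≠ 0 ∧ Even (a ^ 2 - Polynomial.C s * b ^ 2).natDegree := by
  set n := max a.natDegree b.natDegree with hn
  have ha : a.natDegree ≤ n := le_max_left _ _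
  have hb : b.natDegree ≤ n := le_max_right _ _
  have hc : (a ^ 2 - Polynomial.C s * b ^ 2).coeff (2 * n) ≠ 0 := by
    rw [Polynomial.coeff_sub, Polynomial.coeff_C_mul, Polynomial.coeff_pow_of_natDegree_le ha,
      Polynomial.coeff_pow_of_natDegree_le hb]
    intro h0
    have := hs _ _ (sub_eq_zero.1 h0)
    apply hab
    rcases le_total a.natDegree b.natDegree with h | h
    · have hnb : n = b.natDegree := by rw [hn]; exact max_eq_right h
      have hb0 : b = 0 := by
        have h2 := this.2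
        rw [hnb] at h2
        exact Polynomial.leadingCoeff_eq_zero.1 h2
      have hn0 : n = 0 := by rw [hnb, hb0]; simp
      refine ⟨?_, hb0⟩
      have h1 := this.1
      have : a.natDegree = n := by omega
      rw [← this] at h1
      exact Polynomial.leadingCoeff_eq_zero.1 h1
    · have hna : n = a.natDegree := by rw [hn]; exact max_eq_left h
      have ha0 : a = 0 := by
        have h2 := this.1
        rw [hna] at h2
        exact Polynomial.leadingCoeff_eq_zero.1 h2
      have hn0 : n = 0 := by rw [hna, ha0]; simp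
      refine ⟨ha0, ?_⟩
      have h1 := this.2
      have : b.natDegree = n := by omega
      rw [← this] at h1
      exact Polynomial.leadingCoeff_eq_zero.1 h1
  have hle : (a ^ 2 - Polynomial.C s * b ^ 2).natDegree ≤ 2 * n := by
    refine (Polynomial.natDegree_sub_le _ _).trans (max_le ?_ ?_)
    · exact Polynomial.natDegree_pow_le_of_le 2 ha
    · exact (Polynomial.natDegree_C_mul_le _ _).trans (Polynomial.natDegree_pow_le_of_le 2 hb)
  refine ⟨fun h => hc (by rw [h]; simp), ?_⟩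
  rw [le_antisymm hle (Polynomial.le_natDegree_of_ne_zero hc)]
  simp

lemma aniso2 {A : Type} [CommRing A] [IsDomain A] (s : A)
    (hs : ∀ a b : A, a ^ 2 = s * b ^ 2 → a = 0 ∧ b = 0) (a b c d : Polynomial A)
    (h : a ^ 2 - Polynomial.C s * b ^ 2 = Polynomial.X * (c ^ 2 - Polynomial.C s * d ^ 2)) :
    (a = 0 ∧ b = 0) ∧ (c = 0 ∧ d = 0) := by
  have key : ∀ a b : Polynomial A, a ^ 2 - Polynomial.C s * b ^ 2 = 0 ∨
      Even (a ^ 2 - Polynomial.C s * b ^ 2).natDegree := by
    intro a b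
    by_cases hab : a = 0 ∧ b = 0
    · left; simp [hab.1, hab.2]
    · exact Or.inr (even_deg s hs a b hab).2
  have := parity _ _ (key a b) (key c d) h
  constructor
  · by_contra hab; exact (even_deg s hs a b hab).1 this.1
  · by_contra hab; exact (even_deg s hs c d hab).1 this.2

abbrev B : Type := Option (Option ℕ)
abbrev P : Type := MvPolynomial B ℂ
abbrev F : Type := FractionRing P

lemma anisoP (a b c d : P)
    (h : a ^ 2 - X (some none) * b ^ 2 = X none * (c ^ 2 - X (some none) * d ^ 2)) :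
    (a = 0 ∧ b = 0) ∧ (c = 0 ∧ d = 0) := by
  let e := optionEquivLeft ℂ (Option ℕ)
  let e' := optionEquivLeft ℂ ℕ
  have hs : ∀ a b : MvPolynomial (Option ℕ) ℂ, a ^ 2 = X none * b ^ 2 → a = 0 ∧ b = 0 := by
    intro a b hab
    have := congrArg e' hab
    simp only [map_pow, map_mul, e', optionEquivLeft_X_none] at this
    have := aniso1 _ _ this
    exact ⟨e'.injective (by simpa using this.1), e'.injective (by simpa using this.2)⟩
  have h2 := congrArg e h
  simp only [map_pow, map_mul, map_sub, e, optionEquivLeft_X_none, optionEquivLeft_X_some] at h2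
  have := aniso2 _ hs _ _ _ _ h2
  exact ⟨⟨e.injective (by simpa using this.1.1), e.injective (by simpa using this.1.2)⟩,
    ⟨e.injective (by simpa using this.2.1), e.injective (by simpa using this.2.2)⟩⟩

noncomputable abbrev sF : F := algebraMap P F (X (some none))
noncomputable abbrev tF : F := algebraMap P F (X none)

lemma anisoF (a b c d : F) (h : a ^ 2 - sF * b ^ 2 = tF * (c ^ 2 - sF * d ^ 2)) :
    (a = 0 ∧ b = 0) ∧ (c = 0 ∧ d = 0) := by
  classical
  obtain ⟨⟨m, hm⟩, hint⟩ := IsLocalization.exist_integer_multiples_of_finset (nonZeroDivisors P)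
    ({a, b, c, d} : Finset F)
  obtain ⟨a', ha'⟩ := hint a (by simp)
  obtain ⟨b', hb'⟩ := hint b (by simp)
  obtain ⟨c', hc'⟩ := hint c (by simp)
  obtain ⟨d', hd'⟩ := hint d (by simp)
  simp only [Algebra.smul_def] at ha' hb' hc' hd'
  have hm0 : algebraMap P F m ≠ 0 :=
    (map_ne_zero_iff _ (IsFractionRing.injective P F)).2 (nonZeroDivisors.ne_zero hm)
  have := anisoP a' b' c' d' (IsFractionRing.injective P F (by
    simp only [map_pow, map_mul, map_sub, ha', hb', hc', hd']
    linear_combination (algebraMap P F m) ^ 2 * h))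
  obtain ⟨⟨h1, h2⟩, h3, h4⟩ := this
  rw [h1, map_zero] at ha'
  rw [h2, map_zero] at hb'
  rw [h3, map_zero] at hc'
  rw [h4, map_zero] at hd'
  exact ⟨⟨(mul_eq_zero.1 ha'.symm).resolve_left hm0, (mul_eq_zero.1 hb'.symm).resolve_left hm0⟩,
    (mul_eq_zero.1 hc'.symm).resolve_left hm0, (mul_eq_zero.1 hd'.symm).resolve_left hm0⟩

abbrev D : Type := ℍ[F, sF, 0, tF]

lemma D_unit (q : D) : IsUnit q ∨ q = 0 := by
  by_cases hq : q = 0
  · exact Or.inr hq
  left
  set N : F := q.re ^ 2 - sF * q.imI ^ 2 - tF * (q.imJ ^ 2 - sF * q.imK ^ 2) with hN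
  have hN0 : N ≠ 0 := by
    intro h0
    obtain ⟨⟨h1, h2⟩, h3, h4⟩ := anisoF _ _ _ _ (sub_eq_zero.1 h0)
    exact hq (by ext <;> simp [h1, h2, h3, h4])
  let r : D := ⟨q.re / N, -q.imI / N, -q.imJ / N, -q.imK / N⟩
  refine ⟨⟨q, r, ?_, ?_⟩, rfl⟩
  · ext <;> simp [r] <;> field_simp <;> first | (rw [hN]; ring) | ring
  · ext <;> simp [r] <;> field_simp <;> first | (rw [hN]; ring) | ring

noncomputable abbrev Ddiv : DivisionRing D := DivisionRing.ofIsUnitOrEqZero D_unit

abbrev I : Type := B ⊕ F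
abbrev P1 : Type := MvPolynomial I ℂ
abbrev R0 : Type := ℍ[P, X (some none), 0, X none]
abbrev R1 : Type := ℍ[P1, X (Sum.inl (some none)), 0, X (Sum.inl none)]

lemma perm_lemma (U : Finset I) : ∃ σ : Equiv.Perm I,
    (∀ b, Sum.inl b ∈ U → σ (Sum.inl b) = Sum.inl b) ∧ ∀ u ∈ U, ∃ b, σ u = Sum.inl b := by
  classical
  have hinf : ({b : B | Sum.inl b ∉ U}).Infinite := by
    have : ({b : B | Sum.inl b ∈ U}).Finite :=
      Set.Finite.preimage (f := (Sum.inl : B → I)) Sum.inl_injective.injOn U.finite_toSet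
    have h2 := this.infinite_compl
    exact h2
  obtain ⟨e, he⟩ := exists_injective_nat U
  let h : U → B := fun u => hinf.natEmbedding _ (e u)
  have hh : Function.Injective h := fun u v huv =>
    he ((hinf.natEmbedding _).injective (Subtype.ext huv))
  have hU : ∀ u, Sum.inl (h u) ∉ U := fun u => (hinf.natEmbedding _ (e u)).2
  let g : U → I := fun u => match u with
    | ⟨Sum.inl b, _⟩ => Sum.inl b
    | ⟨Sum.inr y, hy⟩ => Sum.inl (h ⟨Sum.inr y, hy⟩)
  have hg : Function.Injective g := by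
    rintro ⟨u | u, hu⟩ ⟨v | v, hv⟩ huv
    · simp only [g] at huv; exact Subtype.ext huv
    · simp only [g] at huv; exact absurd (huv ▸ hu) (hU _)
    · simp only [g] at huv; exact absurd (huv ▸ hv) (hU _)
    · simp only [g] at huv; exact hh (Sum.inl_injective huv)
  obtain ⟨σ, hσ⟩ := Equiv.Perm.exists_extending_pair (fun u : U => (u : I)) g
    Subtype.val_injective hg
  refine ⟨σ, fun b hb => hσ ⟨_, hb⟩, ?_⟩
  rintro (u | u) hu
  · exact ⟨u, hσ ⟨_, hu⟩⟩
  · exact ⟨_, hσ ⟨_, hu⟩⟩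

lemma rename_fix (σ : Equiv.Perm I) (p : P)
    (h : ∀ b ∈ p.vars, σ (Sum.inl b) = Sum.inl b) :
    rename σ (rename Sum.inl p : P1) = rename Sum.inl p := by
  rw [rename_rename]
  exact hom_congr_vars (f₁ := (rename (σ ∘ Sum.inl) : P →ₐ[ℂ] P1).toRingHom)
    (f₂ := (rename Sum.inl : P →ₐ[ℂ] P1).toRingHom) (by ext; simp)
    (fun i hi _ => by simp [h i hi]) rfl

lemma rename_into (σ : Equiv.Perm I) (p : P1)
    (h : ∀ u ∈ p.vars, ∃ b, σ u = Sum.inl b) : ∃ q : P, rename Sum.inl q = rename σ p := by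
  classical
  apply exists_rename_eq_of_vars_subset_range _ _ Sum.inl_injective
  intro u hu
  have := vars_rename σ p hu
  obtain ⟨v, hv, rfl⟩ := Finset.mem_image.1 this
  obtain ⟨b, hb⟩ := h v hv
  exact ⟨b, hb.symm⟩

noncomputable def psi0 : P1 →ₐ[ℂ] F := aeval (Sum.elim (fun b => algebraMap P F (X b)) id)

lemma psi0_rename (q : P) : psi0 (rename Sum.inl q) = algebraMap P F q := by
  have : psi0.comp (rename Sum.inl) = IsScalarTower.toAlgHom ℂ P F := by
    ext b; simp [psi0]
  exact DFunLike.congr_fun this q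

lemma sep (p : P1) (hp : p ≠ 0) : ∃ ψ : P1 →+* F, ψ (X (Sum.inl (some none))) = sF ∧
    ψ (X (Sum.inl none)) = tF ∧ Function.Surjective ψ ∧ ψ p ≠ 0 := by
  classical
  obtain ⟨σ, h1, h2⟩ := perm_lemma (insert (Sum.inl (some none)) (insert (Sum.inl none) p.vars))
  obtain ⟨q, hq⟩ := rename_into σ p (fun u hu => h2 u (by simp [hu]))
  refine ⟨(psi0.comp (rename σ)).toRingHom, ?_, ?_, ?_, ?_⟩
  · simp [h1 (some none) (by simp), psi0]
  · simp [h1 none (by simp), psi0]
  · intro y
    exact ⟨X (σ.symm (Sum.inr y)), by simp [psi0]⟩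
  · have : psi0 (rename σ p) ≠ 0 := by
      rw [← hq, psi0_rename]
      refine (map_ne_zero_iff _ (IsFractionRing.injective P F)).2 ?_
      rintro rfl
      rw [map_zero] at hq
      exact hp (rename_injective σ σ.injective (by rw [← hq, map_zero]))
    exact this

lemma sepR (f : R1) (hf : f ≠ 0) : ∃ φ : R1 →+* D, Function.Surjective φ ∧ φ f ≠ 0 := by
  have key : ∀ p : P1, p ≠ 0 → ∃ φ : R1 →+* D, ∃ ψ : P1 →+* F, Function.Surjective φ ∧ ψ p ≠ 0 ∧
      ∀ q, (φ q).re = ψ q.re ∧ (φ q).imI = ψ q.imI ∧ (φ q).imJ = ψ q.imJ ∧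
        (φ q).imK = ψ q.imK := by
    intro p hp
    obtain ⟨ψ, h1, h2, h3, h4⟩ := sep p hp
    refine ⟨qmap ψ h1 h2, ψ, ?_, h4, fun q => ⟨rfl, rfl, rfl, rfl⟩⟩
    intro y
    obtain ⟨a, ha⟩ := h3 y.re
    obtain ⟨b, hb⟩ := h3 y.imI
    obtain ⟨c, hc⟩ := h3 y.imJ
    obtain ⟨d, hd⟩ := h3 y.imK
    exact ⟨⟨a, b, c, d⟩, by ext <;> simp [ha, hb, hc, hd]⟩
  by_cases h1 : f.re = 0
  · by_cases h2 : f.imI = 0
    · by_cases h3 : f.imJ = 0
      · by_cases h4 : f.imK = 0
        · exact absurd (by ext <;> simp [h1, h2, h3, h4]) hf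
        · obtain ⟨φ, ψ, hs, hp, hq⟩ := key _ h4
          exact ⟨φ, hs, fun h => hp (by rw [← (hq f).2.2.2, h]; rfl)⟩
      · obtain ⟨φ, ψ, hs, hp, hq⟩ := key _ h3
        exact ⟨φ, hs, fun h => hp (by rw [← (hq f).2.2.1, h]; rfl)⟩
    · obtain ⟨φ, ψ, hs, hp, hq⟩ := key _ h2
      exact ⟨φ, hs, fun h => hp (by rw [← (hq f).2.1, h]; rfl)⟩
  · obtain ⟨φ, ψ, hs, hp, hq⟩ := key _ h1
    exact ⟨φ, hs, fun h => hp (by rw [← (hq f).1, h]; rfl)⟩

lemma rank_R0 : Module.rank ℂ R0 ≤ Cardinal.aleph0 := by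
  rw [← rank_mul_rank ℂ P R0, QuaternionAlgebra.rank_eq_four, MvPolynomial.rank_eq]
  have h1 : Cardinal.mk (B →₀ ℕ) ≤ Cardinal.aleph0 := Cardinal.mk_le_aleph0
  have h2 : (4 : Cardinal) ≤ Cardinal.aleph0 := (Cardinal.nat_lt_aleph0 4).le
  calc _ ≤ Cardinal.aleph0 * Cardinal.aleph0 := mul_le_mul' h1 h2
    _ = _ := Cardinal.aleph0_mul_aleph0

/-- every division-ring quotient of `R0` kills `k = i j` -/
lemma kill {E : Type} [DivisionRing E] (φ : R0 →+* E) (hφ : Function.Surjective φ) :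
    φ ⟨0, 0, 0, 1⟩ = 0 := by
  have hcen : ∀ p : P, φ (algebraMap P R0 p) ∈ Subring.center E := by
    intro p
    rw [Subring.mem_center_iff]
    intro g
    obtain ⟨r, rfl⟩ := hφ g
    rw [← map_mul, ← map_mul, Algebra.commutes]
  let θ : P →+* Subring.center E := (φ.comp (algebraMap P R0)).codRestrict _ hcen
  let c : ℂ →+* Subring.center E := θ.comp (algebraMap ℂ P)
  letI : Algebra ℂ (Subring.center E) := c.toAlgebra
  have hsm : ∀ (a : ℂ) (r : R0), φ (a • r) = (c a : E) * φ r := by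
    intro a r
    rw [Algebra.smul_def, map_mul, IsScalarTower.algebraMap_apply ℂ P R0]
    rfl
  have halg : IsAlgebraic ℂ (θ (X (some none))) := by
    by_contra htr
    have hv := Transcendental.linearIndependent_sub_inv htr
    choose r hr using fun a : ℂ =>
      hφ (((θ (X (some none)) - algebraMap ℂ (Subring.center E) a)⁻¹ : Subring.center E) : E)
    have hli : LinearIndependent ℂ r := by
      rw [linearIndependent_iff']
      intro s g hg i hi
      refine (linearIndependent_iff'.1 hv) s g ?_ i hi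
      apply Subtype.ext
      have := congrArg φ hg
      rw [map_sum, map_zero] at this
      rw [AddSubmonoidClass.coe_finset_sum]
      refine Eq.trans (Finset.sum_congr rfl fun j _ => ?_) this
      rw [hsm, hr, Algebra.smul_def]
      rfl
    have h1 := hli.cardinal_le_rank.trans rank_R0
    rw [Cardinal.mk_complex] at h1
    exact absurd h1 (not_le.2 Cardinal.aleph0_lt_continuum)
  obtain ⟨α, hα⟩ : ∃ α : ℂ, algebraMap ℂ (Subring.center E) α = θ (X (some none)) := by
    have := minpoly.mem_range_of_degree_eq_one ℂ (θ (X (some none)))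
      (IsAlgClosed.degree_eq_one_of_irreducible ℂ (minpoly.irreducible halg.isIntegral))
    exact this
  obtain ⟨β, hβ⟩ := IsAlgClosed.exists_pow_nat_eq α (n := 2) two_pos
  set i : R0 := ⟨0, 1, 0, 0⟩ with hi
  set j : R0 := ⟨0, 0, 1, 0⟩ with hj
  have hii : i * i = algebraMap P R0 (X (some none)) := by
    ext <;> simp [hi, QuaternionAlgebra.algebraMap_eq]
  have hb : (c β : E) * c β = φ i * φ i := by
    rw [← map_mul, hii]
    have : c β * c β = θ (X (some none)) := by
      rw [← map_mul, ← sq, hβ, ← hα]; rfl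
    exact congrArg Subtype.val this
  have hcomm : ∀ g : E, g * c β = c β * g := Subring.mem_center_iff.1 (c β).2
  have hfac : (φ i - c β) * (φ i + c β) = 0 := by
    rw [sub_mul, mul_add, mul_add, hb, hcomm (φ i)]; abel
  have hij : φ i * φ j = φ j * φ i := by
    rcases mul_eq_zero.1 hfac with h | h
    · rw [sub_eq_zero.1 h, hcomm]
    · rw [eq_neg_of_add_eq_zero_left h, neg_mul, mul_neg, hcomm]
  have h1 : i * j = ⟨0, 0, 0, 1⟩ := by ext <;> simp [hi, hj]
  have h2 : j * i = -⟨0, 0, 0, 1⟩ := by ext <;> simp [hi, hj]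
  rw [← map_mul, ← map_mul, h1, h2, map_neg] at hij
  have h3 : (c 2 : E) * φ ⟨0, 0, 0, 1⟩ = 0 := by
    have : (c 2 : E) = 2 := by
      rw [show (2 : ℂ) = 1 + 1 by norm_num, map_add, map_one]
      push_cast; norm_num
    rw [this, two_mul]
    exact add_eq_zero_iff_eq_neg.2 hij
  refine (mul_eq_zero.1 h3).resolve_left ?_
  intro h0
  have : c 2 = 0 := Subtype.ext h0
  exact two_ne_zero ((map_eq_zero_iff c c.injective).1 this)

noncomputable def emb : R0 →+* R1 :=
  qmap (rename Sum.inl : P →ₐ[ℂ] P1).toRingHom (by simp) (by simp)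

lemma emb_inj : Function.Injective emb := by
  intro x y h
  have hi := rename_injective (R := ℂ) (Sum.inl : B → I) Sum.inl_injective
  ext1
  · exact hi (congrArg QuaternionAlgebra.re h)
  · exact hi (congrArg QuaternionAlgebra.imI h)
  · exact hi (congrArg QuaternionAlgebra.imJ h)
  · exact hi (congrArg QuaternionAlgebra.imK h)

noncomputable def qvars {J : Type} [DecidableEq J] {a c : MvPolynomial J ℂ}
    (q : ℍ[MvPolynomial J ℂ, a, 0, c]) : Finset J :=
  q.re.vars ∪ q.imI.vars ∪ q.imJ.vars ∪ q.imK.vars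

lemma homog {n : ℕ} (x : Fin n → R0) (a : R1) :
    ∃ g : R1 ≃+* R1, (∀ i, g (emb (x i)) = emb (x i)) ∧ ∃ b, g a = emb b := by
  classical
  let U : Finset I := insert (Sum.inl (some none)) (insert (Sum.inl none)
    (qvars a ∪ (Finset.univ.biUnion fun i => qvars (x i)).image Sum.inl))
  obtain ⟨σ, h1, h2⟩ := perm_lemma U
  have hs := h1 (some none) (by simp [U])
  have ht := h1 none (by simp [U])
  have hs' : σ.symm (Sum.inl (some none)) = Sum.inl (some none) := by
    rw [Equiv.symm_apply_eq, hs]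
  have ht' : σ.symm (Sum.inl none) = Sum.inl none := by
    rw [Equiv.symm_apply_eq, ht]
  let g1 : R1 →+* R1 := qmap (rename σ : P1 →ₐ[ℂ] P1).toRingHom (by simp [hs]) (by simp [ht])
  let g2 : R1 →+* R1 := qmap (rename σ.symm : P1 →ₐ[ℂ] P1).toRingHom (by simp [hs'])
    (by simp [ht'])
  let g : R1 ≃+* R1 := RingEquiv.ofRingHom g1 g2
    (by refine RingHom.ext fun q => ?_; ext1 <;> simp [g1, g2, rename_rename])
    (by refine RingHom.ext fun q => ?_; ext1 <;> simp [g1, g2, rename_rename])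
  refine ⟨g, fun i => ?_, ?_⟩
  · have hx : ∀ b ∈ qvars (x i), σ (Sum.inl b) = Sum.inl b := fun b hb => h1 b (by
      simp only [U, Finset.mem_insert, Finset.mem_union, Finset.mem_image, Finset.mem_biUnion]
      exact Or.inr (Or.inr (Or.inr ⟨b, ⟨i, Finset.mem_univ _, hb⟩, rfl⟩)))
    ext1
    · exact rename_fix σ _ fun b hb => hx b (by simp [qvars, hb])
    · exact rename_fix σ _ fun b hb => hx b (by simp [qvars, hb])
    · exact rename_fix σ _ fun b hb => hx b (by simp [qvars, hb])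
    · exact rename_fix σ _ fun b hb => hx b (by simp [qvars, hb])
  · have ha : ∀ u ∈ qvars a, ∃ b, σ u = Sum.inl b := fun u hu => h2 u (by simp [U, hu])
    obtain ⟨q1, e1⟩ := rename_into σ a.re fun u hu => ha u (by simp [qvars, hu])
    obtain ⟨q2, e2⟩ := rename_into σ a.imI fun u hu => ha u (by simp [qvars, hu])
    obtain ⟨q3, e3⟩ := rename_into σ a.imJ fun u hu => ha u (by simp [qvars, hu])
    obtain ⟨q4, e4⟩ := rename_into σ a.imK fun u hu => ha u (by simp [qvars, hu])
    refine ⟨⟨q1, q2, q3, q4⟩, ?_⟩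
    ext1
    · exact e1.symm
    · exact e2.symm
    · exact e3.symm
    · exact e4.symm

end Pool.Agent.H23.SubDiv
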