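import Mathlib

set_option autoImplicit false
set_option maxSynthPendingDepth 3

namespace Pool.Agent.H23.Theta
open Finset

/-- positive semidefinite real kernels on a finite type -/
def Psd {V : Type} [Fintype V] (M : V → V → ℝ) : Prop :=
  (∀ i j, M i j = M j i) ∧ ∀ x : V → ℝ, 0 ≤ ∑ i, ∑ j, M i j * x i * x j

lemma psd_iff {V : Type} [Fintype V] (M : V → V → ℝ) :
    Psd M ↔ (Matrix.of M).PosSemidef := by
  rw [Matrix.posSemidef_iff_dotProduct_mulVec]
  have h : ∀ x : V → ℝ, star x ⬝ᵥ ((Matrix.of M).mulVec x) = ∑ i, ∑ j, M i j * x i * x j := by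
    intro x
    simp only [dotProduct, Matrix.mulVec, Matrix.of_apply, star_trivial, mul_sum]
    exact sum_congr rfl fun i _ => sum_congr rfl fun j _ => by ring
  constructor
  · rintro ⟨h1, h2⟩
    refine ⟨?_, fun x => by rw [h]; exact h2 x⟩
    ext i j
    simp [Matrix.conjTranspose_apply, h1 j i]
  · rintro ⟨h1, h2⟩
    refine ⟨fun i j => ?_, fun x => by rw [← h]; exact h2 x⟩
    have := congrFun (congrFun h1 i) j
    simpa [Matrix.conjTranspose_apply] using this.symm

lemma Psd.mul {V : Type} [Fintype V] {M N : V → V → ℝ} (hM : Psd M) (hN : Psd N) :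
    Psd (fun i j => M i j * N i j) := by
  rw [psd_iff] at *
  exact hM.hadamard hN

lemma Psd.comp {V W : Type} [Fintype V] [Fintype W] {M : V → V → ℝ} (hM : Psd M) (e : W → V) :
    Psd (fun i j => M (e i) (e j)) := by
  rw [psd_iff] at *
  exact hM.submatrix e

lemma Psd.add {V : Type} [Fintype V] {M N : V → V → ℝ} (hM : Psd M) (hN : Psd N) :
    Psd (fun i j => M i j + N i j) := by
  rw [psd_iff] at *
  exact hM.add hN

lemma Psd.smul {V : Type} [Fintype V] {M : V → V → ℝ} (hM : Psd M) {a : ℝ} (ha : 0 ≤ a) :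
    Psd (fun i j => a * M i j) := by
  rw [psd_iff] at *
  exact hM.smul ha

lemma Psd.congr {V : Type} [Fintype V] {M N : V → V → ℝ} (hM : Psd M)
    (h : ∀ i j, N i j = M i j) : Psd N := by
  have : N = M := by funext i j; exact h i j
  rw [this]; exact hM

lemma psd_rank_one {V : Type} [Fintype V] (u : V → ℝ) : Psd (fun i j => u i * u j) := by
  refine ⟨fun i j => mul_comm _ _, fun x => ?_⟩
  have : ∑ i, ∑ j, u i * u j * x i * x j = (∑ i, u i * x i) ^ 2 := by
    rw [sq, sum_mul_sum]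
    exact sum_congr rfl fun i _ => sum_congr rfl fun j _ => by ring
  rw [this]; positivity

lemma Psd.one {V : Type} [Fintype V] {M : V → V → ℝ} (hM : Psd M) : 0 ≤ ∑ i, ∑ j, M i j := by
  simpa using hM.2 (fun _ => 1)

/-- a spectral certificate that a graph has no good vector colouring -/
def Cert {V : Type} [Fintype V] (τ : ℝ) (R : V → V → Prop) : Prop :=
  ∃ A D : V → V → ℝ, (∀ i j, ¬ R i j → A i j = 0) ∧ (∀ i j, i ≠ j → D i j = 0) ∧
    (∀ i j, 0 ≤ D i j) ∧ Psd (fun i j => D i j - A i j) ∧ Psd (fun i j => A i j + τ * D i j) ∧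
    ∑ i, ∑ j, A i j = ∑ i, ∑ j, D i j ∧ 0 < ∑ i, ∑ j, D i j

lemma Cert.prod {V W : Type} [Fintype V] [Fintype W] {τ : ℝ} (h0 : 0 ≤ τ) (h1 : τ ≤ 1)
    {R : V → V → Prop} {S : W → W → Prop} (hR : Cert τ R) (hS : Cert τ S) :
    Cert τ (fun a b : V × W => R a.1 b.1 ∧ S a.2 b.2) := by
  obtain ⟨A, D, a1, a2, a3, a4, a5, a6, a7⟩ := hR
  obtain ⟨B, E, b1, b2, b3, b4, b5, b6, b7⟩ := hS
  have hsum : ∀ (X : V → V → ℝ) (Y : W → W → ℝ),
      ∑ a : V × W, ∑ b : V × W, X a.1 b.1 * Y a.2 b.2 = (∑ i, ∑ j, X i j) * ∑ i, ∑ j, Y i j := by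
    intro X Y
    rw [sum_mul_sum, Fintype.sum_prod_type]
    refine sum_congr rfl fun i _ => sum_congr rfl fun k _ => ?_
    rw [sum_mul_sum, Fintype.sum_prod_type]
  have p1 := (a4.comp (Prod.fst : V × W → V)).mul (b4.comp (Prod.snd : V × W → W))
  have p2 := (a4.comp (Prod.fst : V × W → V)).mul (b5.comp (Prod.snd : V × W → W))
  have p3 := (a5.comp (Prod.fst : V × W → V)).mul (b4.comp (Prod.snd : V × W → W))
  have p4 := (a5.comp (Prod.fst : V × W → V)).mul (b5.comp (Prod.snd : V × W → W))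
  have hτ : (0 : ℝ) < 1 + τ := by linarith
  have hi : (0 : ℝ) ≤ 1 / (1 + τ) := by positivity
  refine ⟨fun a b => A a.1 b.1 * B a.2 b.2, fun a b => D a.1 b.1 * E a.2 b.2, ?_, ?_, ?_, ?_, ?_,
    ?_, ?_⟩
  · intro a b h
    show A a.1 b.1 * B a.2 b.2 = 0
    by_cases h' : R a.1 b.1
    · rw [b1 a.2 b.2 (fun h'' => h ⟨h', h''⟩), mul_zero]
    · rw [a1 _ _ h', zero_mul]
  · intro a b h
    show D a.1 b.1 * E a.2 b.2 = 0
    by_cases h' : a.1 = b.1
    · rw [b2 a.2 b.2 (fun h'' => h (Prod.ext h' h'')), mul_zero]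
    · rw [a2 _ _ h', zero_mul]
  · intro a b
    exact mul_nonneg (a3 _ _) (b3 _ _)
  · refine ((((p1.smul (sub_nonneg.mpr h1)).add p2).add p3).smul hi).congr fun a b => ?_
    field_simp
    ring
  · refine ((p4.add (p1.smul h0)).smul hi).congr fun a b => ?_
    field_simp
    ring
  · rw [hsum, hsum, a6, b6]
  · rw [hsum]; positivity

lemma Cert.not_vc {V : Type} [Fintype V] {τ T : ℝ} (h0 : 0 ≤ τ) (hT : τ * T < 1)
    {R : V → V → Prop} (hR : Cert τ R) (M : V → V → ℝ) (hM : Psd M) (hd : ∀ i, M i i ≤ T)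
    (he : ∀ i j, R i j → M i j = -1) : False := by
  obtain ⟨A, D, a1, a2, a3, -, a5, a6, a7⟩ := hR
  have h := (a5.mul hM).one
  have h2 : ∑ i, ∑ j, (A i j + τ * D i j) * M i j ≤ ∑ i, ∑ j, (- A i j + τ * T * D i j) := by
    refine sum_le_sum fun i _ => sum_le_sum fun j _ => ?_
    have e1 : A i j * M i j = - A i j := by
      by_cases hr : R i j
      · rw [he i j hr]; ring
      · rw [a1 i j hr]; ring
    have e2 : D i j * M i j ≤ T * D i j := by
      by_cases hij : i = j
      · subst hij; nlinarith [hd i, a3 i i]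
      · rw [a2 i j hij]; simp
    nlinarith
  have h3 : ∑ i, ∑ j, (- A i j + τ * T * D i j) =
      - (∑ i, ∑ j, A i j) + τ * T * ∑ i, ∑ j, D i j := by
    simp only [sum_add_distrib, sum_neg_distrib, mul_sum]
  rw [h3, a6] at h2
  nlinarith

lemma card_le_of_vc {V : Type} [Fintype V] [Nonempty V] {T : ℝ} (M N : V → V → ℝ) (hM : Psd M)
    (hN : Psd N) (hd : ∀ i, M i i = T) (hd' : ∀ i, N i i = T)
    (he : ∀ i j, i ≠ j → M i j = -1 ∨ N i j = -1) : (Fintype.card V : ℝ) ≤ (T + 1) ^ 2 := by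
  classical
  have h := (((hM.mul hN).add hM).add hN).one
  have h2 : ∀ i j, M i j * N i j + M i j + N i j = (if i = j then (T + 1) ^ 2 else 0) - 1 := by
    intro i j
    by_cases hij : i = j
    · subst hij; rw [hd, hd', if_pos rfl]; ring
    · rw [if_neg hij]
      rcases he i j hij with h | h <;> rw [h] <;> ring
  simp only [h2, sum_sub_distrib, sum_ite_eq, mem_univ, if_true, sum_const, card_univ,
    nsmul_eq_mul, mul_one] at h
  have hpos : (0 : ℝ) < Fintype.card V := by exact_mod_cast Fintype.card_pos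
  by_contra hc
  push Not at hc
  nlinarith

lemma psd_colouring {V C : Type} [Fintype V] [Fintype C] [DecidableEq C] (c : V → C) :
    Psd (fun i j => (if c i = c j then (Fintype.card C : ℝ) else 0) - 1) := by
  refine ⟨fun i j => by simp only [eq_comm], fun x => ?_⟩
  set y : C → ℝ := fun k => ∑ i, if c i = k then x i else 0 with hy
  have e1 : ∑ k, y k = ∑ i, x i := by
    simp only [hy]
    rw [sum_comm]
    simp
  have e2 : ∑ k, y k ^ 2 = ∑ i, ∑ j, if c i = c j then x i * x j else 0 := by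
    simp only [hy, sq, sum_mul_sum]
    rw [sum_comm]
    refine sum_congr rfl fun i _ => ?_
    rw [sum_comm]
    refine sum_congr rfl fun j _ => ?_
    rw [Finset.sum_eq_single (c i)]
    · by_cases h : c i = c j
      · simp [h]
      · simp [h, Ne.symm h]
    · intro k _ hk
      simp [Ne.symm hk]
    · simp
  have e3 : ∑ i, ∑ j, ((if c i = c j then (Fintype.card C : ℝ) else 0) - 1) * x i * x j =
      Fintype.card C * ∑ k, y k ^ 2 - (∑ k, y k) ^ 2 := by
    rw [e1, e2, sq, sum_mul_sum, mul_sum, ← sum_sub_distrib]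
    refine sum_congr rfl fun i _ => ?_
    rw [mul_sum, ← sum_sub_distrib]
    refine sum_congr rfl fun j _ => ?_
    split_ifs <;> ring
  rw [e3]
  have := sq_sum_le_card_mul_sum_sq (s := (univ : Finset C)) (f := y)
  rw [card_univ] at this
  linarith

end Pool.Agent.H23.Theta
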