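import Pool.Agent.H23.Theta1

set_option autoImplicit false
set_option maxSynthPendingDepth 3

namespace Pool.Agent.H23.Theta
open Finset

lemma cert_of_gap {V : Type} [Fintype V] [DecidableEq V] [Nonempty V] {T : ℝ} (hT : 0 < T)
    (R : V → V → Prop) (A : V → V → ℝ) (d : V → ℝ) (hA : ∀ i j, ¬ R i j → A i j = 0)
    (hsym : ∀ i j, A i j = A j i) (hd : ∀ i, 0 < d i)
    (hpsd : ∀ x : V → ℝ, 0 ≤ ∑ i, ∑ j, A i j * x i * x j + ∑ i, d i * x i ^ 2)
    (hgap : T * ∑ i, d i ≤ ∑ i, ∑ j, A i j) : Cert (1 / T) R := by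
  set QA : (V → ℝ) → ℝ := fun x => ∑ i, ∑ j, A i j * x i * x j with hQA
  set QD : (V → ℝ) → ℝ := fun x => ∑ i, d i * x i ^ 2 with hQD
  have hQDnn : ∀ x, 0 ≤ QD x := fun x => sum_nonneg fun i _ => by have := hd i; positivity
  have hQDpos : ∀ x, x ≠ 0 → 0 < QD x := by
    intro x hx
    obtain ⟨i, hi⟩ := Function.ne_iff.mp hx
    refine sum_pos' (fun i _ => by have := hd i; positivity) ⟨i, mem_univ _, ?_⟩
    have := hd i
    have hi' : x i ≠ 0 := hi
    positivity
  have hne : ∀ x ∈ Metric.sphere (0 : V → ℝ) 1, x ≠ 0 := by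
    intro x hx h0
    rw [h0] at hx
    simp at hx
  have hone : (fun _ => (1 : ℝ)) ∈ Metric.sphere (0 : V → ℝ) 1 := by
    simp
  have hcont : ContinuousOn (fun x => QA x / QD x) (Metric.sphere (0 : V → ℝ) 1) := by
    refine ContinuousOn.div ?_ ?_ fun x hx => (hQDpos x (hne x hx)).ne'
    · simp only [hQA]; fun_prop
    · simp only [hQD]; fun_prop
  obtain ⟨w, hw, hmax⟩ := (isCompact_sphere (0 : V → ℝ) 1).exists_isMaxOn ⟨_, hone⟩ hcont
  set l := QA w / QD w with hl
  have hw0 := hQDpos w (hne w hw)
  have hall : ∀ x, QA x ≤ l * QD x := by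
    intro x
    by_cases hx : x = 0
    · subst hx; simp [hQA, hQD]
    · have hn : 0 < ‖x‖ := norm_pos_iff.mpr hx
      have hy : ‖x‖⁻¹ • x ∈ Metric.sphere (0 : V → ℝ) 1 := by
        simp [norm_smul, hn.ne']
      have h1 : QA (‖x‖⁻¹ • x) / QD (‖x‖⁻¹ • x) ≤ l := hmax hy
      have e1 : QA (‖x‖⁻¹ • x) = (‖x‖⁻¹) ^ 2 * QA x := by
        simp only [hQA, mul_sum, Pi.smul_apply, smul_eq_mul]
        exact sum_congr rfl fun i _ => sum_congr rfl fun j _ => by ring
      have e2 : QD (‖x‖⁻¹ • x) = (‖x‖⁻¹) ^ 2 * QD x := by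
        simp only [hQD, mul_sum, Pi.smul_apply, smul_eq_mul]
        exact sum_congr rfl fun i _ => by ring
      rw [e1, e2, mul_div_mul_left _ _ (by positivity), div_le_iff₀ (hQDpos x hx)] at h1
      exact h1
  have hsd : 0 < ∑ i, d i := sum_pos (fun i _ => hd i) univ_nonempty
  have hlT : T ≤ l := by
    have h1 := hall (fun _ => 1)
    simp only [hQA, hQD, mul_one, one_pow] at h1
    by_contra hc
    push Not at hc
    nlinarith
  have hdiag : ∀ x : V → ℝ, ∑ i, ∑ j, (if i = j then d i else 0) * x i * x j = QD x := by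
    intro x
    refine sum_congr rfl fun i _ => ?_
    rw [Finset.sum_eq_single i]
    · simp [sq, mul_assoc]
    · intro j _ hj
      simp [Ne.symm hj]
    · simp
  have hdsym : ∀ i j : V, (if i = j then d i else 0) = if j = i then d j else 0 := by
    intro i j
    by_cases h : i = j
    · subst h; rfl
    · rw [if_neg h, if_neg (Ne.symm h)]
  have q1 : Psd (fun i j => l * (if i = j then d i else 0) - A i j) := by
    refine ⟨fun i j => by beta_reduce; rw [hdsym i j, hsym i j], fun x => ?_⟩
    have : ∑ i, ∑ j, (l * (if i = j then d i else 0) - A i j) * x i * x j = l * QD x - QA x := by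
      rw [← hdiag, mul_sum, ← sum_sub_distrib]
      refine sum_congr rfl fun i _ => ?_
      rw [mul_sum, ← sum_sub_distrib]
      exact sum_congr rfl fun j _ => by ring
    rw [this]
    linarith [hall x]
  have q2 : Psd (fun i j => A i j + (l / T) * (if i = j then d i else 0)) := by
    refine ⟨fun i j => by beta_reduce; rw [hdsym i j, hsym i j], fun x => ?_⟩
    have : ∑ i, ∑ j, (A i j + (l / T) * (if i = j then d i else 0)) * x i * x j =
        QA x + (l / T) * QD x := by
      rw [← hdiag, mul_sum, ← sum_add_distrib]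
      refine sum_congr rfl fun i _ => ?_
      rw [mul_sum, ← sum_add_distrib]
      exact sum_congr rfl fun j _ => by ring
    rw [this]
    have h1 : 1 ≤ l / T := by rw [le_div_iff₀ hT]; linarith
    have h2 : 0 ≤ QA x + QD x := hpsd x
    nlinarith [hQDnn x]
  have hsD : ∑ i, ∑ j, l * (if i = j then d i else 0) * (w i * w j) = l * QD w := by
    rw [← hdiag, mul_sum]
    refine sum_congr rfl fun i _ => ?_
    rw [mul_sum]
    exact sum_congr rfl fun j _ => by ring
  refine ⟨fun i j => A i j * (w i * w j), fun i j => l * (if i = j then d i else 0) * (w i * w j),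
    ?_, ?_, ?_, ?_, ?_, ?_, ?_⟩
  · intro i j h
    simp [hA i j h]
  · intro i j h
    simp [h]
  · intro i j
    by_cases h : i = j
    · subst h
      have := hd i
      have h2 : 0 ≤ w i * w i := mul_self_nonneg _
      have h3 : 0 ≤ l := by linarith
      simp only [if_true]
      positivity
    · simp [h]
  · exact (q1.mul (psd_rank_one w)).congr fun i j => by ring
  · exact (q2.mul (psd_rank_one w)).congr fun i j => by ring
  · rw [hsD, hl, div_mul_cancel₀ _ hw0.ne']
    exact sum_congr rfl fun i _ => sum_congr rfl fun j _ => by ring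
  · rw [hsD]
    have : 0 < l := by linarith
    positivity

theorem cert_of_not_vc {V : Type} [Fintype V] [Nonempty V] {T : ℝ} (hT : 0 < T)
    (R : V → V → Prop) (hs : ∀ i j, R i j → R j i) (hi : ∀ i, ¬ R i i)
    (h : ¬ ∃ M : V → V → ℝ, Psd M ∧ (∀ i, M i i = T) ∧ ∀ i j, R i j → M i j = -1) :
    Cert (1 / T) R := by
  classical
  set n : ℝ := (Fintype.card V : ℝ) with hn
  have hn0 : 0 < n := by rw [hn]; exact_mod_cast Fintype.card_pos
  have hnT : 0 < n * T := by positivity
  set K : Set (V → V → ℝ) :=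
    {M | Psd M ∧ ∑ i, M i i = n * T ∧ ∀ i j, |M i j| ≤ n * T} with hK
  set E : Set (V → V → ℝ) := {N | (∀ i, N i i = T) ∧ ∀ i j, R i j → N i j = -1} with hE
  have hKconv : Convex ℝ K := by
    rintro M ⟨m1, m2, m3⟩ N ⟨n1, n2, n3⟩ a b ha hb hab
    refine ⟨(m1.smul ha).add (n1.smul hb), ?_, fun i j => ?_⟩
    · simp only [Pi.add_apply, Pi.smul_apply, smul_eq_mul, sum_add_distrib, ← mul_sum, m2, n2]
      rw [← add_mul, hab, one_mul]
    · simp only [Pi.add_apply, Pi.smul_apply, smul_eq_mul]
      have h1 := abs_le.mp (m3 i j)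
      have h2 := abs_le.mp (n3 i j)
      have h3 : n * T = a * (n * T) + b * (n * T) := by rw [← add_mul, hab, one_mul]
      rw [abs_le]
      constructor <;> nlinarith
  have hKclosed : IsClosed K := by
    have : K = ((⋂ i, ⋂ j, {M : V → V → ℝ | M i j = M j i}) ∩
        ⋂ x : V → ℝ, {M : V → V → ℝ | 0 ≤ ∑ i, ∑ j, M i j * x i * x j}) ∩
        ({M : V → V → ℝ | ∑ i, M i i = n * T} ∩
          ⋂ i, ⋂ j, {M : V → V → ℝ | |M i j| ≤ n * T}) := by
      ext M
      simp [hK, Psd]
    rw [this]
    refine IsClosed.inter (IsClosed.inter ?_ ?_) (IsClosed.inter ?_ ?_)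
    · exact isClosed_iInter fun i => isClosed_iInter fun j => isClosed_eq (by fun_prop) (by fun_prop)
    · exact isClosed_iInter fun x => isClosed_le (by fun_prop) (by fun_prop)
    · exact isClosed_eq (by fun_prop) (by fun_prop)
    · exact isClosed_iInter fun i => isClosed_iInter fun j => isClosed_le (by fun_prop) (by fun_prop)
  have hKcomp : IsCompact K := by
    refine (isCompact_closedBall (0 : V → V → ℝ) (n * T)).of_isClosed_subset hKclosed ?_
    rintro M ⟨-, -, m3⟩
    rw [mem_closedBall_zero_iff, pi_norm_le_iff_of_nonneg hnT.le]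
    intro i
    rw [pi_norm_le_iff_of_nonneg hnT.le]
    exact fun j => m3 i j
  have hEconv : Convex ℝ E := by
    rintro M ⟨m1, m2⟩ N ⟨n1, n2⟩ a b ha hb hab
    refine ⟨fun i => ?_, fun i j hr => ?_⟩
    · simp only [Pi.add_apply, Pi.smul_apply, smul_eq_mul, m1, n1]
      rw [← add_mul, hab, one_mul]
    · simp only [Pi.add_apply, Pi.smul_apply, smul_eq_mul, m2 i j hr, n2 i j hr]
      rw [← add_mul, hab, one_mul]
  have hEclosed : IsClosed E := by
    have : E = (⋂ i, {N : V → V → ℝ | N i i = T}) ∩
        ⋂ i, ⋂ j, ⋂ (_ : R i j), {N : V → V → ℝ | N i j = -1} := by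
      ext M
      simp [hE]
    rw [this]
    refine IsClosed.inter ?_ ?_
    · exact isClosed_iInter fun i => isClosed_eq (by fun_prop) (by fun_prop)
    · exact isClosed_iInter fun i => isClosed_iInter fun j => isClosed_iInter fun _ =>
        isClosed_eq (by fun_prop) (by fun_prop)
  have hdisj : Disjoint K E := by
    rw [Set.disjoint_left]
    rintro M ⟨m1, -, -⟩ ⟨m2, m3⟩
    exact h ⟨M, m1, m2, m3⟩
  obtain ⟨f, u, v, hfK, huv, hfE⟩ :=
    geometric_hahn_banach_compact_closed hKconv hKcomp hEconv hEclosed hdisj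
  set e : V → V → V → V → ℝ := fun i j a b => if i = a ∧ j = b then 1 else 0 with he
  set c : V → V → ℝ := fun i j => f (e i j) with hc
  have hf : ∀ M : V → V → ℝ, f M = ∑ i, ∑ j, M i j * c i j := by
    intro M
    have : M = ∑ i, ∑ j, M i j • e i j := by
      funext a b
      simp only [Finset.sum_apply, Pi.smul_apply, smul_eq_mul, he]
      rw [Finset.sum_eq_single a, Finset.sum_eq_single b]
      · simp
      · intro j _ hj; simp [hj]
      · simp
      · intro i _ hi; simp [hi]
      · simp
    conv_lhs => rw [this]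
    simp only [map_sum, map_smul, smul_eq_mul, hc]
  set N0 : V → V → ℝ := fun i j => if i = j then T else if R i j then -1 else 0 with hN0
  have hN0E : N0 ∈ E := by
    refine ⟨fun i => by simp [hN0], fun i j hr => ?_⟩
    have : i ≠ j := by rintro rfl; exact hi i hr
    simp [hN0, this, hr]
  have hc0 : ∀ i j, i ≠ j → ¬ R i j → c i j = 0 := by
    intro i j hij hr
    by_contra hne
    have hmem : ∀ s : ℝ, N0 + s • e i j ∈ E := by
      intro s
      refine ⟨fun a => ?_, fun a b hab => ?_⟩
      · have : ¬ (i = a ∧ j = a) := fun h => hij (h.1.trans h.2.symm)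
        simp [he, this, hN0E.1 a]
      · have : ¬ (i = a ∧ j = b) := fun h => hr (by rw [h.1, h.2]; exact hab)
        simp [he, this, hN0E.2 a b hab]
    have := hfE _ (hmem ((v - f N0) / c i j))
    rw [map_add, map_smul, smul_eq_mul] at this
    have h2 : (v - f N0) / c i j * f (e i j) = v - f N0 := div_mul_cancel₀ _ hne
    linarith
  set α := u / (n * T) with hα
  have hq : ∀ x : V → ℝ, x ≠ 0 → ∑ i, ∑ j, c i j * x i * x j < α * ∑ i, x i ^ 2 := by
    intro x hx
    obtain ⟨i0, hi0⟩ := Function.ne_iff.mp hx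
    have hi0' : x i0 ≠ 0 := hi0
    have hS : 0 < ∑ i, x i ^ 2 :=
      sum_pos' (fun i _ => by positivity) ⟨i0, mem_univ _, by positivity⟩
    set S := ∑ i, x i ^ 2 with hSdef
    have hmem : (fun i j => (n * T / S) * (x i * x j)) ∈ K := by
      refine ⟨(psd_rank_one x).smul (by positivity), ?_, fun i j => ?_⟩
      · simp only [← mul_sum, ← sq]
        rw [← hSdef]
        field_simp
      · have h1 : x i ^ 2 ≤ S := single_le_sum (f := fun i => x i ^ 2) (fun i _ => by positivity)
          (mem_univ i)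
        have h2 : x j ^ 2 ≤ S := single_le_sum (f := fun i => x i ^ 2) (fun i _ => by positivity)
          (mem_univ j)
        have h3 : |x i * x j| ≤ S := by
          rw [abs_le]
          constructor <;> nlinarith [sq_nonneg (x i + x j), sq_nonneg (x i - x j)]
        show |n * T / S * (x i * x j)| ≤ n * T
        rw [abs_mul, abs_of_pos (by positivity : 0 < n * T / S)]
        calc n * T / S * |x i * x j| ≤ n * T / S * S := by gcongr
          _ = n * T := by field_simp
    have h1 := hfK _ hmem
    rw [hf] at h1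
    have h2 : ∑ i, ∑ j, n * T / S * (x i * x j) * c i j =
        n * T / S * ∑ i, ∑ j, c i j * x i * x j := by
      rw [mul_sum]
      refine sum_congr rfl fun i _ => ?_
      rw [mul_sum]
      exact sum_congr rfl fun j _ => by ring
    rw [h2, div_mul_eq_mul_div, div_lt_iff₀ hS] at h1
    rw [hα, div_mul_eq_mul_div, lt_div_iff₀ hnT]
    linarith
  have hsplit : ∀ g : V → V → ℝ, ∑ i, ∑ j, (if i = j then 0 else g i j) =
      ∑ i, ∑ j, g i j - ∑ i, g i i := by
    intro g
    rw [← sum_sub_distrib]
    refine sum_congr rfl fun i _ => ?_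
    have : ∀ j, (if i = j then 0 else g i j) = g i j - if i = j then g i j else 0 := by
      intro j; split_ifs <;> simp
    simp [this, sum_sub_distrib]
  refine cert_of_gap hT R (fun i j => if i = j then 0 else -(c i j + c j i) / 2)
    (fun i => α - c i i) ?_ ?_ ?_ ?_ ?_
  · intro i j hr
    by_cases hij : i = j
    · simp [hij]
    · simp [hij, hc0 i j hij hr, hc0 j i (Ne.symm hij) (fun h => hr (hs _ _ h))]
  · intro i j
    by_cases hij : i = j
    · simp [hij]
    · simp only [if_neg hij, if_neg (Ne.symm hij)]; ring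
  · intro i
    have := hq (Pi.single i 1) (by simp)
    rw [Finset.sum_eq_single i, Finset.sum_eq_single i, Finset.sum_eq_single i] at this
    · simp at this
      show 0 < α - c i i
      linarith
    · intro j _ hj; simp [hj]
    · simp
    · intro j _ hj; simp [hj]
    · simp
    · intro j _ hj; simp [hj]
    · simp
  · intro x
    have e1 : ∑ i, ∑ j, (if i = j then 0 else -(c i j + c j i) / 2) * x i * x j =
        ∑ i, ∑ j, (if i = j then 0 else -(c i j + c j i) / 2 * x i * x j) :=
      sum_congr rfl fun i _ => sum_congr rfl fun j _ => by split_ifs <;> simp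
    have e2 : ∑ i, ∑ j, -(c i j + c j i) / 2 * x i * x j = - ∑ i, ∑ j, c i j * x i * x j := by
      have : ∑ i, ∑ j, c j i * x i * x j = ∑ i, ∑ j, c i j * x i * x j := by
        rw [sum_comm]
        exact sum_congr rfl fun i _ => sum_congr rfl fun j _ => by ring
      have h2 : ∑ i, ∑ j, -(c i j + c j i) / 2 * x i * x j =
          -(1 / 2) * (∑ i, ∑ j, c i j * x i * x j + ∑ i, ∑ j, c j i * x i * x j) := by
        rw [← sum_add_distrib, mul_sum]
        refine sum_congr rfl fun i _ => ?_
        rw [← sum_add_distrib, mul_sum]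
        exact sum_congr rfl fun j _ => by ring
      rw [h2, this]; ring
    have e3 : ∑ i, (α - c i i) * x i ^ 2 =
        α * ∑ i, x i ^ 2 + ∑ i, -(c i i + c i i) / 2 * x i * x i := by
      rw [mul_sum, ← sum_add_distrib]
      exact sum_congr rfl fun i _ => by ring
    show 0 ≤ ∑ i, ∑ j, (if i = j then 0 else -(c i j + c j i) / 2) * x i * x j +
      ∑ i, (α - c i i) * x i ^ 2
    rw [e1, hsplit, e2, e3]
    by_cases hx : x = 0
    · subst hx; simp
    · linarith [hq x hx]
  · have e1 : f N0 = T * ∑ i, c i i - ∑ i, ∑ j, (if i = j then 0 else c i j) := by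
      rw [hf, mul_sum, ← sum_sub_distrib]
      refine sum_congr rfl fun i _ => ?_
      have : ∀ j, N0 i j * c i j =
          (if i = j then T * c i j else 0) - (if i = j then 0 else c i j) := by
        intro j
        by_cases hij : i = j
        · simp [hN0, hij]
        · by_cases hr : R i j
          · simp [hN0, hij, hr]
          · simp [hN0, hij, hr, hc0 i j hij hr]
      simp [this, sum_sub_distrib]
    have e2 : ∑ i, ∑ j, -(c i j + c j i) / 2 = - ∑ i, ∑ j, c i j := by
      have : ∑ i, ∑ j, c j i = ∑ i, ∑ j, c i j := sum_comm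
      have h2 : ∑ i, ∑ j, -(c i j + c j i) / 2 =
          -(1 / 2) * (∑ i, ∑ j, c i j + ∑ i, ∑ j, c j i) := by
        rw [← sum_add_distrib, mul_sum]
        refine sum_congr rfl fun i _ => ?_
        rw [← sum_add_distrib, mul_sum]
        exact sum_congr rfl fun j _ => by ring
      rw [h2, this]; ring
    have e3 : ∑ i, -(c i i + c i i) / 2 = - ∑ i, c i i := by
      rw [← sum_neg_distrib]
      exact sum_congr rfl fun i _ => by ring
    have e4 : T * ∑ i, (α - c i i) = u - T * ∑ i, c i i := by
      rw [sum_sub_distrib, sum_const, card_univ, nsmul_eq_mul, ← hn, hα]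
      field_simp
    show T * ∑ i, (α - c i i) ≤ ∑ i, ∑ j, (if i = j then 0 else -(c i j + c j i) / 2)
    rw [hsplit, e2, e3, e4]
    rw [hsplit] at e1
    have := hfE _ hN0E
    linarith

end Pool.Agent.H23.Theta
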