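import Pool.Agent.H23.Theta2
import Pool.Agent.H23.Ramsey

set_option autoImplicit false
set_option maxSynthPendingDepth 3

namespace Pool.Agent.H23.Theta
open Finset

lemma Cert.equiv {V W : Type} [Fintype V] [Fintype W] {τ : ℝ} {R : V → V → Prop}
    (hR : Cert τ R) (e : W ≃ V) : Cert τ (fun a b => R (e a) (e b)) := by
  obtain ⟨A, D, a1, a2, a3, a4, a5, a6, a7⟩ := hR
  have hs : ∀ X : V → V → ℝ, ∑ a, ∑ b, X (e a) (e b) = ∑ i, ∑ j, X i j := by
    intro X
    rw [← e.sum_comp (fun i => ∑ j, X i j)]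
    exact sum_congr rfl fun a _ => e.sum_comp (fun j => X (e a) j)
  refine ⟨fun a b => A (e a) (e b), fun a b => D (e a) (e b), fun a b h => a1 _ _ h,
    fun a b h => a2 _ _ (fun h' => h (e.injective h')), fun a b => a3 _ _, a4.comp e, a5.comp e,
    ?_, ?_⟩
  · rw [hs, hs, a6]
  · rw [hs]; exact a7

lemma Cert.nonempty {V : Type} [Fintype V] {τ : ℝ} {R : V → V → Prop} (hR : Cert τ R) :
    Nonempty V := by
  obtain ⟨A, D, -, -, -, -, -, -, a7⟩ := hR
  by_contra h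
  rw [not_nonempty_iff] at h
  simp at a7

lemma cert_either {r : ℕ} {T : ℝ} (hT : 0 < T) (hr : (T + 1) ^ 2 < r)
    (χ : Fin r → Fin r → Bool) (hχ : ∀ i j, χ i j = χ j i) :
    ∃ b, Cert (1 / T) (fun i j => i ≠ j ∧ χ i j = b) := by
  have hr0 : 0 < r := by
    have : (0 : ℝ) < r := lt_of_le_of_lt (by positivity) hr
    exact_mod_cast this
  have : Nonempty (Fin r) := ⟨⟨0, hr0⟩⟩
  by_contra hc
  push Not at hc
  have key : ∀ b, ∃ M : Fin r → Fin r → ℝ, Psd M ∧ (∀ i, M i i = T) ∧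
      ∀ i j, (i ≠ j ∧ χ i j = b) → M i j = -1 := by
    intro b
    by_contra h
    exact hc b (cert_of_not_vc hT _ (fun i j h => ⟨h.1.symm, by rw [hχ]; exact h.2⟩)
      (fun i h => h.1 rfl) h)
  obtain ⟨M, m1, m2, m3⟩ := key true
  obtain ⟨N, n1, n2, n3⟩ := key false
  have := card_le_of_vc M N m1 n1 m2 n2 fun i j hij => by
    cases h : χ i j
    · exact Or.inr (n3 i j ⟨hij, h⟩)
    · exact Or.inl (m3 i j ⟨hij, h⟩)
  rw [Fintype.card_fin] at this
  linarith

lemma univ_aux {r : ℕ} {T : ℝ} (hT : 1 ≤ T) (hr : (T + 1) ^ 2 < r)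
    (s : Finset (Fin r → Fin r → Bool)) :
    ∃ (V : Type) (_ : Fintype V) (F : V → V → Prop), (∀ a b, F a b → F b a) ∧
      (∀ a b, F a b → a ≠ b) ∧ Cert (1 / T) F ∧ ∀ χ ∈ s, (∀ i j, χ i j = χ j i) →
        ∃ (φ : V → Fin r) (b : Bool), ∀ x y, F x y → φ x ≠ φ y ∧ χ (φ x) (φ y) = b := by
  classical
  have hT0 : 0 < T := by linarith
  induction s using Finset.induction_on with
  | empty =>
    obtain ⟨b, hb⟩ := cert_either hT0 hr (fun _ _ => true) (fun _ _ => rfl)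
    exact ⟨Fin r, inferInstance, _, fun a b h => ⟨h.1.symm, h.2⟩, fun a b h => h.1, hb, by simp⟩
  | insert χ s _ ih =>
    obtain ⟨V, hV, F, f1, f2, f3, f4⟩ := ih
    by_cases hχ : ∀ i j, χ i j = χ j i
    · obtain ⟨b, hb⟩ := cert_either hT0 hr χ hχ
      refine ⟨V × Fin r, inferInstance, _, ?_, ?_,
        f3.prod (by positivity) (by rw [div_le_one hT0]; exact hT) hb, ?_⟩
      · exact fun x y h => ⟨f1 _ _ h.1, h.2.1.symm, by rw [hχ]; exact h.2.2⟩
      · exact fun x y h h' => h.2.1 (by rw [h'])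
      · intro χ' h' hs
        rcases mem_insert.mp h' with rfl | h'
        · exact ⟨Prod.snd, b, fun x y h => h.2⟩
        · obtain ⟨φ, b', hφ⟩ := f4 χ' h' hs
          exact ⟨fun x => φ x.1, b', fun x y h => hφ _ _ h.1⟩
    · refine ⟨V, hV, F, f1, f2, f3, fun χ' h' hs => ?_⟩
      rcases mem_insert.mp h' with rfl | h'
      · exact absurd hs hχ
      · exact f4 χ' h' hs

theorem univ_graph {r : ℕ} {T : ℝ} (hT : 1 ≤ T) (hr : (T + 1) ^ 2 < r) :
    ∃ (n : ℕ) (F : Fin n → Fin n → Prop), 0 < n ∧ (∀ a b, F a b → F b a) ∧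
      (∀ a b, F a b → a ≠ b) ∧ Cert (1 / T) F ∧ ∀ χ : Fin r → Fin r → Bool,
        (∀ i j, χ i j = χ j i) →
        ∃ (φ : Fin n → Fin r) (b : Bool), ∀ x y, F x y → φ x ≠ φ y ∧ χ (φ x) (φ y) = b := by
  obtain ⟨V, hV, F, f1, f2, f3, f4⟩ := univ_aux hT hr univ
  have := f3.nonempty
  let e := (Fintype.equivFin V).symm
  refine ⟨Fintype.card V, fun a b => F (e a) (e b), Fintype.card_pos, fun a b h => f1 _ _ h,
    fun a b h h' => f2 _ _ h (by rw [h']), f3.equiv e, fun χ hχ => ?_⟩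
  obtain ⟨φ, b, hφ⟩ := f4 χ (mem_univ _) hχ
  exact ⟨fun x => φ (e x), b, fun x y h => hφ _ _ h⟩

theorem upper {r n : ℕ} (F : Fin n → Fin n → Prop)
    (hF : ∀ χ : Fin r → Fin r → Bool, (∀ i j, χ i j = χ j i) →
      ∃ (φ : Fin n → Fin r) (b : Bool), ∀ x y, F x y → φ x ≠ φ y ∧ χ (φ x) (φ y) = b) :
    ∃ (m : ℕ) (H : SimpleGraph (Fin m)), H.Colorable r ∧
      ∀ col : Fin m → Fin m → Bool, (∀ a b, col a b = col b a) →
        ∃ (f : Fin n → Fin m) (b : Bool), Function.Injective f ∧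
          ∀ x y : Fin n, F x y → H.Adj (f x) (f y) ∧ col (f x) (f y) = b := by
  obtain ⟨R, hR⟩ := ramsey Unit (Fin r → Fin r → Bool) (r * n)
  let e : Fin R × Fin r ≃ Fin (R * r) := finProdFinEquiv
  let H : SimpleGraph (Fin (R * r)) :=
    { Adj := fun a b => (e.symm a).2 ≠ (e.symm b).2
      symm := ⟨fun a b h => h.symm⟩
      loopless := ⟨fun a h => h rfl⟩ }
  refine ⟨R * r, H, ⟨SimpleGraph.Coloring.mk (fun a => (e.symm a).2) (fun h => h)⟩,
    fun col hcol => ?_⟩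
  obtain ⟨-, b0, T, -, hT, -, hmono⟩ := hR (Fin R) univ (fun _ => ())
    (fun v w i j => col (e (v, i)) (e (w, j))) (by simp)
  let o := T.orderEmbOfFin hT
  let pos : Fin r × Fin n ≃ Fin (r * n) := finProdFinEquiv
  have hpos : ∀ (i j : Fin r) (x y : Fin n), j < i → pos (j, y) < pos (i, x) := by
    intro i j x y h
    rw [Fin.lt_def]
    simp only [pos, finProdFinEquiv_apply_val]
    have h1 : j.val + 1 ≤ i.val := h
    have h2 := y.2
    nlinarith [Nat.mul_le_mul_left n h1]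
  have hkey : ∀ (i j : Fin r) (x y : Fin n), j < i →
      col (e (o (pos (i, x)), i)) (e (o (pos (j, y)), j)) = b0 i j := by
    intro i j x y h
    have := hmono _ (T.orderEmbOfFin_mem hT (pos (i, x))) _ (T.orderEmbOfFin_mem hT (pos (j, y)))
      (o.strictMono (hpos i j x y h))
    exact congrFun (congrFun this i) j
  obtain ⟨φ, b, hφ⟩ := hF (fun i j => if j < i then b0 i j else b0 j i) (by
    intro i j
    rcases lt_trichotomy i j with h | h | h
    · simp [h, h.not_gt]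
    · simp [h]
    · simp [h, h.not_gt])
  refine ⟨fun x => e (o (pos (φ x, x)), φ x), b, ?_, fun x y hxy => ?_⟩
  · intro x y h
    have h1 := congrArg Prod.fst (e.injective h)
    have h2 := pos.injective (o.injective h1)
    exact congrArg Prod.snd h2
  · obtain ⟨h1, h2⟩ := hφ x y hxy
    refine ⟨by simpa [H] using h1, ?_⟩
    rcases lt_or_gt_of_ne h1 with h | h
    · rw [if_neg h.not_gt] at h2
      rw [hcol, hkey _ _ _ _ h, h2]
    · rw [if_pos h] at h2
      rw [hkey _ _ _ _ h, h2]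

theorem ramsey_set (n : ℕ) (G : SimpleGraph (Fin n)) :
    ∃ (N m : ℕ) (H : SimpleGraph (Fin m)), H.Colorable N ∧
      ∀ col : Fin m → Fin m → Bool, (∀ a b, col a b = col b a) →
        ∃ (f : Fin n → Fin m) (b : Bool), Function.Injective f ∧
          ∀ x y : Fin n, G.Adj x y → H.Adj (f x) (f y) ∧ col (f x) (f y) = b := by
  obtain ⟨R, hR⟩ := ramsey Unit Bool n
  refine ⟨R, upper G.Adj fun χ hχ => ?_⟩
  obtain ⟨-, b0, T, -, hT, -, hmono⟩ := hR (Fin R) univ (fun _ => ()) χ (by simp)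
  let o := T.orderEmbOfFin hT
  refine ⟨o, b0, fun x y h => ⟨fun h' => h.ne (o.injective h'), ?_⟩⟩
  rcases lt_or_gt_of_ne h.ne with h' | h'
  · rw [hχ]
    exact hmono _ (T.orderEmbOfFin_mem hT y) _ (T.orderEmbOfFin_mem hT x) (o.strictMono h')
  · exact hmono _ (T.orderEmbOfFin_mem hT x) _ (T.orderEmbOfFin_mem hT y) (o.strictMono h')

end Pool.Agent.H23.Theta
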