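import Pool.Agent.H23.Theta3

set_option autoImplicit false
set_option maxSynthPendingDepth 3

namespace Pool.Agent.H23.Theta
open Finset

lemma psd_gram {V W : Type} [Fintype V] [Fintype W] (N : V → W → ℝ) :
    Psd (fun i j => ∑ w, N i w * N j w) := by
  refine ⟨fun i j => sum_congr rfl fun w _ => mul_comm _ _, fun x => ?_⟩
  have : ∑ i, ∑ j, (∑ w, N i w * N j w) * x i * x j =
      ∑ w, ∑ i, ∑ j, N i w * N j w * x i * x j := by
    rw [sum_comm (s := (univ : Finset W))]
    refine sum_congr rfl fun i _ => ?_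
    rw [sum_comm (s := (univ : Finset W))]
    refine sum_congr rfl fun j _ => ?_
    rw [sum_mul, sum_mul]
  rw [this]
  exact sum_nonneg fun w _ => (psd_rank_one (fun i => N i w)).2 x

lemma psd_delta {V : Type} [Fintype V] [DecidableEq V] :
    Psd (fun i j : V => if i = j then (1 : ℝ) else 0) := by
  refine (psd_gram (fun i w : V => if i = w then (1 : ℝ) else 0)).congr fun i j => ?_
  simp

section polar
variable {K : Type} [Field K] [Fintype K] [DecidableEq K]

/-- the affine polarity relation -/
def pol (x y : K × K) : Prop := x.2 + y.2 = x.1 * y.1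

omit [Fintype K] [DecidableEq K] in
lemma pol_symm {x y : K × K} (h : pol x y) : pol y x := by
  unfold pol at *
  linear_combination h

omit [Fintype K] [DecidableEq K] in
lemma pol_c4 {x y z w : K × K} (hxy : x ≠ y) (h1 : pol x z) (h2 : pol y z) (h3 : pol x w)
    (h4 : pol y w) : z = w := by
  unfold pol at *
  have h : x.1 ≠ y.1 := by
    intro h
    apply hxy
    refine Prod.ext h ?_
    rw [h] at h1
    linear_combination h1 - h2
  have h5 : (x.1 - y.1) * (z.1 - w.1) = 0 := by linear_combination h2 - h1 + h3 - h4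
  have h6 : z.1 = w.1 := by
    rcases mul_eq_zero.mp h5 with h | h
    · exact absurd (sub_eq_zero.mp h) ‹_›
    · exact sub_eq_zero.mp h
  refine Prod.ext h6 ?_
  rw [h6] at h1
  linear_combination h1 - h3

instance (x y : K × K) : Decidable (pol x y) := by unfold pol; infer_instance

lemma sum_pol (x : K × K) (g : K × K → ℝ) :
    ∑ w, (if pol x w then (1 : ℝ) else 0) * g w = ∑ c, g (c, x.1 * c - x.2) := by
  rw [Fintype.sum_prod_type]
  refine sum_congr rfl fun c _ => ?_
  rw [Finset.sum_eq_single (x.1 * c - x.2)]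
  · rw [if_pos (by unfold pol; ring), one_mul]
  · intro d _ hd
    rw [if_neg, zero_mul]
    intro h
    apply hd
    unfold pol at h
    linear_combination h
  · simp

lemma sum_pol_pol (x y : K × K) :
    ∑ w, (if pol x w then (1 : ℝ) else 0) * (if pol y w then (1 : ℝ) else 0) =
      (Fintype.card K : ℝ) * (if x = y then 1 else 0) + 1 - if x.1 = y.1 then 1 else 0 := by
  rw [sum_pol]
  by_cases h : x.1 = y.1
  · by_cases h2 : x = y
    · subst h2
      have : ∀ c, pol x (c, x.1 * c - x.2) := fun c => by unfold pol; ring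
      simp [this]
    · have : ∀ c, ¬ pol y (c, x.1 * c - x.2) := fun c hc => h2 (Prod.ext h (by
        unfold pol at hc
        rw [h] at hc
        linear_combination -hc))
      rw [if_neg h2, if_pos h, Finset.sum_eq_zero (fun c _ => if_neg (this c))]
      ring
  · have h2 : x ≠ y := fun h' => h (by rw [h'])
    have h3 : y.1 - x.1 ≠ 0 := sub_ne_zero.mpr (Ne.symm h)
    rw [if_neg h2, if_neg h, Finset.sum_eq_single ((y.2 - x.2) / (y.1 - x.1))]
    · rw [if_pos]
      · ring
      · unfold pol
        field_simp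
        ring
    · intro c _ hc
      rw [if_neg]
      intro h'
      apply hc
      unfold pol at h'
      rw [eq_div_iff h3]
      linear_combination -h'
    · simp

lemma psd_polar (q : ℝ) (hq0 : 0 < q) (hq : (Fintype.card K : ℝ) ≤ q ^ 2) :
    Psd (fun x y : K × K => (Fintype.card K : ℝ) * (if pol x y then 1 else 0) - 1 +
      Fintype.card K * q * (if x = y then 1 else 0)) := by
  set p : ℝ := (Fintype.card K : ℝ) with hp
  have hp0 : 0 < p := by rw [hp]; exact_mod_cast Fintype.card_pos
  have g1 := psd_gram (fun x y : K × K => p * (if pol x y then (1 : ℝ) else 0) - 1 +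
    p * q * (if x = y then 1 else 0))
  have g2 := (psd_delta (V := K × K)).smul (a := p ^ 2 * (q ^ 2 - p))
    (mul_nonneg (by positivity) (by linarith))
  have g3 := ((psd_delta (V := K)).comp (Prod.fst : K × K → K)).smul (a := p ^ 2) (by positivity)
  refine (((g1.add g2).add g3).smul (a := 1 / (2 * p * q)) (by positivity)).congr fun x y => ?_
  have s1 : ∀ z : K × K, ∑ w, (if pol z w then (1 : ℝ) else 0) = p := by
    intro z
    have := sum_pol z (fun _ => 1)
    simp only [mul_one] at this
    rw [this, sum_const, card_univ, nsmul_eq_mul, mul_one]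
  have s2 : ∀ (z : K × K) (g : K × K → ℝ), ∑ w, (if z = w then (1 : ℝ) else 0) * g w = g z := by
    intro z g
    simp
  have s3 : ∑ _w : K × K, (1 : ℝ) = p ^ 2 := by
    simp [hp, sq]
  have hsy : (if pol y x then (1 : ℝ) else 0) = if pol x y then 1 else 0 := by
    by_cases h : pol x y
    · rw [if_pos h, if_pos (pol_symm h)]
    · rw [if_neg h, if_neg (fun h' => h (pol_symm h'))]
  have hsy' : (if y = x then (1 : ℝ) else 0) = if x = y then 1 else 0 := by
    simp only [eq_comm]
  have e : ∑ w, (p * (if pol x w then (1 : ℝ) else 0) - 1 + p * q * (if x = w then 1 else 0)) *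
      (p * (if pol y w then (1 : ℝ) else 0) - 1 + p * q * (if y = w then 1 else 0)) =
      p ^ 2 * ∑ w, (if pol x w then (1 : ℝ) else 0) * (if pol y w then (1 : ℝ) else 0)
      - p * ∑ w, (if pol x w then (1 : ℝ) else 0) - p * ∑ w, (if pol y w then (1 : ℝ) else 0)
      + ∑ _w : K × K, (1 : ℝ)
      + p * q * ∑ w, (if x = w then (1 : ℝ) else 0) *
        (p * (if pol y w then (1 : ℝ) else 0) - 1 + p * q * (if y = w then 1 else 0))
      + p * q * ∑ w, (if y = w then (1 : ℝ) else 0) *
        (p * (if pol x w then (1 : ℝ) else 0) - 1) := by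
    simp only [mul_sum, ← sum_add_distrib, ← sum_sub_distrib]
    exact sum_congr rfl fun w _ => by ring
  rw [e, sum_pol_pol, s1, s1, s2, s2, s3, hsy, hsy', ← hp]
  field_simp
  ring

lemma three_col (x0 : K × K) : ∃ γ : K × K → Option Bool, ∀ y y', (x0 = y ∨ pol x0 y) →
    (x0 = y' ∨ pol x0 y') → pol y y' → y ≠ y' → γ y ≠ γ y' := by
  classical
  let idx := Fintype.equivFin (K × K)
  let P : K × K → Prop := fun y => ∃ z, z ≠ x0 ∧ pol x0 z ∧ pol y z ∧ idx y < idx z
  have key : ∀ y y', x0 ≠ y → x0 ≠ y' → pol x0 y → pol x0 y' → pol y y' → idx y < idx y' →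
      P y ∧ ¬ P y' := by
    intro y y' h1 h2 h3 h4 h5 h6
    refine ⟨⟨y', h2.symm, h4, h5, h6⟩, ?_⟩
    rintro ⟨z, -, z2, z3, z4⟩
    have := pol_c4 h2 h3 (pol_symm h5) z2 z3
    rw [← this] at z4
    exact lt_asymm h6 z4
  refine ⟨fun y => if x0 = y then none else some (decide (P y)), fun y y' h1 h2 h3 h4 => ?_⟩
  by_cases e1 : x0 = y <;> by_cases e2 : x0 = y'
  · exact absurd (e1.symm.trans e2) h4
  · simp only [if_pos e1, if_neg e2]; simp
  · simp only [if_neg e1, if_pos e2]; simp
  · simp only [if_neg e1, if_neg e2]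
    have h1' := h1.resolve_left e1
    have h2' := h2.resolve_left e2
    rcases lt_or_gt_of_ne (fun h => h4 (idx.injective h)) with h | h
    · obtain ⟨k1, k2⟩ := key y y' e1 e2 h1' h2' h3 h
      simp [k1, k2]
    · obtain ⟨k1, k2⟩ := key y' y e2 e1 h2' h1' (pol_symm h3) h
      simp [k1, k2]

theorem good_colouring (q s : ℕ) (hq0 : 0 < q) (hq : Fintype.card K ≤ q ^ 2)
    (hs : Fintype.card K * (q + 1) ≤ 3 * s) :
    ∃ β : (K × K) × Fin s → (K × K) × Fin s → Bool, (∀ a a', β a a' = β a' a) ∧
      ∀ w b, ∃ M : (K × K) × Fin s → (K × K) × Fin s → ℝ, Psd M ∧ (∀ a, M a a ≤ 3 * s) ∧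
        ∀ a a', β w a = b → β w a' = b → a ≠ a' → β a a' = b → M a a' = -1 := by
  refine ⟨fun a a' => decide (a.1 = a'.1 ∨ pol a.1 a'.1), fun a a' => ?_, fun w b => ?_⟩
  · rw [decide_eq_decide]
    exact ⟨fun h => h.imp Eq.symm pol_symm, fun h => h.imp Eq.symm pol_symm⟩
  · cases b
    · have h := (psd_polar (K := K) q (by exact_mod_cast hq0) (by exact_mod_cast hq)).comp
        (Prod.fst : (K × K) × Fin s → K × K)
      refine ⟨_, h, fun a => ?_, fun a a' _ _ _ h4 => ?_⟩
      · have h1 : (Fintype.card K : ℝ) * (q + 1) ≤ 3 * s := by exact_mod_cast hs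
        have h2 : (0 : ℝ) ≤ Fintype.card K := by positivity
        rw [if_pos rfl]
        split_ifs <;> nlinarith
      · have h5 : ¬ (a.1 = a'.1 ∨ pol a.1 a'.1) := by simpa using h4
        push Not at h5
        rw [if_neg h5.1, if_neg h5.2]
        ring
    · obtain ⟨γ, hγ⟩ := three_col w.1
      refine ⟨_, psd_colouring (fun a : (K × K) × Fin s => (γ a.1, a.2)), fun a => ?_,
        fun a a' h1 h2 h3 h4 => ?_⟩
      · simp
      · rw [if_neg]
        · ring
        · intro h
          have h5 := (Prod.ext_iff.mp h).1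
          have h6 := (Prod.ext_iff.mp h).2
          have h7 : a.1 ≠ a'.1 := fun h' => h3 (Prod.ext h' h6)
          exact hγ a.1 a'.1 (of_decide_eq_true h1) (of_decide_eq_true h2)
            ((of_decide_eq_true h4).resolve_left h7) h7 h5

end polar

end Pool.Agent.H23.Theta
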