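import Mathlib

set_option autoImplicit false
set_option maxSynthPendingDepth 3

namespace Pool.Agent.H23.Tod
open MulAction Subgroup

variable {G : Type} [Group G] [Finite G]

omit [Finite G] in
lemma card_subgroupOf (K H : Subgroup G) : Nat.card (K.subgroupOf H) = Nat.card ↥(H ⊓ K) := by
  rw [← Subgroup.inf_subgroupOf_left]
  exact Nat.card_congr (Subgroup.subgroupOfEquivOfLe inf_le_left).toEquiv

omit [Finite G] in
lemma orb_stab {X : Type} [MulAction G X] (S : Subgroup G) (x : X) :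
    Nat.card (orbit S x) * Nat.card ↥(S ⊓ stabilizer G x) = Nat.card S := by
  rw [← card_subgroupOf, ← Nat.card_prod]
  exact Nat.card_congr (orbitProdStabilizerEquivGroup S x)

omit [Finite G] in
lemma dvd_card_of_orbits {X : Type} [MulAction G X] (S : Subgroup G) (A : Finset X)
    (hA : ∀ s ∈ S, ∀ a ∈ A, s • a ∈ A) (d : ℕ) (h : ∀ a ∈ A, d ∣ Nat.card (orbit S a)) :
    d ∣ A.card := by
  classical
  rw [Finset.card_eq_sum_card_image (fun a => Quotient.mk (orbitRel S X) a) A]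
  refine Finset.dvd_sum fun q hq => ?_
  obtain ⟨a, ha, rfl⟩ := Finset.mem_image.mp hq
  have : Nat.card (orbit S a) =
      (A.filter (fun b => Quotient.mk (orbitRel S X) b = Quotient.mk (orbitRel S X) a)).card := by
    rw [← Set.ncard_coe_finset, Nat.card_coe_set_eq]
    congr 1
    ext b
    simp only [Finset.coe_filter, Set.mem_ofPred_eq, Quotient.eq, orbitRel_apply]
    exact ⟨fun hb => ⟨by obtain ⟨s, rfl⟩ := hb; exact hA s s.2 a ha, hb⟩, fun hb => hb.2⟩
  rw [← this]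
  exact h a ha

lemma exists_fixed {X : Type} [MulAction G X] [Finite X] {p : ℕ} [Fact p.Prime] (S : Subgroup G)
    (hS : IsPGroup p S) (A : Finset X) (hA : ∀ s ∈ S, ∀ a ∈ A, s • a ∈ A) (h : ¬ p ∣ A.card) :
    ∃ a ∈ A, ∀ s ∈ S, s • a = a := by
  by_contra hc
  push Not at hc
  refine h (dvd_card_of_orbits S A hA p fun a ha => ?_)
  obtain ⟨n, hn⟩ := hS.card_orbit a
  rcases n with _ | n
  · obtain ⟨s, hs, hne⟩ := hc a ha
    have hsub := (Nat.card_eq_one_iff_unique.mp (hn.trans (pow_zero p))).1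
    have := @Subsingleton.elim _ hsub ⟨(⟨s, hs⟩ : S) • a, mem_orbit a _⟩ ⟨a, mem_orbit_self a⟩
    exact absurd (congrArg Subtype.val this) hne
  · rw [hn]; exact dvd_pow_self p (by omega)

lemma frattini {r : ℕ} [Fact r.Prime] (K : Subgroup G) [K.Normal] (H Q : Subgroup G)
    (hQ : Q ≤ H ⊓ K) (hp : IsPGroup r Q) :
    ∃ T : Subgroup G, Q ≤ T ∧ T ≤ H ⊓ K ∧
      Nat.card T = r ^ (Nat.card ↥(H ⊓ K)).factorization r ∧
      ∀ h ∈ H, ∃ m ∈ H ⊓ normalizer (T : Set G), ∃ l ∈ K, h = m * l := by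
  have h1 : IsPGroup r ((Q.subgroupOf H).subgroupOf (K.subgroupOf H)) :=
    (hp.comap_of_injective _ H.subtype_injective).comap_of_injective _
      (K.subgroupOf H).subtype_injective
  obtain ⟨P, hP⟩ := h1.exists_le_sylow
  refine ⟨((P : Subgroup (K.subgroupOf H)).map (K.subgroupOf H).subtype).map H.subtype,
    fun q hq => ?_, ?_, ?_, fun h hh => ?_⟩
  · exact ⟨⟨q, (hQ hq).1⟩, ⟨⟨⟨q, (hQ hq).1⟩, (hQ hq).2⟩, hP hq, rfl⟩, rfl⟩
  · rintro _ ⟨x, ⟨y, -, rfl⟩, rfl⟩
    exact ⟨y.1.2, y.2⟩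
  · rw [card_map_of_injective H.subtype_injective,
      card_map_of_injective (K.subgroupOf H).subtype_injective, P.card_eq_multiplicity,
      card_subgroupOf]
  · have h2 := P.normalizer_sup_eq_top
    obtain ⟨y, hy, z, hz, e⟩ := mem_sup_of_normal_right.mp (h2 ▸ mem_top (⟨h, hh⟩ : H))
    exact ⟨y, ⟨y.2, le_normalizer_map _ ⟨y, hy, rfl⟩⟩, z, hz, (congrArg Subtype.val e).symm⟩

lemma exists_div {X : Type} [MulAction G X] [Finite X] {p e : ℕ} [Fact p.Prime]
    (he : p ^ e ∣ Nat.card X) (H : Subgroup G) (hH : ∀ x y : X, ∃ h ∈ H, h • x = y) :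
    ∃ S ≤ H, IsPGroup p S ∧ ∀ x : X, p ^ e ∣ Nat.card (orbit S x) := by
  have hp : p.Prime := Fact.out
  obtain ⟨P⟩ : Nonempty (Sylow p H) := Sylow.nonempty
  have hS : IsPGroup p ((P : Subgroup H).map H.subtype) := P.isPGroup'.map _
  have hle : (P : Subgroup H).map H.subtype ≤ H := map_subtype_le _
  refine ⟨_, hle, hS, fun x => ?_⟩
  have h1 := orb_stab ((P : Subgroup H).map H.subtype) x
  have h2 := orb_stab H x
  have h3 : Nat.card (orbit H x) = Nat.card X := by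
    have : orbit H x = Set.univ := Set.eq_univ_of_forall fun y => by
      obtain ⟨h, hh, rfl⟩ := hH x y
      exact ⟨⟨h, hh⟩, rfl⟩
    rw [this]
    exact Nat.card_congr (Equiv.Set.univ X)
  obtain ⟨j, hj⟩ := hS.card_orbit x
  obtain ⟨t, ht⟩ := IsPGroup.iff_card.mp (hS.to_inf_left (K := stabilizer G x))
  have h4 := card_dvd_of_le (inf_le_inf_right (stabilizer G x) hle)
  rw [card_map_of_injective H.subtype_injective, P.card_eq_multiplicity, hj, ht, ← pow_add] at h1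
  rw [ht] at h4
  have h5 : p ^ (e + t) ∣ Nat.card H := by
    rw [← h2, h3, pow_add]; exact mul_dvd_mul he h4
  have h6 := (hp.pow_dvd_iff_le_factorization Nat.card_pos.ne').mp h5
  have h7 := Nat.pow_right_injective hp.two_le h1
  rw [hj]
  exact pow_dvd_pow p (by omega)

section main
variable {Ω X : Type} [Fintype Ω] [Finite X] [MulAction G Ω] [MulAction G X]

omit [Fintype Ω] [Finite X] in
lemma count (c : Ω → Ω → X) (hc : ∀ (g : G) a b, a ≠ b → c (g • a) (g • b) = g • c a b)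
    {d : ℕ} (S : Subgroup G) (hS : ∀ x : X, d ∣ Nat.card (orbit S x)) (α : Ω)
    (hα : ∀ s ∈ S, s • α = α) (A : Finset Ω) (hA : ∀ s ∈ S, ∀ a ∈ A, s • a ∈ A) (hαA : α ∈ A) :
    d ∣ A.card - 1 := by
  classical
  rw [← Finset.card_erase_of_mem hαA]
  refine dvd_card_of_orbits S _ (fun s hs a ha => ?_) d fun a ha => ?_
  · rw [Finset.mem_erase] at ha ⊢
    refine ⟨fun h => ha.1 ?_, hA s hs a ha.2⟩
    rw [← hα s hs] at h
    exact (smul_left_cancel_iff s).mp h
  · have hne : α ≠ a := (Finset.ne_of_mem_erase ha).symm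
    have h1 := orb_stab S a
    have h2 := orb_stab S (c α a)
    have h3 : S ⊓ stabilizer G a ≤ S ⊓ stabilizer G (c α a) := by
      rintro s ⟨s1, s2⟩
      refine ⟨s1, ?_⟩
      have s3 : s • a = a := s2
      show s • c α a = c α a
      rw [← hc s α a hne, hα s s1, s3]
    obtain ⟨u, hu⟩ := card_dvd_of_le h3
    refine (hS (c α a)).trans ⟨u, ?_⟩
    have h4 : 0 < Nat.card ↥(S ⊓ stabilizer G a) := Nat.card_pos
    rw [hu, ← h1] at h2
    exact Nat.eq_of_mul_eq_mul_right h4 (by rw [← h2]; ring)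

theorem main [Nonempty Ω] (c : Ω → Ω → X)
    (hc : ∀ (g : G) a b, a ≠ b → c (g • a) (g • b) = g • c a b)
    (K : Subgroup G) [K.Normal] (hK : ∀ l ∈ K, ∀ x : X, l • x = x)
    (hKt : ∀ a b : Ω, ∃ l ∈ K, l • a = b) (hG : ∀ x y : X, ∃ g : G, g • x = y)
    {r : ℕ} (hr : r.Prime) : Nat.card X ∣ r ^ (Nat.card Ω).factorization r - 1 := by
  classical
  have := Fact.mk hr
  refine (Nat.dvd_iff_prime_pow_dvd_dvd _ _).mpr fun p e hp he => ?_
  have := Fact.mk hp
  rcases e with _ | e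
  · simp
  obtain ⟨α0⟩ := ‹Nonempty Ω›
  have hstab : ∀ a : Ω, Nat.card Ω * Nat.card ↥(K ⊓ stabilizer G a) = Nat.card K := by
    intro a
    have : orbit K a = Set.univ := Set.eq_univ_of_forall fun y => by
      obtain ⟨h, hh, rfl⟩ := hKt a y
      exact ⟨⟨h, hh⟩, rfl⟩
    rw [← orb_stab K a, this, Nat.card_congr (Equiv.Set.univ Ω)]
  set b := (Nat.card ↥(stabilizer G α0 ⊓ K)).factorization r with hb
  let Full : Subgroup G → Prop := fun H => ∀ g : G, ∃ m ∈ H, ∃ l ∈ K, g = m * l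
  have hfull : ∀ H, Full H → ∃ S ≤ H, IsPGroup p S ∧
      ∀ x : X, p ^ (e + 1) ∣ Nat.card (orbit S x) := by
    intro H hH
    refine exists_div he H fun x y => ?_
    obtain ⟨g, rfl⟩ := hG x y
    obtain ⟨m, hm, l, hl, rfl⟩ := hH g
    exact ⟨m, hm, by rw [mul_smul, hK l hl]⟩
  let Φ : Subgroup G → Finset Ω := fun Q =>
    Finset.univ.filter fun ω => ∃ U ≤ Q, (∀ u ∈ U, u • ω = ω) ∧ Nat.card U = r ^ b
  have hΦ : ∀ Q : Subgroup G, ∀ s ∈ normalizer (Q : Set G), ∀ a ∈ Φ Q, s • a ∈ Φ Q := by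
    intro Q s hs a ha
    obtain ⟨-, U, u1, u2, u3⟩ := Finset.mem_filter.mp ha
    refine Finset.mem_filter.mpr ⟨Finset.mem_univ _, U.map (MulAut.conj s).toMonoidHom, ?_, ?_, ?_⟩
    · rintro _ ⟨u, hu, rfl⟩
      exact (mem_normalizer_iff.mp hs u).mp (u1 hu)
    · rintro _ ⟨u, hu, rfl⟩
      show (s * u * s⁻¹) • s • a = s • a
      rw [mul_smul, mul_smul, inv_smul_smul, u2 u hu]
    · rw [card_map_of_injective (MulAut.conj s).injective, u3]
  let Inv : Subgroup G → Prop := fun Q => Q ≤ K ∧ IsPGroup r Q ∧ Full (normalizer (Q : Set G)) ∧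
    ∃ S ≤ normalizer (Q : Set G), (∀ x : X, p ^ (e + 1) ∣ Nat.card (orbit S x)) ∧
      ∃ α ∈ Φ Q, ∀ s ∈ S, s • α = α
  have step : ∀ (H Q : Subgroup G), Full H → Q ≤ H ⊓ K → IsPGroup r Q →
      ∃ T : Subgroup G, Q ≤ T ∧ T ≤ H ⊓ K ∧
        Nat.card T = r ^ (Nat.card ↥(H ⊓ K)).factorization r ∧ IsPGroup r T ∧
        Full (normalizer (T : Set G)) ∧ ∃ S ≤ H ⊓ normalizer (T : Set G), IsPGroup p S ∧
          ∀ x : X, p ^ (e + 1) ∣ Nat.card (orbit S x) := by
    intro H Q hH h1 h2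
    obtain ⟨T, t1, t2, t3, t4⟩ := frattini K H Q h1 h2
    have hf : Full (H ⊓ normalizer (T : Set G)) := by
      intro g
      obtain ⟨m, hm, l, hl, rfl⟩ := hH g
      obtain ⟨m', hm', l', hl', rfl⟩ := t4 m hm
      exact ⟨m', hm', l' * l, K.mul_mem hl' hl, mul_assoc _ _ _⟩
    refine ⟨T, t1, t2, t3, IsPGroup.of_card t3, fun g => ?_, hfull _ hf⟩
    obtain ⟨m, hm, h⟩ := hf g
    exact ⟨m, hm.2, h⟩
  have base : ∃ Q, Inv Q := by
    obtain ⟨T, -, t2, t3, t4, t5, S, s1, -, s3⟩ := step (stabilizer G α0) ⊥ (fun g => by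
      obtain ⟨l, hl, e⟩ := hKt (g⁻¹ • α0) α0
      refine ⟨g * l⁻¹, ?_, l, hl, by simp⟩
      show (g * l⁻¹) • α0 = α0
      rw [mul_smul, ← smul_left_cancel_iff g⁻¹, inv_smul_smul, inv_smul_eq_iff, e])
      bot_le IsPGroup.of_bot
    exact ⟨T, t2.trans inf_le_right, t4, t5, S, s1.trans inf_le_right, s3, α0,
      Finset.mem_filter.mpr ⟨Finset.mem_univ _, T, le_rfl, fun u hu => (t2 hu).1, t3⟩,
      fun s hs => (s1 hs).1⟩
  obtain ⟨Q, ⟨q1, q2, q3, S, s1, s2, α, a1, a2⟩, hmax⟩ :=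
    Set.exists_max_image {Q | Inv Q} (fun Q => Nat.card Q) (Set.toFinite _) base
  obtain ⟨i, hi⟩ := IsPGroup.iff_card.mp q2
  have hiK : i = (Nat.card K).factorization r := by
    refine le_antisymm ((hr.pow_dvd_iff_le_factorization Nat.card_pos.ne').mp
      (hi ▸ card_dvd_of_le q1)) ?_
    by_contra hlt
    have h1 : r ^ (i + 1) ∣ Nat.card K :=
      (hr.pow_dvd_iff_le_factorization Nat.card_pos.ne').mpr (by omega)
    have h2 := Sylow.prime_pow_dvd_card_normalizer h1 (H := Q.subgroupOf K)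
      (by rw [card_subgroupOf, inf_of_le_right q1, hi])
    rw [← subgroupOf_normalizer_eq q1, card_subgroupOf, inf_comm] at h2
    have h3 := (hr.pow_dvd_iff_le_factorization Nat.card_pos.ne').mp h2
    obtain ⟨T, t1, t2, t3, t4, t5, S', s1', s2', s3'⟩ :=
      step (normalizer (Q : Set G)) Q q3 (le_inf le_normalizer q1) q2
    have h4 := count c hc S s2 α a2 (Φ Q) (fun s hs => hΦ Q s (s1 hs)) a1
    have h5 : ¬ p ∣ (Φ Q).card := by
      intro h
      have h6 : p ∣ (Φ Q).card - 1 := (dvd_pow_self p (by omega)).trans h4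
      have h7 := Finset.card_pos.mpr ⟨α, a1⟩
      have h8 := Nat.dvd_sub h h6
      rw [show (Φ Q).card - ((Φ Q).card - 1) = 1 by omega] at h8
      exact hp.one_lt.ne' (Nat.dvd_one.mp h8)
    obtain ⟨α', b1, b2⟩ := exists_fixed S' s2' (Φ Q) (fun s hs => hΦ Q s (s1' hs).1) h5
    obtain ⟨-, U, u1, u2⟩ := Finset.mem_filter.mp b1
    have h6 := hmax T ⟨t2.trans inf_le_right, t4, t5, S', s1'.trans inf_le_right, s3', α',
      Finset.mem_filter.mpr ⟨Finset.mem_univ _, U, u1.trans t1, u2⟩, b2⟩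
    simp only [t3, hi] at h6
    have := (Nat.pow_le_pow_iff_right hr.one_lt).mp h6
    omega
  obtain ⟨-, U, u1, u2, u3⟩ := Finset.mem_filter.mp a1
  obtain ⟨j, hj⟩ := q2.card_orbit α
  obtain ⟨t, ht⟩ := IsPGroup.iff_card.mp (q2.to_inf_left (K := stabilizer G α))
  have e1 := orb_stab Q α
  rw [hj, ht, hi, ← pow_add] at e1
  have e2 := Nat.pow_right_injective hr.two_le e1
  have hΩ : 0 < Nat.card Ω := Nat.card_pos
  have e3 : Nat.card ↥(K ⊓ stabilizer G α) = Nat.card ↥(stabilizer G α0 ⊓ K) := by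
    rw [inf_comm (stabilizer G α0)]
    exact Nat.eq_of_mul_eq_mul_left hΩ ((hstab α).trans (hstab α0).symm)
  have e4 : b ≤ t := by
    have := card_dvd_of_le (show U ≤ Q ⊓ stabilizer G α from fun u hu => ⟨u1 hu, u2 u hu⟩)
    rw [u3, ht] at this
    exact (Nat.pow_dvd_pow_iff_le_right hr.one_lt).mp this
  have e5 : t ≤ b := by
    have := card_dvd_of_le (inf_le_inf_right (stabilizer G α) q1)
    rw [ht, e3] at this
    exact (hr.pow_dvd_iff_le_factorization Nat.card_pos.ne').mp this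
  have e6 : (Nat.card K).factorization r = (Nat.card Ω).factorization r + b := by
    rw [← hstab α, e3, Nat.factorization_mul hΩ.ne' Nat.card_pos.ne']
    rfl
  have e7 := count c hc S s2 α a2 (orbit Q α).toFinset (fun s hs a ha => by
    rw [Set.mem_toFinset] at ha ⊢
    obtain ⟨q, rfl⟩ := ha
    refine ⟨⟨s * q * s⁻¹, (mem_normalizer_iff.mp (s1 hs) q).mp q.2⟩, ?_⟩
    show (s * q * s⁻¹) • α = s • (q : G) • α
    rw [mul_smul, mul_smul, a2 s⁻¹ (S.inv_mem hs)]) (Set.mem_toFinset.mpr (mem_orbit_self α))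
  rw [← Nat.card_eq_card_toFinset, hj, show j = (Nat.card Ω).factorization r by omega] at e7
  exact e7

end main

end Pool.Agent.H23.Tod
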