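import Mathlib

set_option autoImplicit false
set_option maxSynthPendingDepth 3

namespace Pool.Agent.H23.Tutte

variable {V : Type} (G : SimpleGraph V)

def IsArc (f : ℕ → V) (s : ℕ) : Prop :=
  (∀ i, i < s → G.Adj (f i) (f (i + 1))) ∧ ∀ i, i + 2 ≤ s → f i ≠ f (i + 2)

def Trans (s : ℕ) : Prop :=
  ∀ f f', IsArc G f s → IsArc G f' s → ∃ φ : G ≃g G, ∀ i, i ≤ s → φ (f i) = f' i

def Cubic : Prop := ∀ v, ∃ a b c, a ≠ b ∧ a ≠ c ∧ b ≠ c ∧ ∀ w, G.Adj v w ↔ w = a ∨ w = b ∨ w = c

variable {G}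

lemma IsArc.mono {f : ℕ → V} {s t : ℕ} (h : IsArc G f s) (ht : t ≤ s) : IsArc G f t :=
  ⟨fun i hi => h.1 i (by omega), fun i hi => h.2 i (by omega)⟩

lemma IsArc.ext {f : ℕ → V} {r : ℕ} (h : IsArc G f (r + 1)) {w : V} (h1 : G.Adj (f (r + 1)) w)
    (h2 : w ≠ f r) : IsArc G (Function.update f (r + 2) w) (r + 2) := by
  constructor
  · intro i hi
    rw [Function.update_of_ne (by omega)]
    by_cases e : i = r + 1
    · subst e; rw [Function.update_self]; exact h1
    · rw [Function.update_of_ne (by omega)]; exact h.1 i (by omega)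
  · intro i hi
    rw [Function.update_of_ne (by omega)]
    by_cases e : i = r
    · subst e; rw [Function.update_self]; exact h2.symm
    · rw [Function.update_of_ne (by omega)]; exact h.2 i (by omega)

lemma succ2 (hc : Cubic G) {u v : V} (h : G.Adj v u) : ∃ a b, a ≠ b ∧ a ≠ u ∧ b ≠ u ∧
    G.Adj v a ∧ G.Adj v b ∧ ∀ w, G.Adj v w → w = u ∨ w = a ∨ w = b := by
  obtain ⟨a, b, c, h1, h2, h3, h4⟩ := hc v
  rcases (h4 u).1 h with rfl | rfl | rfl
  · exact ⟨b, c, h3, h1.symm, h2.symm, by simp [h4], by simp [h4], fun w hw => (h4 w).1 hw⟩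
  · exact ⟨a, c, h2, h1, h3.symm, by simp [h4], by simp [h4], fun w hw => by
      have := (h4 w).1 hw; tauto⟩
  · exact ⟨a, b, h1, h2, h3, by simp [h4], by simp [h4], fun w hw => by
      have := (h4 w).1 hw; tauto⟩

lemma not_trans (hc : Cubic G) {f : ℕ → V} {r : ℕ} (h : IsArc G f (r + 2))
    (h0 : f 0 = f (r + 2)) : ¬ Trans G (r + 2) := by
  intro ht
  obtain ⟨a, b, h1, h2, h3, h4, h5, -⟩ := succ2 hc (h.1 r (by omega)).symm
  obtain ⟨w, hw1, hw2, hw3⟩ : ∃ w, G.Adj (f (r + 1)) w ∧ w ≠ f r ∧ w ≠ f (r + 2) := by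
    by_cases e : a = f (r + 2)
    · exact ⟨b, h5, h3, e ▸ h1.symm⟩
    · exact ⟨a, h4, h2, e⟩
  obtain ⟨φ, hφ⟩ := ht f _ h ((h.mono (by omega)).ext hw1 hw2)
  have e1 := hφ 0 (by omega)
  have e2 := hφ (r + 2) le_rfl
  rw [Function.update_of_ne (by omega)] at e1
  rw [Function.update_self, ← h0, e1, h0] at e2
  exact hw3 e2.symm

lemma fix_nbr (hc : Cubic G) {r : ℕ} (h1 : Trans G (r + 1)) (h2 : ¬ Trans G (r + 2))
    (φ : G ≃g G) {f : ℕ → V} (hf : IsArc G f (r + 1)) (hφ : ∀ i, i ≤ r + 1 → φ (f i) = f i)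
    (w : V) (hw : G.Adj (f (r + 1)) w) : φ w = w := by
  by_contra hne
  apply h2
  obtain ⟨a, b, e1, e2, e3, e4, e5, e6⟩ := succ2 hc (hf.1 r (by omega)).symm
  have hu : φ (f r) = f r := hφ r (by omega)
  have hv : φ (f (r + 1)) = f (r + 1) := hφ _ le_rfl
  have hwu : w ≠ f r := fun e => hne (by rw [e, hu])
  have adj : ∀ z, G.Adj (f (r + 1)) z → G.Adj (f (r + 1)) (φ z) := fun z hz => by
    have := φ.map_adj_iff.2 hz; rwa [hv] at this
  have nu : ∀ z, z ≠ f r → φ z ≠ f r := fun z hz e => hz (φ.injective (e.trans hu.symm))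
  have two : ∀ z, G.Adj (f (r + 1)) z → z ≠ f r → z = w ∨ z = φ w := by
    intro z hz hzu
    have t1 := (e6 w hw).resolve_left hwu
    have t2 := (e6 _ (adj w hw)).resolve_left (nu w hwu)
    have t3 := (e6 z hz).resolve_left hzu
    rcases t1 with t1 | t1 <;> rcases t2 with t2 | t2 <;> rcases t3 with t3 | t3 <;>
      first | exact Or.inl (t3.trans t1.symm) | exact Or.inr (t3.trans t2.symm) |
        exact absurd (t2.trans t1.symm) hne
  have hww : φ (φ w) = w :=
    (two _ (adj _ (adj w hw)) (nu _ (nu w hwu))).resolve_right fun e => hne (φ.injective e)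
  have key : ∀ g, IsArc G g (r + 2) → ∃ ψ : G ≃g G, (∀ i, i ≤ r + 1 → ψ (g i) = f i) ∧
      ψ (g (r + 2)) = w := by
    intro g hg
    obtain ⟨ψ, hψ⟩ := h1 g f (hg.mono (by omega)) hf
    have a1 : G.Adj (f (r + 1)) (ψ (g (r + 2))) := by
      have := ψ.map_adj_iff.2 (hg.1 (r + 1) (by omega)); rwa [hψ _ le_rfl] at this
    have a2 : ψ (g (r + 2)) ≠ f r := fun e =>
      hg.2 r le_rfl (ψ.injective (by rw [e, hψ r (by omega)]))
    rcases two _ a1 a2 with e | e
    · exact ⟨ψ, hψ, e⟩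
    · refine ⟨ψ.trans φ, fun i hi => ?_, ?_⟩
      · change φ (ψ (g i)) = _; rw [hψ i hi, hφ i hi]
      · change φ (ψ _) = _; rw [e, hww]
  intro g g' hg hg'
  obtain ⟨ψ, p1, p2⟩ := key g hg
  obtain ⟨ψ', q1, q2⟩ := key g' hg'
  refine ⟨ψ.trans ψ'.symm, fun i hi => ?_⟩
  change ψ'.symm (ψ (g i)) = _
  rw [RelIso.symm_apply_eq]
  by_cases e : i = r + 2
  · rw [e, p2, q2]
  · rw [p1 i (by omega), q1 i (by omega)]

lemma rigid (hc : Cubic G) (hconn : ∀ u v, G.Reachable u v) {r : ℕ} (h1 : Trans G (r + 1))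
    (h2 : ¬ Trans G (r + 2)) (φ : G ≃g G) {f : ℕ → V} (hf : IsArc G f (r + 1))
    (hφ : ∀ i, i ≤ r + 1 → φ (f i) = f i) (z : V) : φ z = z := by
  let P : V → V → Prop := fun u v => ∃ f, IsArc G f (r + 1) ∧ (∀ i, i ≤ r + 1 → φ (f i) = f i) ∧
    f r = u ∧ f (r + 1) = v
  have Ps : ∀ u v w, P u v → G.Adj v w → w ≠ u → P v w := by
    rintro _ _ w ⟨f, a1, a2, rfl, rfl⟩ hw hwu
    have b1 := a1.ext hw hwu
    refine ⟨fun i => Function.update f (r + 2) w (i + 1),
      ⟨fun i hi => b1.1 _ (by omega), fun i hi => b1.2 (i + 1) (by omega)⟩, fun i hi => ?_, ?_, ?_⟩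
    · by_cases e : i = r + 1
      · subst e; simp only [Function.update_self]; exact fix_nbr hc h1 h2 φ a1 a2 w hw
      · simp only [Function.update_of_ne (show i + 1 ≠ r + 2 by omega)]; exact a2 _ (by omega)
    · simp only [Function.update_of_ne (show r + 1 ≠ r + 2 by omega)]
    · simp only [Function.update_self]
  have Pa : ∀ u v, P u v → G.Adj u v ∧ φ u = u ∧ φ v = v := by
    rintro _ _ ⟨f, a1, a2, rfl, rfl⟩
    exact ⟨a1.1 r (by omega), a2 _ (by omega), a2 _ le_rfl⟩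
  have Pf : ∀ u v, P u v → ∀ k, ∃ g, g 0 = u ∧ g 1 = v ∧ IsArc G g (k + 1) ∧
      (∀ i, i ≤ k + 1 → φ (g i) = g i) ∧ P (g k) (g (k + 1)) := by
    intro u v h k
    induction k with
    | zero =>
      refine ⟨fun i => if i = 0 then u else v, rfl, rfl, ⟨fun i hi => ?_, fun i hi => by omega⟩,
        fun i _ => ?_, h⟩
      · obtain rfl : i = 0 := by omega
        exact (Pa u v h).1
      · beta_reduce
        split_ifs
        · exact (Pa u v h).2.1
        · exact (Pa u v h).2.2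
    | succ k ih =>
      obtain ⟨g, a1, a2, a3, a4, a5⟩ := ih
      obtain ⟨a, -, -, e2, -, e4, -, -⟩ := succ2 hc (Pa _ _ a5).1.symm
      have b := Ps _ _ a a5 e4 e2
      refine ⟨Function.update g (k + 2) a, ?_, ?_, a3.ext e4 e2, fun i hi => ?_, ?_⟩
      · rw [Function.update_of_ne (by omega), a1]
      · rw [Function.update_of_ne (by omega), a2]
      · by_cases e : i = k + 2
        · subst e; rw [Function.update_self]; exact (Pa _ _ b).2.2
        · rw [Function.update_of_ne e]; exact a4 i (by omega)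
      · rw [Function.update_of_ne (by omega), Function.update_self]; exact b
  have Pr : ∀ u v, P u v → P v u := by
    intro u v h
    obtain ⟨g, a1, a2, a3, a4, -⟩ := Pf u v h r
    refine ⟨fun i => g (r + 1 - i), ⟨fun i hi => ?_, fun i hi => ?_⟩, fun i _ => a4 _ (by omega),
      ?_, ?_⟩
    · have := (a3.1 (r - i) (by omega)).symm
      simp only
      rwa [show r + 1 - i = r - i + 1 by omega, show r + 1 - (i + 1) = r - i by omega]
    · have := (a3.2 (r + 1 - (i + 2)) (by omega)).symm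
      simp only
      rwa [show r + 1 - i = r + 1 - (i + 2) + 2 by omega]
    · simp only; rw [show r + 1 - r = 1 by omega, a2]
    · simp only; rw [show r + 1 - (r + 1) = 0 by omega, a1]
  have Pw : ∀ v z, G.Walk v z → (∃ u, P u v) → ∃ u, P u z := by
    intro v z p
    induction p with
    | nil => exact id
    | @cons v w _ hvw _ ih =>
      rintro ⟨u, h⟩
      apply ih
      by_cases e : w = u
      · exact ⟨v, e ▸ Pr u v h⟩
      · exact ⟨v, Ps u v w h hvw e⟩
  obtain ⟨p⟩ := hconn (f (r + 1)) z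
  obtain ⟨u, h⟩ := Pw _ _ p ⟨_, f, hf, hφ, rfl, rfl⟩
  exact (Pa _ _ h).2.2

theorem finite_stab (hc : Cubic G) (hconn : ∀ u v, G.Reachable u v) (h1 : Trans G 1)
    {f : ℕ → V} {s : ℕ} (h : IsArc G f (s + 2)) (h0 : f 0 = f (s + 2)) (v w : V) :
    {φ : G ≃g G | φ v = w}.Finite := by
  obtain ⟨r, t1, t2⟩ : ∃ r, Trans G (r + 1) ∧ ¬ Trans G (r + 2) := by
    by_contra hn
    have : ∀ r, Trans G (r + 1) := by
      intro r
      induction r with
      | zero => exact h1
      | succ r ih => by_contra h2; exact hn ⟨r, ih, h2⟩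
    exact not_trans hc h h0 (this (s + 1))
  obtain ⟨g, hg0, hg⟩ : ∃ g, g 0 = v ∧ IsArc G g (r + 1) := by
    clear t1 t2
    induction r with
    | zero =>
      obtain ⟨a, b, c, -, -, -, h4⟩ := hc v
      refine ⟨fun i => if i = 0 then v else a, rfl, fun i hi => ?_, fun i hi => by omega⟩
      obtain rfl : i = 0 := by omega
      exact (h4 a).2 (Or.inl rfl)
    | succ r ih =>
      obtain ⟨g, a1, a2⟩ := ih
      obtain ⟨a, -, -, e2, -, e4, -, -⟩ := succ2 hc (a2.1 r (by omega)).symm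
      exact ⟨_, by rw [Function.update_of_ne (by omega), a1], a2.ext e4 e2⟩
  let B : ℕ → Set V := fun i => Nat.rec {w} (fun _ A => ⋃ z ∈ A, G.neighborSet z) i
  have hB : ∀ i, (B i).Finite := by
    intro i
    induction i with
    | zero => exact Set.finite_singleton w
    | succ i ih =>
      refine ih.biUnion fun z _ => ?_
      obtain ⟨a, b, c, -, -, -, h4⟩ := hc z
      exact (Set.toFinite {a, b, c}).subset fun y hy => (h4 y).1 hy
  refine Set.Finite.of_finite_image (f := fun φ (i : Fin (r + 2)) => φ (g i))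
    ((Set.Finite.pi' fun i : Fin (r + 2) => hB i).subset ?_) ?_
  · rintro _ ⟨φ, hφ, rfl⟩ i
    have : ∀ j, j ≤ r + 1 → φ (g j) ∈ B j := by
      intro j
      induction j with
      | zero => intro _; rw [hg0]; exact hφ
      | succ j ih =>
        intro hj
        exact Set.mem_biUnion (ih (by omega)) (φ.map_adj_iff.2 (hg.1 j (by omega)))
    exact this i (by omega)
  · intro φ _ ψ _ e
    ext z
    have := rigid hc hconn t1 t2 (φ.trans ψ.symm) hg (fun i hi => by
      change ψ.symm (φ (g i)) = _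
      rw [RelIso.symm_apply_eq]
      exact congrFun e ⟨i, by omega⟩) z
    change ψ.symm (φ z) = z at this
    rwa [RelIso.symm_apply_eq] at this

end Pool.Agent.H23.Tutte
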