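import Mathlib
import Pool.Agent.H23.Tutte

set_option autoImplicit false
set_option maxSynthPendingDepth 3

namespace Pool.Agent.H23.Tutte

variable {Γ : Type} [Group Γ] (x y : Γ)

def YY (hy : y * y * y = 1) : Subgroup Γ where
  carrier := {g | g = 1 ∨ g = y ∨ g = y * y}
  one_mem' := Or.inl rfl
  mul_mem' := by
    have h1 : y * (y * y) = 1 := by rw [← mul_assoc, hy]
    have h2 : y * y * (y * y) = y := by rw [← mul_assoc, hy, one_mul]
    rintro a b (ha | ha | ha) (hb | hb | hb) <;> simp [ha, hb, hy, h1, h2]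
  inv_mem' := by
    have h1 : y⁻¹ = y * y := by rw [inv_eq_iff_mul_eq_one, ← mul_assoc, hy]
    have h2 : (y * y)⁻¹ = y := by rw [inv_eq_iff_mul_eq_one, hy]
    rintro a (ha | ha | ha)
    · simp [ha]
    · rw [ha, h1]; simp
    · rw [ha, h2]; simp

structure Hyp : Prop where
  hx : x * x = 1
  hy : y * y * y = 1
  gen : Subgroup.closure {x, y} = ⊤
  n0 : x ∉ YY y hy
  n1 : x * y * x ∉ YY y hy
  n2 : x * (y * y) * x ∉ YY y hy
  rel : ∃ m, 0 < m ∧ (x * y * x * (y * y)) ^ m = 1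
  nf : ∀ L : Subgroup Γ, L.FiniteIndex → L = ⊤

variable {x y} (H : Hyp x y)

def gr : SimpleGraph (Γ ⧸ YY y H.hy) where
  Adj u v := ∃ g : Γ, u = g ∧ v = (g * x : Γ)
  symm := ⟨by
    rintro _ _ ⟨g, rfl, rfl⟩
    exact ⟨g * x, rfl, by rw [mul_assoc, H.hx, mul_one]⟩⟩
  loopless := ⟨by
    rintro _ ⟨g, rfl, h⟩
    rw [QuotientGroup.eq] at h
    exact H.n0 (by simpa using h)⟩

lemma mk_y (g : Γ) : ((g * y : Γ) : Γ ⧸ YY y H.hy) = g := by
  rw [eq_comm, QuotientGroup.eq]; simp [YY]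

lemma mk_yy (g : Γ) : ((g * (y * y) : Γ) : Γ ⧸ YY y H.hy) = g := by
  rw [eq_comm, QuotientGroup.eq]; simp [YY]

lemma adj_iff (g : Γ) (w : Γ ⧸ YY y H.hy) : (gr H).Adj g w ↔
    w = (g * x : Γ) ∨ w = (g * y * x : Γ) ∨ w = (g * (y * y) * x : Γ) := by
  constructor
  · rintro ⟨h, e, rfl⟩
    rw [QuotientGroup.eq] at e
    rcases e with e | e | e <;> rw [inv_mul_eq_iff_eq_mul] at e <;> simp [e]
  · rintro (rfl | rfl | rfl)
    · exact ⟨g, rfl, rfl⟩
    · exact ⟨g * y, (mk_y H g).symm, rfl⟩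
    · exact ⟨g * (y * y), (mk_yy H g).symm, rfl⟩

lemma xinv (H : Hyp x y) : x⁻¹ = x := inv_eq_iff_mul_eq_one.2 H.hx

lemma cubic : Cubic (gr H) := by
  intro v
  induction v using QuotientGroup.induction_on with
  | H g =>
    refine ⟨_, _, _, ?_, ?_, ?_, adj_iff H g⟩ <;> rw [Ne, QuotientGroup.eq] <;> intro h
    · apply H.n1
      rwa [show (g * x)⁻¹ * (g * y * x) = x⁻¹ * y * x by group, xinv H] at h
    · apply H.n2
      rwa [show (g * x)⁻¹ * (g * (y * y) * x) = x⁻¹ * (y * y) * x by group, xinv H] at h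
    · apply H.n1
      rwa [show (g * y * x)⁻¹ * (g * (y * y) * x) = x⁻¹ * y * x by group, xinv H] at h

def lm (γ : Γ) : gr H ≃g gr H :=
  ⟨MulAction.toPerm γ, fun {u v} => by
    have key : ∀ (γ : Γ) (u v : Γ ⧸ YY y H.hy), (gr H).Adj u v → (gr H).Adj (γ • u) (γ • v) := by
      rintro γ _ _ ⟨g, rfl, rfl⟩
      exact ⟨γ * g, rfl, by rw [mul_assoc]; rfl⟩
    refine ⟨fun h => ?_, key γ u v⟩
    have := key γ⁻¹ _ _ h
    simpa using this⟩

lemma lm_apply (γ : Γ) (u : Γ ⧸ YY y H.hy) : lm H γ u = γ • u := rfl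
lemma smul_mk (γ g : Γ) : γ • (g : Γ ⧸ YY y H.hy) = (γ * g : Γ) := rfl

lemma conn (u v : Γ ⧸ YY y H.hy) : (gr H).Reachable u v := by
  have key : ∀ g : Γ, ∀ h : Γ, (gr H).Reachable h (h * g : Γ) := by
    intro g
    have hg : g ∈ Subgroup.closure {x, y} := by rw [H.gen]; trivial
    induction hg using Subgroup.closure_induction with
    | mem z hz =>
      intro h
      rcases hz with rfl | rfl
      · exact SimpleGraph.Adj.reachable ⟨h, rfl, rfl⟩
      · rw [mk_y H]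
    | one => intro h; rw [mul_one]
    | mul a b _ _ ha hb => intro h; rw [← mul_assoc]; exact (ha h).trans (hb _)
    | inv a _ ha =>
      intro h
      have := (ha (h * a⁻¹)).symm
      rwa [inv_mul_cancel_right] at this
  induction u using QuotientGroup.induction_on with
  | H g =>
    induction v using QuotientGroup.induction_on with
    | H h =>
      have := key (g⁻¹ * h) g
      rwa [mul_inv_cancel_left] at this

lemma trans1 : Trans (gr H) 1 := by
  intro f f' h h'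
  obtain ⟨g, a1, a2⟩ := h.1 0 (by omega)
  obtain ⟨g', b1, b2⟩ := h'.1 0 (by omega)
  refine ⟨lm H (g' * g⁻¹), fun i hi => ?_⟩
  rw [lm_apply]
  interval_cases i
  · rw [a1, b1, smul_mk H]; congr 1; group
  · rw [a2, b2, smul_mk H]; congr 1; group

def sq (x y : Γ) : ℕ → Γ
  | 0 => 1
  | i + 1 => sq x y i * x * (if i % 2 = 0 then y else y * y)

lemma sq_even (m : ℕ) : sq x y (2 * m) = (x * y * x * (y * y)) ^ m := by
  induction m with
  | zero => simp [sq]
  | succ m ih =>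
    rw [show 2 * (m + 1) = 2 * m + 1 + 1 by ring, sq, sq, ih, if_pos (by omega),
      if_neg (by omega), pow_succ]
    group

lemma sq_mk (i : ℕ) : ((sq x y (i + 1) : Γ) : Γ ⧸ YY y H.hy) = (sq x y i * x : Γ) := by
  rw [sq]; split_ifs
  · exact mk_y H _
  · exact mk_yy H _

lemma sq_arc (s : ℕ) : IsArc (gr H) (fun i => (sq x y i : Γ)) s := by
  refine ⟨fun i _ => ⟨_, rfl, sq_mk H i⟩, fun i _ h => ?_⟩
  simp only at h
  rw [sq_mk H, QuotientGroup.eq, sq] at h
  split_ifs at h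
  · apply H.n1
    rwa [show (sq x y i)⁻¹ * (sq x y i * x * y * x) = x * y * x by group] at h
  · apply H.n2
    rwa [show (sq x y i)⁻¹ * (sq x y i * x * (y * y) * x) = x * (y * y) * x by group] at h

lemma fin_stab (v w : Γ ⧸ YY y H.hy) : {φ : gr H ≃g gr H | φ v = w}.Finite := by
  obtain ⟨m, hm, h⟩ := H.rel
  refine finite_stab (cubic H) (conn H) (trans1 H) (s := 2 * m - 2) (sq_arc H _) ?_ v w
  rw [show 2 * m - 2 + 2 = 2 * m by omega, sq_even, h]; rfl

lemma const_col {C : Type} (c : Sym2 (Γ ⧸ YY y H.hy) → C) (S : Finset (Γ ⧸ YY y H.hy))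
    (hS : ∀ v, ∃ s ∈ S, ∃ φ : gr H ≃g gr H,
      (∀ a b, (gr H).Adj a b → c s(φ a, φ b) = c s(a, b)) ∧ φ s = v)
    (u v : Γ ⧸ YY y H.hy) (h : (gr H).Adj u v) : c s(u, v) = c s(((1 : Γ) : Γ ⧸ YY y H.hy), x) := by
  let L : Subgroup Γ :=
    { carrier := {γ | ∀ a b, (gr H).Adj a b → c s(γ • a, γ • b) = c s(a, b)}
      one_mem' := fun a b _ => by simp
      mul_mem' := fun {γ δ} h1 h2 a b hab => by
        rw [mul_smul, mul_smul, h1 (δ • a) (δ • b) ((lm H δ).map_adj_iff.2 hab), h2 a b hab]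
      inv_mem' := fun {γ} h1 a b hab => by
        have := h1 _ _ ((lm H γ⁻¹).map_adj_iff.2 hab)
        simp only [lm_apply, smul_inv_smul] at this
        exact this.symm }
  choose s hs φ hφ1 hφ2 using hS
  let v0 : Γ ⧸ YY y H.hy := (1 : Γ)
  let F : Set (gr H ≃g gr H) := ⋃ t ∈ S, {ψ | ψ v0 = t}
  have hF : F.Finite := S.finite_toSet.biUnion fun t _ => fin_stab H v0 t
  have : Finite F := hF
  let k : Γ → F := fun γ => ⟨(lm H γ).trans (φ (γ • v0)).symm,
    Set.mem_biUnion (hs (γ • v0)) (by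
      change (φ (γ • v0)).symm (γ • v0) = _
      rw [RelIso.symm_apply_eq, hφ2])⟩
  have hk : ∀ γ δ, k γ = k δ → δ * γ⁻¹ ∈ L := by
    intro γ δ e a b hab
    have e1 : ∀ z, (δ * γ⁻¹) • z = φ (δ • v0) ((φ (γ • v0)).symm z) := by
      intro z
      have e2 : (φ (γ • v0)).symm (γ • γ⁻¹ • z) = (φ (δ • v0)).symm (δ • γ⁻¹ • z) :=
        congrArg (fun ψ : F => ψ.1 (γ⁻¹ • z)) e
      rw [smul_inv_smul] at e2
      rw [e2, RelIso.apply_symm_apply, mul_smul]
    have hab' := (φ (γ • v0)).symm.map_adj_iff.2 hab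
    rw [e1, e1, hφ1 _ _ _ hab', ← hφ1 (γ • v0) _ _ hab']
    simp
  have hfin : Finite (Γ ⧸ L) := by
    refine Finite.of_injective (fun q : Γ ⧸ L => k q.out⁻¹) fun q q' e => ?_
    have := hk _ _ e
    rw [inv_inv, ← QuotientGroup.eq, QuotientGroup.out_eq', QuotientGroup.out_eq'] at this
    exact this.symm
  have hL := H.nf L Subgroup.finiteIndex_of_finite_quotient
  obtain ⟨g, rfl, rfl⟩ := h
  have hg : g ∈ L := by rw [hL]; trivial
  have := hg ((1 : Γ) : Γ ⧸ YY y H.hy) x ⟨1, rfl, by rw [one_mul]⟩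
  rwa [smul_mk H, smul_mk H, mul_one] at this

end Pool.Agent.H23.Tutte
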