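import Mathlib
import Pool.Agent.H23.Tutte2

set_option autoImplicit false
set_option maxSynthPendingDepth 3

namespace Pool.Agent.H23.V23
open Equiv

abbrev Ω := Fin 13 × ℕ
abbrev Cone := Fin 13 × List Bool
abbrev Tri := Cone × Cone × Cone

def bits : List Bool → ℕ → ℕ
  | [], n => n
  | b :: u, n => 2 * bits u n + b.toNat

def emb (c : Cone) (n : ℕ) : Ω := (c.1, bits c.2 n)

lemma bits_append (u v : List Bool) (n : ℕ) : bits (u ++ v) n = bits u (bits v n) := by
  induction u with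
  | nil => rfl
  | cons b u ih => simp [bits, ih]

def y0 : Fin 13 → Fin 13 := ![7, 6, 3, 9, 1, 5, 4, 11, 10, 2, 12, 0, 8]
def x0 : Fin 13 → Fin 13 := ![0, 1, 2, 4, 3, 6, 5, 8, 7, 10, 9, 11, 12]

def xf (p : Ω) : Ω :=
  if p.1 = 0 then (if p.2 % 2 = 0 then 1 else 2, p.2 / 2)
  else if p.1 = 1 then (0, 2 * p.2) else if p.1 = 2 then (0, 2 * p.2 + 1) else (x0 p.1, p.2)

lemma x0_spec : ∀ r : Fin 13, r ≠ 0 → r ≠ 1 → r ≠ 2 →
    x0 r ≠ 0 ∧ x0 r ≠ 1 ∧ x0 r ≠ 2 ∧ x0 (x0 r) = r := by decide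

lemma xf_inv : Function.Involutive xf := by
  rintro ⟨r, n⟩
  by_cases h0 : r = 0
  · subst h0
    by_cases h : n % 2 = 0
    · simp [xf, h]; omega
    · have : (2 : Fin 13) ≠ 1 := by decide
      have h2 : (2 : Fin 13) ≠ 0 := by decide
      simp only [xf, if_true, h, if_false, this, h2]
      exact Prod.ext rfl (by simp only; omega)
  by_cases h1 : r = 1
  · subst h1; simp [xf]
  by_cases h2 : r = 2
  · subst h2
    have : (2 : Fin 13) ≠ 1 := by decide
    have h3 : (2 * n + 1) % 2 ≠ 0 := by omega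
    simp only [xf, if_true, h0, if_false, this, h3]
    exact Prod.ext rfl (by simp only; omega)
  obtain ⟨a, b, c, d⟩ := x0_spec r h0 h1 h2
  simp [xf, h0, h1, h2, a, b, c, d]

lemma y0_spec : ∀ r : Fin 13, y0 (y0 (y0 r)) = r := by decide

def x : Perm Ω := xf_inv.toPerm
def y : Perm Ω := ⟨fun p => (y0 p.1, p.2), fun p => (y0 (y0 p.1), p.2),
  fun p => by simp [y0_spec], fun p => by simp [y0_spec]⟩

lemma xx : x * x = 1 := by ext1 p; exact xf_inv p
lemma yyy : y * y * y = 1 := by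
  ext1 p; change (y0 (y0 (y0 p.1)), p.2) = p; rw [y0_spec]

structure IsCyc (g : Perm Ω) (a b c : ℕ → Ω) : Prop where
  ab : ∀ n, g (a n) = b n
  bc : ∀ n, g (b n) = c n
  ca : ∀ n, g (c n) = a n
  fix : ∀ p, (∀ n, a n ≠ p) → (∀ n, b n ≠ p) → (∀ n, c n ≠ p) → g p = p

lemma IsCyc.conj {g : Perm Ω} {a b c a' b' c' : ℕ → Ω} (h : IsCyc g a b c) (k : Perm Ω)
    (ha : ∀ n, k (a n) = a' n) (hb : ∀ n, k (b n) = b' n) (hc : ∀ n, k (c n) = c' n) :
    IsCyc (k * g * k⁻¹) a' b' c' := by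
  refine ⟨fun n => ?_, fun n => ?_, fun n => ?_, fun p h1 h2 h3 => ?_⟩
  · rw [← ha, ← hb]; simp [h.ab]
  · rw [← hb, ← hc]; simp [h.bc]
  · rw [← hc, ← ha]; simp [h.ca]
  · have := h.fix (k⁻¹ p) (fun n e => h1 n (by rw [← ha, e]; simp))
      (fun n e => h2 n (by rw [← hb, e]; simp)) (fun n e => h3 n (by rw [← hc, e]; simp))
    rw [Perm.mul_apply, Perm.mul_apply, this]; simp

lemma IsCyc.rot {g : Perm Ω} {a b c : ℕ → Ω} (h : IsCyc g a b c) : IsCyc g b c a :=
  ⟨h.bc, h.ca, h.ab, fun p h1 h2 h3 => h.fix p h3 h1 h2⟩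

lemma IsCyc.inv {g : Perm Ω} {a b c : ℕ → Ω} (h : IsCyc g a b c) : IsCyc g⁻¹ a c b := by
  refine ⟨fun n => ?_, fun n => ?_, fun n => ?_, fun p h1 h2 h3 => ?_⟩ <;>
    rw [Perm.inv_eq_iff_eq]
  · rw [h.ca]
  · rw [h.bc]
  · rw [h.ab]
  · rw [h.fix p h1 h3 h2]

lemma IsCyc.uniq {g g' : Perm Ω} {a b c : ℕ → Ω} (h : IsCyc g a b c) (h' : IsCyc g' a b c) :
    g = g' := by
  ext1 p
  by_cases h1 : ∃ n, a n = p
  · obtain ⟨n, rfl⟩ := h1; rw [h.ab, h'.ab]
  by_cases h2 : ∃ n, b n = p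
  · obtain ⟨n, rfl⟩ := h2; rw [h.bc, h'.bc]
  by_cases h3 : ∃ n, c n = p
  · obtain ⟨n, rfl⟩ := h3; rw [h.ca, h'.ca]
  push Not at h1 h2 h3
  rw [h.fix p h1 h2 h3, h'.fix p h1 h2 h3]

lemma IsCyc.cube {g : Perm Ω} {a b c : ℕ → Ω} (h : IsCyc g a b c) : g ^ 3 = 1 := by
  ext1 p
  change g (g (g p)) = p
  by_cases h1 : ∃ n, a n = p
  · obtain ⟨n, rfl⟩ := h1; rw [h.ab, h.bc, h.ca]
  by_cases h2 : ∃ n, b n = p
  · obtain ⟨n, rfl⟩ := h2; rw [h.bc, h.ca, h.ab]
  by_cases h3 : ∃ n, c n = p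
  · obtain ⟨n, rfl⟩ := h3; rw [h.ca, h.ab, h.bc]
  push Not at h1 h2 h3
  rw [h.fix p h1 h2 h3, h.fix p h1 h2 h3, h.fix p h1 h2 h3]

def TC (g : Perm Ω) (t : Tri) : Prop := IsCyc g (emb t.1) (emb t.2.1) (emb t.2.2)

open Classical in
noncomputable def cyc (t : Tri) : Perm Ω := if h : ∃ g, TC g t then h.choose else 1

lemma cyc_eq {g : Perm Ω} {t : Tri} (h : TC g t) : cyc t = g := by
  have h' : ∃ g, TC g t := ⟨g, h⟩
  rw [cyc, dif_pos h']
  exact IsCyc.uniq h'.choose_spec h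

inductive Letter
  | X : Letter
  | Y : Letter
  | C : Tri → Letter

noncomputable def ev : Letter → Perm Ω
  | .X => x
  | .Y => y
  | .C t => cyc t

def lpre : List Bool → List Bool → Option (List Bool)
  | [], v => some v
  | _ :: _, [] => none
  | b :: u, b' :: v => if b = b' then lpre u v else none

lemma lpre_spec : ∀ (u v w : List Bool), lpre u v = some w → v = u ++ w
  | [], v, w, h => by simpa [lpre] using h
  | _ :: _, [], w, h => by simp [lpre] at h
  | b :: u, b' :: v, w, h => by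
    rw [lpre] at h
    split_ifs at h with e
    rw [lpre_spec u v w h, e]; rfl

def ldis : List Bool → List Bool → Bool
  | b :: u, b' :: v => if b = b' then ldis u v else true
  | _, _ => false

lemma ldis_spec : ∀ (u v : List Bool), ldis u v = true → ∀ n m, bits u n ≠ bits v m
  | [], v, h => by simp [ldis] at h
  | _ :: _, [], h => by simp [ldis] at h
  | b :: u, b' :: v, h => by
    intro n m e
    rw [ldis] at h
    simp only [bits] at e
    split_ifs at h with e'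
    · subst e'
      exact ldis_spec u v h n m (by omega)
    · cases b <;> cases b' <;> simp at e e' <;> omega

def pre (a d : Cone) : Option (List Bool) := if a.1 = d.1 then lpre a.2 d.2 else none
def dis (a d : Cone) : Bool := if a.1 = d.1 then ldis a.2 d.2 else true

lemma pre_spec {a d : Cone} {v : List Bool} (h : pre a d = some v) (n : ℕ) :
    emb d n = emb a (bits v n) := by
  rw [pre] at h
  split_ifs at h with e
  rw [emb, emb, lpre_spec _ _ _ h, bits_append, e]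

lemma dis_spec {a d : Cone} (h : dis a d = true) (n m : ℕ) : emb a n ≠ emb d m := by
  rw [dis] at h
  intro e
  rw [emb, emb, Prod.mk.injEq] at e
  rw [if_pos e.1] at h
  exact ldis_spec _ _ h n m e.2

def actL : Letter → Cone → Option Cone
  | .X, c =>
    if c.1 = 0 then (match c.2 with
      | [] => none
      | b :: v => some (if b then 2 else 1, v))
    else if c.1 = 1 then some (0, false :: c.2)
    else if c.1 = 2 then some (0, true :: c.2) else some (x0 c.1, c.2)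
  | .Y, c => some (y0 c.1, c.2)
  | .C t, d =>
    match pre t.1 d with
    | some v => some (t.2.1.1, t.2.1.2 ++ v)
    | none => match pre t.2.1 d with
      | some v => some (t.2.2.1, t.2.2.2 ++ v)
      | none => match pre t.2.2 d with
        | some v => some (t.1.1, t.1.2 ++ v)
        | none => if dis t.1 d && dis t.2.1 d && dis t.2.2 d then some d else none

def Ok : Letter → Prop
  | .C t => TC (cyc t) t
  | _ => True

lemma emb_app (a : Cone) (v : List Bool) (n : ℕ) : emb (a.1, a.2 ++ v) n = emb a (bits v n) := by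
  simp [emb, bits_append]

lemma actL_spec {l : Letter} (hl : Ok l) {c d : Cone} (h : actL l c = some d) (n : ℕ) :
    ev l (emb c n) = emb d n := by
  cases l with
  | X =>
    obtain ⟨r, u⟩ := c
    change xf (r, bits u n) = _
    simp only [actL] at h
    split_ifs at h with h0 h1 h2
    · cases u with
      | nil => simp at h
      | cons b v =>
        simp only [Option.some.injEq] at h
        subst h
        cases b
        · have : (2 * bits v n) % 2 = 0 := by omega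
          simp [xf, h0, bits, emb]
        · have : (2 * bits v n + 1) % 2 ≠ 0 := by omega
          simp only [xf, h0, bits, emb, if_true, Bool.toNat_true, this, if_false]
          exact Prod.ext rfl (by simp only; omega)
    · simp only [Option.some.injEq] at h
      subst h
      simp [xf, h1, bits, emb]
    · simp only [Option.some.injEq] at h
      subst h
      simp only [xf, h0, h1, if_false, if_pos h2, bits, emb, Bool.toNat_true]
    · simp only [Option.some.injEq] at h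
      subst h
      simp only [xf, h0, h1, h2, if_false, emb]
  | Y =>
    simp only [actL, Option.some.injEq] at h
    subst h; rfl
  | C t =>
    change cyc t _ = _
    simp only [actL] at h
    split at h
    · rename_i v e
      simp only [Option.some.injEq] at h
      rw [← h, pre_spec e, emb_app]; exact hl.ab _
    · split at h
      · rename_i v e
        simp only [Option.some.injEq] at h
        rw [← h, pre_spec e, emb_app]; exact hl.bc _
      · split at h
        · rename_i v e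
          simp only [Option.some.injEq] at h
          rw [← h, pre_spec e, emb_app]; exact hl.ca _
        · split_ifs at h with e
          simp only [Option.some.injEq] at h
          simp only [Bool.and_eq_true] at e
          rw [← h]
          exact hl.fix _ (fun m => dis_spec e.1.1 m n) (fun m => dis_spec e.1.2 m n)
            (fun m => dis_spec e.2 m n)

def actW : List Letter → Cone → Option Cone
  | [], c => some c
  | l :: w, c => match actW w c with
    | some d => actL l d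
    | none => none

noncomputable def evW (w : List Letter) : Perm Ω := (w.map ev).prod

lemma evW_cons (l : Letter) (w : List Letter) : evW (l :: w) = ev l * evW w := by simp [evW]

lemma actW_spec : ∀ (w : List Letter), (∀ l ∈ w, Ok l) → ∀ {c d : Cone}, actW w c = some d →
    ∀ n, evW w (emb c n) = emb d n
  | [], _, c, d, h, n => by
    simp only [actW, Option.some.injEq] at h
    subst h; rfl
  | l :: w, hw, c, d, h, n => by
    simp only [actW] at h
    split at h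
    · rename_i e he
      rw [evW_cons, Perm.mul_apply, actW_spec w (fun l hl => hw l (List.mem_cons_of_mem _ hl)) he,
        actL_spec (hw l List.mem_cons_self) h]
    · simp at h

def chk : ℕ → List Letter → Cone → Cone → Bool
  | 0, _, _, _ => false
  | f + 1, w, c, c' => match actW w c with
    | some d => decide (d = c')
    | none => chk f w (c.1, c.2 ++ [false]) (c'.1, c'.2 ++ [false]) &&
        chk f w (c.1, c.2 ++ [true]) (c'.1, c'.2 ++ [true])

lemma chk_spec (w : List Letter) (hw : ∀ l ∈ w, Ok l) : ∀ (f : ℕ) (c c' : Cone),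
    chk f w c c' = true → ∀ n, evW w (emb c n) = emb c' n
  | 0, _, _, h => by simp [chk] at h
  | f + 1, c, c', h => by
    intro n
    simp only [chk] at h
    split at h
    · rename_i d e
      rw [actW_spec w hw e, of_decide_eq_true h]
    · rw [Bool.and_eq_true] at h
      have h1 := chk_spec w hw f _ _ h.1 (n / 2)
      have h2 := chk_spec w hw f _ _ h.2 (n / 2)
      rw [emb_app, emb_app] at h1 h2
      simp only [bits, Bool.toNat_false, Bool.toNat_true] at h1 h2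
      rcases Nat.mod_two_eq_zero_or_one n with e | e
      · rwa [show 2 * (n / 2) + 0 = n by omega] at h1
      · rwa [show 2 * (n / 2) + 1 = n by omega] at h2

def eqR (w w' : List Letter) (r : Fin 13) : Bool := match actW w (r, []) with
  | some c => chk 4 w' (r, []) c
  | none => false

lemma eqW_spec (w w' : List Letter) (hw : ∀ l ∈ w, Ok l) (hw' : ∀ l ∈ w', Ok l)
    (h : ∀ r, eqR w w' r = true) : evW w = evW w' := by
  ext1 ⟨r, n⟩
  have h1 := h r
  rw [eqR] at h1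
  split at h1
  · rename_i c e
    exact (actW_spec w hw e n).trans (chk_spec w' hw' _ _ _ h1 n).symm
  · simp at h1

def w5 : List Letter := [.X, .Y, .X, .Y, .Y]
def w200 : List Letter := (List.replicate 40 w5).flatten
def t0 : Tri := ((0, [true]), (2, []), (12, []))

lemma evW_rep (w : List Letter) (m : ℕ) : evW (List.replicate m w).flatten = evW w ^ m := by
  induction m with
  | zero => rfl
  | succ m ih =>
    rw [List.replicate_succ, List.flatten_cons, pow_succ', ← ih]; simp [evW]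

lemma ev200 : evW w200 = (x * y * x * (y * y)) ^ 40 := by
  rw [w200, evW_rep]; congr 1

lemma ok200 : ∀ l ∈ w200, Ok l := by
  intro l hl
  rw [w200, List.mem_flatten] at hl
  obtain ⟨w, hw, hl⟩ := hl
  rw [List.eq_of_mem_replicate hw] at hl
  simp only [w5, List.mem_cons, List.not_mem_nil, or_false] at hl
  rcases hl with rfl | rfl | rfl | rfl | rfl <;> trivial

lemma c200 : chk 3 w200 (0, [true]) (2, []) = true ∧ chk 3 w200 (2, []) (12, []) = true ∧
    chk 3 w200 (12, []) (0, [true]) = true ∧ chk 3 w200 (0, [false]) (0, [false]) = true ∧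
    ∀ r : Fin 13, r ≠ 0 → r ≠ 2 → r ≠ 12 → chk 3 w200 (r, []) (r, []) = true := by
  decide +kernel

lemma tc0 : TC (evW w200) t0 := by
  obtain ⟨h1, h2, h3, h4, h5⟩ := c200
  refine ⟨chk_spec _ ok200 _ _ _ h1, chk_spec _ ok200 _ _ _ h2, chk_spec _ ok200 _ _ _ h3, ?_⟩
  rintro ⟨r, n⟩ a b c
  by_cases e0 : r = 0
  · subst e0
    rcases Nat.mod_two_eq_zero_or_one n with e | e
    · have := chk_spec _ ok200 _ _ _ h4 (n / 2)
      simp only [emb, bits, Bool.toNat_false] at this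
      rwa [show 2 * (n / 2) + 0 = n by omega] at this
    · refine (a (n / 2) ?_).elim
      simp only [emb, bits, t0, Bool.toNat_true]
      rw [show 2 * (n / 2) + 1 = n by omega]
  · have := chk_spec _ ok200 _ _ _ (h5 r e0 (fun e => b n (by rw [e]; rfl))
      (fun e => c n (by rw [e]; rfl))) n
    simp only [emb, bits] at this
    exact this


def G : Subgroup (Perm Ω) := Subgroup.closure {x, y}

lemma xG : x ∈ G := Subgroup.subset_closure (by simp)
lemma yG : y ∈ G := Subgroup.subset_closure (by simp)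

inductive Step
  | conj : Letter → Tri → Tri → Step
  | rot : Tri → Step
  | inv : Tri → Step

def inK (K : List Tri) : Letter → Bool
  | .C t => decide (t ∈ K)
  | _ => true

def run : List Step → List Tri → Option (List Tri)
  | [], K => some K
  | .conj l s t :: S, K =>
    if inK K l && decide (s ∈ K) && decide (actL l s.1 = some t.1) &&
      decide (actL l s.2.1 = some t.2.1) && decide (actL l s.2.2 = some t.2.2) then run S (t :: K)
    else none
  | .rot s :: S, K => if s ∈ K then run S ((s.2.1, s.2.2, s.1) :: K) else none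
  | .inv s :: S, K => if s ∈ K then run S ((s.1, s.2.2, s.2.1) :: K) else none

section
variable (N : Subgroup (Perm Ω))

def Good (t : Tri) : Prop := TC (cyc t) t ∧ cyc t ∈ G ∧ (cyc t ∈ N ↔ cyc t0 ∈ N)

variable {N} (hN : ∀ g ∈ G, ∀ n ∈ N, g * n * g⁻¹ ∈ N)
include hN

lemma conj_iff {g n : Perm Ω} (hg : g ∈ G) : g * n * g⁻¹ ∈ N ↔ n ∈ N := by
  refine ⟨fun h => ?_, hN g hg n⟩
  have := hN g⁻¹ (G.inv_mem hg) _ h
  rwa [show g⁻¹ * (g * n * g⁻¹) * g⁻¹⁻¹ = n by group] at this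

lemma run_spec : ∀ (S : List Step) (K K' : List Tri), (∀ t ∈ K, Good N t) → run S K = some K' →
    ∀ t ∈ K', Good N t
  | [], K, K', hK, h => by
    simp only [run, Option.some.injEq] at h
    rwa [← h]
  | .conj l s t :: S, K, K', hK, h => by
    simp only [run] at h
    split_ifs at h with e
    simp only [Bool.and_eq_true, decide_eq_true_eq] at e
    obtain ⟨⟨⟨⟨e1, e2⟩, e3⟩, e4⟩, e5⟩ := e
    refine run_spec S _ K' (fun u hu => ?_) h
    rcases List.mem_cons.1 hu with rfl | hu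
    · have hl : Ok l ∧ ev l ∈ G := by
        cases l with
        | X => exact ⟨trivial, xG⟩
        | Y => exact ⟨trivial, yG⟩
        | C v => exact ⟨(hK v (of_decide_eq_true e1)).1, (hK v (of_decide_eq_true e1)).2.1⟩
      obtain ⟨a, b, c⟩ := hK s e2
      have h1 : TC (ev l * cyc s * (ev l)⁻¹) u :=
        IsCyc.conj a _ (actL_spec hl.1 e3) (actL_spec hl.1 e4) (actL_spec hl.1 e5)
      rw [Good, cyc_eq h1]
      exact ⟨h1, G.mul_mem (G.mul_mem hl.2 b) (G.inv_mem hl.2), (conj_iff hN hl.2).trans c⟩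
    · exact hK u hu
  | .rot s :: S, K, K', hK, h => by
    simp only [run] at h
    split_ifs at h with e
    refine run_spec S _ K' (fun u hu => ?_) h
    rcases List.mem_cons.1 hu with rfl | hu
    · obtain ⟨a, b, c⟩ := hK s e
      have h1 : TC (cyc s) (s.2.1, s.2.2, s.1) := IsCyc.rot a
      rw [Good, cyc_eq h1]
      exact ⟨h1, b, c⟩
    · exact hK u hu
  | .inv s :: S, K, K', hK, h => by
    simp only [run] at h
    split_ifs at h with e
    refine run_spec S _ K' (fun u hu => ?_) h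
    rcases List.mem_cons.1 hu with rfl | hu
    · obtain ⟨a, b, c⟩ := hK s e
      have h1 : TC (cyc s)⁻¹ (s.1, s.2.2, s.2.1) := IsCyc.inv a
      rw [Good, cyc_eq h1]
      exact ⟨h1, G.inv_mem b, N.inv_mem_iff.trans c⟩
    · exact hK u hu

end

def steps : List Step :=
  [.conj .Y ((0,[true]),(2,[]),(12,[])) ((7,[true]),(3,[]),(8,[])),
   .conj .X ((7,[true]),(3,[]),(8,[])) ((8,[true]),(4,[]),(7,[])),
   .conj .Y ((8,[true]),(4,[]),(7,[])) ((10,[true]),(1,[]),(11,[])),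
   .conj .X ((10,[true]),(1,[]),(11,[])) ((9,[true]),(0,[false]),(11,[])),
   .conj .Y ((9,[true]),(0,[false]),(11,[])) ((2,[true]),(7,[false]),(0,[])),
   .conj .Y ((2,[true]),(7,[false]),(0,[])) ((3,[true]),(11,[false]),(7,[])),
   .conj .X ((3,[true]),(11,[false]),(7,[])) ((4,[true]),(11,[false]),(8,[])),
   .conj .Y ((4,[true]),(11,[false]),(8,[])) ((1,[true]),(0,[false]),(10,[])),
   .conj .X ((1,[true]),(0,[false]),(10,[])) ((0,[false,true]),(1,[]),(9,[])),
   .conj .Y ((0,[false,true]),(1,[]),(9,[])) ((7,[false,true]),(6,[]),(2,[])),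
   .conj .X ((7,[false,true]),(6,[]),(2,[])) ((8,[false,true]),(5,[]),(0,[true])),
   .conj .Y ((8,[false,true]),(5,[]),(0,[true])) ((10,[false,true]),(5,[]),(7,[true])),
   .conj .Y ((10,[false,true]),(5,[]),(7,[true])) ((12,[false,true]),(5,[]),(11,[true])),
   .conj .X ((12,[false,true]),(5,[]),(11,[true])) ((12,[false,true]),(6,[]),(11,[true])),
   .conj .Y ((12,[false,true]),(6,[]),(11,[true])) ((8,[false,true]),(4,[]),(0,[true])),
   .conj .X ((8,[false,true]),(4,[]),(0,[true])) ((7,[false,true]),(3,[]),(2,[])),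
   .conj .Y ((7,[false,true]),(3,[]),(2,[])) ((11,[false,true]),(9,[]),(3,[])),
   .conj .Y ((11,[false,true]),(9,[]),(3,[])) ((0,[false,true]),(2,[]),(9,[])),
   .conj .X ((0,[false,true]),(2,[]),(9,[])) ((1,[true]),(0,[true]),(10,[])),
   .conj .Y ((1,[true]),(0,[true]),(10,[])) ((6,[true]),(7,[true]),(12,[])),
   .conj .Y ((6,[true]),(7,[true]),(12,[])) ((4,[true]),(11,[true]),(8,[])),
   .conj .X ((4,[true]),(11,[true]),(8,[])) ((3,[true]),(11,[true]),(7,[])),
   .conj .Y ((3,[true]),(11,[true]),(7,[])) ((9,[true]),(0,[true]),(11,[])),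
   .conj .X ((9,[true]),(0,[true]),(11,[])) ((10,[true]),(2,[]),(11,[])),
   .conj .Y ((10,[true]),(2,[]),(11,[])) ((12,[true]),(3,[]),(0,[])),
   .conj .Y ((12,[true]),(3,[]),(0,[])) ((8,[true]),(9,[]),(7,[])),
   .conj .X ((8,[true]),(9,[]),(7,[])) ((7,[true]),(10,[]),(8,[])),
   .conj .Y ((7,[true]),(10,[]),(8,[])) ((11,[true]),(12,[]),(10,[])),
   .conj .Y ((11,[true]),(12,[]),(10,[])) ((0,[true]),(8,[]),(12,[])),
   .conj .X ((0,[true]),(8,[]),(12,[])) ((2,[]),(7,[]),(12,[])),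
   .inv ((2,[]),(7,[]),(12,[])),
   .conj .Y ((2,[]),(7,[]),(12,[])) ((3,[]),(11,[]),(8,[])),
   .conj (.C ((0,[false,true]),(2,[]),(9,[]))) ((2,[]),(7,[]),(12,[])) ((9,[]),(7,[]),(12,[])),
   .conj (.C ((6,[true]),(7,[true]),(12,[]))) ((7,[true]),(3,[]),(8,[])) ((12,[]),(3,[]),(8,[])),
   .conj (.C ((4,[true]),(11,[true]),(8,[]))) ((11,[true]),(12,[]),(10,[])) ((8,[]),(12,[]),(10,[])),
   .conj (.C ((3,[true]),(11,[true]),(7,[]))) ((11,[true]),(12,[]),(10,[])) ((7,[]),(12,[]),(10,[])),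
   .conj (.C ((9,[true]),(0,[true]),(11,[]))) ((0,[true]),(2,[]),(12,[])) ((11,[]),(2,[]),(12,[])),
   .conj (.C ((9,[true]),(0,[true]),(11,[]))) ((0,[true]),(8,[]),(12,[])) ((11,[]),(8,[]),(12,[])),
   .conj (.C ((10,[true]),(2,[]),(11,[]))) ((2,[]),(7,[]),(12,[])) ((11,[]),(7,[]),(12,[])),
   .conj (.C ((11,[true]),(12,[]),(10,[]))) ((2,[]),(7,[]),(12,[])) ((2,[]),(7,[]),(10,[])),
   .conj .Y ((2,[]),(12,[]),(7,[])) ((3,[]),(8,[]),(11,[])),
   .conj .X ((3,[]),(11,[]),(8,[])) ((4,[]),(11,[]),(7,[])),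
   .conj .Y ((3,[]),(11,[]),(8,[])) ((9,[]),(0,[]),(10,[])),
   .conj .X ((12,[]),(3,[]),(8,[])) ((12,[]),(4,[]),(7,[])),
   .conj .Y ((12,[]),(3,[]),(8,[])) ((8,[]),(9,[]),(10,[])),
   .inv ((8,[]),(12,[]),(10,[])),
   .conj .Y ((11,[]),(2,[]),(12,[])) ((0,[]),(3,[]),(8,[])),
   .conj .Y ((11,[]),(8,[]),(12,[])) ((0,[]),(10,[]),(8,[])),
   .conj .Y ((2,[]),(7,[]),(10,[])) ((3,[]),(11,[]),(12,[])),
   .conj (.C ((2,[]),(7,[]),(12,[]))) ((9,[]),(7,[]),(12,[])) ((9,[]),(12,[]),(2,[])),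
   .conj (.C ((2,[]),(7,[]),(12,[]))) ((11,[]),(8,[]),(12,[])) ((11,[]),(8,[]),(2,[])),
   .conj (.C ((2,[]),(12,[]),(7,[]))) ((12,[]),(3,[]),(8,[])) ((7,[]),(3,[]),(8,[])),
   .conj (.C ((2,[]),(12,[]),(7,[]))) ((8,[]),(12,[]),(10,[])) ((8,[]),(7,[]),(10,[])),
   .conj (.C ((9,[]),(7,[]),(12,[]))) ((2,[]),(7,[]),(12,[])) ((2,[]),(12,[]),(9,[])),
   .conj (.C ((12,[]),(3,[]),(8,[]))) ((2,[]),(12,[]),(7,[])) ((2,[]),(3,[]),(7,[])),
   .conj (.C ((11,[]),(2,[]),(12,[]))) ((3,[]),(11,[]),(8,[])) ((3,[]),(2,[]),(8,[])),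
   .conj (.C ((11,[]),(2,[]),(12,[]))) ((9,[]),(7,[]),(12,[])) ((9,[]),(7,[]),(11,[])),
   .conj (.C ((11,[]),(2,[]),(12,[]))) ((7,[]),(12,[]),(10,[])) ((7,[]),(11,[]),(10,[])),
   .conj (.C ((11,[]),(2,[]),(12,[]))) ((11,[]),(7,[]),(12,[])) ((2,[]),(7,[]),(11,[])),
   .conj (.C ((11,[]),(8,[]),(12,[]))) ((12,[]),(3,[]),(8,[])) ((11,[]),(3,[]),(12,[])),
   .conj .X ((3,[]),(8,[]),(11,[])) ((4,[]),(7,[]),(11,[])),
   .conj .Y ((4,[]),(11,[]),(7,[])) ((1,[]),(0,[]),(11,[])),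
   .conj .Y ((12,[]),(4,[]),(7,[])) ((8,[]),(1,[]),(11,[])),
   .conj .X ((8,[]),(7,[]),(10,[])) ((7,[]),(8,[]),(9,[])),
   .conj (.C ((12,[]),(3,[]),(8,[]))) ((2,[]),(12,[]),(9,[])) ((2,[]),(3,[]),(9,[])),
   .conj (.C ((4,[]),(11,[]),(7,[]))) ((2,[]),(3,[]),(7,[])) ((2,[]),(3,[]),(4,[])),
   .conj (.C ((4,[]),(11,[]),(7,[]))) ((7,[]),(11,[]),(10,[])) ((4,[]),(7,[]),(10,[])),
   .conj (.C ((4,[]),(11,[]),(7,[]))) ((2,[]),(7,[]),(11,[])) ((2,[]),(4,[]),(7,[])),
   .conj (.C ((9,[]),(0,[]),(10,[]))) ((9,[]),(7,[]),(11,[])) ((0,[]),(7,[]),(11,[])),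
   .conj (.C ((12,[]),(4,[]),(7,[]))) ((9,[]),(12,[]),(2,[])) ((9,[]),(4,[]),(2,[])),
   .conj (.C ((12,[]),(4,[]),(7,[]))) ((11,[]),(3,[]),(12,[])) ((11,[]),(3,[]),(4,[])),
   .conj (.C ((0,[]),(3,[]),(8,[]))) ((11,[]),(8,[]),(2,[])) ((11,[]),(0,[]),(2,[])),
   .conj (.C ((0,[]),(10,[]),(8,[]))) ((7,[]),(3,[]),(8,[])) ((7,[]),(3,[]),(0,[])),
   .conj (.C ((3,[]),(2,[]),(8,[]))) ((0,[]),(3,[]),(8,[])) ((0,[]),(2,[]),(3,[])),
   .conj .Y ((1,[]),(0,[]),(11,[])) ((6,[]),(7,[]),(0,[])),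
   .conj .Y ((8,[]),(1,[]),(11,[])) ((10,[]),(6,[]),(0,[])),
   .conj .Y ((4,[]),(7,[]),(10,[])) ((1,[]),(11,[]),(12,[])),
   .conj .Y ((2,[]),(4,[]),(7,[])) ((3,[]),(1,[]),(11,[])),
   .conj .Y ((9,[]),(4,[]),(2,[])) ((2,[]),(1,[]),(3,[])),
   .conj (.C ((4,[]),(11,[]),(7,[]))) ((7,[]),(3,[]),(0,[])) ((4,[]),(3,[]),(0,[])),
   .conj (.C ((4,[]),(7,[]),(11,[]))) ((1,[]),(0,[]),(11,[])) ((1,[]),(0,[]),(4,[])),
   .conj (.C ((1,[]),(0,[]),(11,[]))) ((11,[]),(3,[]),(4,[])) ((1,[]),(3,[]),(4,[])),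
   .conj (.C ((1,[]),(0,[]),(11,[]))) ((11,[]),(0,[]),(2,[])) ((1,[]),(11,[]),(2,[])),
   .conj .Y ((2,[]),(1,[]),(3,[])) ((3,[]),(6,[]),(9,[])),
   .conj (.C ((6,[]),(7,[]),(0,[]))) ((4,[]),(3,[]),(0,[])) ((4,[]),(3,[]),(6,[])),
   .conj (.C ((6,[]),(7,[]),(0,[]))) ((1,[]),(0,[]),(4,[])) ((1,[]),(6,[]),(4,[])),
   .conj .X ((3,[]),(6,[]),(9,[])) ((4,[]),(5,[]),(10,[])),
   .conj .X ((4,[]),(3,[]),(6,[])) ((3,[]),(4,[]),(5,[])),
   .conj (.C ((10,[]),(6,[]),(0,[]))) ((4,[]),(5,[]),(10,[])) ((4,[]),(5,[]),(6,[]))]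

def R (a b c : Fin 13) : Tri := ((a, []), (b, []), (c, []))

def targets : List Tri := [R 0 2 3, R 2 3 4, R 1 3 4, R 3 11 12, R 1 11 12, R 3 1 11, R 0 7 11,
  R 1 6 4, R 2 3 9, R 8 10 12, R 1 11 2, R 11 2 12, R 3 4 5, R 4 5 6, R 7 8 9, R 8 9 10]

def fin : Bool := match run steps [t0] with
  | some K => targets.all fun t => decide (t ∈ K)
  | none => false

lemma fin_true : fin = true := by decide +kernel

lemma good_all {N : Subgroup (Perm Ω)} (hN : ∀ g ∈ G, ∀ n ∈ N, g * n * g⁻¹ ∈ N) :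
    ∀ t ∈ targets, Good N t := by
  have h := fin_true
  rw [fin] at h
  split at h
  · rename_i K e
    intro t ht
    refine run_spec hN steps [t0] K (fun u hu => ?_) e t
      (of_decide_eq_true (List.all_eq_true.1 h t ht))
    rw [List.mem_singleton.1 hu, Good, cyc_eq tc0]
    refine ⟨tc0, ?_, Iff.rfl⟩
    rw [ev200]
    exact G.pow_mem (G.mul_mem (G.mul_mem (G.mul_mem xG yG) xG) (G.mul_mem yG yG)) _
  · simp at h

def wz : List Letter := [.X, .C (R 0 2 3), .C (R 2 3 4)]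
def wt : List Letter := [.X, .C (R 1 11 2), .C (R 11 2 12), .C (R 3 4 5), .C (R 4 5 6),
  .C (R 7 8 9), .C (R 8 9 10)]

lemma kill {N : Subgroup (Perm Ω)} (hN : ∀ g ∈ G, ∀ n ∈ N, g * n * g⁻¹ ∈ N) {k : ℕ}
    (hk : ∀ g ∈ G, g ^ (k + 1) ∈ N) : x ∈ N ∧ y ∈ N := by
  have hg := good_all hN
  simp only [targets, List.mem_cons, List.not_mem_nil, or_false, forall_eq_or_imp,
    forall_eq] at hg
  obtain ⟨g1, g2, g3, g4, g5, g6, g7, g8, g9, g10, g11, g12, g13, g14, g15, g16⟩ := hg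
  have okz : ∀ l ∈ wz, Ok l := by
    simp only [wz, List.mem_cons, List.not_mem_nil, or_false, forall_eq_or_imp, forall_eq]
    exact ⟨trivial, g1.1, g2.1⟩
  have zG : evW wz ∈ G := by
    simp only [wz, evW_cons]
    exact G.mul_mem xG (G.mul_mem g1.2.1 (G.mul_mem g2.2.1 G.one_mem))
  have z0 := actW_spec wz okz (c := (0, [])) (d := (0, [true])) (by decide)
  have z1 := actW_spec wz okz (c := (1, [])) (d := (0, [false])) (by decide)
  have zf : ∀ r : Fin 13, r = 3 ∨ r = 4 ∨ r = 11 ∨ r = 12 → ∀ j n,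
      (evW wz ^ j) (emb (r, []) n) = emb (r, []) n := by
    intro r hr j n
    refine Perm.pow_apply_eq_self_of_apply_eq_self ?_ j
    refine actW_spec wz okz ?_ n
    rcases hr with rfl | rfl | rfl | rfl <;> decide
  have zr : ∀ j n, ((evW wz ^ (j + 1)) (emb (1, []) n)).1 = 0 := by
    intro j n
    induction j with
    | zero => rw [zero_add, pow_one, z1]; rfl
    | succ j ih =>
      rw [pow_succ', Perm.mul_apply]
      generalize (evW wz ^ (j + 1)) (emb (1, []) n) = p at ih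
      obtain ⟨r, m⟩ := p
      simp only at ih
      subst ih
      exact congrArg Prod.fst (z0 m)
  generalize evW wz = z at zG zf zr
  have hs := IsCyc.conj g3.1 (z ^ (k + 1)) (fun _ => rfl) (zf 3 (by simp) _) (zf 4 (by simp) _)
  have hn : z ^ (k + 1) * cyc (R 1 3 4) * (z ^ (k + 1))⁻¹ * (cyc (R 1 3 4))⁻¹ ∈ N := by
    rw [mul_assoc, mul_assoc, ← mul_assoc (cyc _)]
    exact N.mul_mem (hk z zG) (hN _ g3.2.1 _ (N.inv_mem (hk z zG)))
  have hnG : z ^ (k + 1) * cyc (R 1 3 4) * (z ^ (k + 1))⁻¹ * (cyc (R 1 3 4))⁻¹ ∈ G :=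
    G.mul_mem (G.mul_mem (G.mul_mem (G.pow_mem zG _) g3.2.1) (G.inv_mem (G.pow_mem zG _)))
      (G.inv_mem g3.2.1)
  have key : ∀ r : Fin 13, r ≠ 0 → r ≠ 3 → r ≠ 4 → ∀ n,
      (z ^ (k + 1) * cyc (R 1 3 4) * (z ^ (k + 1))⁻¹) (emb (r, []) n) = emb (r, []) n := by
    intro r a b c n
    refine hs.fix _ (fun m e => a ?_) (fun m e => b ?_) (fun m e => c ?_)
    · exact (congrArg Prod.fst e).symm.trans (zr k m)
    · exact (congrArg Prod.fst e).symm
    · exact (congrArg Prod.fst e).symm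
  have key2 : ∀ r : Fin 13, r ≠ 1 → r ≠ 3 → r ≠ 4 → ∀ n,
      (cyc (R 1 3 4))⁻¹ (emb (r, []) n) = emb (r, []) n := by
    intro r a b c n
    refine (IsCyc.inv g3.1).fix _ (fun m e => a ?_) (fun m e => c ?_) (fun m e => b ?_) <;>
      exact (congrArg Prod.fst e).symm
  have h5 : TC (z ^ (k + 1) * cyc (R 1 3 4) * (z ^ (k + 1))⁻¹ * (cyc (R 1 3 4))⁻¹ *
      cyc (R 3 11 12) * (z ^ (k + 1) * cyc (R 1 3 4) * (z ^ (k + 1))⁻¹ * (cyc (R 1 3 4))⁻¹)⁻¹)
      (R 1 11 12) := by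
    refine IsCyc.conj g4.1 _ (fun n => ?_) (fun n => ?_) (fun n => ?_) <;> rw [Perm.mul_apply]
    · exact (congrArg _ ((IsCyc.inv g3.1).ca n)).trans (key 1 (by decide) (by decide) (by decide) n)
    · exact (congrArg _ (key2 11 (by decide) (by decide) (by decide) n)).trans
        (key 11 (by decide) (by decide) (by decide) n)
    · exact (congrArg _ (key2 12 (by decide) (by decide) (by decide) n)).trans
        (key 12 (by decide) (by decide) (by decide) n)
  generalize z ^ (k + 1) * cyc (R 1 3 4) * (z ^ (k + 1))⁻¹ * (cyc (R 1 3 4))⁻¹ = u at h5 hn hnG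
  have e1 := eqW_spec [.C (R 1 11 12)] [.C (R 3 1 11), .C (R 3 11 12)]
    (by simpa [Ok] using g5.1) (by simpa [Ok] using ⟨g6.1, g4.1⟩) (by decide)
  have e2 : cyc (R 3 1 11) = u * (cyc (R 3 11 12) * u⁻¹ * (cyc (R 3 11 12))⁻¹) := by
    simp only [evW, ev, List.map_cons, List.map_nil, List.prod_cons, List.prod_nil, mul_one] at e1
    rw [cyc_eq h5] at e1
    rw [← mul_assoc, ← mul_assoc, e1]; group
  have h0 : cyc t0 ∈ N := by
    rw [← g6.2.2, e2]
    exact N.mul_mem hn (hN _ g4.2.1 _ (N.inv_mem hn))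
  constructor
  · have okt : ∀ l ∈ wt, Ok l := by
      simp only [wt, List.mem_cons, List.not_mem_nil, or_false, forall_eq_or_imp, forall_eq]
      exact ⟨trivial, g11.1, g12.1, g13.1, g14.1, g15.1, g16.1⟩
    have e3 := eqW_spec [] (List.replicate 3 wt).flatten (by simp) (by
      intro l hl
      rw [List.mem_flatten] at hl
      obtain ⟨w, hw, hl⟩ := hl
      rw [List.eq_of_mem_replicate hw] at hl
      exact okt l hl) (by decide +kernel)
    rw [evW_rep, wt, evW_cons] at e3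
    have ht : evW [.C (R 1 11 2), .C (R 11 2 12), .C (R 3 4 5), .C (R 4 5 6),
        .C (R 7 8 9), .C (R 8 9 10)] ∈ N := by
      simp only [evW_cons]
      exact N.mul_mem (g11.2.2.2 h0) (N.mul_mem (g12.2.2.2 h0) (N.mul_mem (g13.2.2.2 h0)
        (N.mul_mem (g14.2.2.2 h0) (N.mul_mem (g15.2.2.2 h0) (N.mul_mem (g16.2.2.2 h0) N.one_mem)))))
    generalize evW [.C (R 1 11 2), .C (R 11 2 12), .C (R 3 4 5), .C (R 4 5 6),
        .C (R 7 8 9), .C (R 8 9 10)] = τ at ht e3
    change 1 = (x * τ) ^ 3 at e3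
    have xi : x⁻¹ = x := inv_eq_iff_mul_eq_one.2 xx
    have e4 : x = τ⁻¹ * (x * τ * x⁻¹)⁻¹ * τ⁻¹ := by
      rw [xi]
      calc x = τ⁻¹ * (x * τ * x)⁻¹ * (x * τ) ^ 3 * τ⁻¹ := by rw [pow_three]; group
        _ = _ := by rw [← e3, mul_one]
    rw [e4]
    exact N.mul_mem (N.mul_mem (N.inv_mem ht) (N.inv_mem (hN _ xG _ ht))) (N.inv_mem ht)
  · have e3 := eqW_spec [.Y] [.C (R 0 7 11), .C (R 1 6 4), .C (R 2 3 9), .C (R 8 10 12)]
      (by simp [Ok]) (by simpa [Ok] using ⟨g7.1, g8.1, g9.1, g10.1⟩) (by decide)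
    simp only [evW, ev, List.map_cons, List.map_nil, List.prod_cons, List.prod_nil, mul_one] at e3
    rw [e3]
    exact N.mul_mem (g7.2.2.2 h0) (N.mul_mem (g8.2.2.2 h0) (N.mul_mem (g9.2.2.2 h0) (g10.2.2.2 h0)))

lemma nf_of {P : Type} [Group P] (G : Subgroup P) (a b : G) (hgen : Subgroup.closure {a, b} = ⊤)
    (H : ∀ N : Subgroup P, (∀ g ∈ G, ∀ n ∈ N, g * n * g⁻¹ ∈ N) → ∀ k : ℕ,
      (∀ g ∈ G, g ^ (k + 1) ∈ N) → a.1 ∈ N ∧ b.1 ∈ N) (L : Subgroup G) (hL : L.FiniteIndex) :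
    L = ⊤ := by
  have hM : L.normalCore.FiniteIndex := inferInstance
  obtain ⟨k, hk⟩ := Nat.exists_eq_succ_of_ne_zero hM.index_ne_zero
  have h := H (L.normalCore.map G.subtype) (by
    rintro g hg _ ⟨n, hn, rfl⟩
    exact ⟨⟨g, hg⟩ * n * ⟨g, hg⟩⁻¹, Subgroup.Normal.conj_mem inferInstance n hn _, rfl⟩) k (by
    intro g hg
    refine ⟨⟨g, hg⟩ ^ (k + 1), ?_, rfl⟩
    rw [← Nat.succ_eq_add_one, ← hk]
    exact Subgroup.pow_index_mem _ _)
  obtain ⟨⟨a', ha, ea⟩, ⟨b', hb, eb⟩⟩ := h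
  rw [eq_top_iff, ← hgen, Subgroup.closure_le]
  rintro _ (rfl | rfl)
  · exact L.normalCore_le (by rwa [show _ = a' from Subtype.ext ea.symm])
  · exact L.normalCore_le (by rwa [show _ = b' from Subtype.ext eb.symm])

def x' : G := ⟨x, xG⟩
def y' : G := ⟨y, yG⟩

lemma gen' : Subgroup.closure {x', y'} = ⊤ := by
  have h := Subgroup.closure_closure_coe_preimage (k := ({x, y} : Set (Perm Ω)))
  refine eq_top_iff.2 (h.symm.le.trans ?_)
  apply Subgroup.closure_mono
  rintro ⟨g, hg⟩ (h | h)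
  · exact Or.inl (Subtype.ext h)
  · exact Or.inr (Subtype.ext h)

theorem hyp : Tutte.Hyp x' y' where
  hx := Subtype.ext xx
  hy := Subtype.ext yyy
  gen := gen'
  n0 := by
    rintro (h | h | h) <;> exact absurd (congrArg (fun g : G => (g.1 (3, 0)).1) h) (by decide)
  n1 := by
    rintro (h | h | h) <;> exact absurd (congrArg (fun g : G => (g.1 (11, 0)).1) h) (by decide)
  n2 := by
    rintro (h | h | h) <;> exact absurd (congrArg (fun g : G => (g.1 (11, 0)).1) h) (by decide)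
  rel := ⟨40 * 3, by norm_num, Subtype.ext (by
    have := IsCyc.cube tc0
    rw [ev200, ← pow_mul] at this
    rw [Subgroup.coe_pow, Subgroup.coe_mul, Subgroup.coe_mul, Subgroup.coe_mul, Subgroup.coe_mul,
      Subgroup.coe_one]
    exact this)⟩
  nf := nf_of G x' y' gen' fun _ hN _ hk => kill hN hk

end Pool.Agent.H23.V23
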