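import Mathlib

set_option autoImplicit false
set_option maxSynthPendingDepth 3

open Set Filter Topology

namespace Pool.Agent.H23.VD

section gen
variable {A : Type*} [TopologicalSpace A]

def E (S T : Set A) : Prop := ∃ f : A → A, ContinuousOn f S ∧ BijOn f S T

lemma E.refl (S : Set A) : E S S := ⟨id, continuousOn_id, bijOn_id S⟩

lemma E.trans {S T U : Set A} (h : E S T) (h' : E T U) : E S U := by
  obtain ⟨f, h1, h2⟩ := h
  obtain ⟨g, h3, h4⟩ := h'
  exact ⟨g ∘ f, h3.comp h1 h2.mapsTo, h4.comp h2⟩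

lemma un {f g : A → A} {S S' T T' : Set A} (hf : ContinuousOn f S) (bf : BijOn f S T)
    (hg : ContinuousOn g S') (bg : BijOn g S' T') (cS : IsClosed S) (cS' : IsClosed S')
    (dS : Disjoint S S') (dT : Disjoint T T') :
    ∃ F, ContinuousOn F (S ∪ S') ∧ BijOn F (S ∪ S') (T ∪ T') ∧ EqOn F f S := by
  classical
  have h1 : EqOn (S.piecewise f g) f S := piecewise_eqOn S f g
  have h2 : EqOn (S.piecewise f g) g S' := fun z hz =>
    piecewise_eq_of_notMem _ _ _ (disjoint_right.1 dS hz)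
  have b1 := bf.congr h1.symm
  have b2 := bg.congr h2.symm
  refine ⟨S.piecewise f g, (hf.congr h1).union_of_isClosed (hg.congr h2) cS cS',
    b1.union b2 ((injOn_union dS).2 ⟨b1.injOn, b2.injOn, fun z hz z' hz' he => ?_⟩), h1⟩
  exact disjoint_left.1 dT (b1.mapsTo hz) (he ▸ b2.mapsTo hz')

lemma E.union {S S' T T' : Set A} (h : E S T) (h' : E S' T') (cS : IsClosed S) (cS' : IsClosed S')
    (dS : Disjoint S S') (dT : Disjoint T T') : E (S ∪ S') (T ∪ T') := by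
  obtain ⟨f, h1, h2⟩ := h
  obtain ⟨g, h3, h4⟩ := h'
  obtain ⟨F, h5, h6, -⟩ := un h1 h2 h3 h4 cS cS' dS dT
  exact ⟨F, h5, h6⟩

omit [TopologicalSpace A] in
lemma layer {W : ℕ → Set A} {z : A} (h0 : z ∈ W 0) (h : ∃ n, z ∉ W n) :
    ∃ n, z ∈ W n \ W (n + 1) := by
  by_contra hc
  obtain ⟨n, hn⟩ := h
  refine hn ?_
  clear hn
  induction n with
  | zero => exact h0
  | succ n ih => by_contra h1; exact hc ⟨n, ih, h1⟩

omit [TopologicalSpace A] in
lemma layer_eq {W : ℕ → Set A} (hW : Antitone W) {z : A} {n m : ℕ} (hn : z ∈ W n \ W (n + 1))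
    (hm : z ∈ W m \ W (m + 1)) : n = m := by
  rcases lt_trichotomy n m with h | h | h
  · exact absurd (hW h hm.1) hn.2
  · exact h
  · exact absurd (hW h hn.1) hm.2

lemma glue [CompactSpace A] {W W' : ℕ → Set A} (hW : Antitone W) (hW' : Antitone W') {x y : A}
    (cW : ∀ n, IsClosed (W n)) (oW : ∀ n, ∀ z ∈ W n, W n ∈ 𝓝[W 0] z) (cW' : ∀ n, IsClosed (W' n))
    (hx : ∀ z, (∀ n, z ∈ W n) ↔ z = x) (hy : ∀ z, (∀ n, z ∈ W' n) ↔ z = y)
    (hE : ∀ n, E (W n \ W (n + 1)) (W' n \ W' (n + 1))) :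
    ∃ F, ContinuousOn F (W 0) ∧ BijOn F (W 0) (W' 0) ∧ F x = y := by
  classical
  choose f hf bf using hE
  let F : A → A := fun z => if h : ∃ n, z ∈ W n \ W (n + 1) then f h.choose z else y
  have h1 : ∀ n, EqOn F (f n) (W n \ W (n + 1)) := fun n z hz => by
    have h : ∃ n, z ∈ W n \ W (n + 1) := ⟨n, hz⟩
    simp only [F, dif_pos h]
    rw [layer_eq hW h.choose_spec hz]
  have hxW := (hx x).2 rfl
  have hyW := (hy y).2 rfl
  have h2 : F x = y := dif_neg (fun ⟨n, hn⟩ => hn.2 (hxW _))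
  have h3 : ∀ z ∈ W 0, z = x ∨ ∃ n, z ∈ W n \ W (n + 1) := fun z hz =>
    or_iff_not_imp_left.2 (fun h => layer hz (not_forall.1 (fun h' => h ((hx z).1 h'))))
  have h4 : ∀ n, ∀ z ∈ W n \ W (n + 1), F z ∈ W' n \ W' (n + 1) := fun n z hz =>
    h1 n hz ▸ (bf n).mapsTo hz
  have h5 : ∀ n, MapsTo F (W n) (W' n) := by
    intro n z hz
    rcases h3 z (hW (Nat.zero_le n) hz) with rfl | ⟨m, hm⟩
    · exact h2 ▸ hyW n
    · refine hW' (not_lt.1 fun hc => hm.2 (hW hc hz)) (h4 m z hm).1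
  refine ⟨F, fun z hz => ?_, ⟨h5 0, fun z hz z' hz' he => ?_, fun w hw => ?_⟩, h2⟩
  · rcases h3 z hz with rfl | ⟨m, hm⟩
    · intro V hV
      obtain ⟨n, hn⟩ := exists_subset_nhds_of_compactSpace (V := W') (U := V)
        hW'.directed_ge cW' (fun w hw => by rw [(hy w).1 (mem_iInter.1 hw), ← h2]; exact hV)
      exact mem_map.2 (mem_of_superset (oW n _ (hxW n)) (fun w hw => hn (h5 n hw)))
    · refine (((hf m).congr (h1 m)) z hm).mono_of_mem_nhdsWithin (inter_mem (oW m z hm.1) ?_)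
      exact mem_nhdsWithin_of_mem_nhds ((cW _).isOpen_compl.mem_nhds hm.2)
  · rcases h3 z hz with rfl | ⟨m, hm⟩ <;> rcases h3 z' hz' with rfl | ⟨m', hm'⟩
    · rfl
    · exact absurd (he ▸ h2 ▸ hyW _) (h4 _ _ hm').2
    · exact absurd (he ▸ h2 ▸ hyW _) (h4 _ _ hm).2
    · obtain rfl := layer_eq hW' (h4 _ _ hm) (he ▸ h4 _ _ hm')
      exact (bf m).injOn hm hm' (by rw [← h1 m hm, ← h1 m hm', he])
  · by_cases h : w = y
    · exact ⟨x, hxW 0, h2.trans h.symm⟩
    · obtain ⟨n, hn⟩ := layer hw (not_forall.1 (fun h' => h ((hy w).1 h')))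
      obtain ⟨z, hz, rfl⟩ := (bf n).surjOn hn
      exact ⟨z, hW (Nat.zero_le n) hz.1, h1 n hz⟩
end gen

/-- cuts of `K` between `a` and `b` -/
def I (K : Set ℝ) (a b : ℝ) : Set (ℝ → Bool) :=
  {D | (∀ k, D k = true → k ∈ K) ∧ (∀ k ∈ K, ∀ k', k ≤ k' → D k' = true → D k = true) ∧
    D a = true ∧ D b = false}

variable {K : Set ℝ}

lemma I_closed (a b : ℝ) : IsClosed (I K a b) := by
  have h : ∀ (k k' : ℝ) (p : Bool → Bool → Prop), IsClosed {D : ℝ → Bool | p (D k) (D k')} :=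
    fun k k' p => (isClosed_discrete {z : Bool × Bool | p z.1 z.2}).preimage
      (f := fun D : ℝ → Bool => (D k, D k')) (by fun_prop)
  have e : I K a b = (⋂ k, ⋂ k', {D : ℝ → Bool | (D k = true → k ∈ K) ∧
      (k ∈ K → k ≤ k' → D k' = true → D k = true)}) ∩ {D | D a = true ∧ D b = false} := by
    ext D
    simp only [I, mem_ofPred_eq, mem_inter_iff, mem_iInter]
    exact ⟨fun h => ⟨fun k k' => ⟨h.1 k, fun hk => h.2.1 k hk k'⟩, h.2.2⟩,
      fun h => ⟨fun k => (h.1 k k).1, fun k hk k' => (h.1 k k').2 hk, h.2⟩⟩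
  rw [e]
  exact (isClosed_iInter fun k => isClosed_iInter fun k' =>
    h k k' (fun s t => (s = true → k ∈ K) ∧ (k ∈ K → k ≤ k' → t = true → s = true))).inter
    (h a b (fun s t => s = true ∧ t = false))

lemma I_nhds {a b c d : ℝ} {D : ℝ → Bool} (h : D ∈ I K a b) : I K a b ∈ 𝓝[I K c d] D := by
  have h1 : IsOpen {D : ℝ → Bool | D a = true ∧ D b = false} :=
    (isOpen_discrete {z : Bool × Bool | z.1 = true ∧ z.2 = false}).preimage
      (f := fun D : ℝ → Bool => (D a, D b)) (by fun_prop)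
  filter_upwards [self_mem_nhdsWithin, mem_nhdsWithin_of_mem_nhds (h1.mem_nhds h.2.2)] with
    D' h2 h3
  exact ⟨h2.1, h2.2.1, h3⟩

lemma I.tt {a b k : ℝ} {D : ℝ → Bool} (h : D ∈ I K a b) (hk : k ∈ K) (hka : k ≤ a) :
    D k = true := h.2.1 k hk a hka h.2.2.1

lemma I.ff {a b k : ℝ} {D : ℝ → Bool} (h : D ∈ I K a b) (hb : b ∈ K) (hka : b ≤ k) :
    D k = false := by
  by_contra hc
  have := h.2.1 b hb k hka (by simpa using hc)
  rw [h.2.2.2] at this
  exact Bool.noConfusion this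

lemma I_mono {a b a' b' : ℝ} (ha : a ∈ K) (hb : b' ∈ K) (h1 : a ≤ a') (h2 : b' ≤ b) :
    I K a' b' ⊆ I K a b := fun _ h => ⟨h.1, h.2.1, I.tt h ha h1, I.ff h hb h2⟩

lemma I_disj {a b c d : ℝ} (hb : b ∈ K) (h : b ≤ c) : Disjoint (I K a b) (I K c d) :=
  disjoint_left.2 fun D h1 h2 => by
    have := I.ff h1 hb h
    rw [h2.2.2.1] at this
    exact Bool.noConfusion this

lemma I_split {a b c : ℝ} (ha : a ∈ K) (hb : b ∈ K) (h1 : a ≤ b) (h2 : b ≤ c) :
    I K a c = I K a b ∪ I K b c := by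
  refine Subset.antisymm (fun D h => ?_) (union_subset (fun D h => ⟨h.1, h.2.1, h.2.2.1,
    I.ff h hb h2⟩) (fun D h => ⟨h.1, h.2.1, I.tt h ha h1, h.2.2.2⟩))
  cases hD : D b
  · exact Or.inl ⟨h.1, h.2.1, h.2.2.1, hD⟩
  · exact Or.inr ⟨h.1, h.2.1, hD, h.2.2.2⟩

lemma I_diff {a b a' b' : ℝ} (ha : a ∈ K) (ha' : a' ∈ K) (hb' : b' ∈ K) (h1 : a ≤ a') (h2 : a' ≤ b')
    (h3 : b' ≤ b) : I K a b \ I K a' b' = I K a a' ∪ I K b' b := by
  rw [I_split ha ha' h1 (h2.trans h3), I_split ha' hb' h2 h3, union_sdiff_distrib, union_sdiff_distrib,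
    Set.sdiff_self, empty_union, (I_disj ha' le_rfl).sdiff_eq_left, (I_disj hb' le_rfl).sdiff_eq_right]

lemma I_self (a : ℝ) : I K a a = ∅ :=
  eq_empty_of_forall_notMem fun D h => by
    have := h.2.2.1
    rw [h.2.2.2] at this
    exact Bool.noConfusion this

/-- `K` contains the rationals and is invariant under rational translations -/
structure Inv (K : Set ℝ) : Prop where
  zero : 0 ∈ K
  add : ∀ k ∈ K, ∀ q : ℚ, k + q ∈ K

lemma Inv.rat (h : Inv K) (q : ℚ) : (q : ℝ) ∈ K := by simpa using h.add 0 h.zero q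

lemma Inv.sub (h : Inv K) {k : ℝ} (hk : k ∈ K) (q : ℚ) : k - q ∈ K := by
  simpa [sub_eq_add_neg] using h.add k hk (-q)

lemma Inv.one (h : Inv K) : 1 ∈ K := by simpa using h.rat 1

lemma tr_maps (h : Inv K) (a b : ℝ) (q : ℚ) :
    MapsTo (fun (D : ℝ → Bool) k => D (k - q)) (I K a b) (I K (a + q) (b + q)) := fun D hD =>
  ⟨fun k hk => by simpa using h.add _ (hD.1 _ hk) q,
    fun k hk k' hk' h1 => hD.2.1 _ (h.sub hk q) _ (by linarith) h1,
    by simpa using hD.2.2.1, by simpa using hD.2.2.2⟩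

lemma tr (h : Inv K) {a b a' b' : ℝ} (q : ℚ) (h1 : a' = a + q) (h2 : b' = b + q) :
    E (I K a b) (I K a' b') := by
  subst h1 h2
  refine ⟨_, Continuous.continuousOn (by fun_prop), tr_maps h a b q, fun D _ D' _ he => ?_,
    fun D hD => ⟨fun k => D (k - ((-q : ℚ) : ℝ)), by simpa using tr_maps h _ _ (-q) hD, ?_⟩⟩
  · funext k
    simpa using congrFun he (k + q)
  · funext k
    simp

lemma rot (h : Inv K) {a : ℝ} (ha : a ∈ K) {r : ℚ} (hr : 0 ≤ r) (c : ℚ) :
    E (I K a (a + r)) (I K c (c + r)) := by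
  rcases hr.eq_or_lt with rfl | hr
  · simp only [Rat.cast_zero, add_zero, I_self]
    exact E.refl _
  have hr' : (0 : ℝ) < r := by exact_mod_cast hr
  obtain ⟨q, h1, h2⟩ := exists_rat_btwn (show a < a + r by linarith)
  refine E.trans ?_ (tr h (a := q) (b := q + r) (c - q) (by push_cast; ring) (by push_cast; ring))
  rw [I_split ha (h.rat q) h1.le h2.le,
    I_split (h.rat q) (h.add a ha r) h2.le (show a + r ≤ q + r by linarith), union_comm (I K q _)]
  exact (tr h r rfl rfl).union (E.refl _) (I_closed _ _) (I_closed _ _) (I_disj (h.rat q) le_rfl)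
    (I_disj (h.add a ha r) le_rfl).symm

lemma ring_E (h : Inv K) {a a' : ℝ} {r r' : ℚ} (ha : a ∈ K) (ha' : a' ∈ K) (h1 : a ≤ a')
    (h2 : 0 ≤ r') (h3 : a' + r' ≤ a + r) :
    E (I K a (a + r) \ I K a' (a' + r')) (I K 0 r \ I K 0 r') := by
  have h2' : (0 : ℝ) ≤ r' := by exact_mod_cast h2
  have h4 : (r' : ℝ) ≤ r := by linarith
  rw [I_diff ha ha' (h.add _ ha' _) h1 (by linarith) h3,
    I_diff h.zero h.zero (h.rat _) le_rfl h2' h4, I_self, empty_union]
  have h5 := rot h ha (r := r - r') (by exact_mod_cast sub_nonneg.2 h4) r'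
  rw [I_split ha ha' h1 (by push_cast; linarith)] at h5
  refine E.trans ((E.refl _).union (tr h (a' := a') (b' := a + (r - r' : ℚ)) (-r') (by simp) (by push_cast; ring)) (I_closed _ _)
    (I_closed _ _) (I_disj ha' (by linarith)) (I_disj ha' le_rfl)) (by simpa using h5)

open Classical in
/-- the point `0⁺` -/
noncomputable def o (K : Set ℝ) : ℝ → Bool := fun k => decide (k ∈ K ∧ k ≤ 0)

open Classical in
lemma o_mem (h : Inv K) {b : ℝ} (hb : 0 < b) : o K ∈ I K 0 b :=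
  ⟨fun k hk => (of_decide_eq_true hk).1, fun k hk k' h1 h2 =>
    decide_eq_true ⟨hk, h1.trans (of_decide_eq_true h2).2⟩, decide_eq_true ⟨h.zero, le_rfl⟩,
    decide_eq_false fun h1 => absurd h1.2 (not_le.2 hb)⟩

lemma uniq {a b : ℕ → ℝ} {z : ℝ} (hb : ∀ n, b n ∈ K) (ta : Tendsto a atTop (𝓝 z))
    (tb : Tendsto b atTop (𝓝 z)) (hz : z ∈ K → ∃ n, a n = z ∨ b n = z) {D : ℝ → Bool}
    (hD : ∀ n, D ∈ I K (a n) (b n)) (D' : ℝ → Bool) : (∀ n, D' ∈ I K (a n) (b n)) ↔ D' = D := by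
  refine ⟨fun hD' => funext fun k => ?_, fun h => h ▸ hD⟩
  by_cases hk : k ∈ K
  · have : ∃ n, k ≤ a n ∨ b n ≤ k := by
      rcases lt_trichotomy k z with h | rfl | h
      · exact (ta.eventually (eventually_ge_nhds h)).exists.imp fun n => Or.inl
      · exact (hz hk).imp fun n => Or.imp Eq.ge Eq.le
      · exact (tb.eventually (eventually_le_nhds h)).exists.imp fun n => Or.inr
    obtain ⟨n, h | h⟩ := this
    · rw [I.tt (hD n) hk h, I.tt (hD' n) hk h]
    · rw [I.ff (hD n) (hb n) h, I.ff (hD' n) (hb n) h]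
  · rw [Bool.eq_false_iff.2 fun h => hk ((hD 0).1 k h),
      Bool.eq_false_iff.2 fun h => hk ((hD' 0).1 k h)]

lemma hom_aux (h : Inv K) {a : ℕ → ℝ} {r : ℕ → ℚ} {z : ℝ} (ha : ∀ n, a n ∈ K) (ma : Monotone a)
    (mb : Antitone fun n => a n + r n) (h0 : 0 ≤ a 0) (h1 : a 0 + r 0 ≤ 1)
    (ta : Tendsto a atTop (𝓝 z)) (tb : Tendsto (fun n => a n + r n) atTop (𝓝 z))
    (hz : z ∈ K → ∃ n, a n = z ∨ a n + r n = z) {D : ℝ → Bool}
    (hD : ∀ n, D ∈ I K (a n) (a n + r n)) :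
    ∃ F, ContinuousOn F (I K 0 1) ∧ BijOn F (I K 0 1) (I K 0 1) ∧ F D = o K := by
  have hr : ∀ n, (0 : ℝ) < r n := fun n => by
    by_contra hc
    have := I.ff (hD n) (h.add _ (ha n) _) (show a n + r n ≤ a n by linarith)
    rw [(hD n).2.2.1] at this
    exact Bool.noConfusion this
  have hr' : ∀ n, 0 ≤ r n := fun n => by exact_mod_cast (hr n).le
  have mr : Antitone fun n => (r n : ℝ) := fun n m hnm => by
    have := ma hnm
    have := mb hnm
    simp only at *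
    linarith
  have tr0 : Tendsto (fun n => (r n : ℝ)) atTop (𝓝 0) := by simpa using tb.sub ta
  obtain ⟨F, f1, f2, f3⟩ := glue (W := fun n => I K (a n) (a n + r n)) (W' := fun n => I K 0 (r n))
    (fun n m hnm => I_mono (ha n) (h.add _ (ha m) _) (ma hnm) (mb hnm))
    (fun n m hnm => I_mono h.zero (h.rat _) le_rfl (mr hnm)) (fun n => I_closed _ _)
    (fun n z hz => I_nhds hz) (fun n => I_closed _ _)
    (uniq (fun n => h.add _ (ha n) _) ta tb hz hD)
    (uniq (fun n => h.rat _) tendsto_const_nhds tr0 (fun _ => ⟨0, Or.inl rfl⟩)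
      (fun n => o_mem h (hr n)))
    (fun n => ring_E h (ha n) (ha _) (ma n.le_succ) (hr' _) (mb n.le_succ))
  obtain ⟨G, g1, g2⟩ := ring_E h (r := 1) h.zero (ha 0) h0 (hr' 0) (by simpa using h1)
  simp only [Rat.cast_one, zero_add] at g1 g2
  obtain ⟨H, k1, k2, k3⟩ := un f1 f2 g1 g2 (I_closed _ _) (by
    rw [I_diff h.zero (ha 0) (h.add _ (ha 0) _) h0 (by linarith [hr 0]) h1]
    exact (I_closed _ _).union (I_closed _ _)) disjoint_sdiff_right disjoint_sdiff_right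
  rw [union_sdiff_cancel (I_mono h.zero (h.add _ (ha 0) _) h0 h1)] at k1 k2
  rw [union_sdiff_cancel (I_mono h.zero (h.rat _) le_rfl (by linarith))] at k2
  exact ⟨H, k1, k2, (k3 (hD 0)).trans f3⟩

/-- the real number under a cut -/
noncomputable def pr (D : ℝ → Bool) : ℝ := sSup {k | D k = true}

lemma pr_bdd (h : Inv K) {D : ℝ → Bool} (hD : D ∈ I K 0 1) : 1 ∈ upperBounds {k | D k = true} :=
  fun k hk => not_lt.1 fun hc => by
    have := I.ff hD h.one hc.le
    rw [hk] at this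
    exact Bool.noConfusion this

lemma le_pr (h : Inv K) {D : ℝ → Bool} (hD : D ∈ I K 0 1) {k : ℝ} (hk : D k = true) : k ≤ pr D :=
  le_csSup ⟨1, pr_bdd h hD⟩ hk

lemma lt_pr {D : ℝ → Bool} (hD : D ∈ I K 0 1) {k : ℝ} (hk : k ∈ K) (h1 : k < pr D) :
    D k = true := by
  obtain ⟨k', h2, h3⟩ := exists_lt_of_lt_csSup (s := {k | D k = true}) ⟨0, hD.2.2.1⟩ h1
  exact hD.2.1 k hk k' h3.le h2

lemma pr_lt (h : Inv K) {D : ℝ → Bool} (hD : D ∈ I K 0 1) {k : ℝ} (h1 : pr D < k) :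
    D k = false := Bool.eq_false_iff.2 fun hc => absurd (le_pr h hD hc) (not_le.2 h1)

lemma pr_le {D : ℝ → Bool} (hD : D ∈ I K 0 1) {k : ℝ} (hk : k ∈ K) (h1 : D k = false) :
    pr D ≤ k := not_lt.1 fun hc => by
  rw [lt_pr hD hk hc] at h1
  exact Bool.noConfusion h1

theorem hom (h : Inv K) {D : ℝ → Bool} (hD : D ∈ I K 0 1) :
    ∃ F, ContinuousOn F (I K 0 1) ∧ BijOn F (I K 0 1) (I K 0 1) ∧ F D = o K := by
  have h0 := le_pr h hD hD.2.2.1
  have h1 := pr_le hD h.one hD.2.2.2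
  have tw : ∀ c : ℚ, 0 < c → Antitone (fun n : ℕ => ((c * (1 / (n + 1)) : ℚ) : ℝ)) ∧
      Tendsto (fun n : ℕ => ((c * (1 / (n + 1)) : ℚ) : ℝ)) atTop (𝓝 0) ∧
      ∀ n : ℕ, 0 < ((c * (1 / (n + 1)) : ℚ) : ℝ) := by
    intro c hc
    have hc' : (0 : ℝ) < c := by exact_mod_cast hc
    push_cast
    refine ⟨fun n m hnm => mul_le_mul_of_nonneg_left (Nat.one_div_le_one_div hnm) hc'.le, ?_,
      fun n => by positivity⟩
    simpa using tendsto_one_div_add_atTop_nhds_zero_nat.const_mul (c : ℝ)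
  by_cases hz : pr D ∈ K
  · cases hDz : D (pr D)
    · have h2 : 0 < pr D := h0.lt_of_ne fun he => by
        rw [← he, hD.2.2.1] at hDz
        exact Bool.noConfusion hDz
      obtain ⟨c, c1, c2⟩ := exists_rat_btwn h2
      obtain ⟨t1, t2, t3⟩ := tw c (by exact_mod_cast c1)
      refine hom_aux h (a := fun n => pr D - (c * (1 / (n + 1)) : ℚ)) (z := pr D)
        (r := fun n => c * (1 / (n + 1))) (fun n => h.sub hz _)
        (fun n m hnm => sub_le_sub_left (t1 hnm) _) (fun n m _ => by simp) (by simpa using c2.le)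
        (by simpa using h1) (by simpa using t2.const_sub (pr D)) (by simp)
        (fun _ => ⟨0, Or.inr (by simp)⟩) (fun n => ⟨hD.1, hD.2.1,
          lt_pr hD (h.sub hz _) (by linarith [t3 n]), by simpa using hDz⟩)
    · have h2 : 0 < 1 - pr D := sub_pos.2 (h1.lt_of_ne fun he => by
        rw [he, hD.2.2.2] at hDz
        exact Bool.noConfusion hDz)
      obtain ⟨c, c1, c2⟩ := exists_rat_btwn h2
      obtain ⟨t1, t2, t3⟩ := tw c (by exact_mod_cast c1)
      refine hom_aux h (a := fun _ => pr D) (z := pr D)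
        (r := fun n => c * (1 / (n + 1))) (fun n => hz) monotone_const
        (fun n m hnm => add_le_add_right (t1 hnm) _) h0 (by simp; linarith)
        tendsto_const_nhds (by simpa using t2.const_add (pr D))
        (fun _ => ⟨0, Or.inl rfl⟩) (fun n => ⟨hD.1, hD.2.1, hDz, pr_lt h hD (by linarith [t3 n])⟩)
  · obtain ⟨u, u1, u2, u3⟩ := Real.exists_seq_rat_strictMono_tendsto (pr D)
    obtain ⟨v, v1, v2, v3⟩ := Real.exists_seq_rat_strictAnti_tendsto (pr D)
    have h2 : 0 < pr D := h0.lt_of_ne fun he => hz (he ▸ h.zero)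
    have h3 : pr D < 1 := h1.lt_of_ne fun he => hz (he ▸ h.one)
    have e : ∀ n, ((max 0 (u n) : ℚ) : ℝ) + (min 1 (v n) - max 0 (u n) : ℚ) = min 1 (v n : ℝ) :=
      fun n => by push_cast; ring
    refine hom_aux h (a := fun n => (max 0 (u n) : ℚ)) (z := pr D)
      (r := fun n => min 1 (v n) - max 0 (u n)) (fun n => h.rat _)
      (fun n m hnm => Rat.cast_le.2 (max_le_max_left _ (u1.monotone hnm))) ?_ (by simp)
      (by rw [e]; simp) ?_ ?_ (fun h' => absurd h' hz) (fun n => ⟨hD.1, hD.2.1,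
        lt_pr hD (h.rat _) (by push_cast; exact max_lt h2 (u2 n)),
        pr_lt h hD (by rw [e]; exact lt_min h3 (v2 n))⟩)
    · intro n m hnm
      simp only [e]
      exact min_le_min_left _ (Rat.cast_le.2 (v1.antitone hnm))
    · simpa [max_eq_right h0] using (tendsto_const_nhds (x := (0 : ℝ))).max u3
    · simp only [e]
      simpa [min_eq_right h1] using (tendsto_const_nhds (x := (1 : ℝ))).min v3

end Pool.Agent.H23.VD
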