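import Pool.Agent.H23.VD1

set_option autoImplicit false
set_option maxSynthPendingDepth 3

open Set Filter Topology Cardinal MeasureTheory

namespace Pool.Agent.H23.VD

/-- `x` is a witness against `φ` -/
def Wit (φ : ℝ → ℝ) (x : ℝ) : Prop :=
  x ∈ Ioo (0 : ℝ) 1 ∧ ContinuousAt φ x ∧ φ x - x ∉ range ((↑) : ℚ → ℝ)

theorem exists_K : ∃ K : Set ℝ, Inv K ∧ ∀ φ : ℝ → ℝ, (∀ x, ContinuousWithinAt φ (Iic x) x) →
    (∀ T : Set ℝ, #T < 𝔠 → ∃ x, Wit φ x ∧ x ∉ T ∧ φ x ∉ T) → ∃ x, Wit φ x ∧ x ∈ K ∧ φ x ∉ K := by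
  classical
  let ι := {φ : ℝ → ℝ // (∀ x, ContinuousWithinAt φ (Iic x) x) ∧
    ∀ T : Set ℝ, #T < 𝔠 → ∃ x, Wit φ x ∧ x ∉ T ∧ φ x ∉ T}
  have hι : #ι ≤ 𝔠 := by
    refine (mk_le_of_injective (f := fun (φ : ι) (q : ℚ) => φ.1 q) fun φ ψ he => ?_).trans
      (by simp [mk_real])
    refine Subtype.ext (funext fun x => ?_)
    obtain ⟨u, -, u2, u3⟩ := Real.exists_seq_rat_strictMono_tendsto x
    have hu : Tendsto (fun n => (u n : ℝ)) atTop (𝓝[Iic x] x) :=
      tendsto_nhdsWithin_iff.2 ⟨u3, Eventually.of_forall fun n => (u2 n).le⟩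
    exact tendsto_nhds_unique ((φ.2.1 x).tendsto.comp hu)
      (((ψ.2.1 x).tendsto.comp hu).congr fun n => (congrFun he (u n)).symm)
  rw [← mk_ord_toType 𝔠] at hι
  obtain ⟨e⟩ := (Cardinal.le_def _ _).1 hι
  let r : ι → ι → Prop := fun i j => e i < e j
  have hr : WellFounded r := InvImage.wf e wellFounded_lt
  have hstep : ∀ j (g : ∀ i, r i j → ℝ), ∃ x, Wit j.1 x ∧ (∀ q : ℚ, j.1 x + q ≠ 0) ∧
      ∀ i (h : r i j) (q : ℚ), i.1 (g i h) + q ≠ x ∧ j.1 x + q ≠ g i h := by
    intro j g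
    have h2 : #{i // r i j} < 𝔠 := by
      refine lt_of_le_of_lt (mk_le_of_injective
        (f := fun i : {i // r i j} => (⟨e i.1, i.2⟩ : Iio (e j)))
        (fun x y hxy => Subtype.ext (e.injective (congrArg Subtype.val hxy)))) ?_
      have h1 : #(Iio (e j)) < 𝔠 := by simpa using mk_Iio_lt (e j)
      exact h1
    obtain ⟨x, h3, h4, h5⟩ := j.2.2 (image2 (· + ·) (insert 0 (range (fun i : {i // r i j} =>
      g i.1 i.2) ∪ range (fun i : {i // r i j} => i.1.1 (g i.1 i.2)))) (range ((↑) : ℚ → ℝ))) (by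
        refine mk_image2_le.trans_lt (mul_lt_of_lt aleph0_le_continuum (mk_insert_le.trans_lt
          (add_lt_of_lt aleph0_le_continuum ((mk_union_le _ _).trans_lt (add_lt_of_lt
            aleph0_le_continuum (mk_range_le.trans_lt h2) (mk_range_le.trans_lt h2)))
            (one_lt_aleph0.trans aleph0_lt_continuum))) ?_)
        exact (countable_range _).le_aleph0.trans_lt aleph0_lt_continuum)
    refine ⟨x, h3, fun q hq => h5 ⟨0, Or.inl rfl, _, ⟨-q, rfl⟩, by push_cast; linarith⟩,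
      fun i h q => ⟨fun hq => h4 ⟨_, Or.inr (Or.inr ⟨⟨i, h⟩, rfl⟩), _, ⟨q, rfl⟩, hq⟩,
        fun hq => h5 ⟨_, Or.inr (Or.inl ⟨⟨i, h⟩, rfl⟩), _, ⟨-q, rfl⟩, by push_cast; linarith⟩⟩⟩
  choose F hF1 hF2 hF3 using hstep
  let x : ι → ℝ := hr.fix F
  have hx : ∀ j, x j = F j (fun i _ => x i) := fun j => hr.fix_eq F j
  refine ⟨{y | ∀ (i : ι) (q : ℚ), i.1 (x i) + q ≠ y}, ⟨fun i q => hx i ▸ hF2 _ _ q,
    fun k hk q i q' he => hk i (q' - q) (by push_cast; linarith)⟩, fun φ h1 h2 => ?_⟩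
  have hw : Wit φ (x ⟨φ, h1, h2⟩) := hx _ ▸ hF1 ⟨φ, h1, h2⟩ _
  refine ⟨_, hw, fun i q he => ?_, fun h => h ⟨φ, h1, h2⟩ 0 (by simp)⟩
  rcases lt_trichotomy (e i) (e ⟨φ, h1, h2⟩) with h | h | h
  · exact (hF3 ⟨φ, h1, h2⟩ (fun i _ => x i) i h q).1 (he.trans (hx _))
  · obtain rfl := e.injective h
    exact hw.2.2 ⟨-q, by push_cast; linarith⟩
  · exact (hF3 i (fun i _ => x i) _ h q).2 (by rw [← hx]; exact he)

variable {K : Set ℝ}

open Classical in
noncomputable def pt (h : Inv K) (b : Bool) (x : ℝ) : I K 0 1 :=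
  ⟨fun k => decide (k ∈ K ∧ (k < x ∨ (b = true ∧ k = x) ∨ k ≤ 0) ∧ k < 1), fun k => by simp; tauto,
    fun k hk k' h1 => by
      simp only [decide_eq_true_eq]
      rintro ⟨-, h2, h3⟩
      refine ⟨hk, ?_, h1.trans_lt h3⟩
      rcases h2 with h2 | ⟨h2, rfl⟩ | h2
      · exact Or.inl (h1.trans_lt h2)
      · exact h1.lt_or_eq.imp_right fun h4 => Or.inl ⟨h2, h4⟩
      · exact Or.inr (Or.inr (h1.trans h2)), by simp [h.zero], by simp⟩

lemma pt_left (h : Inv K) (x : ℝ) : Tendsto (pt h false) (𝓝[≤] x) (𝓝 (pt h false x)) := by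
  refine tendsto_subtype_rng.2 (tendsto_pi_nhds.2 fun k => tendsto_const_nhds.congr' ?_)
  rcases lt_or_ge k x with h1 | h1
  · filter_upwards [mem_nhdsWithin_of_mem_nhds (Ioi_mem_nhds h1)] with y hy
    simp [pt, h1, show k < y from hy]
  · filter_upwards [self_mem_nhdsWithin] with y hy
    simp [pt, not_lt.2 h1, not_lt.2 (le_trans hy h1)]

lemma pt_right (h : Inv K) (b : Bool) (x : ℝ) :
    Tendsto (pt h b) (𝓝[>] x) (𝓝 (pt h true x)) := by
  refine tendsto_subtype_rng.2 (tendsto_pi_nhds.2 fun k => tendsto_const_nhds.congr' ?_)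
  rcases le_or_gt k x with h1 | h1
  · filter_upwards [self_mem_nhdsWithin] with y hy
    have : k < x ∨ k = x ∨ k ≤ 0 := h1.lt_or_eq.imp_right Or.inl
    simp [pt, this, h1.trans_lt hy]
  · filter_upwards [mem_nhdsWithin_of_mem_nhds (Iio_mem_nhds h1)] with y hy
    have hy' : y < k := hy
    simp [pt, not_lt.2 h1.le, not_lt.2 hy'.le, h1.ne', hy'.ne']

lemma pr_pt (h : Inv K) (b : Bool) {x : ℝ} (hx : x ∈ Ioo (0 : ℝ) 1) : pr (pt h b x).1 = x := by
  refine le_antisymm (le_of_forall_gt_imp_ge_of_dense fun y hy => ?_)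
    (le_of_forall_lt_imp_le_of_dense fun y hy => ?_)
  · obtain ⟨q, h1, h2⟩ := exists_rat_btwn hy
    refine (pr_le (pt h b x).2 (h.rat q) ?_).trans h2.le
    simp [pt, not_lt.2 h1.le, h1.ne', not_le.2 (hx.1.trans h1)]
  · obtain ⟨q, h1, h2⟩ := exists_rat_btwn hy
    refine h1.le.trans (le_pr h (pt h b x).2 ?_)
    simp [pt, h.rat, h2, h2.trans hx.2]

lemma pt_ne (h : Inv K) {x : ℝ} (hx : x ∈ Ioo (0 : ℝ) 1) (hK : x ∈ K) :
    pt h false x ≠ pt h true x := fun he => by
  have := congrFun (congrArg Subtype.val he) x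
  simp [pt, hK, hx.2, not_le.2 hx.1] at this

lemma pr_cont (h : Inv K) : Continuous fun D : I K 0 1 => pr D.1 := by
  have hc : ∀ (k : ℝ) (D : I K 0 1), ∀ᶠ D' in 𝓝 D, D'.1 k = D.1 k := fun k D =>
    ((continuous_apply k).comp continuous_subtype_val).continuousAt.eventually
      ((isOpen_discrete {D.1 k}).mem_nhds rfl)
  refine continuous_iff_continuousAt.2 fun D => tendsto_order.2 ⟨fun a ha => ?_, fun a ha => ?_⟩
  · obtain ⟨q, h1, h2⟩ := exists_rat_btwn ha
    filter_upwards [hc q D] with D' h3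
    exact h1.trans_le (le_pr h D'.2 (h3.trans (lt_pr D.2 (h.rat q) h2)))
  · obtain ⟨q, h1, h2⟩ := exists_rat_btwn ha
    filter_upwards [hc q D] with D' h3
    exact (pr_le D'.2 (h.rat q) (h3.trans (pr_lt h D.2 h1))).trans_lt h2

lemma fiber (h : Inv K) {D D' : I K 0 1} (h1 : pr D.1 = pr D'.1)
    (h2 : pr D.1 ∈ K → D.1 (pr D.1) = D'.1 (pr D.1)) : D = D' := by
  refine Subtype.ext (funext fun k => ?_)
  by_cases hk : k ∈ K
  · rcases lt_trichotomy k (pr D.1) with h3 | rfl | h3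
    · rw [lt_pr D.2 hk h3, lt_pr D'.2 hk (h1 ▸ h3)]
    · exact h2 hk
    · rw [pr_lt h D.2 h3, pr_lt h D'.2 (h1 ▸ h3)]
  · rw [Bool.eq_false_iff.2 fun h => hk (D.2.1 k h), Bool.eq_false_iff.2 fun h => hk (D'.2.1 k h)]

lemma small {N : Set ℝ} (hN : MeasurableSet N) (h : #N < 𝔠) : N.Countable := by
  by_contra hc
  have := hN.standardBorel
  have e := PolishSpace.measurableEquivOfNotCountable (α := N) (β := ℝ)
    (by rwa [countable_coe_iff]) (by simp)
  rw [mk_congr e.toEquiv, mk_real] at h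
  exact lt_irrefl _ h

theorem rigid (h : Inv K) (hK : ∀ φ : ℝ → ℝ, (∀ x, ContinuousWithinAt φ (Iic x) x) →
    (∀ T : Set ℝ, #T < 𝔠 → ∃ x, Wit φ x ∧ x ∉ T ∧ φ x ∉ T) → ∃ x, Wit φ x ∧ x ∈ K ∧ φ x ∉ K)
    (s : I K 0 1 → I K 0 1) (hs : Continuous s) (hi : Function.Injective s) {t : ℝ} (ht : 0 < t) :
    ∃ D, pr (s D).1 < t := by
  by_contra! hc
  obtain ⟨φ, hφ⟩ : ∃ φ : Bool → ℝ → ℝ, ∀ b x, φ b x = pr (s (pt h b x)).1 := ⟨_, fun _ _ => rfl⟩
  have hφ' : ∀ b, φ b = (fun D => pr (s D).1) ∘ pt h b := fun b => funext (hφ b)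
  have hP : Continuous fun D => pr (s D).1 := (pr_cont h).comp hs
  have hl : ∀ x, ContinuousWithinAt (φ false) (Iic x) x := fun x => by
    rw [hφ']; exact (hP.tendsto _).comp (pt_left h x)
  have hr : ∀ b x, Tendsto (φ b) (𝓝[>] x) (𝓝 (φ true x)) := fun b x => by
    rw [hφ, hφ']; exact (hP.tendsto _).comp (pt_right h b x)
  have hc1 : ∀ x, ContinuousAt (φ false) x ↔ φ true x = φ false x := fun x =>
    ⟨fun h1 => tendsto_nhds_unique (hr false x) (h1.tendsto.mono_left nhdsWithin_le_nhds),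
      fun h1 => continuousAt_iff_continuous_left_right.2 ⟨hl x,
        continuousWithinAt_Ioi_iff_Ici.1 (by rw [ContinuousWithinAt, ← h1]; exact hr false x)⟩⟩
  have hJ : {x | ¬ ContinuousAt (φ false) x}.Countable := by
    have h1 : ∀ ε > (0 : ℝ), {x | ε < |φ true x - φ false x|}.Countable := by
      intro ε hε
      refine (countable_setOfPred_isolated_right_within
        (s := {x | ε < |φ true x - φ false x|})).mono fun x hx => And.intro hx ?_
      have h2 := (((hr true x).sub (hr false x)).abs).eventually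
        (eventually_lt_nhds (show |φ true x - φ true x| < ε by simpa using hε))
      rw [← empty_mem_iff_bot]
      filter_upwards [nhdsWithin_mono x inter_subset_right h2, self_mem_nhdsWithin] with y h3 h4
      exact lt_asymm h3 h4.1
    refine (countable_iUnion fun n : ℕ => h1 (1 / (n + 1)) (by positivity)).mono fun x hx => ?_
    exact mem_iUnion.2 (exists_nat_one_div_lt (abs_pos.2 (sub_ne_zero.2 fun h2 =>
      hx ((hc1 x).2 h2))))
  have hm : Measurable (φ false) := measurable_of_countable_not_continuousAt hJ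
  have hC : MeasurableSet {x | ContinuousAt (φ false) x} := MeasurableSet.of_compl hJ.measurableSet
  have hN : {x | Wit (φ false) x}.Countable := by
    refine small (measurableSet_Ioo.inter (hC.inter ((hm.sub measurable_id)
        (countable_range _).measurableSet.compl))) ?_
    by_contra hc2
    obtain ⟨x, h1, h2, h3⟩ := hK _ hl (fun T hT => by
      by_contra! h4
      apply hc2
      refine lt_of_le_of_lt (mk_le_mk_of_subset (t := T ∪ {x ∈ Ioo (0 : ℝ) 1 | φ false x ∈ T})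
        fun x hx => or_iff_not_imp_left.2 fun h5 => ⟨hx.1, h4 x hx h5⟩) ((mk_union_le _ _).trans_lt
          (add_lt_of_lt aleph0_le_continuum hT (lt_of_le_of_lt (mk_le_of_injective
            (f := fun x : {x ∈ Ioo (0 : ℝ) 1 | φ false x ∈ T} => ((⟨_, x.2.2⟩,
              (s (pt h false x)).1 (φ false x)) : T × Bool)) fun x y he => ?_) ?_)))
      · have h5 : φ false x = φ false y := congrArg (fun p : T × Bool => p.1.1) he
        have h6 := congrArg Prod.snd he
        have h7 := hi (fiber h (D := s (pt h false x)) (D' := s (pt h false y))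
          (by rw [← hφ, ← hφ, h5]) fun _ => by rw [← hφ]; exact h6.trans (by rw [h5]))
        exact Subtype.ext (by rw [← pr_pt h false x.2.1, h7, pr_pt h false y.2.1])
      · rw [mk_prod, lift_id, lift_id]
        exact mul_lt_of_lt aleph0_le_continuum hT (mk_le_aleph0.trans_lt aleph0_lt_continuum))
    exact pt_ne h h1.1 h2 (hi (fiber h (by rw [← hφ, ← hφ, (hc1 x).1 h1.2.1])
      fun h4 => absurd (hφ false x ▸ h4) h3))
  let G : ℚ → Set ℝ := fun q => {x ∈ Ioo (0 : ℝ) 1 | ContinuousAt (φ false) x ∧ φ false x = x + q}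
  have hG : ∀ q, MeasurableSet (G q) := fun q => measurableSet_Ioo.inter (hC.inter
    (measurableSet_eq_fun hm (measurable_id.add_const _)))
  have hdis : Pairwise (Function.onFun Disjoint fun q : ℚ => (fun y => y + (-q : ℝ)) ⁻¹' G q) := by
    intro q q' hq
    refine disjoint_left.2 fun y (h1 : y + -q ∈ G q) (h2 : y + -q' ∈ G q') => hq ?_
    have h3 : φ false (y + -q) = y := h1.2.2.trans (by ring)
    have h4 : φ false (y + -q') = y := h2.2.2.trans (by ring)
    have h5 := (hc1 _).1 h1.2.1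
    have key : ∀ b, (y ∈ K → (s (pt h b (y + -q))).1 y = (s (pt h false (y + -q'))).1 y) →
        q = q' := by
      intro b hb
      have h6 : pr (s (pt h b (y + -q))).1 = y := by
        rw [← hφ]; cases b
        exacts [h3, h5.trans h3]
      have h7 := hi (fiber h (h6.trans (h4.symm.trans (hφ _ _))) (by rw [h6]; exact hb))
      have h8 : y + -q = y + -(q' : ℝ) := by rw [← pr_pt h b h1.1, h7, pr_pt h false h2.1]
      simpa using h8
    by_cases hy : y ∈ K
    · have h6 : (s (pt h false (y + -q))).1 y ≠ (s (pt h true (y + -q))).1 y := fun he =>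
        pt_ne h h1.1 (h.sub hy q) (hi (fiber h (by rw [← hφ, ← hφ, h5])
          (by rw [← hφ, h3]; exact fun _ => he)))
      by_cases h7 : (s (pt h false (y + -q))).1 y = (s (pt h false (y + -q'))).1 y
      · exact key false fun _ => h7
      · exact key true fun _ => (Bool.eq_not_of_ne h6.symm).trans (Bool.eq_not_of_ne (Ne.symm h7)).symm
    · exact key false fun h6 => absurd h6 hy
  have h1 : volume (Ioo (0 : ℝ) 1) ≤ volume (⋃ q, G q) := by
    rw [← measure_sdiff_null ((hJ.union hN).measure_zero volume)]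
    refine measure_mono fun x hx => ?_
    have h2 : ContinuousAt (φ false) x := not_not.1 fun h3 => hx.2 (Or.inl h3)
    obtain ⟨q, hq⟩ : φ false x - x ∈ range ((↑) : ℚ → ℝ) :=
      not_not.1 fun h3 => hx.2 (Or.inr ⟨hx.1, h2, h3⟩)
    exact mem_iUnion.2 ⟨q, hx.1, h2, by linarith⟩
  have h2 : ∑' q, volume (G q) ≤ volume (Icc t 1) := by
    simp only [fun q : ℚ => (measure_preimage_add_right volume (-q : ℝ) (G q)).symm]
    rw [← measure_iUnion hdis fun q => measurable_id.add_const _ (hG q)]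
    refine measure_mono (iUnion_subset fun q y hy => ?_)
    have h3 : φ false (y + -q) = y := hy.2.2.trans (by ring)
    rw [← h3, hφ]
    exact ⟨hc _, pr_le (s _).2 h.one (s _).2.2.2.2⟩
  have h3 := (h1.trans (measure_iUnion_le _)).trans h2
  rw [Real.volume_Ioo, Real.volume_Icc, ENNReal.ofReal_le_ofReal_iff'] at h3
  rcases h3 with h3 | h3 <;> linarith

end Pool.Agent.H23.VD
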