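import Mathlib

set_option autoImplicit false
set_option maxSynthPendingDepth 3

namespace Pool.Agent.H23.ZD
open Polynomial

variable {k : Type} [Field k]

noncomputable def sh : k[X] →ₐ[k] k[X] := aeval (X + 1)
noncomputable def sg : k[X][X] →ₐ[k] k[X][X] := mapAlgHom sh
noncomputable def f (n : ℕ) : k[X] := ∏ i ∈ Finset.range n, (X + (i : k[X]))

lemma sh_X : (sh : k[X] →ₐ[k] k[X]) X = X + 1 := by simp [sh]

lemma sg_C (q : k[X]) : sg (C q : k[X][X]) = C (sh q) := by simp [sg]
lemma sg_X : sg (X : k[X][X]) = X := by simp [sg]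

lemma sh_inj : Function.Injective (sh : k[X] →ₐ[k] k[X]) := by
  intro p q h
  have := taylor_injective (1 : k) (a₁ := p) (a₂ := q)
  apply this
  simpa [sh, taylor_apply, comp_eq_aeval] using h

lemma sg_inj : Function.Injective (sg : k[X][X] →ₐ[k] k[X][X]) := by
  intro p q h
  exact Polynomial.map_injective (sh : k[X] →ₐ[k] k[X]).toRingHom sh_inj (by simpa [sg] using h)

lemma sgn_inj (n : ℕ) : Function.Injective ((sg ^ n : k[X][X] →ₐ[k] k[X][X])) := by
  induction n with
  | zero => intro a b h; simpa using h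
  | succ n ih =>
    intro a b h
    rw [pow_succ, AlgHom.mul_apply, AlgHom.mul_apply] at h
    exact sg_inj (ih h)

lemma sgn_X (n : ℕ) : (sg ^ n : k[X][X] →ₐ[k] k[X][X]) X = X := by
  induction n with
  | zero => simp
  | succ n ih => rw [pow_succ, AlgHom.mul_apply, sg_X, ih]

lemma sgn_CX (n : ℕ) : (sg ^ n : k[X][X] →ₐ[k] k[X][X]) (C X) = C (X + (n : k[X])) := by
  induction n with
  | zero => simp
  | succ n ih =>
    rw [pow_succ, AlgHom.mul_apply, sg_C, sh_X, map_add, map_add, ih, map_one, map_one]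
    push_cast
    simp [add_assoc]

structure Rel {R : Type} [Ring R] (z w a b : R) : Prop where
  zw : z * w = w * z
  az : a * z = (z + 1) * a
  aw : a * w = w * a
  bz : b * z = (z + 1) * b
  bw : b * w = w * b
  wa : w * a = z * b

variable {R : Type} [Ring R] [Algebra k R] {z w a b : R}

lemma comm_aeval (h : z * w = w * z) (q : k[X]) : Commute (aeval z q) w := by
  induction q using Polynomial.induction_on with
  | C c => simp [Algebra.commutes, Commute, SemiconjBy]
  | add p q hp hq => rw [map_add]; exact hp.add_left hq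
  | monomial n c ih =>
    rw [pow_succ, ← mul_assoc, map_mul, aeval_X]
    exact ih.mul_left h

noncomputable def phi (k : Type) [Field k] {R : Type} [Ring R] [Algebra k R] {z w a b : R}
    (h : Rel z w a b) : k[X][X] →ₐ[k] R :=
  eval₂AlgHom (aeval z) w (comm_aeval h.zw)

lemma phi_C (h : Rel z w a b) (q : k[X]) : phi k h (C q) = aeval z q := by simp [phi]
lemma phi_X (h : Rel z w a b) : phi k h X = w := by simp [phi]
lemma phi_CX (h : Rel z w a b) : phi k h (C X) = z := by simp [phi]

lemma phi_comm (h : Rel z w a b) (s t : k[X][X]) : phi k h s * phi k h t = phi k h t * phi k h s := by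
  rw [← map_mul, ← map_mul, mul_comm]

/-- twisted commutation of degree n -/
def Cm (k : Type) [Field k] {R : Type} [Ring R] [Algebra k R] {z w a b : R}
    (h : Rel z w a b) (n : ℕ) (x : R) : Prop :=
  ∀ s : k[X][X], x * phi k h s = phi k h ((sg ^ n : k[X][X] →ₐ[k] k[X][X]) s) * x

lemma cm_one (h : Rel z w a b) {c : R} (h1 : c * z = (z + 1) * c) (h2 : c * w = w * c) :
    Cm k h 1 c := by
  have inner : ∀ q : k[X], c * aeval z q = aeval z (sh q) * c := by
    intro q
    induction q using Polynomial.induction_on with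
    | C d => simp [sh, Algebra.commutes]
    | add p q hp hq => simp only [map_add, mul_add, add_mul, hp, hq]
    | monomial n d ih =>
      rw [pow_succ, ← mul_assoc, map_mul (aeval z) _ X, map_mul sh _ X, map_mul (aeval z) _ (sh X),
        ← mul_assoc, ih, aeval_X, sh_X, map_add, aeval_X, map_one, mul_assoc, h1, ← mul_assoc]
  intro s
  rw [pow_one]
  induction s using Polynomial.induction_on with
  | C q => rw [sg_C, phi_C, phi_C, inner]
  | add p q hp hq => simp only [map_add, mul_add, add_mul, hp, hq]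
  | monomial n d ih =>
    rw [pow_succ, ← mul_assoc, map_mul (phi k h) _ X, map_mul sg _ X, map_mul (phi k h) _ (sg X),
      ← mul_assoc, ih, phi_X, sg_X, phi_X, mul_assoc, h2, ← mul_assoc]

lemma Cm.mul {h : Rel z w a b} {n m : ℕ} {x y : R} (hx : Cm k h n x) (hy : Cm k h m y) :
    Cm k h (n + m) (x * y) := by
  intro s
  rw [mul_assoc, hy, ← mul_assoc, hx, pow_add, AlgHom.mul_apply, mul_assoc]

lemma Cm.add {h : Rel z w a b} {n : ℕ} {x y : R} (hx : Cm k h n x) (hy : Cm k h n y) :
    Cm k h n (x + y) := by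
  intro s
  rw [add_mul, hx, hy, mul_add]

lemma cm_phi (h : Rel z w a b) (t : k[X][X]) : Cm k h 0 (phi k h t) := by
  intro s
  simp [phi_comm h t s]

lemma Cm.phi_mul {h : Rel z w a b} {n : ℕ} {x : R} (t : k[X][X]) (hx : Cm k h n x) :
    Cm k h n (phi k h t * x) := by
  simpa using (cm_phi h t).mul hx

lemma cm_a (h : Rel z w a b) : Cm k h 1 a := cm_one h h.az h.aw
lemma cm_b (h : Rel z w a b) : Cm k h 1 b := cm_one h h.bz h.bw

lemma cm_al (h : Rel z w a b) (n : ℕ) : Cm k h n (a ^ n) := by
  induction n with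
  | zero => simpa using cm_phi (k := k) h 1
  | succ n ih => rw [pow_succ]; exact ih.mul (cm_a h)

noncomputable def be (k : Type) [Field k] {R : Type} [Ring R] [Algebra k R] {z w a b : R}
    (h : Rel z w a b) (u v : ℕ → k[X]) : ℕ → R
  | 0 => w
  | n + 1 => phi k h (C (u n)) * (a ^ n * b) + phi k h (C (v n)) * (be k h u v n * a)

lemma cm_be (h : Rel z w a b) (u v : ℕ → k[X]) (n : ℕ) : Cm k h n (be k h u v n) := by
  induction n with
  | zero => simpa [be, phi_X] using cm_phi (k := k) h X
  | succ n ih =>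
    exact (((cm_al h n).mul (cm_b h)).phi_mul _).add ((ih.mul (cm_a h)).phi_mul _)

lemma Cm.cz {h : Rel z w a b} {n : ℕ} {x : R} (hx : Cm k h n x) :
    x * z = phi k h (C (X + (n : k[X]))) * x := by
  have := hx (C X)
  rwa [phi_CX, sgn_CX] at this

lemma Cm.cw {h : Rel z w a b} {n : ℕ} {x : R} (hx : Cm k h n x) :
    x * w = phi k h X * x := by
  have := hx X
  rw [sgn_X] at this
  rw [← this, phi_X]

/-- key identity from the syzygy -/
lemma key1 (h : Rel z w a b) {n : ℕ} {B : R}
    (hs : phi k h X * a ^ n = phi k h (C (f n)) * B) :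
    phi k h (C (X + (n : k[X]))) * (a ^ n * b) = phi k h (C (f n)) * (B * a) := by
  rw [← mul_assoc, ← (cm_al (k := k) h n).cz, mul_assoc, ← h.wa, ← mul_assoc,
    (cm_al (k := k) h n).cw, hs, mul_assoc]

lemma f_succ (n : ℕ) : (f (n + 1) : k[X]) = f n * (X + (n : k[X])) := by
  simp [f, Finset.prod_range_succ]

section step
variable (h : Rel z w a b) (u v : ℕ → k[X]) {n : ℕ}
  (huv : u n * f n + v n * (X + (n : k[X])) = 1)
  (hs : phi k h X * a ^ n = phi k h (C (f n)) * be k h u v n)
include huv

lemma huv' : phi k h (C (u n)) * phi k h (C (f n)) +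
    phi k h (C (v n)) * phi k h (C (X + (n : k[X]))) = 1 := by
  rw [← map_mul, ← map_mul (phi k h), ← map_add, ← C_mul, ← C_mul, ← C_add, huv]
  simp

include hs

lemma step_ba : be k h u v n * a = phi k h (C (X + (n : k[X]))) * be k h u v (n + 1) := by
  have k1 := key1 h hs
  rw [be, mul_add, ← mul_assoc, phi_comm, mul_assoc, k1, ← mul_assoc, ← mul_assoc (phi k h _)
    (phi k h _), ← add_mul, phi_comm h _ (C (v n)), huv' h u v huv, one_mul]

lemma step_ab : a ^ n * b = phi k h (C (f n)) * be k h u v (n + 1) := by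
  have k1 := key1 h hs
  rw [be, mul_add, ← mul_assoc (phi k h _) (phi k h (C (v n))), phi_comm h _ (C (v n)),
    mul_assoc (phi k h _), ← k1, ← mul_assoc, ← mul_assoc (phi k h _)
    (phi k h _), ← add_mul, phi_comm h (C (f n)), huv' h u v huv, one_mul]

lemma step_bb : be k h u v n * b = phi k h X * be k h u v (n + 1) := by
  have e1 : phi k h X * (a ^ n * b) = phi k h (C (f n)) * (be k h u v n * b) := by
    rw [← mul_assoc, hs, mul_assoc]
  have e2 : phi k h X * (be k h u v n * a) =
      phi k h (C (X + (n : k[X]))) * (be k h u v n * b) := by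
    rw [← mul_assoc, ← (cm_be h u v n).cw, mul_assoc, h.wa, ← mul_assoc, (cm_be h u v n).cz,
      mul_assoc]
  rw [be, mul_add, ← mul_assoc, phi_comm, mul_assoc, e1, ← mul_assoc (phi k h X),
    phi_comm h X, mul_assoc, e2, ← mul_assoc, ← mul_assoc (phi k h _)
    (phi k h _), ← add_mul, huv' h u v huv, one_mul]

lemma step_s : phi k h X * a ^ (n + 1) = phi k h (C (f (n + 1))) * be k h u v (n + 1) := by
  rw [pow_succ, ← mul_assoc, hs, mul_assoc, step_ba h u v huv hs, ← mul_assoc, ← map_mul,
    ← map_mul, f_succ]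

end step

lemma syz (h : Rel z w a b) (u v : ℕ → k[X]) (P : ℕ)
    (huv : ∀ n < P, u n * f n + v n * (X + (n : k[X])) = 1) (n : ℕ) (hn : n ≤ P) :
    phi k h X * a ^ n = phi k h (C (f n)) * be k h u v n := by
  induction n with
  | zero => simp [f, be, phi_X]
  | succ n ih => exact step_s h u v (huv n (by omega)) (ih (by omega))

def InM (k : Type) [Field k] {R : Type} [Ring R] [Algebra k R] {z w a b : R}
    (h : Rel z w a b) (u v : ℕ → k[X]) (n : ℕ) (x : R) : Prop :=
  ∃ s t : k[X][X], x = phi k h s * a ^ n + phi k h t * be k h u v n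

lemma InM.mul_phi {h : Rel z w a b} {u v : ℕ → k[X]} {n : ℕ} {x : R} (hx : InM k h u v n x)
    (r : k[X][X]) : InM k h u v n (x * phi k h r) := by
  obtain ⟨s, t, rfl⟩ := hx
  refine ⟨s * (sg ^ n : k[X][X] →ₐ[k] k[X][X]) r, t * (sg ^ n : k[X][X] →ₐ[k] k[X][X]) r, ?_⟩
  rw [add_mul, mul_assoc, cm_al h n, mul_assoc, cm_be h u v n, map_mul, map_mul, mul_assoc,
    mul_assoc]

lemma word_mem (h : Rel z w a b) (u v : ℕ → k[X]) (P : ℕ)
    (huv : ∀ n < P, u n * f n + v n * (X + (n : k[X])) = 1) (l : List (Fin 4))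
    (hl : l.length ≤ P) : ∃ n ≤ l.length, InM k h u v n (l.map ![z, w, a, b]).prod := by
  induction l using List.reverseRecOn with
  | nil => exact ⟨0, le_rfl, 1, 0, by simp⟩
  | append_singleton l i ih =>
    simp only [List.length_append, List.length_singleton] at hl ⊢
    obtain ⟨n, hn, hx⟩ := ih (by omega)
    rw [List.map_append, List.prod_append]
    have hP : n < P := by omega
    have hs := syz h u v P huv n hP.le
    fin_cases i
    · refine ⟨n, by omega, ?_⟩
      simpa [phi_CX] using hx.mul_phi (C X)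
    · refine ⟨n, by omega, ?_⟩
      simpa [phi_X] using hx.mul_phi X
    · refine ⟨n + 1, by omega, ?_⟩
      obtain ⟨s, t, e⟩ := hx
      refine ⟨s, t * C (X + (n : k[X])), ?_⟩
      rw [e]
      simp only [List.map_cons, List.map_nil, List.prod_cons, List.prod_nil, mul_one]
      change _ * a = _
      rw [add_mul, mul_assoc, mul_assoc, step_ba h u v (huv n hP) hs, map_mul, mul_assoc, pow_succ]
    · refine ⟨n + 1, by omega, ?_⟩
      obtain ⟨s, t, e⟩ := hx
      refine ⟨0, s * C (f n) + t * X, ?_⟩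
      rw [e]
      simp only [List.map_cons, List.map_nil, List.prod_cons, List.prod_nil, mul_one]
      change _ * b = _
      rw [add_mul, mul_assoc, mul_assoc, step_bb h u v (huv n hP) hs,
        step_ab h u v (huv n hP) hs, map_add, map_mul, map_mul, map_zero, zero_mul, zero_add,
        add_mul, mul_assoc, mul_assoc]

/-- operators on S[T] -/
noncomputable def op (c : k[X][X]) (n : ℕ) : Module.End k k[X][X][X] :=
  (LinearMap.mulLeft k (C c * X ^ n)).comp
    (mapAlgHom (sg ^ n : k[X][X] →ₐ[k] k[X][X])).toLinearMap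

lemma op_apply (c : k[X][X]) (n : ℕ) (x : k[X][X][X]) :
    op c n x = C c * X ^ n * x.map (sg ^ n : k[X][X] →ₐ[k] k[X][X]).toRingHom := by
  simp [op, mul_assoc]

lemma op_zero (c : k[X][X]) (x : k[X][X][X]) : op c 0 x = C c * x := by
  rw [op_apply, pow_zero, pow_zero, mul_one]
  congr 1
  exact Polynomial.map_id

lemma op_mul (c d : k[X][X]) (n m : ℕ) :
    op c n * op d m = op (c * (sg ^ n : k[X][X] →ₐ[k] k[X][X]) d) (n + m) := by
  refine LinearMap.ext fun x => ?_
  rw [Module.End.mul_apply, op_apply, op_apply, op_apply, Polynomial.map_mul, Polynomial.map_mul,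
    map_C, Polynomial.map_pow, map_X, map_map, pow_add, pow_add, C_mul]
  have : (sg ^ n : k[X][X] →ₐ[k] k[X][X]).toRingHom.comp
      (sg ^ m : k[X][X] →ₐ[k] k[X][X]).toRingHom =
      (sg ^ n * sg ^ m : k[X][X] →ₐ[k] k[X][X]).toRingHom := rfl
  rw [this]
  simp only [AlgHom.toRingHom_eq_coe, RingHom.coe_coe]
  ring

lemma op_add (c d : k[X][X]) (n : ℕ) : op c n + op d n = op (c + d) n := by
  refine LinearMap.ext fun x => ?_
  rw [LinearMap.add_apply, op_apply, op_apply, op_apply, C_add]
  ring

lemma op_one : (op 1 0 : Module.End k k[X][X][X]) = 1 := by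
  refine LinearMap.ext fun x => ?_
  rw [op_zero]
  simp

lemma rel_op : Rel (op (C X) 0 : Module.End k k[X][X][X]) (op X 0) (op (C X) 1) (op X 1) := by
  have e1 := sgn_CX (k := k) 1
  have e2 := sgn_X (k := k) 1
  refine ⟨?_, ?_, ?_, ?_, ?_, ?_⟩ <;>
    simp only [← op_one, op_add, op_mul, e1, e2, pow_zero, AlgHom.one_apply, zero_add,
      add_zero] <;> congr 1 <;> simp <;> ring

lemma opsum_ne (c : ℕ → k[X][X]) (N : ℕ) (hc : ∃ n < N, c n ≠ 0) (x : k[X][X][X]) (hx : x ≠ 0) :
    (∑ n ∈ Finset.range N, op (c n) n) x ≠ 0 := by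
  induction N with
  | zero => obtain ⟨n, hn, _⟩ := hc; omega
  | succ N ih =>
    rw [Finset.sum_range_succ, LinearMap.add_apply]
    by_cases h0 : c N = 0
    · have : op (c N) N x = 0 := by rw [op_apply, h0]; simp
      rw [this, add_zero]
      apply ih
      obtain ⟨n, hn, hn'⟩ := hc
      refine ⟨n, ?_, hn'⟩
      rcases Nat.lt_succ_iff_lt_or_eq.mp hn with h | h
      · exact h
      · exact absurd (h ▸ h0) hn'
    · intro e
      have e2 := congrArg (fun p => p.coeff (x.natDegree + N)) e
      simp only [coeff_add, LinearMap.sum_apply, finsetSum_coeff, coeff_zero] at e2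
      rw [Finset.sum_eq_zero, zero_add, op_apply, mul_assoc, coeff_C_mul, coeff_X_pow_mul,
        coeff_map] at e2
      · rcases mul_eq_zero.mp e2 with h | h
        · exact h0 h
        · have : x.coeff x.natDegree = 0 := sgn_inj N (by simpa using h)
          exact hx (leadingCoeff_eq_zero.mp this)
      · intro n hn
        have hn := Finset.mem_range.mp hn
        rw [op_apply, mul_assoc, coeff_C_mul, coeff_X_pow_mul', coeff_map,
          coeff_eq_zero_of_natDegree_lt (p := x) (by omega)]
        simp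

section rep
variable (h : Rel z w a b) (ρ : R →ₐ[k] Module.End k k[X][X][X])
  (rz : ρ z = op (C X) 0) (rw' : ρ w = op X 0) (ra : ρ a = op (C X) 1) (rb : ρ b = op X 1)
include rz rw'

lemma rho_phi (s : k[X][X]) : ρ (phi k h s) = op s 0 := by
  have : ρ.comp (phi k h) = (Algebra.lmul k k[X][X][X]).comp CAlgHom := by
    refine Polynomial.algHom_ext' (Polynomial.algHom_ext ?_) ?_
    · refine LinearMap.ext fun x => ?_
      simp [phi_CX, rz, op_zero]
    · refine LinearMap.ext fun x => ?_
      simp [phi_X, rw', op_zero]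
  have := DFunLike.congr_fun this s
  refine LinearMap.ext fun x => ?_
  simp only [AlgHom.comp_apply] at this
  rw [this]
  simp [op_zero]

omit rz rw' in
include ra in
lemma rho_al (n : ℕ) : ρ (a ^ n) = op (C (f n)) n := by
  induction n with
  | zero => simp [f, op_one]
  | succ n ih => rw [pow_succ, map_mul, ih, ra, op_mul, sgn_CX, f_succ, C_mul]

include ra rb

lemma rho_be (u v : ℕ → k[X]) (P : ℕ)
    (huv : ∀ n < P, u n * f n + v n * (X + (n : k[X])) = 1) (n : ℕ) (hn : n ≤ P) :
    ρ (be k h u v n) = op X n := by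
  induction n with
  | zero => exact rw'
  | succ n ih =>
    rw [be, map_add, map_mul, map_mul, map_mul, map_mul, rho_phi h ρ rz rw', rho_phi h ρ rz rw',
      rho_al ρ ra, ih (by omega), ra, rb, op_mul, op_mul, op_mul, op_mul, zero_add, op_add,
      sgn_X, sgn_CX]
    congr 1
    have := congrArg (C : k[X] →+* k[X][X]) (huv n (by omega))
    simp only [map_add, map_mul, map_one] at this
    simp only [pow_zero, AlgHom.one_apply, map_add]
    linear_combination X * this

lemma good (u v : ℕ → k[X]) (P : ℕ)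
    (huv : ∀ n < P, u n * f n + v n * (X + (n : k[X])) = 1)
    (hf : ∀ n, (f n : k[X]) ≠ 0) (N : ℕ) (hN : N ≤ P) (s t : ℕ → k[X][X]) (x : R)
    (hx : x = ∑ n ∈ Finset.range N, (phi k h (s n) * a ^ n + phi k h (t n) * be k h u v n))
    (hx0 : x ≠ 0) (y : k[X][X][X]) (hy : y ≠ 0) : ρ x y ≠ 0 := by
  have e : ρ x = ∑ n ∈ Finset.range N, op (s n * C (f n) + t n * X) n := by
    rw [hx, map_sum]
    refine Finset.sum_congr rfl fun n hn => ?_
    have hn := Finset.mem_range.mp hn
    rw [map_add, map_mul, map_mul, rho_phi h ρ rz rw', rho_phi h ρ rz rw', rho_al ρ ra,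
      rho_be h ρ rz rw' ra rb u v P huv n (by omega), op_mul, op_mul, zero_add, op_add]
    simp
  rw [e]
  apply opsum_ne _ _ _ _ hy
  by_contra hc
  push Not at hc
  apply hx0
  rw [hx]
  refine Finset.sum_eq_zero fun n hn => ?_
  have hn := Finset.mem_range.mp hn
  have h1 := hc n hn
  have h2 : (s n).coeff 0 = 0 := by
    have := congrArg (fun p => p.coeff 0) h1
    simp only [coeff_add, mul_coeff_zero, coeff_X_zero, mul_zero, add_zero,
      coeff_zero, coeff_C_zero] at this
    exact (mul_eq_zero.mp this).resolve_right (hf n)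
  obtain ⟨r, hr⟩ := X_dvd_iff.mpr h2
  have h3 : t n = -(r * C (f n)) := by
    rw [hr] at h1
    have : X * (r * C (f n) + t n) = 0 := by linear_combination h1
    have := (mul_eq_zero.mp this).resolve_left X_ne_zero
    linear_combination this
  rw [hr, h3, mul_comm X r, map_mul, map_neg, map_mul, mul_assoc,
    syz h u v P huv n (by omega), neg_mul, mul_assoc, add_neg_cancel]

end rep

end Pool.Agent.H23.ZD
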