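import Pool.Agent.H23.ZD1

set_option autoImplicit false
set_option maxSynthPendingDepth 3

namespace Pool.Agent.H23.ZD
open Polynomial

variable (k : Type) [Field k]

noncomputable def rels : Fin 6 → FreeAlgebra k (Fin 4) :=
  ![FreeAlgebra.ι k 0 * FreeAlgebra.ι k 1 - FreeAlgebra.ι k 1 * FreeAlgebra.ι k 0,
    FreeAlgebra.ι k 2 * FreeAlgebra.ι k 0 - (FreeAlgebra.ι k 0 * FreeAlgebra.ι k 2 + FreeAlgebra.ι k 2),
    FreeAlgebra.ι k 2 * FreeAlgebra.ι k 1 - FreeAlgebra.ι k 1 * FreeAlgebra.ι k 2,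
    FreeAlgebra.ι k 3 * FreeAlgebra.ι k 0 - (FreeAlgebra.ι k 0 * FreeAlgebra.ι k 3 + FreeAlgebra.ι k 3),
    FreeAlgebra.ι k 3 * FreeAlgebra.ι k 1 - FreeAlgebra.ι k 1 * FreeAlgebra.ι k 3,
    FreeAlgebra.ι k 1 * FreeAlgebra.ι k 2 - FreeAlgebra.ι k 0 * FreeAlgebra.ι k 3]

lemma rels_deg (i : Fin 6) : rels k i ∈ Submodule.span k
    {a : FreeAlgebra k (Fin 4) | ∃ w : FreeMonoid (Fin 4),
      w.length ≤ 2 ∧ a = (w.toList.map (FreeAlgebra.ι k)).prod} := by
  have h1 : ∀ i : Fin 4, FreeAlgebra.ι k i ∈ Submodule.span k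
      {a : FreeAlgebra k (Fin 4) | ∃ w : FreeMonoid (Fin 4),
        w.length ≤ 2 ∧ a = (w.toList.map (FreeAlgebra.ι k)).prod} := fun i =>
    Submodule.subset_span ⟨FreeMonoid.ofList [i], by simp [FreeMonoid.length], by simp⟩
  have h2 : ∀ i j : Fin 4, FreeAlgebra.ι k i * FreeAlgebra.ι k j ∈ Submodule.span k
      {a : FreeAlgebra k (Fin 4) | ∃ w : FreeMonoid (Fin 4),
        w.length ≤ 2 ∧ a = (w.toList.map (FreeAlgebra.ι k)).prod} := fun i j =>
    Submodule.subset_span ⟨FreeMonoid.ofList [i, j], by simp [FreeMonoid.length], by simp⟩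
  fin_cases i
  · exact Submodule.sub_mem _ (h2 _ _) (h2 _ _)
  · exact Submodule.sub_mem _ (h2 _ _) (Submodule.add_mem _ (h2 _ _) (h1 _))
  · exact Submodule.sub_mem _ (h2 _ _) (h2 _ _)
  · exact Submodule.sub_mem _ (h2 _ _) (Submodule.add_mem _ (h2 _ _) (h1 _))
  · exact Submodule.sub_mem _ (h2 _ _) (h2 _ _)
  · exact Submodule.sub_mem _ (h2 _ _) (h2 _ _)

noncomputable abbrev II : Ideal (FreeAlgebra k (Fin 4)) :=
  (TwoSidedIdeal.span (Set.range (rels k))).asIdeal

abbrev Q := FreeAlgebra k (Fin 4) ⧸ II k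

noncomputable def pr : FreeAlgebra k (Fin 4) →ₐ[k] Q k := Ideal.Quotient.mkₐ k (II k)

lemma pr_zero (x : FreeAlgebra k (Fin 4)) :
    pr k x = 0 ↔ x ∈ TwoSidedIdeal.span (Set.range (rels k)) := by
  rw [pr, Ideal.Quotient.mkₐ_eq_mk, Ideal.Quotient.eq_zero_iff_mem, TwoSidedIdeal.mem_asIdeal]

lemma relQ : Rel (pr k (FreeAlgebra.ι k 0)) (pr k (FreeAlgebra.ι k 1)) (pr k (FreeAlgebra.ι k 2))
    (pr k (FreeAlgebra.ι k 3)) := by
  have h : ∀ i, pr k (rels k i) = 0 := fun i =>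
    (pr_zero k _).mpr (TwoSidedIdeal.subset_span ⟨i, rfl⟩)
  refine ⟨?_, ?_, ?_, ?_, ?_, ?_⟩
  · simpa [rels, sub_eq_zero] using h 0
  · simpa [rels, sub_eq_zero, add_mul] using h 1
  · simpa [rels, sub_eq_zero] using h 2
  · simpa [rels, sub_eq_zero, add_mul] using h 3
  · simpa [rels, sub_eq_zero] using h 4
  · simpa [rels, sub_eq_zero] using h 5

lemma exists_rep {T : Type} [Ring T] [Algebra k T] {z w a b : T} (h : Rel z w a b) :
    ∃ ρ : Q k →ₐ[k] T, ρ (pr k (FreeAlgebra.ι k 0)) = z ∧ ρ (pr k (FreeAlgebra.ι k 1)) = w ∧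
      ρ (pr k (FreeAlgebra.ι k 2)) = a ∧ ρ (pr k (FreeAlgebra.ι k 3)) = b := by
  let F : FreeAlgebra k (Fin 4) →ₐ[k] T := FreeAlgebra.lift k ![z, w, a, b]
  have hF : ∀ x ∈ II k, F x = 0 := by
    intro x hx
    rw [TwoSidedIdeal.mem_asIdeal] at hx
    have : TwoSidedIdeal.span (Set.range (rels k)) ≤ TwoSidedIdeal.ker F.toRingHom := by
      rw [TwoSidedIdeal.span_le]
      rintro _ ⟨i, rfl⟩
      rw [SetLike.mem_coe, TwoSidedIdeal.mem_ker]
      fin_cases i
      · simp [rels, F, h.zw]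
      · simp [rels, F, h.az, add_mul]
      · simp [rels, F, h.aw]
      · simp [rels, F, h.bz, add_mul]
      · simp [rels, F, h.bw]
      · simp [rels, F, h.wa]
    exact (TwoSidedIdeal.mem_ker _).mp (this hx)
  refine ⟨Ideal.Quotient.liftₐ (II k) F hF, ?_, ?_, ?_, ?_⟩ <;> simp [pr, F]

/-- the small representation detecting the zero divisor -/
noncomputable def zE : Module.End k (ℕ → k) where
  toFun x := fun j => (1 - (j : k)) * x j
  map_add' x y := by ext j; simp [mul_add]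
  map_smul' c x := by ext j; simp; ring

noncomputable def aE : Module.End k (ℕ → k) where
  toFun x := fun j => if 2 ≤ j then x (j - 1) else 0
  map_add' x y := by ext j; by_cases h : 2 ≤ j <;> simp [h]
  map_smul' c x := by ext j; by_cases h : 2 ≤ j <;> simp [h]

noncomputable def bE : Module.End k (ℕ → k) where
  toFun x := fun j => if j = 1 then x 0 else 0
  map_add' x y := by ext j; by_cases h : j = 1 <;> simp [h]
  map_smul' c x := by ext j; by_cases h : j = 1 <;> simp [h]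

lemma relE : Rel (zE k) 0 (aE k) (bE k) := by
  refine ⟨by simp, ?_, by simp, ?_, by simp, ?_⟩
  · refine LinearMap.ext fun x => funext fun j => ?_
    by_cases h : 2 ≤ j
    · obtain ⟨j, rfl⟩ : ∃ i, j = i + 1 := ⟨j - 1, by omega⟩
      simp [zE, aE, h]
      ring
    · simp [zE, aE, h]
  · refine LinearMap.ext fun x => funext fun j => ?_
    by_cases h : j = 1 <;> simp [zE, bE, h]
  · refine LinearMap.ext fun x => funext fun j => ?_
    by_cases h : j = 1 <;> simp [zE, bE, h]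

lemma aE_pow (n : ℕ) (x : ℕ → k) : ((aE k) ^ n) x (n + 1) = x 1 := by
  induction n with
  | zero => simp
  | succ n ih =>
    rw [pow_succ', Module.End.mul_apply]
    simpa [aE] using ih

lemma exists_uv (p : ℕ) [Fact p.Prime] : ∃ u v : ℕ → (ZMod p)[X],
    ∀ n < p, u n * f n + v n * (X + (n : (ZMod p)[X])) = 1 := by
  have : ∀ n : ℕ, ∃ uv : (ZMod p)[X] × (ZMod p)[X],
      n < p → uv.1 * f n + uv.2 * (X + (n : (ZMod p)[X])) = 1 := by
    intro n
    by_cases hn : n < p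
    · have : IsCoprime (f n : (ZMod p)[X]) (X + (n : (ZMod p)[X])) := by
        refine IsCoprime.prod_left fun i hi => ?_
        have hi := Finset.mem_range.mp hi
        have hne : ((n : ZMod p) - i) ≠ 0 := by
          rw [← Nat.cast_sub hi.le, Ne, ZMod.natCast_eq_zero_iff]
          intro hd
          have := Nat.le_of_dvd (by omega) hd
          omega
        refine ⟨-C ((n : ZMod p) - i)⁻¹, C ((n : ZMod p) - i)⁻¹, ?_⟩
        have e : C ((n : ZMod p) - i)⁻¹ * C ((n : ZMod p) - i) = 1 := by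
          rw [← C_mul, inv_mul_cancel₀ hne, C_1]
        simp only [map_sub, map_natCast] at e
        linear_combination e
      obtain ⟨u, v, h⟩ := this
      exact ⟨(u, v), fun _ => h⟩
    · exact ⟨(0, 0), fun h => absurd h hn⟩
  choose uv h using this
  exact ⟨fun n => (uv n).1, fun n => (uv n).2, h⟩

lemma f_ne (n : ℕ) : (f n : k[X]) ≠ 0 := by
  refine Finset.prod_ne_zero_iff.mpr fun i _ => ?_
  have : (X + (i : k[X])) = X + C (i : k) := by simp
  rw [this]
  exact X_add_C_ne_zero _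

lemma span_form {R : Type} [Ring R] [Algebra k R] {z w a b : R} (h : Rel z w a b)
    (u v : ℕ → k[X]) (P : ℕ)
    (huv : ∀ n < P, u n * f n + v n * (X + (n : k[X])) = 1) (N : ℕ) (hN : N ≤ P)
    (F : FreeAlgebra k (Fin 4) →ₐ[k] R) (hF : ∀ i, F (FreeAlgebra.ι k i) = ![z, w, a, b] i)
    (x : FreeAlgebra k (Fin 4))
    (hx : x ∈ Submodule.span k {a : FreeAlgebra k (Fin 4) | ∃ w : FreeMonoid (Fin 4),
      w.length < N ∧ a = (w.toList.map (FreeAlgebra.ι k)).prod}) :
    ∃ s t : ℕ → k[X][X], F x =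
      ∑ n ∈ Finset.range N, (phi k h (s n) * a ^ n + phi k h (t n) * be k h u v n) := by
  induction hx using Submodule.span_induction with
  | mem y hy =>
    obtain ⟨W, hW, rfl⟩ := hy
    have hW' : W.toList.length < N := hW
    obtain ⟨n, hn, s, t, e⟩ := word_mem h u v P huv W.toList (by omega)
    refine ⟨fun m => if m = n then s else 0, fun m => if m = n then t else 0, ?_⟩
    rw [map_list_prod, List.map_map]
    have : (F ∘ FreeAlgebra.ι k) = ![z, w, a, b] := funext hF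
    rw [this, e, Finset.sum_eq_single n]
    · simp
    · intro m _ hm; simp [hm]
    · intro hm; exact absurd (Finset.mem_range.mpr (by omega)) hm
  | zero => exact ⟨0, 0, by simp⟩
  | add x y _ _ hx hy =>
    obtain ⟨s, t, e⟩ := hx
    obtain ⟨s', t', e'⟩ := hy
    refine ⟨s + s', t + t', ?_⟩
    rw [map_add, e, e', ← Finset.sum_add_distrib]
    refine Finset.sum_congr rfl fun n _ => ?_
    simp only [Pi.add_apply, map_add, add_mul]
    abel
  | smul c x _ hx =>
    obtain ⟨s, t, e⟩ := hx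
    refine ⟨c • s, c • t, ?_⟩
    rw [map_smul, e, Finset.smul_sum]
    refine Finset.sum_congr rfl fun n _ => ?_
    simp only [Pi.smul_apply, map_smul, smul_add, smul_mul_assoc]

theorem nondomain (p : ℕ) [hp : Fact p.Prime] : ∃ x y : FreeAlgebra (ZMod p) (Fin 4),
    x ∉ TwoSidedIdeal.span (Set.range (rels (ZMod p))) ∧
    y ∉ TwoSidedIdeal.span (Set.range (rels (ZMod p))) ∧
    x * y ∈ TwoSidedIdeal.span (Set.range (rels (ZMod p))) := by
  obtain ⟨u, v, huv⟩ := exists_uv p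
  have h := relQ (ZMod p)
  have hs := syz h u v p huv p le_rfl
  have k1 := key1 h hs
  obtain ⟨g, hg⟩ : ∃ g : (ZMod p)[X], f p = X * g := by
    have : (X + ((0 : ℕ) : (ZMod p)[X])) ∣ f p :=
      Finset.dvd_prod_of_mem _ (Finset.mem_range.mpr hp.out.pos)
    rw [Nat.cast_zero, add_zero] at this
    exact this
  have hc : ((p : ℕ) : (ZMod p)[X]) = 0 := by
    rw [← map_natCast C, ZMod.natCast_self, map_zero]
  rw [hc, add_zero, hg, C_mul, map_mul, phi_CX, mul_assoc, ← sub_eq_zero, ← mul_sub] at k1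
  obtain ⟨y, hy⟩ := Ideal.Quotient.mkₐ_surjective (ZMod p) (II (ZMod p))
    (pr (ZMod p) (FreeAlgebra.ι _ 2) ^ p * pr (ZMod p) (FreeAlgebra.ι _ 3) -
      phi (ZMod p) h (C g) * (be (ZMod p) h u v p * pr (ZMod p) (FreeAlgebra.ι _ 2)))
  obtain ⟨ρ, rz, -, ra, rb⟩ := exists_rep (ZMod p) (relE (ZMod p))
  refine ⟨FreeAlgebra.ι _ 0, y, ?_, ?_, ?_⟩
  · rw [← pr_zero]
    intro e
    rw [e, map_zero] at rz
    have := congrFun (LinearMap.congr_fun rz (fun _ => 1)) 0
    simp [zE] at this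
  · rw [← pr_zero]
    intro e
    change pr _ y = _ at hy
    rw [e] at hy
    have e2 := congrArg ρ hy
    rw [map_zero, map_sub, map_mul, map_mul, map_mul, map_pow, ra, rb] at e2
    have e3 := congrFun (LinearMap.congr_fun e2 (Pi.single 0 1)) (p + 1)
    have e4 : aE (ZMod p) (Pi.single 0 1) = 0 := by
      funext j
      by_cases hj : 2 ≤ j
      · have : j - 1 ≠ 0 := by omega
        simp [aE, hj, this]
      · simp [aE, hj]
    simp only [LinearMap.zero_apply, Pi.zero_apply, LinearMap.sub_apply, Module.End.mul_apply,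
      e4, map_zero, Pi.sub_apply, aE_pow, sub_zero] at e3
    simp [bE] at e3
  · rw [← pr_zero, map_mul]
    change pr _ y = _ at hy
    rw [hy, k1]

theorem lowdomain (p : ℕ) [hp : Fact p.Prime] (N : ℕ) (hN : N ≤ p)
    (x y : FreeAlgebra (ZMod p) (Fin 4))
    (hx : x ∈ Submodule.span (ZMod p) {a : FreeAlgebra (ZMod p) (Fin 4) | ∃ w : FreeMonoid (Fin 4),
      w.length < N ∧ a = (w.toList.map (FreeAlgebra.ι (ZMod p))).prod})
    (hy : y ∈ Submodule.span (ZMod p) {a : FreeAlgebra (ZMod p) (Fin 4) | ∃ w : FreeMonoid (Fin 4),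
      w.length < N ∧ a = (w.toList.map (FreeAlgebra.ι (ZMod p))).prod})
    (hx0 : x ∉ TwoSidedIdeal.span (Set.range (rels (ZMod p))))
    (hy0 : y ∉ TwoSidedIdeal.span (Set.range (rels (ZMod p)))) :
    x * y ∉ TwoSidedIdeal.span (Set.range (rels (ZMod p))) := by
  obtain ⟨u, v, huv⟩ := exists_uv p
  have h := relQ (ZMod p)
  have hF : ∀ i, pr (ZMod p) (FreeAlgebra.ι (ZMod p) i) =
      ![pr (ZMod p) (FreeAlgebra.ι _ 0), pr (ZMod p) (FreeAlgebra.ι _ 1),
        pr (ZMod p) (FreeAlgebra.ι _ 2), pr (ZMod p) (FreeAlgebra.ι _ 3)] i := by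
    intro i; fin_cases i <;> rfl
  obtain ⟨s, t, e⟩ := span_form (ZMod p) h u v p huv N hN (pr _) hF x hx
  obtain ⟨s', t', e'⟩ := span_form (ZMod p) h u v p huv N hN (pr _) hF y hy
  obtain ⟨ρ, rz, rw', ra, rb⟩ := exists_rep (ZMod p) (rel_op (k := ZMod p))
  rw [← pr_zero] at hx0 hy0 ⊢
  have g1 := good h ρ rz rw' ra rb u v p huv (f_ne _) N hN s' t' _ e' hy0 1 one_ne_zero
  have g2 := good h ρ rz rw' ra rb u v p huv (f_ne _) N hN s t _ e hx0 _ g1
  intro e0
  apply g2
  rw [← Module.End.mul_apply, ← map_mul, ← map_mul, e0, map_zero, LinearMap.zero_apply]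

end Pool.Agent.H23.ZD
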