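import Pool.Agent.H23.Ramsey

set_option autoImplicit false
set_option maxSynthPendingDepth 3

namespace Pool.Agent.H23.ZS
open Finset

variable {Γ : Type} [AddCommGroup Γ] {n N : ℕ} (G : SimpleGraph (Fin n)) [DecidableRel G.Adj]

def Phi (c : Sym2 (Fin N) → Γ) (π : Fin n → Fin N) : Γ := ∑ e ∈ G.edgeFinset, c (Sym2.map π e)

lemma Phi_update (c : Sym2 (Fin N) → Γ) (π : Fin n → Fin N) (v : Fin n) (y : Fin N) :
    Phi G c (Function.update π v y) = Phi G c π +
      ∑ w, if G.Adj v w then c s(y, π w) - c s(π v, π w) else 0 := by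
  rw [← sub_eq_iff_eq_add', Phi, Phi, ← sum_sub_distrib, ← sum_filter,
    ← sum_filter_of_ne (p := fun e => v ∈ e)]
  · have : G.edgeFinset.filter (fun e => v ∈ e) =
        (univ.filter fun w => G.Adj v w).image fun w => s(v, w) := by
      ext e
      simp only [mem_filter, SimpleGraph.mem_edgeFinset, mem_image, mem_univ, true_and]
      constructor
      · rintro ⟨h1, h2⟩
        obtain ⟨w, rfl⟩ := Sym2.mem_iff_exists.mp h2
        exact ⟨w, h1, rfl⟩
      · rintro ⟨w, h, rfl⟩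
        exact ⟨h, Sym2.mem_mk_left _ _⟩
    rw [this, sum_image]
    · refine sum_congr rfl fun w hw => ?_
      have hw' : w ≠ v := (mem_filter.mp hw).2.ne'
      simp [Function.update_of_ne hw']
    · intro a _ b _ h
      exact Sym2.congr_right.mp h
  · intro e _ h
    by_contra hv
    apply h
    induction e using Sym2.ind with
    | _ a b =>
      simp only [Sym2.mem_iff, not_or] at hv
      simp [Function.update_of_ne (Ne.symm hv.1), Function.update_of_ne (Ne.symm hv.2)]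

/-- second difference -/
def Bc (c : Sym2 (Fin N) → Γ) (p0 p1 : Fin n → Fin N) (v w : Fin n) : Γ :=
  if G.Adj v w then
    c s(p1 v, p1 w) - c s(p0 v, p1 w) - c s(p1 v, p0 w) + c s(p0 v, p0 w) else 0

def Al (c : Sym2 (Fin N) → Γ) (p0 p1 : Fin n → Fin N) (v : Fin n) : Γ :=
  ∑ w, if G.Adj v w then c s(p1 v, p0 w) - c s(p0 v, p0 w) else 0

lemma Bc_symm (c : Sym2 (Fin N) → Γ) (p0 p1 : Fin n → Fin N) (v w : Fin n) :
    Bc G c p0 p1 v w = Bc G c p0 p1 w v := by
  unfold Bc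
  by_cases h : G.Adj v w
  · rw [if_pos h, if_pos h.symm, Sym2.eq_swap (a := p1 w) (b := p1 v),
      Sym2.eq_swap (a := p0 w) (b := p1 v), Sym2.eq_swap (a := p1 w) (b := p0 v),
      Sym2.eq_swap (a := p0 w) (b := p0 v)]
    abel
  · rw [if_neg h, if_neg fun h' => h h'.symm]

lemma Phi_insert (c : Sym2 (Fin N) → Γ) (p0 p1 : Fin n → Fin N) (T : Finset (Fin n)) (v : Fin n)
    (hv : v ∉ T) : Phi G c ((insert v T).piecewise p1 p0) = Phi G c (T.piecewise p1 p0) +
      (Al G c p0 p1 v + ∑ w ∈ T, Bc G c p0 p1 v w) := by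
  rw [piecewise_insert, Phi_update, piecewise_eq_of_notMem _ _ _ hv]
  congr 1
  rw [Al, ← sum_ite_mem_eq T, ← sum_add_distrib]
  refine sum_congr rfl fun w _ => ?_
  unfold Bc
  by_cases hw : w ∈ T <;> by_cases h : G.Adj v w <;> simp [hw, h]

/-- abstract quadratic set functions -/
def Quad {ι : Type} [DecidableEq ι] (h : Finset ι → Γ) (α : ι → Γ) (β : ι → ι → Γ) : Prop :=
  (∀ v w, β v w = β w v) ∧ ∀ T v, v ∉ T → h (insert v T) = h T + (α v + ∑ w ∈ T, β v w)

lemma quad_Phi (c : Sym2 (Fin N) → Γ) (p0 p1 : Fin n → Fin N) :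
    Quad (fun T : Finset (Fin n) => Phi G c (T.piecewise p1 p0)) (Al G c p0 p1) (Bc G c p0 p1) :=
  ⟨Bc_symm G c p0 p1, Phi_insert G c p0 p1⟩

lemma Quad.union {ι : Type} [DecidableEq ι] {h : Finset ι → Γ} {α : ι → Γ} {β : ι → ι → Γ}
    (q : Quad h α β) (T0 T : Finset ι) (hd : Disjoint T T0) (b : Γ)
    (hb : ∀ v ∈ T, ∀ w ∈ T, v ≠ w → β v w = b) :
    h (T ∪ T0) = h T0 + ∑ v ∈ T, (α v + ∑ w ∈ T0, β v w) + T.card.choose 2 • b := by
  induction T using Finset.induction_on with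
  | empty => simp
  | insert v T hv ih =>
    rw [disjoint_insert_left] at hd
    have hv' : v ∉ T ∪ T0 := by simp [hv, hd.1]
    rw [insert_union, q.2 _ _ hv', ih hd.2 fun a ha b' hb' => hb a (mem_insert_of_mem ha) b'
      (mem_insert_of_mem hb'), sum_insert hv, card_insert_of_notMem hv, sum_union hd.2,
      Nat.choose_succ_succ' , Nat.choose_one_right, add_smul]
    have : ∑ w ∈ T, β v w = T.card • b := by
      rw [← sum_const]
      exact sum_congr rfl fun w hw => hb v (mem_insert_self _ _) w (mem_insert_of_mem hw)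
        (fun e => hv (e ▸ hw))
    rw [this]
    abel

lemma choose_smul [Fintype Γ] (b : Γ) : (2 * Fintype.card Γ).choose 2 • b = 0 := by
  have : (2 * Fintype.card Γ).choose 2 = (2 * Fintype.card Γ - 1) * Fintype.card Γ := by
    rw [Nat.choose_two_right, mul_assoc, Nat.mul_div_cancel_left _ (by norm_num), mul_comm]
  rw [this, mul_smul, card_nsmul_eq_zero, smul_zero]

lemma two_card_smul [Fintype Γ] (b : Γ) : (2 * Fintype.card Γ) • b = 0 := by
  rw [mul_smul, card_nsmul_eq_zero, smul_zero]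

variable (Γ) in
/-- a maximal zero of a quadratic set function misses boundedly many points -/
lemma maxzero [Fintype Γ] : ∃ R : ℕ, ∀ (n : ℕ) (h : Finset (Fin n) → Γ) (α : Fin n → Γ)
    (β : Fin n → Fin n → Γ), Quad h α β → ∃ T, h T = h ∅ ∧ Tᶜ.card ≤ R := by
  obtain ⟨R, hR⟩ := ramsey Γ Γ (2 * Fintype.card Γ)
  refine ⟨R, fun n h α β q => ?_⟩
  classical
  obtain ⟨T, hT, hmax⟩ := exists_max_image (univ.filter fun T : Finset (Fin n) => h T = h ∅)
    card ⟨∅, by simp⟩
  refine ⟨T, (mem_filter.mp hT).2, ?_⟩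
  by_contra hc
  obtain ⟨a, b, T', hT', hcard, h1, h2⟩ := hR (Fin n) Tᶜ (fun v => α v + ∑ w ∈ T, β v w) β
    (by omega)
  have hd : Disjoint T' T := by
    rw [disjoint_left]
    intro v hv
    exact mem_compl.mp (hT' hv)
  have := q.union T T' hd b fun v hv w hw hne => by
    rcases lt_or_gt_of_ne hne with h | h
    · rw [q.1]; exact h2 w hw v hv h
    · exact h2 v hv w hw h
  rw [sum_congr rfl h1, sum_const, hcard, choose_smul, two_card_smul, add_zero, add_zero] at this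
  have h3 := hmax (T' ∪ T) (by simp [this, (mem_filter.mp hT).2])
  rw [card_union_of_disjoint hd, hcard] at h3
  have := Fintype.card_pos (α := Γ)
  omega

lemma exists_injOn {α β : Type} (s : Finset α) (t : Finset β) (h : s.card ≤ t.card)
    (d : α → β) : ∃ j : α → β, Set.InjOn j s ∧ ∀ a ∈ s, j a ∈ t := by
  classical
  obtain ⟨f⟩ : Nonempty (s ↪ t) := Function.Embedding.nonempty_of_card_le (by simpa using h)
  refine ⟨fun a => if h : a ∈ s then f ⟨a, h⟩ else d a, fun a ha b hb e => ?_, fun a ha => ?_⟩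
  · have ha' : a ∈ s := ha
    have hb' : b ∈ s := hb
    simp only [dif_pos ha', dif_pos hb'] at e
    simpa using f.injective (Subtype.ext e)
  · simp [ha]

lemma piecewise_inj {α β : Type} [DecidableEq α] (U : Finset α) (p j : α → β)
    (hp : Set.InjOn p U) (hj : ∀ a b, a ∉ U → b ∉ U → j a = j b → a = b)
    (hpj : ∀ a ∈ U, ∀ b, b ∉ U → p a ≠ j b) : Function.Injective (U.piecewise p j) := by
  intro a b e
  by_cases ha : a ∈ U <;> by_cases hb : b ∈ U
  · rw [piecewise_eq_of_mem _ _ _ ha, piecewise_eq_of_mem _ _ _ hb] at e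
    exact hp ha hb e
  · rw [piecewise_eq_of_mem _ _ _ ha, piecewise_eq_of_notMem _ _ _ hb] at e
    exact absurd e (hpj a ha b hb)
  · rw [piecewise_eq_of_notMem _ _ _ ha, piecewise_eq_of_mem _ _ _ hb] at e
    exact absurd e.symm (hpj b hb a ha)
  · rw [piecewise_eq_of_notMem _ _ _ ha, piecewise_eq_of_notMem _ _ _ hb] at e
    exact hj a b ha hb e

lemma exists_ext (U : Finset (Fin n)) (p : Fin n → Fin N) (hp : Set.InjOn p U)
    (Y : Finset (Fin N)) (hY : ∀ v ∈ U, p v ∈ Y) (hc : n + Y.card ≤ N) :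
    ∃ ι : Fin n → Fin N, Function.Injective ι ∧ (∀ v ∈ U, ι v = p v) ∧ ∀ v, v ∉ U → ι v ∉ Y := by
  obtain ⟨j, j1, j2⟩ := exists_injOn (univ : Finset (Fin n)) Yᶜ
    (by rw [card_compl]; simp; omega) p
  refine ⟨U.piecewise p j, piecewise_inj U p j hp (fun a b _ _ e => j1 (by simp) (by simp) e)
    (fun a ha b _ e => mem_compl.mp (j2 b (mem_univ _)) (e ▸ hY a ha)),
    fun v hv => piecewise_eq_of_mem _ _ _ hv, fun v hv => ?_⟩
  rw [piecewise_eq_of_notMem _ _ _ hv]
  exact mem_compl.mp (j2 v (mem_univ _))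

lemma final (R : ℕ) (hR : ∀ (h : Finset (Fin n) → Γ) (α : Fin n → Γ)
      (β : Fin n → Fin n → Γ), Quad h α β → ∃ T, h T = h ∅ ∧ Tᶜ.card ≤ R)
    (c : Sym2 (Fin N) → Γ) (H : AddSubgroup Γ) (K : Finset (Fin N)) (γ : Γ)
    (hK : ∀ x ∈ K, ∀ y ∈ K, x ≠ y → c s(x, y) = γ) (he : G.edgeFinset.card • γ = 0)
    (B : Finset (Fin n)) (ι : Fin n → Fin N) (hι : Function.Injective ι)
    (h1 : ∀ v ∈ B, ι v ∈ K) (h2 : ∀ v, v ∉ B → ι v ∉ K) (hc : B.card + R + 1 ≤ K.card)
    (tw : ∀ v w, G.Adj v w → v ∉ B → w ∉ B → ∀ y ∈ K, ∀ y' ∈ K,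
      c s(y, ι w) - c s(y', ι w) ∈ H) :
    ∃ (π : Fin n → Fin N) (D : Finset (Fin n)), Function.Injective π ∧ D.card ≤ R ∧
      (∀ v, v ∉ D → π v = ι v) ∧ (∀ v ∈ D, π v ∈ K) ∧ Phi G c π ∈ H := by
  classical
  have hK' : R + 1 ≤ (K \ B.image ι).card := by
    have h3 := le_card_sdiff (B.image ι) K
    have h4 := card_image_le (s := B) (f := ι)
    omega
  obtain ⟨k0, hk0⟩ : (K \ B.image ι).Nonempty := card_pos.mp (by omega)
  have hk0K := (mem_sdiff.mp hk0).1
  let c' : Sym2 (Fin N) → Γ := fun e => if ∀ x ∈ e, x ∈ K then γ else c e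
  have c'in : ∀ x y, x ∈ K → y ∈ K → c' s(x, y) = γ := fun x y hx hy => by simp [c', hx, hy]
  have c'out : ∀ x y, y ∉ K → c' s(x, y) = c s(x, y) := fun x y hy => by simp [c', hy]
  have c'ne : ∀ x y, x ≠ y → c' s(x, y) = c s(x, y) := fun x y hxy => by
    by_cases hy : y ∈ K
    · by_cases hx : x ∈ K
      · rw [c'in x y hx hy, hK x hx y hy hxy]
      · rw [Sym2.eq_swap, c'out y x hx]
    · exact c'out x y hy
  let p0 : Fin n → Fin N := B.piecewise ι fun _ => k0
  have p0K : ∀ v, p0 v ∈ K := fun v => by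
    by_cases hv : v ∈ B <;> simp [p0, hv, h1, hk0K]
  obtain ⟨T, hT, hTc⟩ := hR _ _ _ (quad_Phi G c' p0 ι)
  have z : Phi G c' p0 = 0 := by
    rw [← he, Phi, ← sum_const]
    refine sum_congr rfl fun e _ => ?_
    induction e using Sym2.ind with
    | _ a b => exact c'in _ _ (p0K a) (p0K b)
  simp only [piecewise_empty, z] at hT
  have hD : (Tᶜ \ B).card ≤ R := (card_le_card sdiff_subset).trans hTc
  obtain ⟨j, j1, j2⟩ := exists_injOn (Tᶜ \ B) (K \ B.image ι) (by omega) ι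
  have tau : ∀ v, T.piecewise ι p0 v = if v ∈ Tᶜ \ B then k0 else ι v := by
    intro v
    by_cases h : v ∈ T <;> by_cases h' : v ∈ B <;> simp [h, h', p0]
  have hinj : Function.Injective ((Tᶜ \ B).piecewise j ι) := by
    refine piecewise_inj _ _ _ j1 (fun a b _ _ e => hι e) fun a ha b _ e => ?_
    have := mem_sdiff.mp (j2 a ha)
    by_cases hb : b ∈ B
    · exact this.2 (e ▸ mem_image_of_mem _ hb)
    · exact h2 b hb (e ▸ this.1)
  refine ⟨(Tᶜ \ B).piecewise j ι, Tᶜ \ B, hinj, hD, fun v hv => piecewise_eq_of_notMem _ _ _ hv,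
    fun v hv => ?_, ?_⟩
  · rw [piecewise_eq_of_mem _ _ _ hv]
    exact (mem_sdiff.mp (j2 v hv)).1
  · rw [← sub_zero (Phi G c _), ← hT, Phi, Phi, ← sum_sub_distrib]
    have key : ∀ v w, G.Adj v w → v ∈ Tᶜ \ B →
        c s((Tᶜ \ B).piecewise j ι v, (Tᶜ \ B).piecewise j ι w) -
          c' s(T.piecewise ι p0 v, T.piecewise ι p0 w) ∈ H := by
      intro v w hvw hv
      have hne := hinj.ne hvw.ne
      rw [piecewise_eq_of_mem _ _ _ hv] at hne
      rw [tau, tau, if_pos hv, piecewise_eq_of_mem _ _ _ hv]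
      have jv := (mem_sdiff.mp (j2 v hv)).1
      by_cases hw : w ∈ Tᶜ \ B
      · rw [piecewise_eq_of_mem _ _ _ hw] at hne
        rw [if_pos hw, piecewise_eq_of_mem _ _ _ hw, c'in _ _ hk0K hk0K,
          hK _ jv _ (mem_sdiff.mp (j2 w hw)).1 hne, sub_self]
        exact H.zero_mem
      · rw [piecewise_eq_of_notMem _ _ _ hw] at hne
        rw [if_neg hw, piecewise_eq_of_notMem _ _ _ hw]
        by_cases hB : w ∈ B
        · rw [c'in _ _ hk0K (h1 w hB), hK _ jv _ (h1 w hB) hne, sub_self]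
          exact H.zero_mem
        · rw [c'out _ _ (h2 w hB)]
          exact tw v w hvw (mem_sdiff.mp hv).2 hB _ jv _ hk0K
    refine sum_mem fun e he => ?_
    induction e using Sym2.ind with
    | _ v w =>
      have hvw : G.Adj v w := by simpa using he
      simp only [Sym2.map_mk]
      by_cases hv : v ∈ Tᶜ \ B
      · exact key v w hvw hv
      · by_cases hw : w ∈ Tᶜ \ B
        · rw [Sym2.eq_swap, Sym2.eq_swap (a := T.piecewise ι p0 v)]
          exact key w v hvw.symm hw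
        · rw [tau, tau, if_neg hv, if_neg hw, piecewise_eq_of_notMem _ _ _ hv,
            piecewise_eq_of_notMem _ _ _ hw, c'ne _ _ (hι.ne hvw.ne), sub_self]
          exact H.zero_mem

end Pool.Agent.H23.ZS
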