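import Pool.Agent.H23.ZS1

set_option autoImplicit false
set_option maxSynthPendingDepth 3

namespace Pool.Agent.H23.ZS
open Finset Pointwise

variable {Γ : Type} [AddCommGroup Γ] {n N : ℕ} (G : SimpleGraph (Fin n)) [DecidableRel G.Adj]

omit [DecidableRel G.Adj] in
lemma matching (M : ℕ) : ∀ U : Finset (Fin n),
    (∃ B : Finset (Fin n), B.card ≤ U.card + 2 * M ∧ ∀ v w, G.Adj v w → v ∈ B ∨ w ∈ B) ∨
    ∃ u u' : Fin M → Fin n, Function.Injective u ∧ Function.Injective u' ∧ (∀ i j, u i ≠ u' j) ∧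
      ∀ i, G.Adj (u i) (u' i) ∧ u i ∉ U ∧ u' i ∉ U := by
  induction M with
  | zero =>
    intro U
    exact Or.inr ⟨Fin.elim0, Fin.elim0, fun i => i.elim0, fun i => i.elim0, fun i => i.elim0,
      fun i => i.elim0⟩
  | succ M ih =>
    intro U
    by_cases h : ∀ v w, G.Adj v w → v ∈ U ∨ w ∈ U
    · exact Or.inl ⟨U, by omega, h⟩
    · push Not at h
      obtain ⟨a, b, hab, ha, hb⟩ := h
      rcases ih (insert a (insert b U)) with ⟨B, h1, h2⟩ | ⟨u, u', h1, h2, h3, h4⟩
      · refine Or.inl ⟨B, ?_, h2⟩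
        have := card_insert_le a (insert b U)
        have := card_insert_le b U
        omega
      · simp only [mem_insert, not_or] at h4
        refine Or.inr ⟨Fin.cons a u, Fin.cons b u', ?_, ?_, ?_, ?_⟩
        · rw [Fin.cons_injective_iff]
          exact ⟨fun ⟨i, e⟩ => (h4 i).2.1.1 e, h1⟩
        · rw [Fin.cons_injective_iff]
          exact ⟨fun ⟨i, e⟩ => (h4 i).2.2.2.1 e, h2⟩
        · intro i j
          refine Fin.cases ?_ (fun i => ?_) i <;> refine Fin.cases ?_ (fun j => ?_) j <;>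
            simp only [Fin.cons_zero, Fin.cons_succ]
          · exact hab.ne
          · exact Ne.symm (h4 j).2.2.1
          · exact (h4 i).2.1.2.1
          · exact h3 i j
        · intro i
          refine Fin.cases ?_ (fun i => ?_) i <;> simp only [Fin.cons_zero, Fin.cons_succ]
          · exact ⟨hab, ha, hb⟩
          · exact ⟨(h4 i).1, (h4 i).2.1.2.2, (h4 i).2.2.2.2⟩

def Twin (H : AddSubgroup Γ) (c : Sym2 (Fin N) → Γ) (x y : Fin N) : Prop :=
  ∀ z, z ≠ x → z ≠ y → c s(x, z) - c s(y, z) ∈ H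

lemma Twin.symm {H : AddSubgroup Γ} {c : Sym2 (Fin N) → Γ} {x y : Fin N} (h : Twin H c x y) :
    Twin H c y x := fun z h1 h2 => by simpa using H.neg_mem (h z h2 h1)

lemma refine1 [Fintype Γ] (c : Sym2 (Fin N) → Γ) (Z : Finset (Fin N)) (y : Fin N) (t : ℕ)
    (h : Fintype.card Γ * t + 1 ≤ Z.card) :
    ∃ Z' ⊆ Z.erase y, t ≤ Z'.card ∧ ∃ γ, ∀ a ∈ Z', c s(a, y) = γ := by
  classical
  have := pred_card_le_card_erase (s := Z) (a := y)
  obtain ⟨γ, -, hγ⟩ := exists_le_card_fiber_of_mul_le_card_of_maps_to (s := Z.erase y)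
    (t := univ) (f := fun a => c s(a, y)) (n := t) (fun _ _ => mem_univ _) univ_nonempty
    (by rw [card_univ]; omega)
  exact ⟨_, filter_subset _ _, hγ, γ, fun a ha => (mem_filter.mp ha).2⟩

variable (Γ) in
lemma pattern [Fintype Γ] (m : ℕ) : ∃ t : ℕ, ∀ (N : ℕ) (c : Sym2 (Fin N) → Γ) (H : AddSubgroup Γ)
    (Z Y : Finset (Fin N)), (∀ a ∈ Z, ∀ b ∈ Z, a ≠ b → ¬ Twin H c a b) → Disjoint Z Y →
    (∀ y ∈ Y, ∀ a ∈ Z, ∀ b ∈ Z, c s(a, y) = c s(b, y)) → t ≤ Z.card →
    ∃ (x z : Fin m → Fin N) (γ : Fin m → Γ), (∀ i, x i ∈ Z) ∧ (∀ i, z i ∉ Y) ∧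
      Function.Injective x ∧ Function.Injective z ∧ (∀ i j, x i ≠ z j) ∧
      (∀ i j, i < j → c s(x j, z i) = γ i) ∧ ∀ i, c s(x i, z i) - γ i ∉ H := by
  induction m with
  | zero =>
    exact ⟨0, fun N c H Z Y _ _ _ _ => ⟨Fin.elim0, Fin.elim0, Fin.elim0, fun i => i.elim0,
      fun i => i.elim0, fun i => i.elim0, fun i => i.elim0, fun i => i.elim0, fun i => i.elim0,
      fun i => i.elim0⟩⟩
  | succ m ih =>
    obtain ⟨t, ht⟩ := ih
    refine ⟨Fintype.card Γ * (Fintype.card Γ * t + 1) + 2, fun N c H Z Y h1 h2 h3 h4 => ?_⟩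
    obtain ⟨a, ha, b, hb, hab⟩ := one_lt_card.mp (by omega : 1 < Z.card)
    have := h1 a ha b hb hab
    unfold Twin at this
    push Not at this
    obtain ⟨z0, za, zb, hz⟩ := this
    have zY : z0 ∉ Y := fun h => hz (by rw [h3 z0 h a ha b hb, sub_self]; exact H.zero_mem)
    obtain ⟨Z1, hZ1, c1, γ0, hγ0⟩ := refine1 c Z z0 _ (by omega :
      Fintype.card Γ * (Fintype.card Γ * t + 1) + 1 ≤ Z.card)
    obtain ⟨x0, hx0, xz, hx⟩ : ∃ x0 ∈ Z, x0 ≠ z0 ∧ c s(x0, z0) - γ0 ∉ H := by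
      by_cases h : c s(a, z0) - γ0 ∈ H
      · exact ⟨b, hb, zb.symm, fun h' => hz (by simpa using H.sub_mem h h')⟩
      · exact ⟨a, ha, za.symm, h⟩
    obtain ⟨Z2, hZ2, c2, γ1, hγ1⟩ := refine1 c Z1 x0 t c1
    have s21 : Z2 ⊆ Z1 := hZ2.trans (erase_subset _ _)
    have s2 : Z2 ⊆ Z := s21.trans (hZ1.trans (erase_subset _ _))
    obtain ⟨x, z, γ, p1, p2, p3, p4, p5, p6, p7⟩ := ht N c H Z2 (insert z0 (insert x0 Y))
      (fun a ha b hb => h1 a (s2 ha) b (s2 hb))
      (by
        rw [disjoint_insert_right, disjoint_insert_right]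
        exact ⟨fun h => by simpa using hZ1 (s21 h), fun h => by simpa using hZ2 h,
          h2.mono_left s2⟩)
      (by
        intro y hy a ha b hb
        rcases mem_insert.mp hy with rfl | hy
        · rw [hγ0 a (s21 ha), hγ0 b (s21 hb)]
        · rcases mem_insert.mp hy with rfl | hy
          · rw [hγ1 a ha, hγ1 b hb]
          · exact h3 y hy a (s2 ha) b (s2 hb)) c2
    simp only [mem_insert, not_or] at p2
    refine ⟨Fin.cons x0 x, Fin.cons z0 z, Fin.cons γ0 γ, ?_, ?_, ?_, ?_, ?_, ?_, ?_⟩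
    · intro i
      refine Fin.cases ?_ (fun i => ?_) i <;> simp only [Fin.cons_zero, Fin.cons_succ]
      · exact hx0
      · exact s2 (p1 i)
    · intro i
      refine Fin.cases ?_ (fun i => ?_) i <;> simp only [Fin.cons_zero, Fin.cons_succ]
      · exact zY
      · exact (p2 i).2.2
    · rw [Fin.cons_injective_iff]
      exact ⟨fun ⟨i, e⟩ => by simpa [e] using hZ2 (p1 i), p3⟩
    · rw [Fin.cons_injective_iff]
      exact ⟨fun ⟨i, e⟩ => (p2 i).1 e, p4⟩
    · intro i j
      refine Fin.cases ?_ (fun i => ?_) i <;> refine Fin.cases ?_ (fun j => ?_) j <;>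
        simp only [Fin.cons_zero, Fin.cons_succ]
      · exact xz
      · exact Ne.symm (p2 j).2.1
      · exact fun e => by simpa [e] using hZ1 (s21 (p1 i))
      · exact p5 i j
    · intro i j
      refine Fin.cases ?_ (fun i => ?_) i <;> refine Fin.cases ?_ (fun j => ?_) j <;>
        simp only [Fin.cons_zero, Fin.cons_succ]
      · intro h; exact absurd h (lt_irrefl _)
      · intro _; exact hγ0 _ (s21 (p1 j))
      · intro h; exact absurd h (by simp)
      · intro h; exact p6 i j (Fin.succ_lt_succ_iff.mp h)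
    · intro i
      refine Fin.cases ?_ (fun i => ?_) i <;> simp only [Fin.cons_zero, Fin.cons_succ]
      · exact hx
      · exact p7 i

lemma split3 {α : Type} [LinearOrder α] (J : Finset α) (m : ℕ) (h : 2 * m + 1 ≤ J.card) :
    ∃ A ⊆ J, ∃ B ⊆ J, ∃ g0, g0 ∈ A ∧ g0 ∈ B ∧ A.card = m + 1 ∧ B.card = m + 1 ∧
      ∀ a ∈ A, ∀ b ∈ B, b < a ∨ (a = g0 ∧ b = g0) := by
  obtain ⟨J', hJ', hc⟩ := exists_subset_card_eq h
  let e := J'.orderEmbOfFin hc
  let m' : Fin (2 * m + 1) := ⟨m, by omega⟩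
  have sub : ∀ S : Finset (Fin (2 * m + 1)), S.image e ⊆ J := fun S a ha => by
    obtain ⟨i, -, rfl⟩ := mem_image.mp ha
    exact hJ' (orderEmbOfFin_mem _ _ _)
  refine ⟨(Ici m').image e, sub _, (Iic m').image e, sub _, e m',
    mem_image_of_mem _ (by simp), mem_image_of_mem _ (by simp), ?_, ?_, ?_⟩
  · rw [card_image_of_injective _ e.injective, Fin.card_Ici]; simp [m']; omega
  · rw [card_image_of_injective _ e.injective, Fin.card_Iic]
  · intro a ha b hb
    obtain ⟨i, hi, rfl⟩ := mem_image.mp ha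
    obtain ⟨j, hj, rfl⟩ := mem_image.mp hb
    have hi' := mem_Ici.mp hi
    have hj' := mem_Iic.mp hj
    by_cases hlt : j < i
    · exact Or.inl (e.strictMono hlt)
    · have h1 : i = m' := le_antisymm ((not_lt.mp hlt).trans hj') hi'
      have h2 : j = m' := le_antisymm hj' (hi'.trans (not_lt.mp hlt))
      exact Or.inr ⟨by rw [h1], by rw [h2]⟩

def Able (c : Sym2 (Fin N) → Γ) (R : ℕ) (U : Finset (Fin n)) (pos alt : Fin n → Fin N) (σ : Γ) :
    Prop :=
  ∀ (π : Fin n → Fin N) (D : Finset (Fin n)), D.card ≤ R → (∀ v ∈ U, v ∉ D → π v = pos v) →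
    ∃ T ⊆ U \ D, Phi G c (T.piecewise alt π) = Phi G c π + σ

variable (Γ) in
lemma minipool [Fintype Γ] (R : ℕ) : ∃ M : ℕ, ∀ (n N : ℕ) (G : SimpleGraph (Fin n))
    [DecidableRel G.Adj] (c : Sym2 (Fin N) → Γ) (H : AddSubgroup Γ) (u u' : Fin M → Fin n)
    (pos alt : Fin n → Fin N), Function.Injective u → Function.Injective u' →
    (∀ i j, u i ≠ u' j) → (∀ g, Bc G c pos alt (u g) (u' g) ∉ H) →
    (∀ g h, h < g → Bc G c pos alt (u g) (u' h) = 0) →
    ∃ δ, δ ∉ H ∧ Able G c R (univ.image u ∪ univ.image u') pos alt δ := by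
  classical
  have epos := Fintype.card_pos (α := Γ)
  obtain ⟨M, hM⟩ := ramsey Γ (Γ × Γ) (2 * R + Fintype.card (Γ × Γ) * (4 * Fintype.card Γ) + 1)
  refine ⟨M, fun n N G _ c H u u' pos alt hu hu' huu hδ h0 => ?_⟩
  obtain ⟨δ, b, I, -, hI, h1, h2⟩ := hM (Fin M) univ (fun g => Bc G c pos alt (u g) (u' g))
    (fun g h => (Bc G c pos alt (u g) (u h), Bc G c pos alt (u' g) (u' h))) (by simp)
  obtain ⟨g1, hg1⟩ : I.Nonempty := card_pos.mp (by omega)
  refine ⟨δ, h1 g1 hg1 ▸ hδ g1, fun π D hD hπ => ?_⟩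
  let I' := I.filter fun g => u g ∉ D ∧ u' g ∉ D
  have cI' : Fintype.card (Γ × Γ) * (4 * Fintype.card Γ) ≤ I'.card := by
    have e1 := card_filter_add_card_filter_not (s := I) (fun g => u g ∉ D ∧ u' g ∉ D)
    have e2 : I.filter (fun g => ¬ (u g ∉ D ∧ u' g ∉ D)) ⊆
        univ.filter (fun g => u g ∈ D) ∪ univ.filter (fun g => u' g ∈ D) := by
      intro g hg
      have := (mem_filter.mp hg).2
      simp only [mem_union, mem_filter, mem_univ, true_and]
      tauto
    have e3 : ∀ f : Fin M → Fin n, Function.Injective f →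
        (univ.filter (fun g => f g ∈ D)).card ≤ D.card := fun f hf =>
      card_le_card_of_injOn f (fun g hg => (mem_filter.mp hg).2) hf.injOn
    have e4 := (card_le_card e2).trans (card_union_le _ _)
    have := e3 u hu
    have := e3 u' hu'
    simp only [I']
    omega
  obtain ⟨a, -, ha⟩ := exists_le_card_fiber_of_mul_le_card_of_maps_to (s := I') (t := univ)
    (f := fun g => (Al G c π alt (u g), Al G c π alt (u' g))) (fun _ _ => mem_univ _)
    univ_nonempty cI'
  obtain ⟨A, hA, B, hB, g0, gA, gB, cA, cB, hAB⟩ := split3 _ (2 * Fintype.card Γ - 1)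
    (le_trans (by omega) ha)
  have cA' : A.card = 2 * Fintype.card Γ := by omega
  have cB' : B.card = 2 * Fintype.card Γ := by omega
  set J := I'.filter fun g => (Al G c π alt (u g), Al G c π alt (u' g)) = a with hJ
  have JI : ∀ g ∈ J, g ∈ I := fun g hg => (mem_filter.mp (mem_filter.mp hg).1).1
  have JD : ∀ g ∈ J, u g ∉ D ∧ u' g ∉ D := fun g hg => (mem_filter.mp (mem_filter.mp hg).1).2
  have Ja : ∀ g ∈ J, Al G c π alt (u g) = a.1 ∧ Al G c π alt (u' g) = a.2 := fun g hg =>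
    Prod.ext_iff.mp (mem_filter.mp hg).2
  have pu : ∀ g ∈ J, π (u g) = pos (u g) := fun g hg =>
    hπ _ (mem_union_left _ (mem_image_of_mem _ (mem_univ _))) (JD g hg).1
  have pu' : ∀ g ∈ J, π (u' g) = pos (u' g) := fun g hg =>
    hπ _ (mem_union_right _ (mem_image_of_mem _ (mem_univ _))) (JD g hg).2
  have Beq : ∀ v w, π v = pos v → π w = pos w → Bc G c π alt v w = Bc G c pos alt v w := by
    intro v w h1 h2
    simp only [Bc, h1, h2]
  have q := quad_Phi G c π alt
  have s1 := q.union ∅ (B.image u') (disjoint_empty_right _) b.2 (by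
    intro v hv w hw hne
    obtain ⟨g, hg, rfl⟩ := mem_image.mp hv
    obtain ⟨h, hh, rfl⟩ := mem_image.mp hw
    rw [Beq _ _ (pu' g (hB hg)) (pu' h (hB hh))]
    rcases lt_trichotomy g h with l | l | l
    · rw [Bc_symm]; exact (Prod.ext_iff.mp (h2 h (JI h (hB hh)) g (JI g (hB hg)) l)).2
    · exact absurd (l ▸ rfl) hne
    · exact (Prod.ext_iff.mp (h2 g (JI g (hB hg)) h (JI h (hB hh)) l)).2)
  have s2 := q.union (B.image u') (A.image u) (by
    rw [disjoint_left]
    intro v hv hw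
    obtain ⟨g, -, rfl⟩ := mem_image.mp hv
    obtain ⟨h, -, e⟩ := mem_image.mp hw
    exact huu g h e.symm) b.1 (by
    intro v hv w hw hne
    obtain ⟨g, hg, rfl⟩ := mem_image.mp hv
    obtain ⟨h, hh, rfl⟩ := mem_image.mp hw
    rw [Beq _ _ (pu g (hA hg)) (pu h (hA hh))]
    rcases lt_trichotomy g h with l | l | l
    · rw [Bc_symm]; exact (Prod.ext_iff.mp (h2 h (JI h (hA hh)) g (JI g (hA hg)) l)).1
    · exact absurd (l ▸ rfl) hne
    · exact (Prod.ext_iff.mp (h2 g (JI g (hA hg)) h (JI h (hA hh)) l)).1)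
  rw [card_image_of_injective _ hu', cB', choose_smul, sum_image hu'.injOn,
    sum_congr rfl (g := fun _ => a.2) (fun g hg => by simp [(Ja g (hB hg)).2]), sum_const, cB',
    two_card_smul, union_empty] at s1
  rw [card_image_of_injective _ hu, cA', choose_smul, sum_image hu.injOn, s1,
    sum_congr rfl (g := fun g => a.1 + if g = g0 then δ else 0) (fun g hg => by
      rw [(Ja g (hA hg)).1, sum_image hu'.injOn, sum_eq_single g0]
      · rw [Beq _ _ (pu g (hA hg)) (pu' g0 (hB gB))]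
        split_ifs with e
        · rw [e, h1 g0 (JI g0 (hB gB))]
        · rcases hAB g hg g0 gB with l | l
          · rw [h0 g g0 l]
          · exact absurd l.1 e
      · intro h hh hne
        rw [Beq _ _ (pu g (hA hg)) (pu' h (hB hh))]
        rcases hAB g hg h hh with l | l
        · exact h0 g h l
        · exact absurd l.2 hne
      · intro h; exact absurd gB h), sum_add_distrib, sum_const, cA', two_card_smul,
    sum_ite_eq', if_pos gA] at s2
  refine ⟨A.image u ∪ B.image u', ?_, by simpa using s2⟩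
  intro v hv
  rcases mem_union.mp hv with hv | hv
  · obtain ⟨g, hg, rfl⟩ := mem_image.mp hv
    exact mem_sdiff.mpr ⟨mem_union_left _ (mem_image_of_mem _ (mem_univ _)), (JD g (hA hg)).1⟩
  · obtain ⟨g, hg, rfl⟩ := mem_image.mp hv
    exact mem_sdiff.mpr ⟨mem_union_right _ (mem_image_of_mem _ (mem_univ _)), (JD g (hB hg)).2⟩

end Pool.Agent.H23.ZS
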