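import Pool.Agent.H23.ZS2

set_option autoImplicit false
set_option maxSynthPendingDepth 3

namespace Pool.Agent.H23.ZS
open Finset Pointwise

variable {Γ : Type} [AddCommGroup Γ] {n N : ℕ} (G : SimpleGraph (Fin n)) [DecidableRel G.Adj]

def Sys (c : Sym2 (Fin N) → Γ) (R : ℕ) (U : Finset (Fin n)) (pos alt : Fin n → Fin N)
    (S : Finset Γ) : Prop :=
  Set.InjOn pos U ∧ Set.InjOn alt U ∧ (∀ v ∈ U, ∀ w ∈ U, pos v ≠ alt w) ∧
    ∀ σ ∈ S, Able G c R U pos alt σ

lemma Able.mono {c : Sym2 (Fin N) → Γ} {R : ℕ} {U : Finset (Fin n)}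
    {pos alt pos' alt' : Fin n → Fin N} {σ : Γ} (h : Able G c R U pos alt σ)
    (h1 : ∀ v ∈ U, pos' v = pos v) (h2 : ∀ v ∈ U, alt' v = alt v) :
    ∀ (π : Fin n → Fin N) (D : Finset (Fin n)), D.card ≤ R → (∀ v ∈ U, v ∉ D → π v = pos' v) →
      ∃ T ⊆ U \ D, Phi G c (T.piecewise alt' π) = Phi G c π + σ := by
  intro π D hD hπ
  obtain ⟨T, hT, e⟩ := h π D hD fun v hv hv' => (hπ v hv hv').trans (h1 v hv)
  refine ⟨T, hT, ?_⟩
  rw [← e]
  congr 1
  exact piecewise_congr _ (fun v hv => h2 v (mem_sdiff.mp (hT hv)).1) fun _ _ => rfl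

lemma Sys.extend [DecidableEq Γ] {c : Sym2 (Fin N) → Γ} {R : ℕ} {U U' : Finset (Fin n)}
    {pos alt pos' alt' : Fin n → Fin N} {S : Finset Γ} {δ : Γ} (h : Sys G c R U pos alt S)
    (h' : Sys G c R U' pos' alt' {δ}) (hd : Disjoint U U')
    (hY : ∀ v ∈ U', pos' v ∉ U.image pos ∪ U.image alt ∧ alt' v ∉ U.image pos ∪ U.image alt) :
    Sys G c R (U ∪ U') (U.piecewise pos pos') (U.piecewise alt alt') (S ∪ (δ +ᵥ S)) := by
  have m1 : ∀ v ∈ U, ∀ f g : Fin n → Fin N, U.piecewise f g v = f v :=
    fun v hv f g => piecewise_eq_of_mem _ _ _ hv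
  have m2 : ∀ v ∈ U', ∀ f g : Fin n → Fin N, U.piecewise f g v = g v :=
    fun v hv f g => piecewise_eq_of_notMem _ _ _ (disjoint_right.mp hd hv)
  have y1 : ∀ v ∈ U, pos v ∈ U.image pos ∪ U.image alt :=
    fun v hv => mem_union_left _ (mem_image_of_mem _ hv)
  have y2 : ∀ v ∈ U, alt v ∈ U.image pos ∪ U.image alt :=
    fun v hv => mem_union_right _ (mem_image_of_mem _ hv)
  refine ⟨?_, ?_, ?_, ?_⟩
  · intro v hv w hw e
    rcases mem_union.mp hv with hv | hv <;> rcases mem_union.mp hw with hw | hw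
    · rw [m1 v hv, m1 w hw] at e; exact h.1 hv hw e
    · rw [m1 v hv, m2 w hw] at e; exact absurd (e ▸ y1 v hv) (hY w hw).1
    · rw [m2 v hv, m1 w hw] at e; exact absurd (e ▸ y1 w hw) (hY v hv).1
    · rw [m2 v hv, m2 w hw] at e; exact h'.1 hv hw e
  · intro v hv w hw e
    rcases mem_union.mp hv with hv | hv <;> rcases mem_union.mp hw with hw | hw
    · rw [m1 v hv, m1 w hw] at e; exact h.2.1 hv hw e
    · rw [m1 v hv, m2 w hw] at e; exact absurd (e ▸ y2 v hv) (hY w hw).2
    · rw [m2 v hv, m1 w hw] at e; exact absurd (e ▸ y2 w hw) (hY v hv).2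
    · rw [m2 v hv, m2 w hw] at e; exact h'.2.1 hv hw e
  · intro v hv w hw e
    rcases mem_union.mp hv with hv | hv <;> rcases mem_union.mp hw with hw | hw
    · rw [m1 v hv, m1 w hw] at e; exact h.2.2.1 v hv w hw e
    · rw [m1 v hv, m2 w hw] at e; exact absurd (e ▸ y1 v hv) (hY w hw).2
    · rw [m2 v hv, m1 w hw] at e; exact absurd (e ▸ y2 w hw) (hY v hv).1
    · rw [m2 v hv, m2 w hw] at e; exact h'.2.2.1 v hv w hw e
  · have a1 : ∀ σ ∈ S, ∀ (π : Fin n → Fin N) (D : Finset (Fin n)), D.card ≤ R →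
        (∀ v ∈ U, v ∉ D → π v = U.piecewise pos pos' v) →
        ∃ T ⊆ U \ D, Phi G c (T.piecewise (U.piecewise alt alt') π) = Phi G c π + σ :=
      fun σ hσ => (h.2.2.2 σ hσ).mono G (fun v hv => m1 v hv _ _)
        (fun v hv => m1 v hv _ _)
    have a2 := (h'.2.2.2 δ (mem_singleton_self _)).mono G
      (pos' := U.piecewise pos pos') (alt' := U.piecewise alt alt')
      (fun v hv => m2 v hv _ _) (fun v hv => m2 v hv _ _)
    intro σ hσ π D hD hπ
    rcases mem_union.mp hσ with hσ | hσ
    · obtain ⟨T, hT, e⟩ := a1 σ hσ π D hD fun v hv => hπ v (mem_union_left _ hv)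
      exact ⟨T, hT.trans (sdiff_subset_sdiff subset_union_left (subset_refl _)), e⟩
    · obtain ⟨τ, hτ, rfl⟩ := mem_vadd_finset.mp hσ
      obtain ⟨T, hT, e⟩ := a1 τ hτ π D hD fun v hv => hπ v (mem_union_left _ hv)
      obtain ⟨T', hT', e'⟩ := a2 (T.piecewise (U.piecewise alt alt') π) D hD fun v hv hv' => by
        rw [piecewise_eq_of_notMem _ _ _
          (fun h => disjoint_left.mp hd (mem_sdiff.mp (hT h)).1 hv)]
        exact hπ v (mem_union_right _ hv) hv'
      refine ⟨T' ∪ T, union_subset (hT'.trans (sdiff_subset_sdiff subset_union_right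
        (subset_refl _))) (hT.trans (sdiff_subset_sdiff subset_union_left (subset_refl _))), ?_⟩
      have : (T' ∪ T).piecewise (U.piecewise alt alt') π =
          T'.piecewise (U.piecewise alt alt') (T.piecewise (U.piecewise alt alt') π) := by
        funext v
        by_cases h1 : v ∈ T' <;> by_cases h2 : v ∈ T <;> simp [h1, h2]
      rw [this, e', e, vadd_eq_add]
      abel

/-- from a matching and a host pattern to a system realising one new element -/
lemma newpool {M R : ℕ} (c : Sym2 (Fin N) → Γ) (H : AddSubgroup Γ)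
    (hM : ∀ (u u' : Fin M → Fin n)
      (pos alt : Fin n → Fin N), Function.Injective u → Function.Injective u' →
      (∀ i j, u i ≠ u' j) → (∀ g, Bc G c pos alt (u g) (u' g) ∉ H) →
      (∀ g h, h < g → Bc G c pos alt (u g) (u' h) = 0) →
      ∃ δ, δ ∉ H ∧ Able G c R (univ.image u ∪ univ.image u') pos alt δ)
    (u u' : Fin M → Fin n) (hu : Function.Injective u) (hu' : Function.Injective u')
    (huu : ∀ i j, u i ≠ u' j) (hadj : ∀ i, G.Adj (u i) (u' i))
    (x z : Fin (3 * M) → Fin N) (γ : Fin (3 * M) → Γ) (Y : Finset (Fin N)) (d : Fin n → Fin N)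
    (xY : ∀ i, x i ∉ Y) (zY : ∀ i, z i ∉ Y)
    (hx : Function.Injective x) (hz : Function.Injective z) (hxz : ∀ i j, x i ≠ z j)
    (p1 : ∀ i j, i < j → c s(x j, z i) = γ i) (p2 : ∀ i, c s(x i, z i) - γ i ∉ H) :
    ∃ pos alt δ, δ ∉ H ∧ Sys G c R (univ.image u ∪ univ.image u') pos alt {δ} ∧
      ∀ v ∈ univ.image u ∪ univ.image u', pos v ∉ Y ∧ alt v ∉ Y := by
  let i0 : Fin M → Fin (3 * M) := fun g => ⟨g, by omega⟩
  let i1 : Fin M → Fin (3 * M) := fun g => ⟨M + g, by omega⟩
  let i2 : Fin M → Fin (3 * M) := fun g => ⟨2 * M + g, by omega⟩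
  let pos := Function.extend u (x ∘ i2) (Function.extend u' (z ∘ i0) d)
  let alt := Function.extend u (x ∘ i1) (Function.extend u' (z ∘ i1) d)
  have e1 : ∀ g, pos (u g) = x (i2 g) := fun g => hu.extend_apply _ _ g
  have e2 : ∀ g, alt (u g) = x (i1 g) := fun g => hu.extend_apply _ _ g
  have e3 : ∀ g, pos (u' g) = z (i0 g) := fun g => by
    simp only [pos]
    rw [Function.extend_apply' _ _ _ (fun ⟨i, e⟩ => huu i g e), hu'.extend_apply]; rfl
  have e4 : ∀ g, alt (u' g) = z (i1 g) := fun g => by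
    simp only [alt]
    rw [Function.extend_apply' _ _ _ (fun ⟨i, e⟩ => huu i g e), hu'.extend_apply]; rfl
  have cases : ∀ v ∈ univ.image u ∪ univ.image u', (∃ g, v = u g) ∨ ∃ g, v = u' g := by
    intro v hv
    rcases mem_union.mp hv with hv | hv <;> obtain ⟨g, -, rfl⟩ := mem_image.mp hv
    · exact Or.inl ⟨g, rfl⟩
    · exact Or.inr ⟨g, rfl⟩
  obtain ⟨δ, hδ, hA⟩ := hM u u' pos alt hu hu' huu (fun g => by
      rw [Bc, if_pos (hadj g), e1, e2, e3, e4, p1 (i1 g) (i2 g) (Fin.mk_lt_mk.mpr (by omega)),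
        p1 (i0 g) (i1 g) (Fin.mk_lt_mk.mpr (by omega)),
        p1 (i0 g) (i2 g) (Fin.mk_lt_mk.mpr (by omega)), sub_add_cancel]
      exact p2 _)
    (fun g h hgh => by
      have : h.val < g.val := hgh
      rw [Bc, e1, e2, e3, e4, p1 (i1 h) (i2 g) (Fin.mk_lt_mk.mpr (by omega)),
        p1 (i0 h) (i1 g) (Fin.mk_lt_mk.mpr (by omega)),
        p1 (i0 h) (i2 g) (Fin.mk_lt_mk.mpr (by omega)),
        p1 (i1 h) (i1 g) (Fin.mk_lt_mk.mpr (by omega))]
      simp)
  refine ⟨pos, alt, δ, hδ, ⟨?_, ?_, ?_, by simpa using hA⟩, ?_⟩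
  · intro v hv w hw e
    rcases cases v hv with ⟨g, rfl⟩ | ⟨g, rfl⟩ <;> rcases cases w hw with ⟨h, rfl⟩ | ⟨h, rfl⟩ <;>
      simp only [e1, e3] at e
    · have := congrArg Fin.val (hx e)
      simp only [i2] at this
      rw [Fin.ext (by omega : g.val = h.val)]
    · exact absurd e (hxz _ _)
    · exact absurd e.symm (hxz _ _)
    · have := congrArg Fin.val (hz e)
      simp only [i0] at this
      rw [Fin.ext (by omega : g.val = h.val)]
  · intro v hv w hw e
    rcases cases v hv with ⟨g, rfl⟩ | ⟨g, rfl⟩ <;> rcases cases w hw with ⟨h, rfl⟩ | ⟨h, rfl⟩ <;>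
      simp only [e2, e4] at e
    · have := congrArg Fin.val (hx e)
      simp only [i1] at this
      rw [Fin.ext (by omega : g.val = h.val)]
    · exact absurd e (hxz _ _)
    · exact absurd e.symm (hxz _ _)
    · have := congrArg Fin.val (hz e)
      simp only [i1] at this
      rw [Fin.ext (by omega : g.val = h.val)]
  · intro v hv w hw e
    rcases cases v hv with ⟨g, rfl⟩ | ⟨g, rfl⟩ <;> rcases cases w hw with ⟨h, rfl⟩ | ⟨h, rfl⟩ <;>
      simp only [e1, e2, e3, e4] at e
    · have := congrArg Fin.val (hx e)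
      simp only [i1, i2] at this
      omega
    · exact absurd e (hxz _ _)
    · exact absurd e.symm (hxz _ _)
    · have := congrArg Fin.val (hz e)
      simp only [i0, i1] at this
      omega
  · intro v hv
    rcases cases v hv with ⟨g, rfl⟩ | ⟨g, rfl⟩
    · rw [e1, e2]; exact ⟨xY _, xY _⟩
    · rw [e3, e4]; exact ⟨zY _, zY _⟩

variable (Γ) in
theorem zero_sum [Fintype Γ] : ∃ C : ℕ, ∀ (n N : ℕ) (G : SimpleGraph (Fin n)) [DecidableRel G.Adj]
    (c : Sym2 (Fin N) → Γ), n + C ≤ N → (∀ γ : Γ, G.edgeFinset.card • γ = 0) →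
    ∃ π : Fin n → Fin N, Function.Injective π ∧ Phi G c π = 0 := by
  classical
  obtain ⟨R, hR⟩ := maxzero Γ
  obtain ⟨M, hM⟩ := minipool Γ R
  obtain ⟨t, ht⟩ := pattern Γ (3 * M)
  set e := Fintype.card Γ with he
  let y := 4 * M * e
  let k := 2 * M * e + 2 * M + R + 1 + e ^ y * t
  obtain ⟨R2, hR2⟩ := ramsey Unit (Γ × Prop) k
  refine ⟨R2 + y + k, fun n N G _ c hN hG => ?_⟩
  by_contra hgoal
  have d : Fin n → Fin N := fun v => ⟨v, by omega⟩
  have step : ∀ j, j ≤ e → ∃ U pos alt, ∃ S : Finset Γ, U.card ≤ 2 * M * j ∧ 0 ∈ S ∧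
      j + 1 ≤ S.card ∧ Sys G c R U pos alt S := by
    intro j
    induction j with
    | zero =>
      intro _
      refine ⟨∅, d, d, {0}, by simp, by simp, by simp, by simp, by simp, by simp, ?_⟩
      intro σ hσ π D _ _
      exact ⟨∅, by simp, by simp [mem_singleton.mp hσ]⟩
    | succ j ih =>
      intro hj
      obtain ⟨U, pos, alt, S, hU, h0, hS, sys⟩ := ih (by omega)
      have hU' : U.card ≤ 2 * M * e := hU.trans (Nat.mul_le_mul_left _ (by omega))
      let H := AddAction.stabilizer Γ S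
      let Y := U.image pos ∪ U.image alt
      have cY : Y.card ≤ y := by
        have h1 := card_union_le (U.image pos) (U.image alt)
        have h2 := card_image_le (s := U) (f := pos)
        have h3 := card_image_le (s := U) (f := alt)
        have : y = 2 * M * e + 2 * M * e := by simp only [y]; ring
        simp only [Y]
        omega
      obtain ⟨-, b, K, hKY, cK, -, hK⟩ := hR2 (Fin N) Yᶜ (fun _ => ())
        (fun a b => (c s(a, b), Twin H c a b)) (by rw [card_compl]; simp; omega)
      have K1 : ∀ x ∈ K, ∀ y ∈ K, x ≠ y → c s(x, y) = b.1 := fun x hx y hy hne => by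
        rcases lt_or_gt_of_ne hne with l | l
        · rw [Sym2.eq_swap]; exact (Prod.ext_iff.mp (hK y hy x hx l)).1
        · exact (Prod.ext_iff.mp (hK x hx y hy l)).1
      have K2 : ∀ x ∈ K, ∀ y ∈ K, x ≠ y → (Twin H c x y ↔ b.2) := fun x hx y hy hne => by
        rcases lt_or_gt_of_ne hne with l | l
        · rw [← (Prod.ext_iff.mp (hK y hy x hx l)).2]
          exact ⟨Twin.symm, Twin.symm⟩
        · rw [← (Prod.ext_iff.mp (hK x hx y hy l)).2]
      have KY : ∀ x ∈ K, x ∉ Y := fun x hx => mem_compl.mp (hKY hx)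
      rcases matching G M U with ⟨B, cB, hB⟩ | ⟨u, u', hu, hu', huu, hadj⟩
      · exfalso
        apply hgoal
        obtain ⟨p, p1, p2⟩ := exists_injOn B K (by simp only [k] at cK; omega) d
        obtain ⟨ι, i1, i2, i3⟩ := exists_ext B p p1 K p2 (by omega)
        obtain ⟨π, D, q1, -, -, -, q2⟩ := final G R (hR n) c ⊥ K b.1 K1 (hG _) B ι i1
          (fun v hv => i2 v hv ▸ p2 v hv) i3 (by simp only [k] at cK; omega)
          (fun v w hvw hv hw => ((hB v w hvw).elim hv hw).elim)
        exact ⟨π, q1, by simpa using q2⟩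
      by_cases hb : b.2
      · exfalso
        apply hgoal
        obtain ⟨ι, i1, i2, i3⟩ := exists_ext U pos sys.1 (Y ∪ K)
          (fun v hv => mem_union_left _ (mem_union_left _ (mem_image_of_mem _ hv)))
          (by have := card_union_le Y K; omega)
        have iK : ∀ v, ι v ∉ K := fun v hv => by
          by_cases h : v ∈ U
          · exact KY _ hv (i2 v h ▸ mem_union_left _ (mem_image_of_mem _ h))
          · exact i3 v h (mem_union_right _ hv)
        obtain ⟨π, D, q1, q2, q3, q4, q5⟩ := final G R (hR n) c H K b.1 K1 (hG _) ∅ ι i1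
          (by simp) (fun v _ => iK v) (by simp only [k] at cK; simp; omega)
          (fun v w _ _ _ y hy y' hy' => by
            by_cases hyy : y = y'
            · rw [hyy, sub_self]; exact H.zero_mem
            · exact (K2 y hy y' hy' hyy).mpr hb _ (fun h => iK w (h ▸ hy))
                (fun h => iK w (h ▸ hy')))
        have hs : -Phi G c π ∈ S := by
          have := AddAction.mem_stabilizer_finset_iff_vadd_finset_subset.mp (H.neg_mem q5)
            (vadd_mem_vadd_finset h0)
          simpa using this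
        obtain ⟨T, hT, e⟩ := sys.2.2.2 _ hs π D q2 fun v hv hv' => (q3 v hv').trans (i2 v hv)
        refine ⟨_, piecewise_inj T alt π
          (sys.2.1.mono fun v hv => (mem_sdiff.mp (hT hv)).1) (fun a b _ _ e => q1 e) ?_,
          by rw [e, add_neg_cancel]⟩
        intro a ha b _ e
        have aU := (mem_sdiff.mp (hT ha)).1
        have aY : alt a ∈ Y := mem_union_right _ (mem_image_of_mem _ aU)
        by_cases hD : b ∈ D
        · exact KY _ (q4 b hD) (e ▸ aY)
        · rw [q3 b hD] at e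
          by_cases h : b ∈ U
          · exact sys.2.2.1 b h a aU (by rw [e, i2 b h])
          · exact i3 b h (mem_union_left _ (e ▸ aY))
      · obtain ⟨f, -, hf⟩ := exists_le_card_fiber_of_mul_le_card_of_maps_to (s := K)
          (t := (univ : Finset (Y → Γ))) (f := fun a (y : Y) => c s(a, y)) (n := t)
          (fun _ _ => mem_univ _) univ_nonempty (by
            rw [card_univ, Fintype.card_fun, Fintype.card_coe, cK, ← he]
            have : e ^ Y.card * t ≤ e ^ y * t :=
              Nat.mul_le_mul_right _ (Nat.pow_le_pow_right Fintype.card_pos cY)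
            simp only [k]
            omega)
        obtain ⟨x, z, γ, r1, r2, r3, r4, r5, r6, r7⟩ := ht N c H _ Y
          (fun a ha a' ha' hne h => hb ((K2 a (mem_filter.mp ha).1 a' (mem_filter.mp ha').1
            hne).mp h))
          (disjoint_left.mpr fun a ha => KY a (mem_filter.mp ha).1)
          (fun y hy a ha a' ha' => by
            have h1 := congrFun (mem_filter.mp ha).2 ⟨y, hy⟩
            have h2 := congrFun (mem_filter.mp ha').2 ⟨y, hy⟩
            exact h1.trans h2.symm) hf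
        obtain ⟨pos', alt', δ, hδ, sys', hY'⟩ := newpool G c H (hM n N G c H) u u' hu hu' huu
          (fun i => (hadj i).1) x z γ Y d (fun i => KY _ (mem_filter.mp (r1 i)).1) r2 r3 r4 r5 r6 r7
        refine ⟨_, _, _, _, ?_, mem_union_left _ h0, ?_, sys.extend G sys' ?_ hY'⟩
        · have h1 := card_union_le U (univ.image u ∪ univ.image u')
          have h2 := card_union_le (univ.image u) (univ.image u')
          have h3 := card_image_le (s := univ) (f := u)
          have h4 := card_image_le (s := univ) (f := u')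
          simp only [card_univ, Fintype.card_fin] at h3 h4
          have : 2 * M * (j + 1) = 2 * M * j + 2 * M := by ring
          omega
        · have : S ⊂ S ∪ (δ +ᵥ S) := by
            rw [Finset.ssubset_iff_subset_ne]
            refine ⟨subset_union_left, fun h => hδ ?_⟩
            exact AddAction.mem_stabilizer_finset_iff_vadd_finset_subset.mpr
              (subset_union_right.trans h.ge)
          have := card_lt_card this
          omega
        · rw [disjoint_right]
          intro v hv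
          rcases mem_union.mp hv with hv | hv <;> obtain ⟨g, -, rfl⟩ := mem_image.mp hv
          · exact (hadj g).2.1
          · exact (hadj g).2.2
  obtain ⟨U, pos, alt, S, -, -, hS, -⟩ := step e le_rfl
  have := card_le_univ S
  omega

end Pool.Agent.H23.ZS
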