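import Mathlib

set_option autoImplicit false
set_option maxSynthPendingDepth 3
open scoped Classical
open Finset

namespace Pool.Agent.H23.ZSum

variable {V : Type}

/-- `S` contains a matching with `n` edges of the relation `r`. -/
def Mat (r : V → V → Prop) : ℕ → Finset V → Prop
  | 0, _ => True
  | (n+1), S => ∃ x ∈ S, ∃ y ∈ S, x ≠ y ∧ r x y ∧ Mat r n ((S.erase x).erase y)

theorem Mat_mono (r : V → V → Prop) :
    ∀ (n : ℕ) (S T : Finset V), S ⊆ T → Mat r n S → Mat r n T := by
  intro n
  induction n with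
  | zero => intro S T _ _; trivial
  | succ n ih =>
    rintro S T h ⟨x, hx, y, hy, hxy, hr, hm⟩
    exact ⟨x, h hx, y, h hy, hxy, hr,
      ih _ _ (erase_subset_erase _ (erase_subset_erase _ h)) hm⟩

theorem Mat_union (r : V → V → Prop) (q : ℕ) (T : Finset V) (hT : Mat r q T) :
    ∀ (p : ℕ) (S : Finset V), Disjoint S T → Mat r p S → Mat r (q + p) (S ∪ T) := by
  intro p
  induction p with
  | zero => intro S _ _; exact Mat_mono r q T _ subset_union_right hT
  | succ p ih =>
    rintro S hd ⟨x, hx, y, hy, hxy, hr, hm⟩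
    refine ⟨x, mem_union_left _ hx, y, mem_union_left _ hy, hxy, hr, ?_⟩
    have h1 := ih _ (Disjoint.mono_left ((erase_subset _ _).trans (erase_subset _ _)) hd) hm
    refine Mat_mono r _ _ _ ?_ h1
    intro z hz
    have hxT : x ∉ T := disjoint_left.1 hd hx
    have hyT : y ∉ T := disjoint_left.1 hd hy
    simp only [mem_union, mem_erase] at hz ⊢
    rcases hz with ⟨h1, h2, h3⟩ | h
    · exact ⟨h1, h2, Or.inl h3⟩
    · exact ⟨fun e => hyT (e ▸ h), fun e => hxT (e ▸ h), Or.inr h⟩

theorem Mat_shrink (r : V → V → Prop) :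
    ∀ (n : ℕ) (S : Finset V), Mat r n S → ∃ T ⊆ S, T.card = 2 * n ∧ Mat r n T := by
  intro n
  induction n with
  | zero => intro S _; exact ⟨∅, empty_subset _, by simp, trivial⟩
  | succ n ih =>
    rintro S ⟨x, hx, y, hy, hxy, hr, hm⟩
    obtain ⟨T, hTS, hc, hT⟩ := ih _ hm
    have hxT : x ∉ T := fun h => by
      have := hTS h
      simp at this
    have hyT : y ∉ T := fun h => by
      have := hTS h
      simp at this
    refine ⟨insert x (insert y T), ?_, ?_, x, by simp, y, by simp, hxy, hr, ?_⟩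
    · intro z hz
      simp only [mem_insert] at hz
      rcases hz with rfl | rfl | h
      · exact hx
      · exact hy
      · exact (erase_subset _ _) ((erase_subset _ _) (hTS h))
    · rw [card_insert_of_notMem (by simp [hxy, hxT]), card_insert_of_notMem hyT, hc]; ring
    · refine Mat_mono r _ _ _ ?_ hT
      intro z hz
      simp only [mem_erase, mem_insert]
      exact ⟨fun e => hyT (e ▸ hz), fun e => hxT (e ▸ hz), Or.inr (Or.inr hz)⟩

theorem Mat_clique (r : V → V → Prop) :
    ∀ (n : ℕ) (S : Finset V), (∀ x ∈ S, ∀ y ∈ S, x ≠ y → r x y) → 2 * n ≤ S.card →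
      Mat r n S := by
  intro n
  induction n with
  | zero => intro S _ _; trivial
  | succ n ih =>
    intro S hS hc
    obtain ⟨x, hx, y, hy, hxy⟩ := one_lt_card.1 (show 1 < S.card by omega)
    refine ⟨x, hx, y, hy, hxy, hS x hx y hy hxy, ih _ ?_ ?_⟩
    · intro a ha b hb hab
      exact hS a (erase_subset _ _ (erase_subset _ _ ha)) b
        (erase_subset _ _ (erase_subset _ _ hb)) hab
    · rw [card_erase_of_mem (by simp [hy, hxy.symm]), card_erase_of_mem hx]; omega

theorem Mat_greedy (r : V → V → Prop) :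
    ∀ (n : ℕ) (K D : Finset V), Disjoint K D → n ≤ K.card →
      (∀ k ∈ K, n ≤ (D.filter (r k)).card) → ∃ T ⊆ D, T.card ≤ n ∧ Mat r n (K ∪ T) := by
  intro n
  induction n with
  | zero => intro K D _ _ _; exact ⟨∅, empty_subset _, by simp, trivial⟩
  | succ n ih =>
    intro K D hd hK hD
    obtain ⟨x, hx⟩ := card_pos.1 (show 0 < K.card by omega)
    obtain ⟨y, hy⟩ := card_pos.1 (show 0 < (D.filter (r x)).card by have := hD x hx; omega)
    rw [mem_filter] at hy
    obtain ⟨T, hT, hc, hm⟩ := ih (K.erase x) (D.erase y)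
      (Disjoint.mono (erase_subset _ _) (erase_subset _ _) hd)
      (by rw [card_erase_of_mem hx]; omega)
      (by
        intro k hk
        have h1 := hD k (erase_subset _ _ hk)
        rw [filter_erase]
        have := pred_card_le_card_erase (s := D.filter (r k)) (a := y)
        omega)
    have hxy : x ≠ y := fun e => disjoint_left.1 hd hx (e ▸ hy.1)
    refine ⟨insert y T, ?_, ?_, x, by simp [hx], y, by simp, hxy, hy.2, ?_⟩
    · intro z hz
      rcases mem_insert.1 hz with rfl | h
      · exact hy.1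
      · exact erase_subset _ _ (hT h)
    · have := card_insert_le y T
      omega
    · refine Mat_mono r _ _ _ ?_ hm
      intro z hz
      simp only [mem_erase, mem_insert, mem_union] at hz ⊢
      rcases hz with ⟨h1, h2⟩ | h
      · exact ⟨fun e => disjoint_left.1 hd h2 (e ▸ hy.1), h1, Or.inl h2⟩
      · have h3 := hT h
        rw [mem_erase] at h3
        exact ⟨h3.1, fun e => disjoint_left.1 hd hx (e ▸ h3.2), Or.inr (Or.inr h)⟩

theorem Mat_maxi (r : V → V → Prop) (W : Finset V) :
    ∀ n : ℕ, ¬ Mat r n W → ∃ ν < n, ∃ K ⊆ W, K.card + 2 * ν = W.card ∧ Mat r ν (W \ K) ∧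
      ∀ x ∈ K, ∀ y ∈ K, x ≠ y → ¬ r x y := by
  intro n
  induction n with
  | zero => intro h; exact absurd trivial h
  | succ n ih =>
    intro h
    by_cases hn : Mat r n W
    · obtain ⟨T, hT, hc, hm⟩ := Mat_shrink r n W hn
      refine ⟨n, by omega, W \ T, sdiff_subset, ?_, ?_, ?_⟩
      · rw [← hc]; exact card_sdiff_add_card_eq_card hT
      · rw [Finset.sdiff_sdiff_eq_self hT]; exact hm
      · intro x hx y hy hxy hr
        rw [mem_sdiff] at hx hy
        refine h ⟨x, hx.1, y, hy.1, hxy, hr, Mat_mono r _ _ _ ?_ hm⟩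
        intro z hz
        simp only [mem_erase]
        exact ⟨fun e => hy.2 (e ▸ hz), fun e => hx.2 (e ▸ hz), hT hz⟩
    · obtain ⟨ν, h1, h2⟩ := ih hn
      exact ⟨ν, by omega, h2⟩

theorem Mat_funs (r : V → V → Prop) (w : V) :
    ∀ (n : ℕ) (S : Finset V), Mat r n S → ∃ p q : ℕ → V,
      (∀ i < n, p i ∈ S ∧ q i ∈ S ∧ r (p i) (q i)) ∧
      (∀ i < n, ∀ j < n, (p i = p j → i = j) ∧ (q i = q j → i = j) ∧ p i ≠ q j) := by
  intro n
  induction n with
  | zero => intro S _; exact ⟨fun _ => w, fun _ => w, by simp, by simp⟩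
  | succ n ih =>
    rintro S ⟨x, hx, y, hy, hxy, hr, hm⟩
    obtain ⟨p, q, h1, h2⟩ := ih _ hm
    refine ⟨fun i => if i = n then x else p i, fun i => if i = n then y else q i, ?_, ?_⟩
    · intro i hi
      by_cases e : i = n
      · simp [e, hx, hy, hr]
      · have := h1 i (by omega)
        simp only [mem_erase] at this
        simp only [e, if_false]
        exact ⟨this.1.2.2, this.2.1.2.2, this.2.2⟩
    · intro i hi j hj
      by_cases e : i = n <;> by_cases e' : j = n
      · simp [e, e', hxy]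
      · have := h1 j (by omega)
        simp only [mem_erase] at this
        simp only [e, e', if_true, if_false]
        exact ⟨fun h => absurd h.symm this.1.2.1, fun h => absurd h.symm this.2.1.1,
          fun h => this.2.1.2.1 h.symm⟩
      · have := h1 i (by omega)
        simp only [mem_erase] at this
        simp only [e, e', if_true, if_false]
        exact ⟨fun h => absurd h this.1.2.1, fun h => absurd h this.2.1.1, this.1.1⟩
      · simp only [e, e', if_false]
        exact h2 i (by omega) j (by omega)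

variable [Fintype V]

/-- neighbourhood of `w` -/
noncomputable def Nb (r : V → V → Prop) (w : V) : Finset V :=
  univ.filter (fun v => v ≠ w ∧ r w v)

theorem mem_Nb (r : V → V → Prop) (w v : V) : v ∈ Nb r w ↔ v ≠ w ∧ r w v := by
  simp [Nb]

/-- a star with `a` leaves and a disjoint matching with `t` edges -/
def Has (r : V → V → Prop) (a t : ℕ) : Prop :=
  ∃ w : V, ∃ S : Finset V, w ∉ S ∧ Mat r t S ∧ a ≤ (Nb r w \ S).card

/-- parent of a child vertex -/
def par (a t v : ℕ) : ℕ := if v ≤ a then 0 else v - t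

/-- child vertices -/
def Ch (a t v : ℕ) : Prop := (1 ≤ v ∧ v ≤ a) ∨ (a + t < v ∧ v ≤ a + 2 * t)

theorem Has_embed (r : V → V → Prop) (a t : ℕ) (h : Has r a t) :
    ∃ f : ℕ → V, (∀ i ≤ a + 2 * t, ∀ j ≤ a + 2 * t, f i = f j → i = j) ∧
      ∀ v, Ch a t v → r (f (par a t v)) (f v) := by
  obtain ⟨w, S, hw, hm, hc⟩ := h
  obtain ⟨p, q, h1, h2⟩ := Mat_funs r w t S hm
  obtain ⟨e, he⟩ := Function.Embedding.exists_of_card_le_finset (α := Fin a)
    (s := Nb r w \ S) (by simpa using hc)
  have he' : ∀ i : Fin a, e i ≠ w ∧ r w (e i) ∧ e i ∉ S := by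
    intro i
    have : e i ∈ Nb r w \ S := by
      have := he (Set.mem_range_self i)
      simpa using this
    rw [mem_sdiff, mem_Nb] at this
    exact ⟨this.1.1, this.1.2, this.2⟩
  let l : ℕ → V := fun i => if h : i < a then e ⟨i, h⟩ else w
  have hl : ∀ i < a, l i ≠ w ∧ r w (l i) ∧ l i ∉ S := by
    intro i hi
    simp only [l, hi, dif_pos]
    exact he' _
  have hl2 : ∀ i < a, ∀ j < a, l i = l j → i = j := by
    intro i hi j hj h
    simp only [l, hi, hj, dif_pos] at h
    have := e.injective h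
    simpa using this
  let f : ℕ → V := fun v => if v = 0 then w else if v ≤ a then l (v - 1)
    else if v ≤ a + t then p (v - a - 1) else q (v - a - t - 1)
  have f0 : f 0 = w := by simp [f]
  have f1 : ∀ v, 1 ≤ v → v ≤ a → f v = l (v - 1) := by
    intro v h1 h2
    simp only [f]
    rw [if_neg (by omega), if_pos h2]
  have f2 : ∀ v, a < v → v ≤ a + t → f v = p (v - a - 1) := by
    intro v h1 h2
    simp only [f]
    rw [if_neg (by omega), if_neg (by omega), if_pos h2]
  have f3 : ∀ v, a + t < v → f v = q (v - a - t - 1) := by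
    intro v h1
    simp only [f]
    rw [if_neg (by omega), if_neg (by omega), if_neg (by omega)]
  have cs : ∀ v, v = 0 ∨ (1 ≤ v ∧ v ≤ a) ∨ (a < v ∧ v ≤ a + t) ∨ a + t < v := by
    intro v; omega
  refine ⟨f, ?_, ?_⟩
  · intro i hi j hj h
    rcases cs i with a1 | ⟨a1, a2⟩ | ⟨a1, a2⟩ | a1 <;>
      rcases cs j with b1 | ⟨b1, b2⟩ | ⟨b1, b2⟩ | b1
    · omega
    · rw [a1, f0, f1 j b1 b2] at h
      exact absurd h.symm (hl _ (by omega)).1
    · rw [a1, f0, f2 j b1 b2] at h
      exact absurd (h ▸ (h1 _ (by omega)).1) hw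
    · rw [a1, f0, f3 j b1] at h
      exact absurd (h ▸ (h1 _ (by omega)).2.1) hw
    · rw [b1, f0, f1 i a1 a2] at h
      exact absurd h (hl _ (by omega)).1
    · rw [f1 i a1 a2, f1 j b1 b2] at h
      have := hl2 _ (by omega) _ (by omega) h
      omega
    · rw [f1 i a1 a2, f2 j b1 b2] at h
      exact absurd (h ▸ (h1 _ (by omega)).1) (hl (i - 1) (by omega)).2.2
    · rw [f1 i a1 a2, f3 j b1] at h
      exact absurd (h ▸ (h1 _ (by omega)).2.1) (hl (i - 1) (by omega)).2.2
    · rw [b1, f0, f2 i a1 a2] at h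
      exact absurd (h ▸ (h1 (i - a - 1) (by omega)).1) hw
    · rw [f2 i a1 a2, f1 j b1 b2] at h
      exact absurd (h ▸ (h1 (i - a - 1) (by omega)).1) (hl (j - 1) (by omega)).2.2
    · rw [f2 i a1 a2, f2 j b1 b2] at h
      have := (h2 _ (by omega) _ (by omega)).1 h
      omega
    · rw [f2 i a1 a2, f3 j b1] at h
      exact absurd h (h2 _ (by omega) _ (by omega)).2.2
    · rw [b1, f0, f3 i a1] at h
      exact absurd (h ▸ (h1 (i - a - t - 1) (by omega)).2.1) hw
    · rw [f3 i a1, f1 j b1 b2] at h
      exact absurd (h ▸ (h1 (i - a - t - 1) (by omega)).2.1) (hl (j - 1) (by omega)).2.2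
    · rw [f3 i a1, f2 j b1 b2] at h
      exact absurd h.symm (h2 _ (by omega) _ (by omega)).2.2
    · rw [f3 i a1, f3 j b1] at h
      have := (h2 _ (by omega) _ (by omega)).2.1 h
      omega
  · intro v hv
    rcases hv with ⟨a1, a2⟩ | ⟨a1, a2⟩
    · rw [par, if_pos a2, f0, f1 v a1 a2]
      exact (hl _ (by omega)).2.1
    · rw [par, if_neg (by omega), f2 _ (by omega) (by omega), f3 v a1]
      have : v - t - a - 1 = v - a - t - 1 := by omega
      rw [this]
      exact (h1 _ (by omega)).2.2

theorem Has_many {κ : Type} [Fintype κ] [Nonempty κ] (c : V → V → κ) (a t : ℕ)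
    (hV : Fintype.card κ * (a + 3 * t + 1) < Fintype.card V) :
    ∃ χ : κ, Has (fun x y => c x y = χ) a t := by
  have h1 : ∀ w : V, ∃ χ : κ, a + 3 * t + 1 ≤ (Nb (fun x y => c x y = χ) w).card := by
    intro w
    obtain ⟨χ, -, h⟩ := exists_le_card_fiber_of_mul_le_card_of_maps_to
      (s := univ.erase w) (t := (univ : Finset κ)) (f := c w) (n := a + 3 * t + 1)
      (fun _ _ => mem_univ _) univ_nonempty
      (by rw [card_erase_of_mem (mem_univ _), card_univ, card_univ]; omega)
    refine ⟨χ, h.trans (card_le_card ?_)⟩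
    intro v hv
    simp only [mem_filter, mem_erase] at hv
    rw [mem_Nb]
    exact ⟨hv.1.1, hv.2⟩
  choose g hg using h1
  obtain ⟨χ, -, h⟩ := exists_le_card_fiber_of_mul_le_card_of_maps_to
      (s := (univ : Finset V)) (t := (univ : Finset κ)) (f := g) (n := t + 1)
      (fun _ _ => mem_univ _) univ_nonempty
      (by
        rw [card_univ, card_univ]
        have : Fintype.card κ * (t + 1) ≤ Fintype.card κ * (a + 3 * t + 1) :=
          Nat.mul_le_mul_left _ (by omega)
        omega)
  obtain ⟨K0, hK0, hc0⟩ := exists_subset_card_eq h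
  obtain ⟨w, hw⟩ := card_pos.1 (show 0 < K0.card by omega)
  have hg' : ∀ k ∈ K0, a + 3 * t + 1 ≤ (Nb (fun x y => c x y = χ) k).card := by
    intro k hk
    have := hK0 hk
    rw [mem_filter] at this
    rw [← this.2]
    exact hg k
  obtain ⟨T, hT, hc, hm⟩ := Mat_greedy (fun x y => c x y = χ) t (K0.erase w) (univ \ K0)
    (Disjoint.mono_left (erase_subset _ _) disjoint_sdiff)
    (by rw [card_erase_of_mem hw]; omega)
    (by
      intro k hk
      have h1 := hg' k (erase_subset _ _ hk)
      have h2 : Nb (fun x y => c x y = χ) k \ K0 ⊆ (univ \ K0).filter (fun y => c k y = χ) := by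
        intro z hz
        rw [mem_sdiff, mem_Nb] at hz
        simp [hz.2, hz.1.2]
      have h3 := card_le_card h2
      have h4 := le_card_sdiff K0 (Nb (fun x y => c x y = χ) k)
      omega)
  refine ⟨χ, w, K0.erase w ∪ T, ?_, hm, ?_⟩
  · simp only [mem_union, mem_erase, not_or]
    refine ⟨by simp, fun h => ?_⟩
    have := hT h
    simp [hw] at this
  · have h1 := hg' w hw
    have h4 := le_card_sdiff (K0.erase w ∪ T) (Nb (fun x y => c x y = χ) w)
    have h5 := card_union_le (K0.erase w) T
    rw [card_erase_of_mem hw] at h5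
    omega

/-- colour class -/
def R (c : V → V → Bool) (b : Bool) : V → V → Prop := fun x y => c x y = b

theorem deg_sum (c : V → V → Bool) (b : Bool) (w : V) :
    (Nb (R c b) w).card + (Nb (R c (!b)) w).card + 1 = Fintype.card V := by
  have h1 : Nb (R c b) w ∪ Nb (R c (!b)) w = univ.erase w := by
    ext v
    simp only [mem_union, mem_Nb, R, mem_erase, mem_univ, and_true]
    cases b <;> cases c w v <;> simp
  have h2 : Disjoint (Nb (R c b) w) (Nb (R c (!b)) w) := by
    rw [disjoint_left]
    intro v h1 h2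
    rw [mem_Nb] at h1 h2
    have h3 := h1.2
    have h4 := h2.2
    simp only [R] at h3 h4
    rw [h3] at h4
    cases b <;> simp at h4
  have h3 := card_union_of_disjoint h2
  rw [h1, card_erase_of_mem (mem_univ _), card_univ] at h3
  have : 0 < Fintype.card V := Fintype.card_pos_iff.2 ⟨w⟩
  omega

section
variable (c : V → V → Bool) (hs : ∀ x y, c x y = c y x) (s : ℕ)
  (hV : Fintype.card V = 142 * s)
  (H : ∀ b w S, w ∉ S → Mat (R c b) (20 * s) S → (Nb (R c b) w \ S).card < 62 * s)
include hV H

theorem step1 (b : Bool) (w : V) : (Nb (R c b) w).card < 102 * s := by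
  by_contra hc
  have h0 : 0 < Fintype.card V := Fintype.card_pos_iff.2 ⟨w⟩
  have hn : ¬ Mat (R c b) (20 * s) (univ.erase w) := by
    intro hm
    obtain ⟨T, hT, h1, h2⟩ := Mat_shrink _ _ _ hm
    have h3 := H b w T (fun h => by simpa using hT h) h2
    have h4 := le_card_sdiff T (Nb (R c b) w)
    omega
  obtain ⟨ν, hν, K, hK, h1, -, h2⟩ := Mat_maxi _ _ _ hn
  rw [card_erase_of_mem (mem_univ _), card_univ] at h1
  have hcl : ∀ x ∈ K, ∀ y ∈ K, x ≠ y → R c (!b) x y := by
    intro x hx y hy hxy
    have := h2 x hx y hy hxy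
    simp only [R] at this ⊢
    cases b <;> simpa using this
  obtain ⟨u, hu⟩ := card_pos.1 (show 0 < K.card by omega)
  obtain ⟨S, hS, hSc⟩ := exists_subset_card_eq (s := K.erase u) (n := 40 * s)
    (by rw [card_erase_of_mem hu]; omega)
  have h3 := H (!b) u S (fun h => by simpa using hS h)
    (Mat_clique _ _ _ (fun x hx y hy hxy =>
      hcl x (erase_subset _ _ (hS hx)) y (erase_subset _ _ (hS hy)) hxy) (by omega))
  have h4 : K.erase u \ S ⊆ Nb (R c (!b)) u \ S := by
    intro z hz
    rw [mem_sdiff, mem_erase] at hz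
    rw [mem_sdiff, mem_Nb]
    exact ⟨⟨hz.1.1, hcl u hu z hz.1.2 (Ne.symm hz.1.1)⟩, hz.2⟩
  have h5 := card_le_card h4
  have h6 := le_card_sdiff S (K.erase u)
  rw [card_erase_of_mem hu] at h6
  omega

theorem step1' (b : Bool) (w : V) : 40 * s ≤ (Nb (R c b) w).card := by
  have h1 := step1 c s hV H (!b) w
  have h2 := deg_sum c b w
  omega

include hs in
theorem step2 (b : Bool) (w : V) (hd : 62 * s ≤ (Nb (R c b) w).card) :
    ∃ K ⊆ Nb (R c (!b)) w, (∀ x ∈ K, ∀ y ∈ K, x ≠ y → c x y = !b) ∧
      (Nb (R c b) w).card + 1 ≤ K.card + 22 * s := by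
  have hdis : Disjoint (Nb (R c (!b)) w) (Nb (R c b) w) := by
    rw [disjoint_left]
    intro v h1 h2
    rw [mem_Nb] at h1 h2
    have h3 := h1.2
    have h4 := h2.2
    simp only [R] at h3 h4
    rw [h3] at h4
    cases b <;> simp at h4
  have hwW : w ∉ Nb (R c (!b)) w := by simp [mem_Nb]
  have hwD : w ∉ Nb (R c b) w := by simp [mem_Nb]
  have hn : ¬ Mat (R c b) (20 * s) (Nb (R c (!b)) w) := by
    intro hm
    have h3 := H b w _ hwW hm
    rw [sdiff_eq_self_of_disjoint hdis.symm] at h3
    omega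
  obtain ⟨ν, hν, K, hK, h1, hm, h2⟩ := Mat_maxi _ _ _ hn
  have hW := step1' c s hV H (!b) w
  have hsum := deg_sum c b w
  obtain ⟨T, hT, hTc, hm2⟩ := Mat_greedy (R c b) (20 * s - ν) K (Nb (R c b) w)
    (Disjoint.mono_left hK hdis) (by omega)
    (by
      intro k hk
      have h3 := step1' c s hV H b k
      have h4 : Nb (R c b) k ⊆ (Nb (R c b) w).filter (R c b k) ∪ (Nb (R c (!b)) w \ K) := by
        intro z hz
        rw [mem_Nb] at hz
        have hkW := hK hk
        rw [mem_Nb] at hkW
        have hzw : z ≠ w := by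
          rintro rfl
          have h5 := hz.2
          have h6 := hkW.2
          simp only [R] at h5 h6
          rw [hs, h6] at h5
          cases b <;> simp at h5
        simp only [mem_union, mem_filter, mem_sdiff, mem_Nb]
        by_cases h7 : c w z = b
        · exact Or.inl ⟨⟨hzw, h7⟩, hz.2⟩
        · refine Or.inr ⟨⟨hzw, ?_⟩, fun hzK => h2 k hk z hzK (Ne.symm hz.1) hz.2⟩
          simp only [R]
          cases b <;> simpa using h7
      have h5 := card_le_card h4
      have h6 := card_union_le ((Nb (R c b) w).filter (R c b k)) (Nb (R c (!b)) w \ K)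
      have h7 := card_sdiff_add_card_eq_card hK
      omega)
  have hm3 := Mat_union (R c b) (20 * s - ν) (K ∪ T) hm2 ν (Nb (R c (!b)) w \ K)
    (by
      rw [disjoint_union_right]
      exact ⟨sdiff_disjoint, Disjoint.mono sdiff_subset hT hdis⟩) hm
  have e : 20 * s - ν + ν = 20 * s := by omega
  rw [e] at hm3
  have h3 := H b w _ (by
    simp only [mem_union, mem_sdiff, not_or]
    exact ⟨fun h => hwW h.1, fun h => hwW (hK h), fun h => hwD (hT h)⟩) hm3
  have h4 : Nb (R c b) w \ T ⊆ Nb (R c b) w \ (Nb (R c (!b)) w \ K ∪ (K ∪ T)) := by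
    intro z hz
    rw [mem_sdiff] at hz
    have : z ∉ Nb (R c (!b)) w := disjoint_right.1 hdis hz.1
    simp only [mem_union, mem_sdiff, not_or]
    exact ⟨hz.1, fun h => this h.1, fun h => this (hK h), hz.2⟩
  have h5 := card_le_card h4
  have h6 := le_card_sdiff T (Nb (R c b) w)
  refine ⟨K, hK, ?_, by omega⟩
  intro x hx y hy hxy
  have := h2 x hx y hy hxy
  simp only [R] at this
  cases b <;> simpa using this

include hs in
theorem one_type (hs1 : 1 ≤ s) (b : Bool) (hb : ∀ w, (Nb (R c (!b)) w).card < 62 * s) :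
    False := by
  have h1 : ∀ w, ∃ K ⊆ Nb (R c (!b)) w, (∀ x ∈ K, ∀ y ∈ K, x ≠ y → c x y = !b) ∧
      K.card = 58 * s := by
    intro w
    have h2 := deg_sum c b w
    have h3 := hb w
    obtain ⟨K, hK, h4, h5⟩ := step2 c hs s hV H b w (by omega)
    obtain ⟨K', hK', h6⟩ := exists_subset_card_eq (s := K) (n := 58 * s) (by omega)
    exact ⟨K', hK'.trans hK, fun x hx y hy => h4 x (hK' hx) y (hK' hy), h6⟩
  choose K hK hcl hc using h1
  let Z : V → Finset V := fun w =>
    univ.filter (fun z => 54 * s ≤ ((K w).filter (fun k => k ∈ Nb (R c (!b)) z)).card)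
  have hZ : ∀ w, (Z w).card ≤ 67 * s := by
    intro w
    have h2 := card_nsmul_le_card_nsmul (s := Z w) (t := K w) (m := 54 * s) (n := 62 * s)
      (fun z k => k ∈ Nb (R c (!b)) z)
      (by
        intro z hz
        simp only [Z, mem_filter] at hz
        simpa [bipartiteAbove] using hz.2)
      (by
        intro k hk
        have h3 := hb k
        have h4 : (Z w).bipartiteBelow (fun z k => k ∈ Nb (R c (!b)) z) k
            ⊆ Nb (R c (!b)) k := by
          intro z hz
          rw [mem_bipartiteBelow, mem_Nb] at hz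
          rw [mem_Nb]
          refine ⟨Ne.symm hz.2.1, ?_⟩
          have := hz.2.2
          simp only [R] at this ⊢
          rw [hs]; exact this
        have := card_le_card h4
        simp only [Nat.cast_id]
        omega)
    rw [hc, smul_eq_mul, smul_eq_mul] at h2
    by_contra h3
    have h4 : 67 * s * (54 * s) ≤ (Z w).card * (54 * s) := Nat.mul_le_mul_right _ (by omega)
    nlinarith
  have hdis : ∀ w z, z ∉ Z w → Disjoint (K w) (K z) := by
    intro w z hz
    rw [disjoint_left]
    intro y h1 h2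
    apply hz
    simp only [Z, mem_filter, mem_univ, true_and]
    have h3 : K w ∪ K z ⊆ insert y (Nb (R c (!b)) y) := by
      intro x hx
      rw [mem_insert, mem_Nb]
      by_cases e : x = y
      · exact Or.inl e
      · rcases mem_union.1 hx with h | h
        · exact Or.inr ⟨e, hcl w y h1 x h (Ne.symm e)⟩
        · exact Or.inr ⟨e, hcl z y h2 x h (Ne.symm e)⟩
    have h4 := card_le_card h3
    have h5 := card_insert_le y (Nb (R c (!b)) y)
    have h6 := hb y
    have h7 := card_union_add_card_inter (K w) (K z)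
    have h8 : K w ∩ K z ⊆ (K w).filter (fun k => k ∈ Nb (R c (!b)) z) := by
      intro x hx
      rw [mem_inter] at hx
      rw [mem_filter]
      exact ⟨hx.1, hK z hx.2⟩
    have h9 := card_le_card h8
    rw [hc, hc] at h7
    omega
  have hex : ∀ A : Finset V, A.card < 142 * s → ∃ z, z ∉ A := by
    intro A hA
    by_contra h
    push Not at h
    have : A = univ := eq_univ_iff_forall.2 h
    rw [this, card_univ] at hA
    omega
  obtain ⟨w1, -⟩ := hex ∅ (by simp; omega)
  obtain ⟨w2, h2⟩ := hex (Z w1) (by have := hZ w1; omega)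
  obtain ⟨w3, h3⟩ := hex (Z w1 ∪ Z w2) (by
    have := hZ w1
    have := hZ w2
    have := card_union_le (Z w1) (Z w2)
    omega)
  rw [mem_union, not_or] at h3
  have h4 := card_union_of_disjoint (hdis w1 w2 h2)
  have h5 := card_union_of_disjoint
    (disjoint_union_left.2 ⟨hdis w1 w3 h3.1, hdis w2 w3 h3.2⟩)
  have h6 := card_le_univ (K w1 ∪ K w2 ∪ K w3)
  rw [hc, hc] at h4
  rw [hc] at h5
  omega

include hs in
theorem two_type (hs1 : 1 ≤ s) (u v : V) (hu : 62 * s ≤ (Nb (R c true) u).card)
    (hv : 62 * s ≤ (Nb (R c false) v).card) : False := by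
  obtain ⟨u', -, hu'⟩ := exists_max_image univ (fun w => (Nb (R c true) w).card)
    ⟨u, mem_univ _⟩
  obtain ⟨v', -, hv'⟩ := exists_max_image univ (fun w => (Nb (R c false) w).card)
    ⟨u, mem_univ _⟩
  simp only [mem_univ, true_imp_iff] at hu' hv'
  obtain ⟨K1, -, c1, d1⟩ := step2 c hs s hV H true u' (hu.trans (hu' u))
  obtain ⟨K2, -, c2, d2⟩ := step2 c hs s hV H false v' (hv.trans (hv' v))
  simp only [Bool.not_true, Bool.not_false] at c1 c2
  have hsum := deg_sum c true u
  simp only [Bool.not_true] at hsum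
  have e1 := hu' u
  have e2 := hv' u
  have e3 := hv' v
  obtain ⟨P, hP⟩ : ∃ P, (Nb (R c true) u').card = P + 22 * s :=
    ⟨(Nb (R c true) u').card - 22 * s, by omega⟩
  obtain ⟨Q, hQ⟩ : ∃ Q, (Nb (R c false) v').card = Q + 22 * s :=
    ⟨(Nb (R c false) v').card - 22 * s, by omega⟩
  have hi : (K1 ∩ K2).card ≤ 1 := by
    rw [card_le_one]
    intro x hx y hy
    rw [mem_inter] at hx hy
    by_contra hxy
    have h1 := c1 x hx.1 y hy.1 hxy
    have h2 := c2 x hx.2 y hy.2 hxy
    rw [h1] at h2
    simp at h2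
  have hi2 := card_sdiff_add_card_inter K1 K2
  obtain ⟨A, hA, hAc⟩ := exists_subset_card_eq (s := K1 \ K2) (n := P) (by omega)
  obtain ⟨B, hB, hBc⟩ := exists_subset_card_eq (s := K2) (n := Q) (by omega)
  have hAB : ∀ x ∈ A, x ∉ B := fun x hx h => (mem_sdiff.1 (hA hx)).2 (hB h)
  have hA1 : ∀ x ∈ A, x ∈ K1 := fun x hx => (mem_sdiff.1 (hA hx)).1
  -- blue neighbours in B of a vertex of A
  have b1 : ∀ x ∈ A, (B.filter (fun y => c x y = false)).card + P ≤ Q + 22 * s + 1 := by
    intro x hx
    have h1 : B.filter (fun y => c x y = false) ∪ A.erase x ⊆ Nb (R c false) x := by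
      intro z hz
      rw [mem_Nb]
      rcases mem_union.1 hz with h | h
      · rw [mem_filter] at h
        exact ⟨fun e => hAB x hx (e ▸ h.1), h.2⟩
      · rw [mem_erase] at h
        exact ⟨h.1, c1 x (hA1 x hx) z (hA1 z h.2) (Ne.symm h.1)⟩
    have h2 : Disjoint (B.filter (fun y => c x y = false)) (A.erase x) := by
      rw [disjoint_right]
      intro z h3 h4
      exact hAB z (erase_subset _ _ h3) (mem_filter.1 h4).1
    have h3 := card_le_card h1
    rw [card_union_of_disjoint h2, card_erase_of_mem hx] at h3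
    have := hv' x
    omega
  have b2 : ∀ y ∈ B, (A.filter (fun x => c x y = true)).card + Q ≤ P + 22 * s + 1 := by
    intro y hy
    have h1 : A.filter (fun x => c x y = true) ∪ B.erase y ⊆ Nb (R c true) y := by
      intro z hz
      rw [mem_Nb]
      rcases mem_union.1 hz with h | h
      · rw [mem_filter] at h
        refine ⟨fun e => hAB z h.1 (e ▸ hy), ?_⟩
        simp only [R]
        rw [hs]; exact h.2
      · rw [mem_erase] at h
        exact ⟨h.1, c2 y (hB hy) z (hB h.2) (Ne.symm h.1)⟩
    have h2 : Disjoint (A.filter (fun x => c x y = true)) (B.erase y) := by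
      rw [disjoint_left]
      intro z h3 h4
      exact hAB z (mem_filter.1 h3).1 (erase_subset _ _ h4)
    have h3 := card_le_card h1
    rw [card_union_of_disjoint h2, card_erase_of_mem hy] at h3
    have := hu' y
    omega
  have s1 := sum_le_card_nsmul A _ _ b1
  have s2 := sum_le_card_nsmul B _ _ b2
  rw [sum_add_distrib, sum_const, hAc, smul_eq_mul, smul_eq_mul] at s1
  rw [sum_add_distrib, sum_const, hBc, smul_eq_mul, smul_eq_mul] at s2
  have s3 : ∑ y ∈ B, (A.filter (fun x => c x y = true)).card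
      = ∑ x ∈ A, (B.filter (fun y => c x y = true)).card := by
    simp only [card_filter]
    exact sum_comm
  have s4 : ∑ x ∈ A, (B.filter (fun y => c x y = true)).card
      + ∑ x ∈ A, (B.filter (fun y => c x y = false)).card = P * Q := by
    rw [← sum_add_distrib, ← hAc, ← smul_eq_mul, ← sum_const]
    refine sum_congr rfl (fun x _ => ?_)
    have := card_filter_add_card_filter_not (s := B) (fun y => c x y = true)
    simp only [Bool.not_eq_true] at this
    rw [this, hBc]
  have s5 : 98 * s ≤ P + Q + 1 := by omega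
  have s6 : P * Q + P * P + Q * Q ≤ P * (Q + 22 * s + 1) + Q * (P + 22 * s + 1) := by omega
  have s7 : (88 * s + 5) * (P + Q) ≤ (P + Q) * (P + Q) := Nat.mul_le_mul_right _ (by omega)
  zify at s5 s6 s7 hs1
  nlinarith [sq_nonneg ((P : ℤ) - Q)]

end

theorem two_col (c : V → V → Bool) (hs : ∀ x y, c x y = c y x) (s : ℕ) (hs1 : 1 ≤ s)
    (hV : Fintype.card V = 142 * s) : ∃ b, Has (R c b) (62 * s) (20 * s) := by
  by_contra h
  have H : ∀ b w S, w ∉ S → Mat (R c b) (20 * s) S → (Nb (R c b) w \ S).card < 62 * s := by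
    intro b w S hw hm
    by_contra h1
    exact h ⟨b, w, S, hw, hm, by omega⟩
  by_cases h1 : ∀ w, (Nb (R c true) w).card < 62 * s
  · exact one_type c hs s hV H hs1 false h1
  by_cases h2 : ∀ w, (Nb (R c false) w).card < 62 * s
  · exact one_type c hs s hV H hs1 true h2
  push Not at h1 h2
  obtain ⟨u, hu⟩ := h1
  obtain ⟨v, hv⟩ := h2
  exact two_type c hs s hV H hs1 u v hu hv

end Pool.Agent.H23.ZSum
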